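import Mathlib

open Filter MeasureTheory Metric Real Set Topology

namespace MinMod

/-- positive part of `log (c / |y|)` -/
noncomputable def kern (c y : ℝ) : ℝ := max 0 (Real.log c - Real.log y)

lemma kern_nonneg (c y : ℝ) : 0 ≤ kern c y := le_max_left _ _

lemma le_kern (c y : ℝ) : Real.log c - Real.log y ≤ kern c y := le_max_right _ _

lemma kern_ae_eq {c : ℝ} (hc : 0 < c) :
    (fun y => kern c y) =ᵐ[volume] (Ioc (-c) c).indicator (fun y => Real.log c - Real.log y) := by
  have h0 : ∀ᵐ y : ℝ ∂volume, y ≠ 0 := by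
    rw [ae_iff]; simp
  have h1 : ∀ᵐ y : ℝ ∂volume, y ≠ -c := by
    rw [ae_iff]; simp
  filter_upwards [h0, h1] with y hy hy1
  by_cases hyc : y ∈ Ioc (-c) c
  · rw [indicator_of_mem hyc, kern, max_eq_right]
    rw [sub_nonneg, ← Real.log_abs y]
    exact Real.log_le_log (abs_pos.2 hy) (abs_le.2 ⟨hyc.1.le, hyc.2⟩)
  · rw [indicator_of_notMem hyc, kern, max_eq_left]
    rw [sub_nonpos, ← Real.log_abs y]
    apply Real.log_le_log hc
    rw [mem_Ioc, not_and_or, not_lt, not_le] at hyc
    rcases hyc with h | h
    · rw [abs_of_nonpos (by linarith)]; linarith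
    · rw [abs_of_pos (by linarith)]; linarith

lemma kern_integrable {c : ℝ} (hc : 0 < c) : Integrable (fun y => kern c y) volume := by
  rw [integrable_congr (kern_ae_eq hc), integrable_indicator_iff measurableSet_Ioc,
    ← intervalIntegrable_iff_integrableOn_Ioc_of_le (by linarith)]
  exact intervalIntegrable_const.sub intervalIntegral.intervalIntegrable_log'

lemma kern_integral {c : ℝ} (hc : 0 < c) : ∫ y, kern c y = 2 * c := by
  rw [integral_congr_ae (kern_ae_eq hc), integral_indicator measurableSet_Ioc,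
    ← intervalIntegral.integral_of_le (by linarith), intervalIntegral.integral_sub
      intervalIntegrable_const intervalIntegral.intervalIntegrable_log', integral_log]
  simp
  ring

lemma avg_choice {ι : Type*} (s : Finset ι) (n : ι → ℝ) (hn : ∀ i ∈ s, 0 ≤ n i) (y : ι → ℝ)
    {c ε : ℝ} (hc : 0 < c) (hε : 0 < ε) :
    ∃ x ∈ Icc 0 ε, (∀ i ∈ s, x ≠ y i) ∧
      ∑ i ∈ s, n i * kern c (x - y i) ≤ 2 * c / ε * ∑ i ∈ s, n i := by
  classical
  set μ : Measure ℝ := volume.restrict (Icc 0 ε) with hμ
  have hμ0 : μ ≠ 0 := by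
    rw [hμ, ne_eq, Measure.restrict_eq_zero, Real.volume_Icc]
    simp [hε]
  have hfin : IsFiniteMeasure μ := by
    rw [hμ]; infer_instance
  have hint : ∀ i ∈ s, Integrable (fun x => n i * kern c (x - y i)) μ := by
    intro i _
    apply Integrable.const_mul
    exact ((kern_integrable hc).comp_sub_right (y i)).mono_measure Measure.restrict_le_self
  have hint' : Integrable (fun x => ∑ i ∈ s, n i * kern c (x - y i)) μ :=
    integrable_finset_sum _ hint
  have hN : μ ((Icc 0 ε)ᶜ ∪ (s.image y : Set ℝ)) = 0 := by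
    apply measure_union_null
    · rw [hμ, Measure.restrict_apply measurableSet_Icc.compl]; simp
    · exact measure_mono_null (le_refl _) ((Finset.finite_toSet _).measure_zero _)
  obtain ⟨x, hx, hle⟩ := exists_notMem_null_le_average hμ0 hint' hN
  rw [mem_union, not_or, mem_compl_iff, not_not] at hx
  refine ⟨x, hx.1, ?_, ?_⟩
  · intro i hi h
    apply hx.2
    rw [h]
    exact_mod_cast Finset.mem_image_of_mem y hi
  · refine hle.trans ?_
    rw [average_eq, smul_eq_mul]
    have hreal : μ.real univ = ε := by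
      rw [hμ, measureReal_restrict_apply MeasurableSet.univ, univ_inter]
      simp [Measure.real, hε.le]
    rw [hreal, integral_finset_sum _ hint]
    have h1 : ∀ i ∈ s, ∫ x, n i * kern c (x - y i) ∂μ ≤ n i * (2 * c) := by
      intro i hi
      rw [integral_const_mul]
      apply mul_le_mul_of_nonneg_left _ (hn i hi)
      have h2 : ∫ x, kern c (x - y i) ∂μ ≤ ∫ x, kern c (x - y i) := by
        apply setIntegral_le_integral ((kern_integrable hc).comp_sub_right (y i))
        exact Eventually.of_forall (fun x => kern_nonneg _ _)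
      refine h2.trans ?_
      rw [integral_sub_right_eq_self (fun x => kern c x), kern_integral hc]
    calc ε⁻¹ * ∑ i ∈ s, ∫ x, n i * kern c (x - y i) ∂μ
        ≤ ε⁻¹ * ∑ i ∈ s, n i * (2 * c) := by
          apply mul_le_mul_of_nonneg_left (Finset.sum_le_sum h1) (by positivity)
      _ = 2 * c / ε * ∑ i ∈ s, n i := by
          rw [← Finset.sum_mul]; field_simp

end MinMod
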