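import Pool.Agent.Work.MP_06ac62_an.DefsA

open Complex Metric Filter Topology

namespace Pool.Agent.Work.MP_06ac62_an

lemma sphere_ne {r : ℝ} (hr : 0 ≤ r) : (sphere (0:ℂ) r).Nonempty := NormedSpace.sphere_nonempty.mpr hr

lemma bddAbove_image {f : ℂ → ℂ} (hf : Continuous f) (r : ℝ) :
    BddAbove ((fun z : ℂ => ‖f z‖) '' sphere (0 : ℂ) r) :=
  ((isCompact_sphere (0:ℂ) r).image hf.norm).bddAbove

lemma bddBelow_image (f : ℂ → ℂ) (r : ℝ) :
    BddBelow ((fun z : ℂ => ‖f z‖) '' sphere (0 : ℂ) r) := by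
  refine ⟨0, ?_⟩
  rintro x ⟨z, _, rfl⟩
  exact norm_nonneg _

lemma maxMod_le {f : ℂ → ℂ} {r C : ℝ} (hr : 0 ≤ r) (h : ∀ z, ‖z‖ = r → ‖f z‖ ≤ C) :
    maxMod f r ≤ C := by
  apply csSup_le ((sphere_ne hr).image _)
  rintro x ⟨z, hz, rfl⟩
  exact h z (mem_sphere_zero_iff_norm.mp hz)

lemma le_maxMod {f : ℂ → ℂ} (hf : Continuous f) {z : ℂ} {r : ℝ} (hz : ‖z‖ = r) :
    ‖f z‖ ≤ maxMod f r :=
  le_csSup (bddAbove_image hf r) ⟨z, mem_sphere_zero_iff_norm.mpr hz, rfl⟩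

lemma minMod_le {f : ℂ → ℂ} {z : ℂ} {r : ℝ} (hz : ‖z‖ = r) : minMod f r ≤ ‖f z‖ :=
  csInf_le (bddBelow_image f r) ⟨z, mem_sphere_zero_iff_norm.mpr hz, rfl⟩

lemma le_minMod {f : ℂ → ℂ} {r C : ℝ} (hr : 0 ≤ r) (h : ∀ z, ‖z‖ = r → C ≤ ‖f z‖) :
    C ≤ minMod f r := by
  apply le_csInf ((sphere_ne hr).image _)
  rintro x ⟨z, hz, rfl⟩
  exact h z (mem_sphere_zero_iff_norm.mp hz)

lemma minMod_nonneg {f : ℂ → ℂ} {r : ℝ} (hr : 0 ≤ r) : 0 ≤ minMod f r :=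
  le_minMod hr (fun _ _ => norm_nonneg _)

lemma maxMod_nonneg {f : ℂ → ℂ} (hf : Continuous f) {r : ℝ} (hr : 0 ≤ r) : 0 ≤ maxMod f r := by
  obtain ⟨z, hz⟩ := sphere_ne hr
  exact (norm_nonneg (f z)).trans (le_maxMod hf (mem_sphere_zero_iff_norm.mp hz))

lemma norm_le_maxMod {f : ℂ → ℂ} (hf : Differentiable ℂ f) {z : ℂ} {r : ℝ} (hr : 0 < r)
    (hz : ‖z‖ ≤ r) : ‖f z‖ ≤ maxMod f r := by
  apply Complex.norm_le_of_forall_mem_frontier_norm_le (U := ball (0:ℂ) r) isBounded_ball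
    hf.diffContOnCl
  · intro w hw
    exact le_maxMod hf.continuous (mem_sphere_zero_iff_norm.mp (frontier_ball_subset_sphere hw))
  · rw [closure_ball _ hr.ne', mem_closedBall_zero_iff]
    exact hz

lemma maxMod_mono {f : ℂ → ℂ} (hf : Differentiable ℂ f) {r s : ℝ} (hr : 0 ≤ r) (hrs : r ≤ s)
    (hs : 0 < s) : maxMod f r ≤ maxMod f s :=
  maxMod_le hr (fun z hz => norm_le_maxMod hf hs (by rw [hz]; exact hrs))

/-- the maximum modulus of a non-constant entire function is unbounded -/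
lemma eventually_maxMod_gt {f : ℂ → ℂ} (hf : IsEntireNonconst f) (C : ℝ) :
    ∀ᶠ r in atTop, C < maxMod f r := by
  obtain ⟨hd, z, w, hne⟩ := hf
  by_contra h
  rw [not_eventually] at h
  have hb : ∀ x, ‖f x‖ ≤ C := by
    intro x
    obtain ⟨r, hr1, hr2⟩ := (h.and_eventually (eventually_gt_atTop (‖x‖ + 1))).exists
    push Not at hr1
    have hr0 : 0 < r := lt_of_le_of_lt (by positivity) hr2
    exact (norm_le_maxMod hd hr0 (by linarith)).trans hr1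
  apply hne
  apply hd.apply_eq_apply_of_bounded
  rw [isBounded_iff_forall_norm_le]
  refine ⟨C, ?_⟩
  rintro y ⟨x, rfl⟩
  exact hb x

lemma eventually_logMax_gt {f : ℂ → ℂ} (hf : IsEntireNonconst f) (C : ℝ) :
    ∀ᶠ r in atTop, C < logMax f r := by
  filter_upwards [eventually_maxMod_gt hf (Real.exp C)] with r hr
  unfold logMax
  rw [Real.lt_log_iff_exp_lt (lt_trans (Real.exp_pos C) hr)]
  exact hr

lemma logMin_div_le {f : ℂ → ℂ} {r d c : ℝ} (hd : 0 < d) (hr : 0 ≤ r)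
    (h : minMod f r ≤ Real.exp (c * d)) : logMin f r / ((d : ℝ) : EReal) ≤ (c : EReal) := by
  unfold logMin
  split_ifs with h0
  · rw [EReal.bot_div_of_pos_ne_top (by exact_mod_cast hd) (EReal.coe_ne_top d)]
    exact bot_le
  · have hpos : 0 < minMod f r := lt_of_le_of_ne (minMod_nonneg hr) (Ne.symm h0)
    have h1 : Real.log (minMod f r) ≤ c * d := by
      rw [Real.log_le_iff_le_exp hpos]
      exact h
    rw [← EReal.coe_div, EReal.coe_le_coe_iff, div_le_iff₀ hd]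
    exact h1

lemma le_logMin_div {f : ℂ → ℂ} {r d c : ℝ} (hd : 0 < d)
    (h : Real.exp (c * d) ≤ minMod f r) : (c : EReal) ≤ logMin f r / ((d : ℝ) : EReal) := by
  have hpos : 0 < minMod f r := lt_of_lt_of_le (Real.exp_pos _) h
  unfold logMin
  rw [if_neg hpos.ne', ← EReal.coe_div, EReal.coe_le_coe_iff, le_div_iff₀ hd,
    Real.le_log_iff_exp_le hpos]
  exact h

lemma limsup_ratio_le {f : ℂ → ℂ} {d : ℝ → ℝ} {c : ℝ}
    (h : ∀ᶠ r in atTop, 0 < d r ∧ minMod f r ≤ Real.exp (c * d r)) :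
    limsup (fun r : ℝ => logMin f r / ((d r : ℝ) : EReal)) atTop ≤ (c : EReal) := by
  apply limsup_le_of_le
  · isBoundedDefault
  filter_upwards [h, eventually_ge_atTop 0] with r hr hr0
  exact logMin_div_le hr.1 hr0 hr.2

lemma le_limsup_ratio {f : ℂ → ℂ} {d : ℝ → ℝ} {c : ℝ}
    (h : ∃ᶠ r in atTop, 0 < d r ∧ Real.exp (c * d r) ≤ minMod f r) :
    (c : EReal) ≤ limsup (fun r : ℝ => logMin f r / ((d r : ℝ) : EReal)) atTop := by
  apply le_limsup_of_frequently_le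
  · exact h.mono (fun r hr => le_logMin_div hr.1 hr.2)
  · isBoundedDefault

end Pool.Agent.Work.MP_06ac62_an
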