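import Mathlib

open Complex Metric Filter Topology

namespace Pool.Agent.Work.MP_06ac62_an

/-- The product trick: an entire function cannot be too small on an arc. -/
theorem product_trick {g : ℂ → ℂ} (hg : Differentiable ℂ g) {r₀ r m a X β : ℝ} {N : ℕ}
    (hN : 0 < N) (hr₀ : 0 < r₀) (hr : r₀ < r) (hm : 0 ≤ m) (hmin : ∀ z, ‖z‖ = r₀ → m ≤ ‖g z‖)
    (hmax : ∀ z, ‖z‖ = r → ‖g z‖ ≤ Real.exp a)
    (harc : ∀ φ : ℝ, |φ - β| ≤ Real.pi / N → ‖g (r * exp (φ * I))‖ ≤ Real.exp (-X)) :
    m ^ N ≤ Real.exp (-X + (N - 1) * a) := by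
  have hrpos : 0 < r := hr₀.trans hr
  have hNr : (0:ℝ) < N := by exact_mod_cast hN
  let rot : ℕ → ℂ := fun k => exp (2 * Real.pi * k / N * I)
  have hrot : ∀ k, ‖rot k‖ = 1 := by
    intro k
    have : rot k = exp ((2 * Real.pi * k / N : ℝ) * I) := by
      simp only [rot]
      push_cast
      rfl
    rw [this, norm_exp_ofReal_mul_I]
  let P : ℂ → ℂ := fun ω => ∏ k ∈ Finset.range N, g (r * ω * rot k)
  have hP : Differentiable ℂ P := by
    simp only [P]
    apply Differentiable.fun_finsetProd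
    intro k _
    exact hg.comp ((differentiable_const _).mul differentiable_id |>.mul (differentiable_const _))
  have hbd : ∀ ω ∈ sphere (0:ℂ) 1, ‖P ω‖ ≤ Real.exp (-X + (N - 1) * a) := by
    intro ω hω
    rw [mem_sphere_zero_iff_norm] at hω
    obtain ⟨θ, hθ⟩ : ∃ θ : ℝ, ω = exp (θ * I) := by
      refine ⟨arg ω, ?_⟩
      have := norm_mul_exp_arg_mul_I ω
      rw [hω] at this
      simpa using this.symm
    -- choose the rotation
    let j : ℤ := round ((β - θ) * N / (2 * Real.pi))
    have hj : |θ + 2 * Real.pi * j / N - β| ≤ Real.pi / N := by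
      have h1 := abs_sub_round ((β - θ) * N / (2 * Real.pi))
      have h2 : θ + 2 * Real.pi * j / N - β =
          -((β - θ) * N / (2 * Real.pi) - j) * (2 * Real.pi / N) := by
        have := Real.pi_ne_zero
        field_simp
        ring
      rw [h2, abs_mul, abs_neg, abs_of_pos (by have := Real.pi_pos; positivity : 0 < 2 * Real.pi / N)]
      calc |(β - θ) * N / (2 * Real.pi) - j| * (2 * Real.pi / N) ≤ 1 / 2 * (2 * Real.pi / N) := by
            have := Real.pi_pos
            gcongr
        _ = Real.pi / N := by ring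
    let k₀ : ℕ := (j % (N:ℤ)).toNat
    have hNz : (N:ℤ) ≠ 0 := by exact_mod_cast hN.ne'
    have hk₀ : (k₀ : ℤ) = j % (N:ℤ) := Int.toNat_of_nonneg (Int.emod_nonneg _ hNz)
    have hk₀N : k₀ ∈ Finset.range N := by
      rw [Finset.mem_range]
      have := Int.emod_lt_of_pos j (by exact_mod_cast hN : (0:ℤ) < N)
      rw [← hk₀] at this
      exact_mod_cast this
    have hrk : r * ω * rot k₀ = r * exp ((θ + 2 * Real.pi * j / N : ℝ) * I) := by
      rw [hθ]
      simp only [rot]
      rw [mul_assoc, ← exp_add]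
      congr 1
      rw [exp_eq_exp_iff_exists_int]
      refine ⟨-(j / (N:ℤ)), ?_⟩
      have e1 : (j : ℤ) = N * (j / (N:ℤ)) + k₀ := by
        rw [hk₀]
        exact (Int.mul_ediv_add_emod j N).symm
      have e2 : (j : ℂ) = N * ((j / (N:ℤ) : ℤ) : ℂ) + k₀ := by
        have := congrArg (fun x : ℤ => (x : ℂ)) e1
        push_cast at this
        exact_mod_cast this
      have hNc : (N:ℂ) ≠ 0 := by exact_mod_cast hN.ne'
      push_cast
      rw [e2]
      field_simp
      ring
    have hsmall : ‖g (r * ω * rot k₀)‖ ≤ Real.exp (-X) := by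
      rw [hrk]
      exact harc _ hj
    have hothers : ∀ k, ‖g (r * ω * rot k)‖ ≤ Real.exp a := by
      intro k
      apply hmax
      rw [norm_mul, norm_mul, hω, hrot k, norm_real, Real.norm_eq_abs, abs_of_pos hrpos]
      ring
    simp only [P]
    rw [norm_prod, ← Finset.mul_prod_erase _ _ hk₀N]
    calc ‖g (r * ω * rot k₀)‖ * ∏ k ∈ (Finset.range N).erase k₀, ‖g (r * ω * rot k)‖
        ≤ Real.exp (-X) * ∏ k ∈ (Finset.range N).erase k₀, Real.exp a := by
          apply mul_le_mul hsmall _ (Finset.prod_nonneg fun _ _ => norm_nonneg _) (Real.exp_pos _).le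
          exact Finset.prod_le_prod (fun _ _ => norm_nonneg _) (fun k _ => hothers k)
      _ = Real.exp (-X + (N - 1) * a) := by
          rw [Finset.prod_const, Finset.card_erase_of_mem hk₀N, Finset.card_range,
            ← Real.exp_nat_mul, ← Real.exp_add]
          congr 2
          rw [Nat.cast_sub (by omega)]
          simp
  have hω₀ : ((r₀ / r : ℝ) : ℂ) ∈ closure (ball (0:ℂ) 1) := by
    apply subset_closure
    rw [mem_ball_zero_iff, norm_real, Real.norm_eq_abs, abs_of_pos (by positivity)]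
    rwa [div_lt_one hrpos]
  have hmp := Complex.norm_le_of_forall_mem_frontier_norm_le isBounded_ball hP.diffContOnCl
    (fun z hz => hbd z (frontier_ball_subset_sphere hz)) hω₀
  refine le_trans ?_ hmp
  simp only [P]
  rw [norm_prod, ← Finset.card_range N, ← Finset.prod_const, Finset.card_range]
  apply Finset.prod_le_prod (fun _ _ => hm)
  intro k _
  apply hmin
  rw [norm_mul, norm_mul, hrot k, norm_real, norm_real, Real.norm_eq_abs, Real.norm_eq_abs,
    abs_of_pos hrpos, abs_of_pos (by positivity)]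
  field_simp

/-- a non-zero entire function is bounded below on a small circle -/
lemma exists_circle {g : ℂ → ℂ} (hg : Differentiable ℂ g) (h0 : ∃ z, g z ≠ 0) :
    ∃ r₀ m : ℝ, 0 < r₀ ∧ r₀ < 1 ∧ 0 < m ∧ ∀ z, ‖z‖ = r₀ → m ≤ ‖g z‖ := by
  have han : AnalyticOnNhd ℂ g Set.univ := fun z _ => hg.analyticAt z
  have hne : ∀ᶠ z in 𝓝[≠] (0:ℂ), g z ≠ 0 := by
    rcases (hg.analyticAt 0).eventually_eq_zero_or_eventually_ne_zero with h | h
    · exfalso
      obtain ⟨z, hz⟩ := h0
      apply hz
      have := han.eqOn_zero_of_preconnected_of_eventuallyEq_zero isPreconnected_univ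
        (Set.mem_univ 0) h
      exact this (Set.mem_univ z)
    · exact h
  rw [eventually_nhdsWithin_iff, Metric.eventually_nhds_iff] at hne
  obtain ⟨δ, hδ, h⟩ := hne
  have hr0 : 0 < min (δ / 2) (1 / 2) := by positivity
  refine ⟨min (δ / 2) (1 / 2), ?_⟩
  have hc : IsCompact (sphere (0:ℂ) (min (δ / 2) (1 / 2))) := isCompact_sphere _ _
  obtain ⟨z₀, hz₀, hz₀min⟩ := hc.exists_isMinOn
    (NormedSpace.sphere_nonempty.mpr hr0.le) (hg.continuous.norm.continuousOn)
  refine ⟨‖g z₀‖, hr0, lt_of_le_of_lt (min_le_right _ _) (by norm_num), ?_, ?_⟩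
  · rw [norm_pos_iff]
    rw [mem_sphere_zero_iff_norm] at hz₀
    apply h
    · rw [dist_zero_right, hz₀]
      exact lt_of_le_of_lt (min_le_left _ _) (by linarith)
    · intro hz
      rw [Set.mem_singleton_iff] at hz
      rw [hz, norm_zero] at hz₀
      linarith
  · intro z hz
    exact hz₀min (by rwa [mem_sphere_zero_iff_norm])

end Pool.Agent.Work.MP_06ac62_an
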