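import Pool.Agent.Work.MP_06ac62_an.G2
import Pool.Agent.Work.MP_06ac62_an.PT
import Pool.Agent.Work.MP_06ac62_an.M1

open MeasureTheory Complex ComplexConjugate Metric Filter Topology

namespace Pool.Agent.Work.MP_06ac62_an

lemma log_mul_small {a b : ℂ} (ha : a ≠ 0) (hb : b ≠ 0) (h : |arg a| + |arg b| < Real.pi) :
    a * b ∈ slitPlane ∧ log (a * b) = log a + log b := by
  have h1 := abs_le.mp (abs_add_le (arg a) (arg b))
  have hmem : arg a + arg b ∈ Set.Ioc (-Real.pi) Real.pi := by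
    constructor <;> [linarith [h1.1]; linarith [h1.2]]
  refine ⟨?_, log_mul ha hb hmem⟩
  rw [mem_slitPlane_iff_arg]
  refine ⟨?_, mul_ne_zero ha hb⟩
  rw [arg_mul ha hb hmem]
  linarith [h1.2]

/-- logarithms of the centres -/
noncomputable def xi (lam τ : ℝ) (N : ℕ) (k : ℕ) : ℂ :=
  (((k + N : ℕ) : ℝ) * (τ / lam) : ℝ) + (((k + N : ℕ) : ℝ) * (2 * Real.pi / N) : ℝ) * I

lemma xi_re (lam τ : ℝ) (N k : ℕ) : (xi lam τ N k).re = ((k + N : ℕ) : ℝ) * (τ / lam) := by
  unfold xi
  rw [add_re, ofReal_re, re_ofReal_mul, I_re]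
  ring

lemma xi_im (lam τ : ℝ) (N k : ℕ) : (xi lam τ N k).im = ((k + N : ℕ) : ℝ) * (2 * Real.pi / N) := by
  unfold xi
  rw [add_im, ofReal_im, im_ofReal_mul, I_im]
  ring

/-- the functions `w_k` -/
noncomputable def w2 (lam τ : ℝ) (N : ℕ) (k : ℕ) (z : ℂ) : ℂ :=
  lam * log (z * exp (-(xi lam τ N k)))

/-- the domains -/
def D2 (lam τ : ℝ) (N : ℕ) (k : ℕ) : Set ℂ := {z | z * exp (-(xi lam τ N k)) ∈ slitPlane}

lemma isOpen_D2 (lam τ : ℝ) (N k : ℕ) : IsOpen (D2 lam τ N k) :=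
  isOpen_slitPlane.preimage (continuous_id.mul continuous_const)

lemma hasDerivAt_w2 {lam τ : ℝ} {N k : ℕ} {z : ℂ} (hz : z ∈ D2 lam τ N k) :
    HasDerivAt (w2 lam τ N k) (lam / z) z := by
  have hz0 : z ≠ 0 := by
    intro h
    have : z * exp (-(xi lam τ N k)) ∈ slitPlane := hz
    rw [h, zero_mul] at this
    exact zero_notMem_slitPlane this
  have h1 : HasDerivAt (fun z => z * exp (-(xi lam τ N k))) (exp (-(xi lam τ N k))) z := by
    simpa using (hasDerivAt_id z).mul_const (exp (-(xi lam τ N k)))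
  have h2 := (h1.clog hz).const_mul (lam : ℂ)
  refine h2.congr_deriv ?_
  have := exp_ne_zero (-(xi lam τ N k))
  field_simp

lemma diff_w2 (lam τ : ℝ) (N k : ℕ) : DifferentiableOn ℂ (w2 lam τ N k) (D2 lam τ N k) :=
  fun _ hz => (hasDerivAt_w2 hz).differentiableAt.differentiableWithinAt

/-- norm of a point in terms of `w` -/
lemma norm_of_w2 {lam τ : ℝ} {N k : ℕ} (hlam : 0 < lam) {z : ℂ} (hz : z ≠ 0) :
    Real.log ‖z‖ = (xi lam τ N k).re + (w2 lam τ N k z).re / lam := by
  unfold w2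
  rw [re_ofReal_mul, log_re, norm_mul, norm_exp, Real.log_mul (norm_ne_zero_iff.mpr hz)
    (Real.exp_pos _).ne', Real.log_exp, neg_re]
  field_simp
  ring

lemma exp_w2 {lam τ : ℝ} {N k : ℕ} (hlam : 0 < lam) {z : ℂ} (hz : z ≠ 0) :
    exp (w2 lam τ N k z / lam) = z * exp (-(xi lam τ N k)) := by
  unfold w2
  rw [mul_div_cancel_left₀ _ (by exact_mod_cast hlam.ne'), exp_log]
  exact mul_ne_zero hz (exp_ne_zero _)

lemma D2_ne_zero {lam τ : ℝ} {N k : ℕ} {z : ℂ} (hz : z ∈ D2 lam τ N k) : z ≠ 0 := by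
  intro h
  have : z * exp (-(xi lam τ N k)) ∈ slitPlane := hz
  rw [h, zero_mul] at this
  exact zero_notMem_slitPlane this

lemma disj2 {lam τ L : ℝ} {N : ℕ} (hlam : 1 < lam) (hN : 0 < N) (hNl : (N:ℝ) ≤ lam)
    (hτ : τ * N = 2 * L) (hL : 0 < L) (j k : ℕ) (z : ℂ)
    (hj : z ∈ BB (D2 lam τ N) (w2 lam τ N) L j) (hk : z ∈ BB (D2 lam τ N) (w2 lam τ N) L k) :
    j = k := by
  have hlam0 : 0 < lam := by linarith
  have hNr : (0:ℝ) < N := by exact_mod_cast hN
  have hτ0 : 0 < τ := by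
    by_contra h
    push Not at h
    nlinarith
  have hz0 : z ≠ 0 := D2_ne_zero hj.1
  have e1 : exp (w2 lam τ N j z / lam + xi lam τ N j) = exp (w2 lam τ N k z / lam + xi lam τ N k) := by
    rw [exp_add, exp_add, exp_w2 hlam0 hz0, exp_w2 hlam0 hz0, mul_assoc, mul_assoc, ← exp_add,
      ← exp_add]
    simp
  rw [exp_eq_exp_iff_exists_int] at e1
  obtain ⟨m, hm⟩ := e1
  have hre := congrArg Complex.re hm
  have him := congrArg Complex.im hm
  have q1 : ∀ i, (w2 lam τ N i z / lam).re = (w2 lam τ N i z).re / lam := fun i => by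
    rw [div_ofReal_re]
  have q2 : ∀ i, (w2 lam τ N i z / lam).im = (w2 lam τ N i z).im / lam := fun i => by
    rw [div_ofReal_im]
  have q3 : ((m:ℂ) * (2 * Real.pi * I)).re = 0 := by simp
  have q4 : ((m:ℂ) * (2 * Real.pi * I)).im = m * (2 * Real.pi) := by simp
  rw [add_re, add_re, add_re, q1, q1, q3, xi_re, xi_re] at hre
  rw [add_im, add_im, add_im, q2, q2, q4, xi_im, xi_im] at him
  obtain ⟨_, hj1, hj2⟩ := hj
  obtain ⟨_, hk1, hk2⟩ := hk
  rw [abs_lt] at hj1 hj2 hk1 hk2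
  push_cast at hre him
  -- real part: |j - k| < N
  have hre2 : ((j:ℝ) - k) * τ = (w2 lam τ N k z).re - (w2 lam τ N j z).re := by
    field_simp at hre
    linarith
  have hb1 : |((j:ℝ) - k)| < N := by
    rw [abs_lt]
    constructor
    · by_contra h
      push Not at h
      nlinarith
    · by_contra h
      push Not at h
      nlinarith
  -- imaginary part
  have him2 : ((j:ℝ) - k - m * N) * (2 * Real.pi) * lam =
      N * ((w2 lam τ N k z).im - (w2 lam τ N j z).im) := by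
    field_simp at him
    linarith
  have hb2 : |((j:ℝ) - k - m * N)| < 1 := by
    have hpi := Real.pi_pos
    rw [abs_lt]
    constructor
    · by_contra h
      push Not at h
      have h1 : ((j:ℝ) - k - m * N) * (2 * Real.pi) * lam ≤ -1 * (2 * Real.pi) * lam := by gcongr
      have h2 : N * ((w2 lam τ N k z).im - (w2 lam τ N j z).im) > N * (-(2 * Real.pi)) := by
        apply mul_lt_mul_of_pos_left _ hNr
        linarith
      nlinarith
    · by_contra h
      push Not at h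
      have h1 : 1 * (2 * Real.pi) * lam ≤ ((j:ℝ) - k - m * N) * (2 * Real.pi) * lam := by gcongr
      have h2 : N * ((w2 lam τ N k z).im - (w2 lam τ N j z).im) < N * (2 * Real.pi) := by
        apply mul_lt_mul_of_pos_left _ hNr
        linarith
      nlinarith
  have hb3 : (j:ℤ) - k - m * N = 0 := by
    have : |((j:ℤ) - k - m * N : ℤ)| < 1 := by
      have : |(((j:ℤ) - k - m * N : ℤ) : ℝ)| < 1 := by
        push_cast
        exact hb2
      exact_mod_cast this
    exact Int.abs_lt_one_iff.mp this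
  have hb4 : |((j:ℤ) - k : ℤ)| < N := by
    have : |(((j:ℤ) - k : ℤ) : ℝ)| < N := by
      push_cast
      exact hb1
    exact_mod_cast this
  have hm0 : m = 0 := by
    by_contra hm0
    have h1 : (1:ℤ) ≤ |m| := Int.one_le_abs hm0
    have h2 : ((j:ℤ) - k) = m * N := by linarith
    rw [h2, abs_mul] at hb4
    have h3 : |(N:ℤ)| = N := abs_of_pos (by exact_mod_cast hN)
    rw [h3] at hb4
    have : (0:ℤ) < N := by exact_mod_cast hN
    nlinarith
  rw [hm0] at hb3
  omega

lemma margin2 {lam τ L : ℝ} {N : ℕ} (hlam : 4 ≤ lam) (hτ : 0 ≤ τ) (z : ℂ) (δ : ℝ)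
    (hδ : 0 < δ) : ∀ᶠ x in 𝓝 z, ∀ k, x ∈ BB (D2 lam τ N) (w2 lam τ N) L k →
      z ∈ D2 lam τ N k ∧ ‖w2 lam τ N k z - w2 lam τ N k x‖ < δ := by
  have hlam0 : 0 < lam := by linarith
  by_cases hz : z = 0
  · subst hz
    filter_upwards [ball_mem_nhds (0:ℂ) (Real.exp_pos (-(L / lam)))] with x hx k hxk
    exfalso
    rw [mem_ball_zero_iff] at hx
    have hx0 : x ≠ 0 := D2_ne_zero hxk.1
    have h1 := norm_of_w2 (τ := τ) (N := N) (k := k) hlam0 hx0
    have h2 := (abs_lt.mp hxk.2.1).1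
    have h3 : Real.log ‖x‖ < -(L / lam) := by
      rw [Real.log_lt_iff_lt_exp (norm_pos_iff.mpr hx0)]
      exact hx
    rw [h1, xi_re] at h3
    have h4 : 0 ≤ ((k + N : ℕ) : ℝ) * (τ / lam) := by positivity
    have h5 : -(L / lam) ≤ (w2 lam τ N k x).re / lam := by
      rw [← neg_div]
      gcongr
    linarith
  · have h1 : Tendsto (fun x => ‖log (z / x)‖) (𝓝 z) (𝓝 ‖log (z / z)‖) := by
      have : ContinuousAt (fun x => log (z / x)) z := by
        apply ContinuousAt.clog
        · exact continuousAt_const.div continuousAt_id hz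
        · rw [div_self hz]
          exact one_mem_slitPlane
      exact this.norm
    rw [div_self hz, log_one, norm_zero] at h1
    have h2 : ∀ᶠ x in 𝓝 z, ‖log (z / x)‖ < min (δ / lam) 1 :=
      h1.eventually_lt_const (by positivity)
    have h3 : ∀ᶠ x in 𝓝 z, x ≠ 0 := isOpen_ne.mem_nhds hz
    filter_upwards [h2, h3] with x hx hx0 k hxk
    have hb1 := lt_of_lt_of_le hx (min_le_left _ _)
    have hb2 := lt_of_lt_of_le hx (min_le_right _ _)
    have ha : x * exp (-(xi lam τ N k)) ≠ 0 := mul_ne_zero hx0 (exp_ne_zero _)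
    have hb : z / x ≠ 0 := div_ne_zero hz hx0
    have harg1 : |arg (x * exp (-(xi lam τ N k)))| < Real.pi / 4 := by
      have h4 := hxk.2.2
      unfold w2 at h4
      rw [im_ofReal_mul, log_im, abs_mul, abs_of_pos hlam0] at h4
      have h5 := abs_nonneg (arg (x * exp (-(xi lam τ N k))))
      nlinarith
    have harg2 : |arg (z / x)| < 1 := by
      calc |arg (z / x)| = |(log (z / x)).im| := by rw [log_im]
        _ ≤ ‖log (z / x)‖ := abs_im_le_norm _
        _ < 1 := hb2
    have hpi := Real.pi_gt_three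
    obtain ⟨c1, c2⟩ := log_mul_small ha hb (by linarith)
    have e1 : x * exp (-(xi lam τ N k)) * (z / x) = z * exp (-(xi lam τ N k)) := by
      field_simp
    rw [e1] at c1 c2
    refine ⟨c1, ?_⟩
    unfold w2
    rw [c2]
    have e2 : (lam:ℂ) * (log (x * exp (-(xi lam τ N k))) + log (z / x)) -
        lam * log (x * exp (-(xi lam τ N k))) = lam * log (z / x) := by ring
    rw [e2, norm_mul, norm_real, Real.norm_eq_abs, abs_of_pos hlam0]
    rw [lt_div_iff₀ hlam0] at hb1
    linarith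

/-- the radial majorant -/
noncomputable def U2 (lam : ℝ) (z : ℂ) : ℝ := (normSq z) ^ (lam / 2)

lemma U2_eq (lam : ℝ) (z : ℂ) : U2 lam z = ‖z‖ ^ lam := by
  unfold U2
  rw [normSq_eq_norm_sq, ← Real.rpow_natCast, ← Real.rpow_mul (norm_nonneg z)]
  congr 1
  push_cast
  ring

lemma contDiff_U2 {lam : ℝ} (hlam : 4 ≤ lam) : ContDiff ℝ 2 (U2 lam) := by
  unfold U2
  exact (Real.contDiff_rpow_const_of_le (by push_cast; linarith)).comp contDiff_normSq'

lemma lap_U2 {lam : ℝ} (hlam : 4 ≤ lam) (z : ℂ) :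
    lap (U2 lam) z = lam ^ 2 * (normSq z) ^ (lam / 2 - 1) := by
  have h := lap_comp_normSq (h := fun s : ℝ => s ^ (lam / 2)) (F := fun x => x) (z := z)
    (Eventually.of_forall fun x => differentiableAt_id)
    ((Real.contDiff_rpow_const_of_le (by push_cast; linarith)).contDiffAt)
  have e : U2 lam = fun x => (fun s : ℝ => s ^ (lam / 2)) (normSq ((fun x => x) x)) := rfl
  rw [e, h]
  have d1 : deriv (fun s : ℝ => s ^ (lam / 2)) = fun s => lam / 2 * s ^ (lam / 2 - 1) := by
    funext s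
    exact (Real.hasDerivAt_rpow_const (Or.inr (by linarith))).deriv
  have d2 : deriv (fun s : ℝ => lam / 2 * s ^ (lam / 2 - 1)) (normSq z) =
      lam / 2 * ((lam / 2 - 1) * (normSq z) ^ (lam / 2 - 1 - 1)) := by
    exact ((Real.hasDerivAt_rpow_const (p := lam / 2 - 1) (x := normSq z)
      (Or.inr (by linarith))).const_mul (lam / 2)).deriv
  rw [d1, d2]
  have d3 : deriv (fun x : ℂ => x) z = 1 := deriv_id z
  rw [d3, map_one]
  have d4 : normSq z * (normSq z) ^ (lam / 2 - 1 - 1) = (normSq z) ^ (lam / 2 - 1) := by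
    by_cases h0 : normSq z = 0
    · rw [h0, zero_mul, Real.zero_rpow (by linarith)]
    · have hpos : 0 < normSq z := lt_of_le_of_ne (normSq_nonneg z) (Ne.symm h0)
      rw [Real.rpow_sub_one h0 (lam / 2 - 1)]
      field_simp
  simp only
  linear_combination (4 * (lam / 2) * (lam / 2 - 1)) * d4

end Pool.Agent.Work.MP_06ac62_an
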