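import Pool.Agent.Work.MP_06ac62_an.C2

open MeasureTheory Complex ComplexConjugate Metric Filter Topology

namespace Pool.Agent.Work.MP_06ac62_an

theorem exists_g2 {η lam : ℝ} (hη : 0 < η) (hη1 : η < 1 / 4)
    (hlam : 4 ≤ lam) (hlam2 : 12 * (2 * Real.log (2 / η) + 1) + 1 ≤ lam) :
    ∃ g : ℂ → ℂ, Differentiable ℂ g ∧ (∃ z, g z ≠ 0) ∧ ∃ K M τ R₀ : ℝ, 0 < K ∧ 0 ≤ M ∧ 0 < τ ∧
      1 ≤ R₀ ∧ 3 * τ ≤ 1 / 2 ∧ τ ≤ 4 * (2 * Real.log (2 / η) + 1) / lam ∧
      (∀ z, ‖g z‖ ≤ K * Real.exp ((‖z‖ + 1) ^ lam + M * (‖z‖ + 1) ^ 2)) ∧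
      (∀ r, R₀ ≤ r → ∃ A β : ℝ, 0 < A ∧ A ≤ r ^ lam ∧ r ^ lam ≤ A * Real.exp τ ∧
        ∀ φ : ℝ, |φ - β| ≤ τ / lam → ‖g (r * exp (φ * I))‖ ≤
          (K * (2 * lam / (τ * r))) * Real.exp (A * (Real.exp (3 * τ) + (2 + 2 * (1 - 2 * η) *
            Real.log (3 * τ))) + M * (2 * r) ^ 2)) := by
  have hlam0 : 0 < lam := by linarith
  set L : ℝ := 2 * Real.log (2 / η) + 1 with hL
  have hL1 : 1 < L := by
    have : 0 < Real.log (2 / η) := Real.log_pos (by rw [lt_div_iff₀ hη]; linarith)
    linarith
  have hL0 : 0 < L := by linarith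
  set N : ℕ := ⌊lam⌋₊ with hN
  have hNl : (N : ℝ) ≤ lam := Nat.floor_le hlam0.le
  have hNl2 : lam < N + 1 := Nat.lt_floor_add_one lam
  have hN0 : 0 < N := by
    have : (0:ℝ) < N := by linarith
    exact_mod_cast this
  have hNr : (0:ℝ) < N := by exact_mod_cast hN0
  set τ : ℝ := 2 * L / N with hτ
  have hτN : τ * N = 2 * L := by
    rw [hτ]
    field_simp
  have hτ0 : 0 < τ := by positivity
  have h3τ : 3 * τ ≤ 1 / 2 := by
    rw [hτ]
    rw [show 3 * (2 * L / (N:ℝ)) = 6 * L / N by ring, div_le_iff₀ hNr]
    linarith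
  have hτl : τ ≤ 4 * L / lam := by
    rw [hτ, div_le_div_iff₀ hNr hlam0]
    nlinarith
  let zk : ℕ → ℂ := fun k => exp (xi lam τ N k)
  let A : ℕ → ℝ := fun k => Real.exp (lam * (xi lam τ N k).re)
  have hzz : ∀ k, zk k * exp (-(xi lam τ N k)) = 1 := by
    intro k
    simp only [zk]
    rw [← exp_add]
    simp
  -- U on the boxes
  have hUA : ∀ k z, z ≠ 0 → U2 lam z = A k * Real.exp ((w2 lam τ N k z).re) := by
    intro k z hz
    rw [U2_eq, Real.rpow_def_of_pos (norm_pos_iff.mpr hz), norm_of_w2 (τ := τ) (N := N) (k := k)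
      hlam0 hz, ← Real.exp_add]
    congr 1
    field_simp
  obtain ⟨g, hg1, hg2, K, M, hK, hM, hE1, hE2⟩ := glue_entire (ι := ℕ) (D := D2 lam τ N)
    (w := w2 lam τ N) (L := L) hη hη1 le_rfl (U := U2 lam) (contDiff_U2 hlam)
    (by
      intro z
      rw [lap_U2 hlam]
      have := normSq_nonneg z
      positivity)
    (isOpen_D2 lam τ N) (diff_w2 lam τ N) (zk := zk) (A := A)
    (by
      intro k
      show zk k * exp (-(xi lam τ N k)) ∈ slitPlane
      rw [hzz k]
      exact one_mem_slitPlane)
    (by
      intro k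
      unfold w2
      rw [hzz k]
      simp)
    (by
      intro k z hz h
      have hz0 := D2_ne_zero hz.1
      have h1 := exp_w2 (τ := τ) (N := N) (k := k) hlam0 hz0
      rw [h, zero_div, exp_zero] at h1
      have h2 : z * exp (-(xi lam τ N k)) * exp (xi lam τ N k) = z := by
        rw [mul_assoc, ← exp_add]
        simp
      rw [← h1, one_mul] at h2
      exact h2.symm)
    (fun j k z hj hk => disj2 (by linarith) hN0 hNl hτN hL0 j k z hj hk)
    (fun z δ hδ => margin2 hlam hτ0.le z δ hδ)
    (by
      intro k z hz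
      have hz0 := D2_ne_zero hz.1
      rw [← hUA k z hz0, lap_U2 hlam, (hasDerivAt_w2 hz.1).deriv, normSq_div, normSq_ofReal]
      unfold U2
      have hpos : 0 < normSq z := normSq_pos.mpr hz0
      rw [Real.rpow_sub_one hpos.ne']
      apply le_of_eq
      field_simp)
    (by
      intro k
      have h1 : lam * (xi lam τ N k).re ≥ 2 * L := by
        rw [xi_re]
        push_cast
        have : lam * (((k:ℝ) + N) * (τ / lam)) = (k + N) * τ := by field_simp
        rw [this]
        have : 0 ≤ (k:ℝ) * τ := by positivity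
        nlinarith
      have h2 : lam * (xi lam τ N k).re + 1 ≤ Real.exp (lam * (xi lam τ N k).re) :=
        Real.add_one_le_exp _
      show 2 ≤ Real.exp (lam * (xi lam τ N k).re)
      linarith)
    (fun k => exp_ne_zero _)
  refine ⟨g, hg1, hg2, K, M, τ, Real.exp (2 * L), hK, hM, hτ0,
    Real.one_le_exp (by positivity), h3τ, hτl, ?_, ?_⟩
  · intro z
    have := hE1 z 1 ((‖z‖ + 1) ^ lam) one_pos (by
      intro ζ hζ
      rw [U2_eq]
      apply Real.rpow_le_rpow (norm_nonneg _) _ hlam0.le
      rw [mem_closedBall, dist_eq_norm] at hζ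
      calc ‖ζ‖ = ‖z + (ζ - z)‖ := by ring_nf
        _ ≤ ‖z‖ + ‖ζ - z‖ := norm_add_le _ _
        _ ≤ ‖z‖ + 1 := by linarith)
    simpa using this
  · intro r hr
    have hr0 : 0 < r := lt_of_lt_of_le (Real.exp_pos _) hr
    have hr1 : 1 ≤ r := (Real.one_le_exp (by positivity)).trans hr
    set c : ℝ := τ / lam with hc
    have hc0 : 0 < c := by positivity
    have hlogr : 2 * L ≤ Real.log r := by
      rw [Real.le_log_iff_exp_le hr0]
      exact hr
    set n : ℕ := ⌊Real.log r / c⌋₊ with hn
    have hn1 : (n:ℝ) * c ≤ Real.log r := by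
      have : (n:ℝ) ≤ Real.log r / c := Nat.floor_le (div_nonneg (by linarith) hc0.le)
      rwa [le_div_iff₀ hc0] at this
    have hn2 : Real.log r < ((n:ℝ) + 1) * c := by
      have : Real.log r / c < n + 1 := Nat.lt_floor_add_one _
      rwa [div_lt_iff₀ hc0] at this
    have hNn : N ≤ n := by
      apply Nat.le_floor
      rw [le_div_iff₀ hc0, hc]
      have : (N:ℝ) * (τ / lam) = 2 * L / lam := by
        rw [← hτN]
        ring
      rw [this]
      have : 2 * L / lam ≤ 2 * L := by
        rw [div_le_iff₀ hlam0]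
        nlinarith
      linarith
    set k : ℕ := n - N with hk
    have hkn : ((k + N : ℕ) : ℝ) = n := by
      congr 1
      omega
    have hxre : (xi lam τ N k).re = n * c := by
      rw [xi_re, hkn]
    have hrlam : r ^ lam = Real.exp (lam * Real.log r) := by
      rw [Real.rpow_def_of_pos hr0]
      congr 1
      ring
    have hAk : A k = Real.exp (lam * (n * c)) := by
      simp only [A]
      rw [hxre]
    have hcl : lam * c = τ := by
      rw [hc]
      field_simp
    refine ⟨A k, (xi lam τ N k).im, Real.exp_pos _, ?_, ?_, ?_⟩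
    · rw [hrlam, hAk]
      apply Real.exp_le_exp.mpr
      gcongr
    · rw [hrlam, hAk, ← Real.exp_add]
      apply Real.exp_le_exp.mpr
      have := mul_lt_mul_of_pos_left hn2 hlam0
      nlinarith
    · intro φ hφ
      set z : ℂ := r * exp (φ * I) with hz
      have hznorm : ‖z‖ = r := by
        rw [hz, norm_mul, norm_exp_ofReal_mul_I, norm_real, Real.norm_eq_abs, abs_of_pos hr0, mul_one]
      have hz0 : z ≠ 0 := norm_pos_iff.mp (by rw [hznorm]; exact hr0)
      -- z / z_k
      have hquot : z * exp (-(xi lam τ N k)) =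
          exp (((Real.log r - n * c : ℝ) : ℂ) + ((φ - (xi lam τ N k).im : ℝ) : ℂ) * I) := by
        rw [hz]
        have : (r : ℂ) = exp ((Real.log r : ℝ) : ℂ) := by
          rw [← ofReal_exp, Real.exp_log hr0]
        rw [this, ← exp_add, ← exp_add]
        congr 1
        apply Complex.ext
        · simp [hxre]
          ring
        · simp
          ring
      have hφ2 : |φ - (xi lam τ N k).im| ≤ 1 := by
        refine hφ.trans ?_
        rw [div_le_iff₀ hlam0]
        linarith
      have hpi := Real.pi_gt_three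
      have habs := abs_le.mp hφ2
      have hlogz : log (z * exp (-(xi lam τ N k))) =
          ((Real.log r - n * c : ℝ) : ℂ) + ((φ - (xi lam τ N k).im : ℝ) : ℂ) * I := by
        rw [hquot]
        apply log_exp
        · rw [add_im, ofReal_im, im_ofReal_mul, I_im]
          linarith
        · rw [add_im, ofReal_im, im_ofReal_mul, I_im]
          linarith
      have hargz : |arg (z * exp (-(xi lam τ N k)))| ≤ 1 := by
        rw [← log_im, hlogz, add_im, ofReal_im, im_ofReal_mul, I_im]
        simpa using hφ2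
      have hwz : ‖w2 lam τ N k z‖ ≤ 2 * τ := by
        unfold w2
        rw [hlogz, norm_mul, norm_real, Real.norm_eq_abs, abs_of_pos hlam0]
        calc lam * ‖((Real.log r - n * c : ℝ) : ℂ) + ((φ - (xi lam τ N k).im : ℝ) : ℂ) * I‖
            ≤ lam * (‖((Real.log r - n * c : ℝ) : ℂ)‖ + ‖((φ - (xi lam τ N k).im : ℝ) : ℂ) * I‖) := by
              gcongr
              exact norm_add_le _ _
          _ = lam * (|Real.log r - n * c| + |φ - (xi lam τ N k).im|) := by
              rw [norm_mul, norm_I, mul_one, norm_real, norm_real, Real.norm_eq_abs, Real.norm_eq_abs]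
          _ ≤ lam * (c + c) := by
              gcongr
              rw [abs_le]
              constructor <;> linarith
          _ = 2 * τ := by rw [← hcl]; ring
      have hball : ∀ ζ ∈ closedBall z (τ * r / (2 * lam)),
          ζ ∈ BB (D2 lam τ N) (w2 lam τ N) L k ∧ ‖w2 lam τ N k ζ‖ ≤ 3 * τ ∧
            U2 lam ζ ≤ A k * Real.exp (3 * τ) := by
        intro ζ hζ
        rw [mem_closedBall, dist_eq_norm] at hζ
        set d : ℂ := (ζ - z) / z with hd
        have hdn : ‖d‖ ≤ τ / (2 * lam) := by
          rw [hd, norm_div, hznorm, div_le_iff₀ hr0]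
          calc ‖ζ - z‖ ≤ τ * r / (2 * lam) := hζ
            _ = τ / (2 * lam) * r := by ring
        have hτlam : τ / (2 * lam) ≤ 1 / 8 := by
          rw [div_le_iff₀ (by positivity)]
          linarith
        have hd1 : ‖d‖ ≤ 1 / 2 := by linarith
        have hζd : ζ = z * (1 + d) := by
          rw [hd]
          field_simp
          ring
        have h1d : (1 + d) ≠ 0 := by
          intro h
          have : d = -1 := by linear_combination h
          rw [this] at hd1
          simp at hd1
          linarith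
        have hlogd : ‖log (1 + d)‖ ≤ 3 / 2 * ‖d‖ := norm_log_one_add_half_le_self hd1
        have hargd : |arg (1 + d)| ≤ 1 := by
          rw [← log_im]
          refine (abs_im_le_norm _).trans (hlogd.trans ?_)
          linarith
        have ha : z * exp (-(xi lam τ N k)) ≠ 0 := mul_ne_zero hz0 (exp_ne_zero _)
        obtain ⟨c1, c2⟩ := log_mul_small ha h1d (by linarith)
        have e1 : z * exp (-(xi lam τ N k)) * (1 + d) = ζ * exp (-(xi lam τ N k)) := by
          rw [hζd]
          ring
        rw [e1] at c1 c2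
        have hζ0 : ζ ≠ 0 := by
          rw [hζd]
          exact mul_ne_zero hz0 h1d
        have hwζ : ‖w2 lam τ N k ζ‖ ≤ 3 * τ := by
          have e2 : w2 lam τ N k ζ = w2 lam τ N k z + lam * log (1 + d) := by
            unfold w2
            rw [c2]
            ring
          rw [e2]
          calc ‖w2 lam τ N k z + lam * log (1 + d)‖ ≤ ‖w2 lam τ N k z‖ + ‖(lam:ℂ) * log (1 + d)‖ :=
                norm_add_le _ _
            _ ≤ 2 * τ + lam * (3 / 2 * (τ / (2 * lam))) := by
                rw [norm_mul, norm_real, Real.norm_eq_abs, abs_of_pos hlam0]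
                gcongr
                exact hlogd.trans (by gcongr)
            _ ≤ 3 * τ := by
                have : lam * (3 / 2 * (τ / (2 * lam))) = 3 / 4 * τ := by
                  field_simp
                  norm_num
                rw [this]
                linarith
        have hre := (abs_re_le_norm (w2 lam τ N k ζ)).trans hwζ
        have him := (abs_im_le_norm (w2 lam τ N k ζ)).trans hwζ
        refine ⟨⟨c1, by linarith, by linarith⟩, hwζ, ?_⟩
        rw [hUA k ζ hζ0]
        have := le_abs_self (w2 lam τ N k ζ).re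
        have hAk0 : 0 < A k := Real.exp_pos _
        gcongr
        linarith
      have hε : 0 < τ * r / (2 * lam) := by positivity
      have key := hE2 k z (τ * r / (2 * lam)) (A k * Real.exp (3 * τ)) (3 * τ) hε (by positivity)
        h3τ hball
      refine key.trans ?_
      have e1 : K / (τ * r / (2 * lam)) = K * (2 * lam / (τ * r)) := by
        field_simp
      rw [e1]
      have hpos : 0 ≤ K * (2 * lam / (τ * r)) := by positivity
      apply mul_le_mul_of_nonneg_left _ hpos
      apply Real.exp_le_exp.mpr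
      have e2 : (‖z‖ + τ * r / (2 * lam)) ^ 2 ≤ (2 * r) ^ 2 := by
        rw [hznorm]
        apply pow_le_pow_left₀ (by positivity)
        have : τ * r / (2 * lam) ≤ r := by
          rw [div_le_iff₀ (by positivity)]
          have h9 : τ ≤ 2 * lam := by linarith
          have := mul_le_mul_of_nonneg_right h9 hr0.le
          linarith
        linarith
      have e3 := mul_le_mul_of_nonneg_left e2 hM
      linarith

end Pool.Agent.Work.MP_06ac62_an
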