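import Pool.Agent.Work.MP_06ac62_an.C3

open MeasureTheory Complex ComplexConjugate Metric Filter Topology

namespace Pool.Agent.Work.MP_06ac62_an

lemma norm_le_exp_logMax {f : ℂ → ℂ} (hf : Continuous f) {r : ℝ} (hpos : 0 < maxMod f r) {z : ℂ}
    (hz : ‖z‖ = r) : ‖f z‖ ≤ Real.exp (logMax f r) := by
  unfold logMax
  rw [Real.exp_log hpos]
  exact le_maxMod hf hz

lemma logMax_le {f : ℂ → ℂ} {r b : ℝ} (hr : 0 ≤ r) (hpos : 0 < maxMod f r)
    (h : ∀ z, ‖z‖ = r → ‖f z‖ ≤ Real.exp b) : logMax f r ≤ b := by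
  unfold logMax
  rw [Real.log_le_iff_le_exp hpos]
  exact maxMod_le hr h

/-- lower bound for the maximum from smallness on an arc -/
lemma logMax_ge_of_arc {g : ℂ → ℂ} (hg : Differentiable ℂ g) {r₀ r m X β : ℝ} {N : ℕ}
    (hN : 0 < N) (hr₀ : 0 < r₀) (hr : r₀ < r) (hm : 0 < m) (hmin : ∀ z, ‖z‖ = r₀ → m ≤ ‖g z‖)
    (hpos : 1 < maxMod g r)
    (harc : ∀ φ : ℝ, |φ - β| ≤ Real.pi / N → ‖g (r * exp (φ * I))‖ ≤ Real.exp (-X)) :
    X / N + Real.log m ≤ logMax g r := by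
  have hNr : (0:ℝ) < N := by exact_mod_cast hN
  have hpos' : 0 < maxMod g r := by linarith
  have ha : 0 < logMax g r := Real.log_pos hpos
  have h1 := product_trick hg hN hr₀ hr hm.le hmin
    (fun z hz => norm_le_exp_logMax hg.continuous hpos' hz) harc
  have h2 := Real.log_le_log (pow_pos hm N) h1
  rw [Real.log_pow, Real.log_exp] at h2
  have h3 : X + N * Real.log m ≤ N * logMax g r := by nlinarith
  have h4 : X / N + Real.log m = (X + N * Real.log m) / N := by field_simp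
  rw [h4, div_le_iff₀ hNr]
  linarith

lemma nonconst_of_small {g : ℂ → ℂ} (hg : Differentiable ℂ g) (hne : ∃ z, g z ≠ 0)
    (h : ∀ δ > 0, ∃ z, ‖g z‖ < δ) : IsEntireNonconst g := by
  obtain ⟨z₀, hz₀⟩ := hne
  obtain ⟨z, hz⟩ := h ‖g z₀‖ (norm_pos_iff.mpr hz₀)
  exact ⟨hg, z₀, z, fun h => by rw [h] at hz; exact lt_irrefl _ hz⟩

lemma ev_growth {lam M K η : ℝ} (hlam : 4 ≤ lam) (hη : 0 < η) (hK : 0 < K) :
    ∀ᶠ r : ℝ in atTop, K * Real.exp ((r + 1) ^ lam + M * (r + 1) ^ 2) ≤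
      Real.exp ((1 + η) * r ^ lam) := by
  have h1 : Tendsto (fun r : ℝ => ((r + 1) / r) ^ lam) atTop (𝓝 (1 ^ lam)) := by
    apply Tendsto.rpow_const _ (Or.inl one_ne_zero)
    have : Tendsto (fun r : ℝ => 1 + 1 / r) atTop (𝓝 (1 + 0)) :=
      tendsto_const_nhds.add (tendsto_const_nhds.div_atTop tendsto_id)
    rw [add_zero] at this
    apply this.congr'
    filter_upwards [eventually_gt_atTop 0] with r hr
    field_simp
  rw [Real.one_rpow] at h1
  have h2 : ∀ᶠ r : ℝ in atTop, ((r + 1) / r) ^ lam < 1 + η / 2 :=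
    h1.eventually_lt_const (by linarith)
  have h3 : Tendsto (fun r : ℝ => r ^ (lam - 3)) atTop atTop :=
    tendsto_rpow_atTop (by linarith)
  filter_upwards [h2, h3.eventually_ge_atTop (2 / η * (Real.log K + 4 * |M|) + 1),
    eventually_ge_atTop 1, eventually_ge_atTop (4 * |M| * 2 / η + 1), eventually_ge_atTop (|Real.log K| * 4 / η + 1),
    eventually_ge_atTop (16 * |M| / η)] with r hr1 hr2 hr3 hr4 hr5 hr6
  have hr0 : 0 < r := by linarith
  have e1 : K * Real.exp ((r + 1) ^ lam + M * (r + 1) ^ 2) =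
      Real.exp (Real.log K + ((r + 1) ^ lam + M * (r + 1) ^ 2)) := by
    rw [Real.exp_add (Real.log K), Real.exp_log hK]
  rw [e1]
  apply Real.exp_le_exp.mpr
  have e2 : (r + 1) ^ lam ≤ (1 + η / 2) * r ^ lam := by
    have : (r + 1) ^ lam = ((r + 1) / r) ^ lam * r ^ lam := by
      rw [← Real.mul_rpow (by positivity) hr0.le]
      congr 1
      field_simp
    rw [this]
    gcongr
  have e3 : r ^ (3:ℝ) ≤ r ^ lam := Real.rpow_le_rpow_of_exponent_le hr3 (by linarith)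
  have e4 : r ^ (3:ℝ) = r ^ 3 := by exact_mod_cast Real.rpow_natCast r 3
  rw [e4] at e3
  have e5 : Real.log K ≤ η / 4 * r ^ 3 := by
    have a1 : |Real.log K| ≤ η / 4 * r := by
      have : |Real.log K| * 4 / η ≤ r := by linarith
      rw [div_le_iff₀ hη] at this
      linarith
    have a2 : r ≤ r ^ 3 := by nlinarith [sq_nonneg (r - 1), sq_nonneg r]
    have a3 := le_abs_self (Real.log K)
    nlinarith
  have e6 : M * (r + 1) ^ 2 ≤ η / 4 * r ^ 3 := by
    have a1 : |M| * 16 ≤ η * r := by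
      rw [div_le_iff₀ hη] at hr6
      linarith
    have a2 : (r + 1) ^ 2 ≤ 4 * r ^ 2 := by nlinarith
    have a3 : M * (r + 1) ^ 2 ≤ |M| * (4 * r ^ 2) := by
      calc M * (r + 1) ^ 2 ≤ |M| * (r + 1) ^ 2 := by gcongr; exact le_abs_self M
        _ ≤ |M| * (4 * r ^ 2) := by gcongr
    have a4 : 0 ≤ r ^ 2 := by positivity
    nlinarith [mul_le_mul_of_nonneg_right a1 a4]
  nlinarith

end Pool.Agent.Work.MP_06ac62_an
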