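import Pool.Agent.Work.MP_06ac62_an.C4

open MeasureTheory Complex ComplexConjugate Metric Filter Topology

namespace Pool.Agent.Work.MP_06ac62_an

lemma ev_small {lam M K τ c : ℝ} (hlam : 4 ≤ lam) (hc : 0 < c) (hK : 0 < K) (hτ : 0 < τ) :
    ∀ᶠ r : ℝ in atTop, (K * (2 * lam / (τ * r))) * Real.exp (M * (2 * r) ^ 2) ≤
      Real.exp (c * r ^ lam) := by
  set K' : ℝ := K * (2 * lam / τ) with hK'
  have hK'0 : 0 < K' := by positivity
  filter_upwards [eventually_ge_atTop 1, eventually_ge_atTop (|Real.log K'| * 2 / c),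
    eventually_ge_atTop (8 * |M| / c)] with r hr3 hr5 hr6
  have hr0 : 0 < r := by linarith
  have e1 : (K * (2 * lam / (τ * r))) * Real.exp (M * (2 * r) ^ 2) ≤
      Real.exp (Real.log K' + M * (2 * r) ^ 2) := by
    rw [Real.exp_add, Real.exp_log hK'0]
    apply mul_le_mul_of_nonneg_right _ (Real.exp_pos _).le
    rw [hK']
    have : 2 * lam / (τ * r) ≤ 2 * lam / τ := by
      apply div_le_div_of_nonneg_left (by positivity) hτ
      nlinarith
    gcongr
  refine e1.trans (Real.exp_le_exp.mpr ?_)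
  have e3 : r ^ (3:ℝ) ≤ r ^ lam := Real.rpow_le_rpow_of_exponent_le hr3 (by linarith)
  have e4 : r ^ (3:ℝ) = r ^ 3 := by exact_mod_cast Real.rpow_natCast r 3
  rw [e4] at e3
  have e5 : Real.log K' ≤ c / 2 * r ^ 3 := by
    have a1 : |Real.log K'| ≤ c / 2 * r := by
      rw [div_le_iff₀ hc] at hr5
      linarith
    have a2 : r ≤ r ^ 3 := by nlinarith [sq_nonneg (r - 1), sq_nonneg r]
    have a3 := le_abs_self (Real.log K')
    nlinarith
  have e6 : M * (2 * r) ^ 2 ≤ c / 2 * r ^ 3 := by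
    have a1 : |M| * 8 ≤ c * r := by
      rw [div_le_iff₀ hc] at hr6
      linarith
    have a3 : M * (2 * r) ^ 2 ≤ |M| * (4 * r ^ 2) := by
      calc M * (2 * r) ^ 2 ≤ |M| * (2 * r) ^ 2 := by gcongr; exact le_abs_self M
        _ = |M| * (4 * r ^ 2) := by ring
    have a4 : 0 ≤ r ^ 2 := by positivity
    nlinarith [mul_le_mul_of_nonneg_right a1 a4]
  nlinarith

/-- limit of `log a / log r` from two sided bounds -/
lemma tendsto_order {f : ℂ → ℂ} {lam c C : ℝ} (hc : 0 < c) (hC : 0 < C)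
    (h1 : ∀ᶠ r : ℝ in atTop, c * r ^ lam ≤ logMax f r)
    (h2 : ∀ᶠ r : ℝ in atTop, logMax f r ≤ C * r ^ lam) :
    Tendsto (fun r : ℝ => Real.log (logMax f r) / Real.log r) atTop (𝓝 lam) := by
  have t1 : Tendsto (fun r : ℝ => Real.log c / Real.log r + lam) atTop (𝓝 (0 + lam)) :=
    (tendsto_const_nhds.div_atTop Real.tendsto_log_atTop).add tendsto_const_nhds
  have t2 : Tendsto (fun r : ℝ => Real.log C / Real.log r + lam) atTop (𝓝 (0 + lam)) :=
    (tendsto_const_nhds.div_atTop Real.tendsto_log_atTop).add tendsto_const_nhds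
  rw [zero_add] at t1 t2
  apply tendsto_of_tendsto_of_tendsto_of_le_of_le' t1 t2
  · filter_upwards [h1, eventually_gt_atTop 1] with r hr hr1
    have hr0 : 0 < r := by linarith
    have hl : 0 < Real.log r := Real.log_pos hr1
    have h3 : 0 < r ^ lam := Real.rpow_pos_of_pos hr0 _
    have h4 := Real.log_le_log (by positivity) hr
    rw [Real.log_mul hc.ne' h3.ne', Real.log_rpow hr0] at h4
    rw [le_div_iff₀ hl, add_mul, div_mul_cancel₀ _ hl.ne']
    exact h4
  · filter_upwards [h1, h2, eventually_gt_atTop 1] with r hr hr' hr1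
    have hr0 : 0 < r := by linarith
    have hl : 0 < Real.log r := Real.log_pos hr1
    have h3 : 0 < r ^ lam := Real.rpow_pos_of_pos hr0 _
    have h5 : 0 < logMax f r := lt_of_lt_of_le (by positivity) hr
    have h4 := Real.log_le_log h5 hr'
    rw [Real.log_mul hC.ne' h3.ne', Real.log_rpow hr0] at h4
    rw [div_le_iff₀ hl, add_mul, div_mul_cancel₀ _ hl.ne']
    exact h4

lemma lowerOrder_eq {f : ℂ → ℂ} {lam : ℝ}
    (h : Tendsto (fun r : ℝ => Real.log (logMax f r) / Real.log r) atTop (𝓝 lam)) :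
    lowerOrder f = (lam : EReal) := by
  unfold lowerOrder
  exact ((continuous_coe_real_ereal.tendsto lam).comp h).liminf_eq

/-- Q2, existence part with explicit constants -/
theorem exists_f2 {η lam : ℝ} (hη : 0 < η) (hη1 : η < 1 / 4)
    (hlam : 4 ≤ lam) (hlam2 : 12 * (2 * Real.log (2 / η) + 1) + 1 ≤ lam)
    (hlam3 : 4 * (2 * Real.log (2 / η) + 1) / lam ≤ η)
    (hlam4 : 2 * (1 - 2 * η) * Real.log (12 * (2 * Real.log (2 / η) + 1)) + 5 ≤
      2 * η * Real.log lam) :
    ∃ f : ℂ → ℂ, IsEntireNonconst f ∧ lowerOrder f = (lam : EReal) ∧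
      Lam f ≤ ((-((2 - 10 * η) * Real.log lam) : ℝ) : EReal) := by
  obtain ⟨g, hg, hgne, K, M, τ, R₀, hK, hM, hτ, hR₀, h3τ, hτl, hE1, hE2⟩ :=
    exists_g2 hη hη1 hlam hlam2
  have hlam0 : 0 < lam := by linarith
  set L : ℝ := 2 * Real.log (2 / η) + 1 with hL
  have hL1 : 1 < L := by
    have : 0 < Real.log (2 / η) := Real.log_pos (by rw [lt_div_iff₀ hη]; linarith)
    linarith
  have hτη : τ ≤ η := hτl.trans hlam3
  set Y : ℝ := 2 * (1 - 2 * η) * (Real.log lam - Real.log (12 * L)) - 5 with hY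
  have hloglam : 0 < Real.log lam := Real.log_pos (by linarith)
  have hYlow : 2 * (1 - 3 * η) * Real.log lam ≤ Y := by
    rw [hY]
    linarith
  have hY0 : 0 < Y := by
    have : 0 < 2 * (1 - 3 * η) * Real.log lam := by
      apply mul_pos _ hloglam
      linarith
    linarith
  -- the exponent
  have hexp : Real.exp (3 * τ) + (2 + 2 * (1 - 2 * η) * Real.log (3 * τ)) + η ≤ -Y := by
    have h1 : Real.exp (3 * τ) ≤ 2 := by
      have : Real.exp (3 * τ) ≤ Real.exp (1 / 2) := Real.exp_le_exp.mpr h3τ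
      have h2 : Real.exp (1 / 2 : ℝ) ≤ 2 := by
        have h3 := Real.exp_one_lt_d9
        have h4 : Real.exp (1 / 2 : ℝ) ^ 2 = Real.exp 1 := by
          rw [← Real.exp_nat_mul]
          norm_num
        nlinarith [Real.exp_pos (1 / 2 : ℝ)]
      linarith
    have h2 : Real.log (3 * τ) ≤ Real.log (12 * L) - Real.log lam := by
      rw [← Real.log_div (by positivity) hlam0.ne']
      apply Real.log_le_log (by positivity)
      calc 3 * τ ≤ 3 * (4 * L / lam) := by gcongr
        _ = 12 * L / lam := by ring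
    have h3 : 2 * (1 - 2 * η) * Real.log (3 * τ) ≤
        2 * (1 - 2 * η) * (Real.log (12 * L) - Real.log lam) := by
      apply mul_le_mul_of_nonneg_left h2
      linarith
    rw [hY]
    linarith
  -- smallness on arcs
  have hsmall : ∀ᶠ r : ℝ in atTop, ∃ β : ℝ, ∀ φ : ℝ, |φ - β| ≤ τ / lam →
      ‖g (r * exp (φ * I))‖ ≤ Real.exp (-(Real.exp (-τ) * Y * r ^ lam)) := by
    filter_upwards [ev_small (c := η * Real.exp (-τ)) hlam (by positivity) hK hτ (M := M),
      eventually_ge_atTop R₀] with r hr hrR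
    obtain ⟨A, β, hA0, hA1, hA2, hA3⟩ := hE2 r hrR
    refine ⟨β, fun φ hφ => (hA3 φ hφ).trans ?_⟩
    have hA4 : Real.exp (-τ) * r ^ lam ≤ A := by
      calc Real.exp (-τ) * r ^ lam ≤ Real.exp (-τ) * (A * Real.exp τ) := by gcongr
        _ = A * (Real.exp (-τ) * Real.exp τ) := by ring
        _ = A := by rw [← Real.exp_add]; simp
    rw [Real.exp_add, ← mul_assoc, mul_right_comm]
    calc (K * (2 * lam / (τ * r))) * Real.exp (M * (2 * r) ^ 2) *
          Real.exp (A * (Real.exp (3 * τ) + (2 + 2 * (1 - 2 * η) * Real.log (3 * τ))))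
        ≤ Real.exp (η * Real.exp (-τ) * r ^ lam) *
          Real.exp (A * (Real.exp (3 * τ) + (2 + 2 * (1 - 2 * η) * Real.log (3 * τ)))) := by
          gcongr
      _ ≤ Real.exp (-(Real.exp (-τ) * Y * r ^ lam)) := by
          rw [← Real.exp_add]
          apply Real.exp_le_exp.mpr
          have b1 : η * Real.exp (-τ) * r ^ lam ≤ η * A := by
            rw [mul_assoc]
            gcongr
          have b2 : A * (Real.exp (3 * τ) + (2 + 2 * (1 - 2 * η) * Real.log (3 * τ))) + η * A ≤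
              A * (-Y) := by
            have := mul_le_mul_of_nonneg_left hexp hA0.le
            linarith
          have b3 : Y * (Real.exp (-τ) * r ^ lam) ≤ Y * A := by gcongr
          linarith
  have hrt : Tendsto (fun r : ℝ => r ^ lam) atTop atTop := tendsto_rpow_atTop hlam0
  have hnc : IsEntireNonconst g := by
    apply nonconst_of_small hg hgne
    intro δ hδ
    have h1 : Tendsto (fun r : ℝ => Real.exp (-(Real.exp (-τ) * Y * r ^ lam))) atTop (𝓝 0) := by
      apply Real.tendsto_exp_neg_atTop_nhds_zero.comp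
      exact hrt.const_mul_atTop (by positivity)
    obtain ⟨r, ⟨β, hr⟩, hr2⟩ := (hsmall.and (h1.eventually_lt_const hδ)).exists
    refine ⟨r * exp (β * I), lt_of_le_of_lt (hr β (by simp; positivity)) hr2⟩
  have hupper : ∀ᶠ r : ℝ in atTop, logMax g r ≤ (1 + η) * r ^ lam := by
    filter_upwards [ev_growth (M := M) hlam hη hK, eventually_maxMod_gt hnc 1,
      eventually_ge_atTop 0] with r hr hr1 hr0
    apply logMax_le hr0 (by linarith)
    intro z hz
    have := hE1 z
    rw [hz] at this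
    exact this.trans hr
  -- circle
  obtain ⟨r₀, m, hr₀, hr₀1, hm, hmin⟩ := exists_circle hg hgne
  set N : ℕ := ⌈Real.pi * lam / τ⌉₊ with hN
  have hNge : Real.pi * lam / τ ≤ N := Nat.le_ceil _
  have hN0 : 0 < N := Nat.ceil_pos.mpr (by have := Real.pi_pos; positivity)
  have hNr : (0:ℝ) < N := by exact_mod_cast hN0
  have hNarc : Real.pi / N ≤ τ / lam := by
    rw [div_le_iff₀ hτ] at hNge
    rw [div_le_div_iff₀ hNr hlam0]
    linarith
  set c : ℝ := Real.exp (-τ) * Y / (2 * N) with hc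
  have hc0 : 0 < c := by positivity
  have hlower : ∀ᶠ r : ℝ in atTop, c * r ^ lam ≤ logMax g r := by
    filter_upwards [hsmall, eventually_maxMod_gt hnc 1, eventually_gt_atTop r₀,
      hrt.eventually_ge_atTop (-Real.log m / c)] with r hr hr1 hr2 hr3
    obtain ⟨β, hβ⟩ := hr
    have h1 := logMax_ge_of_arc hg hN0 hr₀ hr2 hm hmin hr1
      (fun φ hφ => hβ φ (hφ.trans hNarc))
    rw [div_le_iff₀ hc0] at hr3
    have h2 : Real.exp (-τ) * Y * r ^ lam / N = 2 * (c * r ^ lam) := by
      rw [hc]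
      field_simp
    rw [h2] at h1
    linarith
  refine ⟨g, hnc, lowerOrder_eq (tendsto_order hc0 (by positivity : 0 < 1 + η) hlower hupper), ?_⟩
  -- the ratio
  apply limsup_ratio_le
  filter_upwards [hsmall, hupper, eventually_logMax_gt hnc 0, eventually_gt_atTop 0]
    with r hr hr1 hr2 hr0
  refine ⟨hr2, ?_⟩
  obtain ⟨β, hβ⟩ := hr
  have h1 : minMod g r ≤ ‖g (r * exp (β * I))‖ := by
    apply minMod_le
    rw [norm_mul, norm_exp_ofReal_mul_I, norm_real, Real.norm_eq_abs, abs_of_pos hr0, mul_one]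
  refine h1.trans ((hβ β (by simp; positivity)).trans (Real.exp_le_exp.mpr ?_))
  -- numerical inequality
  have h2 : 1 - τ ≤ Real.exp (-τ) := by
    have := Real.add_one_le_exp (-τ)
    linarith
  have h3 : (2 - 10 * η) * Real.log lam * (1 + η) ≤ Real.exp (-τ) * Y := by
    calc (2 - 10 * η) * Real.log lam * (1 + η) ≤ (1 - η) * (2 * (1 - 3 * η) * Real.log lam) := by
          have : (2 - 10 * η) * (1 + η) ≤ (1 - η) * (2 * (1 - 3 * η)) := by nlinarith
          nlinarith
      _ ≤ Real.exp (-τ) * Y := by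
          apply mul_le_mul _ hYlow _ (Real.exp_pos _).le
          · linarith
          · apply mul_nonneg _ hloglam.le
            linarith
  have h4 : 0 ≤ r ^ lam := by positivity
  have h5 : (2 - 10 * η) * Real.log lam * logMax g r ≤ Real.exp (-τ) * Y * r ^ lam := by
    by_cases hs : 0 ≤ (2 - 10 * η) * Real.log lam
    · calc (2 - 10 * η) * Real.log lam * logMax g r
          ≤ (2 - 10 * η) * Real.log lam * ((1 + η) * r ^ lam) := by gcongr
        _ = ((2 - 10 * η) * Real.log lam * (1 + η)) * r ^ lam := by ring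
        _ ≤ _ := by gcongr
    · push Not at hs
      have : 0 ≤ Real.exp (-τ) * Y * r ^ lam := by positivity
      nlinarith
  linarith

theorem upper_Q2 {ε : ℝ} (hε : 0 < ε) : ∃ lam0 : ℝ, ∀ lam ≥ lam0,
    ∃ f : ℂ → ℂ, IsEntireNonconst f ∧ lowerOrder f = (lam : EReal) ∧
      Lam f ≤ ((-((2 - ε) * Real.log lam) : ℝ) : EReal) := by
  set η : ℝ := min (ε / 10) (1 / 5) with hηdef
  have hη : 0 < η := by positivity
  have hη1 : η < 1 / 4 := lt_of_le_of_lt (min_le_right _ _) (by norm_num)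
  have hη2 : 10 * η ≤ ε := by
    have := min_le_left (ε / 10) (1 / 5)
    rw [← hηdef] at this
    linarith
  have h1 : Tendsto (fun lam : ℝ => 4 * (2 * Real.log (2 / η) + 1) / lam) atTop (𝓝 0) :=
    tendsto_const_nhds.div_atTop tendsto_id
  have h2 : Tendsto (fun lam : ℝ => 2 * η * Real.log lam) atTop atTop :=
    Real.tendsto_log_atTop.const_mul_atTop (by positivity)
  have hev := ((eventually_ge_atTop (4:ℝ)).and (eventually_ge_atTop
    (12 * (2 * Real.log (2 / η) + 1) + 1))).and ((h1.eventually_le_const hη).and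
    (h2.eventually_ge_atTop (2 * (1 - 2 * η) * Real.log (12 * (2 * Real.log (2 / η) + 1)) + 5)))
  obtain ⟨lam0, hlam0⟩ := (hev.and (eventually_ge_atTop (1:ℝ))).exists_forall_of_atTop
  refine ⟨lam0, fun lam hlam => ?_⟩
  obtain ⟨⟨⟨a1, a2⟩, ⟨a3, a4⟩⟩, a5⟩ := hlam0 lam hlam
  obtain ⟨f, hf1, hf2, hf3⟩ := exists_f2 hη hη1 a1 a2 a3 a4
  refine ⟨f, hf1, hf2, hf3.trans ?_⟩
  rw [EReal.coe_le_coe_iff]
  have : 0 ≤ Real.log lam := Real.log_nonneg a5
  nlinarith

end Pool.Agent.Work.MP_06ac62_an
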