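import Mathlib

open Filter MeasureTheory Metric Real Set Topology

namespace MinMod

variable {E : Type*} [NormedAddCommGroup E] [NormedSpace ℝ E]

/-- partial derivative in `x` -/
noncomputable def dx (f : ℂ → E) (z : ℂ) : E := fderiv ℝ f z 1

/-- partial derivative in `y` -/
noncomputable def dy (f : ℂ → E) (z : ℂ) : E := fderiv ℝ f z Complex.I

/-- the Laplacian -/
noncomputable def lap (φ : ℂ → ℝ) (z : ℂ) : ℝ := dx (dx φ) z + dy (dy φ) z

lemma contDiffAt_dx {f : ℂ → E} {z : ℂ} (h : ContDiffAt ℝ 2 f z) : ContDiffAt ℝ 1 (dx f) z := by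
  have h1 : ContDiffAt ℝ 1 (fderiv ℝ f) z := h.fderiv_right (by norm_num)
  exact h1.clm_apply contDiffAt_const

lemma contDiffAt_dy {f : ℂ → E} {z : ℂ} (h : ContDiffAt ℝ 2 f z) : ContDiffAt ℝ 1 (dy f) z := by
  have h1 : ContDiffAt ℝ 1 (fderiv ℝ f) z := h.fderiv_right (by norm_num)
  exact h1.clm_apply contDiffAt_const

lemma continuousAt_dx {f : ℂ → E} {z : ℂ} (h : ContDiffAt ℝ 1 f z) : ContinuousAt (dx f) z := by
  have h1 : ContDiffAt ℝ 0 (fderiv ℝ f) z := h.fderiv_right (by norm_num)
  exact h1.continuousAt.clm_apply continuousAt_const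

lemma continuousAt_dy {f : ℂ → E} {z : ℂ} (h : ContDiffAt ℝ 1 f z) : ContinuousAt (dy f) z := by
  have h1 : ContDiffAt ℝ 0 (fderiv ℝ f) z := h.fderiv_right (by norm_num)
  exact h1.continuousAt.clm_apply continuousAt_const

lemma dx_dy_comm {f : ℂ → E} {z : ℂ} (h : ContDiffAt ℝ 2 f z) : dx (dy f) z = dy (dx f) z := by
  have h1 : DifferentiableAt ℝ (fderiv ℝ f) z :=
    ((h.fderiv_right (m := 1) (by norm_num)).differentiableAt (by norm_num))
  have h2 : IsSymmSndFDerivAt ℝ f z := h.isSymmSndFDerivAt (by simp)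
  have e1 : dx (dy f) z = fderiv ℝ (fderiv ℝ f) z 1 Complex.I := by
    unfold dx dy
    rw [fderiv_clm_apply h1 (differentiableAt_const _)]
    simp
  have e2 : dy (dx f) z = fderiv ℝ (fderiv ℝ f) z Complex.I 1 := by
    unfold dx dy
    rw [fderiv_clm_apply h1 (differentiableAt_const _)]
    simp
  rw [e1, e2]
  exact h2 1 Complex.I

/-- slice derivative in direction `v` -/
lemma slice {f : ℂ → E} {z : ℂ} (h : DifferentiableAt ℝ f z) (v : ℂ) :
    HasDerivAt (fun t : ℝ => f (z + t • v)) (fderiv ℝ f z v) 0 :=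
  h.hasFDerivAt.hasLineDerivAt v

lemma fderiv_eq_of_slice {f : ℂ → E} {z : ℂ} (h : DifferentiableAt ℝ f z) {v : ℂ} {c : E}
    (hc : HasDerivAt (fun t : ℝ => f (z + t • v)) c 0) : fderiv ℝ f z v = c :=
  (slice h v).unique hc

lemma integral_fderiv_zero {P : ℂ → ℝ} (hP : ContDiff ℝ 1 P) (hc : HasCompactSupport P) (v : ℂ) :
    ∫ z, fderiv ℝ P z v = 0 := by
  have h1 : Integrable (fun z => fderiv ℝ P z v) volume := by
    apply Continuous.integrable_of_hasCompactSupport
    · exact (hP.continuous_fderiv (by norm_num)).clm_apply continuous_const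
    · exact hc.fderiv_apply ℝ v
  have h2 := integral_mul_fderiv_eq_neg_fderiv_mul_of_integrable (μ := (volume : Measure ℂ))
    (f := fun _ : ℂ => (1 : ℝ)) (g := P) (v := v) (by simp) (by simpa using h1)
    (by simpa using hP.continuous.integrable_of_hasCompactSupport hc)
    (fun x _ => differentiableAt_const _) (fun x _ => hP.differentiable (by norm_num) x)
  simpa using h2

lemma contDiff_of_tsupport' {F : Type*} [NormedAddCommGroup F] [NormedSpace ℝ F] {n : ℕ∞}
    {f : ℂ → F} (h : ∀ x ∈ tsupport f, ContDiffAt ℝ n f x) : ContDiff ℝ n f := by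
  rw [contDiff_iff_contDiffAt]
  intro x
  by_cases hx : x ∈ tsupport f
  · exact h x hx
  · have : (tsupport f)ᶜ ∈ 𝓝 x := (isClosed_tsupport f).isOpen_compl.mem_nhds hx
    have h2 : f =ᶠ[𝓝 x] fun _ => 0 := by
      filter_upwards [this] with w hw
      exact image_eq_zero_of_notMem_tsupport hw
    exact contDiffAt_const.congr_of_eventuallyEq h2

/-- The basic `L²` inequality. -/
theorem basic_ineq {Ω : Set ℂ} (hΩ : IsOpen Ω) {φ : ℂ → ℝ} (hφ : ∀ z ∈ Ω, ContDiffAt ℝ 2 φ z)
    {α : ℂ → ℂ} (hα : ContDiff ℝ 2 α) (hαc : HasCompactSupport α) (hαΩ : tsupport α ⊆ Ω) :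
    ∫ z, lap φ z * ‖α z‖ ^ 2 * Real.exp (φ z) ≤
      ∫ z, ‖dx α z + Complex.I * dy α z‖ ^ 2 * Real.exp (φ z) := by
  set a : ℂ → ℝ := fun z => (α z).re with ha
  set b : ℂ → ℝ := fun z => (α z).im with hb
  have haC : ContDiff ℝ 2 a := Complex.reCLM.contDiff.comp hα
  have hbC : ContDiff ℝ 2 b := Complex.imCLM.contDiff.comp hα
  have haD : Differentiable ℝ a := haC.differentiable (by norm_num)
  have hbD : Differentiable ℝ b := hbC.differentiable (by norm_num)
  have hαD : Differentiable ℝ α := hα.differentiable (by norm_num)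
  have hzero : ∀ z, z ∉ tsupport α → ∀ᶠ w in 𝓝 z, α w = 0 := by
    intro z hz
    have : (tsupport α)ᶜ ∈ 𝓝 z := (isClosed_tsupport α).isOpen_compl.mem_nhds hz
    filter_upwards [this] with w hw
    exact image_eq_zero_of_notMem_tsupport hw
  set P : ℂ → ℝ := fun z => -2 * Real.exp (φ z) * (a z * dy b z - b z * dy a z) -
    Real.exp (φ z) * dx φ z * (a z ^ 2 + b z ^ 2) with hP
  set Q : ℂ → ℝ := fun z => 2 * Real.exp (φ z) * (a z * dx b z - b z * dx a z) -
    Real.exp (φ z) * dy φ z * (a z ^ 2 + b z ^ 2) with hQ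
  have hPsupp : tsupport P ⊆ tsupport α := by
    apply closure_minimal _ (isClosed_tsupport α)
    intro z hz
    by_contra hz'
    apply hz
    have h0 := image_eq_zero_of_notMem_tsupport hz'
    simp [hP, ha, hb, h0]
  have hQsupp : tsupport Q ⊆ tsupport α := by
    apply closure_minimal _ (isClosed_tsupport α)
    intro z hz
    by_contra hz'
    apply hz
    have h0 := image_eq_zero_of_notMem_tsupport hz'
    simp [hQ, ha, hb, h0]
  have hexp : ∀ z ∈ Ω, ContDiffAt ℝ 1 (fun z => Real.exp (φ z)) z := fun z hz =>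
    ((hφ z hz).of_le (by norm_num)).exp
  have ha1 : ∀ z, ContDiffAt ℝ 1 a z := fun z => haC.contDiffAt.of_le (by norm_num)
  have hb1 : ∀ z, ContDiffAt ℝ 1 b z := fun z => hbC.contDiffAt.of_le (by norm_num)
  have hPC : ContDiff ℝ 1 P := by
    apply contDiff_of_tsupport' (n := 1)
    intro z hz
    have hzΩ := hαΩ (hPsupp hz)
    have e1 := hexp z hzΩ
    have e2 := contDiffAt_dx (hφ z hzΩ)
    have e3 := contDiffAt_dy (haC.contDiffAt (x := z))
    have e4 := contDiffAt_dy (hbC.contDiffAt (x := z))
    exact ((contDiffAt_const.mul e1).mul (((ha1 z).mul e4).sub ((hb1 z).mul e3))).sub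
      ((e1.mul e2).mul (((ha1 z).pow 2).add ((hb1 z).pow 2)))
  have hQC : ContDiff ℝ 1 Q := by
    apply contDiff_of_tsupport' (n := 1)
    intro z hz
    have hzΩ := hαΩ (hQsupp hz)
    have e1 := hexp z hzΩ
    have e2 := contDiffAt_dy (hφ z hzΩ)
    have e3 := contDiffAt_dx (haC.contDiffAt (x := z))
    have e4 := contDiffAt_dx (hbC.contDiffAt (x := z))
    exact ((contDiffAt_const.mul e1).mul (((ha1 z).mul e4).sub ((hb1 z).mul e3))).sub
      ((e1.mul e2).mul (((ha1 z).pow 2).add ((hb1 z).pow 2)))
  have hPcs : HasCompactSupport P := hαc.of_isClosed_subset (isClosed_tsupport P) hPsupp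
  have hQcs : HasCompactSupport Q := hαc.of_isClosed_subset (isClosed_tsupport Q) hQsupp
  have hIP := integral_fderiv_zero hPC hPcs 1
  have hIQ := integral_fderiv_zero hQC hQcs Complex.I
  -- the remainder
  set R : ℂ → ℝ := fun z => Real.exp (φ z) *
    ((dx a z + dy b z + dx φ z * a z + dy φ z * b z) ^ 2 +
      (dx b z - dy a z + dx φ z * b z - dy φ z * a z) ^ 2) with hR
  have hnorm : ∀ z, ‖dx α z + Complex.I * dy α z‖ ^ 2 =
      (dx a z - dy b z) ^ 2 + (dx b z + dy a z) ^ 2 := by
    intro z
    have ea : ∀ v, fderiv ℝ a z v = (fderiv ℝ α z v).re := by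
      intro v
      have : HasFDerivAt a (Complex.reCLM.comp (fderiv ℝ α z)) z :=
        Complex.reCLM.hasFDerivAt.comp z (hαD z).hasFDerivAt
      rw [this.fderiv]; rfl
    have eb : ∀ v, fderiv ℝ b z v = (fderiv ℝ α z v).im := by
      intro v
      have : HasFDerivAt b (Complex.imCLM.comp (fderiv ℝ α z)) z :=
        Complex.imCLM.hasFDerivAt.comp z (hαD z).hasFDerivAt
      rw [this.fderiv]; rfl
    rw [← Complex.normSq_eq_norm_sq, Complex.normSq_apply]
    simp only [dx, dy, ea, eb, Complex.add_re, Complex.add_im, Complex.mul_re, Complex.mul_im,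
      Complex.I_re, Complex.I_im]
    ring
  have hnormα : ∀ z, ‖α z‖ ^ 2 = a z ^ 2 + b z ^ 2 := by
    intro z
    rw [← Complex.normSq_eq_norm_sq, Complex.normSq_apply]
    simp only [ha, hb]; ring
  have hpt : ∀ z, ‖dx α z + Complex.I * dy α z‖ ^ 2 * Real.exp (φ z) =
      lap φ z * ‖α z‖ ^ 2 * Real.exp (φ z) + R z + (fderiv ℝ P z 1 + fderiv ℝ Q z Complex.I) := by
    intro z
    by_cases hz : z ∈ tsupport α
    · have hzΩ := hαΩ hz
      have hφz := hφ z hzΩ
      have hφd : DifferentiableAt ℝ φ z := hφz.differentiableAt (by norm_num)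
      -- slices
      have sφ := slice hφd
      have sa := slice (haD z)
      have sb := slice (hbD z)
      have say := slice ((contDiffAt_dy (haC.contDiffAt (x := z))).differentiableAt (by norm_num))
      have sby := slice ((contDiffAt_dy (hbC.contDiffAt (x := z))).differentiableAt (by norm_num))
      have sax := slice ((contDiffAt_dx (haC.contDiffAt (x := z))).differentiableAt (by norm_num))
      have sbx := slice ((contDiffAt_dx (hbC.contDiffAt (x := z))).differentiableAt (by norm_num))
      have sφx := slice ((contDiffAt_dx hφz).differentiableAt (by norm_num))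
      have sφy := slice ((contDiffAt_dy hφz).differentiableAt (by norm_num))
      have cP : fderiv ℝ P z 1 = -2 * Real.exp (φ z) * (dx φ z * (a z * dy b z - b z * dy a z) +
          dx a z * dy b z + a z * dx (dy b) z - dx b z * dy a z - b z * dx (dy a) z) -
          Real.exp (φ z) * (dx φ z ^ 2 * (a z ^ 2 + b z ^ 2) + dx (dx φ) z * (a z ^ 2 + b z ^ 2) +
            dx φ z * (2 * a z * dx a z + 2 * b z * dx b z)) := by
        apply fderiv_eq_of_slice (hPC.differentiable (by norm_num) z)
        have h1 := (((sφ 1).exp.const_mul (-2)).mul (((sa 1).mul (sby 1)).sub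
          ((sb 1).mul (say 1)))).sub (((sφ 1).exp.mul (sφx 1)).mul
          (((sa 1).pow 2).add ((sb 1).pow 2)))
        refine h1.congr_deriv ?_
        simp only [Pi.mul_apply, Pi.sub_apply, Pi.add_apply, Pi.pow_apply, zero_smul, add_zero,
          dx, dy, Nat.cast_ofNat]
        ring
      have cQ : fderiv ℝ Q z Complex.I =
          2 * Real.exp (φ z) * (dy φ z * (a z * dx b z - b z * dx a z) +
          dy a z * dx b z + a z * dy (dx b) z - dy b z * dx a z - b z * dy (dx a) z) -
          Real.exp (φ z) * (dy φ z ^ 2 * (a z ^ 2 + b z ^ 2) + dy (dy φ) z * (a z ^ 2 + b z ^ 2) +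
            dy φ z * (2 * a z * dy a z + 2 * b z * dy b z)) := by
        apply fderiv_eq_of_slice (hQC.differentiable (by norm_num) z)
        have h1 := (((sφ Complex.I).exp.const_mul 2).mul (((sa Complex.I).mul (sbx Complex.I)).sub
          ((sb Complex.I).mul (sax Complex.I)))).sub (((sφ Complex.I).exp.mul (sφy Complex.I)).mul
          (((sa Complex.I).pow 2).add ((sb Complex.I).pow 2)))
        refine h1.congr_deriv ?_
        simp only [Pi.mul_apply, Pi.sub_apply, Pi.add_apply, Pi.pow_apply, zero_smul, add_zero,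
          dx, dy, Nat.cast_ofNat]
        ring
      rw [cP, cQ, hnorm, hnormα, dx_dy_comm (haC.contDiffAt (x := z)),
        dx_dy_comm (hbC.contDiffAt (x := z))]
      simp only [hR, lap]
      ring
    · have h0 : α z = 0 := image_eq_zero_of_notMem_tsupport hz
      have hev := hzero z hz
      have eP : fderiv ℝ P z = 0 := by
        have : P =ᶠ[𝓝 z] fun _ => 0 := by
          filter_upwards [hev] with w hw
          simp [hP, ha, hb, hw]
        rw [this.fderiv_eq]; simp
      have eQ : fderiv ℝ Q z = 0 := by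
        have : Q =ᶠ[𝓝 z] fun _ => 0 := by
          filter_upwards [hev] with w hw
          simp [hQ, ha, hb, hw]
        rw [this.fderiv_eq]; simp
      have ea : fderiv ℝ a z = 0 := by
        have : a =ᶠ[𝓝 z] fun _ => 0 := by
          filter_upwards [hev] with w hw
          simp [ha, hw]
        rw [this.fderiv_eq]; simp
      have eb : fderiv ℝ b z = 0 := by
        have : b =ᶠ[𝓝 z] fun _ => 0 := by
          filter_upwards [hev] with w hw
          simp [hb, hw]
        rw [this.fderiv_eq]; simp
      have ha0 : a z = 0 := by simp [ha, h0]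
      have hb0 : b z = 0 := by simp [hb, h0]
      rw [eP, eQ, hnorm, hnormα]
      simp only [hR, dx, dy, ea, eb, ha0, hb0]
      simp
  -- integrability
  have hsuppR : ∀ z, z ∉ tsupport α → R z = 0 := by
    intro z hz
    have hev := hzero z hz
    have ea : fderiv ℝ a z = 0 := by
      have : a =ᶠ[𝓝 z] fun _ => 0 := by
        filter_upwards [hev] with w hw
        simp [ha, hw]
      rw [this.fderiv_eq]; simp
    have eb : fderiv ℝ b z = 0 := by
      have : b =ᶠ[𝓝 z] fun _ => 0 := by
        filter_upwards [hev] with w hw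
        simp [hb, hw]
      rw [this.fderiv_eq]; simp
    have h0 : α z = 0 := image_eq_zero_of_notMem_tsupport hz
    have ha0 : a z = 0 := by simp [ha, h0]
    have hb0 : b z = 0 := by simp [hb, h0]
    simp only [hR, dx, dy, ea, eb, ha0, hb0]
    simp
  have hcont : ∀ F : ℂ → ℝ, (∀ z, z ∉ tsupport α → F z = 0) → (∀ z ∈ Ω, ContinuousAt F z) →
      Integrable F volume := by
    intro F h0 hF
    have hs : tsupport F ⊆ tsupport α := by
      apply closure_minimal _ (isClosed_tsupport α)
      intro z hz
      by_contra hz'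
      exact hz (h0 z hz')
    have hc : Continuous F := by
      apply continuous_of_tsupport
      intro z hz
      exact hF z (hαΩ (hs hz))
    exact hc.integrable_of_hasCompactSupport (hαc.of_isClosed_subset (isClosed_tsupport F) hs)
  have hIR : Integrable R volume := by
    apply hcont R hsuppR
    intro z hz
    have e1 := (hexp z hz).continuousAt
    have e2 := (contDiffAt_dx (hφ z hz)).continuousAt
    have e3 := (contDiffAt_dy (hφ z hz)).continuousAt
    have e4 := (contDiffAt_dx (haC.contDiffAt (x := z))).continuousAt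
    have e5 := (contDiffAt_dy (haC.contDiffAt (x := z))).continuousAt
    have e6 := (contDiffAt_dx (hbC.contDiffAt (x := z))).continuousAt
    have e7 := (contDiffAt_dy (hbC.contDiffAt (x := z))).continuousAt
    have e8 := (ha1 z).continuousAt
    have e9 := (hb1 z).continuousAt
    fun_prop
  have hIL : Integrable (fun z => lap φ z * ‖α z‖ ^ 2 * Real.exp (φ z)) volume := by
    apply hcont
    · intro z hz
      simp [image_eq_zero_of_notMem_tsupport hz]
    · intro z hz
      have e1 := (hexp z hz).continuousAt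
      have e2 := continuousAt_dx (contDiffAt_dx (hφ z hz))
      have e3 := continuousAt_dy (contDiffAt_dy (hφ z hz))
      have e4 : ContinuousAt (lap φ) z := e2.add e3
      have e5 : ContinuousAt α z := hα.continuous.continuousAt
      fun_prop
  have hIPi : Integrable (fun z => fderiv ℝ P z 1) volume := by
    apply Continuous.integrable_of_hasCompactSupport
    · exact (hPC.continuous_fderiv (by norm_num)).clm_apply continuous_const
    · exact hPcs.fderiv_apply ℝ 1
  have hIQi : Integrable (fun z => fderiv ℝ Q z Complex.I) volume := by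
    apply Continuous.integrable_of_hasCompactSupport
    · exact (hQC.continuous_fderiv (by norm_num)).clm_apply continuous_const
    · exact hQcs.fderiv_apply ℝ Complex.I
  have hfinal : ∫ z, ‖dx α z + Complex.I * dy α z‖ ^ 2 * Real.exp (φ z) =
      (∫ z, lap φ z * ‖α z‖ ^ 2 * Real.exp (φ z)) + ∫ z, R z := by
    have e1 : ∫ z, ‖dx α z + Complex.I * dy α z‖ ^ 2 * Real.exp (φ z) =
        ∫ z, ((lap φ z * ‖α z‖ ^ 2 * Real.exp (φ z) + R z) +
          (fderiv ℝ P z 1 + fderiv ℝ Q z Complex.I)) := integral_congr_ae (Eventually.of_forall hpt)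
    rw [e1]
    have e2 := integral_add (hIL.add hIR) (hIPi.add hIQi)
    have e3 := integral_add hIL hIR
    have e4 := integral_add hIPi hIQi
    simp only [Pi.add_apply] at e2 e3 e4
    rw [e2, e3, e4, hIP, hIQ]
    ring
  rw [hfinal]
  have hRnn : 0 ≤ ∫ z, R z := by
    apply integral_nonneg
    intro z
    simp only [hR]
    positivity
  linarith

end MinMod
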