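import Mathlib

open Filter MeromorphicAt MeasureTheory MeromorphicOn Metric Real Set Topology
open scoped ComplexConjugate

namespace MinMod

/-- Poisson average over the circle of `log ‖z - u‖` for `u` in the closed disc. -/
lemma poisson_log_sub {c w u : ℂ} {R : ℝ} (hR : 0 < R) (hw : w ∈ ball c R)
    (hu : u ∈ closedBall c R) :
    circleAverage ((Complex.re ∘ herglotzRieszKernel c w) • (fun z => Real.log ‖z - u‖)) c R
      = Real.log (‖(R : ℂ) ^ 2 - conj (u - c) * (w - c)‖ / R) := by
  have hRC : (R : ℂ) ≠ 0 := by exact_mod_cast hR.ne'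
  have key : ∀ z ∈ sphere c R, ‖(R : ℂ) ^ 2 - conj (u - c) * (z - c)‖ / R = ‖z - u‖ := by
    intro z hz
    have hz' : ‖z - c‖ = R := by simpa [dist_eq_norm] using hz
    have h1 : (R : ℂ) ^ 2 = (z - c) * conj (z - c) := by
      rw [Complex.mul_conj, Complex.normSq_eq_norm_sq, hz']; push_cast; ring
    have h2 : (R : ℂ) ^ 2 - conj (u - c) * (z - c) = (z - c) * conj (z - u) := by
      rw [h1]; simp only [map_sub]; ring
    rw [h2, norm_mul, hz', Complex.norm_conj]
    field_simp
  rcases eq_or_lt_of_le (mem_closedBall.1 hu) with hu' | hu'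
  · -- on the circle
    have hus : u ∈ sphere c R := hu'
    have := circleAverage_re_herglotzRieszKernel_mul_log hus hw
    have h3 : ((Complex.re ∘ herglotzRieszKernel c w) • (fun z => Real.log ‖z - u‖))
        = ((Complex.re ∘ herglotzRieszKernel c w) * (log ‖· - u‖)) := by
      ext z; simp
    rw [h3, this]
    congr 1
    have hz' : ‖u - c‖ = R := by simpa [dist_eq_norm] using hus
    have h1 : (R : ℂ) ^ 2 = (u - c) * conj (u - c) := by
      rw [Complex.mul_conj, Complex.normSq_eq_norm_sq, hz']; push_cast; ring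
    have h2 : (R : ℂ) ^ 2 - conj (u - c) * (w - c) = conj (u - c) * (u - w) := by
      rw [h1]; ring
    rw [h2, norm_mul, Complex.norm_conj, hz', norm_sub_rev u w]
    field_simp
  · -- inside
    have hne : ∀ z ∈ closedBall c R, (R : ℂ) ^ 2 - conj (u - c) * (z - c) ≠ 0 := by
      intro z hz h0
      have h1 : ‖(R : ℂ) ^ 2‖ = ‖conj (u - c) * (z - c)‖ := by rw [sub_eq_zero.1 h0]
      rw [norm_pow, norm_mul, Complex.norm_conj, Complex.norm_real, Real.norm_eq_abs,
        abs_of_pos hR] at h1
      have h2 : ‖u - c‖ < R := by simpa [dist_eq_norm] using hu'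
      have h3 : ‖z - c‖ ≤ R := by simpa [dist_eq_norm] using hz
      nlinarith [norm_nonneg (u - c), norm_nonneg (z - c)]
    have hharm : InnerProductSpace.HarmonicOnNhd
        (fun z => Real.log ‖((R : ℂ) ^ 2 - conj (u - c) * (z - c)) / R‖) (closedBall c R) := by
      intro z hz
      apply AnalyticAt.harmonicAt_log_norm
      · fun_prop
      · exact div_ne_zero (hne z hz) hRC
    have h4 := InnerProductSpace.HarmonicOnNhd.circleAverage_re_herglotzRieszKernel_smul hharm hw
    have h5 : circleAverage ((Complex.re ∘ herglotzRieszKernel c w) •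
        (fun z => Real.log ‖z - u‖)) c R = circleAverage ((Complex.re ∘ herglotzRieszKernel c w) •
        (fun z => Real.log ‖((R : ℂ) ^ 2 - conj (u - c) * (z - c)) / R‖)) c R := by
      apply circleAverage_congr_sphere
      intro z hz
      rw [abs_of_pos hR] at hz
      simp only [Pi.smul_apply', norm_div, Complex.norm_real, Real.norm_eq_abs, abs_of_pos hR]
      rw [key z hz]
    rw [h5, h4, norm_div, Complex.norm_real, Real.norm_eq_abs, abs_of_pos hR]

lemma kernel_contOn {c w : ℂ} {R : ℝ} (hw : w ∈ ball c R) :
    ContinuousOn (Complex.re ∘ herglotzRieszKernel c w) (sphere c |R|) :=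
  Complex.continuous_re.comp_continuousOn (continuousOn_herglotzRieszKernel_sphere hw)

/-- Poisson-Jensen formula. -/
theorem poisson_jensen {c w : ℂ} {R : ℝ} {F : ℂ → ℂ} (hR : 0 < R)
    (hF : AnalyticOnNhd ℂ F (closedBall c R)) (hw : w ∈ ball c R) (hFw : F w ≠ 0) :
    circleAverage ((Complex.re ∘ herglotzRieszKernel c w) • (fun z => Real.log ‖F z‖)) c R
      = Real.log ‖F w‖ + ∑ᶠ u, (divisor F (closedBall c R) u : ℝ) *
          Real.log (‖(R : ℂ) ^ 2 - conj (u - c) * (w - c)‖ / (R * ‖w - u‖)) := by
  set CB := closedBall c R with hCB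
  have hwCB : w ∈ CB := ball_subset_closedBall hw
  have hmer : MeromorphicOn F CB := hF.meromorphicOn
  have h₂f : ∀ u : CB, meromorphicOrderAt F u ≠ ⊤ := by
    rw [← hmer.exists_meromorphicOrderAt_ne_top_iff_forall
      ⟨⟨w, hwCB⟩, (convex_closedBall c R).isPreconnected⟩]
    refine ⟨⟨w, hwCB⟩, ?_⟩
    rw [(hF w hwCB).meromorphicOrderAt_eq, (hF w hwCB).analyticOrderAt_eq_zero.mpr hFw]
    simp
  have h₃f := (divisor F CB).finiteSupport (isCompact_closedBall c R)
  obtain ⟨g, h₁g, h₂g, h₃g⟩ := hmer.extract_zeros_poles h₂f h₃f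
  have hRabs : |R| = R := abs_of_pos hR
  have hsupp : ∀ u ∈ h₃f.toFinset, u ∈ CB := by
    intro u hu
    exact (divisor F CB).supportWithinDomain (by simpa using hu)
  have hK := kernel_contOn hw
  -- integrability
  have hint : ∀ u : ℂ, CircleIntegrable (fun z => Real.log ‖z - u‖) c R := fun u =>
    (analyticOnNhd_id.sub analyticOnNhd_const).meromorphicOn.circleIntegrable_log_norm
  have hintg : CircleIntegrable (fun z => Real.log ‖g z‖) c R := by
    apply MeromorphicOn.circleIntegrable_log_norm
    rw [hRabs]
    exact (h₁g.mono sphere_subset_closedBall).meromorphicOn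
  have hsum : (∑ᶠ u, (fun z => (divisor F CB u : ℝ) * Real.log ‖z - u‖))
      = ∑ u ∈ h₃f.toFinset, (fun z => (divisor F CB u : ℝ) * Real.log ‖z - u‖) := by
    rw [finsum_eq_sum_of_support_subset]
    intro u
    contrapose
    intro hu
    simp only [Finite.coe_toFinset, Function.mem_support, ne_eq, not_not] at hu
    simp only [Function.mem_support, ne_eq, not_not, hu]
    ext z; simp
  have e1 : circleAverage ((Complex.re ∘ herglotzRieszKernel c w) • (fun z => Real.log ‖F z‖)) c R
      = circleAverage (∑ u ∈ h₃f.toFinset, ((divisor F CB u : ℝ) •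
          ((Complex.re ∘ herglotzRieszKernel c w) • (fun z => Real.log ‖z - u‖)))
          + ((Complex.re ∘ herglotzRieszKernel c w) • (fun z => Real.log ‖g z‖))) c R := by
    apply circleAverage_congr_codiscreteWithin _ hR.ne'
    have h₄g := extract_zeros_poles_log h₂g h₃g
    rw [hRabs]
    have h5 := Filter.codiscreteWithin_mono (U₁ := sphere c R) (U := CB)
      sphere_subset_closedBall h₄g
    filter_upwards [h5] with z hz
    have h6 : (∑ᶠ u, (fun z => (divisor F CB u : ℝ) * Real.log ‖z - u‖)) z
        = ∑ u ∈ h₃f.toFinset, (divisor F CB u : ℝ) * Real.log ‖z - u‖ := by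
      rw [hsum]; simp
    simp only [Pi.smul_apply', Pi.add_apply, Finset.sum_apply, Pi.smul_apply, smul_eq_mul] at hz ⊢
    rw [hz, h6, mul_add, Finset.mul_sum]
    congr 1
    apply Finset.sum_congr rfl
    intro u _
    exact mul_left_comm _ _ _
  rw [e1, circleAverage_add, circleAverage_sum]
  · have e2 : ∀ u ∈ h₃f.toFinset, circleAverage ((divisor F CB u : ℝ) •
          ((Complex.re ∘ herglotzRieszKernel c w) • (fun z => Real.log ‖z - u‖))) c R
        = (divisor F CB u : ℝ) * Real.log (‖(R : ℂ) ^ 2 - conj (u - c) * (w - c)‖ / R) := by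
      intro u hu
      rw [circleAverage_smul, poisson_log_sub hR hw (hsupp u hu), smul_eq_mul]
    rw [Finset.sum_congr rfl e2]
    have hgharm : InnerProductSpace.HarmonicOnNhd (fun z => Real.log ‖g z‖) (closedBall c R) :=
      fun x hx => (h₁g x hx).harmonicAt_log_norm (h₂g ⟨x, hx⟩)
    rw [InnerProductSpace.HarmonicOnNhd.circleAverage_re_herglotzRieszKernel_smul hgharm hw]
    have hacc : AccPt w (𝓟 CB) := by
      apply accPt_iff_frequently_nhdsNE.mpr
      apply compl_notMem
      apply mem_nhdsWithin.mpr
      refine ⟨ball c R, isOpen_ball, hw, ?_⟩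
      rintro z ⟨hz, -⟩
      have h7 : z ∈ CB := ball_subset_closedBall hz
      simpa using h7
    have e3 := MeromorphicOn.log_norm_meromorphicTrailingCoeffAt_extract_zeros_poles h₃f hwCB hacc
      (hF w hwCB).meromorphicAt (h₁g w hwCB) (h₂g ⟨w, hwCB⟩) h₃g
    rw [(hF w hwCB).meromorphicTrailingCoeffAt_of_ne_zero hFw] at e3
    rw [finsum_eq_sum_of_support_subset (s := h₃f.toFinset)] at e3
    · rw [finsum_eq_sum_of_support_subset (s := h₃f.toFinset)]
      · have e4 : Real.log ‖g w‖ = Real.log ‖F w‖ -
            ∑ i ∈ h₃f.toFinset, (divisor F CB i : ℝ) * Real.log ‖w - i‖ := by linarith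
        rw [e4]
        have e5 : ∑ i ∈ h₃f.toFinset, (divisor F CB i : ℝ) *
            Real.log (‖(R : ℂ) ^ 2 - conj (i - c) * (w - c)‖ / (R * ‖w - i‖))
            = ∑ i ∈ h₃f.toFinset, ((divisor F CB i : ℝ) *
            Real.log (‖(R : ℂ) ^ 2 - conj (i - c) * (w - c)‖ / R) -
              (divisor F CB i : ℝ) * Real.log ‖w - i‖) := by
          apply Finset.sum_congr rfl
          intro i hi
          by_cases hwi : w = i
          · -- then divisor is zero
            have h0 : divisor F CB i = 0 := by
              rw [hmer.divisor_apply (hsupp i hi), ← hwi, (hF w hwCB).meromorphicOrderAt_eq,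
                (hF w hwCB).analyticOrderAt_eq_zero.mpr hFw]
              simp
            simp [h0]
          · have hwi' : ‖w - i‖ ≠ 0 := by simpa [sub_eq_zero] using hwi
            have hne : ‖(R : ℂ) ^ 2 - conj (i - c) * (w - c)‖ / R ≠ 0 := by
              apply div_ne_zero _ hR.ne'
              rw [norm_ne_zero_iff]
              intro h0
              have h1 : ‖(R : ℂ) ^ 2‖ = ‖conj (i - c) * (w - c)‖ := by rw [sub_eq_zero.1 h0]
              rw [norm_pow, norm_mul, Complex.norm_conj, Complex.norm_real, Real.norm_eq_abs,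
                abs_of_pos hR] at h1
              have h2 : ‖i - c‖ ≤ R := by
                have := hsupp i hi
                rw [hCB, mem_closedBall, dist_eq_norm] at this
                exact this
              have h3 : ‖w - c‖ < R := by simpa [dist_eq_norm] using hw
              nlinarith [norm_nonneg (i - c), norm_nonneg (w - c)]
            rw [← div_div, Real.log_div hne hwi']
            ring
        rw [e5, Finset.sum_sub_distrib]
        ring
      · intro u hu
        simp only [Function.mem_support, ne_eq, mul_eq_zero, not_or, Int.cast_eq_zero] at hu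
        simpa using hu.1
    · intro u hu
      simp only [Function.mem_support, ne_eq, mul_eq_zero, not_or, Int.cast_eq_zero] at hu
      simpa using hu.1
  · intro u _
    apply CircleIntegrable.const_smul
    exact (hint u).continuousOn_smul hK
  · apply CircleIntegrable.sum
    intro u _
    apply CircleIntegrable.const_smul
    exact (hint u).continuousOn_smul hK
  · exact hintg.continuousOn_smul hK

end MinMod
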