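import Mathlib
import Pool.Agent.Work.MP_06ac62_an.PJ

open Filter MeromorphicAt MeasureTheory MeromorphicOn Metric Real Set Topology
open scoped ComplexConjugate

namespace MinMod

/-- The basic identity for the Green function of a disc. -/
lemma green_identity (a b : ℂ) (ρ : ℝ) :
    ‖(ρ : ℂ) ^ 2 - conj a * b‖ ^ 2 - (ρ * ‖b - a‖) ^ 2 = (ρ ^ 2 - ‖a‖ ^ 2) * (ρ ^ 2 - ‖b‖ ^ 2) := by
  rw [mul_pow, ← Complex.normSq_eq_norm_sq, ← Complex.normSq_eq_norm_sq,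
    ← Complex.normSq_eq_norm_sq, ← Complex.normSq_eq_norm_sq]
  have h : ((ρ : ℂ) ^ 2) = ((ρ ^ 2 : ℝ) : ℂ) := by push_cast; ring
  rw [h]
  simp only [Complex.normSq_apply, Complex.sub_re, Complex.sub_im, Complex.mul_re, Complex.mul_im,
    Complex.conj_re, Complex.conj_im, Complex.ofReal_re, Complex.ofReal_im]
  ring

lemma green_lower {a b : ℂ} {ρ : ℝ} (hρ : 0 < ρ) (ha : ‖a‖ ≤ ρ) (hb : ‖b‖ < ρ) (hab : a ≠ b) :
    (ρ ^ 2 - ‖a‖ ^ 2) * (ρ ^ 2 - ‖b‖ ^ 2) / (2 * (ρ ^ 2 + ‖a‖ * ‖b‖) ^ 2) ≤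
      Real.log (‖(ρ : ℂ) ^ 2 - conj a * b‖ / (ρ * ‖b - a‖)) := by
  have hid := green_identity a b ρ
  set X := ‖(ρ : ℂ) ^ 2 - conj a * b‖ with hX
  set Y := ρ * ‖b - a‖ with hY
  have hYpos : 0 < Y := mul_pos hρ (norm_pos_iff.2 (sub_ne_zero.2 (Ne.symm hab)))
  have hXle : X ≤ ρ ^ 2 + ‖a‖ * ‖b‖ := by
    rw [hX]
    refine (norm_sub_le _ _).trans ?_
    rw [norm_pow, norm_mul, Complex.norm_conj, Complex.norm_real, Real.norm_eq_abs, abs_of_pos hρ]
  set P := (ρ ^ 2 - ‖a‖ ^ 2) * (ρ ^ 2 - ‖b‖ ^ 2) with hP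
  have hP0 : 0 ≤ P := by
    apply mul_nonneg
    · nlinarith [norm_nonneg a]
    · nlinarith [norm_nonneg b]
  have hX2 : X ^ 2 = Y ^ 2 + P := by linarith
  have hXpos : 0 < X := by
    have : 0 < X ^ 2 := by rw [hX2]; positivity
    have h0 : 0 ≤ X := norm_nonneg _
    rcases h0.eq_or_lt with h | h
    · rw [← h] at this; simp at this
    · exact h
  have h1 : Real.log (X / Y) = - (1 / 2) * Real.log (Y ^ 2 / X ^ 2) := by
    rw [Real.log_div hXpos.ne' hYpos.ne', Real.log_div (by positivity) (by positivity),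
      Real.log_pow, Real.log_pow]
    push_cast; ring
  have h2 : Real.log (Y ^ 2 / X ^ 2) ≤ Y ^ 2 / X ^ 2 - 1 := Real.log_le_sub_one_of_pos (by positivity)
  have h3 : Y ^ 2 / X ^ 2 - 1 = - (P / X ^ 2) := by
    have : Y ^ 2 = X ^ 2 - P := by linarith
    rw [this]; field_simp; ring
  have h4 : P / (2 * (ρ ^ 2 + ‖a‖ * ‖b‖) ^ 2) ≤ P / (2 * X ^ 2) := by
    apply div_le_div_of_nonneg_left hP0 (by positivity)
    gcongr
  rw [h1]
  have h5 : P / (2 * X ^ 2) = (1 / 2) * (P / X ^ 2) := by field_simp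
  nlinarith

/-- The core estimate on a disc centred at `1`, whose boundary passes close to `0`. -/
theorem core {F : ℂ → ℂ} {ρ B δ κ q s : ℝ} {τ : ℂ} (hρ0 : 0 < ρ) (hρ : ρ ^ 2 = 1 - ‖τ‖ ^ 2)
    (hτ : ‖τ - 1‖ < ρ) (hF : AnalyticOnNhd ℂ F (closedBall 1 ρ)) (hB : 0 ≤ B) (hδ : 0 ≤ δ)
    (hbd : ∀ ζ ∈ sphere (1 : ℂ) ρ, Real.log ‖F ζ‖ ≤ B * (‖ζ‖ ^ 2 + δ)) (hFτ : F τ ≠ 0)
    (hκ : - κ ≤ Real.log ‖F τ‖) (hF1 : F 1 ≠ 0)
    (hS : B * (2 * τ.re + δ) + κ ≤ q * ((ρ ^ 2 - ‖τ - 1‖ ^ 2) / ρ ^ 2) * B)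
    (hs0 : 0 < s) (hs1 : s < 1) :
    ∃ T : Finset ℂ, (∀ u ∈ T, ‖u - 1‖ ≤ s * ρ ∧ u ≠ 1 ∧ 0 ≤ divisor F (closedBall 1 ρ) u) ∧
      (∑ u ∈ T, (divisor F (closedBall 1 ρ) u : ℝ)) ≤ 2 * q * ((1 + s) / (1 - s)) * B ∧
      - (4 * q + 4 * q / s ^ 2) * B -
        ∑ u ∈ T, (divisor F (closedBall 1 ρ) u : ℝ) * Real.log (ρ / ‖u - 1‖) ≤
        Real.log ‖F 1‖ := by
  classical
  have hw : τ ∈ ball (1 : ℂ) ρ := by rw [mem_ball, dist_eq_norm]; exact hτ
  have h1w : (1 : ℂ) ∈ ball (1 : ℂ) ρ := mem_ball_self hρ0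
  have hPJ := poisson_jensen hρ0 hF hw hFτ
  have hJ := poisson_jensen hρ0 hF h1w hF1
  set D := divisor F (closedBall 1 ρ) with hD
  have h₃f := D.finiteSupport (isCompact_closedBall (1 : ℂ) ρ)
  have hsupp : ∀ u ∈ h₃f.toFinset, u ∈ closedBall (1 : ℂ) ρ := by
    intro u hu
    exact D.supportWithinDomain (by simpa using hu)
  have hDnn : ∀ u, 0 ≤ D u := by
    intro u
    exact hF.divisor_nonneg u
  have hDτ : D τ = 0 := by
    rw [hD, hF.meromorphicOn.divisor_apply (ball_subset_closedBall hw),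
      (hF τ (ball_subset_closedBall hw)).meromorphicOrderAt_eq,
      (hF τ (ball_subset_closedBall hw)).analyticOrderAt_eq_zero.mpr hFτ]
    simp
  have hD1 : D 1 = 0 := by
    rw [hD, hF.meromorphicOn.divisor_apply (ball_subset_closedBall h1w),
      (hF 1 (ball_subset_closedBall h1w)).meromorphicOrderAt_eq,
      (hF 1 (ball_subset_closedBall h1w)).analyticOrderAt_eq_zero.mpr hF1]
    simp
  have hnτ : ∀ u ∈ h₃f.toFinset, u ≠ τ := by
    intro u hu h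
    subst h
    simp only [Finite.mem_toFinset, Function.mem_support, ne_eq] at hu
    exact hu hDτ
  have hn1 : ∀ u ∈ h₃f.toFinset, u ≠ 1 := by
    intro u hu h
    subst h
    simp only [Finite.mem_toFinset, Function.mem_support, ne_eq] at hu
    exact hu hD1
  rw [finsum_eq_sum_of_support_subset (s := h₃f.toFinset)] at hPJ hJ
  rotate_left
  · intro u hu
    simp only [Function.mem_support, ne_eq, mul_eq_zero, not_or, Int.cast_eq_zero] at hu
    simpa using hu.1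
  · intro u hu
    simp only [Function.mem_support, ne_eq, mul_eq_zero, not_or, Int.cast_eq_zero] at hu
    simpa using hu.1
  have hRabs : |ρ| = ρ := abs_of_pos hρ0
  set K : ℂ → ℝ := Complex.re ∘ herglotzRieszKernel 1 τ with hK
  have hKc := kernel_contOn hw
  have hintF : CircleIntegrable (fun z => Real.log ‖F z‖) 1 ρ := by
    apply MeromorphicOn.circleIntegrable_log_norm
    rw [hRabs]
    exact (hF.mono sphere_subset_closedBall).meromorphicOn
  have hintN : CircleIntegrable (fun z : ℂ => B * (‖z‖ ^ 2 + δ)) 1 ρ := by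
    apply ContinuousOn.circleIntegrable hρ0.le
    fun_prop
  set Q : ℂ → ℝ := fun z => B * (‖z‖ ^ 2 + δ) - Real.log ‖F z‖ with hQ
  have hQint : CircleIntegrable Q 1 ρ := hintN.sub hintF
  have hQnn : ∀ z ∈ sphere (1 : ℂ) |ρ|, 0 ≤ Q z := by
    intro z hz
    rw [hRabs] at hz
    simp only [hQ, sub_nonneg]
    exact hbd z hz
  -- the Poisson integral of the majorant
  have hPN : circleAverage (K • (fun z : ℂ => B * (‖z‖ ^ 2 + δ))) 1 ρ
      = B * (2 * τ.re - ‖τ‖ ^ 2 + δ) := by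
    have hc : (((‖τ‖ : ℝ) : ℂ) ^ 2).re = ‖τ‖ ^ 2 := by
      rw [← Complex.ofReal_pow, Complex.ofReal_re]
    have hharm : InnerProductSpace.HarmonicOnNhd
        (fun z : ℂ => ((B : ℂ) * (2 * z - (‖τ‖ ^ 2 : ℝ) + δ)).re) (closedBall 1 ρ) := by
      intro z hz
      apply AnalyticAt.harmonicAt_re
      fun_prop
    have h4 := InnerProductSpace.HarmonicOnNhd.circleAverage_re_herglotzRieszKernel_smul hharm hw
    have h5 : circleAverage (K • (fun z : ℂ => B * (‖z‖ ^ 2 + δ))) 1 ρ = circleAverage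
        (K • (fun z : ℂ => ((B : ℂ) * (2 * z - (‖τ‖ ^ 2 : ℝ) + δ)).re)) 1 ρ := by
      apply circleAverage_congr_sphere
      intro z hz
      rw [hRabs, mem_sphere, dist_eq_norm] at hz
      simp only [Pi.smul_apply']
      congr 1
      have h6 : ‖z‖ ^ 2 = 2 * z.re - ‖τ‖ ^ 2 := by
        have h7 : ‖z - 1‖ ^ 2 = ρ ^ 2 := by rw [hz]
        rw [hρ] at h7
        rw [← Complex.normSq_eq_norm_sq, Complex.normSq_apply] at h7 ⊢
        simp only [Complex.sub_re, Complex.one_re, Complex.sub_im, Complex.one_im] at h7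
        nlinarith
      rw [h6]
      simp [hc]
    rw [h5, h4]
    simp [hc]
  -- Poisson integral of Q
  have hPQ : circleAverage (K • Q) 1 ρ = B * (2 * τ.re - ‖τ‖ ^ 2 + δ) -
      circleAverage (K • (fun z => Real.log ‖F z‖)) 1 ρ := by
    have : K • Q = K • (fun z : ℂ => B * (‖z‖ ^ 2 + δ)) - K • (fun z => Real.log ‖F z‖) := by
      rw [← smul_sub]; rfl
    rw [this, circleAverage_sub (hintN.continuousOn_smul hKc) (hintF.continuousOn_smul hKc), hPN]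
  set η := (ρ ^ 2 - ‖τ - 1‖ ^ 2) / ρ ^ 2 with hη
  have hηpos : 0 < η := by
    apply div_pos _ (by positivity)
    nlinarith [norm_nonneg (τ - 1)]
  have hKlow : ∀ z ∈ sphere (1 : ℂ) ρ, η / 4 ≤ K z := by
    intro z hz
    have h1 := le_re_herglotzRieszKernel hz hw
    have h2 : K z = ((z - 1 + (τ - 1)) / ((z - 1) - (τ - 1))).re := by
      simp [hK, herglotzRieszKernel_def]
    rw [h2]
    refine le_trans ?_ h1
    rw [hη]
    have hb := norm_nonneg (τ - 1)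
    rw [div_div, div_le_div_iff₀ (by positivity) (by linarith)]
    have : (ρ ^ 2 - ‖τ - 1‖ ^ 2) * (ρ + ‖τ - 1‖) = (ρ - ‖τ - 1‖) * (ρ + ‖τ - 1‖) ^ 2 := by ring
    rw [this]
    apply mul_le_mul_of_nonneg_left _ (by linarith)
    nlinarith
  have hlow : η / 4 * circleAverage Q 1 ρ ≤ circleAverage (K • Q) 1 ρ := by
    rw [← smul_eq_mul, ← circleAverage_smul]
    apply circleAverage_mono (hQint.const_smul) (hQint.continuousOn_smul hKc)
    intro z hz
    simp only [Pi.smul_apply, Pi.smul_apply', smul_eq_mul]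
    apply mul_le_mul_of_nonneg_right _ (hQnn z hz)
    rw [hRabs] at hz
    exact hKlow z hz
  have hQavg0 : 0 ≤ circleAverage Q 1 ρ := circleAverage_nonneg_of_nonneg hQnn
  -- Green function terms
  set G : ℂ → ℝ := fun u => Real.log (‖(ρ : ℂ) ^ 2 - conj (u - 1) * (τ - 1)‖ / (ρ * ‖τ - u‖)) with hG
  have hGlow : ∀ u ∈ h₃f.toFinset,
      (ρ ^ 2 - ‖u - 1‖ ^ 2) * (ρ ^ 2 - ‖τ - 1‖ ^ 2) /
        (2 * (ρ ^ 2 + ‖u - 1‖ * ‖τ - 1‖) ^ 2) ≤ G u := by
    intro u hu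
    have h1 : ‖u - 1‖ ≤ ρ := by
      have := hsupp u hu
      rwa [mem_closedBall, dist_eq_norm] at this
    have h2 := green_lower (a := u - 1) (b := τ - 1) hρ0 h1 hτ
      (fun h => hnτ u hu (sub_left_injective h))
    have h3 : τ - 1 - (u - 1) = τ - u := by ring
    rw [h3] at h2
    exact h2
  have hGlow1 : ∀ u ∈ h₃f.toFinset, (ρ ^ 2 - ‖u - 1‖ ^ 2) / (8 * ρ ^ 2) * η ≤ G u := by
    intro u hu
    refine le_trans ?_ (hGlow u hu)
    have h1 : ‖u - 1‖ ≤ ρ := by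
      have := hsupp u hu
      rwa [mem_closedBall, dist_eq_norm] at this
    have h0 : 0 ≤ ρ ^ 2 - ‖u - 1‖ ^ 2 := by nlinarith [norm_nonneg (u - 1)]
    have h2 : 0 ≤ ρ ^ 2 - ‖τ - 1‖ ^ 2 := by nlinarith [norm_nonneg (τ - 1)]
    have h3 : (ρ ^ 2 - ‖u - 1‖ ^ 2) / (8 * ρ ^ 2) * η =
      (ρ ^ 2 - ‖u - 1‖ ^ 2) * (ρ ^ 2 - ‖τ - 1‖ ^ 2) / (8 * ρ ^ 4) := by
      rw [hη]; field_simp
    rw [h3]
    apply div_le_div_of_nonneg_left (mul_nonneg h0 h2) (by positivity)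
    have h4 : ‖u - 1‖ * ‖τ - 1‖ ≤ ρ * ρ := by
      apply mul_le_mul h1 hτ.le (norm_nonneg _) hρ0.le
    have h5 : (ρ ^ 2 + ‖u - 1‖ * ‖τ - 1‖) ^ 2 ≤ (2 * ρ ^ 2) ^ 2 := by
      apply pow_le_pow_left₀ (by positivity)
      nlinarith
    nlinarith
  have hGlow2 : ∀ u ∈ h₃f.toFinset, ‖u - 1‖ ≤ s * ρ → (1 - s) / (2 * (1 + s)) * η ≤ G u := by
    intro u hu hus
    refine le_trans ?_ (hGlow u hu)
    have h0 : (1 - s ^ 2) * ρ ^ 2 ≤ ρ ^ 2 - ‖u - 1‖ ^ 2 := by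
      have : ‖u - 1‖ ^ 2 ≤ (s * ρ) ^ 2 := pow_le_pow_left₀ (norm_nonneg _) hus 2
      nlinarith
    have h2 : 0 ≤ ρ ^ 2 - ‖τ - 1‖ ^ 2 := by nlinarith [norm_nonneg (τ - 1)]
    have h5 : (ρ ^ 2 + ‖u - 1‖ * ‖τ - 1‖) ^ 2 ≤ ((1 + s) * ρ ^ 2) ^ 2 := by
      apply pow_le_pow_left₀ (by positivity)
      have : ‖u - 1‖ * ‖τ - 1‖ ≤ (s * ρ) * ρ :=
        mul_le_mul hus hτ.le (norm_nonneg _) (by positivity)
      nlinarith
    have h6 : (1 - s) / (2 * (1 + s)) * η =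
      ((1 - s ^ 2) * ρ ^ 2) * (ρ ^ 2 - ‖τ - 1‖ ^ 2) / (2 * ((1 + s) * ρ ^ 2) ^ 2) := by
      rw [hη]
      have : 1 + s ≠ 0 := by positivity
      field_simp
      ring
    rw [h6]
    have hs2 : 0 ≤ 1 - s ^ 2 := by nlinarith
    apply div_le_div₀
    · apply mul_nonneg _ h2
      exact le_trans (by positivity) h0
    · exact mul_le_mul_of_nonneg_right h0 h2
    · positivity
    · linarith
  have hDG0 : ∀ u ∈ h₃f.toFinset, 0 ≤ (D u : ℝ) * G u := by
    intro u hu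
    apply mul_nonneg
    · exact_mod_cast hDnn u
    · refine le_trans ?_ (hGlow1 u hu)
      have h1 : ‖u - 1‖ ≤ ρ := by
        have := hsupp u hu
        rwa [mem_closedBall, dist_eq_norm] at this
      have h0 : 0 ≤ ρ ^ 2 - ‖u - 1‖ ^ 2 := by nlinarith [norm_nonneg (u - 1)]
      positivity
  have hmain : circleAverage (K • Q) 1 ρ + ∑ u ∈ h₃f.toFinset, (D u : ℝ) * G u ≤ q * η * B := by
    rw [hPQ, hPJ]
    have : B * ‖τ‖ ^ 2 ≥ 0 := by positivity
    have e : B * (2 * τ.re - ‖τ‖ ^ 2 + δ) = B * (2 * τ.re + δ) - B * ‖τ‖ ^ 2 := by ring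
    rw [e]
    simp only [hG]
    linarith
  have hSum0 : 0 ≤ ∑ u ∈ h₃f.toFinset, (D u : ℝ) * G u := Finset.sum_nonneg hDG0
  have hSum : ∑ u ∈ h₃f.toFinset, (D u : ℝ) * G u ≤ q * η * B := by
    have : 0 ≤ η / 4 * circleAverage Q 1 ρ := by positivity
    linarith
  have hQavg : circleAverage Q 1 ρ ≤ 4 * q * B := by
    have h1 : η / 4 * circleAverage Q 1 ρ ≤ q * η * B := by linarith
    have h2 : η * (circleAverage Q 1 ρ) ≤ η * (4 * q * B) := by linarith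
    exact le_of_mul_le_mul_left h2 hηpos
  have hFavg : - (4 * q * B) ≤ circleAverage (fun z => Real.log ‖F z‖) 1 ρ := by
    have e : (fun z => Real.log ‖F z‖) = (fun z : ℂ => B * (‖z‖ ^ 2 + δ)) - Q := by
      ext z; simp [hQ]
    rw [e, circleAverage_sub hintN hQint]
    have : 0 ≤ circleAverage (fun z : ℂ => B * (‖z‖ ^ 2 + δ)) 1 ρ := by
      apply circleAverage_nonneg_of_nonneg
      intro z _
      positivity
    linarith
  -- the sums
  set T := h₃f.toFinset.filter (fun u => ‖u - 1‖ ≤ s * ρ) with hT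
  set T' := h₃f.toFinset.filter (fun u => ¬ ‖u - 1‖ ≤ s * ρ) with hT'
  refine ⟨T, ?_, ?_, ?_⟩
  · intro u hu
    rw [hT, Finset.mem_filter] at hu
    exact ⟨hu.2, hn1 u hu.1, hDnn u⟩
  · have h1 : ∑ u ∈ T, (D u : ℝ) * ((1 - s) / (2 * (1 + s)) * η) ≤ q * η * B := by
      refine le_trans ?_ hSum
      refine le_trans (Finset.sum_le_sum (g := fun u => (D u : ℝ) * G u) ?_) ?_
      · intro u hu
        rw [hT, Finset.mem_filter] at hu
        apply mul_le_mul_of_nonneg_left (hGlow2 u hu.1 hu.2)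
        exact_mod_cast hDnn u
      · apply Finset.sum_le_sum_of_subset_of_nonneg (Finset.filter_subset _ _)
        intro u hu _
        exact hDG0 u hu
    rw [← Finset.sum_mul] at h1
    have h1s : 0 < 1 - s := by linarith
    have h2 : (∑ u ∈ T, (D u : ℝ)) * ((1 - s) / (2 * (1 + s))) ≤ q * B := by
      have : η * ((∑ u ∈ T, (D u : ℝ)) * ((1 - s) / (2 * (1 + s)))) ≤ η * (q * B) := by
        nlinarith
      exact le_of_mul_le_mul_left this hηpos
    have h3 : (∑ u ∈ T, (D u : ℝ)) =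
      ((∑ u ∈ T, (D u : ℝ)) * ((1 - s) / (2 * (1 + s)))) * (2 * (1 + s) / (1 - s)) := by
      field_simp
    rw [h3]
    have h4 : 2 * q * ((1 + s) / (1 - s)) * B = q * B * (2 * (1 + s) / (1 - s)) := by ring
    rw [h4]
    apply mul_le_mul_of_nonneg_right h2
    positivity
  · -- value at the centre
    have hK1 : circleAverage ((Complex.re ∘ herglotzRieszKernel 1 1) •
        (fun z => Real.log ‖F z‖)) 1 ρ = circleAverage (fun z => Real.log ‖F z‖) 1 ρ := by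
      apply circleAverage_congr_sphere
      intro z hz
      rw [hRabs, mem_sphere, dist_eq_norm] at hz
      have hz1 : z - 1 ≠ 0 := by
        intro h; rw [h, norm_zero] at hz; linarith
      simp [herglotzRieszKernel_def, div_self hz1]
    rw [hK1] at hJ
    have hJ' : ∑ u ∈ h₃f.toFinset, (D u : ℝ) *
        Real.log (‖(ρ : ℂ) ^ 2 - conj (u - 1) * (1 - 1)‖ / (ρ * ‖1 - u‖))
        = ∑ u ∈ h₃f.toFinset, (D u : ℝ) * Real.log (ρ / ‖u - 1‖) := by
      apply Finset.sum_congr rfl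
      intro u hu
      congr 2
      rw [norm_sub_rev 1 u]
      have : ‖u - 1‖ ≠ 0 := by
        rw [norm_ne_zero_iff, sub_ne_zero]; exact hn1 u hu
      simp only [sub_self, mul_zero, sub_zero, norm_pow, Complex.norm_real, Real.norm_eq_abs,
        abs_of_pos hρ0]
      field_simp
    rw [hJ'] at hJ
    have hsplit : ∑ u ∈ h₃f.toFinset, (D u : ℝ) * Real.log (ρ / ‖u - 1‖)
        = ∑ u ∈ T, (D u : ℝ) * Real.log (ρ / ‖u - 1‖)
          + ∑ u ∈ T', (D u : ℝ) * Real.log (ρ / ‖u - 1‖) :=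
      (Finset.sum_filter_add_sum_filter_not _ _ _).symm
    have hfar : ∑ u ∈ T', (D u : ℝ) * Real.log (ρ / ‖u - 1‖) ≤ 4 * q / s ^ 2 * B := by
      have h1 : ∀ u ∈ T', (D u : ℝ) * Real.log (ρ / ‖u - 1‖) ≤
          (4 / (s ^ 2 * η)) * ((D u : ℝ) * G u) := by
        intro u hu
        rw [hT', Finset.mem_filter, not_le] at hu
        have hD0 : (0 : ℝ) ≤ D u := by exact_mod_cast hDnn u
        have hupos : 0 < ‖u - 1‖ := lt_trans (by positivity) hu.2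
        have h2 : Real.log (ρ / ‖u - 1‖) ≤ (ρ ^ 2 - ‖u - 1‖ ^ 2) / (2 * s ^ 2 * ρ ^ 2) := by
          have e : Real.log (ρ / ‖u - 1‖) = (1 / 2) * Real.log (ρ ^ 2 / ‖u - 1‖ ^ 2) := by
            rw [← div_pow, Real.log_pow]; push_cast; ring
          have e2 : Real.log (ρ ^ 2 / ‖u - 1‖ ^ 2) ≤ ρ ^ 2 / ‖u - 1‖ ^ 2 - 1 :=
            Real.log_le_sub_one_of_pos (by positivity)
          have e3 : ρ ^ 2 / ‖u - 1‖ ^ 2 - 1 = (ρ ^ 2 - ‖u - 1‖ ^ 2) / ‖u - 1‖ ^ 2 := by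
            field_simp
          have h1' : ‖u - 1‖ ≤ ρ := by
            have := hsupp u hu.1
            rwa [mem_closedBall, dist_eq_norm] at this
          have h0 : 0 ≤ ρ ^ 2 - ‖u - 1‖ ^ 2 := by nlinarith
          have e4 : (ρ ^ 2 - ‖u - 1‖ ^ 2) / ‖u - 1‖ ^ 2 ≤
              (ρ ^ 2 - ‖u - 1‖ ^ 2) / (s ^ 2 * ρ ^ 2) := by
            apply div_le_div_of_nonneg_left h0 (by positivity)
            rw [← mul_pow]
            exact pow_le_pow_left₀ (by positivity) hu.2.le 2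
          have e5 : (ρ ^ 2 - ‖u - 1‖ ^ 2) / (2 * s ^ 2 * ρ ^ 2)
            = (1 / 2) * ((ρ ^ 2 - ‖u - 1‖ ^ 2) / (s ^ 2 * ρ ^ 2)) := by field_simp
          rw [e5, e]
          linarith
        have h3 := hGlow1 u hu.1
        have h4 : (ρ ^ 2 - ‖u - 1‖ ^ 2) / (2 * s ^ 2 * ρ ^ 2) =
            4 / (s ^ 2 * η) * ((ρ ^ 2 - ‖u - 1‖ ^ 2) / (8 * ρ ^ 2) * η) := by
          field_simp
          ring
        calc (D u : ℝ) * Real.log (ρ / ‖u - 1‖)
            ≤ (D u : ℝ) * (4 / (s ^ 2 * η) * ((ρ ^ 2 - ‖u - 1‖ ^ 2) / (8 * ρ ^ 2) * η)) := by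
              apply mul_le_mul_of_nonneg_left _ hD0
              rw [← h4]; exact h2
          _ ≤ (D u : ℝ) * (4 / (s ^ 2 * η) * G u) := by
              apply mul_le_mul_of_nonneg_left _ hD0
              apply mul_le_mul_of_nonneg_left h3
              positivity
          _ = _ := by ring
      calc ∑ u ∈ T', (D u : ℝ) * Real.log (ρ / ‖u - 1‖)
          ≤ ∑ u ∈ T', (4 / (s ^ 2 * η)) * ((D u : ℝ) * G u) := Finset.sum_le_sum h1
        _ = (4 / (s ^ 2 * η)) * ∑ u ∈ T', ((D u : ℝ) * G u) := by rw [Finset.mul_sum]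
        _ ≤ (4 / (s ^ 2 * η)) * (q * η * B) := by
            apply mul_le_mul_of_nonneg_left _ (by positivity)
            refine le_trans ?_ hSum
            apply Finset.sum_le_sum_of_subset_of_nonneg (Finset.filter_subset _ _)
            intro u hu _
            exact hDG0 u hu
        _ = 4 * q / s ^ 2 * B := by field_simp
    linarith

end MinMod
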