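import Mathlib
import Pool.Agent.Work.MP_06ac62_an.Calc

open Filter MeasureTheory Metric Real Set Topology
open scoped ComplexConjugate

namespace MinMod

/-- cut-off density, `1` up to `κ`, `0` from `(1+κ)/2` on -/
noncomputable def thetaF (κ t : ℝ) : ℝ := max 0 (min 1 ((1 + κ - 2 * t) / (1 - κ)))

lemma thetaF_cont (κ : ℝ) : Continuous (thetaF κ) := by
  unfold thetaF; fun_prop

lemma thetaF_nonneg (κ t : ℝ) : 0 ≤ thetaF κ t := le_max_left _ _

lemma thetaF_le_one (κ t : ℝ) : thetaF κ t ≤ 1 := max_le zero_le_one (min_le_left _ _)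

lemma thetaF_one {κ t : ℝ} (hκ : κ < 1) (ht : t ≤ κ) : thetaF κ t = 1 := by
  have h : 1 ≤ (1 + κ - 2 * t) / (1 - κ) := by
    rw [le_div_iff₀ (by linarith)]; linarith
  rw [thetaF, min_eq_left h]; norm_num

lemma thetaF_zero {κ t : ℝ} (hκ : κ < 1) (ht : (1 + κ) / 2 ≤ t) : thetaF κ t = 0 := by
  have h : (1 + κ - 2 * t) / (1 - κ) ≤ 0 := by
    apply div_nonpos_of_nonpos_of_nonneg <;> linarith
  rw [thetaF, max_eq_left]
  exact (min_le_right _ _).trans h

/-- `h(ξ) = ∫_ξ^1 θ` -/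
noncomputable def hF (κ ξ : ℝ) : ℝ := ∫ t in ξ..1, thetaF κ t

lemma hF_deriv (κ ξ : ℝ) : HasDerivAt (hF κ) (-thetaF κ ξ) ξ := by
  have hc := thetaF_cont κ
  exact intervalIntegral.integral_hasDerivAt_left (hc.intervalIntegrable _ _)
    (hc.stronglyMeasurableAtFilter _ _) hc.continuousAt

lemma hF_cont (κ : ℝ) : Continuous (hF κ) := by
  rw [continuous_iff_continuousAt]
  exact fun ξ => (hF_deriv κ ξ).continuousAt

lemma hF_nonneg {κ ξ : ℝ} (hξ : ξ ≤ 1) : 0 ≤ hF κ ξ :=
  intervalIntegral.integral_nonneg hξ (fun t _ => thetaF_nonneg κ t)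

lemma hF_zero {κ ξ : ℝ} (hκ : κ < 1) (hξ : (1 + κ) / 2 ≤ ξ) : hF κ ξ = 0 := by
  rw [hF]
  have h1 : ∫ t in ξ..1, thetaF κ t = ∫ t in ξ..1, (0 : ℝ) := by
    apply intervalIntegral.integral_congr
    intro t ht
    apply thetaF_zero hκ
    rcases le_total ξ 1 with h | h
    · rw [uIcc_of_le h] at ht; linarith [ht.1]
    · rw [uIcc_of_ge h] at ht; linarith [ht.1]
  rw [h1]; simp

/-- lower bound of `h` -/
lemma hF_ge {κ ξ : ℝ} (hκ0 : 0 < κ) (hκ : κ < 1) (hξ0 : 0 ≤ ξ) : κ - ξ ≤ hF κ ξ := by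
  by_cases hξ : ξ ≤ κ
  · have hc := thetaF_cont κ
    have h1 : hF κ ξ = (∫ t in ξ..κ, thetaF κ t) + ∫ t in κ..1, thetaF κ t :=
      (intervalIntegral.integral_add_adjacent_intervals (hc.intervalIntegrable _ _)
        (hc.intervalIntegrable _ _)).symm
    have h2 : ∫ t in ξ..κ, thetaF κ t = ∫ t in ξ..κ, (1 : ℝ) := by
      apply intervalIntegral.integral_congr
      intro t ht
      rw [uIcc_of_le hξ] at ht
      exact thetaF_one hκ ht.2
    have h3 : 0 ≤ ∫ t in κ..1, thetaF κ t :=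
      intervalIntegral.integral_nonneg hκ.le (fun t _ => thetaF_nonneg κ t)
    rw [h1, h2, intervalIntegral.integral_const]
    simp only [smul_eq_mul, mul_one]
    linarith
  · push Not at hξ
    by_cases h1 : ξ ≤ 1
    · have := hF_nonneg (κ := κ) h1
      linarith
    · push Not at h1
      rw [hF_zero hκ (by linarith)]
      linarith

/-- `g(ξ) = ∫_ξ^1 h(t)/t dt` -/
noncomputable def gF (κ ξ : ℝ) : ℝ := ∫ t in ξ..1, hF κ t / t

lemma uIcc_pos {ξ t : ℝ} (hξ : 0 < ξ) (ht : t ∈ uIcc ξ 1) : 0 < t := by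
  rcases le_total ξ 1 with h | h
  · rw [uIcc_of_le h] at ht; linarith [ht.1]
  · rw [uIcc_of_ge h] at ht; linarith [ht.1]

lemma gF_integrable {κ ξ : ℝ} (hξ : 0 < ξ) :
    IntervalIntegrable (fun t => hF κ t / t) volume ξ 1 := by
  apply ContinuousOn.intervalIntegrable
  intro t ht
  have := uIcc_pos hξ ht
  exact ((hF_cont κ).continuousAt.div continuousAt_id this.ne').continuousWithinAt

lemma gF_deriv {κ ξ : ℝ} (hξ : 0 < ξ) : HasDerivAt (gF κ) (-(hF κ ξ / ξ)) ξ := by
  have hc : ∀ t, 0 < t → ContinuousAt (fun t => hF κ t / t) t := fun t ht =>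
    (hF_cont κ).continuousAt.div continuousAt_id ht.ne'
  apply intervalIntegral.integral_hasDerivAt_left (gF_integrable hξ) _ (hc ξ hξ)
  exact ContinuousOn.stronglyMeasurableAtFilter isOpen_Ioi
    (fun t ht => (hc t ht).continuousWithinAt) ξ hξ

lemma gF_nonneg {κ ξ : ℝ} (hκ : κ < 1) (hξ : 0 < ξ) : 0 ≤ gF κ ξ := by
  rcases le_total ξ 1 with h | h
  · apply intervalIntegral.integral_nonneg h
    intro t ht
    exact div_nonneg (hF_nonneg ht.2) (by linarith [ht.1])
  · have h1 : gF κ ξ = ∫ t in ξ..1, (0 : ℝ) := by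
      apply intervalIntegral.integral_congr
      intro t ht
      rw [uIcc_of_ge h] at ht
      simp only
      rw [hF_zero hκ (by linarith [ht.1]), zero_div]
    rw [h1]; simp

lemma gF_zero {κ ξ : ℝ} (hκ : κ < 1) (hξ : (1 + κ) / 2 ≤ ξ) : gF κ ξ = 0 := by
  have h1 : gF κ ξ = ∫ t in ξ..1, (0 : ℝ) := by
    apply intervalIntegral.integral_congr
    intro t ht
    simp only
    have : (1 + κ) / 2 ≤ t := by
      rcases le_total ξ 1 with h | h
      · rw [uIcc_of_le h] at ht; linarith [ht.1]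
      · rw [uIcc_of_ge h] at ht; linarith [ht.1]
    rw [hF_zero hκ this, zero_div]
  rw [h1]; simp

/-- logarithmic lower bound -/
lemma gF_ge {κ ξ : ℝ} (hκ0 : 0 < κ) (hκ : κ < 1) (hξ : 0 < ξ) (hξ1 : ξ ≤ 1) :
    -(κ * Real.log ξ) - 1 ≤ gF κ ξ := by
  have h1 : ∫ t in ξ..1, (κ / t - 1) ≤ gF κ ξ := by
    apply intervalIntegral.integral_mono_on hξ1 _ (gF_integrable hξ)
    · intro t ht
      have ht0 : 0 < t := by linarith [ht.1]
      have h2 := hF_ge hκ0 hκ ht0.le
      have h3 : κ / t - 1 = (κ - t) / t := by field_simp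
      rw [h3]
      exact div_le_div_of_nonneg_right h2 ht0.le
    · apply ContinuousOn.intervalIntegrable
      intro t ht
      have := uIcc_pos hξ ht
      exact ((continuousAt_const.div continuousAt_id this.ne').sub
        continuousAt_const).continuousWithinAt
  have h2 : ∫ t in ξ..1, (κ / t - 1) = -(κ * Real.log ξ) - (1 - ξ) := by
    rw [intervalIntegral.integral_sub]
    · simp_rw [div_eq_mul_inv]
      rw [intervalIntegral.integral_const_mul, integral_inv_of_pos hξ one_pos,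
        intervalIntegral.integral_const]
      rw [one_div, Real.log_inv]
      simp
    · apply ContinuousOn.intervalIntegrable
      intro t ht
      have := uIcc_pos hξ ht
      exact (continuousAt_const.div continuousAt_id this.ne').continuousWithinAt
    · exact intervalIntegrable_const
  rw [h2] at h1
  linarith

lemma gF_contDiffAt {κ ξ : ℝ} (hξ : 0 < ξ) : ContDiffAt ℝ 2 (gF κ) ξ := by
  have hh : ContDiff ℝ 1 (hF κ) := by
    rw [contDiff_one_iff_deriv]
    refine ⟨fun x => (hF_deriv κ x).differentiableAt, ?_⟩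
    have : deriv (hF κ) = fun x => -thetaF κ x := by
      ext x; exact (hF_deriv κ x).deriv
    rw [this]
    exact (thetaF_cont κ).neg
  have hg : ContDiffOn ℝ 2 (gF κ) (Ioi 0) := by
    have h2 : (2 : WithTop ℕ∞) = 1 + 1 := by norm_num
    rw [h2, contDiffOn_succ_iff_deriv_of_isOpen isOpen_Ioi]
    refine ⟨fun x hx => (gF_deriv hx).differentiableAt.differentiableWithinAt, by simp, ?_⟩
    have h3 : ∀ x ∈ Ioi (0 : ℝ), deriv (gF κ) x = -(hF κ x / x) := fun x hx => (gF_deriv hx).deriv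
    apply ContDiffOn.congr _ h3
    apply ContDiffOn.neg
    apply hh.contDiffOn.div contDiffOn_id
    intro x hx
    exact (ne_of_gt hx)
  exact hg.contDiffAt (isOpen_Ioi.mem_nhds hξ)

/-- slice derivative of a holomorphic function -/
lemma hslice {H : ℂ → ℂ} {H' z : ℂ} (h : HasDerivAt H H' z) (v : ℂ) :
    HasDerivAt (fun t : ℝ => H (z + t • v)) (H' * v) 0 := by
  have h1 := (h.hasFDerivAt.restrictScalars ℝ).hasLineDerivAt v
  have h2 : ((ContinuousLinearMap.toSpanSingleton ℂ H').restrictScalars ℝ) v = H' * v := by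
    simp [mul_comm]
  rw [h2] at h1
  exact h1

lemma fderiv_normsq {H : ℂ → ℂ} {H' z : ℂ} (h : HasDerivAt H H' z) (v : ℂ) :
    fderiv ℝ (fun w => ‖H w‖ ^ 2) z v = 2 * (conj (H z) * (H' * v)).re := by
  have hd : DifferentiableAt ℝ (fun w => ‖H w‖ ^ 2) z :=
    (h.differentiableAt.restrictScalars ℝ).norm_sq ℝ
  apply fderiv_eq_of_slice hd
  have h1 := (hslice h v).norm_sq
  refine h1.congr_deriv ?_
  simp [Complex.inner]
  ring

/-- Laplacian of `g (|H|²)` for holomorphic `H`. -/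
theorem lap_comp {g g1 : ℝ → ℝ} {g2 : ℝ} {H H1 : ℂ → ℂ} {H2 z : ℂ}
    (hH : ∀ᶠ w in 𝓝 z, HasDerivAt H (H1 w) w) (hH1 : HasDerivAt H1 H2 z)
    (hg : ∀ᶠ x in 𝓝 (‖H z‖ ^ 2), HasDerivAt g (g1 x) x) (hg1 : HasDerivAt g1 g2 (‖H z‖ ^ 2)) :
    lap (fun w => g (‖H w‖ ^ 2)) z = 4 * ‖H1 z‖ ^ 2 * (g2 * ‖H z‖ ^ 2 + g1 (‖H z‖ ^ 2)) := by
  have hHz : HasDerivAt H (H1 z) z := hH.self_of_nhds
  have hNd : DifferentiableAt ℝ (fun w => ‖H w‖ ^ 2) z :=
    (hHz.differentiableAt.restrictScalars ℝ).norm_sq ℝ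
  have hcont : ContinuousAt (fun w => ‖H w‖ ^ 2) z := hNd.continuousAt
  -- first derivative
  have hfirst : ∀ v : ℂ, (fun w => fderiv ℝ (fun w => g (‖H w‖ ^ 2)) w v) =ᶠ[𝓝 z]
      fun w => g1 (‖H w‖ ^ 2) * (2 * (conj (H w) * (H1 w * v)).re) := by
    intro v
    filter_upwards [hH, hcont.eventually hg] with w hw hgw
    have hNw : DifferentiableAt ℝ (fun w => ‖H w‖ ^ 2) w :=
      (hw.differentiableAt.restrictScalars ℝ).norm_sq ℝ
    have h1 : HasFDerivAt (fun w => g (‖H w‖ ^ 2))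
        (g1 (‖H w‖ ^ 2) • fderiv ℝ (fun w => ‖H w‖ ^ 2) w) w :=
      hgw.comp_hasFDerivAt w hNw.hasFDerivAt
    rw [h1.fderiv]
    simp only [smul_apply, smul_eq_mul]
    rw [fderiv_normsq hw v]
  -- second derivative
  have hsecond : ∀ v : ℂ, fderiv ℝ (fun w => fderiv ℝ (fun w => g (‖H w‖ ^ 2)) w v) z v =
      g2 * (2 * (conj (H z) * (H1 z * v)).re) ^ 2 +
      g1 (‖H z‖ ^ 2) * (2 * (conj (H1 z * v) * (H1 z * v) + conj (H z) * (H2 * v * v)).re) := by
    intro v
    rw [(hfirst v).fderiv_eq]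
    have hd1 : DifferentiableAt ℝ (fun w => g1 (‖H w‖ ^ 2)) z :=
      (hg1.comp_hasFDerivAt z hNd.hasFDerivAt).differentiableAt
    have hHr : DifferentiableAt ℝ H z := hHz.differentiableAt.restrictScalars ℝ
    have hH1r : DifferentiableAt ℝ H1 z := hH1.differentiableAt.restrictScalars ℝ
    have hconj : DifferentiableAt ℝ (fun w => conj (H w)) z :=
      Complex.conjCLE.differentiableAt.comp z hHr
    have hd2 : DifferentiableAt ℝ (fun w => 2 * (conj (H w) * (H1 w * v)).re) z := by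
      apply DifferentiableAt.const_mul
      exact Complex.reCLM.differentiableAt.comp z (hconj.mul (hH1r.mul_const v))
    apply fderiv_eq_of_slice (hd1.mul hd2)
    have s1 : HasDerivAt (fun t : ℝ => g1 (‖H (z + t • v)‖ ^ 2))
        (g2 * (2 * (conj (H z) * (H1 z * v)).re)) 0 := by
      have h1 : HasDerivAt (fun t : ℝ => ‖H (z + t • v)‖ ^ 2)
          (2 * (conj (H z) * (H1 z * v)).re) 0 := by
        have h2 := (hslice hHz v).norm_sq
        refine h2.congr_deriv ?_
        simp [Complex.inner]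
        ring
      have h3 : HasDerivAt g1 g2 ((fun t : ℝ => ‖H (z + t • v)‖ ^ 2) 0) := by
        simpa using hg1
      exact h3.comp 0 h1
    have s2 : HasDerivAt (fun t : ℝ => 2 * (conj (H (z + t • v)) * (H1 (z + t • v) * v)).re)
        (2 * (conj (H1 z * v) * (H1 z * v) + conj (H z) * (H2 * v * v)).re) 0 := by
      have t1 := hslice hHz v
      have t2 := (hslice hH1 v).mul_const v
      have t3 : HasDerivAt (fun t : ℝ => conj (H (z + t • v))) (conj (H1 z * v)) 0 :=
        Complex.conjCLE.hasFDerivAt.comp_hasDerivAt 0 t1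
      have t4 := t3.mul t2
      have t5 := (Complex.reCLM.hasFDerivAt.comp_hasDerivAt 0 t4).const_mul 2
      refine t5.congr_deriv ?_
      simp
    have s3 := s1.mul s2
    refine s3.congr_deriv ?_
    simp only [zero_smul, add_zero]
    ring
  have e1 : lap (fun w => g (‖H w‖ ^ 2)) z =
      fderiv ℝ (fun w => fderiv ℝ (fun w => g (‖H w‖ ^ 2)) w 1) z 1 +
      fderiv ℝ (fun w => fderiv ℝ (fun w => g (‖H w‖ ^ 2)) w Complex.I) z Complex.I := rfl
  rw [e1, hsecond, hsecond, ← Complex.normSq_eq_norm_sq, ← Complex.normSq_eq_norm_sq,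
    Complex.normSq_apply, Complex.normSq_apply]
  simp only [Complex.add_re, Complex.mul_re, Complex.mul_im, Complex.conj_re, Complex.conj_im,
    Complex.I_re, Complex.I_im, Complex.one_re, Complex.one_im]
  ring

end MinMod
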