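import Mathlib
import Pool.Agent.Work.MP_06ac62_an.Gadget

open Filter MeasureTheory Metric Real Set Topology
open scoped ComplexConjugate

namespace MinMod

lemma dx_congr {E : Type*} [NormedAddCommGroup E] [NormedSpace ℝ E] {f g : ℂ → E} {z : ℂ}
    (h : f =ᶠ[𝓝 z] g) : dx f =ᶠ[𝓝 z] dx g := by
  filter_upwards [h.eventuallyEq_nhds] with w hw
  simp only [dx]; rw [hw.fderiv_eq]

lemma dy_congr {E : Type*} [NormedAddCommGroup E] [NormedSpace ℝ E] {f g : ℂ → E} {z : ℂ}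
    (h : f =ᶠ[𝓝 z] g) : dy f =ᶠ[𝓝 z] dy g := by
  filter_upwards [h.eventuallyEq_nhds] with w hw
  simp only [dy]; rw [hw.fderiv_eq]

lemma lap_congr {f g : ℂ → ℝ} {z : ℂ} (h : f =ᶠ[𝓝 z] g) : lap f z = lap g z := by
  simp only [lap]
  rw [(dx_congr (dx_congr h)).self_of_nhds, (dy_congr (dy_congr h)).self_of_nhds]

lemma lap_zero' {f : ℂ → ℝ} {z : ℂ} (h : f =ᶠ[𝓝 z] fun _ => 0) : lap f z = 0 := by
  rw [lap_congr h]
  have h1 : dx (fun _ : ℂ => (0 : ℝ)) = fun _ => 0 := by ext w; simp [dx]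
  have h2 : dy (fun _ : ℂ => (0 : ℝ)) = fun _ => 0 := by ext w; simp [dy]
  simp [lap, h1, h2]

/-- The local potential in the exponential coordinate. -/
noncomputable def Sh (κ : ℝ) (w : ℂ) : ℝ :=
  if |w.im| < π then gF κ (‖Complex.exp w - 1‖ ^ 2) else 0

/-- radius of the support -/
noncomputable def Aκ (κ : ℝ) : ℝ := π / 2 + Real.log 2 + -Real.log (1 - √((1 + κ) / 2))

lemma exp_ne_one {w : ℂ} (hw : w ≠ 0) (him : |w.im| < π) : Complex.exp w ≠ 1 := by
  intro h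
  rw [← Complex.exp_zero] at h
  have him' := abs_lt.1 him
  apply hw
  apply Complex.exp_inj_of_neg_pi_lt_of_le_pi him'.1 him'.2.le _ _ h
  · simp [Real.pi_pos]
  · simp [Real.pi_pos.le]

lemma xi_pos {w : ℂ} (hw : w ≠ 0) (him : |w.im| < π) : 0 < ‖Complex.exp w - 1‖ ^ 2 := by
  have : Complex.exp w - 1 ≠ 0 := sub_ne_zero.2 (exp_ne_one hw him)
  positivity

lemma norm_exp_sub_sq (w : ℂ) : ‖Complex.exp w - 1‖ ^ 2 =
    Real.exp w.re ^ 2 - 2 * (Real.exp w.re * Real.cos w.im) + 1 := by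
  rw [← Complex.normSq_eq_norm_sq, Complex.normSq_apply]
  simp only [Complex.sub_re, Complex.sub_im, Complex.exp_re, Complex.exp_im, Complex.one_re,
    Complex.one_im]
  nlinarith [Real.sin_sq_add_cos_sq w.im]

lemma Sh_zero_of_im {κ : ℝ} (hκ : κ < 1) {w : ℂ} (h : π / 2 ≤ |w.im|) : Sh κ w = 0 := by
  unfold Sh
  split_ifs with h1
  · apply gF_zero hκ
    have hcos : Real.cos w.im ≤ 0 := by
      rw [← Real.cos_abs]
      apply Real.cos_nonpos_of_pi_div_two_le_of_le h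
      linarith [Real.pi_pos]
    rw [norm_exp_sub_sq]
    have he := Real.exp_pos w.re
    nlinarith [mul_nonneg he.le (neg_nonneg.2 hcos)]
  · rfl

lemma Sh_nonneg {κ : ℝ} (hκ : κ < 1) {w : ℂ} (hw : w ≠ 0) : 0 ≤ Sh κ w := by
  unfold Sh
  split_ifs with h1
  · exact gF_nonneg hκ (xi_pos hw h1)
  · exact le_refl _

lemma sqrt_lt_one {κ : ℝ} (hκ : κ < 1) : √((1 + κ) / 2) < 1 := by
  rw [Real.sqrt_lt' one_pos]; linarith

lemma Aκ_pos {κ : ℝ} (hκ : κ < 1) : 0 < Aκ κ := by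
  have h1 := sqrt_lt_one hκ
  have h0 := Real.sqrt_nonneg ((1 + κ) / 2)
  have h2 : Real.log (1 - √((1 + κ) / 2)) ≤ 0 := Real.log_nonpos (by linarith) (by linarith)
  have h3 : 0 < Real.log 2 := Real.log_pos (by norm_num)
  have := Real.pi_pos
  unfold Aκ
  linarith

lemma one_lt_Aκ {κ : ℝ} (hκ : κ < 1) : 1 < Aκ κ := by
  have h1 := sqrt_lt_one hκ
  have h0 := Real.sqrt_nonneg ((1 + κ) / 2)
  have h2 : Real.log (1 - √((1 + κ) / 2)) ≤ 0 := Real.log_nonpos (by linarith) (by linarith)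
  have h3 : 0 < Real.log 2 := Real.log_pos (by norm_num)
  have := Real.pi_gt_three
  unfold Aκ
  linarith

lemma Sh_zero_of_norm {κ : ℝ} (hκ0 : 0 < κ) (hκ : κ < 1) {w : ℂ} (h : Aκ κ < ‖w‖) :
    Sh κ w = 0 := by
  by_cases him : π / 2 ≤ |w.im|
  · exact Sh_zero_of_im hκ him
  push Not at him
  have hs1 := sqrt_lt_one hκ
  have hs0 := Real.sqrt_nonneg ((1 + κ) / 2)
  have hlog : Real.log (1 - √((1 + κ) / 2)) ≤ 0 := Real.log_nonpos (by linarith) (by linarith)
  have hlog2 : 0 < Real.log 2 := Real.log_pos (by norm_num)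
  have hre : Real.log 2 + -Real.log (1 - √((1 + κ) / 2)) < |w.re| := by
    have h1 := Complex.norm_le_abs_re_add_abs_im w
    unfold Aκ at h
    linarith
  unfold Sh
  rw [if_pos (by linarith [Real.pi_pos])]
  apply gF_zero hκ
  rcases le_total 0 w.re with hr | hr
  · rw [abs_of_nonneg hr] at hre
    have h2 : 2 ≤ ‖Complex.exp w‖ := by
      rw [Complex.norm_exp]
      calc (2 : ℝ) = Real.exp (Real.log 2) := (Real.exp_log (by norm_num)).symm
        _ ≤ Real.exp w.re := Real.exp_le_exp.2 (by linarith)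
    have h3 : 1 ≤ ‖Complex.exp w - 1‖ := by
      have := norm_sub_norm_le (Complex.exp w) 1
      rw [norm_one] at this
      linarith
    nlinarith
  · rw [abs_of_nonpos hr] at hre
    have h2 : ‖Complex.exp w‖ ≤ 1 - √((1 + κ) / 2) := by
      rw [Complex.norm_exp]
      calc Real.exp w.re ≤ Real.exp (Real.log (1 - √((1 + κ) / 2))) :=
            Real.exp_le_exp.2 (by linarith)
        _ = 1 - √((1 + κ) / 2) := Real.exp_log (by linarith)
    have h3 : √((1 + κ) / 2) ≤ ‖Complex.exp w - 1‖ := by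
      have := norm_sub_norm_le 1 (Complex.exp w)
      rw [norm_one, norm_sub_rev] at this
      linarith
    calc (1 + κ) / 2 = √((1 + κ) / 2) ^ 2 := (Real.sq_sqrt (by linarith)).symm
      _ ≤ ‖Complex.exp w - 1‖ ^ 2 := pow_le_pow_left₀ hs0 h3 2

/-- the logarithmic pole -/
lemma Sh_ge {κ : ℝ} (hκ0 : 0 < κ) (hκ : κ < 1) {w : ℂ} (hw : w ≠ 0) (hw1 : ‖w‖ ≤ 1 / 2) :
    -(2 * κ * Real.log (2 * ‖w‖)) - 1 ≤ Sh κ w := by
  have him : |w.im| < π := by
    have := Complex.abs_im_le_norm w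
    linarith [Real.pi_gt_three]
  have hwpos : 0 < ‖w‖ := norm_pos_iff.2 hw
  have h1 : ‖Complex.exp w - 1‖ ≤ 2 * ‖w‖ := Complex.norm_exp_sub_one_le (by linarith)
  have h0 := xi_pos hw him
  have h00 : 0 < ‖Complex.exp w - 1‖ := norm_pos_iff.2 (sub_ne_zero.2 (exp_ne_one hw him))
  unfold Sh
  rw [if_pos him]
  have h2 := gF_ge hκ0 hκ h0 (by nlinarith)
  have h3 : Real.log (‖Complex.exp w - 1‖ ^ 2) ≤ 2 * Real.log (2 * ‖w‖) := by
    rw [Real.log_pow]
    push_cast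
    have := Real.log_le_log h00 h1
    linarith
  nlinarith

/-- the potential attached to a point `a` with scale `c` -/
noncomputable def Uf (κ : ℝ) (c a : ℂ) (z : ℂ) : ℝ := Sh κ (c * (z - a))

lemma Uf_local {κ : ℝ} (hκ : κ < 1) (c a z : ℂ) :
    (|(c * (z - a)).im| < π ∧ Uf κ c a =ᶠ[𝓝 z]
      fun z => gF κ (‖Complex.exp (c * (z - a)) - 1‖ ^ 2)) ∨
    Uf κ c a =ᶠ[𝓝 z] fun _ => 0 := by
  have hc : Continuous (fun z => |(c * (z - a)).im|) := by fun_prop
  by_cases h : |(c * (z - a)).im| < π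
  · left
    refine ⟨h, ?_⟩
    filter_upwards [hc.continuousAt.eventually (gt_mem_nhds h)] with w hw
    simp only [Uf, Sh]
    rw [if_pos hw]
  · right
    push Not at h
    have h2 : π / 2 < |(c * (z - a)).im| := by linarith [Real.pi_pos]
    filter_upwards [hc.continuousAt.eventually (lt_mem_nhds h2)] with w hw
    simp only [Uf]
    exact Sh_zero_of_im hκ hw.le

lemma Uf_contDiffAt {κ : ℝ} (hκ : κ < 1) {c a z : ℂ} (h : c * (z - a) ≠ 0) :
    ContDiffAt ℝ 2 (Uf κ c a) z := by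
  rcases Uf_local hκ c a z with ⟨him, h1⟩ | h1
  · apply ContDiffAt.congr_of_eventuallyEq _ h1
    have h2 : ContDiffAt ℝ 2 (gF κ) (‖Complex.exp (c * (z - a)) - 1‖ ^ 2) :=
      gF_contDiffAt (xi_pos h him)
    have h3 : ContDiff ℝ 2 (fun z : ℂ => ‖Complex.exp (c * (z - a)) - 1‖ ^ 2) := by
      apply ContDiff.norm_sq ℝ
      apply ContDiff.sub _ contDiff_const
      exact (contDiff_const.mul (contDiff_id.sub contDiff_const)).cexp
    exact h2.comp z h3.contDiffAt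
  · exact contDiffAt_const.congr_of_eventuallyEq h1

lemma Uf_lap_le {κ : ℝ} (hκ : κ < 1) {c a z : ℂ} (h : c * (z - a) ≠ 0) :
    lap (Uf κ c a) z ≤ 4 * ‖c‖ ^ 2 * ‖Complex.exp (c * (z - a))‖ ^ 2 := by
  rcases Uf_local hκ c a z with ⟨him, h1⟩ | h1
  · rw [lap_congr h1]
    have hξ := xi_pos h him
    set ξ := ‖Complex.exp (c * (z - a)) - 1‖ ^ 2 with hξdef
    have e1 : ∀ w : ℂ, HasDerivAt (fun z => Complex.exp (c * (z - a)) - 1)
        (c * Complex.exp (c * (w - a))) w := by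
      intro w
      have := (((hasDerivAt_id w).sub_const a).const_mul c).cexp.sub_const 1
      refine this.congr_deriv ?_
      simp only [id]; ring
    have e2 : HasDerivAt (fun z => c * Complex.exp (c * (z - a)))
        (c * (c * Complex.exp (c * (z - a)))) z := by
      have := ((((hasDerivAt_id z).sub_const a).const_mul c).cexp).const_mul c
      refine this.congr_deriv ?_
      simp only [id]; ring
    have e3 : ∀ᶠ x in 𝓝 ξ, HasDerivAt (gF κ) ((fun x => -(hF κ x / x)) x) x := by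
      filter_upwards [lt_mem_nhds hξ] with x hx
      exact gF_deriv hx
    have e4 : HasDerivAt (fun x => -(hF κ x / x)) ((thetaF κ ξ * ξ + hF κ ξ) / ξ ^ 2) ξ := by
      have := ((hF_deriv κ ξ).div (hasDerivAt_id ξ) hξ.ne').neg
      refine this.congr_deriv ?_
      simp only [id]
      ring
    have key := lap_comp (g := gF κ) (H := fun z => Complex.exp (c * (z - a)) - 1)
      (Eventually.of_forall e1) e2 e3 e4
    rw [key]
    have h5 : (thetaF κ ξ * ξ + hF κ ξ) / ξ ^ 2 * ‖Complex.exp (c * (z - a)) - 1‖ ^ 2 +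
        -(hF κ (‖Complex.exp (c * (z - a)) - 1‖ ^ 2) / ‖Complex.exp (c * (z - a)) - 1‖ ^ 2)
        = thetaF κ ξ := by
      rw [← hξdef]
      field_simp
      ring
    rw [h5, norm_mul, mul_pow]
    have h6 := thetaF_le_one κ ξ
    have h7 : 0 ≤ 4 * (‖c‖ ^ 2 * ‖Complex.exp (c * (z - a))‖ ^ 2) := by positivity
    nlinarith
  · rw [lap_zero' h1]
    positivity

end MinMod
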