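import Mathlib
import Pool.Agent.Work.MP_06ac62_an.Shat

open Filter MeasureTheory Metric Real Set Topology

namespace MinMod

lemma eventually_diff {E : Type*} [NormedAddCommGroup E] [NormedSpace ℝ E] {f : ℂ → E} {z : ℂ}
    (h : ContDiffAt ℝ 2 f z) : ∀ᶠ w in 𝓝 z, DifferentiableAt ℝ f w := by
  filter_upwards [h.eventually (by simp)] with w hw
  exact hw.differentiableAt (by norm_num)

lemma lap_add {f g : ℂ → ℝ} {z : ℂ} (hf : ContDiffAt ℝ 2 f z) (hg : ContDiffAt ℝ 2 g z) :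
    lap (fun w => f w + g w) z = lap f z + lap g z := by
  have h1 : dx (fun w => f w + g w) =ᶠ[𝓝 z] fun w => dx f w + dx g w := by
    filter_upwards [eventually_diff hf, eventually_diff hg] with w hw1 hw2
    simp only [dx]; rw [fderiv_fun_add hw1 hw2]; rfl
  have h2 : dy (fun w => f w + g w) =ᶠ[𝓝 z] fun w => dy f w + dy g w := by
    filter_upwards [eventually_diff hf, eventually_diff hg] with w hw1 hw2
    simp only [dy]; rw [fderiv_fun_add hw1 hw2]; rfl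
  have a1 := (contDiffAt_dx hf).differentiableAt (by norm_num)
  have a2 := (contDiffAt_dx hg).differentiableAt (by norm_num)
  have b1 := (contDiffAt_dy hf).differentiableAt (by norm_num)
  have b2 := (contDiffAt_dy hg).differentiableAt (by norm_num)
  have e1 : dx (dx (fun w => f w + g w)) z = dx (dx f) z + dx (dx g) z := by
    rw [(dx_congr h1).self_of_nhds]
    change fderiv ℝ (fun w => dx f w + dx g w) z 1 = fderiv ℝ (dx f) z 1 + fderiv ℝ (dx g) z 1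
    rw [fderiv_fun_add a1 a2]; rfl
  have e2 : dy (dy (fun w => f w + g w)) z = dy (dy f) z + dy (dy g) z := by
    rw [(dy_congr h2).self_of_nhds]
    change fderiv ℝ (fun w => dy f w + dy g w) z Complex.I =
      fderiv ℝ (dy f) z Complex.I + fderiv ℝ (dy g) z Complex.I
    rw [fderiv_fun_add b1 b2]; rfl
  simp only [lap]
  rw [e1, e2]; ring

lemma lap_const_mul {f : ℂ → ℝ} {z : ℂ} (c : ℝ) (hf : ContDiffAt ℝ 2 f z) :
    lap (fun w => c * f w) z = c * lap f z := by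
  have h1 : dx (fun w => c * f w) =ᶠ[𝓝 z] fun w => c * dx f w := by
    filter_upwards [eventually_diff hf] with w hw1
    simp only [dx]; rw [fderiv_const_mul hw1]; rfl
  have h2 : dy (fun w => c * f w) =ᶠ[𝓝 z] fun w => c * dy f w := by
    filter_upwards [eventually_diff hf] with w hw1
    simp only [dy]; rw [fderiv_const_mul hw1]; rfl
  have a1 := (contDiffAt_dx hf).differentiableAt (by norm_num)
  have b1 := (contDiffAt_dy hf).differentiableAt (by norm_num)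
  have e1 : dx (dx (fun w => c * f w)) z = c * dx (dx f) z := by
    rw [(dx_congr h1).self_of_nhds]
    change fderiv ℝ (fun w => c * dx f w) z 1 = c * fderiv ℝ (dx f) z 1
    rw [fderiv_const_mul a1]; rfl
  have e2 : dy (dy (fun w => c * f w)) z = c * dy (dy f) z := by
    rw [(dy_congr h2).self_of_nhds]
    change fderiv ℝ (fun w => c * dy f w) z Complex.I = c * fderiv ℝ (dy f) z Complex.I
    rw [fderiv_const_mul b1]; rfl
  simp only [lap]
  rw [e1, e2]; ring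

/-- Laplacian of a radial function -/
lemma lap_radial {g g1 : ℝ → ℝ} {g2 : ℝ} {z : ℂ}
    (hg : ∀ᶠ x in 𝓝 (‖z‖ ^ 2), HasDerivAt g (g1 x) x) (hg1 : HasDerivAt g1 g2 (‖z‖ ^ 2)) :
    lap (fun w => g (‖w‖ ^ 2)) z = 4 * (g2 * ‖z‖ ^ 2 + g1 (‖z‖ ^ 2)) := by
  have := lap_comp (g := g) (g1 := g1) (g2 := g2) (H := fun w => w) (H1 := fun _ => 1) (H2 := 0)
    (z := z) (Eventually.of_forall fun w => hasDerivAt_id w) (hasDerivAt_const z 1) hg hg1
  rw [this]
  simp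

noncomputable def logw (z : ℂ) : ℝ := Real.log (1 + ‖z‖ ^ 2)

lemma logw_contDiff : ContDiff ℝ 2 logw := by
  unfold logw
  apply ContDiff.log
  · exact contDiff_const.add (contDiff_norm_sq ℝ)
  · intro z; positivity

lemma logw_lap (z : ℂ) : lap logw z = 4 / (1 + ‖z‖ ^ 2) ^ 2 := by
  have h1 : ∀ x : ℝ, 0 ≤ x → HasDerivAt (fun x => Real.log (1 + x)) ((fun x => (1 + x)⁻¹) x) x := by
    intro x hx
    have := ((hasDerivAt_id x).const_add 1).log (by simp only [id]; positivity)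
    refine this.congr_deriv ?_
    simp
  have hξ : (0 : ℝ) ≤ ‖z‖ ^ 2 := by positivity
  have h1' : ∀ᶠ x in 𝓝 (‖z‖ ^ 2), HasDerivAt (fun x => Real.log (1 + x))
      ((fun x => (1 + x)⁻¹) x) x := by
    filter_upwards [lt_mem_nhds (show (-1 : ℝ) < ‖z‖ ^ 2 by linarith)] with x hx
    have := ((hasDerivAt_id x).const_add 1).log (by simp only [id]; linarith)
    refine this.congr_deriv ?_
    simp
  have h2 : HasDerivAt (fun x : ℝ => (1 + x)⁻¹) (-1 / (1 + ‖z‖ ^ 2) ^ 2) (‖z‖ ^ 2) := by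
    have := ((hasDerivAt_id (‖z‖ ^ 2)).const_add 1).inv (by simp only [id]; positivity)
    refine this.congr_deriv ?_
    simp
  have key := lap_radial (g := fun x => Real.log (1 + x)) h1' h2
  have e : (fun w : ℂ => (fun x => Real.log (1 + x)) (‖w‖ ^ 2)) = logw := rfl
  rw [e] at key
  rw [key]
  field_simp
  ring

/-- Data for the construction. -/
structure Data (κ ε : ℝ) (v : ℂ → ℝ) (a c : ℕ → ℂ) : Prop where
  κ_pos : 0 < κ
  κ_lt : κ < 1
  ε_nonneg : 0 ≤ ε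
  smooth : ContDiff ℝ 2 v
  nonneg : ∀ z, 0 ≤ v z
  lap_nonneg : ∀ z, 0 ≤ lap v z
  c_ne : ∀ j, c j ≠ 0
  disj : ∀ j k, j ≠ k → 2 * Aκ κ * (1 / ‖c j‖ + 1 / ‖c k‖) < ‖a j - a k‖
  far : ∀ j, 1 + 2 * Aκ κ / ‖c j‖ < ‖a j‖
  lf : ∀ R : ℝ, ∀ᶠ j in atTop, R + 2 * Aκ κ / ‖c j‖ < ‖a j‖
  lapcond : ∀ j z, ‖c j * (z - a j)‖ ≤ Aκ κ →
    v (a j) * (4 * ‖c j‖ ^ 2 * ‖Complex.exp (c j * (z - a j))‖ ^ 2) ≤ (1 + ε) * lap v z

namespace Data

variable {κ ε : ℝ} {v : ℂ → ℝ} {a c : ℕ → ℂ}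

/-- the total subtracted potential -/
noncomputable def S (κ : ℝ) (v : ℂ → ℝ) (a c : ℕ → ℂ) (z : ℂ) : ℝ :=
  ∑ᶠ j, v (a j) * Uf κ (c j) (a j) z

lemma other_zero (D : Data κ ε v a c) {j k : ℕ} (hjk : j ≠ k) {w : ℂ}
    (hw : ‖c j * (w - a j)‖ < 2 * Aκ κ) : Uf κ (c k) (a k) w = 0 := by
  apply Sh_zero_of_norm D.κ_pos D.κ_lt
  by_contra hcon
  push Not at hcon
  have hA := Aκ_pos D.κ_lt
  have hcj : 0 < ‖c j‖ := norm_pos_iff.2 (D.c_ne j)
  have hck : 0 < ‖c k‖ := norm_pos_iff.2 (D.c_ne k)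
  rw [norm_mul] at hw hcon
  have h1 : ‖w - a j‖ < 2 * Aκ κ * (1 / ‖c j‖) := by
    rw [mul_one_div, lt_div_iff₀ hcj]; linarith
  have h2 : ‖w - a k‖ ≤ 2 * Aκ κ * (1 / ‖c k‖) := by
    rw [mul_one_div, le_div_iff₀ hck]; linarith
  have h3 := D.disj j k hjk
  have h4 : ‖a j - a k‖ ≤ ‖w - a j‖ + ‖w - a k‖ := by
    have : a j - a k = (w - a k) - (w - a j) := by ring
    rw [this]
    have := norm_sub_le (w - a k) (w - a j)
    linarith
  nlinarith

lemma S_eq_single (D : Data κ ε v a c) {j : ℕ} {w : ℂ} (hw : ‖c j * (w - a j)‖ < 2 * Aκ κ) :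
    S κ v a c w = v (a j) * Uf κ (c j) (a j) w := by
  unfold S
  apply finsum_eq_single
  intro k hk
  rw [D.other_zero (Ne.symm hk) hw, mul_zero]

lemma S_eq_zero (D : Data κ ε v a c) {w : ℂ} (hw : ∀ j, Aκ κ < ‖c j * (w - a j)‖) :
    S κ v a c w = 0 := by
  unfold S
  rw [finsum_eq_zero_of_forall_eq_zero]
  intro j
  rw [Uf, Sh_zero_of_norm D.κ_pos D.κ_lt (hw j), mul_zero]

lemma far_of_norm (D : Data κ ε v a c) {R : ℝ} {j : ℕ} (h : R + 2 * Aκ κ / ‖c j‖ < ‖a j‖)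
    {w : ℂ} (hw : ‖w‖ ≤ R) : Aκ κ < ‖c j * (w - a j)‖ := by
  have hA := Aκ_pos D.κ_lt
  have hcj : 0 < ‖c j‖ := norm_pos_iff.2 (D.c_ne j)
  rw [norm_mul]
  have h1 : ‖a j‖ ≤ ‖w‖ + ‖w - a j‖ := by
    have : a j = w - (w - a j) := by ring
    conv_lhs => rw [this]
    exact norm_sub_le _ _
  have h2 : 2 * Aκ κ / ‖c j‖ < ‖w - a j‖ := by linarith
  rw [div_lt_iff₀ hcj] at h2
  nlinarith

/-- The local structure of `S`. -/
lemma S_local (D : Data κ ε v a c) (z : ℂ) :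
    (∃ j, ‖c j * (z - a j)‖ ≤ Aκ κ ∧
      S κ v a c =ᶠ[𝓝 z] fun w => v (a j) * Uf κ (c j) (a j) w) ∨
    S κ v a c =ᶠ[𝓝 z] fun _ => 0 := by
  have hA := Aκ_pos D.κ_lt
  by_cases h : ∃ j, ‖c j * (z - a j)‖ ≤ Aκ κ
  · left
    obtain ⟨j, hj⟩ := h
    refine ⟨j, hj, ?_⟩
    have hc : Continuous (fun w => ‖c j * (w - a j)‖) := by fun_prop
    filter_upwards [hc.continuousAt.eventually
      (gt_mem_nhds (show ‖c j * (z - a j)‖ < 2 * Aκ κ by linarith))] with w hw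
    exact D.S_eq_single hw
  · right
    push Not at h
    obtain ⟨J, hJ⟩ := eventually_atTop.1 (D.lf (‖z‖ + 1))
    have h1 : ∀ᶠ w in 𝓝 z, ‖w‖ ≤ ‖z‖ + 1 :=
      continuous_norm.continuousAt.eventually (ge_mem_nhds (by linarith))
    have h2 : ∀ᶠ w in 𝓝 z, ∀ j ∈ Finset.range J, Aκ κ < ‖c j * (w - a j)‖ := by
      rw [eventually_all_finset]
      intro j _
      have hc : Continuous (fun w => ‖c j * (w - a j)‖) := by fun_prop
      exact hc.continuousAt.eventually (lt_mem_nhds (h j))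
    filter_upwards [h1, h2] with w hw1 hw2
    apply D.S_eq_zero
    intro j
    by_cases hj : j < J
    · exact hw2 j (Finset.mem_range.2 hj)
    · exact D.far_of_norm (hJ j (not_lt.1 hj)) hw1

lemma range_closed (D : Data κ ε v a c) : IsClosed (range a) := by
  rw [← isOpen_compl_iff, isOpen_iff_mem_nhds]
  intro z hz
  have hA := Aκ_pos D.κ_lt
  obtain ⟨J, hJ⟩ := eventually_atTop.1 (D.lf (‖z‖ + 1))
  have h1 : ∀ᶠ w in 𝓝 z, ‖w‖ ≤ ‖z‖ + 1 :=
    continuous_norm.continuousAt.eventually (ge_mem_nhds (by linarith))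
  have h2 : ∀ᶠ w in 𝓝 z, ∀ j ∈ Finset.range J, w ≠ a j := by
    rw [eventually_all_finset]
    intro j _
    have : z ≠ a j := fun h => hz ⟨j, h.symm⟩
    exact isOpen_ne.mem_nhds this
  filter_upwards [h1, h2] with w hw1 hw2
  rintro ⟨j, rfl⟩
  by_cases hj : j < J
  · exact hw2 j (Finset.mem_range.2 hj) rfl
  · have := D.far_of_norm (hJ j (not_lt.1 hj)) hw1
    simp at this
    linarith

lemma ne_of_compl {z : ℂ} (hz : z ∈ (range a)ᶜ) (j : ℕ) : z ≠ a j := fun h => hz ⟨j, h.symm⟩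

lemma arg_ne (D : Data κ ε v a c) {z : ℂ} (hz : z ∈ (range a)ᶜ) (j : ℕ) :
    c j * (z - a j) ≠ 0 :=
  mul_ne_zero (D.c_ne j) (sub_ne_zero.2 (ne_of_compl hz j))

lemma S_contDiffAt (D : Data κ ε v a c) {z : ℂ} (hz : z ∈ (range a)ᶜ) :
    ContDiffAt ℝ 2 (S κ v a c) z := by
  rcases D.S_local z with ⟨j, _, h⟩ | h
  · apply ContDiffAt.congr_of_eventuallyEq _ h
    exact contDiffAt_const.mul (Uf_contDiffAt D.κ_lt (D.arg_ne hz j))
  · exact contDiffAt_const.congr_of_eventuallyEq h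

lemma S_nonneg (D : Data κ ε v a c) {z : ℂ} (hz : z ∈ (range a)ᶜ) : 0 ≤ S κ v a c z := by
  rcases D.S_local z with ⟨j, _, h⟩ | h
  · rw [h.self_of_nhds]
    exact mul_nonneg (D.nonneg _) (Sh_nonneg D.κ_lt (D.arg_ne hz j))
  · rw [h.self_of_nhds]

lemma S_lap_le (D : Data κ ε v a c) {z : ℂ} (hz : z ∈ (range a)ᶜ) :
    lap (S κ v a c) z ≤ (1 + ε) * lap v z := by
  rcases D.S_local z with ⟨j, hj, h⟩ | h
  · rw [lap_congr h, lap_const_mul _ (Uf_contDiffAt D.κ_lt (D.arg_ne hz j))]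
    refine le_trans ?_ (D.lapcond j z hj)
    exact mul_le_mul_of_nonneg_left (Uf_lap_le D.κ_lt (D.arg_ne hz j)) (D.nonneg _)
  · rw [lap_zero' h]
    exact mul_nonneg (by linarith [D.ε_nonneg]) (D.lap_nonneg z)

/-- the weight -/
noncomputable def wt (κ ε : ℝ) (v : ℂ → ℝ) (a c : ℕ → ℂ) (N : ℝ) (z : ℂ) : ℝ :=
  (2 * (1 + ε) * v z + -2 * S κ v a c z) + N * logw z

lemma wt_contDiffAt (D : Data κ ε v a c) (N : ℝ) {z : ℂ} (hz : z ∈ (range a)ᶜ) :
    ContDiffAt ℝ 2 (wt κ ε v a c N) z :=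
  ((contDiffAt_const.mul D.smooth.contDiffAt).add (contDiffAt_const.mul (D.S_contDiffAt hz))).add
    (contDiffAt_const.mul logw_contDiff.contDiffAt)

lemma wt_lap_ge (D : Data κ ε v a c) {N : ℝ} {z : ℂ} (hz : z ∈ (range a)ᶜ) :
    N * (4 / (1 + ‖z‖ ^ 2) ^ 2) ≤ lap (wt κ ε v a c N) z := by
  have h1 : ContDiffAt ℝ 2 v z := D.smooth.contDiffAt
  have h2 := D.S_contDiffAt hz
  have h3 : ContDiffAt ℝ 2 logw z := logw_contDiff.contDiffAt
  have e : lap (wt κ ε v a c N) z =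
      (2 * (1 + ε) * lap v z + -2 * lap (S κ v a c) z) + N * lap logw z := by
    have e1 : lap (wt κ ε v a c N) z =
      lap (fun w => 2 * (1 + ε) * v w + -2 * S κ v a c w) z + lap (fun w => N * logw w) z :=
      lap_add ((contDiffAt_const.mul h1).add (contDiffAt_const.mul h2)) (contDiffAt_const.mul h3)
    have e2 : lap (fun w => 2 * (1 + ε) * v w + -2 * S κ v a c w) z =
      lap (fun w => 2 * (1 + ε) * v w) z + lap (fun w => -2 * S κ v a c w) z :=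
      lap_add (contDiffAt_const.mul h1) (contDiffAt_const.mul h2)
    rw [e1, e2, lap_const_mul _ h1, lap_const_mul _ h2, lap_const_mul _ h3]
  rw [e, logw_lap]
  have := D.S_lap_le hz
  linarith

lemma wt_le (D : Data κ ε v a c) {N : ℝ} {z : ℂ} (hz : z ∈ (range a)ᶜ) :
    wt κ ε v a c N z ≤ 2 * (1 + ε) * v z + N * logw z := by
  have := D.S_nonneg hz
  unfold wt
  linarith

/-- near a pole -/
lemma wt_pole (D : Data κ ε v a c) {N : ℝ} (j : ℕ) {z : ℂ} (hz : z ≠ a j)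
    (hz2 : ‖c j * (z - a j)‖ ≤ 1 / 2) :
    wt κ ε v a c N z ≤ 2 * (1 + ε) * v z + N * logw z +
      2 * v (a j) * (2 * κ * Real.log (2 * ‖c j * (z - a j)‖) + 1) := by
  have hA := one_lt_Aκ D.κ_lt
  have h1 : S κ v a c z = v (a j) * Uf κ (c j) (a j) z := D.S_eq_single (by linarith)
  have h2 : c j * (z - a j) ≠ 0 := mul_ne_zero (D.c_ne j) (sub_ne_zero.2 hz)
  have h3 := Sh_ge D.κ_pos D.κ_lt h2 hz2
  have h4 : v (a j) * (-(2 * κ * Real.log (2 * ‖c j * (z - a j)‖)) - 1) ≤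
      v (a j) * Uf κ (c j) (a j) z := mul_le_mul_of_nonneg_left h3 (D.nonneg _)
  unfold wt
  rw [h1]
  nlinarith

/-- the weight on the unit ball -/
lemma wt_unit (D : Data κ ε v a c) {N : ℝ} {z : ℂ} (hz : ‖z‖ ≤ 1) :
    wt κ ε v a c N z = 2 * (1 + ε) * v z + N * logw z := by
  have : S κ v a c z = 0 := D.S_eq_zero (fun j => D.far_of_norm (D.far j) hz)
  unfold wt
  rw [this]; ring

lemma unit_compl (D : Data κ ε v a c) {z : ℂ} (hz : ‖z‖ ≤ 1) : z ∈ (range a)ᶜ := by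
  rintro ⟨j, rfl⟩
  have h1 := D.far j
  have hA := Aκ_pos D.κ_lt
  have hcj : 0 < ‖c j‖ := norm_pos_iff.2 (D.c_ne j)
  have : 0 < 2 * Aκ κ / ‖c j‖ := by positivity
  linarith

end Data

end MinMod
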