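import Mathlib
import Pool.Agent.Work.MP_06ac62_an.Weight

open Filter MeasureTheory Metric Real Set Topology

namespace MinMod

/-- `v(z) = |z|^λ` -/
noncomputable def vF (lam : ℝ) (z : ℂ) : ℝ := (‖z‖ ^ 2) ^ (lam / 2)

lemma vF_eq (lam : ℝ) (z : ℂ) : vF lam z = ‖z‖ ^ lam := by
  unfold vF
  rw [← Real.rpow_natCast, ← Real.rpow_mul (norm_nonneg z)]
  congr 1; push_cast; ring

lemma vF_contDiff {lam : ℝ} (h : 4 ≤ lam) : ContDiff ℝ 2 (vF lam) := by
  unfold vF
  have h1 : ContDiff ℝ ((2 : ℕ) : WithTop ℕ∞) (fun x : ℝ => x ^ (lam / 2)) :=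
    Real.contDiff_rpow_const_of_le (by push_cast; linarith)
  exact h1.comp (contDiff_norm_sq ℝ)

lemma vF_lap {lam : ℝ} (h : 6 ≤ lam) (z : ℂ) :
    lap (vF lam) z = lam ^ 2 * (‖z‖ ^ 2) ^ (lam / 2 - 1) := by
  have h1 : ∀ x : ℝ, HasDerivAt (fun x : ℝ => x ^ (lam / 2)) (lam / 2 * x ^ (lam / 2 - 1)) x :=
    fun x => Real.hasDerivAt_rpow_const (Or.inr (by linarith))
  have h2 : HasDerivAt (fun x : ℝ => lam / 2 * x ^ (lam / 2 - 1))
      (lam / 2 * ((lam / 2 - 1) * (‖z‖ ^ 2) ^ (lam / 2 - 1 - 1))) (‖z‖ ^ 2) :=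
    (Real.hasDerivAt_rpow_const (Or.inr (by linarith))).const_mul _
  have key := lap_radial (Eventually.of_forall h1) h2
  have e : (fun w : ℂ => (fun x : ℝ => x ^ (lam / 2)) (‖w‖ ^ 2)) = vF lam := rfl
  rw [e] at key
  rw [key]
  rcases eq_or_lt_of_le (sq_nonneg ‖z‖) with h0 | h0
  · rw [← h0, Real.zero_rpow (by linarith), Real.zero_rpow (by linarith)]
    ring
  · have h3 : (‖z‖ ^ 2) ^ (lam / 2 - 1) = (‖z‖ ^ 2) ^ (lam / 2 - 1 - 1) * ‖z‖ ^ 2 := by
      rw [← Real.rpow_add_one h0.ne']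
      congr 1; ring
    rw [h3]
    ring

/-- `exp (Re w) ≤ |1+w| exp(2|w|²)` -/
lemma exp_re_le {w : ℂ} (hw : ‖w‖ ≤ 1 / 2) :
    Real.exp w.re ≤ ‖1 + w‖ * Real.exp (2 * ‖w‖ ^ 2) := by
  have h1 := Complex.norm_exp_sub_one_sub_id_le (x := w) (by linarith)
  have h2 : ‖Complex.exp w‖ ≤ ‖Complex.exp w - 1 - w‖ + ‖1 + w‖ := by
    have := norm_add_le (Complex.exp w - 1 - w) (1 + w)
    have e : Complex.exp w - 1 - w + (1 + w) = Complex.exp w := by ring
    rwa [e] at this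
  rw [Complex.norm_exp] at h2
  have h3 : 1 / 2 ≤ ‖1 + w‖ := by
    have := norm_sub_le (1 + w) w
    have e : 1 + w - w = 1 := by ring
    rw [e, norm_one] at this
    linarith
  have h4 := Real.add_one_le_exp (2 * ‖w‖ ^ 2)
  have h5 : 0 ≤ ‖w‖ ^ 2 := sq_nonneg _
  calc Real.exp w.re ≤ ‖w‖ ^ 2 + ‖1 + w‖ := by linarith
    _ ≤ ‖1 + w‖ * (2 * ‖w‖ ^ 2 + 1) := by nlinarith
    _ ≤ ‖1 + w‖ * Real.exp (2 * ‖w‖ ^ 2) :=
        mul_le_mul_of_nonneg_left h4 (norm_nonneg _)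

/-- the spiral step -/
noncomputable def stepF (A lam : ℝ) : ℂ := ⟨100 * A ^ 2 / lam ^ 2, 16 * A / lam⟩

/-- the zeros on a spiral -/
noncomputable def aF (A lam : ℝ) (j₀ j : ℕ) : ℂ := Complex.exp (((j + j₀ : ℕ) : ℂ) * stepF A lam)

noncomputable def xF (A lam : ℝ) (j₀ j : ℕ) : ℝ :=
  Real.exp (((j + j₀ : ℕ) : ℝ) * (100 * A ^ 2 / lam ^ 2))

lemma aF_norm (A lam : ℝ) (j₀ j : ℕ) : ‖aF A lam j₀ j‖ = xF A lam j₀ j := by
  unfold aF xF
  rw [Complex.norm_exp]
  congr 1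
  simp [stepF]

lemma xF_pos (A lam : ℝ) (j₀ j : ℕ) : 0 < xF A lam j₀ j := Real.exp_pos _

lemma xF_succ (A lam : ℝ) (j₀ j : ℕ) :
    xF A lam j₀ (j + 1) = Real.exp (100 * A ^ 2 / lam ^ 2) * xF A lam j₀ j := by
  unfold xF
  rw [← Real.exp_add]
  congr 1; push_cast; ring

lemma xF_mono {A lam : ℝ} (hA : 0 < A) (hl : 0 < lam) (j₀ : ℕ) : StrictMono (xF A lam j₀) := by
  intro j k hjk
  unfold xF
  apply Real.exp_lt_exp.2
  apply mul_lt_mul_of_pos_right _ (by positivity)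
  exact_mod_cast Nat.add_lt_add_right hjk j₀

lemma xF_tendsto {A lam : ℝ} (hA : 0 < A) (hl : 0 < lam) (j₀ : ℕ) :
    Tendsto (xF A lam j₀) atTop atTop := by
  unfold xF
  apply Real.tendsto_exp_atTop.comp
  apply Tendsto.atTop_mul_const (by positivity)
  exact tendsto_natCast_atTop_atTop.comp (tendsto_add_atTop_nat j₀)

lemma disj_aux {A lam : ℝ} (hA : 1 < A) (hl : 400 * A ≤ lam) {j₀ j k : ℕ} (hjk : j < k) :
    4 * A / lam * (xF A lam j₀ j + xF A lam j₀ k) < ‖aF A lam j₀ k - aF A lam j₀ j‖ := by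
  have hl0 : 0 < lam := by linarith
  set d : ℝ := (k : ℝ) - j with hd
  have hd1 : 1 ≤ d := by
    have : (j : ℝ) + 1 ≤ k := by exact_mod_cast hjk
    linarith
  set q := 4 * A / lam with hq
  have hq0 : 0 < q := by positivity
  have hq1 : q ≤ 1 / 100 := by rw [hq, div_le_iff₀ hl0]; linarith
  set u : ℂ := (d : ℂ) * stepF A lam with hu
  have hure : u.re = d * (100 * A ^ 2 / lam ^ 2) := by simp [hu, stepF]
  have huim : u.im = d * (16 * A / lam) := by simp [hu, stepF]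
  have hak : aF A lam j₀ k = aF A lam j₀ j * Complex.exp u := by
    unfold aF
    rw [← Complex.exp_add]
    congr 1
    rw [hu, hd]; push_cast; ring
  have hxk : xF A lam j₀ k = xF A lam j₀ j * Real.exp u.re := by
    rw [← aF_norm, ← aF_norm, hak, norm_mul, Complex.norm_exp]
  have hxj := xF_pos A lam j₀ j
  have hR1 : 1 ≤ Real.exp u.re := by
    apply Real.one_le_exp
    rw [hure]; positivity
  have hnorm : ‖aF A lam j₀ k - aF A lam j₀ j‖ = xF A lam j₀ j * ‖Complex.exp u - 1‖ := by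
    rw [hak, show aF A lam j₀ j * Complex.exp u - aF A lam j₀ j =
      aF A lam j₀ j * (Complex.exp u - 1) by ring, norm_mul, aF_norm]
  rw [hnorm, hxk]
  suffices h : q * (1 + Real.exp u.re) < ‖Complex.exp u - 1‖ by
    calc q * (xF A lam j₀ j + xF A lam j₀ j * Real.exp u.re)
        = xF A lam j₀ j * (q * (1 + Real.exp u.re)) := by ring
      _ < xF A lam j₀ j * ‖Complex.exp u - 1‖ := mul_lt_mul_of_pos_left h hxj
  by_contra hcon
  push Not at hcon
  set R := Real.exp u.re with hR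
  -- radial part
  have h1 : R - 1 ≤ q * (1 + R) := by
    refine le_trans ?_ hcon
    have := norm_sub_norm_le (Complex.exp u) 1
    rw [Complex.norm_exp, norm_one] at this
    exact this
  have h2 : R ≤ 1 + 17 / 8 * q := by
    have h3 : R * (1 - q) ≤ 1 + q := by linarith
    have h4 : 1 + q ≤ (1 + 17 / 8 * q) * (1 - q) := by nlinarith
    exact le_of_mul_le_mul_right (h3.trans h4) (by linarith)
  have h3 : u.re ≤ 17 / 8 * q := by
    have := Real.add_one_le_exp u.re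
    linarith
  have h4 : d * A ≤ 85 / 1000 * lam := by
    rw [hure, hq] at h3
    have h5 : d * (100 * A ^ 2 / lam ^ 2) * lam ^ 2 ≤ 17 / 8 * (4 * A / lam) * lam ^ 2 :=
      mul_le_mul_of_nonneg_right h3 (by positivity)
    have e1 : d * (100 * A ^ 2 / lam ^ 2) * lam ^ 2 = (100 * A) * (d * A) := by
      field_simp
    have e2 : 17 / 8 * (4 * A / lam) * lam ^ 2 = (100 * A) * (85 / 1000 * lam) := by
      field_simp; ring
    rw [e1, e2] at h5
    exact le_of_mul_le_mul_left h5 (by linarith)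
  have h5 : u.im ≤ 136 / 100 := by
    rw [huim, mul_div_assoc', div_le_iff₀ hl0]
    linarith
  have h6 : 4 * q ≤ u.im := by
    rw [huim, hq]
    have : 16 * A / lam ≤ d * (16 * A / lam) := by
      have h7 : 0 < 16 * A / lam := by positivity
      nlinarith
    calc 4 * (4 * A / lam) = 16 * A / lam := by ring
      _ ≤ _ := this
  have hpi := Real.pi_gt_three
  have hpi4 := Real.pi_lt_d2
  have h7 : 2 / π * u.im ≤ Real.sin u.im :=
    Real.mul_le_sin (by linarith) (by linarith)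
  have h8 : R * Real.sin u.im ≤ ‖Complex.exp u - 1‖ := by
    have h9 := Complex.abs_im_le_norm (Complex.exp u - 1)
    rw [Complex.sub_im, Complex.exp_im, Complex.one_im, sub_zero] at h9
    exact (le_abs_self _).trans h9
  have h9 : 0.634 ≤ 2 / π := by
    rw [le_div_iff₀ (by linarith)]
    linarith
  have h10 : 0.634 * (4 * q) ≤ Real.sin u.im := by
    refine le_trans ?_ h7
    exact mul_le_mul h9 h6 (by linarith) (by positivity)
  have h11 : Real.sin u.im ≤ R * Real.sin u.im := by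
    have : 0 ≤ Real.sin u.im := by linarith
    nlinarith
  have h12 : q * (1 + R) ≤ q * (2 + 17 / 800) := by
    apply mul_le_mul_of_nonneg_left _ hq0.le
    linarith
  nlinarith

/-- The data in the finite order case. -/
theorem dataF {κ ε lam : ℝ} (hκ0 : 0 < κ) (hκ1 : κ < 1) (hε : 0 < ε) (hε1 : ε ≤ 1)
    (hl : 400 * Aκ κ ≤ lam) (hl2 : 24 * (Aκ κ) ^ 2 ≤ ε * lam) {j₀ : ℕ}
    (hj₀ : 2 ≤ xF (Aκ κ) lam j₀ 0) :
    Data κ ε (vF lam) (aF (Aκ κ) lam j₀) (fun j => (lam / 2 : ℂ) / aF (Aκ κ) lam j₀ j) := by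
  set A := Aκ κ with hAdef
  have hA : 1 < A := one_lt_Aκ hκ1
  have hl0 : 0 < lam := by linarith
  have hane : ∀ j, aF A lam j₀ j ≠ 0 := fun j => Complex.exp_ne_zero _
  have hcnorm : ∀ j, ‖(lam / 2 : ℂ) / aF A lam j₀ j‖ = lam / (2 * xF A lam j₀ j) := by
    intro j
    rw [norm_div, aF_norm]
    have : ‖(lam / 2 : ℂ)‖ = lam / 2 := by
      rw [show (lam / 2 : ℂ) = ((lam / 2 : ℝ) : ℂ) by push_cast; ring, Complex.norm_real,
        Real.norm_eq_abs, abs_of_pos (by positivity)]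
    rw [this]
    have := xF_pos A lam j₀ j
    field_simp
  have hx2 : ∀ j, 2 ≤ xF A lam j₀ j := fun j =>
    hj₀.trans ((xF_mono (by linarith) hl0 j₀).monotone (Nat.zero_le j))
  have hsmall : ∀ j, 2 * A / ‖(lam / 2 : ℂ) / aF A lam j₀ j‖ ≤ 1 / 100 * xF A lam j₀ j := by
    intro j
    rw [hcnorm j]
    have hx := xF_pos A lam j₀ j
    have e : 2 * A / (lam / (2 * xF A lam j₀ j)) = 4 * A / lam * xF A lam j₀ j := by
      field_simp; ring
    rw [e]
    apply mul_le_mul_of_nonneg_right _ hx.le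
    rw [div_le_iff₀ hl0]; linarith
  refine ⟨hκ0, hκ1, hε.le, vF_contDiff (by linarith), fun z => ?_, fun z => ?_, fun j => ?_,
    fun j k hjk => ?_, fun j => ?_, fun R => ?_, fun j z hz => ?_⟩
  · unfold vF; positivity
  · rw [vF_lap (by linarith)]; positivity
  · apply div_ne_zero _ (hane j)
    exact_mod_cast (by positivity : lam / 2 ≠ 0)
  · rw [hcnorm j, hcnorm k]
    have hxj := xF_pos A lam j₀ j
    have hxk := xF_pos A lam j₀ k
    have e : 2 * A * (1 / (lam / (2 * xF A lam j₀ j)) + 1 / (lam / (2 * xF A lam j₀ k))) =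
        4 * A / lam * (xF A lam j₀ j + xF A lam j₀ k) := by
      field_simp; ring
    rw [e]
    rcases lt_or_gt_of_ne hjk with h | h
    · rw [norm_sub_rev]; exact disj_aux hA hl h
    · rw [add_comm]; exact disj_aux hA hl h
  · rw [aF_norm]
    have := hsmall j
    have := hx2 j
    linarith
  · have h1 := (xF_tendsto (A := A) (by linarith) hl0 j₀).eventually
      (eventually_gt_atTop (2 * |R|))
    filter_upwards [h1] with j hj
    rw [aF_norm]
    have h2 := hsmall j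
    have h3 := le_abs_self R
    have h4 := abs_nonneg R
    linarith
  · -- the Laplacian condition
    have hx := xF_pos A lam j₀ j
    set p := aF A lam j₀ j with hp
    have hpn : ‖p‖ = xF A lam j₀ j := aF_norm _ _ _ _
    have hpne : p ≠ 0 := hane j
    set w := (z - p) / p with hw
    have hzw : z = p * (1 + w) := by
      rw [hw]; field_simp; ring
    have hcz : (lam / 2 : ℂ) / p * (z - p) = (lam / 2 : ℂ) * w := by
      rw [hw]; field_simp
    have hlam2 : ‖(lam / 2 : ℂ)‖ = lam / 2 := by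
      rw [show (lam / 2 : ℂ) = ((lam / 2 : ℝ) : ℂ) by push_cast; ring, Complex.norm_real,
        Real.norm_eq_abs, abs_of_pos (by positivity)]
    have hwn : ‖w‖ * lam ≤ 2 * A := by
      rw [hcz, norm_mul, hlam2] at hz
      linarith
    have hw0 := norm_nonneg w
    have hw1 : ‖w‖ ≤ 1 / 200 := by
      have : ‖w‖ * (400 * A) ≤ 2 * A :=
        (mul_le_mul_of_nonneg_left hl hw0).trans hwn
      nlinarith
    have h1w : 1 / 2 ≤ ‖1 + w‖ := by
      have := norm_sub_le (1 + w) w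
      have e : 1 + w - w = 1 := by ring
      rw [e, norm_one] at this
      linarith
    have hexp2 : ‖Complex.exp ((lam / 2 : ℂ) / p * (z - p))‖ ^ 2 = Real.exp (lam * w.re) := by
      rw [hcz, Complex.norm_exp]
      have : ((lam / 2 : ℂ) * w).re = lam / 2 * w.re := by
        rw [show (lam / 2 : ℂ) = ((lam / 2 : ℝ) : ℂ) by push_cast; ring, Complex.re_ofReal_mul]
      rw [this, ← Real.exp_nat_mul]
      congr 1; push_cast; ring
    have hcn : ‖(lam / 2 : ℂ) / p‖ = lam / (2 * ‖p‖) := by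
      rw [hpn]; exact hcnorm j
    rw [hexp2, hcn, vF_lap (by linarith), vF_eq]
    have hpn0 : 0 < ‖p‖ := by rw [hpn]; exact hx
    have e1 : ‖p‖ ^ lam * (4 * (lam / (2 * ‖p‖)) ^ 2 * Real.exp (lam * w.re)) =
        lam ^ 2 * ‖p‖ ^ (lam - 2) * Real.exp (lam * w.re) := by
      rw [Real.rpow_sub hpn0]
      have : ‖p‖ ^ (2 : ℝ) = ‖p‖ ^ 2 := by
        rw [← Real.rpow_natCast]; norm_num
      rw [this]
      field_simp
      ring
    have e2 : (‖z‖ ^ 2) ^ (lam / 2 - 1) = ‖p‖ ^ (lam - 2) * ‖1 + w‖ ^ (lam - 2) := by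
      rw [hzw, norm_mul, ← Real.mul_rpow (norm_nonneg _) (norm_nonneg _), ← Real.rpow_natCast,
        ← Real.rpow_mul (by positivity)]
      congr 1; push_cast; ring
    rw [e1, e2]
    -- main estimate
    have h3 : Real.exp ((lam - 2) * w.re) ≤
        ‖1 + w‖ ^ (lam - 2) * Real.exp ((lam - 2) * (2 * ‖w‖ ^ 2)) := by
      have h4 := Real.rpow_le_rpow (Real.exp_pos _).le (exp_re_le (w := w) (by linarith))
        (show (0 : ℝ) ≤ lam - 2 by linarith)
      rw [Real.mul_rpow (norm_nonneg _) (Real.exp_pos _).le, ← Real.exp_mul, ← Real.exp_mul] at h4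
      rw [mul_comm (lam - 2) w.re, mul_comm (lam - 2) (2 * ‖w‖ ^ 2)]
      exact h4
    have hwre : w.re ≤ ‖w‖ := Complex.re_le_norm w
    have h5 : (lam - 2) * (2 * ‖w‖ ^ 2) + 2 * w.re ≤ ε / 2 := by
      have h6 : (lam - 2) * (2 * ‖w‖ ^ 2) ≤ 2 * (‖w‖ * lam) * ‖w‖ := by nlinarith [sq_nonneg ‖w‖]
      have h7 : 2 * (‖w‖ * lam) * ‖w‖ ≤ 2 * (2 * A) * ‖w‖ := by
        apply mul_le_mul_of_nonneg_right _ hw0
        linarith
      have h8 : (2 * (2 * A) * ‖w‖ + 2 * ‖w‖) ≤ 6 * A * ‖w‖ := by nlinarith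
      have h9 : 6 * A * ‖w‖ ≤ ε / 2 := by
        have h10 : 6 * A * ‖w‖ * lam ≤ ε / 2 * lam := by nlinarith
        exact le_of_mul_le_mul_right h10 hl0
      linarith
    have h6 : Real.exp (lam * w.re) ≤ (1 + ε) * ‖1 + w‖ ^ (lam - 2) := by
      have h7 : Real.exp (lam * w.re) = Real.exp ((lam - 2) * w.re) * Real.exp (2 * w.re) := by
        rw [← Real.exp_add]; congr 1; ring
      have h8 : Real.exp ((lam - 2) * (2 * ‖w‖ ^ 2)) * Real.exp (2 * w.re) ≤ 1 + ε := by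
        rw [← Real.exp_add]
        refine (Real.exp_le_exp.2 h5).trans ?_
        have h9 := Real.abs_exp_sub_one_le (x := ε / 2) (by rw [abs_of_pos (by linarith)]; linarith)
        rw [abs_of_pos (by linarith : 0 < ε / 2)] at h9
        have := le_abs_self (Real.exp (ε / 2) - 1)
        linarith
      rw [h7]
      calc Real.exp ((lam - 2) * w.re) * Real.exp (2 * w.re)
          ≤ ‖1 + w‖ ^ (lam - 2) * Real.exp ((lam - 2) * (2 * ‖w‖ ^ 2)) * Real.exp (2 * w.re) :=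
            mul_le_mul_of_nonneg_right h3 (Real.exp_pos _).le
        _ = ‖1 + w‖ ^ (lam - 2) *
            (Real.exp ((lam - 2) * (2 * ‖w‖ ^ 2)) * Real.exp (2 * w.re)) := by ring
        _ ≤ ‖1 + w‖ ^ (lam - 2) * (1 + ε) :=
            mul_le_mul_of_nonneg_left h8 (Real.rpow_nonneg (norm_nonneg _) _)
        _ = _ := by ring
    calc lam ^ 2 * ‖p‖ ^ (lam - 2) * Real.exp (lam * w.re)
        ≤ lam ^ 2 * ‖p‖ ^ (lam - 2) * ((1 + ε) * ‖1 + w‖ ^ (lam - 2)) :=
          mul_le_mul_of_nonneg_left h6 (by positivity)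
      _ = (1 + ε) * (lam ^ 2 * (‖p‖ ^ (lam - 2) * ‖1 + w‖ ^ (lam - 2))) := by ring

end MinMod
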