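import Mathlib
import Pool.Agent.Work.MP_06ac62_an.Weight

open Filter MeasureTheory Metric Real Set Topology
open scoped ComplexConjugate

namespace MinMod

/-- `v(z) = exp(|z|²)` -/
noncomputable def vI (z : ℂ) : ℝ := Real.exp (‖z‖ ^ 2)

lemma vI_contDiff : ContDiff ℝ 2 vI := Real.contDiff_exp.comp (contDiff_norm_sq ℝ)

lemma vI_lap (z : ℂ) : lap vI z = 4 * (1 + ‖z‖ ^ 2) * Real.exp (‖z‖ ^ 2) := by
  have key := lap_radial (z := z) (Eventually.of_forall Real.hasDerivAt_exp)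
    (Real.hasDerivAt_exp (‖z‖ ^ 2))
  have e : (fun w : ℂ => Real.exp (‖w‖ ^ 2)) = vI := rfl
  rw [e] at key
  rw [key]
  ring

/-- `t_j = √(j+j₀)` -/
noncomputable def tI (j₀ j : ℕ) : ℝ := √((j + j₀ : ℕ) : ℝ)

/-- `ρ_j = √(20 A t_j)` -/
noncomputable def rI (A : ℝ) (j₀ j : ℕ) : ℝ := √(20 * A * tI j₀ j)

noncomputable def aI (A : ℝ) (j₀ j : ℕ) : ℂ := (rI A j₀ j : ℂ) * Complex.exp (tI j₀ j * Complex.I)

lemma tI_nonneg (j₀ j : ℕ) : 0 ≤ tI j₀ j := Real.sqrt_nonneg _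

lemma tI_sq (j₀ j : ℕ) : tI j₀ j ^ 2 = (j : ℝ) + j₀ := by
  unfold tI
  rw [Real.sq_sqrt (by positivity)]; push_cast; ring

lemma tI_strictMono (j₀ : ℕ) : StrictMono (tI j₀) := by
  intro j k hjk
  unfold tI
  apply Real.sqrt_lt_sqrt (by positivity)
  exact_mod_cast Nat.add_lt_add_right hjk j₀

lemma tI_tendsto (j₀ : ℕ) : Tendsto (tI j₀) atTop atTop := by
  unfold tI
  apply Real.tendsto_sqrt_atTop.comp
  exact tendsto_natCast_atTop_atTop.comp (tendsto_add_atTop_nat j₀)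

lemma rI_sq {A : ℝ} (hA : 0 < A) (j₀ j : ℕ) : rI A j₀ j ^ 2 = 20 * A * tI j₀ j := by
  unfold rI
  rw [Real.sq_sqrt]
  have := tI_nonneg j₀ j
  positivity

lemma rI_nonneg (A : ℝ) (j₀ j : ℕ) : 0 ≤ rI A j₀ j := Real.sqrt_nonneg _

lemma rI_strictMono {A : ℝ} (hA : 0 < A) (j₀ : ℕ) : StrictMono (rI A j₀) := by
  intro j k hjk
  unfold rI
  have := tI_nonneg j₀ j
  apply Real.sqrt_lt_sqrt (by positivity)
  exact mul_lt_mul_of_pos_left (tI_strictMono j₀ hjk) (by positivity)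

lemma rI_tendsto {A : ℝ} (hA : 0 < A) (j₀ : ℕ) : Tendsto (rI A j₀) atTop atTop := by
  unfold rI
  apply Real.tendsto_sqrt_atTop.comp
  exact (tI_tendsto j₀).const_mul_atTop (by positivity)

lemma aI_norm (A : ℝ) (j₀ j : ℕ) : ‖aI A j₀ j‖ = rI A j₀ j := by
  unfold aI
  rw [norm_mul, Complex.norm_exp_ofReal_mul_I, Complex.norm_real, Real.norm_eq_abs,
    abs_of_nonneg (rI_nonneg A j₀ j), mul_one]

/-- one step of `t` -/
lemma tI_succ_le {j₀ : ℕ} {j : ℕ} (ht : 0 < tI j₀ j) :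
    tI j₀ (j + 1) - tI j₀ j ≤ 1 / (2 * tI j₀ j) := by
  have h1 := tI_sq j₀ j
  have h2 := tI_sq j₀ (j + 1)
  have h3 := tI_strictMono j₀ (Nat.lt_succ_self j)
  push_cast at h2
  rw [le_div_iff₀ (by positivity)]
  simp only [Nat.succ_eq_add_one] at h3
  nlinarith

lemma disj_auxI {A : ℝ} (hA : 1 < A) {j₀ j k : ℕ} (ht : 20 ≤ tI j₀ j) (hjk : j < k) :
    2 * A * (1 / rI A j₀ j + 1 / rI A j₀ k) < ‖aI A j₀ k - aI A j₀ j‖ := by
  have hA0 : 0 < A := by linarith
  have htk := tI_strictMono j₀ hjk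
  set t := tI j₀ j with htdef
  set s := tI j₀ k with hsdef
  have hrj2 := rI_sq hA0 j₀ j
  have hrk2 := rI_sq hA0 j₀ k
  have hrjk := rI_strictMono hA0 j₀ hjk
  rw [← htdef] at hrj2
  rw [← hsdef] at hrk2
  have hrj0 : 0 < rI A j₀ j := by
    have := rI_nonneg A j₀ j
    rcases eq_or_lt_of_le this with h | h
    · rw [← h] at hrj2
      nlinarith
    · exact h
  set p := rI A j₀ j with hp
  set q := rI A j₀ k with hq
  have hq0 : 0 < q := by linarith
  have hgap : 1 ≤ (s - t) * (s + t) := by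
    have h1 := tI_sq j₀ j
    have h2 := tI_sq j₀ k
    rw [← htdef] at h1
    rw [← hsdef] at h2
    have h3 : (j : ℝ) + 1 ≤ k := by exact_mod_cast hjk
    nlinarith
  by_contra hcon
  push Not at hcon
  -- radial part
  have h1 : q - p ≤ 2 * A * (1 / p + 1 / q) := by
    refine le_trans ?_ hcon
    have := norm_sub_norm_le (aI A j₀ k) (aI A j₀ j)
    rw [aI_norm, aI_norm] at this
    exact this
  have h2 : (q - p) * (p * q) ≤ 2 * A * (p + q) := by
    have h3 := mul_le_mul_of_nonneg_right h1 (show 0 ≤ p * q by positivity)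
    have e : 2 * A * (1 / p + 1 / q) * (p * q) = 2 * A * (p + q) := by field_simp; ring
    rwa [e] at h3
  -- q ≤ 1.01 p
  have hp2 : 400 * A ≤ p ^ 2 := by rw [hrj2]; nlinarith
  have h3 : q ≤ 101 / 100 * p := by
    by_contra hc
    push Not at hc
    have h4 : 1 / 100 * p * (p * q) < (q - p) * (p * q) := by
      apply mul_lt_mul_of_pos_right _ (by positivity)
      linarith
    have h5 : 2 * A * (p + q) < 4 * A * q := by nlinarith
    have h6 : 1 / 100 * p * (p * q) < 4 * A * q := by linarith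
    have h7 : 1 / 100 * p ^ 2 < 4 * A := by
      have : (1 / 100 * p ^ 2) * q < (4 * A) * q := by nlinarith
      exact lt_of_mul_lt_mul_right this hq0.le
    linarith
  have h4 : q ^ 2 - p ^ 2 ≤ 8.2 * A := by
    have h5 : (q ^ 2 - p ^ 2) * (p * q) ≤ 2 * A * (p + q) ^ 2 := by
      have := mul_le_mul_of_nonneg_right h2 (show 0 ≤ p + q by positivity)
      calc (q ^ 2 - p ^ 2) * (p * q) = (q - p) * (p * q) * (p + q) := by ring
        _ ≤ 2 * A * (p + q) * (p + q) := this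
        _ = _ := by ring
    have h6 : (p + q) ^ 2 ≤ 4.1 * (p * q) := by nlinarith
    have h7 : (q ^ 2 - p ^ 2) * (p * q) ≤ 8.2 * A * (p * q) := by
      have := mul_le_mul_of_nonneg_left h6 (show 0 ≤ 2 * A by positivity)
      linarith
    exact le_of_mul_le_mul_right h7 (by positivity)
  have h5 : s - t ≤ 41 / 100 := by
    rw [hrj2, hrk2] at h4
    have : 20 * A * (s - t) ≤ 20 * A * (41 / 100) := by linarith
    exact le_of_mul_le_mul_left this (by positivity)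
  have hδ : 0 < s - t := by linarith
  -- angular part
  have hpi := Real.pi_gt_three
  have hpi4 := Real.pi_lt_d2
  have h7 : 2 / π * (s - t) ≤ Real.sin (s - t) :=
    Real.mul_le_sin (by linarith) (by linarith)
  have h8 : q * Real.sin (s - t) ≤ ‖aI A j₀ k - aI A j₀ j‖ := by
    have e : aI A j₀ k - aI A j₀ j = Complex.exp (t * Complex.I) *
        ((q : ℂ) * Complex.exp (((s - t : ℝ) : ℂ) * Complex.I) - p) := by
      unfold aI
      rw [mul_sub, ← mul_assoc, mul_comm (Complex.exp (↑t * Complex.I)) (q : ℂ), mul_assoc,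
        ← Complex.exp_add]
      rw [← htdef, ← hsdef, ← hp, ← hq]
      have : (t : ℂ) * Complex.I + ((s - t : ℝ) : ℂ) * Complex.I = s * Complex.I := by
        push_cast; ring
      rw [this]
      ring
    rw [e, norm_mul, Complex.norm_exp_ofReal_mul_I, one_mul]
    have h9 := Complex.abs_im_le_norm ((q : ℂ) * Complex.exp (((s - t : ℝ) : ℂ) * Complex.I) - p)
    rw [Complex.sub_im, Complex.im_ofReal_mul, Complex.exp_ofReal_mul_I_im, Complex.ofReal_im,
      sub_zero] at h9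
    exact (le_abs_self _).trans h9
  have h9 : 0.634 ≤ 2 / π := by
    rw [le_div_iff₀ (by linarith)]
    linarith
  have h10 : 0.634 * (s - t) ≤ Real.sin (s - t) := by
    refine le_trans ?_ h7
    exact mul_le_mul_of_nonneg_right h9 hδ.le
  have h11 : q * (0.634 * (s - t)) ≤ 2 * A * (1 / p + 1 / q) :=
    (mul_le_mul_of_nonneg_left h10 hq0.le).trans (h8.trans hcon)
  have h12 : 2 * A * (1 / p + 1 / q) ≤ 4 * A / p := by
    have : 1 / q ≤ 1 / p := one_div_le_one_div_of_le hrj0 hrjk.le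
    calc 2 * A * (1 / p + 1 / q) ≤ 2 * A * (1 / p + 1 / p) := by
          apply mul_le_mul_of_nonneg_left _ (by positivity)
          linarith
      _ = 4 * A / p := by ring
  have h13 : q * (0.634 * (s - t)) * p ≤ 4 * A := by
    have := h11.trans h12
    rwa [le_div_iff₀ hrj0] at this
  have h14 : 0.634 * (s - t) * p ^ 2 ≤ 4 * A := by
    refine le_trans ?_ h13
    have : 0 ≤ 0.634 * (s - t) * p := by positivity
    nlinarith
  rw [hrj2] at h14
  -- 0.634 * 20 * (s - t) * t ≤ 4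
  have h15 : 0.634 * (s - t) * (20 * t) ≤ 4 := by
    have : 0.634 * (s - t) * (20 * t) * A ≤ 4 * A := by nlinarith
    exact le_of_mul_le_mul_right this hA0
  have h16 : s + t ≤ 2.1 * t := by linarith
  have h17 : (s - t) * (s + t) ≤ (s - t) * (2.1 * t) := mul_le_mul_of_nonneg_left h16 hδ.le
  nlinarith


lemma norm_sq_expand (p z : ℂ) :
    ‖z‖ ^ 2 = ‖p‖ ^ 2 + 2 * (conj p * (z - p)).re + ‖z - p‖ ^ 2 := by
  simp only [← Complex.normSq_eq_norm_sq, Complex.normSq_apply, Complex.mul_re, Complex.conj_re,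
    Complex.conj_im, Complex.sub_re, Complex.sub_im]
  ring

/-- The data in the infinite order case. -/
theorem dataI {κ ε : ℝ} (hκ0 : 0 < κ) (hκ1 : κ < 1) (hε : 0 < ε) (hε1 : ε ≤ 1) {j₀ : ℕ}
    (ht : 20 ≤ tI j₀ 0) (ht2 : 1 ≤ ε * tI j₀ 0) :
    Data κ ε vI (aI (Aκ κ) j₀) (fun j => conj (aI (Aκ κ) j₀ j)) := by
  set A := Aκ κ with hAdef
  have hA : 1 < A := one_lt_Aκ hκ1
  have hA0 : 0 < A := by linarith
  have htj : ∀ j, 20 ≤ tI j₀ j := fun j => ht.trans ((tI_strictMono j₀).monotone (Nat.zero_le j))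
  have htj2 : ∀ j, 1 ≤ ε * tI j₀ j := fun j =>
    ht2.trans (mul_le_mul_of_nonneg_left ((tI_strictMono j₀).monotone (Nat.zero_le j)) hε.le)
  have hr2 : ∀ j, 400 * A ≤ rI A j₀ j ^ 2 := fun j => by
    rw [rI_sq hA0]; have := htj j; nlinarith
  have hr20 : ∀ j, 20 ≤ rI A j₀ j := fun j => by
    have h1 := hr2 j
    have h2 := rI_nonneg A j₀ j
    nlinarith
  have hcn : ∀ j, ‖conj (aI A j₀ j)‖ = rI A j₀ j := fun j => by
    rw [RCLike.norm_conj, aI_norm]
  have hsmall : ∀ j, 2 * A / rI A j₀ j ≤ 1 / 200 * rI A j₀ j := fun j => by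
    have h1 := hr2 j
    have h2 := hr20 j
    rw [div_le_iff₀ (by linarith)]
    nlinarith
  refine ⟨hκ0, hκ1, hε.le, vI_contDiff, fun z => (Real.exp_pos _).le, fun z => ?_, fun j => ?_,
    fun j k hjk => ?_, fun j => ?_, fun R => ?_, fun j z hz => ?_⟩
  · rw [vI_lap]; positivity
  · intro h0
    have h1 := hcn j
    have h2 := hr20 j
    rw [h0, norm_zero] at h1
    linarith
  · rw [hcn, hcn]
    rcases lt_or_gt_of_ne hjk with h | h
    · rw [norm_sub_rev]; exact disj_auxI hA (htj j) h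
    · rw [add_comm]; exact disj_auxI hA (htj k) h
  · rw [hcn, aI_norm]
    have h1 := hsmall j
    have h2 := hr20 j
    linarith
  · filter_upwards [(rI_tendsto hA0 j₀).eventually (eventually_gt_atTop (2 * |R|))] with j hj
    rw [hcn, aI_norm]
    have h1 := hsmall j
    have h3 := le_abs_self R
    have h4 := abs_nonneg R
    linarith
  · set p := aI A j₀ j with hp
    have hpn : ‖p‖ = rI A j₀ j := aI_norm _ _ _
    rw [norm_mul, hcn] at hz
    rw [hcn, vI_lap]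
    set ρ := rI A j₀ j with hρ
    have hρ20 := hr20 j
    rw [← hρ] at hρ20
    have hexp := norm_sq_expand p z
    rw [hpn] at hexp
    have hre : |(conj p * (z - p)).re| ≤ A := by
      refine (Complex.abs_re_le_norm _).trans ?_
      rw [norm_mul, hcn, ← hρ]; exact hz
    have hexp2 : ‖Complex.exp (conj p * (z - p))‖ ^ 2 = Real.exp (2 * (conj p * (z - p)).re) := by
      rw [Complex.norm_exp, ← Real.exp_nat_mul]
      congr 1
    rw [hexp2]
    have e1 : vI p * (4 * ρ ^ 2 * Real.exp (2 * (conj p * (z - p)).re)) =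
        4 * ρ ^ 2 * Real.exp (‖z‖ ^ 2 - ‖z - p‖ ^ 2) := by
      unfold vI
      rw [hpn]
      have : Real.exp (‖z‖ ^ 2 - ‖z - p‖ ^ 2) =
          Real.exp (ρ ^ 2) * Real.exp (2 * (conj p * (z - p)).re) := by
        rw [← Real.exp_add]; congr 1; linarith
      rw [this]; ring
    rw [e1]
    have h1 : Real.exp (‖z‖ ^ 2 - ‖z - p‖ ^ 2) ≤ Real.exp (‖z‖ ^ 2) := by
      apply Real.exp_le_exp.2
      have := sq_nonneg ‖z - p‖
      linarith
    have h2 : ρ ^ 2 - 2 * A ≤ ‖z‖ ^ 2 := by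
      have h3 := sq_nonneg ‖z - p‖
      have h4 := neg_abs_le (conj p * (z - p)).re
      linarith
    have h3 : ρ ^ 2 = 20 * A * tI j₀ j := rI_sq hA0 j₀ j
    have h4 : ρ ^ 2 ≤ (1 + ε) * (1 + ‖z‖ ^ 2) := by
      have h5 : (1 + ε) * (ρ ^ 2 - 2 * A) ≤ (1 + ε) * (1 + ‖z‖ ^ 2) := by
        apply mul_le_mul_of_nonneg_left _ (by linarith)
        linarith
      have h6 := htj2 j
      have h7 : 20 * A ≤ ε * ρ ^ 2 := by
        rw [h3]
        have : 20 * A * 1 ≤ 20 * A * (ε * tI j₀ j) := mul_le_mul_of_nonneg_left h6 (by positivity)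
        linarith
      nlinarith
    calc 4 * ρ ^ 2 * Real.exp (‖z‖ ^ 2 - ‖z - p‖ ^ 2)
        ≤ 4 * ρ ^ 2 * Real.exp (‖z‖ ^ 2) := mul_le_mul_of_nonneg_left h1 (by positivity)
      _ ≤ 4 * ((1 + ε) * (1 + ‖z‖ ^ 2)) * Real.exp (‖z‖ ^ 2) := by
          apply mul_le_mul_of_nonneg_right _ (Real.exp_pos _).le
          linarith
      _ = (1 + ε) * (4 * (1 + ‖z‖ ^ 2) * Real.exp (‖z‖ ^ 2)) := by ring

/-- one step of `ρ²` -/
lemma rI_sq_succ {A : ℝ} (hA : 0 < A) {j₀ j : ℕ} (ht : 0 < tI j₀ j) :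
    rI A j₀ (j + 1) ^ 2 - rI A j₀ j ^ 2 ≤ 200 * A ^ 2 / rI A j₀ j ^ 2 := by
  have h1 := tI_succ_le ht
  rw [rI_sq hA, rI_sq hA]
  calc 20 * A * tI j₀ (j + 1) - 20 * A * tI j₀ j = 20 * A * (tI j₀ (j + 1) - tI j₀ j) := by ring
    _ ≤ 20 * A * (1 / (2 * tI j₀ j)) := mul_le_mul_of_nonneg_left h1 (by positivity)
    _ = 200 * A ^ 2 / (20 * A * tI j₀ j) := by field_simp; ring

lemma rI_succ {A : ℝ} (hA : 0 < A) {j₀ j : ℕ} (ht : 0 < tI j₀ j) :
    rI A j₀ (j + 1) - rI A j₀ j ≤ 1 / rI A j₀ j * (100 * A ^ 2 / rI A j₀ j ^ 2) := by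
  have h1 := rI_sq_succ hA ht
  have hr0 : 0 < rI A j₀ j := by
    have h2 := rI_sq hA j₀ j
    have h3 := rI_nonneg A j₀ j
    rcases eq_or_lt_of_le h3 with h | h
    · rw [← h] at h2
      have : 0 < 20 * A * tI j₀ j := by positivity
      simp at h2
      rcases h2 with h2 | h2 <;> linarith
    · exact h
  have h4 := rI_strictMono hA j₀ (Nat.lt_succ_self j)
  simp only [Nat.succ_eq_add_one] at h4
  set p := rI A j₀ j with hp
  set q := rI A j₀ (j + 1) with hq
  have h5 : (q - p) * (2 * p) ≤ 200 * A ^ 2 / p ^ 2 := by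
    refine le_trans ?_ h1
    nlinarith
  have h6 : q - p ≤ 200 * A ^ 2 / p ^ 2 / (2 * p) := by
    rwa [le_div_iff₀ (by positivity)]
  refine h6.trans (le_of_eq ?_)
  field_simp
  norm_num

end MinMod
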