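import Mathlib

/-!
# Minimum modulus versus maximum modulus: the constants `C(λ)` and `C_∞`
-/

open Filter

namespace MinMod

/-- `M(r,f)`, the maximum of `|f|` on the circle `|z| = r`. -/
noncomputable def maxMod (f : ℂ → ℂ) (r : ℝ) : ℝ :=
  sSup ((fun z => ‖f z‖) '' Metric.sphere (0 : ℂ) r)

/-- `m₀(r,f)`, the minimum of `|f|` on the circle `|z| = r`. -/
noncomputable def minMod (f : ℂ → ℂ) (r : ℝ) : ℝ :=
  sInf ((fun z => ‖f z‖) '' Metric.sphere (0 : ℂ) r)

/-- `a_f(r) = log M(r,f)`. -/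
noncomputable def logMax (f : ℂ → ℂ) (r : ℝ) : ℝ := Real.log (maxMod f r)

/-- `b_f(r) = log m₀(r,f)`, with the convention `log 0 = -∞`. -/
noncomputable def logMin (f : ℂ → ℂ) (r : ℝ) : EReal := ENNReal.log (ENNReal.ofReal (minMod f r))

/-- A non-constant entire function. -/
def NonconstEntire (f : ℂ → ℂ) : Prop := Differentiable ℂ f ∧ ¬ ∃ c : ℂ, ∀ z, f z = c

/-- The order `limsup_{r → ∞} log a_f(r) / log r`. -/
noncomputable def order (f : ℂ → ℂ) : EReal :=
  limsup (fun r : ℝ => ((Real.log (logMax f r) / Real.log r : ℝ) : EReal)) atTop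

/-- The lower order `liminf_{r → ∞} log a_f(r) / log r`. -/
noncomputable def lowerOrder (f : ℂ → ℂ) : EReal :=
  liminf (fun r : ℝ => ((Real.log (logMax f r) / Real.log r : ℝ) : EReal)) atTop

/-- `Λ(f) = limsup_{r → ∞} b_f(r) / a_f(r)`. -/
noncomputable def Lam (f : ℂ → ℂ) : EReal :=
  limsup (fun r : ℝ => logMin f r / ((logMax f r : ℝ) : EReal)) atTop

/-- `Λ_∞(f) = limsup_{r → ∞} b_f(r) / (a_f(r) log log a_f(r))`. -/
noncomputable def LamInf (f : ℂ → ℂ) : EReal :=
  limsup (fun r : ℝ =>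
    logMin f r / ((logMax f r * Real.log (Real.log (logMax f r)) : ℝ) : EReal)) atTop

/-- `C(λ)`, the infimum of `Λ(f)` over non-constant entire `f` of lower order `λ`. -/
noncomputable def C (lam : ℝ) : EReal :=
  sInf {x : EReal | ∃ f : ℂ → ℂ, NonconstEntire f ∧ lowerOrder f = (lam : EReal) ∧ x = Lam f}

/-- `C_∞`, the infimum of `Λ_∞(f)` over non-constant entire `f` of infinite order. -/
noncomputable def CInfty : EReal :=
  sInf {x : EReal | ∃ f : ℂ → ℂ, NonconstEntire f ∧ order f = ⊤ ∧ x = LamInf f}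

end MinMod
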