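import Mathlib

/-!
Definitions for problem MP_06ac62_an (minimum modulus versus maximum modulus of entire functions).
-/

open Filter

namespace Pool.Agent.Work.MP_06ac62_an

/-- The maximum modulus `M(r,f) = max_{|z| = r} |f z|`. -/
noncomputable def maxMod (f : ℂ → ℂ) (r : ℝ) : ℝ :=
  sSup ((fun z : ℂ => ‖f z‖) '' Metric.sphere (0 : ℂ) r)

/-- The minimum modulus `m₀(r,f) = min_{|z| = r} |f z|`. -/
noncomputable def minMod (f : ℂ → ℂ) (r : ℝ) : ℝ :=
  sInf ((fun z : ℂ => ‖f z‖) '' Metric.sphere (0 : ℂ) r)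

/-- `a_f(r) = log M(r,f)`. -/
noncomputable def logMax (f : ℂ → ℂ) (r : ℝ) : ℝ := Real.log (maxMod f r)

/-- `b_f(r) = log m₀(r,f)`, an extended real, equal to `-∞` when `m₀(r,f) = 0`. -/
noncomputable def logMin (f : ℂ → ℂ) (r : ℝ) : EReal :=
  if minMod f r = 0 then ⊥ else ((Real.log (minMod f r) : ℝ) : EReal)

/-- The order `limsup_{r → ∞} log a_f(r) / log r`. -/
noncomputable def order (f : ℂ → ℂ) : EReal :=
  limsup (fun r : ℝ => ((Real.log (logMax f r) / Real.log r : ℝ) : EReal)) atTop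

/-- The lower order `liminf_{r → ∞} log a_f(r) / log r`. -/
noncomputable def lowerOrder (f : ℂ → ℂ) : EReal :=
  liminf (fun r : ℝ => ((Real.log (logMax f r) / Real.log r : ℝ) : EReal)) atTop

/-- `Λ(f) = limsup_{r → ∞} b_f(r) / a_f(r)`. -/
noncomputable def Lam (f : ℂ → ℂ) : EReal :=
  limsup (fun r : ℝ => logMin f r / ((logMax f r : ℝ) : EReal)) atTop

/-- `Λ_∞(f) = limsup_{r → ∞} b_f(r) / (a_f(r) log log a_f(r))`. -/
noncomputable def LamInf (f : ℂ → ℂ) : EReal :=
  limsup (fun r : ℝ =>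
    logMin f r / ((logMax f r * Real.log (Real.log (logMax f r)) : ℝ) : EReal)) atTop

/-- A non-constant entire function. -/
def IsEntireNonconst (f : ℂ → ℂ) : Prop :=
  Differentiable ℂ f ∧ ∃ z w : ℂ, f z ≠ f w

/-- `C(λ)`: the infimum of `Λ(f)` over the entire functions `f` of lower order `λ`. -/
noncomputable def Cval (lam : ℝ) : EReal :=
  sInf {L : EReal | ∃ f : ℂ → ℂ, IsEntireNonconst f ∧ lowerOrder f = (lam : EReal) ∧ L = Lam f}

/-- `C_∞`: the infimum of `Λ_∞(f)` over the entire functions `f` of infinite order. -/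
noncomputable def Cinf : EReal :=
  sInf {L : EReal | ∃ f : ℂ → ℂ, IsEntireNonconst f ∧ order f = ⊤ ∧ L = LamInf f}

end Pool.Agent.Work.MP_06ac62_an
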