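import Mathlib
import Pool.Agent.Work.MP_06ac62_an.Calc

open Filter MeasureTheory Metric Real Set Topology
open scoped ComplexConjugate InnerProductSpace

namespace MinMod

/-- A Riesz type lemma. -/
lemma riesz {V H : Type*} [AddCommGroup V] [Module ℂ V] [NormedAddCommGroup H]
    [InnerProductSpace ℂ H] [CompleteSpace H] (A : V →ₗ[ℂ] H) (l : V →ₗ[ℂ] ℂ) {C : ℝ}
    (hC : 0 ≤ C) (h : ∀ α, ‖l α‖ ≤ C * ‖A α‖) :
    ∃ u : H, ‖u‖ ≤ C ∧ ∀ α, l α = ⟪u, A α⟫_ℂ := by
  have hker : LinearMap.ker A ≤ LinearMap.ker l := by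
    intro α hα
    rw [LinearMap.mem_ker] at hα ⊢
    have := h α
    rw [hα, norm_zero, mul_zero] at this
    exact norm_le_zero_iff.1 this
  let l₁ : LinearMap.range A →ₗ[ℂ] ℂ :=
    ((LinearMap.ker A).liftQ l hker) ∘ₗ (A.quotKerEquivRange.symm : LinearMap.range A →ₗ[ℂ] _)
  have hl₁ : ∀ α, l₁ ⟨A α, LinearMap.mem_range_self A α⟩ = l α := by
    intro α
    have e1 : (A.quotKerEquivRange.symm ⟨A α, LinearMap.mem_range_self A α⟩)
        = Submodule.Quotient.mk α := by
      rw [LinearEquiv.symm_apply_eq]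
      rfl
    simp only [l₁, LinearMap.comp_apply, LinearEquiv.coe_coe]
    rw [e1]
    simp
  have hbd : ∀ x : LinearMap.range A, ‖l₁ x‖ ≤ C * ‖x‖ := by
    rintro ⟨x, α, rfl⟩
    have := hl₁ α
    rw [this]
    exact h α
  let l₂ : StrongDual ℂ (LinearMap.range A) := l₁.mkContinuous C hbd
  obtain ⟨g, hg1, hg2⟩ := exists_extension_norm_eq (LinearMap.range A) l₂
  refine ⟨(InnerProductSpace.toDual ℂ H).symm g, ?_, ?_⟩
  · rw [LinearIsometryEquiv.norm_map, hg2]
    exact l₁.mkContinuous_norm_le hC hbd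
  · intro α
    rw [InnerProductSpace.toDual_symm_apply]
    have := hg1 ⟨A α, LinearMap.mem_range_self A α⟩
    rw [this]
    exact (hl₁ α).symm

/-- The space of `C²` test functions supported in `Ω`. -/
def testSpace (Ω : Set ℂ) : Submodule ℂ (ℂ → ℂ) where
  carrier := {α | ContDiff ℝ 2 α ∧ HasCompactSupport α ∧ tsupport α ⊆ Ω}
  zero_mem' := by
    refine ⟨contDiff_const, HasCompactSupport.zero, ?_⟩
    have : tsupport (0 : ℂ → ℂ) = ∅ := by
      rw [tsupport_eq_empty_iff]
    rw [this]; exact empty_subset _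
  add_mem' := by
    rintro α β ⟨h1, h2, h3⟩ ⟨k1, k2, k3⟩
    refine ⟨h1.add k1, h2.add k2, ?_⟩
    have : tsupport (α + β) ⊆ tsupport α ∪ tsupport β := by
      apply closure_minimal _ ((isClosed_tsupport α).union (isClosed_tsupport β))
      intro z hz
      by_contra hcon
      rw [mem_union, not_or] at hcon
      apply hz
      simp [image_eq_zero_of_notMem_tsupport hcon.1, image_eq_zero_of_notMem_tsupport hcon.2]
    exact this.trans (union_subset h3 k3)
  smul_mem' := by
    rintro c α ⟨h1, h2, h3⟩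
    have hs : tsupport (c • α) ⊆ tsupport α := by
      apply closure_minimal _ (isClosed_tsupport α)
      intro z hz
      by_contra hcon
      apply hz
      simp [image_eq_zero_of_notMem_tsupport hcon]
    exact ⟨contDiff_const.smul h1, h2.of_isClosed_subset (isClosed_tsupport _) hs, hs.trans h3⟩

lemma dx_add {α β : ℂ → ℂ} {z : ℂ} (h : DifferentiableAt ℝ α z) (k : DifferentiableAt ℝ β z) :
    dx (α + β) z = dx α z + dx β z := by
  simp only [dx]; rw [fderiv_add h k]; rfl

lemma dy_add {α β : ℂ → ℂ} {z : ℂ} (h : DifferentiableAt ℝ α z) (k : DifferentiableAt ℝ β z) :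
    dy (α + β) z = dy α z + dy β z := by
  simp only [dy]; rw [fderiv_add h k]; rfl

lemma dx_smul {α : ℂ → ℂ} {z : ℂ} (c : ℂ) (h : DifferentiableAt ℝ α z) :
    dx (c • α) z = c * dx α z := by
  simp only [dx]; rw [fderiv_const_smul h]; rfl

lemma dy_smul {α : ℂ → ℂ} {z : ℂ} (c : ℂ) (h : DifferentiableAt ℝ α z) :
    dy (c • α) z = c * dy α z := by
  simp only [dy]; rw [fderiv_const_smul h]; rfl

lemma dx_zero_of_notMem {F : Type*} [NormedAddCommGroup F] [NormedSpace ℝ F] {α : ℂ → F} {z : ℂ}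
    (h : z ∉ tsupport α) : dx α z = 0 := by
  simp only [dx]; rw [fderiv_of_notMem_tsupport (𝕜 := ℝ) h]; rfl

lemma dy_zero_of_notMem {F : Type*} [NormedAddCommGroup F] [NormedSpace ℝ F] {α : ℂ → F} {z : ℂ}
    (h : z ∉ tsupport α) : dy α z = 0 := by
  simp only [dy]; rw [fderiv_of_notMem_tsupport (𝕜 := ℝ) h]; rfl

lemma continuous_dx {α : ℂ → ℂ} (h : ContDiff ℝ 2 α) : Continuous (dx α) :=
  (h.continuous_fderiv (by norm_num)).clm_apply continuous_const

lemma continuous_dy {α : ℂ → ℂ} (h : ContDiff ℝ 2 α) : Continuous (dy α) :=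
  (h.continuous_fderiv (by norm_num)).clm_apply continuous_const

/-- a function vanishing off a compact subset of `Ω` and continuous on `Ω` is continuous -/
lemma cont_of_supp {F : Type*} [NormedAddCommGroup F] {Ω K : Set ℂ} (hK : IsCompact K)
    (hKΩ : K ⊆ Ω) {f : ℂ → F} (h0 : ∀ z, z ∉ K → f z = 0) (hf : ∀ z ∈ Ω, ContinuousAt f z) :
    Continuous f ∧ HasCompactSupport f := by
  have hs : tsupport f ⊆ K := by
    apply closure_minimal _ hK.isClosed
    intro z hz
    by_contra hz'
    exact hz (h0 z hz')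
  refine ⟨?_, hK.of_isClosed_subset (isClosed_tsupport f) hs⟩
  apply continuous_of_tsupport
  intro z hz
  exact hf z (hKΩ (hs hz))

/-- the weighted `∂̄` operator applied to a test function -/
noncomputable def wdbar (φ : ℂ → ℝ) (α : ℂ → ℂ) (z : ℂ) : ℂ :=
  (dx α z + Complex.I * dy α z) * (Real.exp (φ z / 2) : ℂ)

lemma wdbar_cont {Ω : Set ℂ} {φ : ℂ → ℝ} (hφ : ∀ z ∈ Ω, ContDiffAt ℝ 2 φ z)
    {α : ℂ → ℂ} (hα : ContDiff ℝ 2 α) (hαc : HasCompactSupport α) (hαΩ : tsupport α ⊆ Ω) :
    Continuous (wdbar φ α) ∧ HasCompactSupport (wdbar φ α) := by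
  apply cont_of_supp hαc hαΩ
  · intro z hz
    simp [wdbar, dx_zero_of_notMem hz, dy_zero_of_notMem hz]
  · intro z hz
    have e1 : ContinuousAt φ z := (hφ z hz).continuousAt
    have e2 := (continuous_dx hα).continuousAt (x := z)
    have e3 := (continuous_dy hα).continuousAt (x := z)
    unfold wdbar
    fun_prop

lemma norm_wdbar_sq (φ : ℂ → ℝ) (α : ℂ → ℂ) (z : ℂ) :
    ‖wdbar φ α z‖ ^ 2 = ‖dx α z + Complex.I * dy α z‖ ^ 2 * Real.exp (φ z) := by
  rw [wdbar, norm_mul, mul_pow, Complex.norm_real, Real.norm_eq_abs, abs_of_pos (Real.exp_pos _),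
    ← Real.exp_nat_mul]
  congr 2; push_cast; ring

lemma norm_toLp_sq {f : ℂ → ℂ} (hf : MemLp f 2 volume) : ‖hf.toLp f‖ ^ 2 = ∫ z, ‖f z‖ ^ 2 := by
  have h1 : (⟪hf.toLp f, hf.toLp f⟫_ℂ) = ((‖hf.toLp f‖ ^ 2 : ℝ) : ℂ) := by
    rw [inner_self_eq_norm_sq_to_K]; norm_cast
  rw [L2.inner_def] at h1
  have h2 : ∫ a, ⟪(hf.toLp f : ℂ → ℂ) a, (hf.toLp f : ℂ → ℂ) a⟫_ℂ =
      ((∫ z, ‖f z‖ ^ 2 : ℝ) : ℂ) := by
    rw [← integral_complex_ofReal]
    apply integral_congr_ae
    filter_upwards [hf.coeFn_toLp] with z hz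
    rw [hz, inner_self_eq_norm_sq_to_K]; norm_cast
  rw [h2] at h1
  exact_mod_cast h1.symm

/-- integration by parts -/
lemma int_parts {χ α : ℂ → ℂ} (hχ : ContDiff ℝ 2 χ) (hχc : HasCompactSupport χ)
    (hα : ContDiff ℝ 2 α) (hαc : HasCompactSupport α) :
    ∫ z, χ z * (dx α z + Complex.I * dy α z) = - ∫ z, (dx χ z + Complex.I * dy χ z) * α z := by
  have hχd : Differentiable ℝ χ := hχ.differentiable (by norm_num)
  have hαd : Differentiable ℝ α := hα.differentiable (by norm_num)
  have hχ0 := hχ.continuous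
  have hα0 := hα.continuous
  have i1 : ∀ v : ℂ, Integrable (fun z => fderiv ℝ χ z v * α z) volume := by
    intro v
    apply Continuous.integrable_of_hasCompactSupport
    · exact ((hχ.continuous_fderiv (by norm_num)).clm_apply continuous_const).mul hα0
    · exact hαc.mul_left
  have i2 : ∀ v : ℂ, Integrable (fun z => χ z * fderiv ℝ α z v) volume := by
    intro v
    apply Continuous.integrable_of_hasCompactSupport
    · exact hχ0.mul ((hα.continuous_fderiv (by norm_num)).clm_apply continuous_const)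
    · exact hχc.mul_right
  have i3 : Integrable (fun z => χ z * α z) volume := by
    apply Continuous.integrable_of_hasCompactSupport (hχ0.mul hα0) hχc.mul_right
  have key : ∀ v : ℂ, ∫ z, χ z * fderiv ℝ α z v = - ∫ z, fderiv ℝ χ z v * α z := fun v =>
    integral_mul_fderiv_eq_neg_fderiv_mul_of_integrable (i1 v) (i2 v) i3
      (fun x _ => hχd x) (fun x _ => hαd x)
  have e1 : ∫ z, χ z * (dx α z + Complex.I * dy α z) =
      (∫ z, χ z * fderiv ℝ α z 1) + Complex.I * ∫ z, χ z * fderiv ℝ α z Complex.I := by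
    rw [← integral_const_mul, ← integral_add (i2 1) ((i2 Complex.I).const_mul _)]
    apply integral_congr_ae (Eventually.of_forall _)
    intro z
    simp only [dx, dy]; ring
  have e2 : ∫ z, (dx χ z + Complex.I * dy χ z) * α z =
      (∫ z, fderiv ℝ χ z 1 * α z) + Complex.I * ∫ z, fderiv ℝ χ z Complex.I * α z := by
    rw [← integral_const_mul, ← integral_add (i1 1) ((i1 Complex.I).const_mul _)]
    apply integral_congr_ae (Eventually.of_forall _)
    intro z
    simp only [dx, dy]; ring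
  rw [e1, e2, key, key]
  ring

lemma cauchy_schwarz {f g : ℂ → ℝ} (hf0 : ∀ z, 0 ≤ f z) (hg0 : ∀ z, 0 ≤ g z)
    (hf : MemLp f 2 volume) (hg : MemLp g 2 volume) :
    ∫ z, f z * g z ≤ √(∫ z, f z ^ 2) * √(∫ z, g z ^ 2) := by
  have h2 : ENNReal.ofReal 2 = 2 := by simp
  have h := integral_mul_le_Lp_mul_Lq_of_nonneg (μ := (volume : Measure ℂ)) (p := 2) (q := 2)
    Real.HolderConjugate.two_two (Eventually.of_forall hf0) (Eventually.of_forall hg0)
    (by rw [h2]; exact hf) (by rw [h2]; exact hg)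
  rw [← Real.sqrt_eq_rpow, ← Real.sqrt_eq_rpow] at h
  simpa using h

/-- Existence of a weak solution with the Hörmander bound. -/
theorem weak_solution {Ω : Set ℂ} (hΩ : IsOpen Ω) {φ : ℂ → ℝ}
    (hφ : ∀ z ∈ Ω, ContDiffAt ℝ 2 φ z) (hpos : ∀ z ∈ Ω, 0 < lap φ z) {χ : ℂ → ℂ}
    (hχ : ContDiff ℝ 2 χ) (hχc : HasCompactSupport χ) (hχΩ : tsupport χ ⊆ Ω) :
    ∃ u : ℂ → ℂ, MemLp u 2 volume ∧
      ∫ z, ‖u z‖ ^ 2 ≤ ∫ z, ‖dx χ z + Complex.I * dy χ z‖ ^ 2 / lap φ z * Real.exp (-φ z) ∧
      ∀ α : ℂ → ℂ, ContDiff ℝ 2 α → HasCompactSupport α → tsupport α ⊆ Ω →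
        ∫ z, χ z * (dx α z + Complex.I * dy α z) = ∫ z, conj (u z) * wdbar φ α z := by
  set G := ∫ z, ‖dx χ z + Complex.I * dy χ z‖ ^ 2 / lap φ z * Real.exp (-φ z) with hG
  have hlapc : ∀ z ∈ Ω, ContinuousAt (lap φ) z := by
    intro z hz
    exact (continuousAt_dx (contDiffAt_dx (hφ z hz))).add (continuousAt_dy (contDiffAt_dy (hφ z hz)))
  have hG0 : 0 ≤ G := by
    apply integral_nonneg
    intro z
    by_cases hz : z ∈ Ω
    · have := hpos z hz
      positivity
    · have hz' : z ∉ tsupport χ := fun h => hz (hχΩ h)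
      simp [dx_zero_of_notMem hz', dy_zero_of_notMem hz']
  -- the linear maps
  let A : testSpace Ω →ₗ[ℂ] Lp ℂ 2 (volume : Measure ℂ) :=
    { toFun := fun α => ((wdbar_cont hφ α.2.1 α.2.2.1 α.2.2.2).1.memLp_of_hasCompactSupport
        (wdbar_cont hφ α.2.1 α.2.2.1 α.2.2.2).2).toLp (wdbar φ α)
      map_add' := by
        intro α β
        rw [← MemLp.toLp_add]
        congr 1
        ext z
        have ha := (α.2.1.differentiable (by norm_num)) z
        have hb := (β.2.1.differentiable (by norm_num)) z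
        simp only [wdbar, Submodule.coe_add, Pi.add_apply, dx_add ha hb, dy_add ha hb]
        ring
      map_smul' := by
        intro c α
        rw [RingHom.id_apply, ← MemLp.toLp_const_smul]
        congr 1
        ext z
        have ha := (α.2.1.differentiable (by norm_num)) z
        simp only [wdbar, Submodule.coe_smul, Pi.smul_apply, dx_smul c ha, dy_smul c ha,
          smul_eq_mul]
        ring }
  have hint : ∀ α : testSpace Ω, Integrable
      (fun z => χ z * (dx (α : ℂ → ℂ) z + Complex.I * dy (α : ℂ → ℂ) z)) volume := by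
    intro α
    apply Continuous.integrable_of_hasCompactSupport
    · exact hχ.continuous.mul ((continuous_dx α.2.1).add (continuous_const.mul
        (continuous_dy α.2.1)))
    · exact hχc.mul_right
  let l : testSpace Ω →ₗ[ℂ] ℂ :=
    { toFun := fun α => ∫ z, χ z * (dx (α : ℂ → ℂ) z + Complex.I * dy (α : ℂ → ℂ) z)
      map_add' := by
        intro α β
        rw [← integral_add (hint α) (hint β)]
        apply integral_congr_ae (Eventually.of_forall _)
        intro z
        have ha := (α.2.1.differentiable (by norm_num)) z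
        have hb := (β.2.1.differentiable (by norm_num)) z
        simp only [Submodule.coe_add, dx_add ha hb, dy_add ha hb]
        ring
      map_smul' := by
        intro c α
        rw [RingHom.id_apply, smul_eq_mul, ← integral_const_mul]
        apply integral_congr_ae (Eventually.of_forall _)
        intro z
        have ha := (α.2.1.differentiable (by norm_num)) z
        simp only [Submodule.coe_smul, dx_smul c ha, dy_smul c ha]
        ring }
  have hbound : ∀ α, ‖l α‖ ≤ √G * ‖A α‖ := by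
    rintro ⟨α, hα, hαc, hαΩ⟩
    have h1 : l ⟨α, hα, hαc, hαΩ⟩ = - ∫ z, (dx χ z + Complex.I * dy χ z) * α z :=
      int_parts hχ hχc hα hαc
    rw [h1, norm_neg]
    set f : ℂ → ℝ := fun z => ‖dx χ z + Complex.I * dy χ z‖ * Real.exp (-φ z / 2) / √(lap φ z)
      with hf
    set g : ℂ → ℝ := fun z => √(lap φ z) * ‖α z‖ * Real.exp (φ z / 2) with hg
    have hfg : ∀ z, ‖(dx χ z + Complex.I * dy χ z) * α z‖ = f z * g z := by
      intro z
      rw [norm_mul]
      by_cases hz : z ∈ Ω
      · have hs : √(lap φ z) ≠ 0 := (Real.sqrt_pos.2 (hpos z hz)).ne'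
        have he : Real.exp (-φ z / 2) * Real.exp (φ z / 2) = 1 := by
          rw [← Real.exp_add]; simp; ring_nf
        simp only [hf, hg]
        calc ‖dx χ z + Complex.I * dy χ z‖ * ‖α z‖
            = ‖dx χ z + Complex.I * dy χ z‖ * ‖α z‖ *
              (Real.exp (-φ z / 2) * Real.exp (φ z / 2)) := by rw [he, mul_one]
          _ = _ := by field_simp
      · have hz' : z ∉ tsupport χ := fun h => hz (hχΩ h)
        simp [hf, dx_zero_of_notMem hz', dy_zero_of_notMem hz']
    have hf0 : ∀ z, 0 ≤ f z := fun z => by simp only [hf]; positivity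
    have hg0 : ∀ z, 0 ≤ g z := fun z => by simp only [hg]; positivity
    have hfc : Continuous f ∧ HasCompactSupport f := by
      apply cont_of_supp hχc hχΩ
      · intro z hz
        simp [hf, dx_zero_of_notMem hz, dy_zero_of_notMem hz]
      · intro z hz
        have e1 : ContinuousAt φ z := (hφ z hz).continuousAt
        have e2 := (continuous_dx hχ).continuousAt (x := z)
        have e3 := (continuous_dy hχ).continuousAt (x := z)
        have e4 := hlapc z hz
        have e5 : √(lap φ z) ≠ 0 := (Real.sqrt_pos.2 (hpos z hz)).ne'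
        have e6 : ContinuousAt (fun z => √(lap φ z)) z := e4.sqrt
        have e7 : ContinuousAt (fun z => ‖dx χ z + Complex.I * dy χ z‖ * Real.exp (-φ z / 2)) z := by
          fun_prop
        exact e7.div e6 e5
    have hgc : Continuous g ∧ HasCompactSupport g := by
      apply cont_of_supp hαc hαΩ
      · intro z hz
        simp [hg, image_eq_zero_of_notMem_tsupport hz]
      · intro z hz
        have e1 : ContinuousAt φ z := (hφ z hz).continuousAt
        have e4 := hlapc z hz
        have e6 : ContinuousAt (fun z => √(lap φ z)) z := e4.sqrt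
        have e7 : ContinuousAt α z := hα.continuous.continuousAt
        simp only [hg]
        fun_prop
    have hfm : MemLp f 2 volume := hfc.1.memLp_of_hasCompactSupport hfc.2
    have hgm : MemLp g 2 volume := hgc.1.memLp_of_hasCompactSupport hgc.2
    have hCS := cauchy_schwarz hf0 hg0 hfm hgm
    have hf2 : ∫ z, f z ^ 2 = G := by
      rw [hG]
      apply integral_congr_ae (Eventually.of_forall _)
      intro z
      simp only [hf]
      by_cases hz : z ∈ Ω
      · have hs : √(lap φ z) ^ 2 = lap φ z := Real.sq_sqrt (hpos z hz).le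
        have he : Real.exp (-φ z / 2) ^ 2 = Real.exp (-φ z) := by
          rw [← Real.exp_nat_mul]; congr 1; push_cast; ring
        rw [div_pow, mul_pow, hs, he]
        ring
      · have hz' : z ∉ tsupport χ := fun h => hz (hχΩ h)
        simp [dx_zero_of_notMem hz', dy_zero_of_notMem hz']
    have hg2 : ∫ z, g z ^ 2 ≤ ‖A ⟨α, hα, hαc, hαΩ⟩‖ ^ 2 := by
      have hA : ‖A ⟨α, hα, hαc, hαΩ⟩‖ ^ 2 =
          ∫ z, ‖dx α z + Complex.I * dy α z‖ ^ 2 * Real.exp (φ z) := by
        have h3 := norm_toLp_sq ((wdbar_cont hφ hα hαc hαΩ).1.memLp_of_hasCompactSupport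
          (wdbar_cont hφ hα hαc hαΩ).2 (p := 2) (μ := volume))
        simp_rw [norm_wdbar_sq] at h3
        exact h3
      rw [hA]
      have h4 := basic_ineq hΩ hφ hα hαc hαΩ
      refine le_trans (le_of_eq ?_) h4
      apply integral_congr_ae (Eventually.of_forall _)
      intro z
      simp only [hg]
      by_cases hz : z ∈ Ω
      · have hs : √(lap φ z) ^ 2 = lap φ z := Real.sq_sqrt (hpos z hz).le
        have he : Real.exp (φ z / 2) ^ 2 = Real.exp (φ z) := by
          rw [← Real.exp_nat_mul]; congr 1; push_cast; ring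
        rw [mul_pow, mul_pow, hs, he]
      · have hz' : z ∉ tsupport α := fun h => hz (hαΩ h)
        simp [image_eq_zero_of_notMem_tsupport hz']
    calc ‖∫ z, (dx χ z + Complex.I * dy χ z) * α z‖
        ≤ ∫ z, ‖(dx χ z + Complex.I * dy χ z) * α z‖ := norm_integral_le_integral_norm _
      _ = ∫ z, f z * g z := by simp_rw [hfg]
      _ ≤ √(∫ z, f z ^ 2) * √(∫ z, g z ^ 2) := hCS
      _ ≤ √G * ‖A ⟨α, hα, hαc, hαΩ⟩‖ := by
          rw [hf2]
          apply mul_le_mul_of_nonneg_left _ (Real.sqrt_nonneg _)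
          rw [Real.sqrt_le_left (norm_nonneg _)]
          exact hg2
  obtain ⟨u, hu1, hu2⟩ := riesz A l (Real.sqrt_nonneg G) hbound
  refine ⟨u, Lp.memLp u, ?_, ?_⟩
  · have h1 : ‖u‖ ^ 2 = ∫ z, ‖(u : ℂ → ℂ) z‖ ^ 2 := by
      have h2 := norm_toLp_sq (Lp.memLp u)
      rwa [Lp.toLp_coeFn] at h2
    rw [← h1]
    calc ‖u‖ ^ 2 ≤ (√G) ^ 2 := pow_le_pow_left₀ (norm_nonneg _) hu1 2
      _ = G := Real.sq_sqrt hG0
  · intro α hα hαc hαΩ
    have h1 := hu2 ⟨α, hα, hαc, hαΩ⟩
    have h2 : l ⟨α, hα, hαc, hαΩ⟩ = ∫ z, χ z * (dx α z + Complex.I * dy α z) := rfl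
    rw [← h2, h1, L2.inner_def]
    apply integral_congr_ae
    have h3 := ((wdbar_cont hφ hα hαc hαΩ).1.memLp_of_hasCompactSupport
          (wdbar_cont hφ hα hαc hαΩ).2 (p := 2) (μ := volume)).coeFn_toLp
    filter_upwards [h3] with z hz
    have h4 : (A ⟨α, hα, hαc, hαΩ⟩ : ℂ → ℂ) z = wdbar φ α z := hz
    rw [h4]
    simp only [RCLike.inner_apply]
    ring

end MinMod
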