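import Mathlib

open Filter MeasureTheory Metric Real Set Topology

namespace MinMod

/-- the unnormalised radial bump -/
noncomputable def bump0 (w : ℂ) : ℝ := Real.smoothTransition (1 - ‖w‖ ^ 2)

lemma bump0_contDiff : ContDiff ℝ 2 bump0 := by
  unfold bump0
  exact Real.smoothTransition.contDiff.comp (contDiff_const.sub (contDiff_norm_sq ℝ))

lemma bump0_zero {w : ℂ} (h : 1 ≤ ‖w‖) : bump0 w = 0 := by
  apply Real.smoothTransition.zero_of_nonpos
  nlinarith

lemma bump0_nonneg (w : ℂ) : 0 ≤ bump0 w := Real.smoothTransition.nonneg _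

lemma bump0_le_one (w : ℂ) : bump0 w ≤ 1 := Real.smoothTransition.le_one _

lemma bump0_compact : HasCompactSupport bump0 := by
  apply HasCompactSupport.intro (isCompact_closedBall (0 : ℂ) 1)
  intro w hw
  apply bump0_zero
  simp only [mem_closedBall, dist_zero_right, not_le] at hw
  exact hw.le

lemma bump0_integral_pos : 0 < ∫ w, bump0 w := by
  apply bump0_contDiff.continuous.integral_pos_of_hasCompactSupport_nonneg_nonzero bump0_compact
    bump0_nonneg (x := 0)
  simp [bump0]

/-- the normalising constant -/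
noncomputable def bumpK : ℝ := (∫ w, bump0 w)⁻¹

lemma bumpK_pos : 0 < bumpK := inv_pos.2 bump0_integral_pos

lemma exists_radial {δ : ℝ} (hδ : 0 < δ) : ∃ ρ : ℂ → ℝ, ContDiff ℝ 2 ρ ∧
    (∀ w, δ ≤ ‖w‖ → ρ w = 0) ∧ (∀ ζ w : ℂ, ‖ζ‖ = 1 → ρ (ζ * w) = ρ w) ∧ (∀ w, 0 ≤ ρ w) ∧
    (∀ w, ρ w ≤ bumpK / δ ^ 2) ∧ ∫ w, ρ w = 1 := by
  have hK := bumpK_pos
  refine ⟨fun w => bumpK / δ ^ 2 * bump0 (δ⁻¹ • w), ?_, ?_, ?_, ?_, ?_, ?_⟩
  · exact contDiff_const.mul (bump0_contDiff.comp (contDiff_const_smul _))
  · intro w hw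
    have h1 : bump0 (δ⁻¹ • w) = 0 := by
      apply bump0_zero
      rw [norm_smul, norm_inv, Real.norm_eq_abs, abs_of_pos hδ, inv_mul_eq_div, one_le_div hδ]
      exact hw
    simp only [h1, mul_zero]
  · intro ζ w hζ
    simp [bump0, hζ]
  · intro w
    have := bump0_nonneg (δ⁻¹ • w)
    positivity
  · intro w
    have h1 := bump0_le_one (δ⁻¹ • w)
    have : 0 < bumpK / δ ^ 2 := by positivity
    nlinarith
  · rw [integral_const_mul, Measure.integral_comp_smul volume bump0 δ⁻¹, Complex.finrank_real_complex]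
    rw [inv_pow, inv_inv, abs_of_pos (by positivity), smul_eq_mul, bumpK]
    have := bump0_integral_pos
    field_simp

/-- Mean value property with a radial kernel. -/
theorem radial_mean {G : ℂ → ℂ} {z : ℂ} {r s : ℝ} (hs : 0 < s) (hsr : s < r)
    (hG : DifferentiableOn ℂ G (ball z r)) {ρ : ℂ → ℝ} (hρc : Continuous ρ)
    (hρ0 : ∀ w, s ≤ ‖w‖ → ρ w = 0) (hρr : ∀ ζ w : ℂ, ‖ζ‖ = 1 → ρ (ζ * w) = ρ w) :
    ∫ w, (ρ w : ℂ) * G (z - w) = ((∫ w, ρ w : ℝ) : ℂ) * G z := by
  set H : ℂ → ℂ := fun w => (ρ w : ℂ) * G (z - w) with hH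
  have hH0 : ∀ w, s ≤ ‖w‖ → H w = 0 := fun w hw => by simp [hH, hρ0 w hw]
  have hsupp : tsupport H ⊆ closedBall 0 s := by
    apply closure_minimal _ isClosed_closedBall
    intro w hw
    by_contra hcon
    apply hw
    apply hH0
    simp only [mem_closedBall, dist_zero_right, not_le] at hcon
    exact hcon.le
  have hHc : Continuous H := by
    apply continuous_of_tsupport
    intro w hw
    have hw' := hsupp hw
    rw [mem_closedBall, dist_zero_right] at hw'
    have hmem : z - w ∈ ball z r := by
      rw [mem_ball, dist_eq_norm]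
      simpa using lt_of_le_of_lt hw' hsr
    have h1 : ContinuousAt G (z - w) :=
      (hG.differentiableAt (isOpen_ball.mem_nhds hmem)).continuousAt
    have h2 : ContinuousAt (fun w => G (z - w)) w := by
      apply ContinuousAt.comp (g := G) (f := fun w => z - w) h1
      fun_prop
    have h3 : ContinuousAt (fun w => (ρ w : ℂ)) w :=
      (Complex.continuous_ofReal.comp hρc).continuousAt
    exact h3.mul h2
  have hHcs : HasCompactSupport H :=
    (isCompact_closedBall (0 : ℂ) s).of_isClosed_subset (isClosed_tsupport H) hsupp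
  obtain ⟨M, hM⟩ := hHcs.exists_bound_of_continuous hHc
  -- rotation invariance
  have hrot : ∀ θ : ℝ, ∫ w, H (circleMap 0 1 θ * w) = ∫ w, H w := by
    intro θ
    have hn : ‖circleMap 0 1 θ‖ = 1 := by simp
    let c : Circle := ⟨circleMap 0 1 θ, mem_sphere_zero_iff_norm.2 hn⟩
    have h1 := (rotation c).measurePreserving.integral_comp
      (rotation c).toHomeomorph.measurableEmbedding H
    have h2 : ∀ w, rotation c w = circleMap 0 1 θ * w := fun w => rotation_apply c w
    simp_rw [h2] at h1
    exact h1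
  have hnorm : ∀ (θ : ℝ) (w : ℂ), ‖circleMap 0 1 θ * w‖ = ‖w‖ := by
    intro θ w; simp
  -- Fubini
  set μ : Measure ℝ := volume.restrict (Ioc 0 (2 * π)) with hμ
  have hfin : IsFiniteMeasure μ := by rw [hμ]; infer_instance
  have hint : Integrable (Function.uncurry fun (θ : ℝ) (w : ℂ) => H (circleMap 0 1 θ * w))
      (μ.prod volume) := by
    have hb : Integrable (fun p : ℝ × ℂ => (1 : ℝ) *
        (closedBall (0 : ℂ) s).indicator (fun _ => M) p.2) (μ.prod volume) := by
      apply Integrable.mul_prod (f := fun _ : ℝ => (1 : ℝ))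
        (g := (closedBall (0 : ℂ) s).indicator (fun _ => M))
      · exact integrable_const _
      · rw [integrable_indicator_iff isClosed_closedBall.measurableSet]
        exact integrableOn_const (isCompact_closedBall (0 : ℂ) s).measure_lt_top.ne
    apply hb.mono'
    · apply Continuous.aestronglyMeasurable
      have : Continuous (fun p : ℝ × ℂ => circleMap 0 1 p.1 * p.2) :=
        ((continuous_circleMap 0 1).comp continuous_fst).mul continuous_snd
      exact hHc.comp this
    · apply Eventually.of_forall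
      rintro ⟨θ, w⟩
      simp only [Function.uncurry_apply_pair, one_mul]
      by_cases hw : w ∈ closedBall (0 : ℂ) s
      · rw [indicator_of_mem hw]; exact hM _
      · rw [indicator_of_notMem hw, hH0, norm_zero]
        rw [hnorm]
        simp only [mem_closedBall, dist_zero_right, not_le] at hw
        exact hw.le
  have hswap := integral_integral_swap hint
  have hl : ∫ θ, (∫ w, H (circleMap 0 1 θ * w)) ∂μ = (2 * π : ℝ) • ∫ w, H w := by
    simp_rw [hrot]
    rw [integral_const]
    congr 1
    rw [hμ, measureReal_restrict_apply MeasurableSet.univ, univ_inter]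
    simp [Measure.real, Real.pi_pos.le]
  have hr : ∀ w, ∫ θ, H (circleMap 0 1 θ * w) ∂μ = (ρ w : ℂ) * ((2 * π : ℝ) • G z) := by
    intro w
    by_cases hw : s ≤ ‖w‖
    · have : ∀ θ : ℝ, H (circleMap 0 1 θ * w) = 0 := fun θ => hH0 _ (by rw [hnorm]; exact hw)
      simp [this, hρ0 w hw]
    · push Not at hw
      have h1 : ∀ θ : ℝ, H (circleMap 0 1 θ * w) = (ρ w : ℂ) * G (z - circleMap 0 1 θ * w) := by
        intro θ
        simp only [hH]
        rw [hρr _ _ (by simp)]
      simp_rw [h1]
      rw [integral_const_mul]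
      congr 1
      -- circle average of `ξ ↦ G (z - ξ w)`
      have h2 : DiffContOnCl ℂ (fun ξ => G (z - ξ * w)) (ball 0 |1|) := by
        apply DifferentiableOn.diffContOnCl
        rw [abs_one, closure_ball (0 : ℂ) one_ne_zero]
        apply hG.comp (by fun_prop)
        intro ξ hξ
        rw [mem_closedBall, dist_zero_right] at hξ
        rw [mem_ball, dist_eq_norm]
        have : ‖z - ξ * w - z‖ = ‖ξ‖ * ‖w‖ := by
          rw [sub_sub_cancel_left, norm_neg, norm_mul]
        rw [this]
        nlinarith [norm_nonneg ξ, norm_nonneg w]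
      have h3 := h2.circleAverage
      simp only [zero_mul, sub_zero] at h3
      rw [circleAverage_def, intervalIntegral.integral_of_le (by positivity)] at h3
      rw [hμ, ← h3, smul_smul, mul_inv_cancel₀ (by positivity), one_smul]
  rw [hl] at hswap
  simp_rw [hr] at hswap
  rw [integral_mul_const] at hswap
  have hπ : ((2 * π : ℝ) : ℂ) ≠ 0 := by
    have : (2 * π : ℝ) ≠ 0 := by positivity
    exact_mod_cast this
  rw [Complex.real_smul, Complex.real_smul, integral_complex_ofReal] at hswap
  have h5 : ((2 * π : ℝ) : ℂ) * (∫ w, H w) = ((2 * π : ℝ) : ℂ) * (((∫ w, ρ w : ℝ) : ℂ) * G z) := by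
    rw [hswap]; ring
  exact mul_left_cancel₀ hπ h5

end MinMod
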