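import Mathlib
import Pool.Agent.Work.MP_06ac62_an.Calc
import Pool.Agent.Work.MP_06ac62_an.Radial

open Filter MeasureTheory Metric Real Set Topology ContinuousLinearMap
open scoped Convolution

namespace MinMod

/-- convolution of a scalar kernel with a complex valued function -/
noncomputable def cv (ρ : ℂ → ℝ) (f : ℂ → ℂ) : ℂ → ℂ := ρ ⋆[lsmul ℝ ℝ, volume] f

lemma cv_apply (ρ : ℂ → ℝ) (f : ℂ → ℂ) (z : ℂ) : cv ρ f z = ∫ w, (ρ w : ℂ) * f (z - w) := by
  simp only [cv, convolution_def, lsmul_apply, Complex.real_smul]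

lemma cv_flip (ρ : ℂ → ℝ) (f : ℂ → ℂ) :
    cv ρ f = f ⋆[(lsmul ℝ ℝ : ℝ →L[ℝ] ℂ →L[ℝ] ℂ).flip, volume] ρ := (convolution_flip _).symm

lemma cv_holo {Ω : Set ℂ} {f : ℂ → ℂ} (hf : LocallyIntegrable f volume)
    (hweak : ∀ α : ℂ → ℂ, ContDiff ℝ 2 α → HasCompactSupport α → tsupport α ⊆ Ω →
      ∫ z, f z * (dx α z + Complex.I * dy α z) = 0)
    {ρ : ℂ → ℝ} (hρ : ContDiff ℝ 2 ρ) (hρc : HasCompactSupport ρ) {z : ℂ} {K : Set ℂ}
    (hK : IsCompact K) (hKΩ : K ⊆ Ω) (hsupp : ∀ w, w ∉ K → ρ (z - w) = 0) :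
    DifferentiableAt ℂ (cv ρ f) z := by
  have hρ1 : ContDiff ℝ 1 ρ := hρ.of_le (by norm_num)
  set L : ℂ →L[ℝ] ℝ →L[ℝ] ℂ := (lsmul ℝ ℝ : ℝ →L[ℝ] ℂ →L[ℝ] ℂ).flip with hL
  have hder := hρc.hasFDerivAt_convolution_right L hf hρ1 z
  rw [hL, ← cv_flip, ← hL] at hder
  have hval : ∀ v : ℂ, fderiv ℝ (cv ρ f) z v = ∫ w, (fderiv ℝ ρ (z - w) v : ℂ) * f w := by
    intro v
    rw [hder.fderiv, convolution_precompR_apply L hf (hρc.fderiv ℝ)
      (hρ1.continuous_fderiv (by norm_num))]
    rw [convolution_def]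
    apply integral_congr_ae (Eventually.of_forall _)
    intro w
    simp [hL]
  rw [differentiableAt_complex_iff_differentiableAt_real]
  refine ⟨hder.differentiableAt, ?_⟩
  -- the test function
  set α : ℂ → ℂ := fun w => ((ρ (z - w) : ℝ) : ℂ) with hα
  have hαC : ContDiff ℝ 2 α :=
    Complex.ofRealCLM.contDiff.comp (hρ.comp (contDiff_const.sub contDiff_id))
  have hαK : tsupport α ⊆ K := by
    apply closure_minimal _ hK.isClosed
    intro w hw
    by_contra hcon
    apply hw
    simp [hα, hsupp w hcon]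
  have hαc : HasCompactSupport α := hK.of_isClosed_subset (isClosed_tsupport α) hαK
  have hαd : ∀ w v : ℂ, fderiv ℝ α w v = -((fderiv ℝ ρ (z - w) v : ℝ) : ℂ) := by
    intro w v
    have h1 : HasFDerivAt ρ (fderiv ℝ ρ (z - w)) (z - w) :=
      (hρ.differentiable (by norm_num) _).hasFDerivAt
    have h2 : HasFDerivAt (fun w : ℂ => z - w) (-(ContinuousLinearMap.id ℝ ℂ)) w := by
      simpa using (hasFDerivAt_id (𝕜 := ℝ) w).const_sub z
    have h3 := h1.comp w h2
    have h4 : HasFDerivAt α (Complex.ofRealCLM.comp ((fderiv ℝ ρ (z - w)).comp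
        (-(ContinuousLinearMap.id ℝ ℂ)))) w := Complex.ofRealCLM.hasFDerivAt.comp w h3
    rw [h4.fderiv]
    simp
  have hw := hweak α hαC hαc (hαK.trans hKΩ)
  -- integrability of the two pieces
  have hint : ∀ v : ℂ, Integrable (fun w => (fderiv ℝ ρ (z - w) v : ℂ) * f w) volume := by
    intro v
    have h1 : HasCompactSupport (fun w => ((fderiv ℝ ρ (z - w) v : ℝ) : ℂ)) := by
      have h2 : HasCompactSupport (fun w => fderiv ℝ α w v) := hαc.fderiv_apply ℝ v
      have h3 : (fun w => ((fderiv ℝ ρ (z - w) v : ℝ) : ℂ)) = fun w => - (fderiv ℝ α w v) := by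
        ext w; rw [hαd]; simp
      rw [h3]
      exact h2.neg
    have h2 : Continuous (fun w => ((fderiv ℝ ρ (z - w) v : ℝ) : ℂ)) := by
      apply Complex.continuous_ofReal.comp
      exact ((hρ1.continuous_fderiv (by norm_num)).comp
        (continuous_const.sub continuous_id)).clm_apply continuous_const
    have h3 := hf.integrable_smul_left_of_hasCompactSupport h2 h1
    simpa [smul_eq_mul] using h3
  have hsum : (∫ w, (fderiv ℝ ρ (z - w) 1 : ℂ) * f w) +
      Complex.I * ∫ w, (fderiv ℝ ρ (z - w) Complex.I : ℂ) * f w = 0 := by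
    rw [← integral_const_mul, ← integral_add (hint 1) ((hint Complex.I).const_mul _)]
    have h1 : ∫ w, ((fderiv ℝ ρ (z - w) 1 : ℂ) * f w +
        Complex.I * ((fderiv ℝ ρ (z - w) Complex.I : ℂ) * f w)) =
        - ∫ z, f z * (dx α z + Complex.I * dy α z) := by
      rw [← integral_neg]
      apply integral_congr_ae (Eventually.of_forall _)
      intro w
      simp only [dx, dy, hαd]
      ring
    rw [h1, hw, neg_zero]
  rw [hval, hval, smul_eq_mul]
  linear_combination (-Complex.I) * hsum +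
    (∫ w, (fderiv ℝ ρ (z - w) Complex.I : ℂ) * f w) * (Complex.I_sq)

lemma cv_comm {f : ℂ → ℂ} (hf : LocallyIntegrable f volume) {ρ φ : ℂ → ℝ}
    (hρ : Continuous ρ) (hρc : HasCompactSupport ρ) (hφ : Continuous φ)
    (hφc : HasCompactSupport φ) : cv ρ (cv φ f) = cv φ (cv ρ f) := by
  have hfn : LocallyIntegrable (fun x => ‖f x‖) volume := by
    intro x
    obtain ⟨U, hU, hi⟩ := hf x
    exact ⟨U, hU, hi.norm⟩
  have key : ∀ (ρ φ : ℂ → ℝ), Continuous ρ → HasCompactSupport ρ → Continuous φ →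
      HasCompactSupport φ →
      cv ρ (cv φ f) = (ρ ⋆[lsmul ℝ ℝ, volume] φ) ⋆[lsmul ℝ ℝ, volume] f := by
    intro ρ φ hρ hρc hφ hφc
    ext z
    symm
    apply convolution_assoc
    · intro x y w
      simp [mul_assoc]
    · exact hρ.aestronglyMeasurable
    · exact hφ.aestronglyMeasurable
    · exact hf.aestronglyMeasurable
    · exact Eventually.of_forall fun y => hρc.convolutionExists_left _ hρ
        (hφ.locallyIntegrable) y
    · exact Eventually.of_forall fun y => hφc.norm.convolutionExists_left _ hφ.norm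
        hfn y
    · apply hρc.norm.convolutionExists_left _ hρ.norm
      apply Continuous.locallyIntegrable
      exact hφc.norm.continuous_convolution_left _ hφ.norm hfn
  rw [key ρ φ hρ hρc hφ hφc, key φ ρ hφ hφc hρ hρc]
  congr 1
  have h1 : (lsmul ℝ ℝ : ℝ →L[ℝ] ℝ →L[ℝ] ℝ).flip = lsmul ℝ ℝ := by
    ext; simp
  have h2 := convolution_flip (lsmul ℝ ℝ : ℝ →L[ℝ] ℝ →L[ℝ] ℝ) (f := φ) (g := ρ)
    (μ := (volume : Measure ℂ))
  rw [h1] at h2
  exact h2

/-- **Weyl's lemma** for the `∂̄` operator. -/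
theorem weyl {Ω : Set ℂ} (hΩ : IsOpen Ω) {f : ℂ → ℂ} (hf : LocallyIntegrable f volume)
    (hweak : ∀ α : ℂ → ℂ, ContDiff ℝ 2 α → HasCompactSupport α → tsupport α ⊆ Ω →
      ∫ z, f z * (dx α z + Complex.I * dy α z) = 0) :
    ∃ F : ℂ → ℂ, DifferentiableOn ℂ F Ω ∧ F =ᵐ[volume] f := by
  let φ : ℕ → ContDiffBump (0 : ℂ) := fun n =>
    { rIn := 1 / (2 * ((n : ℝ) + 1))
      rOut := 1 / ((n : ℝ) + 1)
      rIn_pos := by positivity
      rIn_lt_rOut := by
        apply one_div_lt_one_div_of_lt (by positivity)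
        have : (0 : ℝ) ≤ n := Nat.cast_nonneg n
        linarith }
  have hφout : Tendsto (fun n => (φ n).rOut) atTop (𝓝 0) := tendsto_one_div_add_atTop_nhds_zero_nat
  have hφrat : ∀ᶠ n in atTop, (φ n).rOut ≤ 2 * (φ n).rIn := by
    apply Eventually.of_forall
    intro n
    show 1 / ((n : ℝ) + 1) ≤ 2 * (1 / (2 * ((n : ℝ) + 1)))
    apply le_of_eq
    field_simp
  set g : ℕ → ℂ → ℂ := fun n => cv ((φ n).normed volume) f with hg
  have hae : ∀ᵐ z ∂(volume : Measure ℂ), Tendsto (fun n => g n z) atTop (𝓝 (f z)) :=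
    ContDiffBump.ae_convolution_tendsto_right_of_locallyIntegrable hφout hφrat hf
  set F : ℂ → ℂ := fun z => limUnder atTop (fun n => g n z) with hF
  have hbumpC : ∀ n, ContDiff ℝ 2 ((φ n).normed (volume : Measure ℂ)) := fun n =>
    (φ n).contDiff_normed
  have hbumpc : ∀ n, HasCompactSupport ((φ n).normed (volume : Measure ℂ)) := fun n =>
    (φ n).hasCompactSupport_normed
  have hbump0 : ∀ n w, (φ n).rOut ≤ ‖w‖ → (φ n).normed volume w = 0 := by
    intro n w hw
    have h1 : w ∉ Function.support ((φ n).normed (volume : Measure ℂ)) := by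
      rw [(φ n).support_normed_eq]
      simpa using hw
    simpa using h1
  refine ⟨F, ?_, ?_⟩
  · intro z₀ hz₀
    obtain ⟨ε, hε, hball⟩ := Metric.isOpen_iff.1 hΩ z₀ hz₀
    set δ := ε / 5 with hδ
    have hδ0 : 0 < δ := by positivity
    obtain ⟨ρ, hρC, hρ0, hρr, _, _, hρ1⟩ := exists_radial hδ0
    have hρc : HasCompactSupport ρ := by
      apply HasCompactSupport.intro (isCompact_closedBall (0 : ℂ) δ)
      intro w hw
      apply hρ0
      simp only [mem_closedBall, dist_zero_right, not_le] at hw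
      exact hw.le
    set F₀ := cv ρ f with hF₀
    have hF₀c : Continuous F₀ :=
      hρc.continuous_convolution_left _ hρC.continuous hf
    have hsub : ∀ z ∈ ball z₀ δ, closedBall z δ ⊆ Ω := by
      intro z hz w hw
      apply hball
      rw [mem_ball] at hz ⊢
      rw [mem_closedBall] at hw
      have := dist_triangle w z z₀
      rw [hδ] at hz hw
      linarith
    -- local identification
    have hloc : ∀ z ∈ ball z₀ δ, Tendsto (fun n => g n z) atTop (𝓝 (F₀ z)) := by
      intro z hz
      have h1 : Tendsto (fun n => cv ((φ n).normed volume) F₀ z) atTop (𝓝 (F₀ z)) :=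
        ContDiffBump.convolution_tendsto_right_of_continuous hφout hF₀c z
      apply h1.congr'
      have h2 : ∀ᶠ n in atTop, (φ n).rOut < δ := hφout.eventually (gt_mem_nhds hδ0)
      filter_upwards [h2] with n hn
      have hrpos : 0 < (φ n).rOut := (φ n).rOut_pos
      have h3 : cv ((φ n).normed volume) F₀ z = cv ρ (g n) z := by
        rw [hF₀, hg]
        simp only
        rw [cv_comm hf (hbumpC n).continuous (hbumpc n) hρC.continuous hρc]
      rw [h3, cv_apply]
      have h4 : DifferentiableOn ℂ (g n) (ball z (2 * δ)) := by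
        intro w hw
        apply DifferentiableAt.differentiableWithinAt
        apply cv_holo hf hweak (hbumpC n) (hbumpc n) (isCompact_closedBall w δ)
        · intro y hy
          apply hball
          rw [mem_ball] at hz hw ⊢
          rw [mem_closedBall] at hy
          have t1 := dist_triangle y w z₀
          have t2 := dist_triangle w z z₀
          rw [hδ] at hz hw hy
          linarith
        · intro y hy
          apply hbump0
          rw [mem_closedBall, dist_comm, dist_eq_norm, not_le] at hy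
          linarith
      rw [radial_mean hδ0 (by linarith : δ < 2 * δ) h4 hρC.continuous hρ0 hρr, hρ1]
      simp
    have heq : ∀ z ∈ ball z₀ δ, F z = F₀ z := fun z hz => (hloc z hz).limUnder_eq
    have hd : DifferentiableAt ℂ F₀ z₀ := by
      apply cv_holo hf hweak hρC hρc (isCompact_closedBall z₀ δ) (hsub z₀ (mem_ball_self hδ0))
      intro y hy
      apply hρ0
      rw [mem_closedBall, dist_comm, dist_eq_norm, not_le] at hy
      exact hy.le
    apply DifferentiableAt.differentiableWithinAt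
    apply hd.congr_of_eventuallyEq
    filter_upwards [ball_mem_nhds z₀ hδ0] with z hz
    exact heq z hz
  · filter_upwards [hae] with z hz
    exact hz.limUnder_eq

end MinMod
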