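import Mathlib
import Pool.Agent.Work.MP_06ac62_an.Weak
import Pool.Agent.Work.MP_06ac62_an.Weyl

open Filter MeasureTheory Metric Real Set Topology
open scoped ComplexConjugate

namespace MinMod

/-- One dimensional Hörmander theorem with a weight that may have `-∞` poles on a null set. -/
theorem hormander {Z : Set ℂ} (hZ : IsClosed Z) (hZ0 : volume Z = 0) {φ : ℂ → ℝ}
    (hφ : ∀ z ∈ Zᶜ, ContDiffAt ℝ 2 φ z) (hpos : ∀ z ∈ Zᶜ, 0 < lap φ z)
    (hbd : ∀ R : ℝ, ∃ M : ℝ, ∀ z ∈ Zᶜ, ‖z‖ ≤ R → φ z ≤ M) {χ : ℂ → ℂ}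
    (hχ : ContDiff ℝ 2 χ) (hχc : HasCompactSupport χ) (hχΩ : tsupport χ ⊆ Zᶜ) :
    ∃ F : ℂ → ℂ, DifferentiableOn ℂ F Zᶜ ∧
      Integrable (fun z => ‖F z - χ z‖ ^ 2 * Real.exp (-φ z)) volume ∧
      ∫ z, ‖F z - χ z‖ ^ 2 * Real.exp (-φ z) ≤
        ∫ z, ‖dx χ z + Complex.I * dy χ z‖ ^ 2 / lap φ z * Real.exp (-φ z) := by
  have hΩ : IsOpen Zᶜ := hZ.isOpen_compl
  obtain ⟨u, hu, hun, hueq⟩ := weak_solution hΩ hφ hpos hχ hχc hχΩ
  have hae : ∀ᵐ z ∂(volume : Measure ℂ), z ∈ Zᶜ := by
    rw [ae_iff]; simpa using hZ0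
  have hres : (volume : Measure ℂ).restrict Zᶜ = volume := Measure.restrict_eq_self_of_ae_mem hae
  have hφc : ContinuousOn φ Zᶜ := fun z hz => (hφ z hz).continuousAt.continuousWithinAt
  have hexpm : AEStronglyMeasurable (fun z => ((Real.exp (φ z / 2) : ℝ) : ℂ)) volume := by
    rw [← hres]
    apply ContinuousOn.aestronglyMeasurable _ hΩ.measurableSet
    exact Complex.continuous_ofReal.comp_continuousOn
      (Real.continuous_exp.comp_continuousOn (hφc.div_const 2))
  set h : ℂ → ℂ := fun z => conj (u z) * ((Real.exp (φ z / 2) : ℝ) : ℂ) with hh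
  have huc : MemLp (fun z => conj (u z)) 2 volume := hu.star
  have hhm : AEStronglyMeasurable h volume := huc.1.mul hexpm
  have hnormh : ∀ z, ‖h z‖ = ‖u z‖ * Real.exp (φ z / 2) := by
    intro z
    simp only [hh]
    rw [norm_mul, Complex.norm_conj, Complex.norm_real, Real.norm_eq_abs,
      abs_of_pos (Real.exp_pos _)]
  have hhl : LocallyIntegrable h volume := by
    rw [locallyIntegrable_iff]
    intro K hK
    obtain ⟨R, hR⟩ := hK.isBounded.subset_closedBall 0
    obtain ⟨M, hM⟩ := hbd R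
    have h1 : IntegrableOn (fun z => conj (u z)) K volume :=
      (huc.locallyIntegrable (by norm_num)).integrableOn_isCompact hK
    apply Integrable.mono' (h1.norm.const_mul (Real.exp (M / 2))) hhm.restrict
    rw [ae_restrict_iff' hK.measurableSet]
    filter_upwards [hae] with z hz hzK
    rw [hnormh, Complex.norm_conj, mul_comm]
    apply mul_le_mul_of_nonneg_right _ (norm_nonneg _)
    apply Real.exp_le_exp.2
    have := hM z hz (by simpa using hR hzK)
    linarith
  have hχl : LocallyIntegrable χ volume := hχ.continuous.locallyIntegrable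
  set f : ℂ → ℂ := fun z => χ z - h z with hf
  have hfl : LocallyIntegrable f volume := hχl.sub hhl
  have hweak : ∀ α : ℂ → ℂ, ContDiff ℝ 2 α → HasCompactSupport α → tsupport α ⊆ Zᶜ →
      ∫ z, f z * (dx α z + Complex.I * dy α z) = 0 := by
    intro α hα hαc hαΩ
    have h1 := hueq α hα hαc hαΩ
    have h2 : ∀ z, f z * (dx α z + Complex.I * dy α z) =
        χ z * (dx α z + Complex.I * dy α z) - conj (u z) * wdbar φ α z := by
      intro z
      simp only [hf, hh, wdbar]; ring
    have i1 : Integrable (fun z => χ z * (dx α z + Complex.I * dy α z)) volume := by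
      apply Continuous.integrable_of_hasCompactSupport
      · exact hχ.continuous.mul ((continuous_dx hα).add (continuous_const.mul
          (continuous_dy hα)))
      · exact hχc.mul_right
    have i2 : Integrable (fun z => conj (u z) * wdbar φ α z) volume := by
      have hw : MemLp (wdbar φ α) 2 volume :=
        (wdbar_cont hφ hα hαc hαΩ).1.memLp_of_hasCompactSupport (wdbar_cont hφ hα hαc hαΩ).2
      exact huc.integrable_mul hw
    simp_rw [h2]
    rw [integral_sub i1 i2, h1, sub_self]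
  obtain ⟨F, hF1, hF2⟩ := weyl hΩ hfl hweak
  have hkey : (fun z => ‖F z - χ z‖ ^ 2 * Real.exp (-φ z)) =ᵐ[volume] fun z => ‖u z‖ ^ 2 := by
    filter_upwards [hF2] with z hz
    rw [hz]
    have h1 : f z - χ z = - h z := by simp only [hf]; ring
    rw [h1, norm_neg, hnormh, mul_pow, mul_assoc, ← Real.exp_nat_mul, ← Real.exp_add]
    have : ((2 : ℕ) : ℝ) * (φ z / 2) + -φ z = 0 := by push_cast; ring
    rw [this, Real.exp_zero, mul_one]
  refine ⟨F, hF1, ?_, ?_⟩
  · rw [integrable_congr hkey]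
    exact hu.integrable_norm_pow (by norm_num)
  · rw [integral_congr_ae hkey]
    exact hun

end MinMod
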