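import Mathlib
import Pool.Agent.Work.MP_06ac62_an.Weight
import Pool.Agent.Work.MP_06ac62_an.Hormander

open Filter MeasureTheory Metric Real Set Topology

namespace MinMod

/-- pointwise bound from the weighted `L²` bound -/
lemma pointwise {F : ℂ → ℂ} {φ : ℂ → ℝ} {z : ℂ} {r s M : ℝ} (hs : 0 < s) (hsr : s < r)
    (hF : DifferentiableOn ℂ F (ball z r))
    (hint : Integrable (fun w => ‖F w‖ ^ 2 * Real.exp (-φ w)) volume)
    (hM : ∀ᵐ w ∂(volume : Measure ℂ), ‖w - z‖ < s → φ w ≤ M) :
    ‖F z‖ ^ 2 ≤ bumpK / s ^ 2 * Real.exp M * ∫ w, ‖F w‖ ^ 2 * Real.exp (-φ w) := by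
  obtain ⟨ρ, hρC, hρ0, hρr, hρnn, hρle, hρ1⟩ := exists_radial hs
  have h1 := radial_mean hs hsr (hF.pow 2) hρC.continuous hρ0 hρr
  rw [hρ1, Complex.ofReal_one, one_mul] at h1
  have h2 : ‖F z‖ ^ 2 = ‖(F ^ 2) z‖ := by simp
  have hK := bumpK_pos
  rw [h2, ← h1]
  refine (norm_integral_le_integral_norm _).trans ?_
  have h3 : ∫ w, ‖F w‖ ^ 2 * Real.exp (-φ w) = ∫ w, ‖F (z - w)‖ ^ 2 * Real.exp (-φ (z - w)) :=
    (integral_sub_left_eq_self (fun w => ‖F w‖ ^ 2 * Real.exp (-φ w)) volume z).symm
  rw [h3, ← integral_const_mul]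
  apply integral_mono_of_nonneg
  · exact Eventually.of_forall (fun w => norm_nonneg _)
  · exact (hint.comp_sub_left z).const_mul _
  · have h4 := (quasiMeasurePreserving_sub_left_of_right_invariant (volume : Measure ℂ) z).ae hM
    filter_upwards [h4] with w hw
    have h5 : ‖((ρ w : ℝ) : ℂ) * (F ^ 2) (z - w)‖ = ρ w * ‖F (z - w)‖ ^ 2 := by
      rw [norm_mul, Complex.norm_real, Real.norm_eq_abs, abs_of_nonneg (hρnn w)]
      simp
    rw [h5]
    by_cases hws : s ≤ ‖w‖
    · rw [hρ0 w hws, zero_mul]; positivity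
    · push Not at hws
      have h6 : φ (z - w) ≤ M := hw (by simpa using hws)
      have h7 : 1 ≤ Real.exp M * Real.exp (-φ (z - w)) := by
        rw [← Real.exp_add]; exact Real.one_le_exp (by linarith)
      have h8 := hρle w
      have h9 : 0 ≤ ‖F (z - w)‖ ^ 2 := by positivity
      calc ρ w * ‖F (z - w)‖ ^ 2 ≤ bumpK / s ^ 2 * ‖F (z - w)‖ ^ 2 :=
            mul_le_mul_of_nonneg_right h8 h9
        _ = bumpK / s ^ 2 * ‖F (z - w)‖ ^ 2 * 1 := by ring
        _ ≤ bumpK / s ^ 2 * ‖F (z - w)‖ ^ 2 * (Real.exp M * Real.exp (-φ (z - w))) := by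
            apply mul_le_mul_of_nonneg_left h7; positivity
        _ = bumpK / s ^ 2 * Real.exp M * (‖F (z - w)‖ ^ 2 * Real.exp (-φ (z - w))) := by ring

namespace Data

variable {κ ε : ℝ} {v : ℂ → ℝ} {a c : ℕ → ℂ}

lemma logw_nonneg (z : ℂ) : 0 ≤ logw z := by
  unfold logw
  apply Real.log_nonneg
  have : 0 ≤ ‖z‖ ^ 2 := by positivity
  linarith

/-- Holomorphic function off the poles with a weighted `L²` bound, not identically zero. -/
theorem exists_holo (D : Data κ ε v a c) : ∃ N : ℝ, 0 ≤ N ∧ ∃ F : ℂ → ℂ,
    DifferentiableOn ℂ F (range a)ᶜ ∧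
    Integrable (fun z => ‖F z‖ ^ 2 * Real.exp (-wt κ ε v a c N z)) volume ∧
    ∃ z ∈ (range a)ᶜ, F z ≠ 0 := by
  have hZc : IsClosed (range a) := D.range_closed
  have hZ0 : volume (range a) = 0 := (countable_range a).measure_zero _
  have hε := D.ε_nonneg
  -- the cut-off function
  let b : ContDiffBump (0 : ℂ) := ⟨1 / 2, 1, by norm_num, by norm_num⟩
  set χ : ℂ → ℂ := fun z => ((b z : ℝ) : ℂ) with hχdef
  have hχ : ContDiff ℝ 2 χ := Complex.ofRealCLM.contDiff.comp b.contDiff
  have hχsupp : tsupport χ ⊆ closedBall 0 1 := by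
    apply closure_minimal _ isClosed_closedBall
    intro z hz
    by_contra hcon
    apply hz
    have : b z = 0 := b.zero_of_le_dist (by
      rw [mem_closedBall, not_le] at hcon
      exact hcon.le)
    simp [hχdef, this]
  have hχc : HasCompactSupport χ :=
    (isCompact_closedBall (0 : ℂ) 1).of_isClosed_subset (isClosed_tsupport χ) hχsupp
  have hχΩ : tsupport χ ⊆ (range a)ᶜ := fun z hz => D.unit_compl (by simpa using hχsupp hz)
  set g : ℂ → ℂ := fun z => dx χ z + Complex.I * dy χ z with hg
  have hgc : Continuous g := (continuous_dx hχ).add (continuous_const.mul (continuous_dy hχ))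
  have hg0 : ∀ z, 1 < ‖z‖ → g z = 0 := by
    intro z hz
    have : z ∉ tsupport χ := fun h => by
      have := hχsupp h
      simp only [mem_closedBall, dist_zero_right] at this
      linarith
    simp [hg, dx_zero_of_notMem this, dy_zero_of_notMem this]
  have hgin : ∀ z, ‖z‖ < 1 / 2 → g z = 0 := by
    intro z hz
    have h1 : χ =ᶠ[𝓝 z] fun _ => 1 := by
      filter_upwards [continuous_norm.continuousAt.eventually (gt_mem_nhds hz)] with w hw
      have : b w = 1 := b.one_of_mem_closedBall (by
        show w ∈ closedBall (0 : ℂ) (1 / 2)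
        rw [mem_closedBall, dist_zero_right]; exact hw.le)
      simp [hχdef, this]
    simp only [hg, dx, dy]
    rw [h1.fderiv_eq]
    simp
  have hgcs : HasCompactSupport g := by
    apply HasCompactSupport.intro (isCompact_closedBall (0 : ℂ) 1)
    intro z hz
    apply hg0
    simpa using hz
  obtain ⟨G0, hG0⟩ := hgcs.exists_bound_of_continuous hgc
  -- constants
  obtain ⟨M0, hM0⟩ := (isCompact_closedBall (0 : ℂ) 1).exists_bound_of_continuousOn
    (f := fun z => 2 * (1 + ε) * v z) (by
      apply Continuous.continuousOn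
      exact continuous_const.mul D.smooth.continuous)
  set V1 := (volume : Measure ℂ).real (ball 0 (1 / 4)) with hV1
  set V2 := (volume : Measure ℂ).real (closedBall 0 1) with hV2
  have hV1pos : 0 < V1 := by
    rw [hV1, Measure.real]
    apply ENNReal.toReal_pos
    · exact (measure_ball_pos volume (0 : ℂ) (by norm_num)).ne'
    · exact measure_ball_lt_top.ne
  have hV2nn : 0 ≤ V2 := measureReal_nonneg
  set c1 := Real.exp (-M0) * V1 with hc1
  have hc1pos : 0 < c1 := by positivity
  set c2 := G0 ^ 2 * V2 with hc2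
  have hc2nn : 0 ≤ c2 := by positivity
  set N := c2 / c1 + 1 with hN
  have hN1 : 1 ≤ N := by
    have : 0 ≤ c2 / c1 := by positivity
    linarith
  have hN0 : 0 < N := by linarith
  refine ⟨N, hN0.le, ?_⟩
  set φ := wt κ ε v a c N with hφ
  have hφC : ∀ z ∈ (range a)ᶜ, ContDiffAt ℝ 2 φ z := fun z hz => D.wt_contDiffAt N hz
  have hφpos : ∀ z ∈ (range a)ᶜ, 0 < lap φ z := by
    intro z hz
    refine lt_of_lt_of_le ?_ (D.wt_lap_ge hz)
    positivity
  have hφbd : ∀ R : ℝ, ∃ M : ℝ, ∀ z ∈ (range a)ᶜ, ‖z‖ ≤ R → φ z ≤ M := by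
    intro R
    obtain ⟨M, hM⟩ := (isCompact_closedBall (0 : ℂ) R).exists_bound_of_continuousOn
      (f := fun z => 2 * (1 + ε) * v z + N * logw z) (by
        apply Continuous.continuousOn
        exact (continuous_const.mul D.smooth.continuous).add
          (continuous_const.mul logw_contDiff.continuous))
    refine ⟨M, fun z hz hzR => ?_⟩
    refine (D.wt_le hz).trans ?_
    exact (le_abs_self _).trans (hM z (by simpa using hzR))
  obtain ⟨F, hF1, hF2, hF3⟩ := hormander hZc hZ0 hφC hφpos hφbd hχ hχc hχΩ
  refine ⟨F, hF1, ?_, ?_⟩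
  · -- integrability
    have hχi : Integrable (fun z => ‖χ z‖ ^ 2 * Real.exp (-φ z)) volume := by
      have h1 := cont_of_supp (Ω := (range a)ᶜ) (K := tsupport χ) hχc hχΩ
        (f := fun z => ‖χ z‖ ^ 2 * Real.exp (-φ z))
        (fun z hz => by simp [image_eq_zero_of_notMem_tsupport hz])
        (fun z hz => by
          have e1 : ContinuousAt φ z := (hφC z hz).continuousAt
          have e2 : ContinuousAt χ z := hχ.continuous.continuousAt
          fun_prop)
      exact h1.1.integrable_of_hasCompactSupport h1.2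
    have hmeas : AEStronglyMeasurable (fun z => ‖F z‖ ^ 2 * Real.exp (-φ z)) volume := by
      have hae : ∀ᵐ z ∂(volume : Measure ℂ), z ∈ (range a)ᶜ := compl_mem_ae_iff.2 hZ0
      rw [← Measure.restrict_eq_self_of_ae_mem hae]
      apply ContinuousOn.aestronglyMeasurable _ hZc.isOpen_compl.measurableSet
      intro z hz
      apply ContinuousAt.continuousWithinAt
      have e1 : ContinuousAt φ z := (hφC z hz).continuousAt
      have e2 : ContinuousAt F z :=
        (hF1.differentiableAt (hZc.isOpen_compl.mem_nhds hz)).continuousAt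
      fun_prop
    apply Integrable.mono' ((hF2.const_mul 2).add (hχi.const_mul 2)) hmeas
    apply Eventually.of_forall
    intro z
    rw [Real.norm_eq_abs, abs_of_nonneg (by positivity)]
    simp only [Pi.add_apply]
    have h1 : ‖F z‖ ≤ ‖F z - χ z‖ + ‖χ z‖ := by
      have := norm_add_le (F z - χ z) (χ z)
      simpa using this
    have h2 : ‖F z‖ ^ 2 ≤ 2 * ‖F z - χ z‖ ^ 2 + 2 * ‖χ z‖ ^ 2 := by
      have h3 := norm_nonneg (F z)
      nlinarith [sq_nonneg (‖F z - χ z‖ - ‖χ z‖), norm_nonneg (F z - χ z), norm_nonneg (χ z)]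
    have h3 := (Real.exp_pos (-φ z)).le
    nlinarith [mul_le_mul_of_nonneg_right h2 h3]
  · -- not identically zero
    by_contra hcon
    push Not at hcon
    have hae : ∀ᵐ z ∂(volume : Measure ℂ), z ∈ (range a)ᶜ := compl_mem_ae_iff.2 hZ0
    have hlogw : ∀ z : ℂ, ‖z‖ < 1 / 4 → logw z ≤ Real.log (17 / 16) := by
      intro z hz
      unfold logw
      apply Real.log_le_log (by positivity)
      nlinarith [norm_nonneg z]
    have hlogw2 : ∀ z : ℂ, 1 / 2 ≤ ‖z‖ → Real.log (5 / 4) ≤ logw z := by
      intro z hz
      unfold logw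
      apply Real.log_le_log (by norm_num)
      nlinarith [norm_nonneg z]
    have hL : Real.exp (-M0 - N * Real.log (17 / 16)) * V1 ≤
        ∫ z, ‖F z - χ z‖ ^ 2 * Real.exp (-φ z) := by
      have e1 : Real.exp (-M0 - N * Real.log (17 / 16)) * V1 =
          ∫ z, (ball (0 : ℂ) (1 / 4)).indicator
            (fun _ => Real.exp (-M0 - N * Real.log (17 / 16))) z := by
        rw [integral_indicator measurableSet_ball, setIntegral_const, smul_eq_mul, mul_comm]
      rw [e1]
      apply integral_mono_ae _ hF2
      · filter_upwards [hae] with z hz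
        by_cases hzb : z ∈ ball (0 : ℂ) (1 / 4)
        · rw [indicator_of_mem hzb]
          have hz4 : ‖z‖ < 1 / 4 := by simpa using hzb
          have hbz : b z = 1 := b.one_of_mem_closedBall (by
            show z ∈ closedBall (0 : ℂ) (1 / 2)
            rw [mem_closedBall, dist_zero_right]; linarith)
          rw [hcon z hz]
          have : ‖(0 : ℂ) - χ z‖ = 1 := by simp [hχdef, hbz]
          rw [this, one_pow, one_mul]
          apply Real.exp_le_exp.2
          rw [hφ, D.wt_unit (by linarith)]
          have h1 := hM0 z (by rw [mem_closedBall, dist_zero_right]; linarith)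
          have h2 := (le_abs_self _).trans h1
          have h3 := mul_le_mul_of_nonneg_left (hlogw z hz4) hN0.le
          linarith
        · rw [indicator_of_notMem hzb]
          positivity
      · rw [integrable_indicator_iff measurableSet_ball]
        exact integrableOn_const measure_ball_lt_top.ne
    have hR : ∫ z, ‖g z‖ ^ 2 / lap φ z * Real.exp (-φ z) ≤
        G0 ^ 2 / N * Real.exp (-(N * Real.log (5 / 4))) * V2 := by
      have e1 : G0 ^ 2 / N * Real.exp (-(N * Real.log (5 / 4))) * V2 =
          ∫ z, (closedBall (0 : ℂ) 1).indicator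
            (fun _ => G0 ^ 2 / N * Real.exp (-(N * Real.log (5 / 4)))) z := by
        rw [integral_indicator isClosed_closedBall.measurableSet, setIntegral_const, smul_eq_mul,
          mul_comm]
      rw [e1]
      apply integral_mono_of_nonneg
      · filter_upwards [hae] with z hz
        have := hφpos z hz
        positivity
      · rw [integrable_indicator_iff isClosed_closedBall.measurableSet]
        exact integrableOn_const (isCompact_closedBall (0 : ℂ) 1).measure_lt_top.ne
      · filter_upwards [hae] with z hz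
        by_cases hzb : z ∈ closedBall (0 : ℂ) 1
        · rw [indicator_of_mem hzb]
          have hz1 : ‖z‖ ≤ 1 := by simpa using hzb
          by_cases hz2 : ‖z‖ < 1 / 2
          · rw [hgin z hz2, norm_zero]
            simp only [ne_eq, OfNat.ofNat_ne_zero, not_false_eq_true, zero_pow, zero_div, zero_mul]
            positivity
          · push Not at hz2
            have hl : N ≤ lap φ z := by
              refine le_trans ?_ (D.wt_lap_ge hz)
              have : 1 ≤ 4 / (1 + ‖z‖ ^ 2) ^ 2 := by
                rw [le_div_iff₀ (by positivity)]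
                have h0 := norm_nonneg z
                have : ‖z‖ ^ 2 ≤ 1 := by nlinarith
                have h00 : 0 ≤ ‖z‖ ^ 2 := by positivity
                nlinarith
              nlinarith
            have h1 : ‖g z‖ ^ 2 ≤ G0 ^ 2 := pow_le_pow_left₀ (norm_nonneg _) (hG0 z) 2
            have h2 : ‖g z‖ ^ 2 / lap φ z ≤ G0 ^ 2 / N :=
              div_le_div₀ (by positivity) h1 hN0 hl
            have h3 : Real.exp (-φ z) ≤ Real.exp (-(N * Real.log (5 / 4))) := by
              apply Real.exp_le_exp.2
              rw [hφ, D.wt_unit hz1]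
              have h4 := mul_le_mul_of_nonneg_left (hlogw2 z hz2) hN0.le
              have h5 : 0 ≤ 2 * (1 + ε) * v z := by
                have := D.nonneg z
                positivity
              linarith
            exact mul_le_mul h2 h3 (Real.exp_pos _).le (by positivity)
        · rw [indicator_of_notMem hzb]
          rw [hg0 z (by simpa using hzb), norm_zero]
          simp
    have hfin : Real.exp (-M0 - N * Real.log (17 / 16)) * V1 ≤
        G0 ^ 2 / N * Real.exp (-(N * Real.log (5 / 4))) * V2 := hL.trans (hF3.trans hR)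
    have h1 : Real.exp (-M0 - N * Real.log (17 / 16)) =
        Real.exp (-M0) * Real.exp (-(N * Real.log (17 / 16))) := by
      rw [← Real.exp_add]; congr 1
    have h2 : Real.exp (-(N * Real.log (5 / 4))) ≤ Real.exp (-(N * Real.log (17 / 16))) := by
      apply Real.exp_le_exp.2
      have : Real.log (17 / 16) ≤ Real.log (5 / 4) := Real.log_le_log (by norm_num) (by norm_num)
      nlinarith
    set X := Real.exp (-(N * Real.log (17 / 16))) with hX
    have hXpos : 0 < X := Real.exp_pos _
    have h3 : c1 * X ≤ c2 / N * X := by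
      calc c1 * X = Real.exp (-M0 - N * Real.log (17 / 16)) * V1 := by rw [h1, hc1]; ring
        _ ≤ G0 ^ 2 / N * Real.exp (-(N * Real.log (5 / 4))) * V2 := hfin
        _ ≤ G0 ^ 2 / N * X * V2 := by
            apply mul_le_mul_of_nonneg_right _ hV2nn
            apply mul_le_mul_of_nonneg_left h2
            positivity
        _ = c2 / N * X := by rw [hc2]; ring
    have h4 : c1 ≤ c2 / N := le_of_mul_le_mul_right h3 hXpos
    rw [le_div_iff₀ hN0, hN] at h4
    have h5 : c1 * (c2 / c1 + 1) = c2 + c1 := by field_simp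
    linarith

end Data

end MinMod
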