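import Mathlib
import Pool.Agent.Work.MP_06ac62_an.Exist

open Filter MeasureTheory Metric Real Set Topology

namespace MinMod

namespace Data

variable {κ ε : ℝ} {v : ℂ → ℝ} {a c : ℕ → ℂ}

/-- Entire function with prescribed vanishing and growth. -/
theorem exists_entire (D : Data κ ε v a c) (hmass : ∀ j, 1 ≤ 2 * κ * v (a j)) :
    ∃ N C : ℝ, 0 ≤ N ∧ 0 < C ∧ ∃ F : ℂ → ℂ, Differentiable ℂ F ∧ (∃ z, F z ≠ 0) ∧
      (∀ (z : ℂ) (s M : ℝ), 0 < s → s ≤ 1 → (∀ w, ‖w - z‖ ≤ s → v w ≤ M) →
        ‖F z‖ ^ 2 ≤ C / s ^ 2 *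
          Real.exp (2 * (1 + ε) * M + N * Real.log (1 + (‖z‖ + 1) ^ 2))) ∧
      (∀ (j n : ℕ), (n : ℝ) ≤ 2 * κ * v (a j) - 1 →
        ∃ C' : ℝ, ∀ᶠ z in 𝓝[≠] (a j), ‖F z‖ ≤ C' * ‖z - a j‖ ^ n) := by
  obtain ⟨N, hN, F₀, hF₀, hI, z₁, hz₁, hFz₁⟩ := D.exists_holo
  have hZc : IsClosed (range a) := D.range_closed
  have hZ0 : volume (range a) = 0 := (countable_range a).measure_zero _
  have hε := D.ε_nonneg
  have hK := bumpK_pos
  have hA1 := one_lt_Aκ D.κ_lt
  have hκ0 := D.κ_pos
  set I := ∫ w, ‖F₀ w‖ ^ 2 * Real.exp (-wt κ ε v a c N w) with hIdef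
  have hI0 : 0 ≤ I := integral_nonneg (fun w => by positivity)
  -- isolation
  have hiso : ∀ (j : ℕ) (w : ℂ), ‖w - a j‖ ≤ 2 * Aκ κ / ‖c j‖ → w ≠ a j → w ∈ (range a)ᶜ := by
    rintro j w hw hne ⟨k, rfl⟩
    have hjk : j ≠ k := fun h => hne (by rw [h])
    have h1 := D.disj j k hjk
    have hcj : 0 < ‖c j‖ := norm_pos_iff.2 (D.c_ne j)
    have hck : 0 < ‖c k‖ := norm_pos_iff.2 (D.c_ne k)
    rw [norm_sub_rev] at hw
    have h2 : 2 * Aκ κ / ‖c j‖ ≤ 2 * Aκ κ * (1 / ‖c j‖ + 1 / ‖c k‖) := by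
      rw [mul_add, mul_one_div]
      have : 0 ≤ 2 * Aκ κ * (1 / ‖c k‖) := by positivity
      linarith
    linarith
  -- bound near the poles
  have hsing : ∀ (j n : ℕ), (n : ℝ) ≤ 2 * κ * v (a j) - 1 → ∃ C' t₀ : ℝ, 0 ≤ C' ∧ 0 < t₀ ∧
      t₀ ≤ 2 * Aκ κ / ‖c j‖ ∧ ∀ z, z ≠ a j → ‖z - a j‖ < t₀ → ‖F₀ z‖ ≤ C' * ‖z - a j‖ ^ n := by
    intro j n hn
    have hcj : 0 < ‖c j‖ := norm_pos_iff.2 (D.c_ne j)
    set t₀ := min (1 / 2) (1 / (4 * ‖c j‖)) with ht₀
    have ht₀pos : 0 < t₀ := lt_min (by norm_num) (by positivity)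
    have ht₀2 : t₀ ≤ 1 / 2 := min_le_left _ _
    have ht₀c : t₀ * (4 * ‖c j‖) ≤ 1 := by
      have : t₀ ≤ 1 / (4 * ‖c j‖) := min_le_right _ _
      rwa [le_div_iff₀ (by positivity)] at this
    have h2t₀ : 2 * t₀ ≤ 2 * Aκ κ / ‖c j‖ := by
      rw [le_div_iff₀ hcj]; nlinarith
    have hvj := D.nonneg (a j)
    obtain ⟨M1, hM1⟩ := (isCompact_closedBall (a j) 1).exists_bound_of_continuousOn
      (f := fun z => 2 * (1 + ε) * v z + N * logw z) (by
        apply Continuous.continuousOn
        exact (continuous_const.mul D.smooth.continuous).add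
          (continuous_const.mul logw_contDiff.continuous))
    set C1 := M1 + 2 * v (a j) * (2 * κ * Real.log (3 * ‖c j‖) + 1) with hC1
    set K2 := 4 * bumpK * Real.exp C1 * I with hK2
    have hK2nn : 0 ≤ K2 := by positivity
    refine ⟨√K2, t₀, Real.sqrt_nonneg _, ht₀pos, by linarith, ?_⟩
    intro z hz hzt
    set t := ‖z - a j‖ with ht
    have ht0 : 0 < t := norm_pos_iff.2 (sub_ne_zero.2 hz)
    have hlogt : Real.log t ≤ 0 := Real.log_nonpos ht0.le (by linarith)
    have hsub : ball z t ⊆ (range a)ᶜ := by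
      intro w hw
      rw [mem_ball, dist_eq_norm] at hw
      apply hiso j w
      · have : ‖w - a j‖ ≤ ‖w - z‖ + ‖z - a j‖ := norm_sub_le_norm_sub_add_norm_sub _ _ _
        linarith
      · rintro rfl
        rw [norm_sub_rev] at hw
        exact lt_irrefl _ hw
    have hp := pointwise (F := F₀) (φ := wt κ ε v a c N) (z := z) (r := t) (s := t / 2)
      (M := C1 + 4 * κ * v (a j) * Real.log t) (by positivity) (by linarith)
      (hF₀.mono hsub) hI (by
        apply Eventually.of_forall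
        intro w hw
        have hwne : w ≠ a j := by
          rintro rfl
          rw [norm_sub_rev, ← ht] at hw
          linarith
        have hwt : ‖w - a j‖ ≤ 3 / 2 * t := by
          have : ‖w - a j‖ ≤ ‖w - z‖ + ‖z - a j‖ := norm_sub_le_norm_sub_add_norm_sub _ _ _
          linarith
        have hwpos : 0 < ‖w - a j‖ := norm_pos_iff.2 (sub_ne_zero.2 hwne)
        have hcw : ‖c j * (w - a j)‖ = ‖c j‖ * ‖w - a j‖ := norm_mul _ _
        have h1 := D.wt_pole (N := N) j hwne (by
          rw [hcw]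
          nlinarith)
        have h2 : 2 * (1 + ε) * v w + N * logw w ≤ M1 := by
          refine (le_abs_self _).trans (hM1 w ?_)
          rw [mem_closedBall, dist_eq_norm]
          linarith
        have h3 : Real.log (2 * ‖c j * (w - a j)‖) ≤ Real.log (3 * ‖c j‖) + Real.log t := by
          rw [← Real.log_mul (by positivity) ht0.ne', hcw]
          apply Real.log_le_log (by positivity)
          nlinarith
        have h4 : 2 * v (a j) * (2 * κ * Real.log (2 * ‖c j * (w - a j)‖) + 1) ≤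
            2 * v (a j) * (2 * κ * (Real.log (3 * ‖c j‖) + Real.log t) + 1) := by
          gcongr
        rw [hC1]
        linarith)
    have h5 : ‖F₀ z‖ ^ 2 ≤ K2 * (t ^ n) ^ 2 := by
      refine hp.trans ?_
      have e1 : Real.exp (C1 + 4 * κ * v (a j) * Real.log t) =
          Real.exp C1 * Real.exp ((4 * κ * v (a j) - 2) * Real.log t) * t ^ 2 := by
        have : t ^ 2 = Real.exp (2 * Real.log t) := by
          rw [show (2 : ℝ) * Real.log t = Real.log (t ^ 2) by rw [Real.log_pow]; push_cast; ring,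
            Real.exp_log (by positivity)]
        rw [this, ← Real.exp_add, ← Real.exp_add]
        congr 1; ring
      have e2 : Real.exp ((4 * κ * v (a j) - 2) * Real.log t) ≤ (t ^ n) ^ 2 := by
        have : (t ^ n) ^ 2 = Real.exp ((2 * n) * Real.log t) := by
          rw [← pow_mul, show (2 * (n : ℝ)) * Real.log t = Real.log (t ^ (n * 2)) by
            rw [Real.log_pow]; push_cast; ring, Real.exp_log (by positivity)]
        rw [this]
        apply Real.exp_le_exp.2
        have h6 : 2 * (n : ℝ) ≤ 4 * κ * v (a j) - 2 := by linarith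
        nlinarith
      calc bumpK / (t / 2) ^ 2 * Real.exp (C1 + 4 * κ * v (a j) * Real.log t) * I
          = K2 * Real.exp ((4 * κ * v (a j) - 2) * Real.log t) := by
            rw [e1, hK2]; field_simp; norm_num
        _ ≤ K2 * (t ^ n) ^ 2 := mul_le_mul_of_nonneg_left e2 hK2nn
    have h6 : ‖F₀ z‖ ≤ √(K2 * (t ^ n) ^ 2) := Real.le_sqrt_of_sq_le h5
    rwa [Real.sqrt_mul hK2nn, Real.sqrt_sq (by positivity)] at h6
  -- the entire extension
  classical
  set F : ℂ → ℂ := fun z => if z ∈ range a then limUnder (𝓝[≠] z) F₀ else F₀ z with hF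
  have hFeq : ∀ z ∈ (range a)ᶜ, F z = F₀ z := fun z hz => if_neg hz
  have hFae : F =ᵐ[volume] F₀ := by
    have hae : ∀ᵐ z ∂(volume : Measure ℂ), z ∈ (range a)ᶜ := compl_mem_ae_iff.2 hZ0
    filter_upwards [hae] with z hz
    exact hFeq z hz
  have hFd : Differentiable ℂ F := by
    intro z
    by_cases hz : z ∈ range a
    · obtain ⟨j, rfl⟩ := hz
      obtain ⟨C', t₀, hC', ht₀, ht₀R, hb⟩ := hsing j 0 (by
        have := hmass j
        push_cast; linarith)
      have hnhds : ball (a j) t₀ ∈ 𝓝 (a j) := ball_mem_nhds _ ht₀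
      have hmem : ∀ w ∈ ball (a j) t₀, w ≠ a j → w ∈ (range a)ᶜ := by
        intro w hw hne
        rw [mem_ball, dist_eq_norm] at hw
        exact hiso j w (by linarith) hne
      have h1 : DifferentiableOn ℂ F₀ (ball (a j) t₀ \ {a j}) :=
        hF₀.mono (fun w hw => hmem w hw.1 hw.2)
      have h2 := Complex.differentiableOn_update_limUnder_of_bddAbove hnhds h1 (by
        refine ⟨C', ?_⟩
        rintro _ ⟨w, hw, rfl⟩
        have := hb w hw.2 (by simpa [dist_eq_norm] using hw.1)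
        simpa using this)
      have h3 := h2.differentiableAt hnhds
      apply h3.congr_of_eventuallyEq
      filter_upwards [hnhds] with w hw
      by_cases hwa : w = a j
      · subst hwa
        rw [Function.update_self]
        exact if_pos ⟨j, rfl⟩
      · rw [Function.update_of_ne hwa]
        exact hFeq w (hmem w hw hwa)
    · have h1 : DifferentiableAt ℂ F₀ z :=
        hF₀.differentiableAt (hZc.isOpen_compl.mem_nhds hz)
      apply h1.congr_of_eventuallyEq
      filter_upwards [hZc.isOpen_compl.mem_nhds hz] with w hw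
      exact hFeq w hw
  have hIF : Integrable (fun z => ‖F z‖ ^ 2 * Real.exp (-wt κ ε v a c N z)) volume := by
    apply hI.congr
    filter_upwards [hFae] with z hz
    rw [hz]
  have hIF2 : ∫ w, ‖F w‖ ^ 2 * Real.exp (-wt κ ε v a c N w) = I := by
    rw [hIdef]
    apply integral_congr_ae
    filter_upwards [hFae] with z hz
    rw [hz]
  refine ⟨N, bumpK * I + 1, hN, by positivity, F, hFd, ⟨z₁, by rw [hFeq z₁ hz₁]; exact hFz₁⟩,
    ?_, ?_⟩
  · intro z s M hs hs1 hM
    have hp := pointwise (F := F) (φ := wt κ ε v a c N) (z := z) (r := 2 * s) (s := s)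
      (M := 2 * (1 + ε) * M + N * Real.log (1 + (‖z‖ + 1) ^ 2)) hs (by linarith)
      hFd.differentiableOn hIF (by
        have hae : ∀ᵐ z ∂(volume : Measure ℂ), z ∈ (range a)ᶜ := compl_mem_ae_iff.2 hZ0
        filter_upwards [hae] with w hw hws
        refine (D.wt_le hw).trans ?_
        have h1 := hM w hws.le
        have h2 : logw w ≤ Real.log (1 + (‖z‖ + 1) ^ 2) := by
          unfold logw
          apply Real.log_le_log (by positivity)
          have h3 : ‖w‖ ≤ ‖z‖ + 1 := by
            have : ‖w‖ ≤ ‖w - z‖ + ‖z‖ := by simpa using norm_add_le (w - z) z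
            linarith
          have := pow_le_pow_left₀ (norm_nonneg w) h3 2
          linarith
        have h3 : 2 * (1 + ε) * v w ≤ 2 * (1 + ε) * M :=
          mul_le_mul_of_nonneg_left h1 (by positivity)
        have h4 := mul_le_mul_of_nonneg_left h2 hN
        linarith)
    rw [hIF2] at hp
    refine hp.trans ?_
    have h5 : bumpK / s ^ 2 * Real.exp (2 * (1 + ε) * M + N * Real.log (1 + (‖z‖ + 1) ^ 2)) * I =
      (bumpK * I) / s ^ 2 * Real.exp (2 * (1 + ε) * M + N * Real.log (1 + (‖z‖ + 1) ^ 2)) := by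
      ring
    rw [h5]
    apply mul_le_mul_of_nonneg_right _ (Real.exp_pos _).le
    apply div_le_div_of_nonneg_right _ (by positivity)
    linarith
  · intro j n hn
    obtain ⟨C', t₀, hC', ht₀, ht₀R, hb⟩ := hsing j n hn
    refine ⟨C', ?_⟩
    rw [eventually_nhdsWithin_iff]
    filter_upwards [ball_mem_nhds (a j) ht₀] with w hw hne
    rw [mem_ball, dist_eq_norm] at hw
    rw [hFeq w (hiso j w (by linarith) hne)]
    exact hb w hne hw

end Data

/-- Schwarz lemma with multiplicity. -/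
lemma schwarz_mult {F : ℂ → ℂ} (hF : Differentiable ℂ F) {p : ℂ} {n : ℕ} {C' : ℝ}
    (hv : ∀ᶠ z in 𝓝[≠] p, ‖F z‖ ≤ C' * ‖z - p‖ ^ n) {ρ M : ℝ} (hρ : 0 < ρ)
    (hM : ∀ w, ‖w - p‖ = ρ → ‖F w‖ ≤ M) {z : ℂ} (hz : z ≠ p) (hzρ : ‖z - p‖ ≤ ρ) :
    ‖F z‖ ≤ (‖z - p‖ / ρ) ^ n * M := by
  set G : ℂ → ℂ := fun z => F z / (z - p) ^ n with hG
  rw [eventually_nhdsWithin_iff, Metric.eventually_nhds_iff_ball] at hv
  obtain ⟨t, ht, hvt⟩ := hv
  have hd : DifferentiableOn ℂ G (ball p t \ {p}) := by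
    intro w hw
    apply DifferentiableAt.differentiableWithinAt
    apply (hF w).div (by fun_prop)
    exact pow_ne_zero _ (sub_ne_zero.2 hw.2)
  have hb : BddAbove (norm ∘ G '' (ball p t \ {p})) := by
    refine ⟨C', ?_⟩
    rintro _ ⟨w, hw, rfl⟩
    have hwp : 0 < ‖w - p‖ := norm_pos_iff.2 (sub_ne_zero.2 hw.2)
    simp only [Function.comp_apply, hG, norm_div, norm_pow]
    rw [div_le_iff₀ (by positivity)]
    exact hvt w hw.1 hw.2
  have h1 := Complex.differentiableOn_update_limUnder_of_bddAbove (ball_mem_nhds p ht) hd hb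
  set G' := Function.update G p (limUnder (𝓝[≠] p) G) with hG'
  have hG'd : Differentiable ℂ G' := by
    intro w
    by_cases hw : w = p
    · rw [hw]; exact h1.differentiableAt (ball_mem_nhds p ht)
    · have h2 : DifferentiableAt ℂ G w := by
        apply (hF w).div (by fun_prop)
        exact pow_ne_zero _ (sub_ne_zero.2 hw)
      apply h2.congr_of_eventuallyEq
      filter_upwards [isOpen_ne.mem_nhds hw] with y hy
      exact Function.update_of_ne hy _ _
  have h3 : ‖G' z‖ ≤ M / ρ ^ n := by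
    apply Complex.norm_le_of_forall_mem_frontier_norm_le (U := ball p ρ) isBounded_ball
      hG'd.diffContOnCl
    · intro w hw
      rw [frontier_ball _ hρ.ne', mem_sphere, dist_eq_norm] at hw
      have hwp : w ≠ p := by
        rintro rfl; rw [sub_self, norm_zero] at hw; linarith
      rw [hG', Function.update_of_ne hwp]
      simp only [hG, norm_div, norm_pow]
      rw [hw]
      exact div_le_div_of_nonneg_right (hM w hw) (by positivity)
    · rw [closure_ball _ hρ.ne', mem_closedBall, dist_eq_norm]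
      exact hzρ
  rw [hG', Function.update_of_ne hz] at h3
  simp only [hG, norm_div, norm_pow] at h3
  have hzp : 0 < ‖z - p‖ := norm_pos_iff.2 (sub_ne_zero.2 hz)
  rw [div_le_iff₀ (by positivity)] at h3
  calc ‖F z‖ ≤ M / ρ ^ n * ‖z - p‖ ^ n := h3
    _ = (‖z - p‖ / ρ) ^ n * M := by rw [div_pow]; ring

end MinMod
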