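import Pool.Agent.Work.MP_06ac62_an.Q1b

open MeasureTheory Complex ComplexConjugate Metric Filter Topology

namespace Pool.Agent.Work.MP_06ac62_an

lemma ev_poly (a b : ℝ) {c : ℝ} (hc : 0 < c) :
    ∀ᶠ r : ℝ in atTop, a + b * (r + 1) ^ 2 ≤ c * Real.exp (r ^ 2) := by
  filter_upwards [eventually_ge_atTop 1, eventually_ge_atTop (2 * (|a| + 4 * |b|) / c)] with r h1 h2
  have h3 : 1 + r ^ 2 + (r ^ 2) ^ 2 / 2 ≤ Real.exp (r ^ 2) :=
    Real.quadratic_le_exp_of_nonneg (by positivity)
  have h4 : a ≤ |a| * r ^ 2 := by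
    have := le_abs_self a
    have h5 : 1 ≤ r ^ 2 := one_le_pow₀ h1
    nlinarith [abs_nonneg a]
  have h5 : b * (r + 1) ^ 2 ≤ 4 * |b| * r ^ 2 := by
    have h6 : (r + 1) ^ 2 ≤ 4 * r ^ 2 := by nlinarith
    calc b * (r + 1) ^ 2 ≤ |b| * (r + 1) ^ 2 := by gcongr; exact le_abs_self b
      _ ≤ |b| * (4 * r ^ 2) := by gcongr
      _ = 4 * |b| * r ^ 2 := by ring
  rw [div_le_iff₀ hc] at h2
  have h6 : 2 * (|a| + 4 * |b|) * r ^ 2 ≤ c * (r ^ 2) ^ 2 := by
    have h7 : r ≤ r ^ 2 := by nlinarith
    have h8 : 2 * (|a| + 4 * |b|) ≤ c * r ^ 2 := by nlinarith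
    calc 2 * (|a| + 4 * |b|) * r ^ 2 ≤ (c * r ^ 2) * r ^ 2 := by gcongr
      _ = c * (r ^ 2) ^ 2 := by ring
  have h7 : c * ((r ^ 2) ^ 2 / 2) ≤ c * Real.exp (r ^ 2) := by
    gcongr
    nlinarith [sq_nonneg r]
  linarith

theorem upper_Q1' {η : ℝ} (hη : 0 < η) (hη1 : η < 1 / 4) :
    ∃ f : ℂ → ℂ, IsEntireNonconst f ∧ order f = ⊤ ∧
      LamInf f ≤ ((-(2 - 40 * η) : ℝ) : EReal) := by
  obtain ⟨g, hg, hgne, K, M, c, hK, hM, hc, hE1, hE2⟩ := exists_g1 hη hη1
  have hc0 : 0 < c := by linarith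
  have h14 : 0 < 1 - 4 * η := by linarith
  -- smallness on arcs
  have hsmall : ∀ᶠ r : ℝ in atTop, ∃ β : ℝ, ∀ φ : ℝ, |φ - β| ≤ c / (2 * r ^ 4) →
      ‖g (r * exp (φ * I))‖ ≤ Real.exp (-(4 * (1 - 4 * η) * Real.log r * Real.exp (r ^ 2))) := by
    filter_upwards [eventually_ge_atTop (6 * c),
      (Real.tendsto_log_atTop.const_mul_atTop (show 0 < 4 * η by positivity)).eventually_ge_atTop
        (2 * (1 - 2 * η) * Real.log (3 * c) + 6),
      ev_poly (Real.log (2 * K / c)) (M + 3) (Real.exp_pos (-1)),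
      eventually_ge_atTop (c / η)] with r hr1 hr2 hr3 hr4
    have hr0 : 0 < r := by linarith
    have hrone : 1 ≤ r := by linarith
    obtain ⟨A, β, hA1, hA2, hA3⟩ := hE2 r hr1
    have hA0 : 0 < A := lt_of_lt_of_le (Real.exp_pos _) hA2
    refine ⟨β, fun φ hφ => (hA3 φ hφ).trans ?_⟩
    have hlog : 0 ≤ Real.log r := Real.log_nonneg hrone
    have e1 : K / (c / (2 * r ^ 3)) ≤ Real.exp (Real.log (2 * K / c) + 3 * r) := by
      rw [Real.exp_add, Real.exp_log (by positivity)]
      have h1 : K / (c / (2 * r ^ 3)) = 2 * K / c * r ^ 3 := by field_simp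
      rw [h1]
      have h2 : r ^ 3 ≤ Real.exp (3 * r) := by
        have h3 : r ≤ Real.exp r := by linarith [Real.add_one_le_exp r]
        calc r ^ 3 ≤ (Real.exp r) ^ 3 := by gcongr
          _ = Real.exp (3 * r) := by rw [← Real.exp_nat_mul]; norm_num
      gcongr
    have e2 : Real.log (3 * c / r ^ 2) = Real.log (3 * c) - 2 * Real.log r := by
      rw [Real.log_div (by positivity) (by positivity), Real.log_pow]
      norm_num
    refine (mul_le_mul_of_nonneg_right e1 (Real.exp_pos _).le).trans ?_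
    rw [← Real.exp_add]
    apply Real.exp_le_exp.mpr
    rw [e2]
    have hcr : c / r ^ 2 ≤ η := by
      rw [div_le_iff₀ hη] at hr4
      rw [div_le_iff₀ (by positivity)]
      nlinarith
    have e3 : (1 - η) * Real.exp (r ^ 2) ≤ A := by
      refine le_trans ?_ hA2
      rw [sub_eq_add_neg (r ^ 2), Real.exp_add, mul_comm]
      gcongr
      have := Real.add_one_le_exp (-(c / r ^ 2))
      linarith
    have e4 : Real.exp (-1) * Real.exp (r ^ 2) ≤ A := by
      refine le_trans ?_ hA2
      rw [← Real.exp_add]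
      apply Real.exp_le_exp.mpr
      linarith
    have e5 : Real.log (2 * K / c) + 3 * r + M * (r + 1) ^ 2 ≤ A := by
      refine le_trans ?_ (hr3.trans e4)
      nlinarith
    have e6 : 3 * A + A * (2 + 2 * (1 - 2 * η) * (Real.log (3 * c) - 2 * Real.log r)) + A ≤
        -(A * (4 * (1 - 3 * η) * Real.log r)) := by
      have h1 : 3 + (2 + 2 * (1 - 2 * η) * (Real.log (3 * c) - 2 * Real.log r)) + 1 ≤
          -(4 * (1 - 3 * η) * Real.log r) := by
        linarith
      have h2 := mul_le_mul_of_nonneg_left h1 hA0.le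
      linarith
    have e7 : 4 * (1 - 4 * η) * Real.log r * Real.exp (r ^ 2) ≤
        A * (4 * (1 - 3 * η) * Real.log r) := by
      have h1 : 0 ≤ 4 * (1 - 3 * η) * Real.log r := by
        apply mul_nonneg _ hlog
        linarith
      calc 4 * (1 - 4 * η) * Real.log r * Real.exp (r ^ 2)
          ≤ (1 - η) * Real.exp (r ^ 2) * (4 * (1 - 3 * η) * Real.log r) := by
            have h2 : (1 - 4 * η) ≤ (1 - η) * (1 - 3 * η) := by nlinarith
            have h3 : 0 ≤ 4 * Real.log r * Real.exp (r ^ 2) := by positivity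
            nlinarith
        _ ≤ _ := by gcongr
    linarith
  -- non-constant
  have hlogexp : Tendsto (fun r : ℝ => 4 * (1 - 4 * η) * Real.log r * Real.exp (r ^ 2)) atTop
      atTop := by
    apply Tendsto.atTop_mul_atTop₀
    · exact Real.tendsto_log_atTop.const_mul_atTop (by positivity)
    · exact Real.tendsto_exp_atTop.comp (tendsto_pow_atTop (by norm_num))
  have hnc : IsEntireNonconst g := by
    apply nonconst_of_small hg hgne
    intro δ hδ
    have h1 := Real.tendsto_exp_neg_atTop_nhds_zero.comp hlogexp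
    obtain ⟨r, ⟨⟨β, hr⟩, hr2⟩, hr3⟩ := ((hsmall.and (h1.eventually_lt_const hδ)).and
      (eventually_gt_atTop 0)).exists
    exact ⟨r * exp (β * I), lt_of_le_of_lt (hr β (by simp; positivity)) hr2⟩
  -- upper bound
  have hupper : ∀ᶠ r : ℝ in atTop, logMax g r ≤ (1 + 7 * η) * Real.exp (r ^ 2) := by
    filter_upwards [eventually_ge_atTop 1, ev_poly (Real.log (K / η)) (M + 1) hη,
      eventually_maxMod_gt hnc 1] with r hr1 hr2 hr3
    have hr0 : 0 < r := by linarith
    apply logMax_le hr0.le (by linarith)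
    intro z hz
    have hε : 0 < η / r := by positivity
    have hε1 : η / r ≤ 1 := by
      rw [div_le_one hr0]
      linarith
    refine (hE1 z (η / r) hε).trans ?_
    rw [hz]
    have e1 : K / (η / r) ≤ Real.exp (Real.log (K / η) + r) := by
      rw [Real.exp_add, Real.exp_log (by positivity)]
      have h1 : K / (η / r) = K / η * r := by field_simp
      rw [h1]
      have h3 : r ≤ Real.exp r := by linarith [Real.add_one_le_exp r]
      gcongr
    refine (mul_le_mul_of_nonneg_right e1 (Real.exp_pos _).le).trans ?_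
    rw [← Real.exp_add]
    apply Real.exp_le_exp.mpr
    have e2 : (r + η / r) ^ 2 ≤ r ^ 2 + 3 * η := by
      have h1 : (r + η / r) ^ 2 = r ^ 2 + 2 * η + η * (η / r ^ 2) := by
        field_simp
        ring
      rw [h1]
      have h2 : η / r ^ 2 ≤ 1 := by
        rw [div_le_one (by positivity)]
        nlinarith
      nlinarith
    have e3 : Real.exp ((r + η / r) ^ 2) ≤ (1 + 6 * η) * Real.exp (r ^ 2) := by
      calc Real.exp ((r + η / r) ^ 2) ≤ Real.exp (r ^ 2 + 3 * η) := Real.exp_le_exp.mpr e2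
        _ = Real.exp (3 * η) * Real.exp (r ^ 2) := by rw [← Real.exp_add]; ring_nf
        _ ≤ (1 + 6 * η) * Real.exp (r ^ 2) := by
            gcongr
            have h1 := Real.abs_exp_sub_one_sub_id_le (x := 3 * η) (by
              rw [abs_of_pos (by positivity)]
              linarith)
            have h2 := (abs_le.mp h1).2
            nlinarith
    have e4 : (r + η / r) ^ 2 ≤ (r + 1) ^ 2 := by gcongr
    have e5 := mul_le_mul_of_nonneg_left e4 hM
    nlinarith
  -- lower bound
  obtain ⟨r₀, m, hr₀, hr₀1, hm, hmin⟩ := exists_circle hg hgne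
  have hlower : ∀ᶠ r : ℝ in atTop, Real.exp (r ^ 2 / 4) ≤ logMax g r := by
    filter_upwards [hsmall, eventually_maxMod_gt hnc 1, eventually_ge_atTop 8,
      (Real.tendsto_log_atTop.const_mul_atTop (show 0 < 4 * (1 - 4 * η) by positivity)).eventually_ge_atTop
        1, eventually_ge_atTop |Real.log m|] with r hr1 hr2 hr3 hr4 hr5
    have hr0 : 0 < r := by linarith
    obtain ⟨β, hβ⟩ := hr1
    set N : ℕ := ⌈Real.pi * (2 * r ^ 4) / c⌉₊ with hN
    have hNge : Real.pi * (2 * r ^ 4) / c ≤ N := Nat.le_ceil _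
    have hpi := Real.pi_pos
    have hpi4 := Real.pi_lt_four
    have hN0 : 0 < N := Nat.ceil_pos.mpr (by positivity)
    have hNr : (0:ℝ) < N := by exact_mod_cast hN0
    have hNarc : Real.pi / N ≤ c / (2 * r ^ 4) := by
      rw [div_le_iff₀ hc0] at hNge
      rw [div_le_div_iff₀ hNr (by positivity)]
      linarith
    have hr4' : 1 ≤ r ^ 4 := one_le_pow₀ (by linarith)
    have hNle : (N:ℝ) ≤ r ^ 4 := by
      have h1 : (N:ℝ) < Real.pi * (2 * r ^ 4) / c + 1 := Nat.ceil_lt_add_one (by positivity)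
      have h2 : Real.pi * (2 * r ^ 4) / c ≤ r ^ 4 / 2 := by
        rw [div_le_iff₀ hc0]
        nlinarith
      have h3 : 2 ≤ r ^ 4 := by
        have : (8:ℝ) ^ 4 ≤ r ^ 4 := by gcongr
        linarith
      linarith
    have key := logMax_ge_of_arc hg hN0 hr₀ (by linarith) hm hmin hr2
      (X := 4 * (1 - 4 * η) * Real.log r * Real.exp (r ^ 2)) (fun φ hφ => hβ φ (hφ.trans hNarc))
    refine le_trans ?_ key
    have e1 : Real.exp (r ^ 2 / 2) ≤ 4 * (1 - 4 * η) * Real.log r * Real.exp (r ^ 2) / N := by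
      rw [le_div_iff₀ hNr]
      have h1 : (N:ℝ) ≤ Real.exp (4 * r) := by
        refine hNle.trans ?_
        have h3 : r ≤ Real.exp r := by linarith [Real.add_one_le_exp r]
        calc r ^ 4 ≤ (Real.exp r) ^ 4 := by gcongr
          _ = Real.exp (4 * r) := by rw [← Real.exp_nat_mul]; norm_num
      calc Real.exp (r ^ 2 / 2) * N ≤ Real.exp (r ^ 2 / 2) * Real.exp (4 * r) := by gcongr
        _ = Real.exp (r ^ 2 / 2 + 4 * r) := by rw [Real.exp_add]
        _ ≤ Real.exp (r ^ 2) := by
            apply Real.exp_le_exp.mpr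
            nlinarith
        _ = 1 * Real.exp (r ^ 2) := by ring
        _ ≤ _ := by gcongr
    have e2 : Real.exp (r ^ 2 / 4) + r ≤ Real.exp (r ^ 2 / 2) := by
      have h1 : Real.exp (r ^ 2 / 2) = Real.exp (r ^ 2 / 4) * Real.exp (r ^ 2 / 4) := by
        rw [← Real.exp_add]
        ring_nf
      have h2 := Real.add_one_le_exp (r ^ 2 / 4)
      have h3 : 2 * r ≤ r ^ 2 / 4 := by nlinarith
      rw [h1]
      nlinarith
    have e3 := neg_abs_le (Real.log m)
    linarith
  -- infinite order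
  have horder : order g = ⊤ := by
    unfold order
    have h1 : Tendsto (fun r : ℝ => Real.log (logMax g r) / Real.log r) atTop atTop := by
      apply tendsto_atTop_mono' atTop (f₁ := fun r : ℝ => r / 4)
      · filter_upwards [hlower, eventually_gt_atTop 1] with r hr1 hr2
        have hl : 0 < Real.log r := Real.log_pos hr2
        have h2 := Real.log_le_log (Real.exp_pos _) hr1
        rw [Real.log_exp] at h2
        rw [le_div_iff₀ hl]
        have h3 := Real.log_le_sub_one_of_pos (show 0 < r by linarith)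
        nlinarith
      · exact tendsto_id.atTop_div_const (by norm_num)
    exact (EReal.tendsto_coe_nhds_top_iff.mpr h1).limsup_eq
  refine ⟨g, hnc, horder, ?_⟩
  unfold LamInf
  apply limsup_ratio_le
  filter_upwards [hsmall, hupper, eventually_logMax_gt hnc (Real.exp 1), eventually_ge_atTop 2,
    (Real.tendsto_log_atTop.const_mul_atTop (show 0 < 2 * η by positivity)).eventually_ge_atTop
      (Real.log 2)] with r hr hr1 hr2 hr0' hr3
  have hr0 : 0 < r := by linarith
  have hlogr : 0 < Real.log r := Real.log_pos (by linarith)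
  have hpos : 0 < logMax g r := (Real.exp_pos 1).trans hr2
  have hlog1 : 1 < Real.log (logMax g r) := by
    rw [Real.lt_log_iff_exp_lt hpos]
    exact hr2
  have hlog2 : 0 < Real.log (Real.log (logMax g r)) := Real.log_pos hlog1
  refine ⟨by positivity, ?_⟩
  obtain ⟨β, hβ⟩ := hr
  have h1 : minMod g r ≤ ‖g (r * exp (β * I))‖ := by
    apply minMod_le
    rw [norm_mul, norm_exp_ofReal_mul_I, norm_real, Real.norm_eq_abs, abs_of_pos hr0, mul_one]
  refine h1.trans ((hβ β (by simp; positivity)).trans (Real.exp_le_exp.mpr ?_))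
  have hE : 0 < Real.exp (r ^ 2) := Real.exp_pos _
  have hd : logMax g r * Real.log (Real.log (logMax g r)) ≤
      ((1 + 7 * η) * Real.exp (r ^ 2)) * (2 * (1 + η) * Real.log r) := by
    have a1 : Real.log (logMax g r) ≤ 2 * r ^ 2 := by
      have := Real.log_le_log hpos hr1
      rw [Real.log_mul (by positivity) hE.ne', Real.log_exp] at this
      have a2 := Real.log_le_sub_one_of_pos (show 0 < 1 + 7 * η by positivity)
      nlinarith
    have a2 : Real.log (Real.log (logMax g r)) ≤ 2 * (1 + η) * Real.log r := by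
      have a3 := Real.log_le_log (by linarith) a1
      rw [Real.log_mul (by norm_num) (by positivity), Real.log_pow] at a3
      push_cast at a3
      linarith
    exact mul_le_mul hr1 a2 hlog2.le (by positivity)
  have hd0 : 0 < logMax g r * Real.log (Real.log (logMax g r)) := by positivity
  have hZ : 0 ≤ Real.log r * Real.exp (r ^ 2) := by positivity
  suffices hs : (2 - 40 * η) * (logMax g r * Real.log (Real.log (logMax g r))) ≤
      4 * (1 - 4 * η) * Real.log r * Real.exp (r ^ 2) by linarith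
  by_cases h2 : 0 ≤ 2 - 40 * η
  · calc (2 - 40 * η) * (logMax g r * Real.log (Real.log (logMax g r)))
        ≤ (2 - 40 * η) * (((1 + 7 * η) * Real.exp (r ^ 2)) * (2 * (1 + η) * Real.log r)) := by
          gcongr
      _ = ((2 - 40 * η) * (1 + 7 * η) * (2 * (1 + η))) * (Real.log r * Real.exp (r ^ 2)) := by ring
      _ ≤ (4 * (1 - 4 * η)) * (Real.log r * Real.exp (r ^ 2)) := by
          apply mul_le_mul_of_nonneg_right _ hZ
          nlinarith [mul_pos hη hη, mul_pos hη (mul_pos hη hη)]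
      _ = _ := by ring
  · push Not at h2
    have h3 : (2 - 40 * η) * (logMax g r * Real.log (Real.log (logMax g r))) ≤ 0 :=
      mul_nonpos_of_nonpos_of_nonneg h2.le hd0.le
    have h4 : 0 ≤ 4 * (1 - 4 * η) * Real.log r * Real.exp (r ^ 2) := by positivity
    linarith

theorem upper_Q1 {ε : ℝ} (hε : 0 < ε) : ∃ f : ℂ → ℂ, IsEntireNonconst f ∧ order f = ⊤ ∧
      LamInf f ≤ ((-(2 - ε) : ℝ) : EReal) := by
  set η : ℝ := min (ε / 40) (1 / 5) with hηdef
  have hη : 0 < η := by positivity
  have hη1 : η < 1 / 4 := lt_of_le_of_lt (min_le_right _ _) (by norm_num)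
  have hη2 : 40 * η ≤ ε := by
    have := min_le_left (ε / 40) (1 / 5)
    rw [← hηdef] at this
    linarith
  obtain ⟨f, hf1, hf2, hf3⟩ := upper_Q1' hη hη1
  refine ⟨f, hf1, hf2, hf3.trans ?_⟩
  rw [EReal.coe_le_coe_iff]
  linarith

end Pool.Agent.Work.MP_06ac62_an
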