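import Pool.Agent.Work.MP_06ac62_an.LowerFinal
import Pool.Agent.Work.MP_06ac62_an.Q1c

open Filter Topology

namespace Pool.Agent.Work.MP_06ac62_an

lemma maxMod_eq_MinMod (f : ℂ → ℂ) (r : ℝ) : MinMod.maxMod f r = maxMod f r := rfl

lemma logMax_eq_MinMod (f : ℂ → ℂ) (r : ℝ) : MinMod.logMax f r = logMax f r := rfl

lemma logMin_eq_MinMod (f : ℂ → ℂ) (r : ℝ) : MinMod.logMin f r = logMin f r := by
  have h0 : 0 ≤ minMod f r := by
    unfold minMod
    apply Real.sInf_nonneg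
    rintro x ⟨z, _, rfl⟩
    exact norm_nonneg _
  have h1 : MinMod.minMod f r = minMod f r := rfl
  unfold MinMod.logMin logMin
  rw [h1, ENNReal.log_ofReal]
  split_ifs with h2 h3 h3
  · rfl
  · exact absurd (le_antisymm h2 h0) h3
  · exact absurd h3.le h2
  · rfl

lemma order_eq_MinMod (f : ℂ → ℂ) : MinMod.order f = order f := rfl

lemma LamInf_eq_MinMod (f : ℂ → ℂ) : MinMod.LamInf f = LamInf f := by
  unfold MinMod.LamInf LamInf
  congr 1
  funext r
  rw [logMin_eq_MinMod, logMax_eq_MinMod]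

lemma lower_Q1 {f : ℂ → ℂ} (hf : IsEntireNonconst f) (ho : order f = ⊤) :
    ((-2 : ℝ) : EReal) ≤ LamInf f := by
  have h1 : MinMod.NonconstEntire f := by
    obtain ⟨h, z, w, hne⟩ := hf
    refine ⟨h, ?_⟩
    rintro ⟨c, hc⟩
    exact hne (by rw [hc z, hc w])
  have h2 := MinMod.lower_infinite h1 ((order_eq_MinMod f).trans ho)
  rw [LamInf_eq_MinMod, MinMod.neg_two_coe] at h2
  exact h2

theorem Cinf_eq : Cinf = ((-2 : ℝ) : EReal) := by
  apply le_antisymm
  · by_contra hcon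
    push Not at hcon
    obtain ⟨q, hq1, hq2⟩ := EReal.lt_iff_exists_real_btwn.1 hcon
    rw [EReal.coe_lt_coe_iff] at hq1
    obtain ⟨f, hf, ho, hL⟩ := upper_Q1 (ε := q + 2) (by linarith)
    have h1 : Cinf ≤ LamInf f := sInf_le ⟨f, hf, ho, rfl⟩
    have h2 : Cinf ≤ (q : EReal) := by
      refine h1.trans (hL.trans (le_of_eq ?_))
      congr 1
      ring
    exact absurd hq2 (not_lt.mpr h2)
  · apply le_sInf
    rintro L ⟨f, hf, ho, rfl⟩
    exact lower_Q1 hf ho

end Pool.Agent.Work.MP_06ac62_an
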