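import Pool.Agent.Work.MP_06ac62_an.LB7
import Pool.Agent.Work.MP_06ac62_an.C5

open Filter Topology

namespace Pool.Agent.Work.MP_06ac62_an

lemma Cval_bounds {ε : ℝ} (hε : 0 < ε) : ∀ᶠ lam : ℝ in atTop,
    ((-(2 + ε) : ℝ) : EReal) ≤ Cval lam / ((Real.log lam : ℝ) : EReal) ∧
      Cval lam / ((Real.log lam : ℝ) : EReal) ≤ ((-(2 - ε) : ℝ) : EReal) := by
  obtain ⟨l1, h1⟩ := lower_Q2 hε
  obtain ⟨l2, h2⟩ := upper_Q2 hε
  filter_upwards [eventually_ge_atTop l1, eventually_ge_atTop l2, eventually_gt_atTop 1] with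
    lam hl1 hl2 hl3
  have hlog : 0 < Real.log lam := Real.log_pos hl3
  have hlogE : (0 : EReal) < ((Real.log lam : ℝ) : EReal) := by exact_mod_cast hlog
  constructor
  · rw [EReal.le_div_iff_mul_le hlogE (EReal.coe_ne_top _)]
    apply le_sInf
    rintro L ⟨f, hf, hlow, rfl⟩
    refine le_trans (le_of_eq ?_) (h1 lam hl1 f hf hlow)
    rw [← EReal.coe_mul]
    congr 1
    ring
  · rw [EReal.div_le_iff_le_mul hlogE (EReal.coe_ne_top _)]
    obtain ⟨f, hf, hlow, hL⟩ := h2 lam hl2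
    have hmem : Cval lam ≤ Lam f := sInf_le ⟨f, hf, hlow, rfl⟩
    refine hmem.trans (hL.trans (le_of_eq ?_))
    rw [← EReal.coe_mul]
    congr 1
    ring

theorem tendsto_Cval :
    Tendsto (fun lam : ℝ => Cval lam / ((Real.log lam : ℝ) : EReal)) atTop
      (𝓝 ((-2 : ℝ) : EReal)) := by
  rw [_root_.tendsto_order]
  constructor
  · intro a ha
    obtain ⟨x, hx1, hx2⟩ := EReal.lt_iff_exists_real_btwn.mp ha
    rw [EReal.coe_lt_coe_iff] at hx2
    filter_upwards [Cval_bounds (ε := -2 - x) (by linarith)] with lam h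
    refine lt_of_lt_of_le hx1 (le_trans (le_of_eq ?_) h.1)
    congr 1
    ring
  · intro b hb
    obtain ⟨x, hx1, hx2⟩ := EReal.lt_iff_exists_real_btwn.mp hb
    rw [EReal.coe_lt_coe_iff] at hx1
    filter_upwards [Cval_bounds (ε := x + 2) (by linarith)] with lam h
    refine lt_of_le_of_lt (h.2.trans (le_of_eq ?_)) hx2
    congr 1
    ring

end Pool.Agent.Work.MP_06ac62_an
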