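import Mathlib

open Filter Metric Real Set Topology

namespace MinMod

/-- the power map `ζ ↦ z₀ ζ^{2/L}` -/
noncomputable def phi (z₀ : ℂ) (L : ℝ) (ζ : ℂ) : ℂ :=
  z₀ * Complex.exp (((2 / L : ℝ) : ℂ) * Complex.log ζ)

lemma norm_phi (z₀ : ℂ) (L : ℝ) (ζ : ℂ) :
    ‖phi z₀ L ζ‖ = ‖z₀‖ * Real.exp (2 / L * Real.log ‖ζ‖) := by
  rw [phi, norm_mul, Complex.norm_exp, Complex.re_ofReal_mul, Complex.log_re]

lemma phi_one (z₀ : ℂ) (L : ℝ) : phi z₀ L 1 = z₀ := by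
  simp [phi]

lemma hasDerivAt_phi (z₀ : ℂ) (L : ℝ) {ζ : ℂ} (hζ : 0 < ζ.re) :
    HasDerivAt (phi z₀ L)
      (z₀ * (Complex.exp (((2 / L : ℝ) : ℂ) * Complex.log ζ) * (((2 / L : ℝ) : ℂ) * ζ⁻¹))) ζ := by
  have hs : ζ ∈ Complex.slitPlane := Or.inl hζ
  have h1 := (Complex.hasDerivAt_log hs).const_mul (((2 / L : ℝ) : ℂ))
  exact (h1.cexp).const_mul z₀

lemma phi_analyticAt (z₀ : ℂ) (L : ℝ) {ζ : ℂ} (hζ : 0 < ζ.re) : AnalyticAt ℂ (phi z₀ L) ζ := by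
  have hs : ζ ∈ Complex.slitPlane := Or.inl hζ
  unfold phi
  have h1 : AnalyticAt ℂ Complex.log ζ := analyticAt_clog hs
  fun_prop

lemma deriv_phi_ne {z₀ : ℂ} (hz : z₀ ≠ 0) {L : ℝ} (hL : 0 < L) {ζ : ℂ} (hζ : 0 < ζ.re) :
    deriv (phi z₀ L) ζ ≠ 0 := by
  rw [(hasDerivAt_phi z₀ L hζ).deriv]
  have h0 : ζ ≠ 0 := by
    intro h; rw [h] at hζ; simp at hζ
  apply mul_ne_zero hz
  apply mul_ne_zero (Complex.exp_ne_zero _)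
  apply mul_ne_zero _ (inv_ne_zero h0)
  have : (2 / L : ℝ) ≠ 0 := by positivity
  exact_mod_cast this

lemma phi_inj {z₀ : ℂ} (hz : z₀ ≠ 0) {L : ℝ} (hL : 2 ≤ L) {ζ₁ ζ₂ : ℂ} (h1 : 0 < ζ₁.re)
    (h2 : 0 < ζ₂.re) (h : phi z₀ L ζ₁ = phi z₀ L ζ₂) : ζ₁ = ζ₂ := by
  have hL0 : 0 < L := by linarith
  have n1 : ζ₁ ≠ 0 := by
    intro h; rw [h] at h1; simp at h1
  have n2 : ζ₂ ≠ 0 := by
    intro h; rw [h] at h2; simp at h2
  have h3 := mul_left_cancel₀ hz h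
  have hbd : ∀ ζ : ℂ, 0 < ζ.re → -π < (((2 / L : ℝ) : ℂ) * Complex.log ζ).im ∧
      (((2 / L : ℝ) : ℂ) * Complex.log ζ).im ≤ π := by
    intro ζ hζ
    rw [Complex.im_ofReal_mul, Complex.log_im]
    have ha : |Complex.arg ζ| < π / 2 := by
      rw [Complex.abs_arg_lt_pi_div_two_iff]
      exact Or.inl hζ
    rw [abs_lt] at ha
    have hπ := Real.pi_pos
    have h4 : 2 / L ≤ 1 := by rw [div_le_one hL0]; exact hL
    have h5 : 0 < 2 / L := by positivity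
    constructor <;> nlinarith
  have h6 := Complex.exp_inj_of_neg_pi_lt_of_le_pi (hbd ζ₁ h1).1 (hbd ζ₁ h1).2
    (hbd ζ₂ h2).1 (hbd ζ₂ h2).2 h3
  have hne : ((2 / L : ℝ) : ℂ) ≠ 0 := by
    have : (2 / L : ℝ) ≠ 0 := by positivity
    exact_mod_cast this
  have h7 := mul_left_cancel₀ hne h6
  rw [← Complex.exp_log n1, ← Complex.exp_log n2, h7]

end MinMod
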