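import Mathlib

open Filter MeromorphicAt MeasureTheory MeromorphicOn Metric Real Set Topology
open scoped ComplexConjugate

namespace MinMod

/-- order of vanishing as an integer -/
noncomputable def ordZ (f : ℂ → ℂ) (u : ℂ) : ℤ := (meromorphicOrderAt f u).untop₀

variable {f : ℂ → ℂ}

lemma divisor_eq_ordZ {c u : ℂ} {R : ℝ} (hf : AnalyticOnNhd ℂ f (closedBall c R))
    (hu : u ∈ closedBall c R) : divisor f (closedBall c R) u = ordZ f u :=
  hf.meromorphicOn.divisor_apply hu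

lemma ordZ_nonneg {u : ℂ} (hf : AnalyticAt ℂ f u) : 0 ≤ ordZ f u := by
  rw [ordZ, hf.meromorphicOrderAt_eq]
  cases h : analyticOrderAt f u with
  | top => simp
  | coe n => simp

lemma order_ne_top (hf : Differentiable ℂ f) (hne : ∃ z, f z ≠ 0) (u : ℂ) :
    meromorphicOrderAt f u ≠ ⊤ := by
  have hfa : AnalyticOnNhd ℂ f univ := hf.differentiableOn.analyticOnNhd isOpen_univ
  obtain ⟨z, hz⟩ := hne
  have h₂f : ∀ u : (univ : Set ℂ), meromorphicOrderAt f u ≠ ⊤ := by
    rw [← hfa.meromorphicOn.exists_meromorphicOrderAt_ne_top_iff_forall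
      ⟨⟨z, mem_univ z⟩, isPreconnected_univ⟩]
    refine ⟨⟨z, mem_univ z⟩, ?_⟩
    rw [(hfa z (mem_univ z)).meromorphicOrderAt_eq,
      (hfa z (mem_univ z)).analyticOrderAt_eq_zero.mpr hz]
    simp
  exact h₂f ⟨u, mem_univ u⟩

lemma one_le_ordZ (hf : Differentiable ℂ f) (hne : ∃ z, f z ≠ 0) {u : ℂ} (hu : f u = 0) :
    1 ≤ ordZ f u := by
  have hfa : AnalyticAt ℂ f u := hf.analyticAt u
  have h1 := order_ne_top hf hne u
  rw [hfa.meromorphicOrderAt_eq] at h1
  have h3 : analyticOrderAt f u ≠ 0 := fun h => hfa.analyticOrderAt_eq_zero.1 h hu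
  rw [ordZ, hfa.meromorphicOrderAt_eq]
  cases h : analyticOrderAt f u with
  | top => rw [h] at h1; simp at h1
  | coe n =>
    rw [h] at h3
    simp only [ENat.map_coe, WithTop.untop₀_coe]
    have : n ≠ 0 := by exact_mod_cast h3
    omega

lemma ordZ_eq_zero (hf : Differentiable ℂ f) {u : ℂ} (hu : f u ≠ 0) :
    ordZ f u = 0 := by
  have hfa : AnalyticAt ℂ f u := hf.analyticAt u
  rw [ordZ, hfa.meromorphicOrderAt_eq, hfa.analyticOrderAt_eq_zero.mpr hu]
  simp

lemma analyticOnNhd_of_diff (hf : Differentiable ℂ f) (s : Set ℂ) : AnalyticOnNhd ℂ f s :=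
  fun z _ => hf.analyticAt z

/-- the finite set of zeros in a closed ball centred at zero -/
noncomputable def zeroSet (f : ℂ → ℂ) (R : ℝ) : Finset ℂ :=
  ((divisor f (closedBall 0 R)).finiteSupport (isCompact_closedBall (0 : ℂ) R)).toFinset

lemma mem_zeroSet (hf : Differentiable ℂ f) {R : ℝ} {u : ℂ} :
    u ∈ zeroSet f R ↔ ‖u‖ ≤ R ∧ ordZ f u ≠ 0 := by
  rw [zeroSet, Set.Finite.mem_toFinset, Function.mem_support]
  by_cases hu : ‖u‖ ≤ R
  · have hu' : u ∈ closedBall (0 : ℂ) R := by simpa using hu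
    rw [divisor_eq_ordZ (analyticOnNhd_of_diff hf _) hu']
    tauto
  · have hu' : u ∉ closedBall (0 : ℂ) R := by simpa using hu
    rw [Function.locallyFinsuppWithin.apply_eq_zero_of_notMem _ hu']
    tauto

lemma zero_null (hf : Differentiable ℂ f) (hne : ∃ z, f z ≠ 0) {ρ : ℝ} (hρ : 0 < ρ) :
    volume {θ : ℝ | f (circleMap 0 ρ θ) = 0} = 0 := by
  have hc : ((zeroSet f ρ : Set ℂ)).Countable := (zeroSet f ρ).countable_toSet
  have h1 := (hc.preimage_circleMap 0 hρ.ne').measure_zero volume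
  refine measure_mono_null ?_ h1
  intro θ hθ
  simp only [mem_setOf_eq] at hθ
  rw [mem_preimage, Finset.mem_coe, mem_zeroSet hf]
  refine ⟨?_, ?_⟩
  · simp [abs_of_pos hρ]
  · have := one_le_ordZ hf hne hθ
    omega

/-- Jensen's formula in the form we need -/
lemma jensen_lower (hf : Differentiable ℂ f) (hne : ∃ z, f z ≠ 0) {R₁ R : ℝ} (h1 : 1 ≤ R)
    (hR : R₁ ≤ R) (hR1 : 0 < R₁) (hR' : R / R₁ ≤ R) :
    Real.log ‖meromorphicTrailingCoeffAt f 0‖ +
      Real.log (R / R₁) * ∑ u ∈ zeroSet f R₁, (ordZ f u : ℝ) ≤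
        circleAverage (fun z => Real.log ‖f z‖) 0 R := by
  have hR0 : 0 < R := by linarith
  have hmer : MeromorphicOn f (closedBall 0 |R|) := (analyticOnNhd_of_diff hf _).meromorphicOn
  have hJ := hmer.circleAverage_log_norm hR0.ne'
  rw [abs_of_pos hR0] at hJ
  rw [finsum_eq_sum_of_support_subset (s := zeroSet f R)] at hJ
  rotate_left
  · intro u hu
    simp only [Function.mem_support, ne_eq, mul_eq_zero, not_or, Int.cast_eq_zero] at hu
    simpa [zeroSet] using hu.1
  have hsub : zeroSet f R₁ ⊆ zeroSet f R := by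
    intro u hu
    rw [mem_zeroSet hf] at hu ⊢
    exact ⟨hu.1.trans hR, hu.2⟩
  have hD : ∀ u ∈ zeroSet f R, divisor f (closedBall 0 R) u = ordZ f u := by
    intro u hu
    rw [mem_zeroSet hf] at hu
    exact divisor_eq_ordZ (analyticOnNhd_of_diff hf _) (by simpa using hu.1)
  have hD0 : divisor f (closedBall 0 R) 0 = ordZ f 0 :=
    divisor_eq_ordZ (analyticOnNhd_of_diff hf _) (by simpa using hR0.le)
  rw [hD0] at hJ
  have hlogR : 0 ≤ Real.log R := Real.log_nonneg h1
  have hnn : ∀ u ∈ zeroSet f R, 0 ≤ (divisor f (closedBall 0 R) u : ℝ) * Real.log (R * ‖0 - u‖⁻¹) := by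
    intro u hu
    rw [hD u hu]
    apply mul_nonneg
    · exact_mod_cast ordZ_nonneg (hf.analyticAt u)
    · rw [mem_zeroSet hf] at hu
      by_cases hu0 : u = 0
      · subst hu0; simp
      · have : 0 < ‖u‖ := norm_pos_iff.2 hu0
        rw [zero_sub, norm_neg]
        apply Real.log_nonneg
        rw [← div_eq_mul_inv, le_div_iff₀ this]
        linarith [hu.1]
  have hge : Real.log (R / R₁) * ∑ u ∈ zeroSet f R₁, (ordZ f u : ℝ) ≤
      ∑ u ∈ zeroSet f R, (divisor f (closedBall 0 R) u : ℝ) * Real.log (R * ‖0 - u‖⁻¹)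
        + (ordZ f 0 : ℝ) * Real.log R := by
    classical
    have hlog2 : Real.log (R / R₁) ≤ Real.log R := Real.log_le_log (by positivity) hR'
    have key : ∀ u ∈ zeroSet f R₁, (ordZ f u : ℝ) * Real.log (R / R₁) ≤
        (divisor f (closedBall 0 R) u : ℝ) * Real.log (R * ‖0 - u‖⁻¹) +
          (if u = 0 then (ordZ f 0 : ℝ) * Real.log R else 0) := by
      intro u hu
      rw [hD u (hsub hu)]
      have h0 : (0 : ℝ) ≤ ordZ f u := by exact_mod_cast ordZ_nonneg (hf.analyticAt u)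
      by_cases hu0 : u = 0
      · subst hu0
        simp only [sub_self, norm_zero, inv_zero, mul_zero, Real.log_zero, if_true, zero_add]
        exact mul_le_mul_of_nonneg_left hlog2 h0
      · have hupos : 0 < ‖u‖ := norm_pos_iff.2 hu0
        rw [if_neg hu0, add_zero, zero_sub, norm_neg]
        apply mul_le_mul_of_nonneg_left _ h0
        rw [mem_zeroSet hf] at hu
        apply Real.log_le_log (by positivity)
        rw [div_eq_mul_inv]
        apply mul_le_mul_of_nonneg_left _ hR0.le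
        exact inv_anti₀ hupos hu.1
    rw [mul_comm, Finset.sum_mul]
    refine (Finset.sum_le_sum key).trans ?_
    rw [Finset.sum_add_distrib]
    have s1 : ∑ u ∈ zeroSet f R₁, (divisor f (closedBall 0 R) u : ℝ) * Real.log (R * ‖0 - u‖⁻¹)
        ≤ ∑ u ∈ zeroSet f R, (divisor f (closedBall 0 R) u : ℝ) * Real.log (R * ‖0 - u‖⁻¹) :=
      Finset.sum_le_sum_of_subset_of_nonneg hsub (fun u hu _ => hnn u hu)
    have s2 : ∑ u ∈ zeroSet f R₁, (if u = 0 then (ordZ f 0 : ℝ) * Real.log R else 0) ≤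
        (ordZ f 0 : ℝ) * Real.log R := by
      rw [Finset.sum_ite_eq']
      have h0 : (0 : ℝ) ≤ ordZ f 0 := by exact_mod_cast ordZ_nonneg (hf.analyticAt 0)
      split_ifs
      · exact le_refl _
      · positivity
    linarith
  linarith

lemma window (hf : Differentiable ℂ f) (hne : ∃ z, f z ≠ 0) {ρ M m κ θ₀ w : ℝ} (hρ : 0 < ρ)
    (hM : ∀ z : ℂ, ‖z‖ = ρ → Real.log ‖f z‖ ≤ M) (hM0 : 0 ≤ M)
    (hm : -m ≤ circleAverage (fun z => Real.log ‖f z‖) 0 ρ) (hw : 0 < w) (hwπ : w ≤ π)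
    (hκ : π * (M + m) < κ * w) :
    ∃ θ ∈ Icc (θ₀ - w) (θ₀ + w), f (circleMap 0 ρ θ) ≠ 0 ∧
      -κ ≤ Real.log ‖f (circleMap 0 ρ θ)‖ := by
  by_contra hcon
  push Not at hcon
  set g : ℝ → ℝ := fun θ => Real.log ‖f (circleMap 0 ρ θ)‖ with hg
  have hint0 : CircleIntegrable (fun z => Real.log ‖f z‖) 0 ρ :=
    (analyticOnNhd_of_diff hf _).meromorphicOn.circleIntegrable_log_norm
  have hper : Function.Periodic g (2 * π) := fun x => by simp [hg, periodic_circleMap 0 ρ x]
  have hint : ∀ a b, IntervalIntegrable g volume a b := by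
    intro a b
    exact hper.intervalIntegrable₀ (by positivity) hint0 a b
  have havg : circleAverage (fun z => Real.log ‖f z‖) 0 ρ
      = (2 * π)⁻¹ * ∫ θ in (θ₀ - w)..(θ₀ - w + 2 * π), g θ := by
    rw [circleAverage_def, smul_eq_mul]
    congr 1
    have := hper.intervalIntegral_add_eq 0 (θ₀ - w)
    rw [zero_add] at this
    exact this
  have hsplit : ∫ θ in (θ₀ - w)..(θ₀ - w + 2 * π), g θ =
      (∫ θ in (θ₀ - w)..(θ₀ + w), g θ) + ∫ θ in (θ₀ + w)..(θ₀ - w + 2 * π), g θ :=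
    (intervalIntegral.integral_add_adjacent_intervals (hint _ _) (hint _ _)).symm
  have h1 : ∫ θ in (θ₀ - w)..(θ₀ + w), g θ ≤ ∫ _θ in (θ₀ - w)..(θ₀ + w), (-κ) := by
    apply intervalIntegral.integral_mono_ae_restrict (by linarith) (hint _ _)
      intervalIntegrable_const
    have hnull := zero_null hf hne hρ
    rw [EventuallyLE, ae_restrict_iff' measurableSet_Icc]
    have h2 : ∀ᵐ θ : ℝ ∂volume, f (circleMap 0 ρ θ) ≠ 0 := by
      rw [ae_iff]; simpa using hnull
    filter_upwards [h2] with θ hθ hθI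
    exact (hcon θ hθI hθ).le
  have h2 : ∫ θ in (θ₀ + w)..(θ₀ - w + 2 * π), g θ ≤
      ∫ _θ in (θ₀ + w)..(θ₀ - w + 2 * π), M := by
    apply intervalIntegral.integral_mono_on (by linarith) (hint _ _) intervalIntegrable_const
    intro θ _
    apply hM
    simp [abs_of_pos hρ]
  rw [intervalIntegral.integral_const, smul_eq_mul] at h1 h2
  have h3 : (∫ θ in (θ₀ - w)..(θ₀ - w + 2 * π), g θ) ≤ - 2 * w * κ + 2 * π * M := by
    rw [hsplit]
    nlinarith
  have h4 : -m ≤ (2 * π)⁻¹ * (- 2 * w * κ + 2 * π * M) := by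
    rw [havg] at hm
    refine hm.trans ?_
    apply mul_le_mul_of_nonneg_left h3 (by positivity)
  have hπ := Real.pi_pos
  rw [inv_mul_eq_div, le_div_iff₀ (by positivity)] at h4
  nlinarith

end MinMod
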