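import Mathlib
import Pool.Agent.Work.MP_06ac62_an.Core
import Pool.Agent.Work.MP_06ac62_an.Avg
import Pool.Agent.Work.MP_06ac62_an.Zeros
import Pool.Agent.Work.MP_06ac62_an.Phi

open Filter MeromorphicAt MeasureTheory MeromorphicOn Metric Real Set Topology
open scoped ComplexConjugate

namespace MinMod

/-- level of a point relative to `R`, at scale `1/L` -/
noncomputable def lev (L R : ℝ) (v : ℂ) : ℝ := L * Real.log (‖v‖ / R)

theorem point_bound {f : ℂ → ℂ} (hf : Differentiable ℂ f) (hne : ∃ z, f z ≠ 0) {e L R B x : ℝ}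
    (he : 0 < e) (he1 : e ≤ 1 / 20) (hL : 42 / e ≤ L) (hB : 0 < B)
    (hR : Real.exp (4 * Real.log L / L) ≤ R)
    (hx0 : 0 ≤ x) (hxe : x ≤ e)
    (H1 : ∀ t : ℝ, -(4 * Real.log L) ≤ t → t ≤ 3 → ∀ z : ℂ, ‖z‖ ≤ R * Real.exp (t / L) →
      Real.log ‖f z‖ ≤ B * Real.exp (t + e))
    (H2 : - (L ^ 4)⁻¹ * B ≤ Real.log ‖meromorphicTrailingCoeffAt f 0‖)
    (hxv : ∀ v ∈ zeroSet f (R * Real.exp (2 / L)), x ≠ lev L R v)
    {z₀ : ℂ} (hz₀ : ‖z₀‖ = R * Real.exp (x / L)) :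
    f z₀ ≠ 0 ∧ - (4 * (1 + e) + 4 * (1 + e) / e ^ 2) * (B * Real.exp (2 * e)) -
      (2 * (1 + e) * ((1 + e) / (1 - e)) * (B * Real.exp (2 * e))) * Real.log L -
      ∑ v ∈ zeroSet f (R * Real.exp (2 / L)), (ordZ f v : ℝ) * kern (4 / L) (x - lev L R v) ≤
      Real.log ‖f z₀‖ := by
  classical
  have hL840 : 840 ≤ L := by
    have : 840 ≤ 42 / e := by rw [le_div_iff₀ he]; linarith
    linarith
  have hL0 : 0 < L := by linarith
  have hRpos : 0 < R := lt_of_lt_of_le (Real.exp_pos _) hR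
  have hlogL : 0 < Real.log L := Real.log_pos (by linarith)
  have hz₀pos : 0 < ‖z₀‖ := by rw [hz₀]; positivity
  have hz₀ne : z₀ ≠ 0 := norm_pos_iff.1 hz₀pos
  set A := 4 * Real.log L with hA
  have hexpA : Real.exp (-A) = (L ^ 4)⁻¹ := by
    rw [hA, Real.exp_neg, ← Real.exp_log (pow_pos hL0 4), Real.log_pow]
    push_cast; rfl
  have hexpA2 : Real.exp (-(A / 2)) = (L ^ 2)⁻¹ := by
    rw [hA, Real.exp_neg, ← Real.exp_log (pow_pos hL0 2), Real.log_pow]
    congr 2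
    push_cast; ring
  -- the inner circle
  set ρ' := R * Real.exp (-A / L) with hρ'
  have hρ'pos : 0 < ρ' := by positivity
  have hρ'1 : 1 ≤ ρ' := by
    rw [hρ']
    have : Real.exp (A / L) * Real.exp (-A / L) = 1 := by
      rw [← Real.exp_add]; simp [neg_div]
    calc (1 : ℝ) = Real.exp (A / L) * Real.exp (-A / L) := this.symm
      _ ≤ R * Real.exp (-A / L) := mul_le_mul_of_nonneg_right hR (Real.exp_pos _).le
  have hfz₀ : f z₀ ≠ 0 := by
    intro h
    have hmem : z₀ ∈ zeroSet f (R * Real.exp (2 / L)) := by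
      rw [mem_zeroSet hf]
      refine ⟨?_, ?_⟩
      · rw [hz₀]
        apply mul_le_mul_of_nonneg_left _ hRpos.le
        apply Real.exp_le_exp.2
        apply div_le_div_of_nonneg_right _ hL0.le
        linarith
      · have := one_le_ordZ hf hne h
        omega
    apply hxv z₀ hmem
    rw [lev, hz₀]
    have : R * Real.exp (x / L) / R = Real.exp (x / L) := by field_simp
    rw [this, Real.log_exp]
    field_simp
  refine ⟨hfz₀, ?_⟩
  -- a good point on the inner circle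
  have hcircle : -((L ^ 4)⁻¹ * B) ≤ circleAverage (fun z => Real.log ‖f z‖) 0 ρ' := by
    have h1 := jensen_lower hf hne hρ'1 (le_refl ρ') hρ'pos (by rw [div_self hρ'pos.ne']; exact hρ'1)
    rw [div_self hρ'pos.ne', Real.log_one, zero_mul, add_zero] at h1
    linarith
  have hexpe : Real.exp e ≤ 2 := by
    have h1 : Real.exp e ≤ Real.exp (1 / 20) := Real.exp_le_exp.2 he1
    have h2 : Real.exp (1 / 20) ≤ 2 := by
      have : Real.exp (1 / 20) ≤ Real.exp (Real.log 2) := by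
        apply Real.exp_le_exp.2
        have := Real.log_two_gt_d9
        linarith
      rwa [Real.exp_log (by norm_num)] at this
    linarith
  obtain ⟨θ, hθ, hfθ, hκθ⟩ := window hf hne (ρ := ρ') (M := B * ((L ^ 4)⁻¹ * Real.exp e))
    (m := (L ^ 4)⁻¹ * B) (κ := 16 * (L ^ 3)⁻¹ * B) (θ₀ := Complex.arg z₀) (w := π / (4 * L)) hρ'pos
    (by
      intro z hz
      have h1 := H1 (-A) (le_refl _) (by linarith) z (by rw [hz])
      refine h1.trans (le_of_eq ?_)
      rw [Real.exp_add, hexpA])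
    (by positivity) hcircle (by positivity)
    (by
      rw [div_le_iff₀ (by positivity)]
      have := Real.pi_pos
      nlinarith)
    (by
      have hπ := Real.pi_pos
      have e1 : 16 * (L ^ 3)⁻¹ * B * (π / (4 * L)) = π * (4 * ((L ^ 4)⁻¹ * B)) := by
        field_simp
        ring
      rw [e1]
      apply mul_lt_mul_of_pos_left _ hπ
      have : 0 < (L ^ 4)⁻¹ * B := by positivity
      nlinarith)
  set κ := 16 * (L ^ 3)⁻¹ * B with hκ
  set β := (θ - Complex.arg z₀) * (L / 2) with hβ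
  have hβabs : |β| ≤ π / 8 := by
    rw [hβ, abs_mul, abs_of_pos (by positivity : 0 < L / 2)]
    have h1 : |θ - Complex.arg z₀| ≤ π / (4 * L) := by
      rw [abs_le]; constructor <;> linarith [hθ.1, hθ.2]
    calc |θ - Complex.arg z₀| * (L / 2) ≤ π / (4 * L) * (L / 2) :=
          mul_le_mul_of_nonneg_right h1 (by positivity)
      _ = π / 8 := by field_simp; ring
  set ω : ℂ := ((-((A + x) / 2) : ℝ) : ℂ) + (β : ℂ) * Complex.I with hω
  have hωre : ω.re = -((A + x) / 2) := by simp [hω]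
  have hωim : ω.im = β := by simp [hω]
  set τ : ℂ := Complex.exp ω with hτdef
  have hπ := Real.pi_pos
  have hlogτ : Complex.log τ = ω := by
    rw [hτdef, Complex.log_exp]
    · rw [hωim]; rw [abs_le] at hβabs; linarith [hβabs.1]
    · rw [hωim]; rw [abs_le] at hβabs; linarith [hβabs.2]
  have hnormτ : ‖τ‖ = (L ^ 2)⁻¹ * Real.exp (-(x / 2)) := by
    rw [hτdef, Complex.norm_exp, hωre, ← hexpA2, ← Real.exp_add]
    congr 1; ring
  have hτle : ‖τ‖ ≤ (L ^ 2)⁻¹ := by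
    rw [hnormτ]
    have : Real.exp (-(x / 2)) ≤ 1 := Real.exp_le_one_iff.2 (by linarith)
    have h2 : 0 < (L ^ 2)⁻¹ := by positivity
    nlinarith
  have hτge : (L ^ 2)⁻¹ / 2 ≤ ‖τ‖ := by
    rw [hnormτ]
    have h1 : -(x / 2) + 1 ≤ Real.exp (-(x / 2)) := Real.add_one_le_exp _
    have h2 : 0 < (L ^ 2)⁻¹ := by positivity
    nlinarith
  have hτre : ‖τ‖ / 2 ≤ τ.re := by
    have h1 : τ.re = ‖τ‖ * Real.cos β := by
      rw [hτdef, Complex.exp_re, Complex.norm_exp, hωim]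
    have h2 : (1 : ℝ) / 2 ≤ Real.cos β := by
      rw [← Real.cos_abs, ← Real.cos_pi_div_three]
      apply Real.cos_le_cos_of_nonneg_of_le_pi (abs_nonneg _) (by linarith)
      linarith
    rw [h1]
    have := norm_nonneg τ
    nlinarith
  have hLinv2 : (L ^ 2)⁻¹ ≤ 1 / 4 := by
    rw [inv_le_comm₀ (by positivity) (by norm_num)]
    nlinarith
  have hτnpos : 0 < ‖τ‖ := by
    have : 0 < (L ^ 2)⁻¹ := by positivity
    linarith
  have hτlt : ‖τ‖ ^ 2 < τ.re := by nlinarith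
  -- the radius
  have h1mτ : 0 < 1 - ‖τ‖ ^ 2 := by nlinarith
  set ρ := Real.sqrt (1 - ‖τ‖ ^ 2) with hρ
  have hρ2 : ρ ^ 2 = 1 - ‖τ‖ ^ 2 := Real.sq_sqrt h1mτ.le
  have hρ0 : 0 < ρ := Real.sqrt_pos.2 h1mτ
  have hρ1 : ρ < 1 := by
    have : 0 < ‖τ‖ ^ 2 := by positivity
    nlinarith
  have hnormτ1 : ‖τ - 1‖ ^ 2 = 1 - 2 * τ.re + ‖τ‖ ^ 2 := by
    rw [← Complex.normSq_eq_norm_sq, ← Complex.normSq_eq_norm_sq, Complex.normSq_apply,
      Complex.normSq_apply]
    simp only [Complex.sub_re, Complex.one_re, Complex.sub_im, Complex.one_im]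
    ring
  have hτρ : ‖τ - 1‖ < ρ := by
    apply lt_of_pow_lt_pow_left₀ 2 hρ0.le
    rw [hnormτ1, hρ2]; linarith
  -- the function F
  set F : ℂ → ℂ := f ∘ (phi z₀ L) with hFdef
  have hre : ∀ ζ ∈ closedBall (1 : ℂ) ρ, 0 < ζ.re := by
    intro ζ hζ
    rw [mem_closedBall, dist_eq_norm] at hζ
    have h1 := (Complex.abs_re_le_norm (ζ - 1)).trans hζ
    rw [Complex.sub_re, Complex.one_re, abs_le] at h1
    linarith [h1.1]
  have hFan : AnalyticOnNhd ℂ F (closedBall 1 ρ) := by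
    intro ζ hζ
    exact (hf.analyticAt _).comp (phi_analyticAt z₀ L (hre ζ hζ))
  have hF1 : F 1 ≠ 0 := by
    simp only [hFdef, Function.comp_apply, phi_one]
    exact hfz₀
  have hphiτ : phi z₀ L τ = circleMap 0 ρ' θ := by
    rw [phi, hlogτ, circleMap_zero]
    have h1 : z₀ = (‖z₀‖ : ℂ) * Complex.exp (Complex.arg z₀ * Complex.I) :=
      (Complex.norm_mul_exp_arg_mul_I z₀).symm
    conv_lhs => rw [h1]
    rw [hz₀, hρ', mul_assoc, ← Complex.exp_add]
    push_cast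
    rw [mul_assoc, mul_assoc, ← Complex.exp_add, ← Complex.exp_add]
    congr 2
    rw [hω, hβ]
    push_cast
    have hLC : (L : ℂ) ≠ 0 := by exact_mod_cast hL0.ne'
    field_simp
    ring
  have hFτ : F τ ≠ 0 := by
    simp only [hFdef, Function.comp_apply, hphiτ]
    exact hfθ
  have hκτ : -κ ≤ Real.log ‖F τ‖ := by
    simp only [hFdef, Function.comp_apply, hphiτ]
    exact hκθ
  -- norm of phi
  have hnphi : ∀ ζ : ℂ, ‖phi z₀ L ζ‖ = R * Real.exp ((x + 2 * Real.log ‖ζ‖) / L) := by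
    intro ζ
    rw [norm_phi, hz₀, mul_assoc, ← Real.exp_add]
    congr 2; ring
  set B₁ := B * Real.exp (2 * e) with hB₁
  have hB₁pos : 0 < B₁ := by positivity
  have hBB₁ : B ≤ B₁ := by
    rw [hB₁]
    have : 1 ≤ Real.exp (2 * e) := Real.one_le_exp (by positivity)
    nlinarith
  set δ := (L ^ 4)⁻¹ with hδ
  have hbd : ∀ ζ ∈ sphere (1 : ℂ) ρ, Real.log ‖F ζ‖ ≤ B₁ * (‖ζ‖ ^ 2 + δ) := by
    intro ζ hζ
    have hζre := hre ζ (sphere_subset_closedBall hζ)
    have hζ0 : 0 < ‖ζ‖ := by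
      apply norm_pos_iff.2
      intro h; rw [h] at hζre; simp at hζre
    rw [mem_sphere, dist_eq_norm] at hζ
    have hζ2 : ‖ζ‖ ≤ 2 := by
      calc ‖ζ‖ = ‖(ζ - 1) + 1‖ := by ring_nf
        _ ≤ ‖ζ - 1‖ + ‖(1 : ℂ)‖ := norm_add_le _ _
        _ ≤ 2 := by rw [hζ, norm_one]; linarith
    have hδpos : 0 < δ := by positivity
    by_cases ht : -A ≤ x + 2 * Real.log ‖ζ‖
    · have ht3 : x + 2 * Real.log ‖ζ‖ ≤ 3 := by
        have h1 : Real.log ‖ζ‖ ≤ Real.log 2 := Real.log_le_log hζ0 hζ2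
        have := Real.log_two_lt_d9
        linarith
      have h1 := H1 _ ht ht3 (phi z₀ L ζ) (le_of_eq (hnphi ζ))
      have h2 : Real.exp (x + 2 * Real.log ‖ζ‖ + e) = Real.exp (x + e) * ‖ζ‖ ^ 2 := by
        have : x + 2 * Real.log ‖ζ‖ + e = (x + e) + Real.log (‖ζ‖ ^ 2) := by
          rw [Real.log_pow]; push_cast; ring
        rw [this, Real.exp_add, Real.exp_log (by positivity)]
      rw [h2] at h1
      have h3 : Real.exp (x + e) ≤ Real.exp (2 * e) := Real.exp_le_exp.2 (by linarith)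
      calc Real.log ‖F ζ‖ ≤ B * (Real.exp (x + e) * ‖ζ‖ ^ 2) := h1
        _ ≤ B * (Real.exp (2 * e) * ‖ζ‖ ^ 2) := by gcongr
        _ = B₁ * ‖ζ‖ ^ 2 := by rw [hB₁]; ring
        _ ≤ B₁ * (‖ζ‖ ^ 2 + δ) := by
            apply mul_le_mul_of_nonneg_left _ hB₁pos.le
            linarith
    · push Not at ht
      have h1 := H1 (-A) (le_refl _) (by linarith) (phi z₀ L ζ) (by
        rw [hnphi ζ]
        apply mul_le_mul_of_nonneg_left _ hRpos.le
        apply Real.exp_le_exp.2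
        exact div_le_div_of_nonneg_right ht.le hL0.le)
      calc Real.log ‖F ζ‖ ≤ B * Real.exp (-A + e) := h1
        _ = B * (δ * Real.exp e) := by rw [Real.exp_add, hexpA]
        _ ≤ B * (δ * Real.exp (2 * e)) := by
            have : Real.exp e ≤ Real.exp (2 * e) := Real.exp_le_exp.2 (by linarith)
            gcongr
        _ = B₁ * δ := by rw [hB₁]; ring
        _ ≤ B₁ * (‖ζ‖ ^ 2 + δ) := by
            apply mul_le_mul_of_nonneg_left _ hB₁pos.le
            have : 0 ≤ ‖ζ‖ ^ 2 := by positivity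
            linarith
  have hS : B₁ * (2 * τ.re + δ) + κ ≤ (1 + e) * ((ρ ^ 2 - ‖τ - 1‖ ^ 2) / ρ ^ 2) * B₁ := by
    have h1 : ρ ^ 2 - ‖τ - 1‖ ^ 2 = 2 * (τ.re - ‖τ‖ ^ 2) := by
      rw [hρ2, hnormτ1]; ring
    have h2 : 2 * (τ.re - ‖τ‖ ^ 2) ≤ (ρ ^ 2 - ‖τ - 1‖ ^ 2) / ρ ^ 2 := by
      rw [h1, le_div_iff₀ (by positivity)]
      have : ρ ^ 2 ≤ 1 := by nlinarith
      nlinarith
    have h3 : κ ≤ 16 * (L ^ 3)⁻¹ * B₁ := by
      rw [hκ]; gcongr
    have hi2 : (L ^ 2)⁻¹ = L * (L ^ 3)⁻¹ := by field_simp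
    have hi4 : (L ^ 4)⁻¹ ≤ (L ^ 3)⁻¹ := by
      apply inv_anti₀ (by positivity)
      exact pow_le_pow_right₀ (by linarith) (by norm_num)
    have hi3 : 0 < (L ^ 3)⁻¹ := by positivity
    have hτ2 : ‖τ‖ ^ 2 ≤ (L ^ 4)⁻¹ := by
      have : (L ^ 4)⁻¹ = ((L ^ 2)⁻¹) ^ 2 := by rw [← inv_pow, ← inv_pow, ← pow_mul]
      rw [this]
      exact pow_le_pow_left₀ (norm_nonneg _) hτle 2
    have hre4 : (L ^ 2)⁻¹ / 4 ≤ τ.re := by linarith
    have heL : 42 ≤ e * L := by
      rw [div_le_iff₀ he] at hL; linarith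
    have h4 : 2 * τ.re + δ + 16 * (L ^ 3)⁻¹ ≤ (1 + e) * (2 * (τ.re - ‖τ‖ ^ 2)) := by
      have h5 : 21 * (L ^ 3)⁻¹ ≤ 2 * e * τ.re := by
        have : 42 * (L ^ 3)⁻¹ ≤ (e * L) * (L ^ 3)⁻¹ := mul_le_mul_of_nonneg_right heL hi3.le
        have h6 : e * ((L ^ 2)⁻¹ / 4) ≤ e * τ.re := mul_le_mul_of_nonneg_left hre4 he.le
        rw [hi2] at h6
        nlinarith
      have h7 : (1 + e) * (2 * ‖τ‖ ^ 2) ≤ 4 * (L ^ 3)⁻¹ := by nlinarith
      nlinarith
    calc B₁ * (2 * τ.re + δ) + κ ≤ B₁ * (2 * τ.re + δ) + 16 * (L ^ 3)⁻¹ * B₁ := by linarith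
      _ = (2 * τ.re + δ + 16 * (L ^ 3)⁻¹) * B₁ := by ring
      _ ≤ ((1 + e) * (2 * (τ.re - ‖τ‖ ^ 2))) * B₁ := mul_le_mul_of_nonneg_right h4 hB₁pos.le
      _ ≤ (1 + e) * ((ρ ^ 2 - ‖τ - 1‖ ^ 2) / ρ ^ 2) * B₁ := by
          apply mul_le_mul_of_nonneg_right _ hB₁pos.le
          apply mul_le_mul_of_nonneg_left h2 (by linarith)
  obtain ⟨T, hT1, hT2, hT3⟩ := core hρ0 hρ2 hτρ hFan hB₁pos.le (by positivity : 0 ≤ δ) hbd hFτ hκτ
    hF1 hS he (by linarith)
  have hFz : F 1 = f z₀ := by simp [hFdef, phi_one]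
  rw [hFz] at hT3
  set D := divisor F (closedBall 1 ρ) with hD
  -- points of T
  have hTball : ∀ u ∈ T, u ∈ closedBall (1 : ℂ) ρ := by
    intro u hu
    rw [mem_closedBall, dist_eq_norm]
    have := (hT1 u hu).1
    nlinarith
  have hTre : ∀ u ∈ T, 0 < u.re := fun u hu => hre u (hTball u hu)
  have hTord : ∀ u ∈ T, D u = ordZ f (phi z₀ L u) := by
    intro u hu
    rw [hD, divisor_eq_ordZ hFan (hTball u hu), ordZ, ordZ, hFdef,
      meromorphicOrderAt_comp_of_deriv_ne_zero (phi_analyticAt z₀ L (hTre u hu))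
      (deriv_phi_ne hz₀ne hL0 (hTre u hu))]
  have hlogu : ∀ u ∈ T, |Real.log ‖u‖| ≤ 2 * ‖u - 1‖ := by
    intro u hu
    have h1 : ‖u - 1‖ ≤ 1 / 20 := by
      have := (hT1 u hu).1
      nlinarith
    have h2 : |‖u‖ - 1| ≤ ‖u - 1‖ := by
      have := abs_norm_sub_norm_le u 1
      rwa [norm_one] at this
    rw [abs_le] at h2
    have hu0 : 0 < ‖u‖ := by linarith [h2.1]
    rw [abs_le]
    constructor
    · have h3 : 1 - (‖u‖)⁻¹ ≤ Real.log ‖u‖ := Real.one_sub_inv_le_log_of_pos hu0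
      have h4 : - (2 * ‖u - 1‖) ≤ 1 - (‖u‖)⁻¹ := by
        have h5 : (‖u‖)⁻¹ ≤ 1 + 2 * ‖u - 1‖ := by
          rw [inv_le_iff_one_le_mul₀ hu0]
          nlinarith [norm_nonneg (u - 1)]
        linarith
      linarith
    · have h3 := Real.log_le_sub_one_of_pos hu0
      linarith [norm_nonneg (u - 1), h2.2]
  have hlevT : ∀ u ∈ T, lev L R (phi z₀ L u) = x + 2 * Real.log ‖u‖ := by
    intro u hu
    rw [lev, hnphi u]
    have : R * Real.exp ((x + 2 * Real.log ‖u‖) / L) / R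
      = Real.exp ((x + 2 * Real.log ‖u‖) / L) := by field_simp
    rw [this, Real.log_exp]
    field_simp
  have hmemZ : ∀ u ∈ T, D u ≠ 0 → phi z₀ L u ∈ zeroSet f (R * Real.exp (2 / L)) := by
    intro u hu hDu
    rw [mem_zeroSet hf]
    refine ⟨?_, ?_⟩
    · rw [hnphi u]
      apply mul_le_mul_of_nonneg_left _ hRpos.le
      apply Real.exp_le_exp.2
      apply div_le_div_of_nonneg_right _ hL0.le
      have h1 := hlogu u hu
      have h2 := (hT1 u hu).1
      rw [abs_le] at h1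
      nlinarith [h1.2]
    · rw [← hTord u hu]; exact hDu
  have hterm : ∀ u ∈ T, (D u : ℝ) * Real.log (ρ / ‖u - 1‖) ≤
      (D u : ℝ) * Real.log L + (D u : ℝ) * kern (4 / L) (x - lev L R (phi z₀ L u)) := by
    intro u hu
    by_cases hDu : D u = 0
    · simp [hDu]
    rw [← mul_add]
    have hD0 : (0 : ℝ) ≤ D u := by exact_mod_cast (hT1 u hu).2.2
    apply mul_le_mul_of_nonneg_left _ hD0
    have hupos : 0 < ‖u - 1‖ := norm_pos_iff.2 (sub_ne_zero.2 (hT1 u hu).2.1)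
    have h1 : x ≠ lev L R (phi z₀ L u) := hxv _ (hmemZ u hu hDu)
    have h2 := hlevT u hu
    set y := x - lev L R (phi z₀ L u) with hy
    have hyne : y ≠ 0 := sub_ne_zero.2 h1
    have hyabs : |y| ≤ 4 * ‖u - 1‖ := by
      rw [hy, h2]
      have := hlogu u hu
      rw [abs_le] at this ⊢
      constructor <;> linarith [this.1, this.2]
    have h3 := le_kern (4 / L) y
    have h4 : Real.log (ρ / ‖u - 1‖) ≤ Real.log 4 - Real.log |y| := by
      rw [← Real.log_div (by norm_num) (abs_ne_zero.2 hyne)]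
      apply Real.log_le_log (by positivity)
      rw [div_le_div_iff₀ hupos (abs_pos.2 hyne)]
      nlinarith [abs_nonneg y]
    rw [Real.log_abs] at h4
    rw [Real.log_div (by norm_num) hL0.ne'] at h3
    linarith
  have hsum1 : ∑ u ∈ T, (D u : ℝ) * kern (4 / L) (x - lev L R (phi z₀ L u)) ≤
      ∑ v ∈ zeroSet f (R * Real.exp (2 / L)), (ordZ f v : ℝ) * kern (4 / L) (x - lev L R v) := by
    have e1 : ∑ u ∈ T, (D u : ℝ) * kern (4 / L) (x - lev L R (phi z₀ L u))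
        = ∑ u ∈ T.filter (fun u => D u ≠ 0),
            (D u : ℝ) * kern (4 / L) (x - lev L R (phi z₀ L u)) := by
      rw [Finset.sum_filter]
      apply Finset.sum_congr rfl
      intro u _
      split_ifs with h
      · rfl
      · push Not at h; simp [h]
    have e2 : ∑ u ∈ T.filter (fun u => D u ≠ 0),
            (D u : ℝ) * kern (4 / L) (x - lev L R (phi z₀ L u))
        = ∑ v ∈ (T.filter (fun u => D u ≠ 0)).image (phi z₀ L),
            (ordZ f v : ℝ) * kern (4 / L) (x - lev L R v) := by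
      rw [Finset.sum_image]
      · apply Finset.sum_congr rfl
        intro u hu
        rw [Finset.mem_filter] at hu
        rw [hTord u hu.1]
      · intro u hu v hv huv
        rw [Finset.mem_coe, Finset.mem_filter] at hu hv
        exact phi_inj hz₀ne (by linarith) (hTre u hu.1) (hTre v hv.1) huv
    rw [e1, e2]
    apply Finset.sum_le_sum_of_subset_of_nonneg
    · intro v hv
      rw [Finset.mem_image] at hv
      obtain ⟨u, hu, rfl⟩ := hv
      rw [Finset.mem_filter] at hu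
      exact hmemZ u hu.1 hu.2
    · intro v _ _
      apply mul_nonneg _ (kern_nonneg _ _)
      exact_mod_cast ordZ_nonneg (hf.analyticAt v)
  have hsum2 : ∑ u ∈ T, (D u : ℝ) * Real.log (ρ / ‖u - 1‖) ≤
      (∑ u ∈ T, (D u : ℝ)) * Real.log L +
        ∑ u ∈ T, (D u : ℝ) * kern (4 / L) (x - lev L R (phi z₀ L u)) := by
    rw [Finset.sum_mul, ← Finset.sum_add_distrib]
    exact Finset.sum_le_sum hterm
  have hsum3 : (∑ u ∈ T, (D u : ℝ)) * Real.log L ≤
      (2 * (1 + e) * ((1 + e) / (1 - e)) * B₁) * Real.log L :=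
    mul_le_mul_of_nonneg_right hT2 hlogL.le
  linarith

end MinMod
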