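import Mathlib
import Pool.Agent.Work.MP_06ac62_an.Point

open Filter MeromorphicAt MeasureTheory MeromorphicOn Metric Real Set Topology

namespace MinMod

/-- **Local lower bound** for the minimum modulus. -/
theorem local_bound {ε : ℝ} (hε : 0 < ε) (hε1 : ε ≤ 1) :
    ∃ e : ℝ, 0 < e ∧ e ≤ 1 ∧ ∃ C : ℝ, 0 ≤ C ∧ ∃ L₁ : ℝ, 1 ≤ L₁ ∧ ∀ L : ℝ, L₁ ≤ L →
      ∀ f : ℂ → ℂ, Differentiable ℂ f → (∃ z, f z ≠ 0) → ∀ R B : ℝ, 0 < B →
      Real.exp (4 * Real.log L / L) ≤ R →
      (∀ t : ℝ, -(4 * Real.log L) ≤ t → t ≤ 3 → ∀ z : ℂ, ‖z‖ ≤ R * Real.exp (t / L) →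
        Real.log ‖f z‖ ≤ B * Real.exp (t + e)) →
      (- (L ^ 4)⁻¹ * B ≤ Real.log ‖meromorphicTrailingCoeffAt f 0‖) →
      ∃ r : ℝ, R ≤ r ∧ ∀ z : ℂ, ‖z‖ = r → f z ≠ 0 ∧
        -(((2 + ε) * Real.log L + C) * B) ≤ Real.log ‖f z‖ := by
  set e : ℝ := ε / 20 with he_def
  have he : 0 < e := by positivity
  have he1 : e ≤ 1 / 20 := by rw [he_def]; linarith
  refine ⟨e, he, by linarith, (4 * (1 + e) + 4 * (1 + e) / e ^ 2) * Real.exp (2 * e) + 8 / e * 60,
    by positivity, max 1 (42 / e), le_max_left _ _, ?_⟩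
  intro L hL f hf hne R B hB hR H1 H2
  have hL1 : 1 ≤ L := (le_max_left _ _).trans hL
  have hL2 : 42 / e ≤ L := (le_max_right _ _).trans hL
  have hL840 : 840 ≤ L := by
    have : 840 ≤ 42 / e := by rw [le_div_iff₀ he]; linarith
    linarith
  have hL0 : 0 < L := by linarith
  have hRpos : 0 < R := lt_of_lt_of_le (Real.exp_pos _) hR
  have hlogL : 0 < Real.log L := Real.log_pos (by linarith)
  set Z := zeroSet f (R * Real.exp (2 / L)) with hZ
  obtain ⟨x, hx, hxne, hxsum⟩ := avg_choice Z (fun v => (ordZ f v : ℝ))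
    (fun v _ => by exact_mod_cast ordZ_nonneg (hf.analyticAt v)) (lev L R)
    (c := 4 / L) (ε := e) (by positivity) he
  -- number of zeros
  have hexpe : Real.exp e ≤ 2 := by
    have h1 : Real.exp e ≤ Real.exp (1 / 20) := Real.exp_le_exp.2 he1
    have h2 : Real.exp (1 / 20) ≤ 2 := by
      have : Real.exp (1 / 20) ≤ Real.exp (Real.log 2) := by
        apply Real.exp_le_exp.2
        have := Real.log_two_gt_d9
        linarith
      rwa [Real.exp_log (by norm_num)] at this
    linarith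
  have hexp3 : Real.exp 3 ≤ 21 := by
    have h1 : Real.exp 3 = Real.exp 1 ^ 3 := by rw [← Real.exp_nat_mul]; norm_num
    rw [h1]
    have h2 := Real.exp_one_lt_d9
    calc Real.exp 1 ^ 3 ≤ (2.7182818286 : ℝ) ^ 3 :=
          pow_le_pow_left₀ (Real.exp_pos _).le h2.le 3
      _ ≤ 21 := by norm_num
  have hL4 : (L ^ 4)⁻¹ ≤ 1 := by
    apply inv_le_one_of_one_le₀
    exact one_le_pow₀ hL1
  have hcount : ∑ v ∈ Z, (ordZ f v : ℝ) ≤ 60 * (L * B) := by
    have hR3 : 1 ≤ R * Real.exp (3 / L) := by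
      have h1 : 1 ≤ R := by
        refine le_trans ?_ hR
        apply Real.one_le_exp; positivity
      have h2 : 1 ≤ Real.exp (3 / L) := Real.one_le_exp (by positivity)
      nlinarith
    have hratio : R * Real.exp (3 / L) / (R * Real.exp (2 / L)) = Real.exp (1 / L) := by
      rw [mul_div_mul_left _ _ hRpos.ne', ← Real.exp_sub]
      congr 1; ring
    have h1 := jensen_lower hf hne (R₁ := R * Real.exp (2 / L)) (R := R * Real.exp (3 / L)) hR3
      (by
        apply mul_le_mul_of_nonneg_left _ hRpos.le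
        apply Real.exp_le_exp.2
        apply div_le_div_of_nonneg_right _ hL0.le
        norm_num) (by positivity)
      (by
        rw [hratio]
        have h1 : 1 ≤ R := by
          refine le_trans ?_ hR
          apply Real.one_le_exp; positivity
        calc Real.exp (1 / L) ≤ Real.exp (3 / L) := by
              apply Real.exp_le_exp.2
              apply div_le_div_of_nonneg_right _ hL0.le
              norm_num
          _ = 1 * Real.exp (3 / L) := by ring
          _ ≤ R * Real.exp (3 / L) := mul_le_mul_of_nonneg_right h1 (Real.exp_pos _).le)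
    rw [hratio, Real.log_exp] at h1
    have h2 : circleAverage (fun z => Real.log ‖f z‖) 0 (R * Real.exp (3 / L)) ≤
        B * Real.exp (3 + e) := by
      apply circleAverage_mono_on_of_le_circle
      · exact (analyticOnNhd_of_diff hf _).meromorphicOn.circleIntegrable_log_norm
      · intro z hz
        apply H1 3 (by linarith) (le_refl _) z
        rw [mem_sphere, dist_zero_right, abs_of_pos (by positivity)] at hz
        rw [hz]
    have h3 : B * Real.exp (3 + e) ≤ 42 * B := by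
      rw [Real.exp_add]
      have : Real.exp 3 * Real.exp e ≤ 21 * 2 :=
        mul_le_mul hexp3 hexpe (Real.exp_pos _).le (by norm_num)
      nlinarith
    have h4 : -B ≤ - (L ^ 4)⁻¹ * B := by nlinarith
    have h5 : 1 / L * ∑ v ∈ Z, (ordZ f v : ℝ) ≤ 43 * B := by linarith
    rw [one_div, inv_mul_le_iff₀ hL0] at h5
    nlinarith [mul_pos hL0 hB]
  refine ⟨R * Real.exp (x / L), ?_, ?_⟩
  · have : 1 ≤ Real.exp (x / L) := Real.one_le_exp (div_nonneg hx.1 hL0.le)
    nlinarith
  intro z hz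
  obtain ⟨h1, h2⟩ := point_bound hf hne he he1 hL2 hB hR hx.1 hx.2 H1 H2 hxne hz
  refine ⟨h1, ?_⟩
  refine le_trans ?_ h2
  have h3 : ∑ v ∈ Z, (ordZ f v : ℝ) * kern (4 / L) (x - lev L R v) ≤ 8 / e * 60 * B := by
    refine hxsum.trans ?_
    have h4 : 2 * (4 / L) / e * ∑ v ∈ Z, (ordZ f v : ℝ) ≤ 2 * (4 / L) / e * (60 * (L * B)) :=
      mul_le_mul_of_nonneg_left hcount (by positivity)
    refine h4.trans (le_of_eq ?_)
    field_simp
    ring
  have h5 : 2 * (1 + e) * ((1 + e) / (1 - e)) * (B * Real.exp (2 * e)) ≤ (2 + ε) * B := by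
    have h6 : Real.exp (2 * e) ≤ 1 / (1 - 2 * e) := by
      have := Real.add_one_le_exp (-(2 * e))
      rw [Real.exp_neg] at this
      rw [le_div_iff₀ (by linarith)]
      have h7 := Real.exp_pos (2 * e)
      have h8 : (-(2 * e) + 1) * Real.exp (2 * e) ≤ (Real.exp (2 * e))⁻¹ * Real.exp (2 * e) :=
        mul_le_mul_of_nonneg_right this h7.le
      rw [inv_mul_cancel₀ h7.ne'] at h8
      linarith
    have h1e : 0 < 1 - e := by linarith
    have h2e : 0 < 1 - 2 * e := by linarith
    have h9 : 2 * (1 + e) * ((1 + e) / (1 - e)) * (1 / (1 - 2 * e)) ≤ 2 + ε := by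
      have hεe : ε = 20 * e := by rw [he_def]; ring
      rw [hεe]
      have : 2 * (1 + e) * ((1 + e) / (1 - e)) * (1 / (1 - 2 * e))
        = 2 * (1 + e) * (1 + e) / ((1 - e) * (1 - 2 * e)) := by
        field_simp
      rw [this, div_le_iff₀ (by positivity)]
      nlinarith [mul_pos he he, mul_pos (mul_pos he he) he]
    calc 2 * (1 + e) * ((1 + e) / (1 - e)) * (B * Real.exp (2 * e))
        = (2 * (1 + e) * ((1 + e) / (1 - e)) * Real.exp (2 * e)) * B := by ring
      _ ≤ (2 * (1 + e) * ((1 + e) / (1 - e)) * (1 / (1 - 2 * e))) * B := by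
          apply mul_le_mul_of_nonneg_right _ hB.le
          apply mul_le_mul_of_nonneg_left h6
          positivity
      _ ≤ (2 + ε) * B := mul_le_mul_of_nonneg_right h9 hB.le
  have h6 : 2 * (1 + e) * ((1 + e) / (1 - e)) * (B * Real.exp (2 * e)) * Real.log L ≤
      (2 + ε) * B * Real.log L := mul_le_mul_of_nonneg_right h5 hlogL.le
  nlinarith

end MinMod
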