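import Mathlib
import Pool.Agent.Work.MP_06ac62_an.Defs

open Filter Metric Real Set Topology

namespace MinMod

variable {f : ℂ → ℂ}

lemma image_bdd (hf : Differentiable ℂ f) (r : ℝ) :
    BddAbove ((fun z => ‖f z‖) '' Metric.sphere (0 : ℂ) r) :=
  ((isCompact_sphere (0 : ℂ) r).image (hf.continuous.norm)).bddAbove

lemma norm_le_maxMod_of_eq (hf : Differentiable ℂ f) {r : ℝ} {z : ℂ} (hz : ‖z‖ = r) :
    ‖f z‖ ≤ maxMod f r :=
  le_csSup (image_bdd hf r) ⟨z, by simpa using hz, rfl⟩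

lemma norm_le_maxMod (hf : Differentiable ℂ f) {r : ℝ} {z : ℂ} (hz : ‖z‖ ≤ r) :
    ‖f z‖ ≤ maxMod f r := by
  rcases eq_or_lt_of_le hz with h | h
  · exact norm_le_maxMod_of_eq hf h
  · have hr : 0 < r := lt_of_le_of_lt (norm_nonneg z) h
    apply Complex.norm_le_of_forall_mem_frontier_norm_le (U := ball (0 : ℂ) r) isBounded_ball
      hf.diffContOnCl
    · intro w hw
      rw [frontier_ball _ hr.ne'] at hw
      exact norm_le_maxMod_of_eq hf (by simpa using hw)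
    · exact subset_closure (by simpa using h)

lemma maxMod_attained (hf : Differentiable ℂ f) {r : ℝ} (hr : 0 ≤ r) :
    ∃ z : ℂ, ‖z‖ = r ∧ ‖f z‖ = maxMod f r := by
  have hne : (Metric.sphere (0 : ℂ) r).Nonempty := NormedSpace.sphere_nonempty.2 hr
  obtain ⟨z, hz, hmax⟩ := (isCompact_sphere (0 : ℂ) r).exists_isMaxOn hne
    (hf.continuous.norm.continuousOn)
  refine ⟨z, by simpa using hz, ?_⟩
  apply le_antisymm (norm_le_maxMod_of_eq hf (by simpa using hz))
  apply csSup_le (hne.image _)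
  rintro _ ⟨w, hw, rfl⟩
  exact hmax hw

lemma maxMod_mono (hf : Differentiable ℂ f) {r s : ℝ} (hr : 0 ≤ r) (hrs : r ≤ s) :
    maxMod f r ≤ maxMod f s := by
  obtain ⟨z, hz, hz'⟩ := maxMod_attained hf hr
  rw [← hz']
  exact norm_le_maxMod hf (by rw [hz]; exact hrs)

lemma maxMod_tendsto (hf : NonconstEntire f) : Tendsto (maxMod f) atTop atTop := by
  rw [Filter.tendsto_atTop]
  intro b
  by_contra hcon
  rw [not_eventually] at hcon
  apply hf.2
  have hb : ∀ z, ‖f z‖ ≤ b := by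
    intro z
    obtain ⟨r, hr, hr'⟩ := (hcon.and_eventually (eventually_ge_atTop ‖z‖)).exists
    exact (norm_le_maxMod hf.1 hr').trans (not_le.1 hr).le
  have hbd : Bornology.IsBounded (range f) := by
    rw [isBounded_iff_forall_norm_le]
    refine ⟨b, ?_⟩
    rintro _ ⟨z, rfl⟩
    exact hb z
  exact ⟨f 0, fun z => hf.1.apply_eq_apply_of_bounded hbd z 0⟩

lemma logMax_tendsto (hf : NonconstEntire f) : Tendsto (logMax f) atTop atTop :=
  Real.tendsto_log_atTop.comp (maxMod_tendsto hf)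

lemma logMax_mono (hf : Differentiable ℂ f) {r s : ℝ} (hr : 0 ≤ r) (hrs : r ≤ s)
    (hpos : 0 < maxMod f r) : logMax f r ≤ logMax f s :=
  Real.log_le_log hpos (maxMod_mono hf hr hrs)

lemma log_norm_le_logMax (hf : Differentiable ℂ f) {r : ℝ} {z : ℂ} (hz : ‖z‖ ≤ r)
    (hnn : 0 ≤ logMax f r) : Real.log ‖f z‖ ≤ logMax f r := by
  by_cases h : f z = 0
  · simp [h, hnn]
  · exact Real.log_le_log (norm_pos_iff.2 h) (norm_le_maxMod hf hz)

/-- lower bound for `logMin` -/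
lemma le_logMin (hf : Differentiable ℂ f) {r : ℝ} (hr : 0 ≤ r) {K : ℝ}
    (h : ∀ z : ℂ, ‖z‖ = r → f z ≠ 0 ∧ K ≤ Real.log ‖f z‖) : (K : EReal) ≤ logMin f r := by
  have hne : (Metric.sphere (0 : ℂ) r).Nonempty := NormedSpace.sphere_nonempty.2 hr
  obtain ⟨z, hz, hmin⟩ := (isCompact_sphere (0 : ℂ) r).exists_isMinOn hne
    (hf.continuous.norm.continuousOn)
  have hz' : ‖z‖ = r := by simpa using hz
  have heq : minMod f r = ‖f z‖ := by
    apply le_antisymm
    · apply csInf_le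
      · exact ⟨0, by rintro _ ⟨w, _, rfl⟩; exact norm_nonneg _⟩
      · exact ⟨z, hz, rfl⟩
    · apply le_csInf (hne.image _)
      rintro _ ⟨w, hw, rfl⟩
      exact hmin hw
  obtain ⟨h1, h2⟩ := h z hz'
  rw [logMin, heq, ENNReal.log_ofReal_of_pos (norm_pos_iff.2 h1)]
  exact_mod_cast h2

/-- upper bound for `logMin` -/
lemma logMin_le {r : ℝ} {K : ℝ} {z : ℂ} (hz : ‖z‖ = r)
    (h : ‖f z‖ ≤ Real.exp K) : logMin f r ≤ (K : EReal) := by
  have h1 : minMod f r ≤ ‖f z‖ := by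
    apply csInf_le
    · exact ⟨0, by rintro _ ⟨w, _, rfl⟩; exact norm_nonneg _⟩
    · exact ⟨z, by simpa using hz, rfl⟩
  rw [logMin]
  have h2 : ENNReal.ofReal (minMod f r) ≤ ENNReal.ofReal (Real.exp K) :=
    ENNReal.ofReal_le_ofReal (h1.trans h)
  refine (ENNReal.log_monotone h2).trans ?_
  rw [ENNReal.log_ofReal_of_pos (Real.exp_pos K), Real.log_exp]

end MinMod
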