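import Mathlib

open Filter Metric Real Set Topology

namespace MinMod

lemma near_max {S : Set ℝ} (hS : S.Nonempty) {g : ℝ → ℝ} (hb : BddAbove (g '' S)) {η : ℝ}
    (hη : 0 < η) : ∃ y ∈ S, ∀ y' ∈ S, g y' ≤ g y + η := by
  obtain ⟨_, ⟨y, hy, rfl⟩, hlt⟩ := exists_lt_of_lt_csSup (hS.image g)
    (show sSup (g '' S) - η < sSup (g '' S) by linarith)
  refine ⟨y, hy, fun y' hy' => ?_⟩
  have := le_csSup hb ⟨y', hy', rfl⟩
  linarith

/-- Peaks for a function of finite lower order. -/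
theorem peak_finite {ψ : ℝ → ℝ} {X₀ lam ω ε : ℝ} (hX₀ : 0 ≤ X₀) (hmono : MonotoneOn ψ (Ici X₀))
    (hlam : 0 ≤ lam) (hω : 0 < ω) (hε : 0 < ε)
    (hlow : ∀ μ < lam, ∀ᶠ x in atTop, μ * x ≤ ψ x)
    (hfreq : ∀ μ > lam, ∃ᶠ x in atTop, ψ x ≤ μ * x) (Y : ℝ) :
    ∃ x₀ ≥ Y, ∀ x, |x - x₀| ≤ ω → X₀ ≤ x ∧ ψ x ≤ ψ x₀ + lam * (x - x₀) + ε := by
  set a := ε / (2 * ω) with ha
  have ha0 : 0 < a := by positivity
  have haω : a * ω = ε / 2 := by rw [ha]; field_simp
  set Y' := max Y (X₀ + ω) with hY'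
  have hYY' : Y ≤ Y' := le_max_left _ _
  have hXY' : X₀ + ω ≤ Y' := le_max_right _ _
  obtain ⟨X₁, hX₁⟩ := eventually_atTop.1 (hlow (lam - a / 4) (by linarith))
  obtain ⟨b, hb1, hb2⟩ := ((hfreq (lam + a / 4) (by linarith)).and_eventually
    ((eventually_ge_atTop (2 * Y')).and ((eventually_ge_atTop (2 * X₁)).and
    ((eventually_gt_atTop (8 / (3 * a) * (ψ Y' + a * Y' + ε / 2))).and
    (eventually_gt_atTop (8 / a * ((lam + a) * ω + ε / 2))))))).exists
  obtain ⟨hb2, hb3, hb4, hb5⟩ := hb2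
  have hb4' : ψ Y' + a * Y' + ε / 2 < 3 * a / 8 * b := by
    rw [div_mul_eq_mul_div, div_lt_iff₀ (by positivity)] at hb4
    linarith
  have hb5' : (lam + a) * ω + ε / 2 < a / 8 * b := by
    rw [div_mul_eq_mul_div, div_lt_iff₀ (by positivity)] at hb5
    linarith
  set c := b / 2 with hc
  have hY'0 : 0 ≤ Y' := by linarith
  have hXb : X₀ ≤ b := by linarith
  have hcY : Y' ≤ c := by rw [hc]; linarith
  have hbpos : 0 ≤ b := by linarith
  set H : ℝ → ℝ := fun y => ψ y - lam * y - a * |y - c| with hH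
  have hbdd : BddAbove (H '' Icc X₀ b) := by
    refine ⟨ψ b, ?_⟩
    rintro _ ⟨y, hy, rfl⟩
    have h1 : ψ y ≤ ψ b := hmono hy.1 hXb hy.2
    have h2 : 0 ≤ lam * y := mul_nonneg hlam (hX₀.trans hy.1)
    have h3 : 0 ≤ a * |y - c| := by positivity
    simp only [hH]; linarith
  obtain ⟨y, hy, hmax⟩ := near_max (nonempty_Icc.2 hXb) hbdd (half_pos hε)
  have hcmem : c ∈ Icc X₀ b := ⟨by linarith, by rw [hc]; linarith⟩
  have hHc : - (a / 8) * b ≤ H c := by
    have h1 := hX₁ c (by rw [hc]; linarith)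
    simp only [hH, sub_self, abs_zero, mul_zero, sub_zero]
    rw [hc] at h1 ⊢
    nlinarith
  have hHy := hmax c hcmem
  have hyY : Y' ≤ y := by
    by_contra hlt
    push Not at hlt
    have h1 : ψ y ≤ ψ Y' := hmono hy.1 (by rw [mem_Ici]; linarith) hlt.le
    have h2 : 0 ≤ lam * y := mul_nonneg hlam (hX₀.trans hy.1)
    have h3 : c - Y' ≤ |y - c| := by
      rw [abs_of_nonpos (by linarith)]; linarith
    have h4 : a * (c - Y') ≤ a * |y - c| := mul_le_mul_of_nonneg_left h3 ha0.le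
    have h5 : H y ≤ ψ Y' - a * (c - Y') := by simp only [hH]; linarith
    rw [hc] at h5
    nlinarith
  have hyb : y ≤ b - ω := by
    by_contra hlt
    push Not at hlt
    have h1 : ψ y ≤ ψ b := hmono hy.1 hXb hy.2
    have h2 : lam * (b - ω) ≤ lam * y := mul_le_mul_of_nonneg_left hlt.le hlam
    have h3 : b - ω - c ≤ |y - c| := (by linarith : b - ω - c ≤ y - c).trans (le_abs_self _)
    have h4 : a * (b - ω - c) ≤ a * |y - c| := mul_le_mul_of_nonneg_left h3 ha0.le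
    have h5 : H y ≤ (lam + a / 4) * b - lam * (b - ω) - a * (b - ω - c) := by
      simp only [hH]; linarith
    rw [hc] at h5
    nlinarith
  refine ⟨y, hYY'.trans hyY, ?_⟩
  intro x hx
  rw [abs_le] at hx
  have hxX : X₀ ≤ x := by linarith [hx.1]
  refine ⟨hxX, ?_⟩
  have h1 := hmax x ⟨hxX, by linarith [hx.2]⟩
  have h2 : |x - c| ≤ |y - c| + ω := by
    have h3 : |x - c| ≤ |x - y| + |y - c| := abs_sub_le _ _ _
    have h4 : |x - y| ≤ ω := abs_le.2 hx
    linarith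
  have h3 : a * |x - c| ≤ a * |y - c| + a * ω := by
    rw [← mul_add]; exact mul_le_mul_of_nonneg_left h2 ha0.le
  simp only [hH] at h1
  linarith

lemma inv_pow_bound (κ : ℕ) : ∃ C : ℝ, 0 ≤ C ∧ ∀ u : ℝ, |u| ≤ 1 / 2 →
    ((1 - u)⁻¹) ^ κ ≤ 1 + κ * u + C * u ^ 2 := by
  induction κ with
  | zero => exact ⟨0, le_refl _, fun u _ => by simp⟩
  | succ n ih =>
    obtain ⟨C, hC, h⟩ := ih
    refine ⟨2 * C + 2 * n + 2, by positivity, fun u hu => ?_⟩
    have h1 := h u hu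
    rw [abs_le] at hu
    have h1u : 0 < 1 - u := by linarith [hu.2]
    have h2 : (1 - u)⁻¹ ≤ 1 + u + 2 * u ^ 2 := by
      rw [inv_le_iff_one_le_mul₀ h1u]
      nlinarith [mul_nonneg (sq_nonneg u) (by linarith [hu.2] : 0 ≤ 1 - 2 * u)]
    have h3 : 0 ≤ ((1 - u)⁻¹) ^ n := by positivity
    have h4 : 0 ≤ (1 - u)⁻¹ := by positivity
    have h5 : ((1 - u)⁻¹) ^ (n + 1) ≤ (1 + n * u + C * u ^ 2) * (1 + u + 2 * u ^ 2) := by
      rw [pow_succ]
      exact mul_le_mul h1 h2 h4 (h3.trans h1)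
    refine h5.trans ?_
    have hu3 : u ^ 3 ≤ 1 / 2 * u ^ 2 := by nlinarith [sq_nonneg u]
    have hu4 : u ^ 4 ≤ 1 / 4 * u ^ 2 := by nlinarith [sq_nonneg u, sq_nonneg (u ^ 2)]
    have hn : (0 : ℝ) ≤ n := Nat.cast_nonneg n
    push_cast
    nlinarith [mul_nonneg hn (sub_nonneg.2 hu3), mul_nonneg hC (sub_nonneg.2 hu3),
      mul_nonneg hC (sub_nonneg.2 hu4), mul_nonneg hn (sq_nonneg u), mul_nonneg hC (sq_nonneg u)]

lemma log_small (C e : ℝ) (he : 0 < e) : ∃ L₂ : ℝ, 1 ≤ L₂ ∧ ∀ L : ℝ, L₂ ≤ L →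
    4 * Real.log L / √L ≤ 1 / 2 ∧ C * (16 * (Real.log L) ^ 2 / √L) ≤ e ∧ 3 / 4 ≤ Real.log L := by
  have h1 : Tendsto (fun x : ℝ => Real.log x ^ 1 / x) atTop (𝓝 0) :=
    (Real.isLittleO_pow_log_id_atTop (n := 1)).tendsto_div_nhds_zero
  have h2 : Tendsto (fun x : ℝ => Real.log x ^ 2 / x) atTop (𝓝 0) :=
    (Real.isLittleO_pow_log_id_atTop (n := 2)).tendsto_div_nhds_zero
  have hs : Tendsto (fun x : ℝ => √x) atTop atTop := Real.tendsto_sqrt_atTop
  have h1' := (h1.comp hs).const_mul 8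
  have h2' := (h2.comp hs).const_mul (C * 64)
  rw [mul_zero] at h1' h2'
  have e1 := h1'.eventually (ge_mem_nhds (show (0 : ℝ) < 1 / 2 by norm_num))
  have e2 := h2'.eventually (ge_mem_nhds he)
  have e3 := Real.tendsto_log_atTop.eventually (eventually_ge_atTop (3 / 4 : ℝ))
  obtain ⟨L₂, hL₂⟩ := eventually_atTop.1 (e1.and (e2.and e3))
  refine ⟨max 1 L₂, le_max_left _ _, fun L hL => ?_⟩
  have hL1 : 1 ≤ L := (le_max_left _ _).trans hL
  obtain ⟨a1, a2, a3⟩ := hL₂ L ((le_max_right _ _).trans hL)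
  have hlog : Real.log L = 2 * Real.log √L := by
    conv_lhs => rw [← Real.sq_sqrt (show 0 ≤ L by linarith)]
    rw [Real.log_pow]; push_cast; ring
  simp only [Function.comp_apply] at a1 a2
  refine ⟨?_, ?_, a3⟩
  · rw [hlog]
    calc 4 * (2 * Real.log √L) / √L = 8 * (Real.log √L ^ 1 / √L) := by ring
      _ ≤ 1 / 2 := a1
  · rw [hlog]
    calc C * (16 * (2 * Real.log √L) ^ 2 / √L) = C * 64 * (Real.log √L ^ 2 / √L) := by ring
      _ ≤ e := a2

/-- Peaks for a function of infinite order. -/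
theorem peak_infinite {ψ : ℝ → ℝ} {X₀ : ℝ} (hX₀ : 0 ≤ X₀) (hmono : MonotoneOn ψ (Ici X₀))
    (hfreq : ∀ K : ℝ, ∃ᶠ x in atTop, K * x ≤ ψ x) {e : ℝ} (he : 0 < e) (L₁ : ℝ) {κ : ℕ}
    (hκ : 1 ≤ κ) (Y : ℝ) :
    ∃ x₀ L : ℝ, Y ≤ x₀ ∧ L₁ ≤ L ∧ Y ≤ ψ x₀ ∧
      (∀ x, x₀ - 4 * Real.log L / L ≤ x → x ≤ x₀ + 3 / L →
        X₀ ≤ x ∧ ψ x ≤ ψ x₀ + L * (x - x₀) + e) ∧
      Real.log L ≤ (1 + 2 / κ) * Real.log (ψ x₀) := by
  obtain ⟨Cκ, hCκ, hbin⟩ := inv_pow_bound κ
  obtain ⟨L₂, hL₂1, hL₂⟩ := log_small Cκ (e / 2) (half_pos he)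
  set K := max L₁ L₂ with hK
  have hK1 : 1 ≤ K := hL₂1.trans (le_max_right _ _)
  have hκr : (1 : ℝ) ≤ κ := by exact_mod_cast hκ
  set Y' := max (max Y (X₀ + 1)) (((κ : ℝ) + K) ^ κ) with hY'
  have hYY' : Y ≤ Y' := (le_max_left _ _).trans (le_max_left _ _)
  have hXY' : X₀ + 1 ≤ Y' := (le_max_right _ _).trans (le_max_left _ _)
  have hKY' : ((κ : ℝ) + K) ^ κ ≤ Y' := le_max_right _ _
  obtain ⟨x₂, hx₂, hx₂'⟩ := ((hfreq (K + 1)).and_eventually
    ((eventually_gt_atTop (ψ Y' + 1 + e / 2)).and ((eventually_ge_atTop (1 + e / 2)).and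
      (eventually_ge_atTop Y')))).exists
  obtain ⟨hx3, hx4, hx5⟩ := hx₂'
  set s := x₂ + 1 with hs
  set h : ℝ → ℝ := fun x => ((s - x)⁻¹) ^ κ + K * x with hh
  have hbdd : BddAbove ((fun x => ψ x - h x) '' Ico X₀ s) := by
    refine ⟨ψ s, ?_⟩
    rintro _ ⟨y, hy, rfl⟩
    have h1 : ψ y ≤ ψ s := hmono hy.1 (hy.1.trans hy.2.le) hy.2.le
    have h2 : 0 ≤ K * y := mul_nonneg (by linarith) (hX₀.trans hy.1)
    have h3 : 0 < s - y := sub_pos.2 hy.2
    have h4 : 0 ≤ ((s - y)⁻¹) ^ κ := by positivity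
    simp only [hh]; linarith
  obtain ⟨x₀, hx₀, hmax⟩ := near_max (nonempty_Ico.2 (by linarith : X₀ < s)) hbdd (half_pos he)
  have hx₂mem : x₂ ∈ Ico X₀ s := ⟨by linarith, by linarith⟩
  have hval := hmax x₂ hx₂mem
  have hhx₂ : h x₂ = 1 + K * x₂ := by
    simp [hh, hs]
  simp only [hhx₂] at hval
  have hge : x₂ - 1 - e / 2 ≤ ψ x₀ - h x₀ := by linarith
  set d := s - x₀ with hd
  have hd0 : 0 < d := sub_pos.2 hx₀.2
  set p := d⁻¹ with hp
  have hp0 : 0 < p := inv_pos.2 hd0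
  have hhx₀ : h x₀ = p ^ κ + K * x₀ := rfl
  have hx₀0 : 0 ≤ x₀ := hX₀.trans hx₀.1
  have hpk0 : 0 < p ^ κ := by positivity
  -- x₀ is large
  have hx₀Y : Y' ≤ x₀ := by
    by_contra hlt
    push Not at hlt
    have h1 : ψ x₀ ≤ ψ Y' := hmono hx₀.1 (by rw [mem_Ici]; linarith) hlt.le
    have h2 : 0 ≤ K * x₀ := mul_nonneg (by linarith) hx₀0
    rw [hhx₀] at hge
    linarith
  have hψp : p ^ κ + x₀ ≤ ψ x₀ := by
    rw [hhx₀] at hge
    nlinarith
  set L := κ * p ^ (κ + 1) + K with hL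
  have hpk1 : 0 < p ^ (κ + 1) := by positivity
  have hLK : K ≤ L := by rw [hL]; nlinarith
  have hL1 : 1 ≤ L := hK1.trans hLK
  have hL0 : 0 < L := by linarith
  obtain ⟨hs1, hs2, hs3⟩ := hL₂ L ((le_max_right _ _).trans hLK)
  have hpL : p ^ (κ + 1) ≤ L := by rw [hL]; nlinarith
  have hp2 : p ^ 2 ≤ L := by
    by_cases hp1 : 1 ≤ p
    · exact (pow_le_pow_right₀ hp1 (by omega)).trans hpL
    · push Not at hp1
      have : p ^ 2 ≤ 1 := pow_le_one₀ hp0.le hp1.le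
      linarith
  have hpsq : p ≤ √L := by
    rw [Real.le_sqrt hp0.le hL0.le]; exact hp2
  have hsq0 : 0 < √L := Real.sqrt_pos.2 hL0
  have hsqmul : √L * √L = L := Real.mul_self_sqrt hL0.le
  refine ⟨x₀, L, hYY'.trans hx₀Y, (le_max_left _ _).trans hLK, by linarith, ?_, ?_⟩
  · intro x hx1 hx2
    have hAL : 4 * Real.log L / L * p ≤ 1 / 2 := by
      calc 4 * Real.log L / L * p ≤ 4 * Real.log L / L * √L :=
            mul_le_mul_of_nonneg_left hpsq (by positivity)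
        _ = 4 * Real.log L / √L := by
            rw [div_mul_eq_mul_div, div_eq_div_iff hL0.ne' hsq0.ne']
            rw [mul_assoc, hsqmul]
        _ ≤ 1 / 2 := hs1
    have h3L : 3 / L ≤ 4 * Real.log L / L := by
      apply div_le_div_of_nonneg_right _ hL0.le
      linarith
    have hxabs : |x - x₀| ≤ 4 * Real.log L / L := by
      rw [abs_le]; constructor <;> linarith
    set u := (x - x₀) * p with hu
    have huabs : |u| ≤ 1 / 2 := by
      rw [hu, abs_mul, abs_of_pos hp0]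
      exact (mul_le_mul_of_nonneg_right hxabs hp0.le).trans hAL
    have hu' := abs_le.1 huabs
    have hsx : s - x = d * (1 - u) := by
      have hdp : d * p = 1 := by rw [hp]; exact mul_inv_cancel₀ hd0.ne'
      calc s - x = d - (x - x₀) := by rw [hd]; ring
        _ = d - (x - x₀) * (d * p) := by rw [hdp]; ring
        _ = d * (1 - u) := by rw [hu]; ring
    have hsx0 : 0 < s - x := by
      rw [hsx]; apply mul_pos hd0; linarith [hu'.2]
    have hAL1 : 4 * Real.log L / L ≤ 1 := by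
      calc 4 * Real.log L / L = 4 * Real.log L / √L / √L := by
            rw [div_div, hsqmul]
        _ ≤ (1 / 2) / √L := div_le_div_of_nonneg_right hs1 hsq0.le
        _ ≤ 1 := by
            rw [div_le_one hsq0]
            have : 1 ≤ √L := Real.one_le_sqrt.2 hL1
            linarith
    have hxX : X₀ ≤ x := by
      rw [abs_le] at hxabs
      linarith [hxabs.1]
    refine ⟨hxX, ?_⟩
    have h1 := hmax x ⟨hxX, by linarith⟩
    have h2 : h x = p ^ κ * ((1 - u)⁻¹) ^ κ + K * x := by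
      simp only [hh]
      rw [hsx, mul_inv, mul_pow]
    have h3 := hbin u huabs
    have h4 : h x - h x₀ ≤ p ^ κ * (κ * u + Cκ * u ^ 2) + K * (x - x₀) := by
      rw [h2, hhx₀]
      have : p ^ κ * ((1 - u)⁻¹) ^ κ ≤ p ^ κ * (1 + κ * u + Cκ * u ^ 2) :=
        mul_le_mul_of_nonneg_left h3 hpk0.le
      linarith
    have h5 : p ^ κ * (κ * u) = κ * p ^ (κ + 1) * (x - x₀) := by rw [hu]; ring
    have h6 : p ^ κ * (Cκ * u ^ 2) ≤ e / 2 := by
      have h7 : u ^ 2 ≤ (4 * Real.log L / L) ^ 2 * p ^ 2 := by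
        rw [hu, mul_pow]
        apply mul_le_mul_of_nonneg_right _ (by positivity)
        rw [← sq_abs (x - x₀)]
        exact pow_le_pow_left₀ (abs_nonneg _) hxabs 2
      have h8 : p ^ κ * p ^ 2 ≤ L * √L := by
        calc p ^ κ * p ^ 2 = p ^ (κ + 1) * p := by ring
          _ ≤ L * √L := mul_le_mul hpL hpsq hp0.le hL0.le
      calc p ^ κ * (Cκ * u ^ 2) ≤ p ^ κ * (Cκ * ((4 * Real.log L / L) ^ 2 * p ^ 2)) := by
            gcongr
        _ = Cκ * (4 * Real.log L / L) ^ 2 * (p ^ κ * p ^ 2) := by ring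
        _ ≤ Cκ * (4 * Real.log L / L) ^ 2 * (L * √L) := by gcongr
        _ = Cκ * (16 * (Real.log L) ^ 2 / √L) := by
            have hLe : L = √L * √L := hsqmul.symm
            have : (4 * Real.log L / L) ^ 2 * (L * √L) = 16 * (Real.log L) ^ 2 / √L := by
              rw [div_pow, div_mul_eq_mul_div, div_eq_div_iff (by positivity) hsq0.ne']
              calc (4 * Real.log L) ^ 2 * (L * √L) * √L
                  = 16 * Real.log L ^ 2 * L * (√L * √L) := by ring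
                _ = 16 * Real.log L ^ 2 * L ^ 2 := by rw [hsqmul]; ring
            rw [mul_assoc, this]
        _ ≤ e / 2 := hs2
    have h9 : h x - h x₀ ≤ L * (x - x₀) + e / 2 := by
      calc h x - h x₀ ≤ p ^ κ * (κ * u + Cκ * u ^ 2) + K * (x - x₀) := h4
        _ = p ^ κ * (κ * u) + p ^ κ * (Cκ * u ^ 2) + K * (x - x₀) := by ring
        _ ≤ κ * p ^ (κ + 1) * (x - x₀) + e / 2 + K * (x - x₀) := by linarith
        _ = L * (x - x₀) + e / 2 := by rw [hL]; ring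
    linarith
  · -- the bound for `log L`
    set Ψ := ψ x₀ with hΨ
    have hΨY : Y' ≤ Ψ := by linarith
    have hκK : 1 ≤ (κ : ℝ) + K := by linarith
    have hΨ1 : 1 ≤ Ψ := (one_le_pow₀ hκK).trans (hKY'.trans hΨY)
    set P := max 1 p with hP
    have hP1 : 1 ≤ P := le_max_left _ _
    have hPk : P ^ κ ≤ Ψ := by
      rcases max_cases 1 p with ⟨h1, _⟩ | ⟨h1, _⟩
      · rw [hP, h1, one_pow]; exact hΨ1
      · rw [hP, h1]; linarith
    have hLP : L ≤ ((κ : ℝ) + K) * P ^ (κ + 1) := by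
      have h1 : p ^ (κ + 1) ≤ P ^ (κ + 1) := pow_le_pow_left₀ hp0.le (le_max_right _ _) _
      have h2 : 1 ≤ P ^ (κ + 1) := one_le_pow₀ hP1
      rw [hL, add_mul]
      have h3 : (κ : ℝ) * p ^ (κ + 1) ≤ κ * P ^ (κ + 1) := by gcongr
      have h4 : K ≤ K * P ^ (κ + 1) := by nlinarith
      linarith
    have h1 : Real.log L ≤ Real.log ((κ : ℝ) + K) + (κ + 1) * Real.log P := by
      have h2 := Real.log_le_log hL0 hLP
      rw [Real.log_mul (by positivity) (by positivity), Real.log_pow] at h2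
      push_cast at h2
      exact h2
    have h2 : κ * Real.log P ≤ Real.log Ψ := by
      rw [← Real.log_pow]
      exact Real.log_le_log (by positivity) hPk
    have h3 : κ * Real.log ((κ : ℝ) + K) ≤ Real.log Ψ := by
      rw [← Real.log_pow]
      exact Real.log_le_log (by positivity) (hKY'.trans hΨY)
    have hκ0 : (0 : ℝ) < κ := by linarith
    have h4 : Real.log P ≤ Real.log Ψ / κ := by
      rw [le_div_iff₀ hκ0]; linarith
    have h5 : Real.log ((κ : ℝ) + K) ≤ Real.log Ψ / κ := by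
      rw [le_div_iff₀ hκ0]; linarith
    calc Real.log L ≤ Real.log ((κ : ℝ) + K) + (κ + 1) * Real.log P := h1
      _ = Real.log ((κ : ℝ) + K) + κ * Real.log P + Real.log P := by ring
      _ ≤ Real.log Ψ / κ + Real.log Ψ + Real.log Ψ / κ := by linarith
      _ = (1 + 2 / κ) * Real.log Ψ := by ring

end MinMod
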