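import Mathlib
import Pool.Agent.Work.MP_06ac62_an.Defs
import Pool.Agent.Work.MP_06ac62_an.MaxMod
import Pool.Agent.Work.MP_06ac62_an.Local
import Pool.Agent.Work.MP_06ac62_an.Peaks

open Filter Metric Real Set Topology

namespace MinMod

/-- `ψ(x) = log log M(e^x)` -/
noncomputable def psi (f : ℂ → ℂ) (x : ℝ) : ℝ := Real.log (logMax f (Real.exp x))

structure Good (f : ℂ → ℂ) (X₀ : ℝ) : Prop where
  nonneg : 0 ≤ X₀
  one_le : ∀ x, X₀ ≤ x → 1 ≤ logMax f (Real.exp x)
  mono : ∀ x y, X₀ ≤ x → x ≤ y → logMax f (Real.exp x) ≤ logMax f (Real.exp y)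
  psi_mono : MonotoneOn (psi f) (Ici X₀)

lemma exists_good {f : ℂ → ℂ} (hf : NonconstEntire f) : ∃ X₀, Good f X₀ := by
  obtain ⟨r₀, hr₀⟩ := eventually_atTop.1 ((logMax_tendsto hf).eventually (eventually_ge_atTop 1))
  set r₁ := max r₀ 1 with hr₁
  have hr1 : 1 ≤ r₁ := le_max_right _ _
  have hr0 : 0 < r₁ := by linarith
  have hone : ∀ x, Real.log r₁ ≤ x → 1 ≤ logMax f (Real.exp x) := by
    intro x hx
    apply hr₀
    calc r₀ ≤ r₁ := le_max_left _ _
      _ = Real.exp (Real.log r₁) := (Real.exp_log hr0).symm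
      _ ≤ Real.exp x := Real.exp_le_exp.2 hx
  have hpos : ∀ x, Real.log r₁ ≤ x → 0 < maxMod f (Real.exp x) := by
    intro x hx
    have h1 := hone x hx
    obtain ⟨z, _, hz⟩ := maxMod_attained hf.1 (Real.exp_pos x).le
    have h0 : 0 ≤ maxMod f (Real.exp x) := by rw [← hz]; exact norm_nonneg _
    rcases h0.eq_or_lt with h | h
    · rw [logMax, ← h, Real.log_zero] at h1; linarith
    · exact h
  have hmono : ∀ x y, Real.log r₁ ≤ x → x ≤ y →
      logMax f (Real.exp x) ≤ logMax f (Real.exp y) := fun x y hx hxy =>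
    logMax_mono hf.1 (Real.exp_pos x).le (Real.exp_le_exp.2 hxy) (hpos x hx)
  refine ⟨Real.log r₁, Real.log_nonneg hr1, hone, hmono, ?_⟩
  intro x hx y _ hxy
  exact Real.log_le_log (by linarith [hone x hx]) (hmono x y hx hxy)

lemma Good.exp_psi {f : ℂ → ℂ} {X₀ : ℝ} (h : Good f X₀) {x : ℝ} (hx : X₀ ≤ x) :
    Real.exp (psi f x) = logMax f (Real.exp x) :=
  Real.exp_log (by linarith [h.one_le x hx])

lemma exp_tendsto_logMax {f : ℂ → ℂ} (hf : NonconstEntire f) :
    Tendsto (fun x => logMax f (Real.exp x)) atTop atTop :=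
  (logMax_tendsto hf).comp Real.tendsto_exp_atTop

/-- From a window condition to a lower bound for `logMin` on some circle. -/
lemma use_local {f : ℂ → ℂ} (hf : NonconstEntire f) {X₀ : ℝ} (hg : Good f X₀) {ε : ℝ}
    {e C L : ℝ} (hL : 1 ≤ L)
    (hloc : ∀ f : ℂ → ℂ, Differentiable ℂ f → (∃ z, f z ≠ 0) → ∀ R B : ℝ, 0 < B →
      Real.exp (4 * Real.log L / L) ≤ R →
      (∀ t : ℝ, -(4 * Real.log L) ≤ t → t ≤ 3 → ∀ z : ℂ, ‖z‖ ≤ R * Real.exp (t / L) →
        Real.log ‖f z‖ ≤ B * Real.exp (t + e)) →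
      (- (L ^ 4)⁻¹ * B ≤ Real.log ‖meromorphicTrailingCoeffAt f 0‖) →
      ∃ r : ℝ, R ≤ r ∧ ∀ z : ℂ, ‖z‖ = r → f z ≠ 0 ∧
        -(((2 + ε) * Real.log L + C) * B) ≤ Real.log ‖f z‖)
    {x₀ : ℝ} (hx₀ : 4 * Real.log L / L ≤ x₀)
    (hwin : ∀ x, x₀ - 4 * Real.log L / L ≤ x → x ≤ x₀ + 3 / L →
      X₀ ≤ x ∧ psi f x ≤ psi f x₀ + L * (x - x₀) + e)
    (htr : - (L ^ 4)⁻¹ * Real.exp (psi f x₀) ≤ Real.log ‖meromorphicTrailingCoeffAt f 0‖) :
    ∃ r : ℝ, Real.exp x₀ ≤ r ∧ Real.exp (psi f x₀) ≤ logMax f r ∧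
      ((-(((2 + ε) * Real.log L + C) * Real.exp (psi f x₀)) : ℝ) : EReal) ≤ logMin f r := by
  have hL0 : 0 < L := by linarith
  have hlogL : 0 ≤ Real.log L := Real.log_nonneg hL
  have hne : ∃ z, f z ≠ 0 := by
    by_contra h
    push Not at h
    exact hf.2 ⟨0, h⟩
  have hx₀X : X₀ ≤ x₀ := (hwin x₀ (by
    have : 0 ≤ 4 * Real.log L / L := by positivity
    linarith) (by
    have : 0 ≤ 3 / L := by positivity
    linarith)).1
  obtain ⟨r, hr, hrz⟩ := hloc f hf.1 hne (Real.exp x₀) (Real.exp (psi f x₀)) (Real.exp_pos _)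
    (Real.exp_le_exp.2 hx₀)
    (by
      intro t ht1 ht2 z hz
      rw [← Real.exp_add] at hz
      obtain ⟨h1, h2⟩ := hwin (x₀ + t / L) (by
          have : -(4 * Real.log L) / L ≤ t / L := div_le_div_of_nonneg_right ht1 hL0.le
          rw [neg_div] at this
          linarith) (by
          have : t / L ≤ 3 / L := div_le_div_of_nonneg_right ht2 hL0.le
          linarith)
      have h3 : L * (x₀ + t / L - x₀) = t := by field_simp; ring
      rw [h3] at h2
      have h4 := hg.one_le _ h1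
      refine (log_norm_le_logMax hf.1 hz (by linarith)).trans ?_
      rw [← hg.exp_psi h1, ← Real.exp_add]
      apply Real.exp_le_exp.2
      linarith)
    htr
  refine ⟨r, hr, ?_, ?_⟩
  · have hr0 : 0 < r := lt_of_lt_of_le (Real.exp_pos _) hr
    have h5 : x₀ ≤ Real.log r := (Real.le_log_iff_exp_le hr0).2 hr
    have h6 := hg.mono x₀ (Real.log r) hx₀X h5
    rw [Real.exp_log hr0] at h6
    rw [hg.exp_psi hx₀X]
    exact h6
  · exact le_logMin hf.1 ((Real.exp_pos _).le.trans hr) hrz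

lemma ereal_div_le {K B a : ℝ} {m : EReal} (hK : 0 ≤ K) (hB : 0 < B) (ha : B ≤ a)
    (hm : ((-(K * B) : ℝ) : EReal) ≤ m) : ((-K : ℝ) : EReal) ≤ m / (a : EReal) := by
  have ha0 : 0 < a := by linarith
  have h1 : ((-(K * B) : ℝ) : EReal) / (a : EReal) ≤ m / (a : EReal) := by
    apply EReal.div_le_div_right_of_nonneg _ hm
    exact_mod_cast ha0.le
  refine le_trans ?_ h1
  rw [← EReal.coe_div]
  apply EReal.coe_le_coe_iff.2
  rw [le_div_iff₀ ha0]
  nlinarith

/-- Lower bound in the case of finite lower order. -/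
theorem lower_finite {ε : ℝ} (hε : 0 < ε) (hε1 : ε ≤ 1) :
    ∃ C₀ L₁ : ℝ, 0 ≤ C₀ ∧ 1 ≤ L₁ ∧ ∀ lam : ℝ, L₁ ≤ lam → ∀ f : ℂ → ℂ, NonconstEntire f →
      lowerOrder f = (lam : EReal) →
      ((-((2 + ε) * Real.log lam + C₀) : ℝ) : EReal) ≤ Lam f := by
  obtain ⟨e, he, he1, C₀, hC₀, L₁, hL₁, hloc⟩ := local_bound hε hε1
  refine ⟨C₀, L₁, hC₀, hL₁, ?_⟩
  intro lam hlam f hf hlo
  have hlam1 : 1 ≤ lam := hL₁.trans hlam
  have hlam0 : 0 < lam := by linarith
  have hloglam : 0 ≤ Real.log lam := Real.log_nonneg hlam1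
  obtain ⟨X₀, hg⟩ := exists_good hf
  have hlow : ∀ μ < lam, ∀ᶠ x in atTop, μ * x ≤ psi f x := by
    intro μ hμ
    have h1 : ((μ : ℝ) : EReal) < lowerOrder f := by rw [hlo]; exact_mod_cast hμ
    have h2 := eventually_lt_of_lt_liminf h1
    have h3 := Real.tendsto_exp_atTop.eventually h2
    filter_upwards [h3, eventually_gt_atTop 0] with x hx hx0
    have h4 : μ < Real.log (logMax f (Real.exp x)) / Real.log (Real.exp x) := by exact_mod_cast hx
    rw [Real.log_exp, lt_div_iff₀ hx0] at h4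
    exact h4.le
  have hfreq : ∀ μ > lam, ∃ᶠ x in atTop, psi f x ≤ μ * x := by
    intro μ hμ
    have h1 : lowerOrder f < ((μ : ℝ) : EReal) := by rw [hlo]; exact_mod_cast hμ
    have h2 := frequently_lt_of_liminf_lt (by isBoundedDefault) h1
    have h3 := h2.and_eventually (eventually_gt_atTop (1 : ℝ))
    apply Real.tendsto_log_atTop.frequently
    refine h3.mono ?_
    rintro r ⟨hr, hr1⟩
    have hr0 : 0 < r := by linarith
    have h4 : Real.log (logMax f r) / Real.log r < μ := by exact_mod_cast hr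
    rw [div_lt_iff₀ (Real.log_pos hr1)] at h4
    rw [psi, Real.exp_log hr0]
    exact h4.le
  refine le_limsup_of_frequently_le ?_
  rw [frequently_atTop]
  intro Y
  -- the trailing coefficient
  obtain ⟨Y₁, hY₁⟩ := eventually_atTop.1 ((exp_tendsto_logMax hf).eventually
    (eventually_ge_atTop (lam ^ 4 * -Real.log ‖meromorphicTrailingCoeffAt f 0‖)))
  set ω := (4 * Real.log lam + 3) / lam with hω
  have hω0 : 0 < ω := by positivity
  obtain ⟨x₀, hx₀, hpk⟩ := peak_finite hg.nonneg hg.psi_mono hlam0.le hω0 he hlow hfreq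
    (max (max Y Y₁) (4 * Real.log lam / lam))
  have hx₀Y : Y ≤ x₀ := (le_max_left _ _).trans ((le_max_left _ _).trans hx₀)
  have hx₀Y₁ : Y₁ ≤ x₀ := (le_max_right _ _).trans ((le_max_left _ _).trans hx₀)
  have hx₀L : 4 * Real.log lam / lam ≤ x₀ := (le_max_right _ _).trans hx₀
  have hX₀x₀ : X₀ ≤ x₀ := (hpk x₀ (by simp [hω0.le])).1
  have hωa : 4 * Real.log lam / lam ≤ ω := by
    rw [hω]; apply div_le_div_of_nonneg_right _ hlam0.le; linarith
  have hωb : 3 / lam ≤ ω := by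
    rw [hω]; apply div_le_div_of_nonneg_right _ hlam0.le; linarith
  obtain ⟨r, hr1, hr2, hr3⟩ := use_local hf hg hlam1 (hloc lam hlam) hx₀L
    (by
      intro x hx1 hx2
      apply hpk x
      rw [abs_le]; constructor <;> linarith)
    (by
      have h1 := hY₁ x₀ hx₀Y₁
      rw [← hg.exp_psi hX₀x₀] at h1
      have h2 : 0 < lam ^ 4 := by positivity
      rw [neg_mul, neg_le, inv_mul_eq_div, le_div_iff₀ h2]
      linarith)
  refine ⟨r, ?_, ?_⟩
  · have := Real.add_one_le_exp x₀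
    linarith
  · exact ereal_div_le (by positivity) (Real.exp_pos _) hr2 hr3

lemma neg_two_coe : (-2 : EReal) = ((-2 : ℝ) : EReal) := rfl

/-- Lower bound in the case of infinite order. -/
theorem lower_infinite {f : ℂ → ℂ} (hf : NonconstEntire f) (ho : order f = ⊤) :
    (-2 : EReal) ≤ LamInf f := by
  by_contra hcon
  push Not at hcon
  obtain ⟨q, hq1, hq2⟩ := EReal.lt_iff_exists_real_btwn.1 hcon
  have hq2' : q < -2 := by
    rw [neg_two_coe] at hq2
    exact EReal.coe_lt_coe_iff.1 hq2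
  set ε := min (-2 - q) 1 with hεdef
  have hε : 0 < ε := lt_min (by linarith) one_pos
  have hε1 : ε ≤ 1 := min_le_right _ _
  have hεq : q ≤ -(2 + ε) := by
    have : ε ≤ -2 - q := min_le_left _ _
    linarith
  apply absurd hq1
  push Not
  refine le_trans (EReal.coe_le_coe_iff.2 hεq) ?_
  obtain ⟨e, he, he1, C₀, hC₀, L₁, hL₁, hloc⟩ := local_bound (ε := ε / 8) (by positivity)
    (by linarith)
  obtain ⟨X₀, hg⟩ := exists_good hf
  have hfreq : ∀ K : ℝ, ∃ᶠ x in atTop, K * x ≤ psi f x := by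
    intro K
    have h1 : ((K : ℝ) : EReal) < order f := by rw [ho]; exact EReal.coe_lt_top K
    have h2 := frequently_lt_of_lt_limsup (by isBoundedDefault) h1
    have h3 := h2.and_eventually (eventually_gt_atTop (1 : ℝ))
    apply Real.tendsto_log_atTop.frequently
    refine h3.mono ?_
    rintro r ⟨hr, hr1⟩
    have hr0 : 0 < r := by linarith
    have h4 : K < Real.log (logMax f r) / Real.log r := by exact_mod_cast hr
    rw [lt_div_iff₀ (Real.log_pos hr1)] at h4
    rw [psi, Real.exp_log hr0]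
    exact h4.le
  obtain ⟨κ, hκ⟩ := exists_nat_ge (max 1 (16 / ε))
  have hκ1 : 1 ≤ κ := by
    have h1 : (1 : ℝ) ≤ κ := (le_max_left _ _).trans hκ
    exact_mod_cast h1
  have hκr : (1 : ℝ) ≤ κ := by exact_mod_cast hκ1
  have hκ2 : 2 / (κ : ℝ) ≤ ε / 8 := by
    have h1 : 16 / ε ≤ κ := (le_max_right _ _).trans hκ
    rw [div_le_iff₀ hε] at h1
    rw [div_le_iff₀ (by linarith)]
    linarith
  refine le_limsup_of_frequently_le ?_
  rw [frequently_atTop]
  intro Y
  set cf := -Real.log ‖meromorphicTrailingCoeffAt f 0‖ with hcf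
  obtain ⟨Y₁, hY₁⟩ := eventually_atTop.1 ((Real.tendsto_exp_div_pow_atTop 8).eventually
    (eventually_ge_atTop cf))
  set Y₂ := max (max Y Y₁) (max 4 (Real.exp (2 * C₀ / ε + 1))) with hY₂
  obtain ⟨x₀, L, hx₀, hL, hψ, hwin, hlogL⟩ := peak_infinite hg.nonneg hg.psi_mono hfreq he L₁ hκ1 Y₂
  have hY : Y ≤ Y₂ := (le_max_left _ _).trans (le_max_left _ _)
  have hY1 : Y₁ ≤ Y₂ := (le_max_right _ _).trans (le_max_left _ _)
  have hY4 : 4 ≤ Y₂ := (le_max_left _ _).trans (le_max_right _ _)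
  have hYC : Real.exp (2 * C₀ / ε + 1) ≤ Y₂ := (le_max_right _ _).trans (le_max_right _ _)
  have hL1 : 1 ≤ L := hL₁.trans hL
  have hL0 : 0 < L := by linarith
  have hlogL0 : 0 ≤ Real.log L := Real.log_nonneg hL1
  set Ψ := psi f x₀ with hΨ
  have hΨ4 : 4 ≤ Ψ := hY4.trans hψ
  have hΨ0 : 0 < Ψ := by linarith
  have hlogΨ0 : 0 < Real.log Ψ := Real.log_pos (by linarith)
  have h4L : 4 * Real.log L / L ≤ 4 := by
    rw [div_le_iff₀ hL0]
    have := Real.log_le_sub_one_of_pos hL0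
    linarith
  have hLΨ : L ^ 4 ≤ Ψ ^ 8 := by
    have h1 : Real.log L ≤ 2 * Real.log Ψ := by
      refine hlogL.trans ?_
      apply mul_le_mul_of_nonneg_right _ hlogΨ0.le
      have : ε / 8 ≤ 1 := by linarith
      linarith
    have h2 : L ≤ Ψ ^ 2 := by
      rw [← Real.log_le_log_iff hL0 (by positivity), Real.log_pow]
      push_cast; exact h1
    calc L ^ 4 ≤ (Ψ ^ 2) ^ 4 := pow_le_pow_left₀ hL0.le h2 4
      _ = Ψ ^ 8 := by rw [← pow_mul]
  obtain ⟨r, hr1, hr2, hr3⟩ := use_local hf hg hL1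
    (hloc L hL) (by linarith [hY4.trans hx₀]) hwin
    (by
      have h1 := hY₁ Ψ (hY1.trans hψ)
      rw [le_div_iff₀ (by positivity)] at h1
      have h2 : 0 < L ^ 4 := by positivity
      rw [neg_mul, neg_le, inv_mul_eq_div, le_div_iff₀ h2, ← hcf]
      by_cases hc : 0 ≤ cf
      · exact (mul_le_mul_of_nonneg_left hLΨ hc).trans h1
      · push Not at hc
        have : cf * L ^ 4 ≤ 0 := mul_nonpos_of_nonpos_of_nonneg hc.le h2.le
        exact this.trans (Real.exp_pos _).le)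
  refine ⟨r, ?_, ?_⟩
  · have := Real.add_one_le_exp x₀
    linarith
  · -- final comparison
    set a := logMax f r with ha
    set B := Real.exp Ψ with hB
    have hB0 : 0 < B := Real.exp_pos _
    have ha0 : 0 < a := by linarith
    have hloga : Ψ ≤ Real.log a := (Real.le_log_iff_exp_le ha0).2 hr2
    have hll : Real.log Ψ ≤ Real.log (Real.log a) := Real.log_le_log hΨ0 hloga
    have hC : C₀ ≤ ε / 2 * Real.log Ψ := by
      have h1 : 2 * C₀ / ε + 1 ≤ Real.log Ψ :=
        (Real.le_log_iff_exp_le hΨ0).2 (hYC.trans hψ)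
      have h2 : 2 * C₀ / ε ≤ Real.log Ψ := by linarith
      rw [div_le_iff₀ hε] at h2
      linarith
    have hK : (2 + ε / 8) * Real.log L + C₀ ≤ (2 + ε) * Real.log Ψ := by
      have h1 : (2 + ε / 8) * Real.log L ≤ (2 + ε / 8) * ((1 + ε / 8) * Real.log Ψ) := by
        apply mul_le_mul_of_nonneg_left _ (by positivity)
        refine hlogL.trans ?_
        apply mul_le_mul_of_nonneg_right _ hlogΨ0.le
        linarith
      have h2 : (2 + ε / 8) * (1 + ε / 8) ≤ 2 + ε / 2 := by nlinarith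
      nlinarith
    have h5 : ((-((2 + ε) * (B * Real.log Ψ)) : ℝ) : EReal) ≤ logMin f r := by
      refine le_trans (EReal.coe_le_coe_iff.2 ?_) hr3
      have : ((2 + ε / 8) * Real.log L + C₀) * B ≤ (2 + ε) * Real.log Ψ * B :=
        mul_le_mul_of_nonneg_right hK hB0.le
      linarith
    exact ereal_div_le (by positivity) (by positivity)
      (mul_le_mul hr2 hll hlogΨ0.le ha0.le) h5

end MinMod
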