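import Mathlib
import Pool.Agent.Work.MP_06ac62_an.Lower

open Filter Metric Real Set Topology

namespace MinMod

theorem CInfty_ge : (-2 : EReal) ≤ CInfty := by
  apply le_sInf
  rintro x ⟨f, hf, ho, rfl⟩
  exact lower_infinite hf ho

theorem C_ge {ε : ℝ} (hε : 0 < ε) (hε1 : ε ≤ 1) :
    ∃ C₀ L₁ : ℝ, 0 ≤ C₀ ∧ 1 ≤ L₁ ∧ ∀ lam : ℝ, L₁ ≤ lam →
      ((-((2 + ε) * Real.log lam + C₀) : ℝ) : EReal) ≤ C lam := by
  obtain ⟨C₀, L₁, hC₀, hL₁, h⟩ := lower_finite hε hε1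
  refine ⟨C₀, L₁, hC₀, hL₁, fun lam hlam => ?_⟩
  apply le_sInf
  rintro x ⟨f, hf, ho, rfl⟩
  exact h lam hlam f hf ho

/-- eventually `-(2 + ε) ≤ C(λ) / log λ` -/
theorem C_ratio_ge {ε : ℝ} (hε : 0 < ε) :
    ∀ᶠ lam : ℝ in atTop, ((-(2 + ε) : ℝ) : EReal) ≤ C lam / ((Real.log lam : ℝ) : EReal) := by
  set ε' := min (ε / 2) 1 with hε'def
  have hε' : 0 < ε' := lt_min (by positivity) one_pos
  have hε'1 : ε' ≤ 1 := min_le_right _ _
  have hε'2 : ε' ≤ ε / 2 := min_le_left _ _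
  obtain ⟨C₀, L₁, hC₀, hL₁, h⟩ := C_ge hε' hε'1
  have h1 : ∀ᶠ lam : ℝ in atTop, 2 * C₀ / ε + 1 ≤ Real.log lam :=
    Real.tendsto_log_atTop.eventually (eventually_ge_atTop _)
  filter_upwards [h1, eventually_ge_atTop L₁] with lam hlog hlam
  have hlog0 : 0 < Real.log lam := by
    have : 0 ≤ 2 * C₀ / ε := by positivity
    linarith
  have h2 : ((-((2 + ε') * Real.log lam + C₀) : ℝ) : EReal) / ((Real.log lam : ℝ) : EReal) ≤
      C lam / ((Real.log lam : ℝ) : EReal) := by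
    apply EReal.div_le_div_right_of_nonneg _ (h lam hlam)
    exact_mod_cast hlog0.le
  refine le_trans ?_ h2
  rw [← EReal.coe_div]
  apply EReal.coe_le_coe_iff.2
  rw [le_div_iff₀ hlog0]
  have h3 : C₀ ≤ ε / 2 * Real.log lam := by
    have h4 : 2 * C₀ / ε ≤ Real.log lam := by linarith
    rw [div_le_iff₀ hε] at h4
    linarith
  nlinarith

end MinMod
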