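import Mathlib
import Pool.Agent.Work.MP_06ac62_an.MaxMod
import Pool.Agent.Work.MP_06ac62_an.Entire

open Filter MeasureTheory Metric Real Set Topology

namespace MinMod

lemma logMax_le {f : ℂ → ℂ} (hf : Differentiable ℂ f) {r K : ℝ} (hr : 0 ≤ r)
    (hK : 0 ≤ K) (h : ∀ z : ℂ, ‖z‖ = r → ‖f z‖ ≤ Real.exp K) : logMax f r ≤ K := by
  obtain ⟨z, hz, hz'⟩ := maxMod_attained hf hr
  unfold logMax
  rw [← hz']
  by_cases h0 : ‖f z‖ = 0
  · rw [h0, Real.log_zero]; exact hK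
  · have hpos : 0 < ‖f z‖ := lt_of_le_of_ne (norm_nonneg _) (Ne.symm h0)
    rw [Real.log_le_iff_le_exp hpos]
    exact h z hz

/-- smallness near a zero of high multiplicity -/
lemma local_key {F : ℂ → ℂ} (hF : Differentiable ℂ F) {p : ℂ} {n : ℕ} {C' : ℝ}
    (hv : ∀ᶠ z in 𝓝[≠] p, ‖F z‖ ≤ C' * ‖z - p‖ ^ n) {ρ K L m : ℝ} (hρ : 0 < ρ)
    (hM : ∀ w, ‖w - p‖ = ρ → ‖F w‖ ≤ Real.exp K) {z : ℂ} (hz : z ≠ p)
    (hL : 0 ≤ L) (hzρ : ‖z - p‖ ≤ ρ * Real.exp (-L)) (hmn : m ≤ n) :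
    ‖F z‖ ≤ Real.exp (-(m * L) + K) := by
  have h0 : Real.exp (-L) ≤ 1 := by rw [Real.exp_le_one_iff]; linarith
  have h1 := schwarz_mult hF hv hρ hM hz (hzρ.trans (by nlinarith))
  refine h1.trans ?_
  have h2 : ‖z - p‖ / ρ ≤ Real.exp (-L) := by
    rw [div_le_iff₀ hρ]; linarith
  have h3 : (‖z - p‖ / ρ) ^ n ≤ Real.exp (-L) ^ n :=
    pow_le_pow_left₀ (by positivity) h2 n
  have h4 : Real.exp (-L) ^ n = Real.exp (-(n * L)) := by
    rw [← Real.exp_nat_mul]; congr 1; ring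
  calc (‖z - p‖ / ρ) ^ n * Real.exp K ≤ Real.exp (-(n * L)) * Real.exp K := by
        apply mul_le_mul_of_nonneg_right _ (Real.exp_pos _).le
        rw [← h4]; exact h3
    _ = Real.exp (-(n * L) + K) := by rw [← Real.exp_add]
    _ ≤ Real.exp (-(m * L) + K) := by
        apply Real.exp_le_exp.2
        have := mul_le_mul_of_nonneg_right hmn hL
        linarith

/-- a zero of high multiplicity forces growth -/
lemma growth_lower {F : ℂ → ℂ} (hF : Differentiable ℂ F) {p : ℂ} {n : ℕ} {C' : ℝ}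
    (hv : ∀ᶠ z in 𝓝[≠] p, ‖F z‖ ≤ C' * ‖z - p‖ ^ n) {z : ℂ} (hz0 : F z ≠ 0) {m : ℝ}
    (hmn : m ≤ n) (hp : 0 < ‖p‖) (hzp : 2 * ‖z‖ ≤ ‖p‖) :
    0 < maxMod F (4 * ‖p‖) ∧ m * Real.log 2 + Real.log ‖F z‖ ≤ logMax F (4 * ‖p‖) := by
  have hne : z ≠ p := by
    rintro rfl
    have := norm_nonneg z
    linarith
  have hρ : 0 < 2 * (‖p‖ + ‖z‖) := by positivity
  have h1 := schwarz_mult hF hv hρ (M := maxMod F (4 * ‖p‖)) (fun w hw => by
    apply norm_le_maxMod hF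
    have : ‖w‖ ≤ ‖w - p‖ + ‖p‖ := by simpa using norm_add_le (w - p) p
    linarith) hne (by
      have : ‖z - p‖ ≤ ‖z‖ + ‖p‖ := norm_sub_le _ _
      have := norm_nonneg z
      linarith)
  have hFz : 0 < ‖F z‖ := norm_pos_iff.2 hz0
  have h2 : ‖z - p‖ / (2 * (‖p‖ + ‖z‖)) ≤ 1 / 2 := by
    rw [div_le_iff₀ hρ]
    have : ‖z - p‖ ≤ ‖z‖ + ‖p‖ := norm_sub_le _ _
    linarith
  have hM : 0 ≤ maxMod F (4 * ‖p‖) :=
    (norm_nonneg _).trans (norm_le_maxMod hF (z := 0) (by simp))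
  have h3 : ‖F z‖ ≤ (1 / 2) ^ n * maxMod F (4 * ‖p‖) := by
    refine h1.trans (mul_le_mul_of_nonneg_right ?_ hM)
    exact pow_le_pow_left₀ (by positivity) h2 n
  have hMpos : 0 < maxMod F (4 * ‖p‖) := by
    by_contra hcon
    have : maxMod F (4 * ‖p‖) = 0 := le_antisymm (not_lt.1 hcon) hM
    rw [this] at h3
    linarith
  refine ⟨hMpos, ?_⟩
  have h4 : Real.log ‖F z‖ ≤ n * Real.log (1 / 2) + Real.log (maxMod F (4 * ‖p‖)) := by
    rw [← Real.log_pow, ← Real.log_mul (by positivity) hMpos.ne']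
    exact Real.log_le_log hFz h3
  have h5 : Real.log (1 / 2) = -Real.log 2 := by
    rw [one_div, Real.log_inv]
  rw [h5] at h4
  have h6 : 0 ≤ Real.log 2 := Real.log_nonneg (by norm_num)
  have h7 := mul_le_mul_of_nonneg_right hmn h6
  unfold logMax
  linarith

/-- limit of `log a(r) / log r` -/
lemma log_ratio_tendsto {a : ℝ → ℝ} {c C lam : ℝ} (hc : 0 < c)
    (h1 : ∀ᶠ r in atTop, c * r ^ lam ≤ a r) (h2 : ∀ᶠ r in atTop, a r ≤ C * r ^ lam) :
    Tendsto (fun r => Real.log (a r) / Real.log r) atTop (𝓝 lam) := by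
  have hlog : Tendsto (fun r : ℝ => (Real.log r)⁻¹) atTop (𝓝 0) :=
    tendsto_inv_atTop_zero.comp Real.tendsto_log_atTop
  have hA : Tendsto (fun r => lam + Real.log c * (Real.log r)⁻¹) atTop (𝓝 lam) := by
    have := (hlog.const_mul (Real.log c)).const_add lam
    simpa using this
  have hB : Tendsto (fun r => lam + Real.log C * (Real.log r)⁻¹) atTop (𝓝 lam) := by
    have := (hlog.const_mul (Real.log C)).const_add lam
    simpa using this
  refine tendsto_of_tendsto_of_tendsto_of_le_of_le' hA hB ?_ ?_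
  · filter_upwards [h1, eventually_gt_atTop 1] with r hr hr1
    have hr0 : 0 < r := by linarith
    have hlr : 0 < Real.log r := Real.log_pos hr1
    have h3 : Real.log (c * r ^ lam) ≤ Real.log (a r) := Real.log_le_log (by positivity) hr
    rw [Real.log_mul hc.ne' (by positivity), Real.log_rpow hr0] at h3
    rw [le_div_iff₀ hlr, add_mul, mul_assoc, inv_mul_cancel₀ hlr.ne', mul_one]
    linarith
  · filter_upwards [h1, h2, eventually_gt_atTop 1] with r hr hr' hr1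
    have hr0 : 0 < r := by linarith
    have hlr : 0 < Real.log r := Real.log_pos hr1
    have ha : 0 < a r := lt_of_lt_of_le (by positivity) hr
    have hC : 0 < C := by
      by_contra hcon
      have : C * r ^ lam ≤ 0 := mul_nonpos_of_nonpos_of_nonneg (not_lt.1 hcon) (by positivity)
      linarith
    have h3 : Real.log (a r) ≤ Real.log (C * r ^ lam) := Real.log_le_log ha hr'
    rw [Real.log_mul hC.ne' (by positivity), Real.log_rpow hr0] at h3
    rw [div_le_iff₀ hlr, add_mul, mul_assoc, inv_mul_cancel₀ hlr.ne', mul_one]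
    linarith

/-- division in the extended reals -/
lemma ereal_div_le' {K B a q : ℝ} {m : EReal} (hK : 0 ≤ K) (ha : 0 < a) (haB : a ≤ B)
    (hm : m ≤ ((-K : ℝ) : EReal)) (hq : q * B ≤ K) : m / (a : EReal) ≤ ((-q : ℝ) : EReal) := by
  have h1 : m / (a : EReal) ≤ ((-K : ℝ) : EReal) / (a : EReal) := by
    apply EReal.div_le_div_right_of_nonneg _ hm
    exact_mod_cast ha.le
  refine h1.trans ?_
  rw [← EReal.coe_div]
  apply EReal.coe_le_coe_iff.2
  rw [div_le_iff₀ ha]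
  by_cases hq0 : 0 ≤ q
  · nlinarith
  · push Not at hq0
    nlinarith

/-- the multiplicity -/
lemma exists_mult {x : ℝ} (hx : 1 ≤ x) : ∃ n : ℕ, (n : ℝ) ≤ x - 1 ∧ x - 2 ≤ n := by
  refine ⟨⌊x - 1⌋₊, Nat.floor_le (by linarith), ?_⟩
  have := (Nat.lt_floor_add_one (x - 1)).le
  linarith


lemma norm_le_exp {x C s Y : ℝ} (hx : 0 ≤ x) (hC : 0 < C) (hs : 0 < s)
    (h : x ^ 2 ≤ C / s ^ 2 * Real.exp (2 * Y)) : x ≤ Real.exp (Real.log C / 2 - Real.log s + Y) := by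
  have h1 : Real.exp (Real.log C / 2 - Real.log s + Y) ^ 2 = C / s ^ 2 * Real.exp (2 * Y) := by
    rw [← Real.exp_nat_mul]
    have e : ((2 : ℕ) : ℝ) * (Real.log C / 2 - Real.log s + Y) =
        Real.log C - Real.log (s ^ 2) + 2 * Y := by
      rw [Real.log_pow]; push_cast; ring
    rw [e, Real.exp_add, Real.exp_sub, Real.exp_log hC, Real.exp_log (by positivity)]
  rw [← h1] at h
  exact (pow_le_pow_iff_left₀ hx (Real.exp_pos _).le two_ne_zero).1 h

/-- The existence theorem in a form convenient for the applications. -/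
theorem Data.exists_entire' {κ ε : ℝ} {v : ℂ → ℝ} {a c : ℕ → ℂ} (D : Data κ ε v a c)
    (hmass : ∀ j, 1 ≤ 2 * κ * v (a j)) :
    ∃ N C : ℝ, 0 ≤ N ∧ ∃ F : ℂ → ℂ, Differentiable ℂ F ∧ (∃ z, F z ≠ 0) ∧
      (∀ (z : ℂ) (s M : ℝ), 0 < s → s ≤ 1 → (∀ w, ‖w - z‖ ≤ s → v w ≤ M) →
        ‖F z‖ ≤ Real.exp (C - Real.log s + (1 + ε) * M + N * (‖z‖ + 1) ^ 2)) ∧
      (∀ j, ∃ n : ℕ, ∃ C' : ℝ, 2 * κ * v (a j) - 2 ≤ n ∧
        ∀ᶠ z in 𝓝[≠] (a j), ‖F z‖ ≤ C' * ‖z - a j‖ ^ n) := by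
  obtain ⟨N, C, hN, hC, F, hF, hne, hG, hV⟩ := D.exists_entire hmass
  refine ⟨N / 2, Real.log C / 2, by positivity, F, hF, hne, ?_, ?_⟩
  · intro z s M hs hs1 hM
    have h1 := hG z s M hs hs1 hM
    have h2 : Real.log (1 + (‖z‖ + 1) ^ 2) ≤ (‖z‖ + 1) ^ 2 := by
      have := Real.log_le_sub_one_of_pos (show (0 : ℝ) < 1 + (‖z‖ + 1) ^ 2 by positivity)
      linarith
    have h3 : ‖F z‖ ^ 2 ≤ C / s ^ 2 *
        Real.exp (2 * ((1 + ε) * M + N / 2 * (‖z‖ + 1) ^ 2)) := by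
      refine h1.trans ?_
      apply mul_le_mul_of_nonneg_left _ (by positivity)
      apply Real.exp_le_exp.2
      have := mul_le_mul_of_nonneg_left h2 hN
      linarith
    have h4 := norm_le_exp (norm_nonneg _) hC hs h3
    convert h4 using 2
    ring
  · intro j
    obtain ⟨n, hn1, hn2⟩ := exists_mult (hmass j)
    obtain ⟨C', hC'⟩ := hV j n hn1
    exact ⟨n, C', hn2, hC'⟩

lemma nonconst_of {F : ℂ → ℂ} (hF : Differentiable ℂ F)
    (h : ∀ B : ℝ, ∃ r, 0 ≤ r ∧ B < logMax F r) : NonconstEntire F := by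
  refine ⟨hF, ?_⟩
  rintro ⟨c, hc⟩
  obtain ⟨r, hr, hB⟩ := h (Real.log ‖c‖)
  obtain ⟨z, hz, hz'⟩ := maxMod_attained hF hr
  unfold logMax at hB
  rw [← hz', hc z] at hB
  exact lt_irrefl _ hB

lemma exists_index {x : ℕ → ℝ} (hm : StrictMono x) (ht : Tendsto x atTop atTop)
    {P : ℕ → Prop} (hP : ∀ᶠ j in atTop, P j) :
    ∀ᶠ r in atTop, ∃ j, x j < r ∧ r ≤ x (j + 1) ∧ P j := by
  obtain ⟨J, hJ⟩ := eventually_atTop.1 hP
  filter_upwards [eventually_gt_atTop (x J)] with r hr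
  have hex : ∃ n, r ≤ x n := by
    obtain ⟨n, hn⟩ := (ht.eventually (eventually_ge_atTop r)).exists
    exact ⟨n, hn⟩
  classical
  set n := Nat.find hex with hn
  have h1 : r ≤ x n := Nat.find_spec hex
  have h2 : J < n := by
    by_contra hcon
    have := hm.monotone (not_lt.1 hcon)
    linarith
  have h3 : ¬ r ≤ x (n - 1) := Nat.find_min hex (by omega)
  refine ⟨n - 1, not_le.1 h3, ?_, hJ (n - 1) (by omega)⟩
  have e : n - 1 + 1 = n := by omega
  rw [e]; exact h1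

end MinMod
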