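import Mathlib
import Pool.Agent.Work.MP_06ac62_an.Growth
import Pool.Agent.Work.MP_06ac62_an.DataFin

open Filter MeasureTheory Metric Real Set Topology

namespace MinMod

lemma pow_div_tendsto {lam : ℝ} (hlam : 2 < lam) :
    Tendsto (fun r : ℝ => r ^ 2 / r ^ lam) atTop (𝓝 0) := by
  have h : Tendsto (fun r : ℝ => r ^ (-(lam - 2))) atTop (𝓝 0) :=
    tendsto_rpow_neg_atTop (by linarith)
  refine h.congr' ?_
  filter_upwards [eventually_gt_atTop 0] with r hr
  rw [show -(lam - 2) = (2 : ℝ) - lam by ring, Real.rpow_sub hr]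
  congr 1
  exact Real.rpow_natCast r 2

lemma asymp1 {lam ε N K : ℝ} (hlam : 2 < lam) (hε : 0 < ε) :
    ∀ᶠ r : ℝ in atTop, K + (1 + ε) * (r + 1) ^ lam + N * (r + 1) ^ 2 ≤ (1 + 2 * ε) * r ^ lam := by
  have h1 : Tendsto (fun r : ℝ => r ^ (-lam)) atTop (𝓝 0) :=
    tendsto_rpow_neg_atTop (by linarith)
  have h2 : Tendsto (fun r : ℝ => (r + 1) / r) atTop (𝓝 1) := by
    have : Tendsto (fun r : ℝ => 1 + r⁻¹) atTop (𝓝 (1 + 0)) :=
      tendsto_inv_atTop_zero.const_add 1
    rw [add_zero] at this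
    refine this.congr' ?_
    filter_upwards [eventually_gt_atTop 0] with r hr
    field_simp
  have h3 : Tendsto (fun r : ℝ => ((r + 1) / r) ^ lam) atTop (𝓝 1) := by
    have := h2.rpow_const (p := lam) (Or.inl one_ne_zero)
    rwa [Real.one_rpow] at this
  have h4 := pow_div_tendsto hlam
  have h5 : Tendsto (fun r : ℝ => K * r ^ (-lam) + (1 + ε) * ((r + 1) / r) ^ lam +
      N * (((r + 1) / r) ^ 2 * (r ^ 2 / r ^ lam))) atTop
      (𝓝 (K * 0 + (1 + ε) * 1 + N * (1 ^ 2 * 0))) :=
    ((h1.const_mul K).add (h3.const_mul (1 + ε))).add (((h2.pow 2).mul h4).const_mul N)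
  have h6 : K * 0 + (1 + ε) * 1 + N * (1 ^ 2 * 0) < 1 + 2 * ε := by linarith
  filter_upwards [h5.eventually_le_const h6, eventually_gt_atTop 0] with r hr hr0
  have hrl : 0 < r ^ lam := Real.rpow_pos_of_pos hr0 _
  have h7 := mul_le_mul_of_nonneg_right hr hrl.le
  have e1 : r ^ (-lam) * r ^ lam = 1 := by
    rw [← Real.rpow_add hr0]; simp
  have e2 : ((r + 1) / r) ^ lam * r ^ lam = (r + 1) ^ lam := by
    rw [← Real.mul_rpow (by positivity) hr0.le]
    congr 1; field_simp
  have e3 : ((r + 1) / r) ^ 2 * (r ^ 2 / r ^ lam) * r ^ lam = (r + 1) ^ 2 := by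
    field_simp
  calc K + (1 + ε) * (r + 1) ^ lam + N * (r + 1) ^ 2
      = K * (r ^ (-lam) * r ^ lam) + (1 + ε) * (((r + 1) / r) ^ lam * r ^ lam) +
        N * (((r + 1) / r) ^ 2 * (r ^ 2 / r ^ lam) * r ^ lam) := by
          rw [e1, e2, e3]; ring
    _ = (K * r ^ (-lam) + (1 + ε) * ((r + 1) / r) ^ lam +
      N * (((r + 1) / r) ^ 2 * (r ^ 2 / r ^ lam))) * r ^ lam := by ring
    _ ≤ _ := h7

lemma asymp2 {lam δ N K : ℝ} (hlam : 2 < lam) (hδ : 0 < δ) :
    ∀ᶠ x : ℝ in atTop, K + N * x ^ 2 ≤ δ * x ^ lam := by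
  have h1 : Tendsto (fun r : ℝ => r ^ (-lam)) atTop (𝓝 0) :=
    tendsto_rpow_neg_atTop (by linarith)
  have h4 := pow_div_tendsto hlam
  have h5 : Tendsto (fun r : ℝ => K * r ^ (-lam) + N * (r ^ 2 / r ^ lam)) atTop
      (𝓝 (K * 0 + N * 0)) :=
    (h1.const_mul K).add (h4.const_mul N)
  have h6 : K * 0 + N * 0 < δ := by linarith
  filter_upwards [h5.eventually_le_const h6, eventually_gt_atTop 0] with r hr hr0
  have hrl : 0 < r ^ lam := Real.rpow_pos_of_pos hr0 _
  have h7 := mul_le_mul_of_nonneg_right hr hrl.le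
  have e1 : r ^ (-lam) * r ^ lam = 1 := by
    rw [← Real.rpow_add hr0]; simp
  calc K + N * r ^ 2 = K * (r ^ (-lam) * r ^ lam) + N * (r ^ 2 / r ^ lam * r ^ lam) := by
        rw [e1]; field_simp
    _ = (K * r ^ (-lam) + N * (r ^ 2 / r ^ lam)) * r ^ lam := by ring
    _ ≤ _ := h7

/-- The extremal functions in the case of finite lower order. -/
theorem upper_finite {κ ε : ℝ} (hκ0 : 0 < κ) (hκ1 : κ < 1) (hε : 0 < ε) (hε1 : ε ≤ 1) :
    ∃ L₀ K₀ : ℝ, 1 ≤ L₀ ∧ ∀ lam : ℝ, L₀ ≤ lam → ∃ F : ℂ → ℂ, NonconstEntire F ∧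
      lowerOrder F = (lam : EReal) ∧
      Lam F ≤ ((-((2 * κ * Real.log lam - K₀) / (1 + 5 * ε)) : ℝ) : EReal) := by
  set A := Aκ κ with hAdef
  have hA : 1 < A := one_lt_Aκ hκ1
  set C₁ := 100 * A ^ 2 with hC₁
  have hC₁1 : 100 ≤ C₁ := by rw [hC₁]; nlinarith
  set E3 := Real.exp 3 with hE3
  have hE3pos : 0 < E3 := Real.exp_pos 3
  set K₀ := 2 * κ * Real.log C₁ + 3 * E3 + 1 with hK₀
  refine ⟨max (400 * A) (max (24 * A ^ 2 / ε) (max (2 * C₁ / ε)
    (C₁ * Real.exp ((3 * E3 + 1) / (2 * κ))))), K₀, ?_, ?_⟩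
  · exact le_trans (by linarith) (le_max_left _ _)
  intro lam hlam
  have hl1 : 400 * A ≤ lam := (le_max_left _ _).trans hlam
  have hl2 : 24 * A ^ 2 / ε ≤ lam := ((le_max_left _ _).trans (le_max_right _ _)).trans hlam
  have hl3 : 2 * C₁ / ε ≤ lam :=
    (((le_max_left _ _).trans (le_max_right _ _)).trans (le_max_right _ _)).trans hlam
  have hl4 : C₁ * Real.exp ((3 * E3 + 1) / (2 * κ)) ≤ lam :=
    (((le_max_right _ _).trans (le_max_right _ _)).trans (le_max_right _ _)).trans hlam
  rw [div_le_iff₀ hε] at hl2 hl3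
  have hlam0 : 0 < lam := by linarith
  have hlam400 : 400 ≤ lam := by linarith
  -- L
  set L := Real.log (lam / C₁) with hL
  have hLeq : L = Real.log lam - Real.log C₁ := Real.log_div hlam0.ne' (by positivity)
  have hL1 : 3 * E3 + 1 ≤ 2 * κ * L := by
    have h1 : (3 * E3 + 1) / (2 * κ) ≤ L := by
      rw [hL, Real.le_log_iff_exp_le (by positivity), le_div_iff₀ (by positivity)]
      linarith
    rw [div_le_iff₀ (by positivity)] at h1
    linarith
  have hL0 : 0 ≤ L := by
    have : 0 < 2 * κ * L := by linarith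
    exact (pos_of_mul_pos_right this (by positivity)).le
  have hexpL : Real.exp (-L) = C₁ / lam := by
    rw [Real.exp_neg, hL, Real.exp_log (by positivity), inv_div]
  -- step h
  set h := 100 * A ^ 2 / lam ^ 2 with hh
  have hh0 : 0 < h := by positivity
  have hhl : h * lam ≤ ε / 2 := by
    have : h * lam = C₁ / lam := by rw [hh, hC₁]; field_simp
    rw [this, div_le_iff₀ hlam0]; linarith
  have hh1 : h ≤ 1 := by nlinarith
  -- start index
  obtain ⟨j₀, hj₀⟩ := exists_nat_ge (Real.log (2 + 1 / (2 * κ)) / h)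
  rw [div_le_iff₀ hh0] at hj₀
  have hx0 : 2 + 1 / (2 * κ) ≤ xF A lam j₀ 0 := by
    unfold xF
    rw [← Real.log_le_iff_le_exp (by positivity)]
    simpa using hj₀
  have hκi : 0 < 1 / (2 * κ) := by positivity
  have D := dataF hκ0 hκ1 hε hε1 hl1 (by rw [← hAdef]; linarith) (j₀ := j₀) (by
    rw [← hAdef]; linarith)
  rw [← hAdef] at D
  set x := xF A lam j₀ with hx
  set a := aF A lam j₀ with ha
  have hxm : StrictMono x := xF_mono (by linarith) hlam0 j₀
  have hxt : Tendsto x atTop atTop := xF_tendsto (by linarith) hlam0 j₀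
  have hxpos : ∀ j, 0 < x j := fun j => xF_pos A lam j₀ j
  have hanorm : ∀ j, ‖a j‖ = x j := fun j => aF_norm A lam j₀ j
  have hxs : ∀ j, x (j + 1) = Real.exp h * x j := fun j => xF_succ A lam j₀ j
  have hva : ∀ j, vF lam (a j) = x j ^ lam := fun j => by rw [vF_eq, hanorm]
  have hmass : ∀ j, 1 ≤ 2 * κ * vF lam (a j) := by
    intro j
    rw [hva]
    have h1 : 1 / (2 * κ) ≤ x j := by
      have := hxm.monotone (Nat.zero_le j)
      linarith
    have h2 : x j ≤ x j ^ lam := by
      have h3 : 1 ≤ x j := by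
        have := hxm.monotone (Nat.zero_le j)
        linarith
      calc x j = x j ^ (1 : ℝ) := (Real.rpow_one _).symm
        _ ≤ x j ^ lam := Real.rpow_le_rpow_of_exponent_le h3 (by linarith)
    rw [div_le_iff₀ (by positivity)] at h1
    nlinarith
  obtain ⟨N, C, hN, F, hF, ⟨z₀, hz₀⟩, hG, hV⟩ := D.exists_entire' hmass
  -- upper bound for the maximum modulus
  have hup : ∀ᶠ r in atTop, logMax F r ≤ (1 + 2 * ε) * r ^ lam := by
    filter_upwards [asymp1 (N := N) (K := C) (show 2 < lam by linarith) hε,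
      eventually_gt_atTop 0] with r hr hr0
    apply logMax_le hF hr0.le (by positivity)
    intro z hz
    have h1 := hG z 1 ((r + 1) ^ lam) one_pos le_rfl (fun w hw => by
      rw [vF_eq]
      apply Real.rpow_le_rpow (norm_nonneg w) _ hlam0.le
      have : ‖w‖ ≤ ‖w - z‖ + ‖z‖ := by simpa using norm_add_le (w - z) z
      linarith)
    refine h1.trans (Real.exp_le_exp.2 ?_)
    rw [Real.log_one, hz]
    linarith
  -- lower bound for the maximum modulus
  have hlow : ∃ c : ℝ, 0 < c ∧ ∀ᶠ r in atTop, c * r ^ lam ≤ logMax F r := by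
    have hl2pos : 0 < Real.log 2 := Real.log_pos (by norm_num)
    refine ⟨κ * Real.log 2 * (1 / (4 * Real.exp h)) ^ lam, by positivity, ?_⟩
    have hP : ∀ᶠ j in atTop, 2 * ‖z₀‖ ≤ x j ∧
        (2 * Real.log 2 + |Real.log ‖F z₀‖|) + 0 * x j ^ 2 ≤ κ * Real.log 2 * x j ^ lam :=
      (hxt.eventually (eventually_ge_atTop _)).and
        (hxt.eventually (asymp2 (by linarith) (by positivity)))
    have h4 : Tendsto (fun r : ℝ => r / 4) atTop atTop := tendsto_id.atTop_div_const (by norm_num)
    filter_upwards [h4.eventually (exists_index hxm hxt hP), eventually_gt_atTop 0]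
      with r hr hr0
    obtain ⟨j, hj1, hj2, hj3, hj4⟩ := hr
    obtain ⟨n, C', hn, hC'⟩ := hV j
    obtain ⟨hM0, hM⟩ := growth_lower hF hC' hz₀ hn (by rw [hanorm]; exact hxpos j)
      (by rw [hanorm]; exact hj3)
    rw [hanorm] at hM0 hM
    rw [hva] at hM
    have h5 : logMax F (4 * x j) ≤ logMax F r := by
      apply logMax_mono hF _ _ hM0
      · have := hxpos j; positivity
      · linarith
    have h6 : κ * Real.log 2 * x j ^ lam ≤ logMax F r := by
      refine le_trans ?_ h5
      refine le_trans ?_ hM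
      have := neg_abs_le (Real.log ‖F z₀‖)
      linarith
    refine le_trans ?_ h6
    rw [mul_assoc]
    apply mul_le_mul_of_nonneg_left _ (by positivity)
    rw [← Real.mul_rpow (by positivity) hr0.le]
    apply Real.rpow_le_rpow (by positivity) _ hlam0.le
    rw [hxs] at hj2
    rw [div_mul_eq_mul_div, div_le_iff₀ (by positivity)]
    linarith
  obtain ⟨c, hc, hlow⟩ := hlow
  have hnc : NonconstEntire F := by
    apply nonconst_of hF
    intro B
    have h1 : Tendsto (fun r : ℝ => c * r ^ lam) atTop atTop :=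
      (tendsto_rpow_atTop hlam0).const_mul_atTop hc
    obtain ⟨r, hr1, hr2, hr3⟩ := (hlow.and ((h1.eventually (eventually_gt_atTop B)).and
      (eventually_ge_atTop 0))).exists
    exact ⟨r, hr3, by linarith⟩
  refine ⟨F, hnc, ?_, ?_⟩
  · have h1 := log_ratio_tendsto hc hlow hup
    exact ((continuous_coe_real_ereal.tendsto _).comp h1).liminf_eq
  · -- the bound for Λ
    apply limsup_le_of_le (by isBoundedDefault)
    have hP : ∀ᶠ j in atTop, lam ≤ x j ∧
        (|C| + 2 * L) + 4 * N * x j ^ 2 ≤ 1 * x j ^ lam :=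
      (hxt.eventually (eventually_ge_atTop _)).and
        (hxt.eventually (asymp2 (by linarith) one_pos))
    have hP2 : ∀ᶠ j in atTop, C + 4 * N * x j ^ 2 ≤ E3 * x j ^ lam :=
      hxt.eventually (asymp2 (by linarith) hE3pos)
    have hP3 : ∀ᶠ j in atTop, 2 * L + 0 * x j ^ 2 ≤ 1 * x j ^ lam :=
      hxt.eventually (asymp2 (by linarith) one_pos)
    have hP1 : ∀ᶠ j in atTop, lam ≤ x j := hxt.eventually (eventually_ge_atTop _)
    filter_upwards [exists_index hxm hxt (hP1.and (hP2.and hP3)), hup,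
      (logMax_tendsto hnc).eventually (eventually_gt_atTop 0)] with r hr hr2 hr3
    obtain ⟨j, hj1, hj2, hj3, hj4, hj5⟩ := hr
    obtain ⟨n, C', hn, hC'⟩ := hV j
    have hxj := hxpos j
    have hr0 : 0 < r := by linarith
    set V := x j ^ lam with hVdef
    have hV0 : 0 < V := Real.rpow_pos_of_pos hxj _
    rw [hva] at hn
    -- the point
    set z : ℂ := ((r / x j : ℝ) : ℂ) * a j with hz
    have hznorm : ‖z‖ = r := by
      rw [hz, norm_mul, Complex.norm_real, hanorm, Real.norm_eq_abs, abs_of_pos (by positivity)]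
      field_simp
    have hza : ‖z - a j‖ = r - x j := by
      have e : z - a j = (((r - x j) / x j : ℝ) : ℂ) * a j := by
        rw [hz]
        have : ((x j : ℝ) : ℂ) ≠ 0 := by exact_mod_cast hxj.ne'
        push_cast
        field_simp
      rw [e, norm_mul, Complex.norm_real, hanorm, Real.norm_eq_abs,
        abs_of_pos (div_pos (by linarith) hxj)]
      field_simp
    have hzne : z ≠ a j := by
      intro he
      rw [he, sub_self, norm_zero] at hza
      linarith
    have hexph : Real.exp h ≤ 1 + 2 * h := by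
      have := Real.abs_exp_sub_one_le (x := h) (by rw [abs_of_pos hh0]; exact hh1)
      rw [abs_of_pos hh0] at this
      have := le_abs_self (Real.exp h - 1)
      linarith
    have hkey := local_key hF hC' (ρ := 2 * x j / lam) (K := 3 * E3 * V) (L := L)
      (m := 2 * κ * V - 2) (by positivity) (fun w hw => by
        have hwn : ‖w‖ ≤ x j + 2 * x j / lam := by
          have : ‖w‖ ≤ ‖w - a j‖ + ‖a j‖ := by simpa using norm_add_le (w - a j) (a j)
          rw [hw, hanorm] at this
          linarith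
        have h3l : 2 * x j / lam + 1 ≤ x j * (3 / lam) := by
          rw [mul_div_assoc', div_add_one hlam0.ne']
          apply div_le_div_of_nonneg_right _ hlam0.le
          linarith
        have h1 := hG w 1 (E3 * V) one_pos le_rfl (fun y hy => by
          rw [vF_eq]
          have hyn : ‖y‖ ≤ x j * (1 + 3 / lam) := by
            have : ‖y‖ ≤ ‖y - w‖ + ‖w‖ := by simpa using norm_add_le (y - w) w
            linarith
          calc ‖y‖ ^ lam ≤ (x j * (1 + 3 / lam)) ^ lam :=
                Real.rpow_le_rpow (norm_nonneg _) hyn hlam0.le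
            _ = x j ^ lam * (1 + 3 / lam) ^ lam := by
                rw [Real.mul_rpow hxj.le (by positivity)]
            _ ≤ x j ^ lam * (Real.exp (3 / lam)) ^ lam := by
                apply mul_le_mul_of_nonneg_left _ hV0.le
                apply Real.rpow_le_rpow (by positivity) _ hlam0.le
                have := Real.add_one_le_exp (3 / lam)
                linarith
            _ = E3 * V := by
                rw [← Real.exp_mul, div_mul_cancel₀ _ hlam0.ne', mul_comm])
        refine h1.trans (Real.exp_le_exp.2 ?_)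
        rw [Real.log_one]
        have hwb : ‖w‖ + 1 ≤ 2 * x j := by
          have : x j * (3 / lam) ≤ x j * 1 := by
            apply mul_le_mul_of_nonneg_left _ hxj.le
            rw [div_le_iff₀ hlam0]; linarith
          linarith
        have h2 : (‖w‖ + 1) ^ 2 ≤ 4 * x j ^ 2 := by
          have := pow_le_pow_left₀ (by positivity) hwb 2
          nlinarith
        have h3 := mul_le_mul_of_nonneg_left h2 hN
        have h4 : (1 + ε) * (E3 * V) ≤ 2 * (E3 * V) := by
          apply mul_le_mul_of_nonneg_right _ (by positivity)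
          linarith
        linarith) hzne hL0 (by
        rw [hza, hexpL]
        have e : 2 * x j / lam * (C₁ / lam) = 2 * h * x j := by
          rw [hh, hC₁]; field_simp
        rw [e]
        rw [hxs] at hj2
        nlinarith) hn
    have hmin : logMin F r ≤ ((-(V * (2 * κ * L - 3 * E3 - 1)) : ℝ) : EReal) := by
      refine (logMin_le hznorm hkey).trans ?_
      apply EReal.coe_le_coe_iff.2
      nlinarith
    have hrV : r ^ lam ≤ (1 + ε) * V := by
      have h1 : r ^ lam ≤ (Real.exp h * x j) ^ lam :=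
        Real.rpow_le_rpow hr0.le (by rw [← hxs]; exact hj2) hlam0.le
      rw [Real.mul_rpow (Real.exp_pos _).le hxj.le, ← Real.exp_mul] at h1
      refine h1.trans (mul_le_mul_of_nonneg_right ?_ hV0.le)
      have h2 : Real.exp (h * lam) ≤ Real.exp (ε / 2) := Real.exp_le_exp.2 hhl
      have h3 := Real.abs_exp_sub_one_le (x := ε / 2) (by rw [abs_of_pos (by linarith)]; linarith)
      rw [abs_of_pos (by linarith : 0 < ε / 2)] at h3
      have := le_abs_self (Real.exp (ε / 2) - 1)
      linarith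
    have hq0 : 0 ≤ 2 * κ * L - 3 * E3 - 1 := by linarith
    have hBle : logMax F r ≤ (1 + 5 * ε) * V := by
      refine hr2.trans ?_
      calc (1 + 2 * ε) * r ^ lam ≤ (1 + 2 * ε) * ((1 + ε) * V) :=
            mul_le_mul_of_nonneg_left hrV (by linarith)
        _ = (1 + 3 * ε + 2 * (ε * ε)) * V := by ring
        _ ≤ (1 + 5 * ε) * V := by
            apply mul_le_mul_of_nonneg_right _ hV0.le
            nlinarith
    have e2 : 2 * κ * Real.log lam - K₀ = 2 * κ * L - 3 * E3 - 1 := by
      rw [hK₀, hLeq]; ring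
    rw [e2]
    apply ereal_div_le' (K := V * (2 * κ * L - 3 * E3 - 1)) (B := (1 + 5 * ε) * V)
      (mul_nonneg hV0.le hq0) hr3 hBle hmin
    have : 0 < 1 + 5 * ε := by linarith
    field_simp
    exact le_rfl

end MinMod
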