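import Mathlib
import Pool.Agent.Work.MP_06ac62_an.Growth
import Pool.Agent.Work.MP_06ac62_an.DataInf

open Filter MeasureTheory Metric Real Set Topology
open scoped ComplexConjugate

namespace MinMod

lemma asympI {δ N K : ℝ} (hδ : 0 < δ) :
    ∀ᶠ x : ℝ in atTop, K + N * x ≤ δ * Real.exp x := by
  have h1 : Tendsto (fun x : ℝ => Real.exp (-x)) atTop (𝓝 0) :=
    Real.tendsto_exp_neg_atTop_nhds_zero
  have h2 : Tendsto (fun x : ℝ => x ^ 1 * Real.exp (-x)) atTop (𝓝 0) :=
    Real.tendsto_pow_mul_exp_neg_atTop_nhds_zero 1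
  have h3 : Tendsto (fun x : ℝ => K * Real.exp (-x) + N * (x ^ 1 * Real.exp (-x))) atTop
      (𝓝 (K * 0 + N * 0)) := (h1.const_mul K).add (h2.const_mul N)
  have h4 : K * 0 + N * 0 < δ := by linarith
  filter_upwards [h3.eventually_le_const h4] with x hx
  have h5 := mul_le_mul_of_nonneg_right hx (Real.exp_pos x).le
  have h6 : Real.exp (-x) * Real.exp x = 1 := by rw [← Real.exp_add]; simp
  calc K + N * x = (K * Real.exp (-x) + N * (x ^ 1 * Real.exp (-x))) * Real.exp x := by
        rw [add_mul, mul_assoc, h6, pow_one, mul_assoc, mul_assoc, h6]; ring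
    _ ≤ δ * Real.exp x := h5

/-- The extremal function in the case of infinite order. -/
theorem upper_infinite {κ ε : ℝ} (hκ0 : 0 < κ) (hκ1 : κ < 1) (hε : 0 < ε) (hε1 : ε ≤ 1)
    (hεκ : ε ≤ 2 * κ) :
    ∃ F : ℂ → ℂ, NonconstEntire F ∧ order F = ⊤ ∧
      LamInf F ≤ ((-((2 * κ - ε) / ((1 + 2 * ε) * Real.exp (4 * ε) * (1 + ε))) : ℝ) : EReal) := by
  set A := Aκ κ with hAdef
  have hA : 1 < A := one_lt_Aκ hκ1
  have hA0 : 0 < A := by linarith
  set C₁ := 100 * A ^ 2 with hC₁
  have hC₁1 : 100 ≤ C₁ := by rw [hC₁]; nlinarith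
  set E8 := Real.exp 8 with hE8
  have hE8pos : 0 < E8 := Real.exp_pos 8
  -- start index
  obtain ⟨j₀, hj₀⟩ : ∃ j₀ : ℕ, 20 + 1 / ε + 1 / (2 * κ) ≤ tI j₀ 0 := by
    have h1 : Tendsto (fun j₀ : ℕ => tI j₀ 0) atTop atTop := by
      have := tI_tendsto 0
      refine this.congr ?_
      intro n
      unfold tI
      simp
    exact (h1.eventually (eventually_ge_atTop _)).exists
  have hεi : 0 < 1 / ε := by positivity
  have hκi : 0 < 1 / (2 * κ) := by positivity
  have ht20 : 20 ≤ tI j₀ 0 := by linarith
  have D := dataI hκ0 hκ1 hε hε1 ht20 (by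
    have h1 : 1 / ε ≤ tI j₀ 0 := by linarith
    rw [div_le_iff₀ hε] at h1
    linarith)
  rw [← hAdef] at D
  have htj : ∀ j, 20 ≤ tI j₀ j := fun j =>
    ht20.trans ((tI_strictMono j₀).monotone (Nat.zero_le j))
  set x := rI A j₀ with hx
  set a := aI A j₀ with ha
  have hx2 : ∀ j, x j ^ 2 = 20 * A * tI j₀ j := fun j => rI_sq hA0 j₀ j
  have hx2' : ∀ j, 400 * A ≤ x j ^ 2 := fun j => by
    rw [hx2]; have := htj j; nlinarith
  have hxnn : ∀ j, 0 ≤ x j := fun j => rI_nonneg A j₀ j
  have hx20 : ∀ j, 20 ≤ x j := fun j => by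
    have h1 := hx2' j
    have h2 := hxnn j
    nlinarith
  have hxm : StrictMono x := rI_strictMono hA0 j₀
  have hxt : Tendsto x atTop atTop := rI_tendsto hA0 j₀
  have hxt2 : Tendsto (fun j => x j ^ 2) atTop atTop :=
    (tendsto_pow_atTop two_ne_zero).comp hxt
  have hxtl : Tendsto (fun j => Real.log (x j)) atTop atTop := Real.tendsto_log_atTop.comp hxt
  have hanorm : ∀ j, ‖a j‖ = x j := fun j => aI_norm A j₀ j
  have hva : ∀ j, vI (a j) = Real.exp (x j ^ 2) := fun j => by unfold vI; rw [hanorm]
  have hmass : ∀ j, 1 ≤ 2 * κ * vI (a j) := by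
    intro j
    rw [hva]
    have h1 : 1 / (2 * κ) ≤ Real.exp (x j ^ 2) := by
      have h2 := Real.add_one_le_exp (x j ^ 2)
      have h3 : tI j₀ 0 ≤ tI j₀ j := (tI_strictMono j₀).monotone (Nat.zero_le j)
      have h4 : tI j₀ j ≤ x j ^ 2 := by
        rw [hx2]; have := htj j; nlinarith
      linarith
    rw [div_le_iff₀ (by positivity)] at h1
    linarith
  obtain ⟨N, C, hN, F, hF, ⟨z₀, hz₀⟩, hG, hV⟩ := D.exists_entire' hmass
  -- upper bound for the maximum modulus
  have hup : ∀ᶠ r in atTop, logMax F r ≤ (1 + 2 * ε) * (Real.exp (3 * ε) * Real.exp (r ^ 2)) := by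
    have hr2 : Tendsto (fun r : ℝ => r ^ 2) atTop atTop := tendsto_pow_atTop two_ne_zero
    filter_upwards [hr2.eventually (asympI (N := 1 + 4 * N) (K := C - Real.log ε) hε),
      eventually_ge_atTop 1] with r hr hr1
    have hr0 : 0 < r := by linarith
    apply logMax_le hF hr0.le (by positivity)
    intro z hz
    have hs0 : 0 < ε / (1 + r) := by positivity
    have hsr : ε / (1 + r) * (1 + r) = ε := by field_simp
    have hs1 : ε / (1 + r) ≤ 1 := by
      rw [div_le_iff₀ (by positivity)]; linarith
    have h1 := hG z (ε / (1 + r)) (Real.exp (3 * ε) * Real.exp (r ^ 2)) hs0 hs1 (fun w hw => by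
      unfold vI
      rw [← Real.exp_add]
      apply Real.exp_le_exp.2
      have h2 : ‖w‖ ≤ r + ε / (1 + r) := by
        have : ‖w‖ ≤ ‖w - z‖ + ‖z‖ := by simpa using norm_add_le (w - z) z
        linarith
      have h3 := pow_le_pow_left₀ (norm_nonneg w) h2 2
      set s := ε / (1 + r) with hs
      have h4 : s * r ≤ ε := by nlinarith
      have h5 : s ^ 2 ≤ ε := by
        have : s ≤ ε := by nlinarith
        nlinarith
      nlinarith)
    refine h1.trans (Real.exp_le_exp.2 ?_)
    rw [hz, Real.log_div hε.ne' (by positivity)]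
    have h2 : Real.log (1 + r) ≤ r ^ 2 := by
      have h3 := Real.log_le_sub_one_of_pos (show 0 < 1 + r by linarith)
      nlinarith
    have h4 : N * (r + 1) ^ 2 ≤ N * (4 * r ^ 2) := by
      apply mul_le_mul_of_nonneg_left _ hN
      nlinarith
    have h5 : ε * Real.exp (r ^ 2) ≤ ε * (Real.exp (3 * ε) * Real.exp (r ^ 2)) := by
      apply mul_le_mul_of_nonneg_left _ hε.le
      have : 1 ≤ Real.exp (3 * ε) := Real.one_le_exp (by positivity)
      have := Real.exp_pos (r ^ 2)
      nlinarith
    linarith
  -- lower bound along a sequence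
  have hl2pos : 0 < Real.log 2 := Real.log_pos (by norm_num)
  have hlow : ∀ᶠ j in atTop, κ * Real.log 2 * Real.exp (x j ^ 2) ≤ logMax F (4 * x j) := by
    filter_upwards [hxt.eventually (eventually_ge_atTop (2 * ‖z₀‖)),
      hxt2.eventually (asympI (N := 0) (K := 2 * Real.log 2 + |Real.log ‖F z₀‖|)
        (show 0 < κ * Real.log 2 by positivity))] with j hj3 hj4
    obtain ⟨n, C', hn, hC'⟩ := hV j
    have hxj := hx20 j
    obtain ⟨hM0, hM⟩ := growth_lower hF hC' hz₀ hn (by rw [hanorm]; linarith)
      (by rw [hanorm]; exact hj3)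
    rw [hanorm] at hM0 hM
    rw [hva] at hM
    refine le_trans ?_ hM
    have := neg_abs_le (Real.log ‖F z₀‖)
    linarith
  have h4x : Tendsto (fun j => 4 * x j) atTop atTop := hxt.const_mul_atTop (by norm_num)
  have hnc : NonconstEntire F := by
    apply nonconst_of hF
    intro B
    have h1 : Tendsto (fun j => κ * Real.log 2 * Real.exp (x j ^ 2)) atTop atTop :=
      (Real.tendsto_exp_atTop.comp hxt2).const_mul_atTop (by positivity)
    obtain ⟨j, hj1, hj2⟩ := (hlow.and (h1.eventually (eventually_gt_atTop B))).exists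
    exact ⟨4 * x j, by have := hx20 j; linarith, by linarith⟩
  refine ⟨F, hnc, ?_, ?_⟩
  · -- infinite order
    have key : ∀ B : ℝ, 0 ≤ B → (B : EReal) ≤ order F := by
      intro B hB
      unfold order
      apply le_limsup_of_frequently_le _ (by isBoundedDefault)
      apply h4x.frequently
      apply Eventually.frequently
      have h1 : Tendsto (fun y : ℝ => y ^ 2 - 4 * B * y) atTop atTop := by
        have h2 : Tendsto (fun y : ℝ => y * (y - 4 * B)) atTop atTop :=
          tendsto_id.atTop_mul_atTop₀ (tendsto_atTop_add_const_right _ _ tendsto_id)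
        refine h2.congr (fun y => by ring)
      filter_upwards [hlow, (h1.comp hxt).eventually
        (eventually_ge_atTop (-Real.log (κ * Real.log 2)))] with j hj1 hj2
      simp only [Function.comp_apply] at hj2
      have hxj := hx20 j
      apply EReal.coe_le_coe_iff.2
      have hlog4 : 0 < Real.log (4 * x j) := Real.log_pos (by linarith)
      rw [le_div_iff₀ hlog4]
      have h3 : Real.log (κ * Real.log 2 * Real.exp (x j ^ 2)) ≤
          Real.log (logMax F (4 * x j)) := Real.log_le_log (by positivity) hj1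
      rw [Real.log_mul (by positivity) (Real.exp_pos _).ne', Real.log_exp] at h3
      have h4 : Real.log (4 * x j) ≤ 4 * x j := by
        have := Real.log_le_sub_one_of_pos (show 0 < 4 * x j by linarith)
        linarith
      have h5 := mul_le_mul_of_nonneg_left h4 hB
      linarith
    rw [EReal.eq_top_iff_forall_lt]
    intro y
    have h1 := key (|y| + 1) (by positivity)
    refine lt_of_lt_of_le ?_ h1
    apply EReal.coe_lt_coe_iff.2
    have := le_abs_self y
    linarith
  · -- the bound for `Λ_∞`
    set E := (1 + 2 * ε) * Real.exp (4 * ε) with hE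
    have hE1 : 1 ≤ E := by
      have : 1 ≤ Real.exp (4 * ε) := Real.one_le_exp (by positivity)
      nlinarith
    apply limsup_le_of_le (by isBoundedDefault)
    have hP1 : ∀ᶠ j in atTop, C₁ + Real.log E + C₁ / ε * 2 ≤ x j ^ 2 :=
      hxt2.eventually (eventually_ge_atTop _)
    have hP2 : ∀ᶠ j in atTop, C + (1 + 4 * N) * x j ^ 2 ≤ E8 * Real.exp (x j ^ 2) :=
      hxt2.eventually (asympI hE8pos)
    have hP3 : ∀ᶠ j in atTop, (2 * κ * Real.log C₁ + 3 * E8 + 1) / (2 * ε) +
        Real.log 2 / (2 * ε) ≤ Real.log (x j) := hxtl.eventually (eventually_ge_atTop _)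
    have hll : Tendsto (fun r => Real.log (Real.log (logMax F r))) atTop atTop :=
      Real.tendsto_log_atTop.comp (Real.tendsto_log_atTop.comp (logMax_tendsto hnc))
    filter_upwards [exists_index hxm hxt (hP1.and (hP2.and hP3)), hup,
      (logMax_tendsto hnc).eventually (eventually_gt_atTop 1),
      hll.eventually (eventually_gt_atTop 0)] with r hr hr2 hr3 hr4
    obtain ⟨j, hj1, hj2, hj3, hj4, hj5⟩ := hr
    obtain ⟨n, C', hn, hC'⟩ := hV j
    have hxj20 := hx20 j
    have hxj : 0 < x j := by linarith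
    have hxj2 : 0 < x j ^ 2 := by positivity
    have hr0 : 0 < r := by linarith
    have hC1ε : 0 < C₁ / ε := by positivity
    have hlogE : 0 ≤ Real.log E := Real.log_nonneg hE1
    set V := Real.exp (x j ^ 2) with hVdef
    have hV0 : 0 < V := Real.exp_pos _
    rw [hva] at hn
    -- L
    set L := Real.log (x j ^ 2 / C₁) with hL
    have hLeq : L = 2 * Real.log (x j) - Real.log C₁ := by
      rw [hL, Real.log_div hxj2.ne' (by positivity), Real.log_pow]
      push_cast; ring
    have hL0 : 0 ≤ L := by
      apply Real.log_nonneg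
      rw [le_div_iff₀ (by positivity)]
      linarith
    have hexpL : Real.exp (-L) = C₁ / x j ^ 2 := by
      rw [Real.exp_neg, hL, Real.exp_log (by positivity), inv_div]
    have hLV : 2 * L ≤ V := by
      have h1 : L ≤ x j ^ 2 / C₁ := by
        have := Real.log_le_sub_one_of_pos (show 0 < x j ^ 2 / C₁ by positivity)
        linarith
      have h2 : x j ^ 2 / C₁ ≤ x j ^ 2 / 2 := by
        apply div_le_div_of_nonneg_left hxj2.le (by norm_num) (by linarith)
      have h3 := Real.add_one_le_exp (x j ^ 2)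
      linarith
    have htj0 : 0 < tI j₀ j := by have := htj j; linarith
    have hstep : x (j + 1) - x j ≤ 1 / x j * (C₁ / x j ^ 2) := rI_succ hA0 htj0
    have hstep2 : x (j + 1) ^ 2 - x j ^ 2 ≤ ε := by
      refine (rI_sq_succ hA0 htj0).trans ?_
      change 200 * A ^ 2 / x j ^ 2 ≤ ε
      rw [div_le_iff₀ hxj2]
      have h1 : C₁ / ε * 2 ≤ x j ^ 2 := by linarith
      have h2 := mul_le_mul_of_nonneg_left h1 hε.le
      have h3 : ε * (C₁ / ε * 2) = 2 * C₁ := by field_simp
      rw [h3, hC₁] at h2
      linarith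
    -- the point
    set z : ℂ := ((r / x j : ℝ) : ℂ) * a j with hz
    have hznorm : ‖z‖ = r := by
      rw [hz, norm_mul, Complex.norm_real, hanorm, Real.norm_eq_abs, abs_of_pos (by positivity)]
      field_simp
    have hza : ‖z - a j‖ = r - x j := by
      have e : z - a j = (((r - x j) / x j : ℝ) : ℂ) * a j := by
        rw [hz]
        have : ((x j : ℝ) : ℂ) ≠ 0 := by exact_mod_cast hxj.ne'
        push_cast
        field_simp
      rw [e, norm_mul, Complex.norm_real, hanorm, Real.norm_eq_abs,
        abs_of_pos (div_pos (by linarith) hxj)]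
      field_simp
    have hzne : z ≠ a j := by
      intro he
      rw [he, sub_self, norm_zero] at hza
      linarith
    have h1x : 1 / x j ≤ 1 := by
      rw [div_le_iff₀ hxj]; linarith
    have h1x0 : 0 < 1 / x j := by positivity
    have hxx : 1 / x j * x j = 1 := by field_simp
    have hkey := local_key hF hC' (ρ := 1 / x j) (K := 3 * E8 * V) (L := L)
      (m := 2 * κ * V - 2) h1x0 (fun w hw => by
        have hwn : ‖w‖ ≤ x j + 1 / x j := by
          have : ‖w‖ ≤ ‖w - a j‖ + ‖a j‖ := by simpa using norm_add_le (w - a j) (a j)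
          rw [hw, hanorm] at this
          linarith
        have h1 := hG w (1 / x j) (E8 * V) h1x0 h1x (fun y hy => by
          have hyn : ‖y‖ ≤ x j + 2 * (1 / x j) := by
            have : ‖y‖ ≤ ‖y - w‖ + ‖w‖ := by simpa using norm_add_le (y - w) w
            linarith
          unfold vI
          rw [hE8, hVdef, ← Real.exp_add]
          apply Real.exp_le_exp.2
          have h2 := pow_le_pow_left₀ (norm_nonneg y) hyn 2
          nlinarith)
        refine h1.trans (Real.exp_le_exp.2 ?_)
        have hlog1 : Real.log (1 / x j) = -Real.log (x j) := by rw [one_div, Real.log_inv]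
        rw [hlog1]
        have hlogx : Real.log (x j) ≤ x j ^ 2 := by
          have := Real.log_le_sub_one_of_pos hxj
          nlinarith
        have hwb : ‖w‖ + 1 ≤ 2 * x j := by linarith
        have h2 : (‖w‖ + 1) ^ 2 ≤ 4 * x j ^ 2 := by
          have := pow_le_pow_left₀ (by positivity) hwb 2
          nlinarith
        have h3 := mul_le_mul_of_nonneg_left h2 hN
        have h4 : (1 + ε) * (E8 * V) ≤ 2 * (E8 * V) := by
          apply mul_le_mul_of_nonneg_right _ (by positivity)
          linarith
        linarith) hzne hL0 (by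
        rw [hza, hexpL]
        linarith) hn
    have hmin : logMin F r ≤ ((-(V * (2 * κ * L - 3 * E8 - 1)) : ℝ) : EReal) := by
      refine (logMin_le hznorm hkey).trans ?_
      apply EReal.coe_le_coe_iff.2
      nlinarith
    set ℓ := Real.log (x j) with hℓ
    have hdiv : (2 * κ * Real.log C₁ + 3 * E8 + 1) + Real.log 2 ≤ 2 * ε * ℓ := by
      rw [← add_div, div_le_iff₀ (by positivity)] at hj5
      linarith
    have hlogC : 0 ≤ Real.log C₁ := Real.log_nonneg (by linarith)
    have hℓ0 : 0 < ℓ := Real.log_pos (by linarith)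
    have hmin2 : logMin F r ≤ ((-(V * (2 * (2 * κ - ε) * ℓ)) : ℝ) : EReal) := by
      refine hmin.trans ?_
      apply EReal.coe_le_coe_iff.2
      apply neg_le_neg
      apply mul_le_mul_of_nonneg_left _ hV0.le
      rw [hLeq]
      linarith
    -- upper bound for the denominator
    have hr2x : r ^ 2 ≤ x j ^ 2 + ε := by
      have := pow_le_pow_left₀ hr0.le hj2 2
      linarith
    have hBle : logMax F r ≤ E * V := by
      refine hr2.trans ?_
      have h1 : Real.exp (3 * ε) * Real.exp (r ^ 2) ≤ Real.exp (4 * ε) * V := by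
        rw [hVdef, ← Real.exp_add, ← Real.exp_add]
        apply Real.exp_le_exp.2
        linarith
      calc (1 + 2 * ε) * (Real.exp (3 * ε) * Real.exp (r ^ 2))
          ≤ (1 + 2 * ε) * (Real.exp (4 * ε) * V) :=
            mul_le_mul_of_nonneg_left h1 (by linarith)
        _ = E * V := by rw [hE]; ring
    have hlogmax0 : 0 < Real.log (logMax F r) := Real.log_pos hr3
    have hloglog : Real.log (Real.log (logMax F r)) ≤ 2 * (1 + ε) * ℓ := by
      have h1 : Real.log (logMax F r) ≤ Real.log E + x j ^ 2 := by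
        have h2 := Real.log_le_log (by linarith) hBle
        rw [Real.log_mul (by positivity) hV0.ne', hVdef, Real.log_exp] at h2
        exact h2
      have h3 : Real.log (logMax F r) ≤ 2 * x j ^ 2 := by linarith
      have h4 := Real.log_le_log hlogmax0 h3
      rw [Real.log_mul (by norm_num) hxj2.ne', Real.log_pow] at h4
      push_cast at h4
      have h5 : Real.log 2 ≤ 2 * ε * ℓ := by
        have : 0 ≤ 2 * κ * Real.log C₁ := by positivity
        linarith
      linarith
    have hprod : logMax F r * Real.log (Real.log (logMax F r)) ≤ E * V * (2 * (1 + ε) * ℓ) :=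
      mul_le_mul hBle hloglog hr4.le (by positivity)
    apply ereal_div_le' (K := V * (2 * (2 * κ - ε) * ℓ)) (B := E * V * (2 * (1 + ε) * ℓ))
      (by
        apply mul_nonneg hV0.le
        apply mul_nonneg _ hℓ0.le
        linarith) (mul_pos (by linarith) hr4) hprod hmin2
    have : 0 < E := by linarith
    have : 0 < 1 + ε := by linarith
    apply le_of_eq
    field_simp

end MinMod
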