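import Mathlib
import Pool.Agent.Work.MP_06ac62_an.UpperFin
import Pool.Agent.Work.MP_06ac62_an.UpperInf

open Filter MeasureTheory Metric Real Set Topology

namespace MinMod

theorem CInfty_le : CInfty ≤ (-2 : EReal) := by
  set g : ℝ → ℝ := fun ε =>
    -((2 * (1 - ε) - ε) / ((1 + 2 * ε) * Real.exp (4 * ε) * (1 + ε))) with hg
  have h1 : Tendsto g (𝓝[>] 0) (𝓝 (-2)) := by
    have h2 : ContinuousAt g 0 := by
      apply ContinuousAt.neg
      apply ContinuousAt.div (by fun_prop) (by fun_prop)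
      simp
    have h3 : g 0 = -2 := by simp [hg]
    have h4 := h2.tendsto
    rw [h3] at h4
    exact h4.mono_left nhdsWithin_le_nhds
  have h5 : Tendsto (fun ε => ((g ε : ℝ) : EReal)) (𝓝[>] 0) (𝓝 ((-2 : ℝ) : EReal)) :=
    (continuous_coe_real_ereal.tendsto _).comp h1
  have h6 : CInfty ≤ ((-2 : ℝ) : EReal) := by
    apply ge_of_tendsto h5
    have h7 : ∀ᶠ ε : ℝ in 𝓝[>] 0, ε < 1 / 4 :=
      (eventually_lt_nhds (by norm_num)).filter_mono nhdsWithin_le_nhds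
    filter_upwards [h7, self_mem_nhdsWithin] with ε hε1 hε0
    have hε0' : 0 < ε := hε0
    obtain ⟨F, hF, ho, hL⟩ := upper_infinite (κ := 1 - ε) (ε := ε) (by linarith) (by linarith) hε0'
      (by linarith) (by linarith)
    refine le_trans ?_ hL
    exact sInf_le ⟨F, hF, ho, rfl⟩
  exact h6

/-- eventually `C(λ) / log λ ≤ -(2 - δ)` -/
theorem C_ratio_le {δ : ℝ} (hδ : 0 < δ) :
    ∀ᶠ lam : ℝ in atTop, C lam / ((Real.log lam : ℝ) : EReal) ≤ ((-(2 - δ) : ℝ) : EReal) := by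
  -- choice of the parameter
  obtain ⟨ε, hε0, hε1, hεδ⟩ : ∃ ε : ℝ, 0 < ε ∧ ε < 1 / 4 ∧
      2 - δ / 2 ≤ 2 * (1 - ε) / (1 + 5 * ε) := by
    have h1 : Tendsto (fun ε : ℝ => 2 * (1 - ε) / (1 + 5 * ε)) (𝓝[>] 0) (𝓝 2) := by
      have h2 : ContinuousAt (fun ε : ℝ => 2 * (1 - ε) / (1 + 5 * ε)) 0 := by
        apply ContinuousAt.div (by fun_prop) (by fun_prop)
        simp
      have h4 := h2.tendsto
      simp only [sub_zero, mul_one, mul_zero, add_zero, div_one] at h4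
      exact h4.mono_left nhdsWithin_le_nhds
    have h3 : ∀ᶠ ε : ℝ in 𝓝[>] 0, 2 - δ / 2 ≤ 2 * (1 - ε) / (1 + 5 * ε) :=
      h1.eventually (eventually_ge_nhds (by linarith))
    have h7 : ∀ᶠ ε : ℝ in 𝓝[>] 0, ε < 1 / 4 :=
      (eventually_lt_nhds (by norm_num)).filter_mono nhdsWithin_le_nhds
    obtain ⟨ε, h1, h2, h3⟩ := (h3.and (h7.and self_mem_nhdsWithin)).exists
    exact ⟨ε, h3, h2, h1⟩
  obtain ⟨L₀, K₀, hL₀, h⟩ := upper_finite (κ := 1 - ε) (ε := ε) (by linarith) (by linarith) hε0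
    (by linarith)
  have h1 : ∀ᶠ lam : ℝ in atTop, 2 * |K₀| / δ + 1 ≤ Real.log lam :=
    Real.tendsto_log_atTop.eventually (eventually_ge_atTop _)
  filter_upwards [h1, eventually_ge_atTop L₀] with lam hlog hlam
  have hlog0 : 0 < Real.log lam := by
    have : 0 ≤ 2 * |K₀| / δ := by positivity
    linarith
  obtain ⟨F, hF, ho, hL⟩ := h lam hlam
  have h2 : C lam ≤ ((-((2 * (1 - ε) * Real.log lam - K₀) / (1 + 5 * ε)) : ℝ) : EReal) :=
    by
      refine le_trans ?_ hL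
      exact sInf_le ⟨F, hF, ho, rfl⟩
  have h3 : C lam / ((Real.log lam : ℝ) : EReal) ≤
      ((-((2 * (1 - ε) * Real.log lam - K₀) / (1 + 5 * ε)) : ℝ) : EReal) /
        ((Real.log lam : ℝ) : EReal) := by
    apply EReal.div_le_div_right_of_nonneg _ h2
    exact_mod_cast hlog0.le
  refine h3.trans ?_
  rw [← EReal.coe_div]
  apply EReal.coe_le_coe_iff.2
  rw [div_le_iff₀ hlog0]
  have h4 : |K₀| ≤ δ / 2 * Real.log lam := by
    have h5 : 2 * |K₀| / δ ≤ Real.log lam := by linarith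
    rw [div_le_iff₀ hδ] at h5
    linarith
  have h5 : (1 + 5 * ε) ≠ 0 := by positivity
  have h6 : (2 * (1 - ε) * Real.log lam - K₀) / (1 + 5 * ε) =
      2 * (1 - ε) / (1 + 5 * ε) * Real.log lam - K₀ / (1 + 5 * ε) := by
    field_simp
  have h7 : K₀ / (1 + 5 * ε) ≤ |K₀| := by
    rw [div_le_iff₀ (by positivity)]
    have := le_abs_self K₀
    have := abs_nonneg K₀
    nlinarith
  have h8 := mul_le_mul_of_nonneg_right hεδ hlog0.le
  rw [h6]
  nlinarith

end MinMod
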