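import Mathlib
import Pool.Agent.Work.MP_06ac62_an.UpperFinal
import Pool.Agent.Work.MP_06ac62_an.LowerFinal

open Filter MeasureTheory Metric Real Set Topology

namespace MinMod

theorem CInfty_eq : CInfty = -2 := le_antisymm CInfty_le CInfty_ge

theorem C_ratio_tendsto :
    Tendsto (fun lam : ℝ => C lam / ((Real.log lam : ℝ) : EReal)) atTop (𝓝 (-2)) := by
  rw [tendsto_order]
  constructor
  · intro a ha
    obtain ⟨q, hq1, hq2⟩ := EReal.lt_iff_exists_real_btwn.1 ha
    have hq2' : q < -2 := by
      rw [neg_two_coe] at hq2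
      exact EReal.coe_lt_coe_iff.1 hq2
    filter_upwards [C_ratio_ge (ε := -2 - q) (by linarith)] with lam h
    refine lt_of_lt_of_le hq1 (le_trans ?_ h)
    apply EReal.coe_le_coe_iff.2
    linarith
  · intro a ha
    obtain ⟨q, hq1, hq2⟩ := EReal.lt_iff_exists_real_btwn.1 ha
    have hq1' : -2 < q := by
      rw [neg_two_coe] at hq1
      exact EReal.coe_lt_coe_iff.1 hq1
    filter_upwards [C_ratio_le (δ := q + 2) (by linarith)] with lam h
    refine lt_of_le_of_lt (le_trans h ?_) hq2
    apply EReal.coe_le_coe_iff.2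
    linarith

end MinMod
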