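import Pool.Agent.Work.MP_06ac62_an.H6

open MeasureTheory Complex ComplexConjugate Metric Filter Topology

namespace Pool.Agent.Work.MP_06ac62_an

/-- squared positive part -/
noncomputable def PP (x : ℝ) : ℝ := (max x 0) ^ 2

lemma hasDerivAt_PP (x : ℝ) : HasDerivAt PP (2 * max x 0) x := by
  rcases lt_trichotomy x 0 with h | h | h
  · have e : PP =ᶠ[𝓝 x] fun _ => 0 := by
      filter_upwards [Iio_mem_nhds h] with y hy
      unfold PP
      rw [max_eq_right (le_of_lt hy)]
      simp
    rw [max_eq_right h.le, mul_zero]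
    exact (hasDerivAt_const x (0:ℝ)).congr_of_eventuallyEq e
  · subst h
    rw [max_self, mul_zero, hasDerivAt_iff_isLittleO_nhds_zero]
    simp only [zero_add, smul_zero, sub_zero]
    have : PP 0 = 0 := by simp [PP]
    rw [this]
    simp only [sub_zero]
    rw [Asymptotics.isLittleO_iff]
    intro c hc
    filter_upwards [Metric.ball_mem_nhds (0:ℝ) hc] with y hy
    rw [mem_ball, dist_zero_right] at hy
    unfold PP
    have h1 : |max y 0| ≤ |y| := by
      rcases le_total y 0 with h | h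
      · rw [max_eq_right h]
        simp
      · rw [max_eq_left h]
    rw [norm_pow, Real.norm_eq_abs, Real.norm_eq_abs] at *
    have h2 : 0 ≤ |max y 0| := abs_nonneg _
    nlinarith [abs_nonneg y]
  · have e : PP =ᶠ[𝓝 x] fun y => y ^ 2 := by
      filter_upwards [Ioi_mem_nhds h] with y hy
      unfold PP
      rw [max_eq_left (le_of_lt hy)]
    rw [max_eq_left h.le]
    have := (hasDerivAt_pow 2 x).congr_of_eventuallyEq e
    simpa using this

lemma contDiff_PP : ContDiff ℝ 1 PP := by
  have e : deriv PP = fun x => 2 * max x 0 := by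
    funext x
    exact (hasDerivAt_PP x).deriv
  rw [contDiff_one_iff_deriv]
  refine ⟨fun x => (hasDerivAt_PP x).differentiableAt, ?_⟩
  rw [e]
  fun_prop

/-- `χ`, with parameter `η ∈ (0, 1/4)`: `q = 1 - 2η`, equal to `q` for `s ≤ 1 - 3η`, to `s` for
`s ≥ 1 - η`. -/
noncomputable def chi (η s : ℝ) : ℝ :=
  (1 - 2 * η) + (PP (s - (1 - 3 * η)) - PP (s - (1 - η))) / (4 * η)

lemma hasDerivAt_chi (η s : ℝ) : HasDerivAt (chi η)
    ((max (s - (1 - 3 * η)) 0 - max (s - (1 - η)) 0) / (2 * η)) s := by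
  unfold chi
  have h1 : HasDerivAt (fun s => PP (s - (1 - 3 * η))) (2 * max (s - (1 - 3 * η)) 0) s := by
    have := (hasDerivAt_PP (s - (1 - 3 * η))).comp s ((hasDerivAt_id s).sub_const (1 - 3 * η))
    exact this.congr_deriv (by simp)
  have h2 : HasDerivAt (fun s => PP (s - (1 - η))) (2 * max (s - (1 - η)) 0) s := by
    have := (hasDerivAt_PP (s - (1 - η))).comp s ((hasDerivAt_id s).sub_const (1 - η))
    exact this.congr_deriv (by simp)
  refine (((h1.sub h2).div_const (4 * η)).const_add (1 - 2 * η)).congr_deriv ?_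
  by_cases h : η = 0
  · simp [h]
  · field_simp
    ring

lemma deriv_chi (η s : ℝ) : deriv (chi η) s =
    (max (s - (1 - 3 * η)) 0 - max (s - (1 - η)) 0) / (2 * η) := (hasDerivAt_chi η s).deriv

lemma contDiff_chi (η : ℝ) : ContDiff ℝ 1 (chi η) := by
  unfold chi
  exact contDiff_const.add (((contDiff_PP.comp (contDiff_id.sub contDiff_const)).sub
    (contDiff_PP.comp (contDiff_id.sub contDiff_const))).div_const _)

lemma deriv_chi_nonneg {η : ℝ} (hη : 0 < η) (s : ℝ) : 0 ≤ deriv (chi η) s := by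
  rw [deriv_chi]
  apply div_nonneg _ (by positivity)
  have : s - (1 - η) ≤ s - (1 - 3 * η) := by linarith
  have := max_le_max_right 0 this
  linarith

lemma chi_eq_self {η s : ℝ} (hη : 0 < η) (h : 1 - η ≤ s) : chi η s = s := by
  unfold chi PP
  rw [max_eq_left (by linarith), max_eq_left (by linarith)]
  field_simp
  ring

lemma chi_ge_q {η s : ℝ} (hη : 0 < η) : 1 - 2 * η ≤ chi η s := by
  unfold chi PP
  have h : s - (1 - η) ≤ s - (1 - 3 * η) := by linarith
  have h1 := max_le_max_right 0 h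
  have h2 : 0 ≤ max (s - (1 - η)) 0 := le_max_right _ _
  have h3 : (max (s - (1 - η)) 0) ^ 2 ≤ (max (s - (1 - 3 * η)) 0) ^ 2 := by gcongr
  have : 0 ≤ ((max (s - (1 - 3 * η)) 0) ^ 2 - (max (s - (1 - η)) 0) ^ 2) / (4 * η) := by
    apply div_nonneg _ (by positivity)
    linarith
  linarith

lemma chi_ge_self {η s : ℝ} (hη : 0 < η) : s ≤ chi η s := by
  by_cases h1 : 1 - η ≤ s
  · rw [chi_eq_self hη h1]
  · push Not at h1
    by_cases h2 : s ≤ 1 - 2 * η
    · exact h2.trans (chi_ge_q hη)
    · push Not at h2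
      unfold chi PP
      rw [max_eq_left (by linarith : (0:ℝ) ≤ s - (1 - 3 * η)),
        max_eq_right (by linarith : s - (1 - η) ≤ 0)]
      have e : (1 - 2 * η) + ((s - (1 - 3 * η)) ^ 2 - 0 ^ 2) / (4 * η) - s =
        (s - (1 - η)) ^ 2 / (4 * η) := by
        field_simp
        ring
      have : 0 ≤ (s - (1 - η)) ^ 2 / (4 * η) := by positivity
      linarith

/-- `ψ` -/
noncomputable def psi (η s : ℝ) : ℝ := (1 - η) + ∫ τ in (1 - η)..s, chi η τ / τ

lemma contOn_chi_div (η : ℝ) : ContinuousOn (fun τ => chi η τ / τ) (Set.Ioi 0) := by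
  intro τ hτ
  exact (((contDiff_chi η).continuous.continuousAt).div continuousAt_id (ne_of_gt hτ)).continuousWithinAt

lemma intervalIntegrable_chi {η a b : ℝ} (ha : 0 < a) (hb : 0 < b) :
    IntervalIntegrable (fun τ => chi η τ / τ) volume a b := by
  apply ContinuousOn.intervalIntegrable
  apply (contOn_chi_div η).mono
  intro x hx
  exact lt_of_lt_of_le (lt_min ha hb) hx.1

lemma hasDerivAt_psi {η s : ℝ} (hη : η < 1) (hs : 0 < s) :
    HasDerivAt (psi η) (chi η s / s) s := by
  unfold psi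
  have h1 : ContinuousAt (fun τ => chi η τ / τ) s :=
    ((contDiff_chi η).continuous.continuousAt).div continuousAt_id hs.ne'
  have h2 := intervalIntegral.integral_hasDerivAt_right
    (intervalIntegrable_chi (η := η) (by linarith : 0 < 1 - η) hs)
    ((contOn_chi_div η).stronglyMeasurableAtFilter isOpen_Ioi s hs) h1
  exact h2.const_add _

lemma contDiffAt_psi {η s : ℝ} (hη : η < 1) (hs : 0 < s) : ContDiffAt ℝ 2 (psi η) s := by
  have h : ContDiffAt ℝ (((1 : ℕ) : WithTop ℕ∞) + 1) (psi η) s := by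
    rw [contDiffAt_succ_iff_hasFDerivAt]
    refine ⟨fun x => ContinuousLinearMap.toSpanSingleton ℝ (chi η x / x), ?_, ?_⟩
    · refine ⟨Set.Ioi 0, Ioi_mem_nhds hs, fun x hx => ?_⟩
      exact (hasDerivAt_psi hη hx).hasFDerivAt
    · have h1 : ContDiffAt ℝ 1 (fun x => chi η x / x) s :=
        (contDiff_chi η).contDiffAt.div contDiffAt_id hs.ne'
      exact (ContinuousLinearMap.toSpanSingletonCLE (𝕜 := ℝ) (E := ℝ)).contDiff.contDiffAt.comp s h1
  have e : (((1 : ℕ) : WithTop ℕ∞) + 1) = 2 := by norm_num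
  rwa [e] at h

lemma deriv_psi_eventually {η s : ℝ} (hη : η < 1) (hs : 0 < s) :
    deriv (psi η) =ᶠ[𝓝 s] fun x => chi η x / x := by
  filter_upwards [Ioi_mem_nhds hs] with x hx
  exact (hasDerivAt_psi hη hx).deriv

lemma psi_combo {η s : ℝ} (hη : η < 1) (hs : 0 < s) :
    deriv (psi η) s + s * deriv (deriv (psi η)) s = deriv (chi η) s := by
  rw [(deriv_psi_eventually hη hs).deriv_eq, (hasDerivAt_psi hη hs).deriv]
  have h1 : HasDerivAt (fun x => chi η x / x) ((deriv (chi η) s * s - chi η s * 1) / s ^ 2) s :=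
    (hasDerivAt_chi η s).differentiableAt.hasDerivAt.div (hasDerivAt_id s) hs.ne'
  rw [h1.deriv]
  field_simp
  ring

lemma psi_eq_self {η s : ℝ} (hη : 0 < η) (hη1 : η < 1) (h : 1 - η ≤ s) : psi η s = s := by
  unfold psi
  have : ∫ τ in (1 - η)..s, chi η τ / τ = ∫ τ in (1 - η)..s, (1 : ℝ) := by
    apply intervalIntegral.integral_congr
    intro x hx
    rw [Set.uIcc_of_le h] at hx
    simp only
    rw [chi_eq_self hη hx.1, div_self]
    have := hx.1
    linarith
  rw [this]
  simp

lemma psi_le_self {η s : ℝ} (hη : 0 < η) (hη1 : η < 1) (hs : 0 < s) : psi η s ≤ s := by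
  by_cases h : 1 - η ≤ s
  · exact (psi_eq_self hη hη1 h).le
  · push Not at h
    unfold psi
    rw [intervalIntegral.integral_symm]
    have h1 : ∫ τ in s..(1 - η), (1 : ℝ) ≤ ∫ τ in s..(1 - η), chi η τ / τ := by
      apply intervalIntegral.integral_mono_on h.le (by simp)
        (intervalIntegrable_chi hs (by linarith))
      intro x hx
      have hx0 : 0 < x := lt_of_lt_of_le hs hx.1
      rw [one_le_div hx0]
      exact chi_ge_self hη
    simp at h1
    linarith

lemma psi_le_log {η s : ℝ} (hη : 0 < η) (hη1 : η < 1 / 4) (hs : 0 < s) (h : s ≤ 1 - η) :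
    psi η s ≤ 2 + (1 - 2 * η) * Real.log s := by
  unfold psi
  rw [intervalIntegral.integral_symm]
  have h1 : ∫ τ in s..(1 - η), (1 - 2 * η) * (1 / τ) ≤ ∫ τ in s..(1 - η), chi η τ / τ := by
    apply intervalIntegral.integral_mono_on h
    · apply ContinuousOn.intervalIntegrable
      intro x hx
      rw [Set.uIcc_of_le h] at hx
      have hx0 : x ≠ 0 := (lt_of_lt_of_le hs hx.1).ne'
      exact (continuousAt_const.mul (continuousAt_const.div continuousAt_id hx0)).continuousWithinAt
    · exact (intervalIntegrable_chi hs (by linarith))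
    · intro x hx
      have hx0 : 0 < x := lt_of_lt_of_le hs hx.1
      rw [mul_one_div]
      gcongr
      exact chi_ge_q hη
  rw [intervalIntegral.integral_const_mul, integral_one_div_of_pos hs (by linarith),
    Real.log_div (by linarith) hs.ne'] at h1
  have h2 : -(1 - 2 * η) * Real.log (1 - η) ≤ 1 := by
    have h3 : Real.log (1 - η) ≥ 1 - (1 - η)⁻¹ := Real.one_sub_inv_le_log_of_pos (by linarith)
    have h4 : (1 - η)⁻¹ ≤ 2 := by
      rw [inv_le_comm₀ (by linarith) (by norm_num)]
      linarith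
    nlinarith
  linarith

end Pool.Agent.Work.MP_06ac62_an
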