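import Pool.Agent.Work.MP_06ac62_an.G1

open MeasureTheory Complex ComplexConjugate Metric Filter Topology

namespace Pool.Agent.Work.MP_06ac62_an

/-- localisation of the `ζ`-disc in the `w`-plane -/
lemma core_box {η : ℝ} (hη : 0 < η) (hη1 : η < 1 / 4) {w : ℂ} (him : |w.im| < Real.pi)
    (h : normSq (exp (w / 2) - 1) < 1 - η) :
    |w.re| ≤ 2 * Real.log (2 / η) ∧ |w.im| ≤ Real.pi - η / 2 := by
  set ζ : ℂ := exp (w / 2) with hζ
  have hn : ‖ζ - 1‖ < 1 - η / 2 := by
    rw [normSq_eq_norm_sq] at h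
    nlinarith [norm_nonneg (ζ - 1), sq_nonneg (η / 2)]
  have hn0 := norm_nonneg (ζ - 1)
  have hre : η / 2 ≤ ζ.re := by
    have h1 : |(ζ - 1).re| ≤ ‖ζ - 1‖ := abs_re_le_norm _
    have h2 := neg_abs_le (ζ - 1).re
    simp only [sub_re, one_re] at h1 h2
    linarith
  have hup : ‖ζ‖ ≤ 2 := by
    calc ‖ζ‖ = ‖(ζ - 1) + 1‖ := by ring_nf
      _ ≤ ‖ζ - 1‖ + ‖(1:ℂ)‖ := norm_add_le _ _
      _ ≤ 2 := by rw [norm_one]; linarith
  have hlo : η / 2 ≤ ‖ζ‖ := hre.trans ((le_abs_self _).trans (abs_re_le_norm ζ))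
  have hnorm : ‖ζ‖ = Real.exp (w.re / 2) := by
    rw [hζ, norm_exp]
    simp
  have hlog : w.re = 2 * Real.log ‖ζ‖ := by
    rw [hnorm, Real.log_exp]
    ring
  have hζpos : 0 < ‖ζ‖ := by linarith
  constructor
  · rw [abs_le]
    constructor
    · rw [hlog]
      have h1 : Real.log (η / 2) ≤ Real.log ‖ζ‖ := Real.log_le_log (by positivity) hlo
      have h2 : Real.log (2 / η) = - Real.log (η / 2) := by
        rw [← Real.log_inv]
        congr 1
        field_simp
      rw [h2]
      linarith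
    · rw [hlog]
      have h1 : Real.log ‖ζ‖ ≤ Real.log (2 / η) := by
        apply Real.log_le_log hζpos
        rw [le_div_iff₀ hη]
        nlinarith
      linarith
  · have hcos : Real.cos (w.im / 2) * ‖ζ‖ = ζ.re := by
      rw [hnorm, hζ, exp_re]
      simp
      ring
    have h1 : η / 4 ≤ Real.cos (w.im / 2) := by
      by_contra hlt
      push Not at hlt
      by_cases hc : 0 ≤ Real.cos (w.im / 2)
      · nlinarith
      · push Not at hc
        nlinarith
    have h2 : Real.cos (w.im / 2) = Real.sin (Real.pi / 2 - |w.im| / 2) := by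
      rw [Real.sin_pi_div_two_sub]
      have : |w.im| / 2 = |w.im / 2| := by rw [abs_div, abs_two]
      rw [this, Real.cos_abs]
    have h3 : Real.sin (Real.pi / 2 - |w.im| / 2) ≤ Real.pi / 2 - |w.im| / 2 := by
      apply Real.sin_le
      linarith
    linarith

/-- smallness of `exp (w/2) - 1` -/
lemma norm_exp_half_sub_one {w : ℂ} (h : ‖w‖ ≤ 1) : ‖exp (w / 2) - 1‖ ≤ ‖w‖ := by
  have h1 : ‖w / 2‖ ≤ 1 := by
    rw [norm_div]
    simp
    linarith
  have := norm_exp_sub_one_le h1
  rw [norm_div] at this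
  simp at this
  linarith

section glue

variable {ι : Type*} (D : ι → Set ℂ) (w : ι → ℂ → ℂ) (L : ℝ)

/-- the boxes -/
def BB (k : ι) : Set ℂ := {z | z ∈ D k ∧ |(w k z).re| < L ∧ |(w k z).im| < Real.pi}

/-- the functions `ζ_k - 1` -/
noncomputable def FF (k : ι) (z : ℂ) : ℂ := exp (w k z / 2) - 1

open Classical in
/-- the glued weight -/
noncomputable def uu (η : ℝ) (U : ℂ → ℝ) (A : ι → ℝ) (z : ℂ) : ℝ :=
  if h : ∃ k, z ∈ BB D w L k then
    U z - A h.choose * (normSq (FF w h.choose z) - psi η (normSq (FF w h.choose z)))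
  else U z

variable {D w L}

lemma uu_eq {η : ℝ} {U : ℂ → ℝ} {A : ι → ℝ}
    (hdisj : ∀ j k z, z ∈ BB D w L j → z ∈ BB D w L k → j = k) {k : ι} {z : ℂ}
    (hz : z ∈ BB D w L k) :
    uu D w L η U A z = U z - A k * (normSq (FF w k z) - psi η (normSq (FF w k z))) := by
  have h : ∃ k, z ∈ BB D w L k := ⟨k, hz⟩
  unfold uu
  rw [dif_pos h]
  rw [hdisj _ _ z h.choose_spec hz]

lemma isOpen_BB (hD : ∀ k, IsOpen (D k)) (hw : ∀ k, DifferentiableOn ℂ (w k) (D k)) (k : ι) :
    IsOpen (BB D w L k) := by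
  have h1 := (hw k).continuousOn.isOpen_inter_preimage (hD k)
    (t := {x : ℂ | |x.re| < L ∧ |x.im| < Real.pi}) (by
      apply IsOpen.inter
      · exact isOpen_lt (continuous_re.abs) continuous_const
      · exact isOpen_lt (continuous_im.abs) continuous_const)
  exact h1

lemma FF_diff (hD : ∀ k, IsOpen (D k)) (hw : ∀ k, DifferentiableOn ℂ (w k) (D k)) {k : ι} {z : ℂ}
    (hz : z ∈ D k) : HasDerivAt (FF w k) (exp (w k z / 2) * (deriv (w k) z / 2)) z := by
  have h1 : HasDerivAt (w k) (deriv (w k) z) z :=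
    ((hw k).differentiableAt ((hD k).mem_nhds hz)).hasDerivAt
  exact ((h1.div_const 2).cexp).sub_const 1

lemma FF_zero {k : ι} {z : ℂ} (hz : z ∈ BB D w L k) (h : FF w k z = 0) : w k z = 0 := by
  unfold FF at h
  rw [sub_eq_zero, exp_eq_one_iff] at h
  obtain ⟨n, hn⟩ := h
  have h1 : w k z = n * (4 * Real.pi * I) := by
    have := congrArg (fun x => 2 * x) hn
    beta_reduce at this
    rw [show 2 * (w k z / 2) = w k z by ring] at this
    rw [this]
    ring
  have h2 := hz.2.2
  rw [h1] at h2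
  have h3 : ((n : ℂ) * (4 * Real.pi * I)).im = n * (4 * Real.pi) := by
    simp
  rw [h3, abs_mul, abs_of_pos (by positivity : 0 < 4 * Real.pi)] at h2
  have h4 : |(n : ℝ)| < 1 := by
    by_contra hc
    push Not at hc
    nlinarith [Real.pi_pos]
  have h5 : n = 0 := by
    have : |n| < 1 := by exact_mod_cast h4
    exact Int.abs_lt_one_iff.mp this
  rw [h1, h5]
  simp

theorem glue_entire [Countable ι] {η : ℝ} (hη : 0 < η) (hη1 : η < 1 / 4)
    (hL : 2 * Real.log (2 / η) + 1 ≤ L)
    {U : ℂ → ℝ} (hU : ContDiff ℝ 2 U) (hU0 : ∀ z, 0 ≤ lap U z)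
    (hD : ∀ k, IsOpen (D k)) (hw : ∀ k, DifferentiableOn ℂ (w k) (D k))
    {zk : ι → ℂ} {A : ι → ℝ}
    (h1 : ∀ k, zk k ∈ D k) (h1' : ∀ k, w k (zk k) = 0)
    (h1'' : ∀ k, ∀ z ∈ BB D w L k, w k z = 0 → z = zk k)
    (hdisj : ∀ j k z, z ∈ BB D w L j → z ∈ BB D w L k → j = k)
    (hmargin : ∀ z, ∀ δ > 0, ∀ᶠ x in 𝓝 z, ∀ k, x ∈ BB D w L k → z ∈ D k ∧ ‖w k z - w k x‖ < δ)
    (h4 : ∀ k, ∀ z ∈ BB D w L k,
      A k * Real.exp ((w k z).re) * normSq (deriv (w k) z) ≤ lap U z)
    (h5 : ∀ k, 2 ≤ A k) (h6 : ∀ k, zk k ≠ 0) :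
    ∃ g : ℂ → ℂ, Differentiable ℂ g ∧ (∃ z, g z ≠ 0) ∧ ∃ K M : ℝ, 0 < K ∧ 0 ≤ M ∧
      (∀ (z : ℂ) (ε B : ℝ), 0 < ε → (∀ ζ ∈ closedBall z ε, U ζ ≤ B) →
        ‖g z‖ ≤ K / ε * Real.exp (B + M * (‖z‖ + ε) ^ 2)) ∧
      (∀ (k : ι) (z : ℂ) (ε B τ : ℝ), 0 < ε → 0 < τ → τ ≤ 1 / 2 →
        (∀ ζ ∈ closedBall z ε, ζ ∈ BB D w L k ∧ ‖w k ζ‖ ≤ τ ∧ U ζ ≤ B) →
        ‖g z‖ ≤ K / ε * Real.exp (B + A k * (2 + 2 * (1 - 2 * η) * Real.log τ) +
          M * (‖z‖ + ε) ^ 2)) := by
  have hη' : η < 1 := by linarith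
  have hLpos : 0 < L := by
    have : 0 < Real.log (2 / η) := Real.log_pos (by rw [lt_div_iff₀ hη]; linarith)
    linarith
  have hB := isOpen_BB (L := L) hD hw
  have hzB : ∀ k, zk k ∈ BB D w L k := by
    intro k
    refine ⟨h1 k, ?_, ?_⟩
    · rw [h1' k]
      simpa using hLpos
    · rw [h1' k]
      simpa using Real.pi_pos
  have hApos : ∀ k, 0 < A k := fun k => by linarith [h5 k]
  have hFzk : ∀ k, FF w k (zk k) = 0 := by
    intro k
    unfold FF
    rw [h1' k]
    simp
  have hFpos : ∀ k, ∀ z ∈ BB D w L k, z ≠ zk k → 0 < normSq (FF w k z) := by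
    intro k z hz hne
    rw [normSq_pos]
    intro h
    exact hne (h1'' k z hz (FF_zero hz h))
  -- off the boxes
  have hoff : ∀ z, (∀ k, z ∉ BB D w L k) → ∀ᶠ x in 𝓝 z, ∀ k, x ∈ BB D w L k →
      1 - η ≤ normSq (FF w k x) := by
    intro z hz
    filter_upwards [hmargin z (η / 4) (by positivity)] with x hx k hxk
    by_contra hlt
    push Not at hlt
    obtain ⟨a1, a2⟩ := core_box hη hη1 hxk.2.2 hlt
    obtain ⟨b1, b2⟩ := hx k hxk
    apply hz k
    have c1 : |(w k z - w k x).re| < η / 4 := lt_of_le_of_lt (abs_re_le_norm _) b2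
    have c2 : |(w k z - w k x).im| < η / 4 := lt_of_le_of_lt (abs_im_le_norm _) b2
    rw [sub_re] at c1
    rw [sub_im] at c2
    refine ⟨b1, ?_, ?_⟩
    · calc |(w k z).re| = |((w k z).re - (w k x).re) + (w k x).re| := by ring_nf
        _ ≤ |(w k z).re - (w k x).re| + |(w k x).re| := abs_add_le _ _
        _ < L := by linarith
    · calc |(w k z).im| = |((w k z).im - (w k x).im) + (w k x).im| := by ring_nf
        _ ≤ |(w k z).im - (w k x).im| + |(w k x).im| := abs_add_le _ _
        _ < Real.pi := by linarith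
  set Z : Set ℂ := Set.range zk with hZ
  have hZc : IsClosed Z := by
    rw [← isOpen_compl_iff, isOpen_iff_mem_nhds]
    intro z hz
    by_cases h : ∃ k, z ∈ BB D w L k
    · obtain ⟨k, hk⟩ := h
      have hne : z ≠ zk k := fun h => hz ⟨k, h.symm⟩
      filter_upwards [(hB k).mem_nhds hk, isOpen_ne.mem_nhds hne] with x hx1 hx2
      rintro ⟨j, rfl⟩
      have : j = k := hdisj j k _ (hzB j) hx1
      subst this
      exact hx2 rfl
    · push Not at h
      filter_upwards [hoff z h] with x hx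
      rintro ⟨j, rfl⟩
      have := hx j (hzB j)
      rw [hFzk j, map_zero] at this
      linarith
  have hZn : volume Z = 0 := (Set.countable_range zk).measure_zero _
  have h0 : (0:ℂ) ∉ Z := by
    rintro ⟨j, hj⟩
    exact h6 j hj
  set u : ℂ → ℝ := uu D w L η U A with hu
  have hueq : ∀ k, ∀ z ∈ BB D w L k,
      u z = U z - A k * (normSq (FF w k z) - psi η (normSq (FF w k z))) := fun k z hz =>
    uu_eq hdisj hz
  have hueqn : ∀ k, ∀ z ∈ BB D w L k, u =ᶠ[𝓝 z] fun z =>
      U z + (-(A k)) * (normSq (FF w k z)) + A k * psi η (normSq (FF w k z)) := by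
    intro k z hz
    filter_upwards [(hB k).mem_nhds hz] with x hx
    rw [hueq k x hx]
    ring
  have hueqo : ∀ z, (∀ k, z ∉ BB D w L k) → u =ᶠ[𝓝 z] U := by
    intro z hz
    filter_upwards [hoff z hz] with x hx
    by_cases h : ∃ k, x ∈ BB D w L k
    · obtain ⟨k, hk⟩ := h
      rw [hueq k x hk, psi_eq_self hη hη' (hx k hk)]
      ring
    · rw [hu]
      unfold uu
      rw [dif_neg h]
  have huU : ∀ z ∉ Z, u z ≤ U z := by
    intro z hz
    by_cases h : ∃ k, z ∈ BB D w L k
    · obtain ⟨k, hk⟩ := h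
      rw [hueq k z hk]
      have hne : z ≠ zk k := fun h => hz ⟨k, h.symm⟩
      have := psi_le_self hη hη' (hFpos k z hk hne)
      have := hApos k
      nlinarith
    · push Not at h
      exact (hueqo z h).eq_of_nhds.le
  have hFan : ∀ k, ∀ z ∈ BB D w L k, ContDiffAt ℝ 2 (FF w k) z := by
    intro k z hz
    have : AnalyticAt ℂ (FF w k) z := by
      rw [analyticAt_iff_eventually_differentiableAt]
      filter_upwards [(hD k).mem_nhds hz.1] with x hx
      exact (FF_diff hD hw hx).differentiableAt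
    exact (this.contDiffAt (n := 2)).restrict_scalars ℝ
  have hcd1 : ∀ k, ∀ z ∈ BB D w L k, ContDiffAt ℝ 2 (fun z => normSq (FF w k z)) z := by
    intro k z hz
    exact contDiff_normSq'.contDiffAt.comp z (hFan k z hz)
  have hcd2 : ∀ k, ∀ z ∈ BB D w L k, z ≠ zk k →
      ContDiffAt ℝ 2 (fun z => psi η (normSq (FF w k z))) z := by
    intro k z hz hne
    exact ContDiffAt.comp (g := psi η) (f := fun z => normSq (FF w k z)) z
      (contDiffAt_psi hη' (hFpos k z hz hne)) (hcd1 k z hz)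
  have hucd : ∀ z ∉ Z, ContDiffAt ℝ 2 u z := by
    intro z hz
    by_cases h : ∃ k, z ∈ BB D w L k
    · obtain ⟨k, hk⟩ := h
      have hne : z ≠ zk k := fun h => hz ⟨k, h.symm⟩
      apply ContDiffAt.congr_of_eventuallyEq _ (hueqn k z hk)
      exact (hU.contDiffAt.add (contDiffAt_const.mul (hcd1 k z hk))).add
        (contDiffAt_const.mul (hcd2 k z hk hne))
    · push Not at h
      exact hU.contDiffAt.congr_of_eventuallyEq (hueqo z h)
  have hulap : ∀ z ∉ Z, 0 ≤ lap u z := by
    intro z hz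
    by_cases h : ∃ k, z ∈ BB D w L k
    · obtain ⟨k, hk⟩ := h
      have hne : z ≠ zk k := fun h => hz ⟨k, h.symm⟩
      have hs := hFpos k z hk hne
      rw [lap_congr (hueqn k z hk)]
      have d1 : ContDiffAt ℝ 2 (fun z => (-(A k)) * (normSq (FF w k z))) z :=
        contDiffAt_const.mul (hcd1 k z hk)
      have d2 : ContDiffAt ℝ 2 (fun z => A k * psi η (normSq (FF w k z))) z :=
        contDiffAt_const.mul (hcd2 k z hk hne)
      have e1 : lap (fun z => U z + (-(A k)) * (normSq (FF w k z)) +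
          A k * psi η (normSq (FF w k z))) z = lap U z + (-(A k)) * lap (fun z => normSq (FF w k z)) z
            + A k * lap (fun z => psi η (normSq (FF w k z))) z := by
        have f1 := lap_add (u := fun z => U z + (-(A k)) * (normSq (FF w k z)))
          (v := fun z => A k * psi η (normSq (FF w k z))) (z := z) (hU.contDiffAt.add d1) d2
        have f2 := lap_add (u := U) (v := fun z => (-(A k)) * (normSq (FF w k z))) (z := z)
          hU.contDiffAt d1
        rw [f1, f2, lap_const_mul (hcd1 k z hk), lap_const_mul (hcd2 k z hk hne)]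
      rw [e1]
      have hFev : ∀ᶠ x in 𝓝 z, DifferentiableAt ℂ (FF w k) x := by
        filter_upwards [(hD k).mem_nhds hk.1] with x hx
        exact (FF_diff hD hw hx).differentiableAt
      have e2 : lap (fun z => normSq (FF w k z)) z = 4 * normSq (deriv (FF w k) z) := by
        have := lap_comp_normSq (h := fun s => s) hFev contDiffAt_id
        rw [this]
        simp
      have e3 : lap (fun z => psi η (normSq (FF w k z))) z =
          4 * deriv (chi η) (normSq (FF w k z)) * normSq (deriv (FF w k) z) := by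
        have := lap_comp_normSq (h := psi η) hFev (contDiffAt_psi hη' hs)
        rw [this, psi_combo hη' hs]
      have e4 : normSq (deriv (FF w k) z) =
          Real.exp ((w k z).re) * normSq (deriv (w k) z) / 4 := by
        rw [(FF_diff hD hw hk.1).deriv, map_mul, normSq_div]
        have : normSq (exp (w k z / 2)) = Real.exp ((w k z).re) := by
          rw [normSq_eq_norm_sq, norm_exp, ← Real.exp_nat_mul]
          congr 1
          simp
          ring
        rw [this]
        have : normSq (2:ℂ) = 4 := by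
          rw [normSq_apply]
          norm_num
        rw [this]
        ring
      have e5 := h4 k z hk
      have e6 := deriv_chi_nonneg hη (normSq (FF w k z))
      have e7 : 0 ≤ normSq (deriv (FF w k) z) := normSq_nonneg _
      have e8 := hApos k
      rw [e2, e3]
      have e9 : 0 ≤ A k * (4 * deriv (chi η) (normSq (FF w k z)) * normSq (deriv (FF w k) z)) := by
        positivity
      have e10 : A k * (4 * normSq (deriv (FF w k) z)) ≤ lap U z := by
        rw [e4]
        linarith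
      linarith
    · push Not at h
      rw [lap_congr (hueqo z h)]
      exact hU0 z
  have husing : ∀ p ∈ Z, ∃ C : ℝ, ∀ᶠ z in 𝓝[≠] p, z ∉ Z ∧ u z ≤ 2 * Real.log ‖z - p‖ + C := by
    rintro p ⟨k, rfl⟩
    have hd := FF_diff hD hw (h1 k)
    obtain ⟨C, hC0, hC⟩ := (hd.differentiableAt.isBigO_sub).exists_pos
    rw [Asymptotics.isBigOWith_iff] at hC
    refine ⟨U (zk k) + 1 + A k * (2 + (1 - 2 * η) * (2 * Real.log C)), ?_⟩
    have ev1 : ∀ᶠ z in 𝓝 (zk k), z ∈ BB D w L k := (hB k).mem_nhds (hzB k)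
    have ev2 : ∀ᶠ z in 𝓝 (zk k), U z < U (zk k) + 1 :=
      hU.continuous.continuousAt.eventually_lt continuousAt_const (by linarith)
    have ev3 : ∀ᶠ z in 𝓝 (zk k), ‖z - zk k‖ < 1 := by
      have := Metric.ball_mem_nhds (zk k) one_pos
      filter_upwards [this] with z hz
      rwa [mem_ball, dist_eq_norm] at hz
    have ev4 : ∀ᶠ z in 𝓝 (zk k), normSq (FF w k z) < 1 - η := by
      have : ContinuousAt (fun z => normSq (FF w k z)) (zk k) :=
        continuous_normSq.continuousAt.comp hd.continuousAt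
      apply this.eventually_lt continuousAt_const
      rw [hFzk k, map_zero]
      linarith
    rw [eventually_nhdsWithin_iff]
    filter_upwards [ev1, ev2, ev3, ev4, hC] with z a1 a2 a3 a4 a5 hne
    have hne' : z ≠ zk k := hne
    have hz0 : 0 < ‖z - zk k‖ := norm_pos_iff.mpr (sub_ne_zero.mpr hne')
    constructor
    · rintro ⟨j, rfl⟩
      have : j = k := hdisj j k _ (hzB j) a1
      subst this
      exact hne' rfl
    · have hs := hFpos k z a1 hne'
      rw [hueq k z a1]
      have b1 := psi_le_log hη hη1 hs a4.le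
      have b2 : Real.log (normSq (FF w k z)) ≤ 2 * Real.log C + 2 * Real.log ‖z - zk k‖ := by
        rw [hFzk k, sub_zero] at a5
        have c1 : normSq (FF w k z) ≤ (C * ‖z - zk k‖) ^ 2 := by
          rw [normSq_eq_norm_sq]
          gcongr
        have c2 := Real.log_le_log hs c1
        rw [Real.log_pow, Real.log_mul hC0.ne' hz0.ne'] at c2
        push_cast at c2
        linarith
      have b3 : Real.log ‖z - zk k‖ ≤ 0 := Real.log_nonpos hz0.le a3.le
      have b4 := h5 k
      have b5 : (1 - 2 * η) * Real.log (normSq (FF w k z)) ≤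
          (1 - 2 * η) * (2 * Real.log C + 2 * Real.log ‖z - zk k‖) :=
        mul_le_mul_of_nonneg_left b2 (by linarith)
      have b6 : psi η (normSq (FF w k z)) ≤
          2 + (1 - 2 * η) * (2 * Real.log C + 2 * Real.log ‖z - zk k‖) := by linarith
      have b7 : A k * psi η (normSq (FF w k z)) ≤
          A k * (2 + (1 - 2 * η) * (2 * Real.log C + 2 * Real.log ‖z - zk k‖)) :=
        mul_le_mul_of_nonneg_left b6 (hApos k).le
      have b8 : A k * (1 - 2 * η) * (2 * Real.log ‖z - zk k‖) ≤ 1 * (2 * Real.log ‖z - zk k‖) := by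
        apply mul_le_mul_of_nonpos_right _ (by linarith)
        nlinarith
      have b9 : 0 ≤ A k * normSq (FF w k z) := mul_nonneg (hApos k).le hs.le
      nlinarith
  obtain ⟨g, hg1, hg2, K, M, hK, hM, hgb⟩ :=
    exists_entire hZc hZn h0 hU.continuous huU hucd hulap husing
  refine ⟨g, hg1, hg2, K, M, hK, hM, ?_, ?_⟩
  · intro z ε B hε hB'
    exact hgb z ε B hε (fun ζ hζ hζZ => (huU ζ hζZ).trans (hB' ζ hζ))
  · intro k z ε B τ hε hτ hτ1 hall
    apply hgb z ε _ hε
    intro ζ hζ hζZ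
    obtain ⟨a1, a2, a3⟩ := hall ζ hζ
    have hne : ζ ≠ zk k := fun h => hζZ ⟨k, h.symm⟩
    have hs := hFpos k ζ a1 hne
    have b0 : ‖FF w k ζ‖ ≤ τ := (norm_exp_half_sub_one (by linarith)).trans a2
    have b1 : normSq (FF w k ζ) ≤ τ ^ 2 := by
      rw [normSq_eq_norm_sq]
      gcongr
    have b2 : normSq (FF w k ζ) ≤ 1 - η := by nlinarith
    have b3 := psi_le_log hη hη1 hs b2
    have b4 : Real.log (normSq (FF w k ζ)) ≤ 2 * Real.log τ := by
      have := Real.log_le_log hs b1
      rw [Real.log_pow] at this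
      exact_mod_cast this
    rw [hueq k ζ a1]
    have b5 : (1 - 2 * η) * Real.log (normSq (FF w k ζ)) ≤ (1 - 2 * η) * (2 * Real.log τ) :=
      mul_le_mul_of_nonneg_left b4 (by linarith)
    have b6 : A k * psi η (normSq (FF w k ζ)) ≤ A k * (2 + 2 * (1 - 2 * η) * Real.log τ) := by
      apply mul_le_mul_of_nonneg_left _ (hApos k).le
      linarith
    have b7 : 0 ≤ A k * normSq (FF w k ζ) := mul_nonneg (hApos k).le hs.le
    linarith

end glue

end Pool.Agent.Work.MP_06ac62_an
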