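import Mathlib

open MeasureTheory Complex ComplexConjugate

namespace Pool.Agent.Work.MP_06ac62_an

/-- the operator `∂/∂z̄` -/
noncomputable def dbar (g : ℂ → ℂ) (z : ℂ) : ℂ := (fderiv ℝ g z 1 + I * fderiv ℝ g z I) / 2

/-- the operator `∂/∂z` -/
noncomputable def ddz (g : ℂ → ℂ) (z : ℂ) : ℂ := (fderiv ℝ g z 1 - I * fderiv ℝ g z I) / 2

/-- the Laplacian of a real function on the plane -/
noncomputable def lap (u : ℂ → ℝ) (z : ℂ) : ℝ :=
  fderiv ℝ (fun x => fderiv ℝ u x 1) z 1 + fderiv ℝ (fun x => fderiv ℝ u x I) z I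

lemma integral_fderiv_zero {P : ℂ → ℂ} (hP : ContDiff ℝ 1 P) (hc : HasCompactSupport P) (v : ℂ) :
    ∫ z, fderiv ℝ P z v = 0 := by
  have h1 : Continuous (fun z => fderiv ℝ P z v) :=
    (hP.continuous_fderiv (by norm_num)).clm_apply continuous_const
  have h2 : HasCompactSupport (fun z => fderiv ℝ P z v) := by
    exact (hc.fderiv_apply (𝕜 := ℝ) v)
  have := integral_mul_fderiv_eq_neg_fderiv_mul_of_integrable (μ := (volume : Measure ℂ))
    (f := fun _ : ℂ => (1 : ℂ)) (g := P) (v := v) (by simp)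
    (by simpa using h1.integrable_of_hasCompactSupport h2)
    (by simpa using hP.continuous.integrable_of_hasCompactSupport hc)
    (fun x _ => differentiableAt_const _) (fun x _ => hP.differentiable (by norm_num) x)
  simpa using this

lemma integrable_fderiv {P : ℂ → ℂ} (hP : ContDiff ℝ 1 P) (hc : HasCompactSupport P) (v : ℂ) :
    Integrable (fun z => fderiv ℝ P z v) :=
  ((hP.continuous_fderiv (by norm_num)).clm_apply continuous_const).integrable_of_hasCompactSupport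
    (hc.fderiv_apply (𝕜 := ℝ) v)

lemma integral_dbar_zero {P : ℂ → ℂ} (hP : ContDiff ℝ 1 P) (hc : HasCompactSupport P) :
    ∫ z, dbar P z = 0 := by
  unfold dbar
  rw [integral_div, integral_add (integrable_fderiv hP hc 1)
    ((integrable_fderiv hP hc I).const_mul I), integral_const_mul,
    integral_fderiv_zero hP hc, integral_fderiv_zero hP hc]
  simp

lemma integral_ddz_zero {P : ℂ → ℂ} (hP : ContDiff ℝ 1 P) (hc : HasCompactSupport P) :
    ∫ z, ddz P z = 0 := by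
  unfold ddz
  rw [integral_div, integral_sub (integrable_fderiv hP hc 1)
    ((integrable_fderiv hP hc I).const_mul I), integral_const_mul,
    integral_fderiv_zero hP hc, integral_fderiv_zero hP hc]
  simp

lemma contDiff_of_tsupport {n : WithTop ℕ∞} {Ω : Set ℂ} {P : ℂ → ℂ}
    (hP : ∀ z ∈ Ω, ContDiffAt ℝ n P z) (hs : tsupport P ⊆ Ω) : ContDiff ℝ n P := by
  rw [contDiff_iff_contDiffAt]
  intro z
  by_cases hz : z ∈ tsupport P
  · exact hP z (hs hz)
  · have : P =ᶠ[nhds z] fun _ => 0 := notMem_tsupport_iff_eventuallyEq.mp hz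
    exact contDiffAt_const.congr_of_eventuallyEq this

lemma dbar_mul {f g : ℂ → ℂ} {z : ℂ} (hf : DifferentiableAt ℝ f z) (hg : DifferentiableAt ℝ g z) :
    dbar (fun x => f x * g x) z = dbar f z * g z + f z * dbar g z := by
  unfold dbar
  rw [fderiv_fun_mul hf hg]
  simp
  ring

lemma ddz_mul {f g : ℂ → ℂ} {z : ℂ} (hf : DifferentiableAt ℝ f z) (hg : DifferentiableAt ℝ g z) :
    ddz (fun x => f x * g x) z = ddz f z * g z + f z * ddz g z := by
  unfold ddz
  rw [fderiv_fun_mul hf hg]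
  simp
  ring

lemma dbar_add {f g : ℂ → ℂ} {z : ℂ} (hf : DifferentiableAt ℝ f z) (hg : DifferentiableAt ℝ g z) :
    dbar (fun x => f x + g x) z = dbar f z + dbar g z := by
  unfold dbar
  rw [fderiv_fun_add hf hg]
  simp
  ring

lemma ddz_add {f g : ℂ → ℂ} {z : ℂ} (hf : DifferentiableAt ℝ f z) (hg : DifferentiableAt ℝ g z) :
    ddz (fun x => f x + g x) z = ddz f z + ddz g z := by
  unfold ddz
  rw [fderiv_fun_add hf hg]
  simp
  ring

lemma fderiv_conj_comp {f : ℂ → ℂ} {z : ℂ} (hf : DifferentiableAt ℝ f z) (v : ℂ) :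
    fderiv ℝ (fun x => conj (f x)) z v = conj (fderiv ℝ f z v) := by
  have h : HasFDerivAt (fun x => conj (f x))
      ((conjCLE : ℂ →L[ℝ] ℂ).comp (fderiv ℝ f z)) z :=
    (conjCLE : ℂ →L[ℝ] ℂ).hasFDerivAt.comp z hf.hasFDerivAt
  rw [h.fderiv]
  simp

lemma dbar_conj {f : ℂ → ℂ} {z : ℂ} (hf : DifferentiableAt ℝ f z) :
    dbar (fun x => conj (f x)) z = conj (ddz f z) := by
  unfold dbar ddz
  rw [fderiv_conj_comp hf, fderiv_conj_comp hf]
  simp [map_ofNat]

lemma ddz_conj {f : ℂ → ℂ} {z : ℂ} (hf : DifferentiableAt ℝ f z) :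
    ddz (fun x => conj (f x)) z = conj (dbar f z) := by
  unfold dbar ddz
  rw [fderiv_conj_comp hf, fderiv_conj_comp hf]
  simp [map_ofNat]
  ring

lemma diffAt_fderiv_apply {g : ℂ → ℂ} {z : ℂ} (hg : ContDiffAt ℝ 2 g z) (v : ℂ) :
    DifferentiableAt ℝ (fun x => fderiv ℝ g x v) z := by
  have h1 : ContDiffAt ℝ 1 (fderiv ℝ g) z := hg.fderiv_right (by norm_num)
  exact (h1.differentiableAt (by norm_num)).clm_apply (differentiableAt_const v)

lemma contDiffAt_fderiv_apply {g : ℂ → ℂ} {z : ℂ} (hg : ContDiffAt ℝ 2 g z) (v : ℂ) :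
    ContDiffAt ℝ 1 (fun x => fderiv ℝ g x v) z :=
  (hg.fderiv_right (m := 1) (by norm_num)).clm_apply contDiffAt_const

lemma contDiffAt_dbar {g : ℂ → ℂ} {z : ℂ} (hg : ContDiffAt ℝ 2 g z) :
    ContDiffAt ℝ 1 (dbar g) z := by
  unfold dbar
  exact ((contDiffAt_fderiv_apply hg 1).add
    (contDiffAt_const.mul (contDiffAt_fderiv_apply hg I))).div_const 2

lemma contDiffAt_ddz {g : ℂ → ℂ} {z : ℂ} (hg : ContDiffAt ℝ 2 g z) :
    ContDiffAt ℝ 1 (ddz g) z := by
  unfold ddz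
  exact ((contDiffAt_fderiv_apply hg 1).sub
    (contDiffAt_const.mul (contDiffAt_fderiv_apply hg I))).div_const 2

lemma fderiv_fderiv_apply {g : ℂ → ℂ} {z : ℂ} (hg : ContDiffAt ℝ 2 g z) (v w : ℂ) :
    fderiv ℝ (fun x => fderiv ℝ g x v) z w = fderiv ℝ (fderiv ℝ g) z w v := by
  have h1 : DifferentiableAt ℝ (fderiv ℝ g) z :=
    (hg.fderiv_right (m := 1) (by norm_num)).differentiableAt (by norm_num)
  rw [fderiv_clm_apply h1 (differentiableAt_const v)]
  simp

lemma fderiv_swap {g : ℂ → ℂ} {z : ℂ} (hg : ContDiffAt ℝ 2 g z) (v w : ℂ) :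
    fderiv ℝ (fderiv ℝ g) z w v = fderiv ℝ (fderiv ℝ g) z v w := by
  have := hg.isSymmSndFDerivAt (by simp)
  exact this w v

lemma fderiv_combo {g : ℂ → ℂ} {z : ℂ} (hg : ContDiffAt ℝ 2 g z) (c : ℂ) (v : ℂ) :
    fderiv ℝ (fun x => (fderiv ℝ g x 1 + c * fderiv ℝ g x I) / 2) z v =
      (fderiv ℝ (fderiv ℝ g) z v 1 + c * fderiv ℝ (fderiv ℝ g) z v I) / 2 := by
  have h1 := diffAt_fderiv_apply hg 1
  have h2 := diffAt_fderiv_apply hg I
  have e : (fun x => (fderiv ℝ g x 1 + c * fderiv ℝ g x I) / 2)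
      = fun x => (2⁻¹ : ℂ) * (fderiv ℝ g x 1 + c * fderiv ℝ g x I) := by
    funext x; ring
  have h3 : DifferentiableAt ℝ (fun x => fderiv ℝ g x 1 + c * fderiv ℝ g x I) z :=
    h1.add (h2.const_mul c)
  rw [e, fderiv_const_mul h3, fderiv_fun_add h1 (h2.const_mul c), fderiv_const_mul h2]
  simp only [_root_.smul_apply, _root_.add_apply, smul_eq_mul,
    fderiv_fderiv_apply hg]
  ring

lemma dbar_ddz_eq {g : ℂ → ℂ} {z : ℂ} (hg : ContDiffAt ℝ 2 g z) :
    dbar (ddz g) z = (fderiv ℝ (fderiv ℝ g) z 1 1 + fderiv ℝ (fderiv ℝ g) z I I) / 4 := by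
  have e : ddz g = (fun x => (fderiv ℝ g x 1 + (-I) * fderiv ℝ g x I) / 2) := by
    funext x; unfold ddz; ring
  unfold dbar
  rw [e, fderiv_combo hg, fderiv_combo hg, fderiv_swap hg 1 I]
  linear_combination (-1/4 * (fderiv ℝ (fderiv ℝ g) z I) I) * I_mul_I

lemma ddz_dbar_eq {g : ℂ → ℂ} {z : ℂ} (hg : ContDiffAt ℝ 2 g z) :
    ddz (dbar g) z = (fderiv ℝ (fderiv ℝ g) z 1 1 + fderiv ℝ (fderiv ℝ g) z I I) / 4 := by
  have e : dbar g = (fun x => (fderiv ℝ g x 1 + I * fderiv ℝ g x I) / 2) := by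
    funext x; unfold dbar; ring
  unfold ddz
  rw [e, fderiv_combo hg, fderiv_combo hg, fderiv_swap hg 1 I]
  linear_combination (-1/4 * (fderiv ℝ (fderiv ℝ g) z I) I) * I_mul_I

end Pool.Agent.Work.MP_06ac62_an
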