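import Pool.Agent.Work.MP_06ac62_an.H1

open MeasureTheory Complex ComplexConjugate

namespace Pool.Agent.Work.MP_06ac62_an

lemma fderiv_ofReal_comp {φ : ℂ → ℝ} {z : ℂ} (h : DifferentiableAt ℝ φ z) (v : ℂ) :
    fderiv ℝ (fun x => (φ x : ℂ)) z v = ((fderiv ℝ φ z v : ℝ) : ℂ) := by
  have h1 : HasFDerivAt (fun x => (φ x : ℂ)) ((ofRealCLM : ℝ →L[ℝ] ℂ).comp (fderiv ℝ φ z)) z :=
    (ofRealCLM : ℝ →L[ℝ] ℂ).hasFDerivAt.comp z h.hasFDerivAt
  rw [h1.fderiv]
  simp

lemma contDiffAt_ofReal {n : WithTop ℕ∞} {φ : ℂ → ℝ} {z : ℂ} (h : ContDiffAt ℝ n φ z) :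
    ContDiffAt ℝ n (fun x => (φ x : ℂ)) z :=
  (ofRealCLM.contDiff.contDiffAt).comp z h

lemma dbar_ofReal {φ : ℂ → ℝ} {z : ℂ} (h : DifferentiableAt ℝ φ z) :
    dbar (fun x => (φ x : ℂ)) z = conj (ddz (fun x => (φ x : ℂ)) z) := by
  unfold dbar ddz
  rw [fderiv_ofReal_comp h, fderiv_ofReal_comp h]
  simp [map_ofNat]

lemma dbar_ddz_ofReal {φ : ℂ → ℝ} {z : ℂ} (h : ContDiffAt ℝ 2 φ z) :
    dbar (ddz (fun x => (φ x : ℂ))) z = ((lap φ z / 4 : ℝ) : ℂ) := by
  have hc := contDiffAt_ofReal h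
  rw [dbar_ddz_eq hc, ← fderiv_fderiv_apply hc, ← fderiv_fderiv_apply hc]
  have h1 : ∀ᶠ x in nhds z, DifferentiableAt ℝ φ x := by
    filter_upwards [h.eventually (by simp)] with x hx
    exact hx.differentiableAt (by norm_num)
  have h2 : ∀ v, (fun x => fderiv ℝ (fun y => (φ y : ℂ)) x v) =ᶠ[nhds z]
      fun x => ((fderiv ℝ φ x v : ℝ) : ℂ) := by
    intro v
    filter_upwards [h1] with x hx
    exact fderiv_ofReal_comp hx v
  have h3 : ∀ v, DifferentiableAt ℝ (fun x => fderiv ℝ φ x v) z := fun v =>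
    ((h.fderiv_right (m := 1) (by norm_num)).differentiableAt (by norm_num)).clm_apply
      (differentiableAt_const v)
  rw [(h2 1).fderiv_eq, (h2 I).fderiv_eq, fderiv_ofReal_comp (h3 1), fderiv_ofReal_comp (h3 I)]
  unfold lap
  push_cast
  ring

lemma dbar_exp {g : ℂ → ℂ} {z : ℂ} (h : DifferentiableAt ℝ g z) :
    dbar (fun x => exp (g x)) z = exp (g z) * dbar g z := by
  have h1 : HasFDerivAt (fun x => exp (g x)) (exp (g z) • (fderiv ℝ g z)) z :=
    h.hasFDerivAt.cexp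
  unfold dbar
  rw [h1.fderiv]
  simp
  ring

lemma ddz_exp {g : ℂ → ℂ} {z : ℂ} (h : DifferentiableAt ℝ g z) :
    ddz (fun x => exp (g x)) z = exp (g z) * ddz g z := by
  have h1 : HasFDerivAt (fun x => exp (g x)) (exp (g z) • (fderiv ℝ g z)) z :=
    h.hasFDerivAt.cexp
  unfold ddz
  rw [h1.fderiv]
  simp
  ring

/-- first auxiliary function -/
noncomputable def P1 (γ : ℂ → ℂ) (φ : ℂ → ℝ) (z : ℂ) : ℂ :=
  γ z * conj (dbar γ z) * exp (φ z : ℂ)

/-- second auxiliary function -/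
noncomputable def P2 (γ : ℂ → ℂ) (φ : ℂ → ℝ) (z : ℂ) : ℂ :=
  γ z * exp (φ z : ℂ) * conj (ddz γ z + ddz (fun x => (φ x : ℂ)) z * γ z)

lemma contDiffAt_P1 {γ : ℂ → ℂ} {φ : ℂ → ℝ} {z : ℂ} (hγ : ContDiffAt ℝ 2 γ z)
    (hφ : ContDiffAt ℝ 2 φ z) : ContDiffAt ℝ 1 (P1 γ φ) z := by
  unfold P1
  have h1 : ContDiffAt ℝ 1 γ z := hγ.of_le (by norm_num)
  have h2 : ContDiffAt ℝ 1 (fun x => conj (dbar γ x)) z :=
    (conjCLE : ℂ →L[ℝ] ℂ).contDiff.contDiffAt.comp z (contDiffAt_dbar hγ)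
  have h3 : ContDiffAt ℝ 1 (fun x => exp (φ x : ℂ)) z :=
    ((contDiffAt_ofReal hφ).of_le (by norm_num)).cexp
  exact (h1.mul h2).mul h3

lemma contDiffAt_P2 {γ : ℂ → ℂ} {φ : ℂ → ℝ} {z : ℂ} (hγ : ContDiffAt ℝ 2 γ z)
    (hφ : ContDiffAt ℝ 2 φ z) : ContDiffAt ℝ 1 (P2 γ φ) z := by
  unfold P2
  have h1 : ContDiffAt ℝ 1 γ z := hγ.of_le (by norm_num)
  have h4 : ContDiffAt ℝ 1 (fun x => ddz γ x + ddz (fun x => (φ x : ℂ)) x * γ x) z :=
    (contDiffAt_ddz hγ).add ((contDiffAt_ddz (contDiffAt_ofReal hφ)).mul h1)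
  have h2 : ContDiffAt ℝ 1 (fun x => conj (ddz γ x + ddz (fun x => (φ x : ℂ)) x * γ x)) z :=
    (conjCLE : ℂ →L[ℝ] ℂ).contDiff.contDiffAt.comp z h4
  have h3 : ContDiffAt ℝ 1 (fun x => exp (φ x : ℂ)) z :=
    ((contDiffAt_ofReal hφ).of_le (by norm_num)).cexp
  exact (h1.mul h3).mul h2

lemma key_identity {γ : ℂ → ℂ} {φ : ℂ → ℝ} {z : ℂ} (hγ : ContDiffAt ℝ 2 γ z)
    (hφ : ContDiffAt ℝ 2 φ z) :
    dbar (P1 γ φ) z - ddz (P2 γ φ) z =
      ((normSq (dbar γ z) - normSq (ddz γ z + ddz (fun x => (φ x : ℂ)) z * γ z)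
        - lap φ z / 4 * normSq (γ z) : ℝ) : ℂ) * exp (φ z : ℂ) := by
  have hφc := contDiffAt_ofReal hφ
  have dγ : DifferentiableAt ℝ γ z := hγ.differentiableAt (by norm_num)
  have dφ : DifferentiableAt ℝ φ z := hφ.differentiableAt (by norm_num)
  have dφc : DifferentiableAt ℝ (fun x => (φ x : ℂ)) z := hφc.differentiableAt (by norm_num)
  have d1 : DifferentiableAt ℝ (dbar γ) z := (contDiffAt_dbar hγ).differentiableAt (by norm_num)
  have d2 : DifferentiableAt ℝ (ddz γ) z := (contDiffAt_ddz hγ).differentiableAt (by norm_num)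
  have d3 : DifferentiableAt ℝ (ddz (fun x => (φ x : ℂ))) z :=
    (contDiffAt_ddz hφc).differentiableAt (by norm_num)
  have d4 : DifferentiableAt ℝ (fun x => exp (φ x : ℂ)) z := dφc.cexp
  have d5 : DifferentiableAt ℝ (fun x => conj (dbar γ x)) z :=
    (conjCLE : ℂ →L[ℝ] ℂ).differentiableAt.comp z d1
  have d6 : DifferentiableAt ℝ (fun x => ddz γ x + ddz (fun x => (φ x : ℂ)) x * γ x) z :=
    d2.add (d3.mul dγ)
  have d8 : DifferentiableAt ℝ (fun x => ddz (fun x => (φ x : ℂ)) x * γ x) z := d3.mul dγ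
  have d7 : DifferentiableAt ℝ
      (fun x => conj (ddz γ x + ddz (fun x => (φ x : ℂ)) x * γ x)) z :=
    (conjCLE : ℂ →L[ℝ] ℂ).differentiableAt.comp z d6
  have e1 : dbar (P1 γ φ) z = (dbar γ z * conj (dbar γ z) + γ z * conj (ddz (dbar γ) z)) *
      exp (φ z : ℂ) + γ z * conj (dbar γ z) * (exp (φ z : ℂ) *
        conj (ddz (fun x => (φ x : ℂ)) z)) := by
    unfold P1
    rw [dbar_mul (f := fun x => γ x * conj (dbar γ x)) (dγ.mul d5) d4, dbar_mul dγ d5,
      dbar_conj d1, dbar_exp dφc, dbar_ofReal dφ]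
  have e2 : ddz (P2 γ φ) z = (ddz γ z * exp (φ z : ℂ) + γ z * (exp (φ z : ℂ) *
      ddz (fun x => (φ x : ℂ)) z)) * conj (ddz γ z + ddz (fun x => (φ x : ℂ)) z * γ z) +
      γ z * exp (φ z : ℂ) * conj (dbar (ddz γ) z + (((lap φ z / 4 : ℝ) : ℂ) * γ z +
        ddz (fun x => (φ x : ℂ)) z * dbar γ z)) := by
    unfold P2
    rw [ddz_mul (f := fun x => γ x * exp (φ x : ℂ)) (dγ.mul d4) d7, ddz_mul dγ d4,
      ddz_exp dφc, ddz_conj d6, dbar_add d2 d8, dbar_mul d3 dγ, dbar_ddz_ofReal hφ]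
  rw [e1, e2, dbar_ddz_eq hγ, ddz_dbar_eq hγ]
  push_cast
  rw [normSq_eq_conj_mul_self, normSq_eq_conj_mul_self, normSq_eq_conj_mul_self]
  simp only [map_add, map_mul, map_div₀, map_ofNat, conj_ofReal]
  ring

/-- The a priori inequality. -/
theorem apriori {Ω : Set ℂ} {γ : ℂ → ℂ} {φ : ℂ → ℝ} {M : ℝ}
    (hγ : ContDiff ℝ 2 γ) (hc : HasCompactSupport γ) (hs : tsupport γ ⊆ Ω)
    (hφ : ∀ z ∈ Ω, ContDiffAt ℝ 2 φ z) (hM : ∀ z ∈ Ω, 4 * M ≤ lap φ z) :
    M * ∫ z, normSq (γ z) * Real.exp (φ z) ≤ ∫ z, normSq (dbar γ z) * Real.exp (φ z) := by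
  have sP1 : tsupport (P1 γ φ) ⊆ tsupport γ := by
    apply closure_mono
    intro z hz
    simp only [Function.mem_support] at hz ⊢
    intro h
    apply hz
    simp [P1, h]
  have sP2 : tsupport (P2 γ φ) ⊆ tsupport γ := by
    apply closure_mono
    intro z hz
    simp only [Function.mem_support] at hz ⊢
    intro h
    apply hz
    simp [P2, h]
  have cP1 : ContDiff ℝ 1 (P1 γ φ) :=
    contDiff_of_tsupport (Ω := Ω) (fun z hz => contDiffAt_P1 hγ.contDiffAt (hφ z hz))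
      (sP1.trans hs)
  have cP2 : ContDiff ℝ 1 (P2 γ φ) :=
    contDiff_of_tsupport (Ω := Ω) (fun z hz => contDiffAt_P2 hγ.contDiffAt (hφ z hz))
      (sP2.trans hs)
  have kP1 : HasCompactSupport (P1 γ φ) := hc.mono' ((subset_tsupport _).trans sP1)
  have kP2 : HasCompactSupport (P2 γ φ) := hc.mono' ((subset_tsupport _).trans sP2)
  have iP1 : Integrable (dbar (P1 γ φ)) := by
    unfold dbar
    exact ((integrable_fderiv cP1 kP1 1).add ((integrable_fderiv cP1 kP1 I).const_mul I)).div_const 2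
  have iP2 : Integrable (ddz (P2 γ φ)) := by
    unfold ddz
    exact ((integrable_fderiv cP2 kP2 1).sub ((integrable_fderiv cP2 kP2 I).const_mul I)).div_const 2
  have iR : Integrable (fun z => (dbar (P1 γ φ) z - ddz (P2 γ φ) z).re) :=
    (iP1.sub iP2).re
  have hR : ∫ z, (dbar (P1 γ φ) z - ddz (P2 γ φ) z).re = 0 := by
    have := integral_re (iP1.sub iP2)
    simp only [Pi.sub_apply] at this
    rw [integral_sub iP1 iP2, integral_dbar_zero cP1 kP1, integral_ddz_zero cP2 kP2] at this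
    simpa using this
  have contexp : ∀ g : ℂ → ℂ, Continuous g → tsupport g ⊆ tsupport γ →
      Integrable (fun z => normSq (g z) * Real.exp (φ z)) := by
    intro g hg hsg
    have hcs : HasCompactSupport (fun z => normSq (g z) * Real.exp (φ z)) := by
      apply hc.mono'
      intro z hz
      apply hsg
      apply subset_tsupport
      simp only [Function.mem_support] at hz ⊢
      intro h
      apply hz
      simp [h]
    apply Continuous.integrable_of_hasCompactSupport _ hcs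
    rw [continuous_iff_continuousAt]
    intro z
    by_cases hz : z ∈ Ω
    · exact ((continuous_normSq.comp hg).continuousAt).mul
        ((hφ z hz).continuousAt.rexp)
    · have hz' : z ∉ tsupport g := fun h => hz (hs (hsg h))
      have h0 : g =ᶠ[nhds z] fun _ => 0 := notMem_tsupport_iff_eventuallyEq.mp hz'
      have h1 : (fun z => normSq (g z) * Real.exp (φ z)) =ᶠ[nhds z] fun _ => 0 := by
        filter_upwards [h0] with x hx
        simp [hx]
      exact continuousAt_const.congr h1.symm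
  have i1 : Integrable (fun z => normSq (γ z) * Real.exp (φ z)) :=
    contexp γ hγ.continuous le_rfl
  have cd : Continuous (dbar γ) := by
    have : ContDiff ℝ 1 (dbar γ) := contDiff_iff_contDiffAt.mpr
      (fun z => contDiffAt_dbar hγ.contDiffAt)
    exact this.continuous
  have sd : tsupport (dbar γ) ⊆ tsupport γ := by
    apply closure_minimal _ (isClosed_tsupport γ)
    intro z hz
    by_contra h
    have h0 : γ =ᶠ[nhds z] fun _ => 0 := notMem_tsupport_iff_eventuallyEq.mp h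
    apply hz
    unfold dbar
    rw [h0.fderiv_eq]
    simp
  have i2 : Integrable (fun z => normSq (dbar γ z) * Real.exp (φ z)) :=
    contexp (dbar γ) cd sd
  calc M * ∫ z, normSq (γ z) * Real.exp (φ z)
      = ∫ z, M * (normSq (γ z) * Real.exp (φ z)) := by rw [integral_const_mul]
    _ ≤ ∫ z, (normSq (dbar γ z) * Real.exp (φ z) - (dbar (P1 γ φ) z - ddz (P2 γ φ) z).re) := by
        apply integral_mono (i1.const_mul M) (i2.sub iR)
        intro z
        show M * (normSq (γ z) * Real.exp (φ z)) ≤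
          normSq (dbar γ z) * Real.exp (φ z) - (dbar (P1 γ φ) z - ddz (P2 γ φ) z).re
        by_cases hz : z ∈ Ω
        · rw [key_identity hγ.contDiffAt (hφ z hz), ← ofReal_exp, ← ofReal_mul, ofReal_re]
          have h1 := hM z hz
          have h2 := normSq_nonneg (γ z)
          have h3 := normSq_nonneg (ddz γ z + ddz (fun x => (φ x : ℂ)) z * γ z)
          have h4 : M * normSq (γ z) ≤ lap φ z / 4 * normSq (γ z) :=
            mul_le_mul_of_nonneg_right (by linarith) h2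
          have h5 := Real.exp_pos (φ z)
          nlinarith
        · have hz' : z ∉ tsupport γ := fun h => hz (hs h)
          have g0 : γ z = 0 := image_eq_zero_of_notMem_tsupport hz'
          have g1 : dbar γ z = 0 := image_eq_zero_of_notMem_tsupport (fun h => hz' (sd h))
          have q1 : P1 γ φ =ᶠ[nhds z] fun _ => 0 :=
            notMem_tsupport_iff_eventuallyEq.mp (fun h => hz' (sP1 h))
          have q2 : P2 γ φ =ᶠ[nhds z] fun _ => 0 :=
            notMem_tsupport_iff_eventuallyEq.mp (fun h => hz' (sP2 h))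
          have r1 : dbar (P1 γ φ) z = 0 := by
            unfold dbar
            rw [q1.fderiv_eq]
            simp
          have r2 : ddz (P2 γ φ) z = 0 := by
            unfold ddz
            rw [q2.fderiv_eq]
            simp
          simp [g0, g1, r1, r2]
    _ = ∫ z, normSq (dbar γ z) * Real.exp (φ z) := by
        rw [integral_sub i2 iR, hR, sub_zero]

end Pool.Agent.Work.MP_06ac62_an
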