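import Pool.Agent.Work.MP_06ac62_an.H2

open MeasureTheory Complex ComplexConjugate

namespace Pool.Agent.Work.MP_06ac62_an

/-- Riesz representation for a functional dominated through a linear map. -/
lemma riesz_dominated {V H : Type*} [AddCommGroup V] [Module ℂ V] [NormedAddCommGroup H]
    [InnerProductSpace ℂ H] [CompleteSpace H] (T : V →ₗ[ℂ] H) (S : V →ₗ[ℂ] ℂ) {C : ℝ}
    (hC : 0 ≤ C) (h : ∀ x, ‖S x‖ ≤ C * ‖T x‖) :
    ∃ v : H, ‖v‖ ≤ C ∧ ∀ x, S x = inner ℂ v (T x) := by
  have hker : LinearMap.ker T ≤ LinearMap.ker S := by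
    intro x hx
    rw [LinearMap.mem_ker] at hx ⊢
    have := h x
    rw [hx, norm_zero, mul_zero] at this
    exact norm_le_zero_iff.mp this
  let S' : LinearMap.range T →ₗ[ℂ] ℂ :=
    ((LinearMap.ker T).liftQ S hker).comp T.quotKerEquivRange.symm.toLinearMap
  have hS' : ∀ x, S' ⟨T x, LinearMap.mem_range_self T x⟩ = S x := by
    intro x
    have : T.quotKerEquivRange.symm ⟨T x, LinearMap.mem_range_self T x⟩
        = (LinearMap.ker T).mkQ x := by
      rw [LinearEquiv.symm_apply_eq]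
      rfl
    simp only [S', LinearMap.comp_apply, LinearEquiv.coe_coe, this]
    simp
  have hb : ∀ y : LinearMap.range T, ‖S' y‖ ≤ C * ‖y‖ := by
    rintro ⟨y, x, rfl⟩
    rw [hS' x]
    simpa using h x
  let L : StrongDual ℂ (LinearMap.range T) := S'.mkContinuous C hb
  obtain ⟨g, hg, hgn⟩ := exists_extension_norm_eq (LinearMap.range T) L
  refine ⟨(InnerProductSpace.toDual ℂ H).symm g, ?_, ?_⟩
  · rw [LinearIsometryEquiv.norm_map, hgn]
    exact S'.mkContinuous_norm_le hC hb
  · intro x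
    rw [InnerProductSpace.toDual_symm_apply]
    have := hg ⟨T x, LinearMap.mem_range_self T x⟩
    simp only at this
    rw [this]
    exact (hS' x).symm

lemma inner_toLp {f g : ℂ → ℂ} (hf : MemLp f 2 (volume : Measure ℂ))
    (hg : MemLp g 2 (volume : Measure ℂ)) :
    inner ℂ (hf.toLp f) (hg.toLp g) = ∫ z, conj (f z) * g z := by
  rw [L2.inner_def]
  apply integral_congr_ae
  filter_upwards [hf.coeFn_toLp, hg.coeFn_toLp] with z h1 h2
  rw [h1, h2]
  simp [mul_comm]

lemma norm_toLp_sq {f : ℂ → ℂ} (hf : MemLp f 2 (volume : Measure ℂ)) :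
    ‖hf.toLp f‖ ^ 2 = ∫ z, normSq (f z) := by
  have h1 : ((‖hf.toLp f‖ ^ 2 : ℝ) : ℂ) = inner ℂ (hf.toLp f) (hf.toLp f) := by
    rw [inner_self_eq_norm_sq_to_K]
    simp
  rw [inner_toLp] at h1
  have h2 : ∫ z, conj (f z) * f z = ((∫ z, normSq (f z) : ℝ) : ℂ) := by
    rw [← integral_complex_ofReal]
    apply integral_congr_ae
    filter_upwards with z
    exact (normSq_eq_conj_mul_self).symm
  rw [h2] at h1
  exact_mod_cast h1

/-- The space of test functions on an open set. -/
def testSpace (Ω : Set ℂ) : Submodule ℂ (ℂ → ℂ) where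
  carrier := {γ | ContDiff ℝ 2 γ ∧ HasCompactSupport γ ∧ tsupport γ ⊆ Ω}
  add_mem' := by
    rintro a b ⟨h1, h2, h3⟩ ⟨k1, k2, k3⟩
    exact ⟨h1.add k1, h2.add k2, (tsupport_add a b).trans (Set.union_subset h3 k3)⟩
  zero_mem' := by
    refine ⟨contDiff_const, HasCompactSupport.zero, ?_⟩
    simp [tsupport]
  smul_mem' := by
    rintro c a ⟨h1, h2, h3⟩
    refine ⟨contDiff_const.smul h1, h2.smul_left (f := fun _ => c), ?_⟩
    exact (tsupport_smul_subset_right (fun _ => c) a).trans h3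

lemma continuous_of_tsupport {Ω : Set ℂ} {P : ℂ → ℂ}
    (hP : ∀ z ∈ Ω, ContinuousAt P z) (hs : tsupport P ⊆ Ω) : Continuous P := by
  rw [continuous_iff_continuousAt]
  intro z
  by_cases hz : z ∈ tsupport P
  · exact hP z (hs hz)
  · have : P =ᶠ[nhds z] fun _ => 0 := notMem_tsupport_iff_eventuallyEq.mp hz
    exact continuousAt_const.congr this.symm

lemma tsupport_dbar (γ : ℂ → ℂ) : tsupport (dbar γ) ⊆ tsupport γ := by
  apply closure_minimal _ (isClosed_tsupport γ)
  intro z hz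
  by_contra h
  have h0 : γ =ᶠ[nhds z] fun _ => 0 := notMem_tsupport_iff_eventuallyEq.mp h
  apply hz
  unfold dbar
  rw [h0.fderiv_eq]
  simp

lemma continuous_dbar {γ : ℂ → ℂ} (hγ : ContDiff ℝ 2 γ) : Continuous (dbar γ) := by
  have : ContDiff ℝ 1 (dbar γ) := contDiff_iff_contDiffAt.mpr
    (fun z => contDiffAt_dbar hγ.contDiffAt)
  exact this.continuous

lemma memLp_mul_exp {Ω : Set ℂ} {φ : ℂ → ℝ} (hφ : ∀ z ∈ Ω, ContinuousAt φ z) {g : ℂ → ℂ}
    (hg : Continuous g) (hgc : HasCompactSupport g) (hgs : tsupport g ⊆ Ω) :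
    MemLp (fun z => ((Real.exp (φ z) : ℝ) : ℂ) * g z) 2 (volume : Measure ℂ) := by
  have s1 : tsupport (fun z => ((Real.exp (φ z) : ℝ) : ℂ) * g z) ⊆ tsupport g :=
    tsupport_mul_subset_right
  have c1 : Continuous (fun z => ((Real.exp (φ z) : ℝ) : ℂ) * g z) := by
    apply continuous_of_tsupport (Ω := Ω) _ (s1.trans hgs)
    intro z hz
    exact (continuous_ofReal.continuousAt.comp (hφ z hz).rexp).mul hg.continuousAt
  exact c1.memLp_of_hasCompactSupport (hgc.mono' ((subset_tsupport _).trans s1))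

theorem weak_solution {Ω : Set ℂ} {φ : ℂ → ℝ} {M : ℝ} (hM : 0 < M)
    (hφ : ∀ z ∈ Ω, ContDiffAt ℝ 2 φ z) (hlap : ∀ z ∈ Ω, 4 * M ≤ lap φ z) {g : ℂ → ℂ}
    (hg : Continuous g) (hgc : HasCompactSupport g) (hgs : tsupport g ⊆ Ω) :
    ∃ h : ℂ → ℂ, MemLp h 2 (volume : Measure ℂ) ∧
      (∫ z, normSq (h z) ≤ (1 / M) * ∫ z, normSq (g z) * Real.exp (- φ z)) ∧
      ∀ γ : ℂ → ℂ, ContDiff ℝ 2 γ → HasCompactSupport γ → tsupport γ ⊆ Ω →
        ∫ z, g z * γ z = ∫ z, h z * (((Real.exp (φ z / 2) : ℝ) : ℂ) * dbar γ z) := by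
  have hφ2 : ∀ z ∈ Ω, ContinuousAt (fun z => φ z / 2) z := fun z hz =>
    (hφ z hz).continuousAt.div_const 2
  have hφ3 : ∀ z ∈ Ω, ContinuousAt (fun z => - (φ z / 2)) z := fun z hz =>
    (hφ2 z hz).neg
  have mT : ∀ γ : testSpace Ω, MemLp (fun z => ((Real.exp (φ z / 2) : ℝ) : ℂ) * dbar γ.1 z) 2
      (volume : Measure ℂ) := by
    rintro ⟨γ, h1, h2, h3⟩
    exact memLp_mul_exp hφ2 (continuous_dbar h1)
      (h2.mono' ((subset_tsupport _).trans (tsupport_dbar γ))) ((tsupport_dbar γ).trans h3)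
  have mg : MemLp (fun z => ((Real.exp (-(φ z / 2)) : ℝ) : ℂ) * conj (g z)) 2
      (volume : Measure ℂ) := by
    have s1 : tsupport (fun z => conj (g z)) ⊆ tsupport g := by
      apply closure_mono
      intro z hz
      simp only [Function.mem_support] at hz ⊢
      intro h
      apply hz
      simp [h]
    exact memLp_mul_exp hφ3 (continuous_conj.comp hg)
      (hgc.mono' ((subset_tsupport _).trans s1)) (s1.trans hgs)
  have mγ : ∀ γ : testSpace Ω, MemLp (fun z => ((Real.exp (φ z / 2) : ℝ) : ℂ) * γ.1 z) 2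
      (volume : Measure ℂ) := by
    rintro ⟨γ, h1, h2, h3⟩
    exact memLp_mul_exp hφ2 h1.continuous h2 h3
  have hcS : ∀ γ : testSpace Ω, Integrable (fun z => g z * γ.1 z) := by
    rintro ⟨γ, h1, h2, h3⟩
    exact (hg.mul h1.continuous).integrable_of_hasCompactSupport (h2.mul_left)
  let T : testSpace Ω →ₗ[ℂ] Lp ℂ 2 (volume : Measure ℂ) :=
    { toFun := fun γ => (mT γ).toLp _
      map_add' := by
        intro a b
        rw [← MemLp.toLp_add]
        apply MemLp.toLp_congr
        filter_upwards with z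
        have ha : DifferentiableAt ℝ a.1 z := (a.2.1.differentiable (by norm_num)) z
        have hb : DifferentiableAt ℝ b.1 z := (b.2.1.differentiable (by norm_num)) z
        have := dbar_add ha hb
        simp only [Pi.add_apply, Submodule.coe_add]
        have e : dbar (a.1 + b.1) z = dbar a.1 z + dbar b.1 z := this
        rw [e]
        ring
      map_smul' := by
        intro c a
        rw [RingHom.id_apply, ← MemLp.toLp_const_smul]
        apply MemLp.toLp_congr
        filter_upwards with z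
        have ha : DifferentiableAt ℝ a.1 z := (a.2.1.differentiable (by norm_num)) z
        have e : dbar (c • a.1) z = c * dbar a.1 z := by
          unfold dbar
          rw [fderiv_const_smul ha]
          simp
          ring
        simp only [Pi.smul_apply, Submodule.coe_smul, smul_eq_mul]
        rw [e]
        ring }
  let S : testSpace Ω →ₗ[ℂ] ℂ :=
    { toFun := fun γ => ∫ z, g z * γ.1 z
      map_add' := by
        intro a b
        rw [← integral_add (hcS a) (hcS b)]
        apply integral_congr_ae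
        filter_upwards with z
        simp [mul_add]
      map_smul' := by
        intro c a
        rw [RingHom.id_apply, smul_eq_mul, ← integral_const_mul]
        apply integral_congr_ae
        filter_upwards with z
        simp only [Submodule.coe_smul, Pi.smul_apply, smul_eq_mul]
        ring }
  set B : ℝ := ∫ z, normSq (g z) * Real.exp (- φ z) with hB
  have hB0 : 0 ≤ B := integral_nonneg (fun z => mul_nonneg (normSq_nonneg _) (Real.exp_pos _).le)
  have hBn : ‖mg.toLp _‖ ^ 2 = B := by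
    rw [norm_toLp_sq, hB]
    apply integral_congr_ae
    filter_upwards with z
    rw [map_mul, normSq_ofReal, normSq_conj, ← Real.exp_add]
    rw [show -(φ z / 2) + -(φ z / 2) = - φ z by ring]
    ring
  have hbound : ∀ γ : testSpace Ω, ‖S γ‖ ≤ Real.sqrt (B / M) * ‖T γ‖ := by
    intro γ
    have h1 : S γ = inner ℂ (mg.toLp _) ((mγ γ).toLp _) := by
      rw [inner_toLp]
      show ∫ z, g z * γ.1 z = _
      apply integral_congr_ae
      filter_upwards with z
      rw [map_mul, conj_conj, conj_ofReal]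
      have : ((Real.exp (-(φ z / 2)) : ℝ) : ℂ) * ((Real.exp (φ z / 2) : ℝ) : ℂ) = 1 := by
        rw [← ofReal_mul, ← Real.exp_add]
        simp
      linear_combination (- g z * γ.1 z) * this
    have h2 : ‖(mγ γ).toLp _‖ ^ 2 = ∫ z, normSq (γ.1 z) * Real.exp (φ z) := by
      rw [norm_toLp_sq]
      apply integral_congr_ae
      filter_upwards with z
      rw [map_mul, normSq_ofReal, ← Real.exp_add]
      rw [show (φ z / 2) + (φ z / 2) = φ z by ring]
      ring
    have h3 : ‖T γ‖ ^ 2 = ∫ z, normSq (dbar γ.1 z) * Real.exp (φ z) := by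
      show ‖(mT γ).toLp _‖ ^ 2 = _
      rw [norm_toLp_sq]
      apply integral_congr_ae
      filter_upwards with z
      rw [map_mul, normSq_ofReal, ← Real.exp_add]
      rw [show (φ z / 2) + (φ z / 2) = φ z by ring]
      ring
    have h4 := apriori (M := M) γ.2.1 γ.2.2.1 γ.2.2.2 hφ hlap
    rw [← h2, ← h3] at h4
    have h5 : ‖S γ‖ ≤ ‖mg.toLp _‖ * ‖(mγ γ).toLp _‖ := by
      rw [h1]
      exact norm_inner_le_norm _ _
    have h6 : ‖S γ‖ ^ 2 ≤ (Real.sqrt (B / M) * ‖T γ‖) ^ 2 := by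
      calc ‖S γ‖ ^ 2 ≤ (‖mg.toLp _‖ * ‖(mγ γ).toLp _‖) ^ 2 := by
            gcongr
        _ = B * ‖(mγ γ).toLp _‖ ^ 2 := by rw [mul_pow, hBn]
        _ ≤ B * (‖T γ‖ ^ 2 / M) := by
            gcongr
            rw [le_div_iff₀ hM]
            linarith
        _ = (Real.sqrt (B / M) * ‖T γ‖) ^ 2 := by
            rw [mul_pow, Real.sq_sqrt (by positivity)]
            ring
    exact le_of_sq_le_sq h6 (by positivity)
  obtain ⟨v, hv1, hv2⟩ := riesz_dominated T S (Real.sqrt_nonneg (B / M)) hbound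
  have hvm : MemLp (v : ℂ → ℂ) 2 volume := Lp.memLp v
  have hvc : MemLp (fun z => conj ((v : ℂ → ℂ) z)) 2 (volume : Measure ℂ) := by
    apply hvm.of_le (continuous_conj.comp_aestronglyMeasurable hvm.1)
    filter_upwards with z
    simp
  refine ⟨fun z => conj ((v : ℂ → ℂ) z), hvc, ?_, ?_⟩
  · have e1 : ‖v‖ ^ 2 = ∫ z, normSq (conj ((v : ℂ → ℂ) z)) := by
      have : v = hvm.toLp _ := (Lp.toLp_coeFn v hvm).symm
      rw [this, norm_toLp_sq]
      apply integral_congr_ae
      filter_upwards [hvm.coeFn_toLp] with z hz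
      rw [hz, normSq_conj]
    rw [← e1]
    calc ‖v‖ ^ 2 ≤ (Real.sqrt (B / M)) ^ 2 := by gcongr
      _ = 1 / M * B := by
        rw [Real.sq_sqrt (by positivity)]
        ring
  · intro γ h1 h2 h3
    have := hv2 ⟨γ, h1, h2, h3⟩
    have e2 : inner ℂ v (T ⟨γ, h1, h2, h3⟩) = ∫ z, conj ((v : ℂ → ℂ) z) *
        (((Real.exp (φ z / 2) : ℝ) : ℂ) * dbar γ z) := by
      have e3 : v = hvm.toLp _ := (Lp.toLp_coeFn v hvm).symm
      have e4 : inner ℂ (hvm.toLp _) ((mT ⟨γ, h1, h2, h3⟩).toLp _) = ∫ z, conj ((v : ℂ → ℂ) z) *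
        (((Real.exp (φ z / 2) : ℝ) : ℂ) * dbar γ z) := inner_toLp _ _
      rw [← e3] at e4
      exact e4
    rw [← e2]
    exact this

end Pool.Agent.Work.MP_06ac62_an
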