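import Pool.Agent.Work.MP_06ac62_an.L1

open MeasureTheory Complex ComplexConjugate Metric Filter Topology

namespace Pool.Agent.Work.MP_06ac62_an

lemma lap_normSq (z : ℂ) : lap (fun x => normSq x) z = 4 := by
  have h := lap_comp_normSq (h := fun s => s) (F := fun x => x) (z := z)
    (Eventually.of_forall fun x => differentiableAt_id) contDiffAt_id
  rw [h]
  simp

/-- weight function of the main existence theorem -/
noncomputable def wt (u : ℂ → ℝ) (M : ℝ) (ζ : ℂ) : ℝ := 2 * u ζ + M * normSq ζ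

lemma contDiffAt_wt {u : ℂ → ℝ} {M : ℝ} {z : ℂ} (hu : ContDiffAt ℝ 2 u z) :
    ContDiffAt ℝ 2 (wt u M) z :=
  (contDiffAt_const.mul hu).add (contDiffAt_const.mul contDiff_normSq'.contDiffAt)

lemma lap_wt {u : ℂ → ℝ} {M : ℝ} {z : ℂ} (hu : ContDiffAt ℝ 2 u z) (h0 : 0 ≤ lap u z) :
    4 * M ≤ lap (wt u M) z := by
  have e : lap (wt u M) z = 2 * lap u z + M * 4 := by
    have h1 : lap (fun x => 2 * u x + M * normSq x) z =
        lap (fun x => 2 * u x) z + lap (fun x => M * normSq x) z :=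
      lap_add (contDiffAt_const.mul hu) (contDiffAt_const.mul contDiff_normSq'.contDiffAt)
    show lap (fun x => 2 * u x + M * normSq x) z = _
    rw [h1, lap_const_mul hu, lap_const_mul contDiff_normSq'.contDiffAt, lap_normSq]
  rw [e]
  linarith

lemma exp_neg_mul_exp (a : ℝ) : Real.exp (a / 2) * Real.exp (-(a / 2)) = 1 := by
  rw [← Real.exp_add]
  simp

/-- The core estimate: average of `f = E * k`. -/
lemma est_avg {Z : Set ℂ} (hZn : volume Z = 0) {u : ℂ → ℝ} {M : ℝ} (hM : 0 ≤ M)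
    {f k : ℂ → ℂ} (hf : LocallyIntegrable f) (hk : MemLp k 2 (volume : Measure ℂ))
    (hfk : ∀ ζ, f ζ = ((Real.exp (wt u M ζ / 2) : ℝ) : ℂ) * k ζ) {z : ℂ} {ε B : ℝ}
    (hε : 0 < ε) (hB : ∀ ζ ∈ closedBall z ε, ζ ∉ Z → u ζ ≤ B) :
    ‖∫ ζ, ker z ε ζ • f ζ‖ ≤ (BH * ((∫ ζ, ‖k ζ‖ ^ 2) + Real.pi) / (2 * Real.pi)) / ε *
      Real.exp (B + M * (‖z‖ + ε) ^ 2) := by
  have hk2 : Integrable (fun ζ => ‖k ζ‖ ^ 2) := hk.integrable_norm_pow (by norm_num)
  have h1 := norm_avg_le hf (z := z) hε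
  have hZae : ∀ᵐ ζ ∂(volume : Measure ℂ), ζ ∉ Z := by
    rw [ae_iff]
    simpa using hZn
  have hX : 0 < Real.exp (B + M * (‖z‖ + ε) ^ 2) := Real.exp_pos _
  have h2 : ∫ ζ in closedBall z ε, ‖f ζ‖ ≤ Real.exp (B + M * (‖z‖ + ε) ^ 2) *
      (ε / 2 * ((∫ ζ, ‖k ζ‖ ^ 2) + Real.pi)) := by
    calc ∫ ζ in closedBall z ε, ‖f ζ‖ ≤ ∫ ζ in closedBall z ε,
          Real.exp (B + M * (‖z‖ + ε) ^ 2) * (ε / 2 * ‖k ζ‖ ^ 2 + 1 / (2 * ε)) := by
          apply integral_mono_of_nonneg
          · filter_upwards with ζ using norm_nonneg _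
          · apply Integrable.const_mul
            apply Integrable.add (hk2.integrableOn.const_mul _)
            exact integrableOn_const (by simp [Complex.volume_closedBall, ENNReal.mul_eq_top])
          · rw [EventuallyLE, ae_restrict_iff' measurableSet_closedBall]
            filter_upwards [hZae] with ζ hζ hζb
            rw [hfk ζ, norm_mul, norm_real, Real.norm_eq_abs, abs_of_pos (Real.exp_pos _)]
            have e1 : wt u M ζ / 2 ≤ B + M * (‖z‖ + ε) ^ 2 := by
              unfold wt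
              have a1 := hB ζ hζb hζ
              have a2 : normSq ζ ≤ (‖z‖ + ε) ^ 2 := by
                rw [normSq_eq_norm_sq]
                have : ‖ζ‖ ≤ ‖z‖ + ε := by
                  have b1 : ‖ζ‖ ≤ ‖z‖ + ‖ζ - z‖ := by
                    calc ‖ζ‖ = ‖z + (ζ - z)‖ := by ring_nf
                      _ ≤ _ := norm_add_le _ _
                  have b2 : ‖ζ - z‖ ≤ ε := by rwa [← dist_eq_norm]
                  linarith
                gcongr
              have a3 : 0 ≤ normSq ζ := normSq_nonneg _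
              nlinarith [mul_le_mul_of_nonneg_left a2 hM, mul_nonneg hM a3]
            have e2 : ‖k ζ‖ ≤ ε / 2 * ‖k ζ‖ ^ 2 + 1 / (2 * ε) := by
              have : 0 ≤ (ε * ‖k ζ‖ - 1) ^ 2 / (2 * ε) := by positivity
              have e3 : (ε * ‖k ζ‖ - 1) ^ 2 / (2 * ε) = ε / 2 * ‖k ζ‖ ^ 2 + 1 / (2 * ε) - ‖k ζ‖ := by
                field_simp
                ring
              linarith
            calc Real.exp (wt u M ζ / 2) * ‖k ζ‖ ≤ Real.exp (B + M * (‖z‖ + ε) ^ 2) * ‖k ζ‖ := by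
                  gcongr
              _ ≤ _ := by gcongr
      _ = Real.exp (B + M * (‖z‖ + ε) ^ 2) * (ε / 2 * (∫ ζ in closedBall z ε, ‖k ζ‖ ^ 2) +
            (Real.pi * ε ^ 2) * (1 / (2 * ε))) := by
          rw [integral_const_mul, integral_add (hk2.integrableOn.const_mul _)
            (integrableOn_const (by simp [Complex.volume_closedBall, ENNReal.mul_eq_top])),
            integral_const_mul, setIntegral_const, volume_closedBall_real z hε, smul_eq_mul]
      _ ≤ _ := by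
          have h3 : ∫ ζ in closedBall z ε, ‖k ζ‖ ^ 2 ≤ ∫ ζ, ‖k ζ‖ ^ 2 :=
            setIntegral_le_integral hk2 (by filter_upwards with ζ using by positivity)
          have h4 : (Real.pi * ε ^ 2) * (1 / (2 * ε)) = ε / 2 * Real.pi := by
            field_simp
          rw [h4, ← mul_add]
          gcongr
  calc ‖∫ ζ, ker z ε ζ • f ζ‖ ≤ BH / (Real.pi * ε ^ 2) * ∫ ζ in closedBall z ε, ‖f ζ‖ := h1
    _ ≤ BH / (Real.pi * ε ^ 2) * (Real.exp (B + M * (‖z‖ + ε) ^ 2) *
      (ε / 2 * ((∫ ζ, ‖k ζ‖ ^ 2) + Real.pi))) := by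
        have := BH_pos
        gcongr
    _ = _ := by
        have := Real.pi_pos
        field_simp

end Pool.Agent.Work.MP_06ac62_an
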