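import Pool.Agent.Work.MP_06ac62_an.H5

open MeasureTheory Complex ComplexConjugate Metric Filter Topology

namespace Pool.Agent.Work.MP_06ac62_an

/-- Existence of entire functions with prescribed one sided growth (one dimensional
Hörmander theorem with test functions supported off the poles of the weight). -/
theorem exists_entire {Z : Set ℂ} (hZc : IsClosed Z) (hZn : volume Z = 0) (h0 : (0 : ℂ) ∉ Z)
    {u U : ℂ → ℝ} (hU : Continuous U) (huU : ∀ z ∉ Z, u z ≤ U z)
    (hu : ∀ z ∉ Z, ContDiffAt ℝ 2 u z) (hlap : ∀ z ∉ Z, 0 ≤ lap u z)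
    (hsing : ∀ p ∈ Z, ∃ C : ℝ, ∀ᶠ z in 𝓝[≠] p, z ∉ Z ∧ u z ≤ 2 * Real.log ‖z - p‖ + C) :
    ∃ g : ℂ → ℂ, Differentiable ℂ g ∧ (∃ z, g z ≠ 0) ∧ ∃ K M : ℝ, 0 < K ∧ 0 ≤ M ∧
      ∀ (z : ℂ) (ε B : ℝ), 0 < ε → (∀ ζ ∈ closedBall z ε, ζ ∉ Z → u ζ ≤ B) →
        ‖g z‖ ≤ K / ε * Real.exp (B + M * (‖z‖ + ε) ^ 2) := by
  classical
  have hΩ : IsOpen Zᶜ := hZc.isOpen_compl
  have hZae : ∀ᵐ ζ ∂(volume : Measure ℂ), ζ ∉ Z := by
    rw [ae_iff]
    simpa using hZn
  -- the bump function
  obtain ⟨r₁, hr₁, hr₁Z⟩ : ∃ r : ℝ, 0 < r ∧ closedBall (0:ℂ) r ⊆ Zᶜ := by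
    obtain ⟨r, hr, hr2⟩ := Metric.isOpen_iff.mp hΩ 0 h0
    exact ⟨r / 2, by positivity, (closedBall_subset_ball (by linarith)).trans hr2⟩
  let F : ℂ → ℂ := fun ζ => 1 - Xc 0 r₁ ζ
  have hFcd : ContDiff ℝ 2 F := contDiff_const.sub (contDiff_Xc (n := 2) 0 r₁)
  have hFs : tsupport F ⊆ closedBall 0 r₁ := by
    apply closure_minimal _ isClosed_closedBall
    intro x hx
    by_contra hn
    rw [mem_closedBall, not_le] at hn
    apply hx
    simp only [F]
    rw [Xc_one hr₁ hn.le, sub_self]
  have hFc : HasCompactSupport F :=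
    (isCompact_closedBall (0:ℂ) r₁).of_isClosed_subset (isClosed_tsupport F) hFs
  have hF1 : ∀ ζ, dist ζ 0 ≤ 2 / 3 * r₁ → F ζ = 1 := by
    intro ζ h
    simp only [F]
    rw [Xc_zero hr₁ h, sub_zero]
  let g₀ : ℂ → ℂ := dbar F
  have hg₀s : tsupport g₀ ⊆ tsupport F := tsupport_dbar F
  have hg₀c : Continuous g₀ := continuous_dbar hFcd
  have hg₀cs : HasCompactSupport g₀ := hFc.mono' ((subset_tsupport _).trans hg₀s)
  have hg₀0 : ∀ ζ, dist ζ 0 ≤ 2 / 3 * r₁ → g₀ ζ = 0 := by
    intro ζ h
    have hd : DifferentiableAt ℝ (Xc 0 r₁) ζ :=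
      (contDiff_Xc (n := 2) 0 r₁).differentiable (by norm_num) ζ
    have e1 : g₀ ζ = - dbar (Xc 0 r₁) ζ := by
      show dbar F ζ = _
      unfold dbar
      have : fderiv ℝ F ζ = - fderiv ℝ (Xc 0 r₁) ζ := by
        show fderiv ℝ (fun ζ => 1 - Xc 0 r₁ ζ) ζ = _
        rw [fderiv_const_sub]
      rw [this]
      simp
      ring
    rw [e1, dbar_Xc, kern_zero hr₁ h]
    simp
  -- constants
  obtain ⟨S, hS⟩ := (isCompact_closedBall (0:ℂ) r₁).exists_bound_of_continuousOn hU.continuousOn
  have hS' : ∀ ζ ∈ closedBall (0:ℂ) r₁, u ζ ≤ S := fun ζ hζ =>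
    (huU ζ (hr₁Z hζ)).trans ((le_abs_self _).trans (hS ζ hζ))
  obtain ⟨T, hT⟩ : ∃ T : ℝ, ∀ ζ ∈ closedBall (0:ℂ) r₁, normSq (g₀ ζ) * Real.exp (-(2 * u ζ)) ≤ T := by
    have hc : ContinuousOn (fun ζ => normSq (g₀ ζ) * Real.exp (-(2 * u ζ))) (closedBall (0:ℂ) r₁) := by
      intro ζ hζ
      apply ContinuousAt.continuousWithinAt
      exact ((continuous_normSq.comp hg₀c).continuousAt).mul
        (((hu ζ (hr₁Z hζ)).continuousAt.const_mul 2).neg.rexp)
    obtain ⟨T, hT⟩ := (isCompact_closedBall (0:ℂ) r₁).exists_bound_of_continuousOn hc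
    exact ⟨T, fun ζ hζ => (le_abs_self _).trans (hT ζ hζ)⟩
  have hT0 : 0 ≤ T := by
    have := hT 0 (by simp; exact hr₁.le)
    exact le_trans (mul_nonneg (normSq_nonneg _) (Real.exp_pos _).le) this
  let M : ℝ := 9 * T * Real.exp (2 * S) + 1
  have hM : 0 < M := by positivity
  have hMT : T / M < Real.exp (-(2 * S)) / 9 := by
    rw [div_lt_div_iff₀ hM (by norm_num)]
    have e1 : Real.exp (-(2 * S)) * M = 9 * T * (Real.exp (-(2*S)) * Real.exp (2 * S)) +
        Real.exp (-(2 * S)) := by
      simp only [M]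
      ring
    have e2 : Real.exp (-(2*S)) * Real.exp (2 * S) = 1 := by
      rw [← Real.exp_add]
      simp
    rw [e1, e2]
    have := Real.exp_pos (-(2 * S))
    linarith
  let φ : ℂ → ℝ := wt u M
  have hφ : ∀ z ∈ Zᶜ, ContDiffAt ℝ 2 φ z := fun z hz => contDiffAt_wt (hu z hz)
  have hφl : ∀ z ∈ Zᶜ, 4 * M ≤ lap φ z := fun z hz => lap_wt (hu z hz) (hlap z hz)
  obtain ⟨h, hh2, hnorm, hweak⟩ := weak_solution hM hφ hφl hg₀c hg₀cs (hg₀s.trans (hFs.trans hr₁Z))
  -- the functions k and f
  let k : ℂ → ℂ := fun ζ => ((Real.exp (-(φ ζ / 2)) : ℝ) : ℂ) * F ζ + h ζ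
  have hFm : MemLp (fun ζ => ((Real.exp (-(φ ζ / 2)) : ℝ) : ℂ) * F ζ) 2 (volume : Measure ℂ) :=
    memLp_mul_exp (Ω := Zᶜ) (φ := fun ζ => -(φ ζ / 2))
      (fun z hz => ((hφ z hz).continuousAt.div_const 2).neg) hFcd.continuous hFc (hFs.trans hr₁Z)
  have hk : MemLp k 2 (volume : Measure ℂ) := hFm.add hh2
  let f : ℂ → ℂ := fun ζ => ((Real.exp (φ ζ / 2) : ℝ) : ℂ) * k ζ
  have hff : ∀ ζ, f ζ = F ζ + h ζ * ((Real.exp (φ ζ / 2) : ℝ) : ℂ) := by
    intro ζ
    simp only [f, k]
    have e1 : ((Real.exp (φ ζ / 2) : ℝ) : ℂ) * ((Real.exp (-(φ ζ / 2)) : ℝ) : ℂ) = 1 := by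
      rw [← ofReal_mul, exp_neg_mul_exp, ofReal_one]
    linear_combination (F ζ) * e1
  -- local integrability
  have hEm : AEStronglyMeasurable (fun ζ => ((Real.exp (φ ζ / 2) : ℝ) : ℂ)) (volume : Measure ℂ) := by
    have h1 : ContinuousOn (fun ζ => ((Real.exp (φ ζ / 2) : ℝ) : ℂ)) Zᶜ := by
      intro ζ hζ
      apply ContinuousAt.continuousWithinAt
      exact continuous_ofReal.continuousAt.comp (((hφ ζ hζ).continuousAt.div_const 2).rexp)
    have h2 := h1.aestronglyMeasurable hΩ.measurableSet (μ := (volume : Measure ℂ))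
    rwa [Measure.restrict_eq_self_of_ae_mem (s := Zᶜ) hZae] at h2
  have hf : LocallyIntegrable f := by
    rw [locallyIntegrable_iff]
    intro K hK
    have hkK : IntegrableOn k K := by
      have : IsFiniteMeasure ((volume : Measure ℂ).restrict K) := ⟨by simpa using hK.measure_lt_top⟩
      exact (hk.restrict K).integrable (by norm_num)
    obtain ⟨C, hC⟩ := hK.exists_bound_of_continuousOn (f := fun ζ => U ζ + M * normSq ζ / 2)
      ((hU.add ((continuous_const.mul continuous_normSq).div_const _)).continuousOn)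
    have : Integrable (fun ζ => ((Real.exp (φ ζ / 2) : ℝ) : ℂ) * k ζ) ((volume : Measure ℂ).restrict K) := by
      apply Integrable.bdd_mul (c := Real.exp C) hkK hEm.restrict
      rw [ae_restrict_iff' hK.measurableSet]
      filter_upwards [hZae] with ζ hζ hζK
      rw [norm_real, Real.norm_eq_abs, abs_of_pos (Real.exp_pos _)]
      apply Real.exp_le_exp.mpr
      have h1 := hC ζ hζK
      have h2 := huU ζ hζ
      have h3 := le_abs_self (U ζ + M * normSq ζ / 2)
      rw [Real.norm_eq_abs] at h1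
      show wt u M ζ / 2 ≤ C
      unfold wt
      linarith
    exact this
  have hFl : LocallyIntegrable F := hFcd.continuous.locallyIntegrable
  have hw : ∀ γ : ℂ → ℂ, ContDiff ℝ 2 γ → HasCompactSupport γ → tsupport γ ⊆ Zᶜ →
      ∫ ζ, f ζ * dbar γ ζ = 0 := by
    intro γ h1 h2 h3
    have hdc : Continuous (dbar γ) := continuous_dbar h1
    have hds : HasCompactSupport (dbar γ) := h2.mono' ((subset_tsupport _).trans (tsupport_dbar γ))
    have i1 : Integrable (fun ζ => f ζ * dbar γ ζ) := by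
      simpa using hf.integrable_smul_right_of_hasCompactSupport hdc hds
    have i2 : Integrable (fun ζ => F ζ * dbar γ ζ) := by
      simpa using hFl.integrable_smul_right_of_hasCompactSupport hdc hds
    have i3 : Integrable (fun ζ => g₀ ζ * γ ζ) :=
      (hg₀c.mul h1.continuous).integrable_of_hasCompactSupport (h2.mul_left)
    have e1 : ∫ ζ, h ζ * (((Real.exp (φ ζ / 2) : ℝ) : ℂ) * dbar γ ζ) =
        (∫ ζ, f ζ * dbar γ ζ) - ∫ ζ, F ζ * dbar γ ζ := by
      rw [← integral_sub i1 i2]
      apply integral_congr_ae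
      filter_upwards with ζ
      rw [hff]
      ring
    have e2 := hweak γ h1 h2 h3
    rw [e1] at e2
    have e3 : ∫ ζ, (g₀ ζ * γ ζ + F ζ * dbar γ ζ) = 0 := by
      have h4 := integral_dbar_zero (P := fun x => F x * γ x)
        ((hFcd.of_le (by norm_num)).mul (h1.of_le (by norm_num))) (h2.mul_left)
      rw [← h4]
      apply integral_congr_ae
      filter_upwards with ζ
      rw [dbar_mul (hFcd.differentiable (by norm_num) ζ) (h1.differentiable (by norm_num) ζ)]
    rw [integral_add i3 i2] at e3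
    rw [eq_sub_iff_add_eq] at e2
    rw [← e2, e3]
  obtain ⟨G, hG1, hG2, hG3, hG4⟩ := weyl hΩ hf hw
  have hfG : ∀ᵐ ζ, f ζ = G ζ := by
    filter_upwards [hG3, hZae] with ζ h1 h2
    exact h1 h2
  set K : ℝ := BH * ((∫ ζ, ‖k ζ‖ ^ 2) + Real.pi) / (2 * Real.pi) with hK
  have hK0 : 0 < K := by
    have := BH_pos
    have := Real.pi_pos
    have : 0 ≤ ∫ ζ, ‖k ζ‖ ^ 2 := integral_nonneg (fun ζ => by positivity)
    positivity
  have hest : ∀ (z : ℂ) (ε B : ℝ), 0 < ε → (∀ ζ ∈ closedBall z ε, ζ ∉ Z → u ζ ≤ B) →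
        ‖∫ ζ, ker z ε ζ • f ζ‖ ≤ K / ε * Real.exp (B + M * (‖z‖ + ε) ^ 2) := by
    intro z ε B hε hB
    exact est_avg hZn hM.le hf hk (fun ζ => rfl) hε hB
  -- G is entire
  have hGd : Differentiable ℂ G := by
    intro p
    by_cases hp : p ∈ Z
    · obtain ⟨C, hC⟩ := hsing p hp
      rw [eventually_nhdsWithin_iff, Metric.eventually_nhds_iff] at hC
      obtain ⟨δ, hδ, hC⟩ := hC
      have hGp : G p = 0 := hG4 p (by simpa using hp)
      -- the estimate near p
      have hbd : ∀ z, dist z p < min (δ / 2) 1 → z ≠ p →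
          ‖G z‖ ≤ (K * 2 * (9 / 4) * Real.exp (C + M * (‖p‖ + 2) ^ 2)) * ‖z - p‖ := by
        intro z hz hzp
        have hz1 : dist z p < δ / 2 := lt_of_lt_of_le hz (min_le_left _ _)
        have hz2 : dist z p < 1 := lt_of_lt_of_le hz (min_le_right _ _)
        have hd : 0 < ‖z - p‖ := norm_pos_iff.mpr (sub_ne_zero.mpr hzp)
        rw [dist_eq_norm] at hz1 hz2
        have hzZ : z ∉ Z := (hC (by rw [dist_eq_norm]; linarith) hzp).1
        have hball : ∀ ζ ∈ closedBall z (‖z - p‖ / 2), ‖ζ - p‖ ≤ 3 / 2 * ‖z - p‖ ∧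
            ‖z - p‖ / 2 ≤ ‖ζ - p‖ := by
          intro ζ hζ
          rw [mem_closedBall, dist_eq_norm] at hζ
          constructor
          · calc ‖ζ - p‖ = ‖(ζ - z) + (z - p)‖ := by ring_nf
              _ ≤ ‖ζ - z‖ + ‖z - p‖ := norm_add_le _ _
              _ ≤ _ := by linarith
          · have : ‖z - p‖ ≤ ‖ζ - z‖ + ‖ζ - p‖ := by
              calc ‖z - p‖ = ‖(ζ - p) - (ζ - z)‖ := by ring_nf
                _ ≤ ‖ζ - p‖ + ‖ζ - z‖ := norm_sub_le _ _
                _ = _ := by ring
            linarith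
        have hsub : closedBall z (‖z - p‖ / 2) ⊆ Zᶜ := by
          intro ζ hζ
          obtain ⟨a1, a2⟩ := hball ζ hζ
          refine (hC (y := ζ) (by rw [dist_eq_norm]; linarith) ?_).1
          intro h
          rw [Set.mem_singleton_iff] at h
          rw [h, sub_self, norm_zero] at a2
          linarith
        have hB : ∀ ζ ∈ closedBall z (‖z - p‖ / 2), ζ ∉ Z →
            u ζ ≤ 2 * Real.log (3 / 2 * ‖z - p‖) + C := by
          intro ζ hζ _
          obtain ⟨a1, a2⟩ := hball ζ hζ
          have a3 : 0 < ‖ζ - p‖ := by linarith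
          have := (hC (y := ζ) (by rw [dist_eq_norm]; linarith) (by
            intro h
            rw [Set.mem_singleton_iff] at h
            rw [h, sub_self, norm_zero] at a2
            linarith)).2
          have := Real.log_le_log a3 a1
          linarith
        have e1 := hest z (‖z - p‖ / 2) _ (by positivity) hB
        rw [← hG2 z hzZ (‖z - p‖ / 2) (by positivity) hsub] at e1
        have e2 : Real.exp (2 * Real.log (3 / 2 * ‖z - p‖) + C + M * (‖z‖ + ‖z - p‖ / 2) ^ 2) ≤
            (3 / 2 * ‖z - p‖) ^ 2 * Real.exp (C + M * (‖p‖ + 2) ^ 2) := by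
          have e3 : Real.exp (2 * Real.log (3 / 2 * ‖z - p‖)) = (3 / 2 * ‖z - p‖) ^ 2 := by
            rw [mul_comm, Real.exp_mul, Real.exp_log (by positivity)]
            norm_num
          have e4 : ‖z‖ ≤ ‖p‖ + ‖z - p‖ := by
            calc ‖z‖ = ‖p + (z - p)‖ := by ring_nf
              _ ≤ _ := norm_add_le _ _
          have e5 : (‖z‖ + ‖z - p‖ / 2) ^ 2 ≤ (‖p‖ + 2) ^ 2 := by
            apply pow_le_pow_left₀ (by positivity)
            linarith
          rw [add_assoc, Real.exp_add, e3]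
          gcongr
        calc ‖G z‖ ≤ K / (‖z - p‖ / 2) * ((3 / 2 * ‖z - p‖) ^ 2 * Real.exp (C + M * (‖p‖ + 2) ^ 2)) := by
              refine e1.trans ?_
              gcongr
          _ = _ := by
              field_simp
              norm_num
      have hcont : ContinuousAt G p := by
        rw [ContinuousAt, hGp]
        apply squeeze_zero_norm' (a := fun z => (K * 2 * (9 / 4) *
          Real.exp (C + M * (‖p‖ + 2) ^ 2)) * ‖z - p‖)
        · filter_upwards [ball_mem_nhds p (show 0 < min (δ / 2) 1 by positivity)] with z hz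
          by_cases hzp : z = p
          · rw [hzp, hGp]
            simp
          · exact hbd z hz hzp
        · have : ContinuousAt (fun z : ℂ => (K * 2 * (9 / 4) *
              Real.exp (C + M * (‖p‖ + 2) ^ 2)) * ‖z - p‖) p := by fun_prop
          simpa [ContinuousAt] using this
      have hdiff : ∀ᶠ z in 𝓝[≠] p, DifferentiableAt ℂ G z := by
        rw [eventually_nhdsWithin_iff, Metric.eventually_nhds_iff]
        refine ⟨δ, hδ, fun z hz hzp => ?_⟩
        have hzZ : z ∉ Z := (hC hz hzp).1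
        exact (hG1 z hzZ).differentiableAt (hΩ.mem_nhds hzZ)
      exact (analyticAt_of_differentiable_on_punctured_nhds_of_continuousAt hdiff
        hcont).differentiableAt
    · exact (hG1 p hp).differentiableAt (hΩ.mem_nhds hp)
  refine ⟨G, hGd, ?_, K, M, hK0, hM.le, ?_⟩
  · -- nontrivial
    by_contra hall
    push Not at hall
    have hh : ∀ᵐ ζ, normSq (h ζ) = normSq (F ζ) * Real.exp (- φ ζ) := by
      filter_upwards [hfG] with ζ h1
      rw [hall ζ] at h1
      simp only [f, mul_eq_zero, ofReal_eq_zero] at h1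
      have h2 := h1.resolve_left (Real.exp_pos _).ne'
      have h3 : h ζ = - (((Real.exp (-(φ ζ / 2)) : ℝ) : ℂ) * F ζ) := by
        simp only [k] at h2
        linear_combination h2
      rw [h3, normSq_neg, map_mul, normSq_ofReal, ← Real.exp_add]
      rw [show -(φ ζ / 2) + -(φ ζ / 2) = - φ ζ by ring]
      ring
    rw [integral_congr_ae hh] at hnorm
    -- lower bound
    have hr3 : 0 < r₁ / 3 := by positivity
    have hFint : Integrable (fun ζ => normSq (F ζ) * Real.exp (- φ ζ)) := by
      have := hFm.integrable_norm_pow (p := 2) (by norm_num)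
      refine this.congr ?_
      filter_upwards with ζ
      show _ ^ 2 = _
      rw [← normSq_eq_norm_sq, map_mul, normSq_ofReal, ← Real.exp_add]
      rw [show -(φ ζ / 2) + -(φ ζ / 2) = - φ ζ by ring]
      ring
    have hlow : Real.exp (-(2 * S)) * Real.exp (-(M * (r₁ ^ 2 / 9))) * (Real.pi * (r₁ / 3) ^ 2) ≤
        ∫ ζ, normSq (F ζ) * Real.exp (- φ ζ) := by
      calc Real.exp (-(2 * S)) * Real.exp (-(M * (r₁ ^ 2 / 9))) * (Real.pi * (r₁ / 3) ^ 2)
          = ∫ ζ in closedBall (0:ℂ) (r₁ / 3), Real.exp (-(2 * S)) * Real.exp (-(M * (r₁ ^ 2 / 9))) := by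
            rw [setIntegral_const, volume_closedBall_real _ hr3, smul_eq_mul]
            ring
        _ ≤ ∫ ζ in closedBall (0:ℂ) (r₁ / 3), normSq (F ζ) * Real.exp (- φ ζ) := by
            apply setIntegral_mono_on
            · exact integrableOn_const (by simp [Complex.volume_closedBall, ENNReal.mul_eq_top])
            · exact hFint.integrableOn
            · exact measurableSet_closedBall
            · intro ζ hζ
              rw [mem_closedBall] at hζ
              rw [hF1 ζ (by linarith), map_one, one_mul, ← Real.exp_add]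
              apply Real.exp_le_exp.mpr
              show _ ≤ - wt u M ζ
              unfold wt
              have a1 := hS' ζ (by rw [mem_closedBall]; linarith)
              have a2 : normSq ζ ≤ r₁ ^ 2 / 9 := by
                rw [normSq_eq_norm_sq]
                rw [dist_zero_right] at hζ
                have := norm_nonneg ζ
                nlinarith
              have := mul_le_mul_of_nonneg_left a2 hM.le
              linarith
        _ ≤ ∫ ζ, normSq (F ζ) * Real.exp (- φ ζ) :=
            setIntegral_le_integral hFint (by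
              filter_upwards with ζ using mul_nonneg (normSq_nonneg _) (Real.exp_pos _).le)
    have hup : ∫ ζ, normSq (g₀ ζ) * Real.exp (- φ ζ) ≤
        T * Real.exp (-(M * (4 * r₁ ^ 2 / 9))) * (Real.pi * r₁ ^ 2) := by
      calc ∫ ζ, normSq (g₀ ζ) * Real.exp (- φ ζ)
          = ∫ ζ in closedBall (0:ℂ) r₁, normSq (g₀ ζ) * Real.exp (- φ ζ) := by
            rw [setIntegral_eq_integral_of_forall_compl_eq_zero]
            intro ζ hζ
            have : g₀ ζ = 0 := image_eq_zero_of_notMem_tsupport (fun h => hζ (hFs (hg₀s h)))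
            rw [this]
            simp
        _ ≤ ∫ ζ in closedBall (0:ℂ) r₁, T * Real.exp (-(M * (4 * r₁ ^ 2 / 9))) := by
            apply integral_mono_of_nonneg
            · filter_upwards with ζ using mul_nonneg (normSq_nonneg _) (Real.exp_pos _).le
            · exact integrableOn_const (by simp [Complex.volume_closedBall, ENNReal.mul_eq_top])
            · rw [EventuallyLE, ae_restrict_iff' measurableSet_closedBall]
              filter_upwards with ζ hζ
              by_cases h1 : dist ζ 0 ≤ 2 / 3 * r₁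
              · rw [hg₀0 ζ h1]
                simp only [map_zero, zero_mul]
                positivity
              · push Not at h1
                rw [dist_zero_right] at h1
                have a2 : 4 * r₁ ^ 2 / 9 ≤ normSq ζ := by
                  rw [normSq_eq_norm_sq]
                  have := norm_nonneg ζ
                  nlinarith
                have a3 := mul_le_mul_of_nonneg_left a2 hM.le
                have e1 : Real.exp (- φ ζ) = Real.exp (-(2 * u ζ)) * Real.exp (-(M * normSq ζ)) := by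
                  rw [← Real.exp_add]
                  congr 1
                  show - wt u M ζ = _
                  unfold wt
                  ring
                rw [e1, ← mul_assoc]
                have b1 := hT ζ hζ
                have b2 : Real.exp (-(M * normSq ζ)) ≤ Real.exp (-(M * (4 * r₁ ^ 2 / 9))) :=
                  Real.exp_le_exp.mpr (by linarith)
                exact mul_le_mul b1 b2 (Real.exp_pos _).le hT0
        _ = _ := by
            rw [setIntegral_const, volume_closedBall_real _ hr₁, smul_eq_mul]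
            ring
    have h5 : Real.exp (-(2 * S)) * Real.exp (-(M * (r₁ ^ 2 / 9))) * (Real.pi * (r₁ / 3) ^ 2) ≤
        1 / M * (T * Real.exp (-(M * (4 * r₁ ^ 2 / 9))) * (Real.pi * r₁ ^ 2)) := by
      refine hlow.trans (hnorm.trans ?_)
      gcongr
    have h6 : Real.exp (-(M * (4 * r₁ ^ 2 / 9))) ≤ Real.exp (-(M * (r₁ ^ 2 / 9))) := by
      apply Real.exp_le_exp.mpr
      have : 0 ≤ M * r₁ ^ 2 := by positivity
      nlinarith
    have h7 : 1 / M * (T * Real.exp (-(M * (4 * r₁ ^ 2 / 9))) * (Real.pi * r₁ ^ 2)) ≤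
        T / M * (Real.exp (-(M * (r₁ ^ 2 / 9))) * (Real.pi * r₁ ^ 2)) := by
      have : 1 / M * (T * Real.exp (-(M * (4 * r₁ ^ 2 / 9))) * (Real.pi * r₁ ^ 2)) =
        T / M * (Real.exp (-(M * (4 * r₁ ^ 2 / 9))) * (Real.pi * r₁ ^ 2)) := by ring
      rw [this]
      have := Real.pi_pos
      gcongr
    have h8 : 0 < Real.exp (-(M * (r₁ ^ 2 / 9))) * (Real.pi * r₁ ^ 2) := by
      have := Real.pi_pos
      positivity
    have h9 := mul_lt_mul_of_pos_right hMT h8
    have h10 : Real.exp (-(2 * S)) * Real.exp (-(M * (r₁ ^ 2 / 9))) * (Real.pi * (r₁ / 3) ^ 2) =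
      Real.exp (-(2 * S)) / 9 * (Real.exp (-(M * (r₁ ^ 2 / 9))) * (Real.pi * r₁ ^ 2)) := by ring
    linarith
  · intro z ε B hε hB
    have e1 : G z = ∫ ζ, ker z ε ζ • f ζ := by
      rw [entire_avg hGd z hε]
      apply integral_congr_ae
      filter_upwards [hfG] with ζ hζ
      rw [hζ]
    rw [e1]
    exact hest z ε B hε hB

end Pool.Agent.Work.MP_06ac62_an
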