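import Pool.Agent.Work.MP_06ac62_an.W4

open MeasureTheory Complex ComplexConjugate Metric Filter Topology

namespace Pool.Agent.Work.MP_06ac62_an

lemma eventually_diff {u : ℂ → ℝ} {z : ℂ} (h : ContDiffAt ℝ 2 u z) :
    ∀ᶠ x in 𝓝 z, DifferentiableAt ℝ u x := by
  filter_upwards [h.eventually (by simp)] with x hx
  exact hx.differentiableAt (by norm_num)

lemma diffAt_fderiv_real {u : ℂ → ℝ} {z : ℂ} (h : ContDiffAt ℝ 2 u z) (v : ℂ) :
    DifferentiableAt ℝ (fun x => fderiv ℝ u x v) z :=
  ((h.fderiv_right (m := 1) (by norm_num)).differentiableAt (by norm_num)).clm_apply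
      (differentiableAt_const v)

lemma lap_add {u v : ℂ → ℝ} {z : ℂ} (hu : ContDiffAt ℝ 2 u z) (hv : ContDiffAt ℝ 2 v z) :
    lap (fun x => u x + v x) z = lap u z + lap v z := by
  have h : ∀ w : ℂ, (fun x => fderiv ℝ (fun x => u x + v x) x w) =ᶠ[𝓝 z]
      fun x => fderiv ℝ u x w + fderiv ℝ v x w := by
    intro w
    filter_upwards [eventually_diff hu, eventually_diff hv] with x h1 h2
    rw [fderiv_fun_add h1 h2]
    rfl
  unfold lap
  rw [(h 1).fderiv_eq, (h I).fderiv_eq,
    fderiv_fun_add (diffAt_fderiv_real hu 1) (diffAt_fderiv_real hv 1),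
    fderiv_fun_add (diffAt_fderiv_real hu I) (diffAt_fderiv_real hv I)]
  simp only [_root_.add_apply]
  ring

lemma lap_const_mul {u : ℂ → ℝ} {z : ℂ} (hu : ContDiffAt ℝ 2 u z) (c : ℝ) :
    lap (fun x => c * u x) z = c * lap u z := by
  have h : ∀ w : ℂ, (fun x => fderiv ℝ (fun x => c * u x) x w) =ᶠ[𝓝 z]
      fun x => c * fderiv ℝ u x w := by
    intro w
    filter_upwards [eventually_diff hu] with x h1
    rw [fderiv_const_mul h1]
    rfl
  unfold lap
  rw [(h 1).fderiv_eq, (h I).fderiv_eq,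
    fderiv_const_mul (diffAt_fderiv_real hu 1), fderiv_const_mul (diffAt_fderiv_real hu I)]
  simp only [_root_.smul_apply, smul_eq_mul]
  ring

lemma lap_congr {u v : ℂ → ℝ} {z : ℂ} (h : u =ᶠ[𝓝 z] v) : lap u z = lap v z := by
  have h' : ∀ w : ℂ, (fun x => fderiv ℝ u x w) =ᶠ[𝓝 z] fun x => fderiv ℝ v x w := by
    intro w
    filter_upwards [h.eventuallyEq_nhds] with x hx
    rw [hx.fderiv_eq]
  unfold lap
  rw [(h' 1).fderiv_eq, (h' I).fderiv_eq]

/-- Laplacian of a function of the squared modulus of a holomorphic function -/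
lemma lap_comp_normSq {h : ℝ → ℝ} {F : ℂ → ℂ} {z : ℂ} (hF : ∀ᶠ x in 𝓝 z, DifferentiableAt ℂ F x)
    (hh : ContDiffAt ℝ 2 h (normSq (F z))) :
    lap (fun x => h (normSq (F x))) z =
      4 * (deriv h (normSq (F z)) + normSq (F z) * deriv (deriv h) (normSq (F z))) *
        normSq (deriv F z) := by
  have hFan : AnalyticAt ℂ F z := by
    rw [analyticAt_iff_eventually_differentiableAt]
    exact hF
  have hFc : ContinuousAt F z := hFan.continuousAt
  have hF' : DifferentiableAt ℂ (deriv F) z := hFan.deriv.differentiableAt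
  -- derivative of normSq ∘ F
  have d1 : ∀ x, DifferentiableAt ℂ F x → HasFDerivAt (fun x => normSq (F x))
      ((2 * (F x).re) • (reCLM.comp ((ContinuousLinearMap.toSpanSingleton ℂ (deriv F x)).restrictScalars ℝ)) +
        (2 * (F x).im) • (imCLM.comp ((ContinuousLinearMap.toSpanSingleton ℂ (deriv F x)).restrictScalars ℝ))) x := by
    intro x hx
    have h1 : HasFDerivAt F ((ContinuousLinearMap.toSpanSingleton ℂ (deriv F x)).restrictScalars ℝ) x :=
      hx.hasDerivAt.hasFDerivAt.restrictScalars ℝ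
    have h2 : HasFDerivAt (fun w : ℂ => normSq w) ((2 * (F x).re) • reCLM + (2 * (F x).im) • imCLM) (F x) := by
      simpa using hasFDerivAt_normSq_sub 0 (F x)
    have h3 := h2.comp x h1
    refine h3.congr_fderiv ?_
    ext
    simp
  have hev : ∀ᶠ x in 𝓝 z, DifferentiableAt ℝ h (normSq (F x)) := by
    have h1 : ∀ᶠ s in 𝓝 (normSq (F z)), ContDiffAt ℝ 2 h s := hh.eventually (by simp)
    have h2 : Tendsto (fun x => normSq (F x)) (𝓝 z) (𝓝 (normSq (F z))) :=
      continuous_normSq.continuousAt.comp hFc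
    filter_upwards [h2.eventually h1] with x hx
    exact hx.differentiableAt (by norm_num)
  have d2 : ∀ v : ℂ, (fun x => fderiv ℝ (fun x => h (normSq (F x))) x v) =ᶠ[𝓝 z]
      fun x => deriv h (normSq (F x)) * (2 * (F x).re * (deriv F x * v).re +
        2 * (F x).im * (deriv F x * v).im) := by
    intro v
    filter_upwards [hF, hev] with x hx1 hx2
    have h1 := hx2.hasDerivAt.comp_hasFDerivAt x (d1 x hx1)
    have h2 : fderiv ℝ (fun x => h (normSq (F x))) x = _ := h1.fderiv
    rw [h2]
    simp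
    ring
  -- real derivatives at z
  have hFr : HasFDerivAt F ((ContinuousLinearMap.toSpanSingleton ℂ (deriv F z)).restrictScalars ℝ) z :=
    hFan.differentiableAt.hasDerivAt.hasFDerivAt.restrictScalars ℝ
  have hF'r : HasFDerivAt (deriv F)
      ((ContinuousLinearMap.toSpanSingleton ℂ (deriv (deriv F) z)).restrictScalars ℝ) z :=
    hF'.hasDerivAt.hasFDerivAt.restrictScalars ℝ
  have hdh : HasDerivAt (deriv h) (deriv (deriv h) (normSq (F z))) (normSq (F z)) := by
    have h1 : ContDiffAt ℝ 1 (deriv h) (normSq (F z)) := by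
      have h2 : ContDiffAt ℝ 1 (fderiv ℝ h) (normSq (F z)) := hh.fderiv_right (by norm_num)
      exact h2.clm_apply contDiffAt_const
    exact (h1.differentiableAt (by norm_num)).hasDerivAt
  have d3 : ∀ v : ℂ, fderiv ℝ (fun x => deriv h (normSq (F x)) * (2 * (F x).re * (deriv F x * v).re +
        2 * (F x).im * (deriv F x * v).im)) z v =
      deriv (deriv h) (normSq (F z)) * (2 * (F z).re * (deriv F z * v).re +
        2 * (F z).im * (deriv F z * v).im) ^ 2 +
      deriv h (normSq (F z)) * (2 * ((deriv F z * v).re) ^ 2 + 2 * ((deriv F z * v).im) ^ 2 +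
        2 * (F z).re * (deriv (deriv F) z * v * v).re + 2 * (F z).im * (deriv (deriv F) z * v * v).im) := by
    intro v
    have a0 := hdh.comp_hasFDerivAt z (d1 z hFan.differentiableAt)
    have a1 : HasFDerivAt (fun x => deriv h (normSq (F x))) _ z := a0
    have a2 : HasFDerivAt (fun x => (F x).re) (reCLM.comp
        ((ContinuousLinearMap.toSpanSingleton ℂ (deriv F z)).restrictScalars ℝ)) z :=
      (reCLM : ℂ →L[ℝ] ℝ).hasFDerivAt.comp z hFr
    have a3 : HasFDerivAt (fun x => (F x).im) (imCLM.comp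
        ((ContinuousLinearMap.toSpanSingleton ℂ (deriv F z)).restrictScalars ℝ)) z :=
      (imCLM : ℂ →L[ℝ] ℝ).hasFDerivAt.comp z hFr
    have a4 : HasFDerivAt (fun x => deriv F x * v)
        ((ContinuousLinearMap.toSpanSingleton ℂ (deriv (deriv F) z * v)).restrictScalars ℝ) z := by
      have : HasDerivAt (fun x => deriv F x * v) (deriv (deriv F) z * v) z :=
        hF'.hasDerivAt.mul_const v
      exact this.hasFDerivAt.restrictScalars ℝ
    have a5 : HasFDerivAt (fun x => (deriv F x * v).re) (reCLM.comp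
        ((ContinuousLinearMap.toSpanSingleton ℂ (deriv (deriv F) z * v)).restrictScalars ℝ)) z :=
      (reCLM : ℂ →L[ℝ] ℝ).hasFDerivAt.comp z a4
    have a6 : HasFDerivAt (fun x => (deriv F x * v).im) (imCLM.comp
        ((ContinuousLinearMap.toSpanSingleton ℂ (deriv (deriv F) z * v)).restrictScalars ℝ)) z :=
      (imCLM : ℂ →L[ℝ] ℝ).hasFDerivAt.comp z a4
    have a7 := a1.mul (((a2.const_mul 2).mul a5).add ((a3.const_mul 2).mul a6))
    have a8 : fderiv ℝ (fun x => deriv h (normSq (F x)) * (2 * (F x).re * (deriv F x * v).re +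
        2 * (F x).im * (deriv F x * v).im)) z = _ := a7.fderiv
    rw [a8]
    simp only [_root_.add_apply, _root_.smul_apply, ContinuousLinearMap.comp_apply, smul_eq_mul,
      ContinuousLinearMap.coe_restrictScalars', ContinuousLinearMap.toSpanSingleton_apply,
      reCLM_apply, imCLM_apply, Pi.add_apply, Pi.mul_apply]
    rw [mul_comm v (deriv F z), mul_comm v (deriv (deriv F) z * v)]
    ring
  unfold lap
  rw [(d2 1).fderiv_eq, (d2 I).fderiv_eq, d3, d3]
  simp only [mul_one, mul_re, mul_im, I_re, I_im, mul_zero, zero_sub, add_zero, normSq_apply]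
  ring

end Pool.Agent.Work.MP_06ac62_an
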