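import Pool.Agent.Work.MP_06ac62_an.PT

open Complex Metric Filter Topology ComplexConjugate

namespace Pool.Agent.Work.MP_06ac62_an

/-- The rescaled function `ζ ↦ f (r e^{iα} ζ^{2/σ})`. -/
noncomputable def Hf (f : ℂ → ℂ) (r σ α : ℝ) (ζ : ℂ) : ℂ :=
  f (r * exp (α * I + (2 / σ : ℝ) * log ζ))

lemma norm_arg_Hf {r σ α : ℝ} (hr : 0 < r) (ζ : ℂ) :
    ‖(r : ℂ) * exp (α * I + (2 / σ : ℝ) * log ζ)‖ = r * Real.exp (2 / σ * Real.log ‖ζ‖) := by
  rw [norm_mul, norm_real, Real.norm_eq_abs, abs_of_pos hr, norm_exp, add_re, re_ofReal_mul,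
    re_ofReal_mul, I_re, log_re]
  simp

/-- the standing hypotheses on `f`, `r`, `A` -/
structure LBData (f : ℂ → ℂ) (ε σ r A r₀ m : ℝ) : Prop where
  hf : Differentiable ℂ f
  hε : 0 < ε
  hε1 : ε ≤ 1
  hσ : 1 ≤ σ
  hr₀ : 0 < r₀
  hr₀1 : r₀ < 1
  hm : 0 < m
  hmin : ∀ z, ‖z‖ = r₀ → m ≤ ‖f z‖
  hr : 0 < r
  hr1 : 1 ≤ r * Real.exp (2 / σ * Real.log (ε / (150 * σ)))
  hbd : ∀ s : ℝ, 2 / σ * Real.log (ε / (150 * σ)) ≤ s → s ≤ 2 / σ * Real.log 2 →
    ∀ z, ‖z‖ = r * Real.exp s → ‖f z‖ ≤ Real.exp (A * Real.exp (σ * s))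
  hA : 1000 * σ ^ 2 * (1 + |Real.log m|) / ε ^ 2 ≤ A

namespace LBData

variable {f : ℂ → ℂ} {ε σ r A r₀ m : ℝ}

lemma τpos (D : LBData f ε σ r A r₀ m) : 0 < ε / (150 * σ) := by
  have := D.hε
  have := D.hσ
  positivity

lemma τle (D : LBData f ε σ r A r₀ m) : ε / (150 * σ) ≤ 1 / 150 := by
  have h1 := D.hσ
  have h2 := D.hε1
  rw [div_le_div_iff₀ (by positivity) (by norm_num)]
  nlinarith

lemma Apos (D : LBData f ε σ r A r₀ m) : 1000 ≤ A := by
  have h1 := D.hσ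
  have h2 := D.hε1
  have h3 := D.hε
  refine le_trans ?_ D.hA
  rw [le_div_iff₀ (by positivity)]
  have h4 : 0 ≤ |Real.log m| := abs_nonneg _
  have h5 : ε ^ 2 ≤ 1 := by nlinarith
  have h6 : 1 ≤ σ ^ 2 := by nlinarith
  nlinarith

lemma H_bound (D : LBData f ε σ r A r₀ m) (α : ℝ) {ζ : ℂ} (h1 : ε / (150 * σ) ≤ ‖ζ‖)
    (h2 : ‖ζ‖ ≤ 2) : ‖Hf f r σ α ζ‖ ≤ Real.exp (A * ‖ζ‖ ^ 2) := by
  have hσ := D.hσ
  have hζ : 0 < ‖ζ‖ := lt_of_lt_of_le D.τpos h1
  have key := D.hbd (2 / σ * Real.log ‖ζ‖) (by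
    have := Real.log_le_log D.τpos h1
    gcongr) (by
    have := Real.log_le_log hζ h2
    gcongr) _ (norm_arg_Hf D.hr ζ (α := α))
  unfold Hf
  have e : Real.exp (σ * (2 / σ * Real.log ‖ζ‖)) = ‖ζ‖ ^ 2 := by
    have : σ * (2 / σ * Real.log ‖ζ‖) = ((2:ℕ):ℝ) * Real.log ‖ζ‖ := by
      push_cast
      field_simp
    rw [this, Real.exp_nat_mul, Real.exp_log hζ]
  rwa [e] at key

/-- A2: there is no deep arc. -/
lemma no_deep_arc (D : LBData f ε σ r A r₀ m) (α : ℝ)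
    (h : ∀ φ : ℝ, |φ| ≤ Real.pi / 6 →
      ‖Hf f r σ α ((3 * (ε / (150 * σ)) : ℝ) * exp (φ * I))‖ ≤
        Real.exp (-(ε * (ε / (150 * σ)) * A))) : False := by
  have hσ := D.hσ
  have hσ0 : 0 < σ := by linarith
  have hε := D.hε
  have hpi := Real.pi_pos
  set τ : ℝ := ε / (150 * σ) with hτ
  have hτ0 : 0 < τ := D.τpos
  have hτ1 : τ ≤ 1 / 150 := D.τle
  have hA0 : 0 < A := by linarith [D.Apos]
  set N : ℕ := ⌈3 * σ⌉₊ with hN
  have hN1 : 3 * σ ≤ N := Nat.le_ceil _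
  have hN2 : (N:ℝ) < 3 * σ + 1 := Nat.ceil_lt_add_one (by positivity)
  have hN0 : 0 < N := Nat.ceil_pos.mpr (by positivity)
  have hNr : (0:ℝ) < N := by exact_mod_cast hN0
  set r' : ℝ := r * Real.exp (2 / σ * Real.log (3 * τ)) with hr'
  have hr'1 : r₀ < r' := by
    have h1 : 1 ≤ r' := by
      refine D.hr1.trans ?_
      rw [hr']
      have := D.hr
      have h2 : Real.log τ ≤ Real.log (3 * τ) := Real.log_le_log hτ0 (by linarith)
      gcongr
    linarith [D.hr₀1]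
  have key := product_trick D.hf (a := 9 * τ ^ 2 * A) (X := ε * τ * A) (β := α) hN0 D.hr₀ hr'1
    D.hm.le D.hmin ?_ ?_
  · -- contradiction
    have h1 := Real.log_le_log (pow_pos D.hm N) key
    rw [Real.log_pow, Real.log_exp] at h1
    have h2 : ((N:ℝ) - 1) * (9 * τ ^ 2 * A) ≤ 3 * σ * (9 * τ ^ 2 * A) := by
      apply mul_le_mul_of_nonneg_right _ (by positivity)
      linarith
    have h3 : 3 * σ * (9 * τ ^ 2 * A) = 27 / 150 * (ε * τ * A) := by
      have : σ * τ = ε / 150 := by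
        rw [hτ]
        field_simp
      calc 3 * σ * (9 * τ ^ 2 * A) = 27 * (σ * τ) * (τ * A) := by ring
        _ = _ := by rw [this]; ring
    have h4 : -(4 * σ * |Real.log m|) ≤ N * Real.log m := by
      have h5 := neg_abs_le (Real.log m)
      have h6 : (N:ℝ) * (-|Real.log m|) ≤ N * Real.log m := by gcongr
      have h7 : (N:ℝ) * |Real.log m| ≤ 4 * σ * |Real.log m| := by
        apply mul_le_mul_of_nonneg_right _ (abs_nonneg _)
        linarith
      linarith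
    have h8 : 123 / 150 * (ε * τ * A) ≤ 4 * σ * |Real.log m| := by linarith
    have h9 : ε * τ * A = ε ^ 2 * A / (150 * σ) := by
      rw [hτ]
      field_simp
    have h10 := D.hA
    rw [div_le_iff₀ (by positivity)] at h10
    have h11 : 1000 / 150 * σ * (1 + |Real.log m|) ≤ ε * τ * A := by
      rw [h9, le_div_iff₀ (by positivity)]
      nlinarith
    have h12 := abs_nonneg (Real.log m)
    nlinarith
  · intro z hz
    have h1 := D.hbd (2 / σ * Real.log (3 * τ)) (by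
        have : Real.log τ ≤ Real.log (3 * τ) := Real.log_le_log hτ0 (by linarith)
        gcongr) (by
        have : Real.log (3 * τ) ≤ Real.log 2 := Real.log_le_log (by positivity) (by linarith)
        gcongr) z hz
    have e : Real.exp (σ * (2 / σ * Real.log (3 * τ))) = (3 * τ) ^ 2 := by
      have : σ * (2 / σ * Real.log (3 * τ)) = ((2:ℕ):ℝ) * Real.log (3 * τ) := by
        push_cast
        field_simp
      rw [this, Real.exp_nat_mul, Real.exp_log (by positivity)]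
    rw [e] at h1
    refine h1.trans (le_of_eq ?_)
    congr 1
    ring
  · intro φ hφ
    have h1 : |σ / 2 * (φ - α)| ≤ Real.pi / 6 := by
      rw [abs_mul, abs_of_pos (by positivity : 0 < σ / 2)]
      calc σ / 2 * |φ - α| ≤ σ / 2 * (Real.pi / N) := by gcongr
        _ ≤ σ / 2 * (Real.pi / (3 * σ)) := by gcongr
        _ = Real.pi / 6 := by field_simp; norm_num
    have h2 := h _ h1
    unfold Hf at h2
    have h3 : log ((3 * τ : ℝ) * exp ((σ / 2 * (φ - α) : ℝ) * I)) =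
        (Real.log (3 * τ) : ℝ) + (σ / 2 * (φ - α) : ℝ) * I := by
      have e1 : ((3 * τ : ℝ) : ℂ) = exp ((Real.log (3 * τ) : ℝ)) := by
        rw [← ofReal_exp, Real.exp_log (by positivity)]
      rw [e1, ← exp_add]
      have h4 := abs_le.mp h1
      apply log_exp
      · rw [add_im, ofReal_im, im_ofReal_mul, I_im]
        linarith
      · rw [add_im, ofReal_im, im_ofReal_mul, I_im]
        linarith
    rw [h3] at h2
    have e2 : (r : ℂ) * exp (α * I + (2 / σ : ℝ) * ((Real.log (3 * τ) : ℝ) +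
        (σ / 2 * (φ - α) : ℝ) * I)) = r' * exp (φ * I) := by
      have e3 : (r' : ℂ) = r * exp ((2 / σ * Real.log (3 * τ) : ℝ) : ℂ) := by
        rw [hr']
        push_cast
        rfl
      rw [e3, mul_assoc (r:ℂ) (exp _) (exp _), ← exp_add]
      congr 2
      push_cast
      have : (σ : ℂ) ≠ 0 := by exact_mod_cast hσ0.ne'
      field_simp
      ring
    rw [e2] at h2
    exact h2

end LBData

end Pool.Agent.Work.MP_06ac62_an
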