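import Pool.Agent.Work.MP_06ac62_an.LB1

open Complex Metric Filter Topology ComplexConjugate

namespace Pool.Agent.Work.MP_06ac62_an

lemma P_facts {τ φ : ℝ} (hτ : 0 < τ) (hτ1 : τ ≤ 1 / 150) (hφ : |φ| ≤ Real.pi / 6) :
    3 * τ ≤ (1 - τ) ^ 2 - normSq (((3 * τ : ℝ) : ℂ) * exp (φ * I) - 1) ∧
      ‖((3 * τ : ℝ) : ℂ) * exp (φ * I)‖ = 3 * τ := by
  constructor
  · have hcos : 866 / 1000 ≤ Real.cos φ := by
      have h1 : Real.cos (Real.pi / 6) ≤ Real.cos φ := by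
        rw [← Real.cos_abs φ]
        apply Real.cos_le_cos_of_nonneg_of_le_pi (abs_nonneg _) _ hφ
        linarith [Real.pi_pos]
      rw [Real.cos_pi_div_six] at h1
      have h2 : (1732 / 1000 : ℝ) ≤ Real.sqrt 3 := by
        apply Real.le_sqrt_of_sq_le
        norm_num
      linarith
    have e : normSq (((3 * τ : ℝ) : ℂ) * exp (φ * I) - 1) = 9 * τ ^ 2 - 6 * τ * Real.cos φ + 1 := by
      rw [normSq_apply, sub_re, sub_im, re_ofReal_mul, im_ofReal_mul, exp_ofReal_mul_I_re,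
        exp_ofReal_mul_I_im, one_re, one_im]
      have := Real.sin_sq_add_cos_sq φ
      linear_combination (9 * τ ^ 2) * this
    rw [e]
    have h3 : 6 * τ * (866 / 1000) ≤ 6 * τ * Real.cos φ := by gcongr
    nlinarith
  · rw [norm_mul, norm_exp_ofReal_mul_I, norm_real, Real.norm_eq_abs, abs_of_pos (by positivity),
      mul_one]

lemma normSq_sub_one (P : ℂ) : normSq (P - 1) = normSq P - 2 * P.re + 1 := by
  rw [normSq_apply, normSq_apply]
  simp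
  ring

lemma diff_multiset_prod (s : Multiset ℂ) (F : ℂ → ℂ → ℂ) (hF : ∀ a, Differentiable ℂ (F a)) :
    Differentiable ℂ (fun ζ => (s.map (fun a => F a ζ)).prod) := by
  induction s using Multiset.induction with
  | empty => simp
  | cons a s ih =>
    simp only [Multiset.map_cons, Multiset.prod_cons]
    exact (hF a).mul ih

lemma norm_prod_le_pow {s : Multiset ℂ} {f g : ℂ → ℂ} {c : ℝ} (hc : 0 ≤ c)
    (h : ∀ a ∈ s, ‖f a‖ ≤ c * ‖g a‖) :
    ‖(s.map f).prod‖ ≤ c ^ (Multiset.card s) * ‖(s.map g).prod‖ := by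
  induction s using Multiset.induction with
  | empty => simp
  | cons a s ih =>
    simp only [Multiset.map_cons, Multiset.prod_cons, Multiset.card_cons, norm_mul, pow_succ]
    have h1 := h a (Multiset.mem_cons_self a s)
    have h2 := ih (fun b hb => h b (Multiset.mem_cons_of_mem hb))
    calc ‖f a‖ * ‖(s.map f).prod‖ ≤ (c * ‖g a‖) * (c ^ (Multiset.card s) * ‖(s.map g).prod‖) :=
          mul_le_mul h1 h2 (norm_nonneg _) (by positivity)
      _ = _ := by ring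

lemma blaschke_circle {ρ : ℝ} (hρ : 0 < ρ) {w b : ℂ} (hw : ‖w‖ = ρ) :
    ‖(ρ ^ 2 - conj b * w) / ρ‖ = ‖w - b‖ := by
  have h1 : (ρ : ℂ) ^ 2 = conj w * w := by
    rw [← normSq_eq_conj_mul_self, normSq_eq_norm_sq, hw]
    push_cast
    rfl
  rw [h1, ← sub_mul, norm_div, norm_mul, ← map_sub, norm_conj, hw, norm_real, Real.norm_eq_abs,
    abs_of_pos hρ]
  field_simp

lemma blaschke_inside {ρ δ q : ℝ} (hρ : 98 / 100 ≤ ρ) (hρ1 : ρ ≤ 1) (hδ : 0 ≤ δ)
    (hδ1 : δ ≤ 1 / 10) {w b : ℂ} (hq : q = ρ ^ 2 - normSq w) (hq0 : 0 ≤ q) (hb : ‖b‖ ≤ δ) :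
    ‖w - b‖ ≤ Real.exp (-((1 - 3 * δ) * q / 2)) * ‖(ρ ^ 2 - conj b * w) / ρ‖ := by
  have hρ0 : 0 < ρ := by linarith
  have e1 : normSq (ρ ^ 2 - conj b * w) - ρ ^ 2 * normSq (w - b) =
      (ρ ^ 2 - normSq b) * (ρ ^ 2 - normSq w) := by
    simp only [normSq_apply, sub_re, sub_im, mul_re, mul_im, conj_re, conj_im]
    have h1 : ((ρ : ℂ) ^ 2).re = ρ ^ 2 := by rw [← ofReal_pow, ofReal_re]
    have h2 : ((ρ : ℂ) ^ 2).im = 0 := by rw [← ofReal_pow, ofReal_im]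
    rw [h1, h2]
    ring
  have hwρ : ‖w‖ ≤ ρ := by
    rw [normSq_eq_norm_sq] at hq
    nlinarith [norm_nonneg w]
  have hn : ‖(ρ : ℂ) ^ 2 - conj b * w‖ ≤ ρ ^ 2 + δ * ρ := by
    calc ‖(ρ : ℂ) ^ 2 - conj b * w‖ ≤ ‖(ρ : ℂ) ^ 2‖ + ‖conj b * w‖ := norm_sub_le _ _
      _ ≤ ρ ^ 2 + δ * ρ := by
        rw [norm_pow, norm_real, Real.norm_eq_abs, abs_of_pos hρ0, norm_mul, norm_conj]
        gcongr
  have hbq : normSq b ≤ δ ^ 2 := by
    rw [normSq_eq_norm_sq]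
    gcongr
  set T : ℝ := normSq (ρ ^ 2 - conj b * w) with hT
  have hT1 : T ≤ (ρ ^ 2 + δ * ρ) ^ 2 := by
    rw [hT, normSq_eq_norm_sq]
    gcongr
  have hT0 : 0 ≤ T := normSq_nonneg _
  have h3 : (1 - 3 * δ) * (ρ ^ 2 + δ * ρ) ^ 2 ≤ ρ ^ 2 - δ ^ 2 := by
    have e2 : (ρ ^ 2 + δ * ρ) ^ 2 = ρ ^ 2 * (ρ + δ) ^ 2 := by ring
    have h4 : ρ ^ 2 * (ρ + δ) ^ 2 ≤ (ρ + δ) ^ 2 := by
      have : ρ ^ 2 ≤ 1 := by nlinarith
      nlinarith [sq_nonneg (ρ + δ)]
    rw [e2]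
    have h5 : (1 - 3 * δ) * (ρ + δ) ≤ ρ - δ := by nlinarith
    calc (1 - 3 * δ) * (ρ ^ 2 * (ρ + δ) ^ 2) ≤ (1 - 3 * δ) * (ρ + δ) ^ 2 := by
          apply mul_le_mul_of_nonneg_left h4
          linarith
      _ = ((1 - 3 * δ) * (ρ + δ)) * (ρ + δ) := by ring
      _ ≤ (ρ - δ) * (ρ + δ) := by
          apply mul_le_mul_of_nonneg_right h5
          linarith
      _ = ρ ^ 2 - δ ^ 2 := by ring
  have h6 : ρ ^ 2 * normSq (w - b) ≤ (1 - (1 - 3 * δ) * q) * T := by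
    have h7 : (1 - 3 * δ) * q * T ≤ (ρ ^ 2 - normSq b) * q := by
      calc (1 - 3 * δ) * q * T = q * ((1 - 3 * δ) * T) := by ring
        _ ≤ q * ((1 - 3 * δ) * (ρ ^ 2 + δ * ρ) ^ 2) := by
            apply mul_le_mul_of_nonneg_left _ hq0
            apply mul_le_mul_of_nonneg_left hT1
            linarith
        _ ≤ q * (ρ ^ 2 - δ ^ 2) := by gcongr
        _ ≤ q * (ρ ^ 2 - normSq b) := by gcongr
        _ = _ := by ring
    rw [← hq] at e1
    linarith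
  have h8 : (1 - (1 - 3 * δ) * q) ≤ Real.exp (-((1 - 3 * δ) * q)) := by
    have := Real.add_one_le_exp (-((1 - 3 * δ) * q))
    linarith
  have h9 : (ρ * ‖w - b‖) ^ 2 ≤ (Real.exp (-((1 - 3 * δ) * q / 2)) * ‖(ρ : ℂ) ^ 2 - conj b * w‖) ^ 2 := by
    rw [mul_pow, mul_pow, ← normSq_eq_norm_sq, ← normSq_eq_norm_sq, ← Real.exp_nat_mul]
    have e3 : ((2:ℕ):ℝ) * -((1 - 3 * δ) * q / 2) = -((1 - 3 * δ) * q) := by
      push_cast
      ring
    rw [e3]
    calc ρ ^ 2 * normSq (w - b) ≤ (1 - (1 - 3 * δ) * q) * T := h6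
      _ ≤ Real.exp (-((1 - 3 * δ) * q)) * T := by gcongr
  have h10 := le_of_sq_le_sq h9 (by positivity)
  rw [norm_div, norm_real, Real.norm_eq_abs, abs_of_pos hρ0, mul_div_assoc', le_div_iff₀ hρ0]
  linarith

lemma ball_slit {ζ : ℂ} (h : ζ ∈ ball (1:ℂ) 1) : ζ ∈ slitPlane := by
  rw [mem_ball, dist_eq_norm] at h
  left
  have h1 := abs_re_le_norm (ζ - 1)
  have h2 := neg_abs_le (ζ - 1).re
  rw [sub_re, one_re] at h1 h2
  linarith

lemma diff_Hf {f : ℂ → ℂ} (hf : Differentiable ℂ f) (r σ α : ℝ) {ζ : ℂ} (h : ζ ∈ slitPlane) :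
    DifferentiableAt ℂ (Hf f r σ α) ζ := by
  unfold Hf
  apply (hf _).comp
  exact ((((differentiableAt_log h).const_mul _).const_add _).cexp).const_mul _

namespace LBData

variable {f : ℂ → ℂ} {ε σ r A r₀ m : ℝ}

/-- final contradiction from too much mass near `1` -/
lemma contra_of_mass (D : LBData f ε σ r A r₀ m) (α : ℝ) {μ : ℝ} (hμ : (2 + ε) * A ≤ μ)
    (h : ∀ P : ℂ, ‖P‖ = 3 * (ε / (150 * σ)) →
      3 * (ε / (150 * σ)) ≤ (1 - ε / (150 * σ)) ^ 2 - normSq (P - 1) →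
      ‖Hf f r σ α P‖ ≤ Real.exp (A * (‖P‖ ^ 2 + ((1 - ε / (150 * σ)) ^ 2 - normSq (P - 1))) -
        μ / 2 * ((1 - ε / (150 * σ)) ^ 2 - normSq (P - 1)))) : False := by
  have hσ := D.hσ
  have hε := D.hε
  have hA0 : 0 < A := by linarith [D.Apos]
  apply D.no_deep_arc α
  intro φ hφ
  obtain ⟨h1, h2⟩ := P_facts D.τpos D.τle hφ
  refine (h _ h2 h1).trans (Real.exp_le_exp.mpr ?_)
  rw [h2]
  set τ : ℝ := ε / (150 * σ) with hτ
  have hτ0 : 0 < τ := D.τpos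
  set q : ℝ := (1 - τ) ^ 2 - normSq (((3 * τ : ℝ) : ℂ) * exp (φ * I) - 1) with hq
  have h3 : (2 + ε) * A / 2 * q ≤ μ / 2 * q := by
    apply mul_le_mul_of_nonneg_right _ (by linarith)
    linarith
  have h4 : ε * A / 2 * (3 * τ) ≤ ε * A / 2 * q := by gcongr
  have h5 : 9 * τ ≤ 3 / 50 * ε := by
    rw [hτ]
    rw [show 9 * (ε / (150 * σ)) = 3 / 50 * (ε / σ) by field_simp; norm_num]
    have : ε / σ ≤ ε := div_le_self hε.le hσ
    linarith
  have h6 : 9 * τ * (τ * A) ≤ 3 / 50 * ε * (τ * A) := by gcongr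
  have h7 : 0 ≤ ε * (τ * A) := by positivity
  nlinarith

/-- A3: bound for the number of zeros. -/
lemma zeros_bound (D : LBData f ε σ r A r₀ m) (α : ℝ) {δ : ℝ} (hδ : 0 ≤ δ) (hδ1 : δ ≤ 1 / 10)
    {s : Multiset ℂ} (hs : ∀ a ∈ s, ‖a - 1‖ ≤ δ) {g : ℂ → ℂ} (hg : DifferentiableOn ℂ g (ball 1 1))
    (hfac : ∀ ζ ∈ ball (1:ℂ) 1, Hf f r σ α ζ = (s.map (fun a => ζ - a)).prod * g ζ) :
    (Multiset.card s : ℝ) * (1 - 3 * δ) < (2 + ε) * A := by
  by_contra hcon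
  push Not at hcon
  apply D.contra_of_mass α hcon
  intro P hP1 hP2
  have hτ0 := D.τpos
  have hτ1 := D.τle
  set τ : ℝ := ε / (150 * σ) with hτ
  set ρ : ℝ := 1 - τ with hρ
  set q : ℝ := ρ ^ 2 - normSq (P - 1) with hq
  have hρ1 : ρ < 1 := by linarith
  have hρ98 : 98 / 100 ≤ ρ := by linarith
  have hρ0 : 0 < ρ := by linarith
  let Bl : ℂ → ℂ := fun ζ => (s.map (fun a => (ρ ^ 2 - conj (a - 1) * (ζ - 1)) / ρ)).prod
  have hBl : Differentiable ℂ Bl := by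
    apply diff_multiset_prod s (fun a ζ => (ρ ^ 2 - conj (a - 1) * (ζ - 1)) / ρ)
    intro a
    fun_prop
  let K : ℂ → ℂ := fun ζ => g ζ * Bl ζ * exp (-(A * (2 * ζ - 1 + ρ ^ 2)))
  have hKd : DifferentiableOn ℂ K (ball 1 1) := by
    apply (hg.mul hBl.differentiableOn).mul
    apply Differentiable.differentiableOn
    fun_prop
  have hKc : DiffContOnCl ℂ K (ball 1 ρ) :=
    hKd.diffContOnCl_ball (closedBall_subset_ball hρ1)
  have hnormexp : ∀ ζ : ℂ, ‖exp (-(A * (2 * ζ - 1 + ρ ^ 2)))‖ =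
      Real.exp (-(A * (2 * ζ.re - 1 + ρ ^ 2))) := by
    intro ζ
    rw [norm_exp]
    congr 1
    have h1 : ((ρ : ℂ) ^ 2).re = ρ ^ 2 := by rw [← ofReal_pow, ofReal_re]
    rw [neg_re, re_ofReal_mul, add_re, sub_re, h1]
    simp
  have hbd : ∀ z ∈ frontier (ball (1:ℂ) ρ), ‖K z‖ ≤ 1 := by
    intro z hz
    have hz1 : ‖z - 1‖ = ρ := by
      have := frontier_ball_subset_sphere hz
      rwa [mem_sphere, dist_eq_norm] at this
    have hzball : z ∈ ball (1:ℂ) 1 := by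
      rw [mem_ball, dist_eq_norm, hz1]
      exact hρ1
    have hb : ‖Bl z‖ ≤ ‖(s.map (fun a => z - a)).prod‖ := by
      have := norm_prod_le_pow (s := s) (f := fun a => (ρ ^ 2 - conj (a - 1) * (z - 1)) / ρ)
        (g := fun a => z - a) (c := 1) zero_le_one (by
          intro a _
          rw [blaschke_circle hρ0 hz1, one_mul]
          apply le_of_eq
          congr 1
          ring)
      rw [one_pow, one_mul] at this
      exact this
    have hzn : ρ ≤ 1 := hρ1.le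
    have hzlow : τ ≤ ‖z‖ := by
      have : ‖(1:ℂ)‖ ≤ ‖z‖ + ‖z - 1‖ := by
        calc ‖(1:ℂ)‖ = ‖z - (z - 1)‖ := by ring_nf
          _ ≤ _ := norm_sub_le _ _
      rw [norm_one, hz1] at this
      linarith
    have hzup : ‖z‖ ≤ 2 := by
      calc ‖z‖ = ‖(z - 1) + 1‖ := by ring_nf
        _ ≤ ‖z - 1‖ + ‖(1:ℂ)‖ := norm_add_le _ _
        _ ≤ 2 := by rw [hz1, norm_one]; linarith
    have hH := D.H_bound α hzlow hzup
    rw [hfac z hzball, norm_mul] at hH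
    have e1 : ‖z‖ ^ 2 = 2 * z.re - 1 + ρ ^ 2 := by
      have h1 := normSq_sub_one z
      rw [normSq_eq_norm_sq, normSq_eq_norm_sq, hz1] at h1
      linarith
    simp only [K]
    rw [norm_mul, norm_mul, hnormexp, ← e1]
    calc ‖g z‖ * ‖Bl z‖ * Real.exp (-(A * ‖z‖ ^ 2))
        ≤ ‖g z‖ * ‖(s.map (fun a => z - a)).prod‖ * Real.exp (-(A * ‖z‖ ^ 2)) := by gcongr
      _ = (‖(s.map (fun a => z - a)).prod‖ * ‖g z‖) * Real.exp (-(A * ‖z‖ ^ 2)) := by ring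
      _ ≤ Real.exp (A * ‖z‖ ^ 2) * Real.exp (-(A * ‖z‖ ^ 2)) := by gcongr
      _ = 1 := by rw [← Real.exp_add]; simp
  have hq0 : 0 ≤ q := by linarith
  have hPρ : ‖P - 1‖ < ρ := by
    have : normSq (P - 1) < ρ ^ 2 := by linarith
    rw [normSq_eq_norm_sq] at this
    exact lt_of_pow_lt_pow_left₀ 2 hρ0.le this
  have hPcl : P ∈ closure (ball (1:ℂ) ρ) := by
    apply subset_closure
    rw [mem_ball, dist_eq_norm]
    exact hPρ
  have hKP := Complex.norm_le_of_forall_mem_frontier_norm_le isBounded_ball hKc hbd hPcl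
  have hPball : P ∈ ball (1:ℂ) 1 := by
    rw [mem_ball, dist_eq_norm]
    linarith
  have hprod : ‖(s.map (fun a => P - a)).prod‖ ≤
      Real.exp (-((1 - 3 * δ) * q / 2)) ^ (Multiset.card s) * ‖Bl P‖ := by
    apply norm_prod_le_pow (Real.exp_pos _).le
    intro a ha
    have := blaschke_inside hρ98 hρ1.le hδ hδ1 (w := P - 1) (b := a - 1) (q := q) rfl hq0 (hs a ha)
    calc ‖P - a‖ = ‖P - 1 - (a - 1)‖ := by congr 1; ring
      _ ≤ _ := this
  have e2 : ‖P‖ ^ 2 + q = 2 * P.re - 1 + ρ ^ 2 := by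
    rw [hq, normSq_sub_one, normSq_eq_norm_sq]
    ring
  have hgB : ‖g P‖ * ‖Bl P‖ ≤ Real.exp (A * (‖P‖ ^ 2 + q)) := by
    simp only [K] at hKP
    rw [norm_mul, norm_mul, hnormexp, ← e2, Real.exp_neg, mul_inv_le_iff₀ (Real.exp_pos _),
      one_mul] at hKP
    exact hKP
  rw [hfac P hPball, norm_mul]
  calc ‖(s.map (fun a => P - a)).prod‖ * ‖g P‖
      ≤ (Real.exp (-((1 - 3 * δ) * q / 2)) ^ (Multiset.card s) * ‖Bl P‖) * ‖g P‖ := by gcongr
    _ = Real.exp (-((1 - 3 * δ) * q / 2)) ^ (Multiset.card s) * (‖g P‖ * ‖Bl P‖) := by ring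
    _ ≤ Real.exp (-((1 - 3 * δ) * q / 2)) ^ (Multiset.card s) * Real.exp (A * (‖P‖ ^ 2 + q)) := by
        gcongr
    _ = Real.exp (A * (‖P‖ ^ 2 + q) - (Multiset.card s : ℝ) * (1 - 3 * δ) / 2 * q) := by
        rw [← Real.exp_nat_mul, ← Real.exp_add]
        congr 1
        ring

/-- A4: the function is not too small near `1`. -/
lemma not_small (D : LBData f ε σ r A r₀ m) (α : ℝ) {δ : ℝ} (hδ : 0 < δ) (hδ1 : δ ≤ 1 / 10)
    {n : ℕ} (hn : (2 + ε) * A ≤ n) : ∃ ζ ∈ closedBall (1:ℂ) δ, δ ^ n < ‖Hf f r σ α ζ‖ := by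
  by_contra hcon
  push Not at hcon
  apply D.contra_of_mass α hn
  intro P hP1 hP2
  have hτ0 := D.τpos
  have hτ1 := D.τle
  set τ : ℝ := ε / (150 * σ) with hτ
  set ρ : ℝ := 1 - τ with hρ
  set q : ℝ := ρ ^ 2 - normSq (P - 1) with hq
  have hρ1 : ρ < 1 := by linarith
  have hρ98 : 98 / 100 ≤ ρ := by linarith
  have hρ0 : 0 < ρ := by linarith
  have hA0 : 0 < A := by linarith [D.Apos]
  let U : Set ℂ := {ζ | δ < ‖ζ - 1‖ ∧ ‖ζ - 1‖ < ρ}
  have hUo : IsOpen U := by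
    apply IsOpen.inter
    · exact isOpen_lt continuous_const (continuous_id.sub continuous_const).norm
    · exact isOpen_lt (continuous_id.sub continuous_const).norm continuous_const
  have hUb : Bornology.IsBounded U := by
    apply (isBounded_ball (x := (1:ℂ)) (r := ρ)).subset
    intro ζ hζ
    rw [mem_ball, dist_eq_norm]
    exact hζ.2
  have hUcl : closure U ⊆ {ζ | δ ≤ ‖ζ - 1‖ ∧ ‖ζ - 1‖ ≤ ρ} := by
    apply closure_minimal
    · intro ζ hζ
      exact ⟨hζ.1.le, hζ.2.le⟩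
    · apply IsClosed.inter
      · exact isClosed_le continuous_const (continuous_id.sub continuous_const).norm
      · exact isClosed_le (continuous_id.sub continuous_const).norm continuous_const
  let K : ℂ → ℂ := fun ζ => Hf f r σ α ζ * (ρ / (ζ - 1)) ^ n * exp (-(A * (2 * ζ - 1 + ρ ^ 2)))
  have hKd : DiffContOnCl ℂ K U := by
    apply DifferentiableOn.diffContOnCl
    intro ζ hζ
    apply DifferentiableAt.differentiableWithinAt
    obtain ⟨h1, h2⟩ := hUcl hζ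
    have h3 : ζ ∈ ball (1:ℂ) 1 := by
      rw [mem_ball, dist_eq_norm]
      linarith
    have h4 : ζ - 1 ≠ 0 := by
      intro h
      rw [h, norm_zero] at h1
      linarith
    apply DifferentiableAt.mul
    · apply DifferentiableAt.mul
      · exact diff_Hf D.hf r σ α (ball_slit h3)
      · have h5 : DifferentiableAt ℂ (fun ζ : ℂ => (ρ : ℂ) / (ζ - 1)) ζ :=
          (differentiableAt_const _).div (differentiableAt_id.sub (differentiableAt_const _)) h4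
        exact h5.pow n
    · fun_prop
  have hnormexp : ∀ ζ : ℂ, ‖exp (-(A * (2 * ζ - 1 + ρ ^ 2)))‖ =
      Real.exp (-(A * (2 * ζ.re - 1 + ρ ^ 2))) := by
    intro ζ
    rw [norm_exp]
    congr 1
    have h1 : ((ρ : ℂ) ^ 2).re = ρ ^ 2 := by rw [← ofReal_pow, ofReal_re]
    rw [neg_re, re_ofReal_mul, add_re, sub_re, h1]
    simp
  have hbd : ∀ z ∈ frontier U, ‖K z‖ ≤ 1 := by
    intro z hz
    have hzcl := hUcl hz.1
    have hznot : z ∉ U := by
      have := hz.2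
      rwa [hUo.interior_eq] at this
    simp only [K]
    rw [norm_mul, norm_mul, norm_pow, norm_div, norm_real, Real.norm_eq_abs, abs_of_pos hρ0,
      hnormexp]
    by_cases hcase : ‖z - 1‖ = ρ
    · rw [hcase, div_self hρ0.ne', one_pow, mul_one]
      have hzlow : τ ≤ ‖z‖ := by
        have : ‖(1:ℂ)‖ ≤ ‖z‖ + ‖z - 1‖ := by
          calc ‖(1:ℂ)‖ = ‖z - (z - 1)‖ := by ring_nf
            _ ≤ _ := norm_sub_le _ _
        rw [norm_one, hcase] at this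
        linarith
      have hzup : ‖z‖ ≤ 2 := by
        calc ‖z‖ = ‖(z - 1) + 1‖ := by ring_nf
          _ ≤ ‖z - 1‖ + ‖(1:ℂ)‖ := norm_add_le _ _
          _ ≤ 2 := by rw [hcase, norm_one]; linarith
      have hH := D.H_bound α hzlow hzup
      have e1 : ‖z‖ ^ 2 = 2 * z.re - 1 + ρ ^ 2 := by
        have h1 := normSq_sub_one z
        rw [normSq_eq_norm_sq, normSq_eq_norm_sq, hcase] at h1
        linarith
      rw [← e1]
      calc ‖Hf f r σ α z‖ * Real.exp (-(A * ‖z‖ ^ 2))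
          ≤ Real.exp (A * ‖z‖ ^ 2) * Real.exp (-(A * ‖z‖ ^ 2)) := by gcongr
        _ = 1 := by rw [← Real.exp_add]; simp
    · have hcase2 : ‖z - 1‖ = δ := by
        by_contra hne
        apply hznot
        exact ⟨lt_of_le_of_ne hzcl.1 (Ne.symm hne), lt_of_le_of_ne hzcl.2 hcase⟩
      rw [hcase2]
      have h1 := hcon z (by rw [mem_closedBall, dist_eq_norm, hcase2])
      have h2 : Real.exp (-(A * (2 * z.re - 1 + ρ ^ 2))) ≤ 1 := by
        rw [Real.exp_le_one_iff]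
        have h3 := abs_re_le_norm (z - 1)
        have h4 := neg_abs_le (z - 1).re
        rw [hcase2] at h3
        rw [sub_re, one_re] at h3 h4
        have h5 : 0 ≤ 2 * z.re - 1 + ρ ^ 2 := by nlinarith
        have := mul_nonneg hA0.le h5
        linarith
      have h3 : (ρ / δ) ^ n ≤ (1 / δ) ^ n := by gcongr
      calc ‖Hf f r σ α z‖ * (ρ / δ) ^ n * Real.exp (-(A * (2 * z.re - 1 + ρ ^ 2)))
          ≤ δ ^ n * (1 / δ) ^ n * 1 := by gcongr
        _ = 1 := by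
          rw [← mul_pow, mul_one_div_cancel hδ.ne', one_pow, mul_one]
  have hq0 : 0 ≤ q := by linarith
  have hPρ : ‖P - 1‖ < ρ := by
    have : normSq (P - 1) < ρ ^ 2 := by linarith
    rw [normSq_eq_norm_sq] at this
    exact lt_of_pow_lt_pow_left₀ 2 hρ0.le this
  have hPδ : δ < ‖P - 1‖ := by
    have : ‖(1:ℂ)‖ ≤ ‖P‖ + ‖P - 1‖ := by
      calc ‖(1:ℂ)‖ = ‖P - (P - 1)‖ := by ring_nf
        _ ≤ _ := norm_sub_le _ _
    rw [norm_one, hP1] at this
    linarith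
  have hKP := Complex.norm_le_of_forall_mem_frontier_norm_le hUb hKd hbd
    (subset_closure (show P ∈ U from ⟨hPδ, hPρ⟩))
  have hP0 : 0 < ‖P - 1‖ := by linarith
  have e2 : ‖P‖ ^ 2 + q = 2 * P.re - 1 + ρ ^ 2 := by
    rw [hq, normSq_sub_one, normSq_eq_norm_sq]
    ring
  simp only [K] at hKP
  rw [norm_mul, norm_mul, norm_pow, norm_div, norm_real, Real.norm_eq_abs, abs_of_pos hρ0,
    hnormexp, ← e2, Real.exp_neg, mul_inv_le_iff₀ (Real.exp_pos _), one_mul] at hKP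
  -- factor at P
  have hfac : ‖P - 1‖ ≤ ρ * Real.exp (-(q / 2)) := by
    have h1 : ‖P - 1‖ ^ 2 ≤ (ρ * Real.exp (-(q / 2))) ^ 2 := by
      rw [mul_pow, ← Real.exp_nat_mul]
      have e3 : ((2:ℕ):ℝ) * -(q / 2) = -q := by push_cast; ring
      rw [e3]
      have h2 : 1 - q ≤ Real.exp (-q) := by
        have := Real.add_one_le_exp (-q)
        linarith
      have h3 : ‖P - 1‖ ^ 2 = ρ ^ 2 - q := by
        rw [hq, normSq_eq_norm_sq]
        ring
      have h4 : ρ ^ 2 * (1 - q) ≤ ρ ^ 2 * Real.exp (-q) := by gcongr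
      have h5 : ρ ^ 2 ≤ 1 := by nlinarith
      nlinarith
    exact le_of_sq_le_sq h1 (by positivity)
  have h6 : 1 ≤ (ρ / ‖P - 1‖) ^ n * Real.exp (-(q / 2)) ^ n := by
    rw [← mul_pow]
    apply one_le_pow₀
    rw [div_mul_eq_mul_div, one_le_div hP0]
    exact hfac
  calc ‖Hf f r σ α P‖ ≤ ‖Hf f r σ α P‖ * ((ρ / ‖P - 1‖) ^ n * Real.exp (-(q / 2)) ^ n) :=
        le_mul_of_one_le_right (norm_nonneg _) h6
    _ = (‖Hf f r σ α P‖ * (ρ / ‖P - 1‖) ^ n) * Real.exp (-(q / 2)) ^ n := by ring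
    _ ≤ Real.exp (A * (‖P‖ ^ 2 + q)) * Real.exp (-(q / 2)) ^ n := by gcongr
    _ = Real.exp (A * (‖P‖ ^ 2 + q) - n / 2 * q) := by
        rw [← Real.exp_nat_mul, ← Real.exp_add]
        congr 1
        ring

end LBData

end Pool.Agent.Work.MP_06ac62_an
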