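import Pool.Agent.Work.MP_06ac62_an.LB2

open Complex Metric Filter Topology ComplexConjugate

namespace Pool.Agent.Work.MP_06ac62_an

lemma exists_log_ball {g : ℂ → ℂ} {c : ℂ} {R : ℝ} (hR : 0 < R)
    (hg : DifferentiableOn ℂ g (ball c R)) (hne : ∀ z ∈ ball c R, g z ≠ 0) :
    ∃ l : ℂ → ℂ, DifferentiableOn ℂ l (ball c R) ∧ ∀ z ∈ ball c R, exp (l z) = g z := by
  have hdg : DifferentiableOn ℂ (deriv g) (ball c R) := hg.deriv isOpen_ball
  have hq : DifferentiableOn ℂ (fun z => deriv g z / g z) (ball c R) := hdg.div hg hne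
  obtain ⟨F, hF⟩ := hq.isExactOn_ball
  have hFd : DifferentiableOn ℂ F (ball c R) :=
    fun z hz => (hF z hz).differentiableAt.differentiableWithinAt
  have hgat : ∀ z ∈ ball c R, HasDerivAt g (deriv g z) z := fun z hz =>
    (hg.differentiableAt (isOpen_ball.mem_nhds hz)).hasDerivAt
  have hG : ∀ z ∈ ball c R, HasDerivAt (fun z => g z * exp (-F z)) 0 z := by
    intro z hz
    have h1 := (hgat z hz).mul ((hF z hz).neg.cexp)
    refine h1.congr_deriv ?_
    have := hne z hz
    field_simp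
    ring
  have hGd : DifferentiableOn ℂ (fun z => g z * exp (-F z)) (ball c R) :=
    fun z hz => (hG z hz).differentiableAt.differentiableWithinAt
  have hconst : ∀ z ∈ ball c R, g z * exp (-F z) = g c * exp (-F c) := by
    intro z hz
    exact isOpen_ball.is_const_of_deriv_eq_zero (convex_ball c R).isPreconnected hGd
      (fun x hx => (hG x hx).deriv) hz (mem_ball_self hR)
  have hcne : g c * exp (-F c) ≠ 0 := mul_ne_zero (hne c (mem_ball_self hR)) (exp_ne_zero _)
  refine ⟨fun z => F z + log (g c * exp (-F c)), hFd.add_const _, ?_⟩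
  intro z hz
  rw [exp_add, exp_log hcne, ← hconst z hz]
  rw [mul_left_comm, ← exp_add]
  simp

lemma harnack {g : ℂ → ℂ} {c : ℂ} {R M K : ℝ} (hR : 0 < R)
    (hg : DifferentiableOn ℂ g (ball c R)) (hne : ∀ z ∈ ball c R, g z ≠ 0)
    (hup : ∀ z ∈ ball c R, ‖g z‖ ≤ Real.exp M) (hlow : Real.exp (-K) ≤ ‖g c‖)
    (hMK : 0 < M + K) {z : ℂ} (hz : ‖z - c‖ ≤ R / 2) :
    Real.exp (-(K + 2 * (M + K))) ≤ ‖g z‖ := by
  obtain ⟨l, hl, hexp⟩ := exists_log_ball hR hg hne
  have hre : ∀ z ∈ ball c R, (l z).re = Real.log ‖g z‖ := by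
    intro z hz
    rw [← hexp z hz, norm_exp, Real.log_exp]
  have hcb : c ∈ ball c R := mem_ball_self hR
  have hmaps : Set.MapsTo (fun w => c + w) (ball (0:ℂ) R) (ball c R) := by
    intro w hw
    rw [mem_ball_zero_iff] at hw
    rw [mem_ball, dist_eq_norm]
    simpa using hw
  have hd : DifferentiableOn ℂ (fun w => l (c + w) - l c) (ball 0 R) := by
    apply DifferentiableOn.sub_const
    exact hl.comp ((differentiable_const _).add differentiable_id).differentiableOn hmaps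
  have hle : Set.MapsTo (fun w => l (c + w) - l c) (ball (0:ℂ) R) {z | z.re ≤ M + K} := by
    intro w hw
    have h1 := hmaps hw
    show (l (c + w) - l c).re ≤ M + K
    rw [sub_re, hre _ h1, hre _ hcb]
    have h2 : Real.log ‖g (c + w)‖ ≤ M := by
      rw [Real.log_le_iff_le_exp (norm_pos_iff.mpr (hne _ h1))]
      exact hup _ h1
    have h3 : -K ≤ Real.log ‖g c‖ := by
      rw [Real.le_log_iff_exp_le (norm_pos_iff.mpr (hne _ hcb))]
      exact hlow
    linarith
  have hzb : z - c ∈ ball (0:ℂ) R := by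
    rw [mem_ball_zero_iff]
    linarith
  have key := borelCaratheodory_zero hMK hd hle hR hzb (by simp)
  have hzc : c + (z - c) = z := by ring
  have hzball : z ∈ ball c R := by
    rw [mem_ball, dist_eq_norm]
    linarith
  simp only [hzc] at key
  have h4 : 2 * (M + K) * ‖z - c‖ / (R - ‖z - c‖) ≤ 2 * (M + K) := by
    rw [div_le_iff₀ (by linarith)]
    apply mul_le_mul_of_nonneg_left _ (by linarith)
    linarith
  have h5 := abs_re_le_norm (l z - l c)
  have h6 := neg_abs_le (l z - l c).re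
  rw [sub_re, hre _ hzball, hre _ hcb] at h5 h6
  have h3 : -K ≤ Real.log ‖g c‖ := by
    rw [Real.le_log_iff_exp_le (norm_pos_iff.mpr (hne _ hcb))]
    exact hlow
  rw [← Real.le_log_iff_exp_le (norm_pos_iff.mpr (hne _ hzball))]
  linarith

namespace LBData

variable {f : ℂ → ℂ} {ε σ r A r₀ m : ℝ}

lemma exists_factor (D : LBData f ε σ r A r₀ m) (α : ℝ) {δ : ℝ} (hδ : 0 < δ)
    (hδ1 : δ ≤ 1 / 10) : ∃ (s : Multiset ℂ) (g : ℂ → ℂ), DifferentiableOn ℂ g (ball 1 1) ∧
      (∀ a ∈ s, ‖a - 1‖ ≤ δ) ∧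
      (∀ ζ ∈ ball (1:ℂ) 1, Hf f r σ α ζ = (s.map (fun a => ζ - a)).prod * g ζ) ∧
      (∀ ζ ∈ closedBall (1:ℂ) δ, g ζ ≠ 0) := by
  by_contra hcon
  push Not at hcon
  have hstep : ∀ n : ℕ, ∃ (s : Multiset ℂ) (g : ℂ → ℂ), Multiset.card s = n ∧
      DifferentiableOn ℂ g (ball 1 1) ∧ (∀ a ∈ s, ‖a - 1‖ ≤ δ) ∧
      (∀ ζ ∈ ball (1:ℂ) 1, Hf f r σ α ζ = (s.map (fun a => ζ - a)).prod * g ζ) := by
    intro n
    induction n with
    | zero =>
      refine ⟨0, Hf f r σ α, by simp, ?_, by simp, by simp⟩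
      intro ζ hζ
      exact (diff_Hf D.hf r σ α (ball_slit hζ)).differentiableWithinAt
    | succ n ih =>
      obtain ⟨s, g, hcard, hg, hs, hfac⟩ := ih
      obtain ⟨a, ha, ha0⟩ := hcon s g hg hs hfac
      have haball : a ∈ ball (1:ℂ) 1 :=
        closedBall_subset_ball (by linarith) ha
      refine ⟨a ::ₘ s, dslope g a, by simp [hcard], ?_, ?_, ?_⟩
      · exact (Complex.differentiableOn_dslope (isOpen_ball.mem_nhds haball)).mpr hg
      · intro b hb
        rw [Multiset.mem_cons] at hb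
        rcases hb with rfl | hb
        · rwa [mem_closedBall, dist_eq_norm] at ha
        · exact hs b hb
      · intro ζ hζ
        rw [hfac ζ hζ, Multiset.map_cons, Multiset.prod_cons]
        have : g ζ = (ζ - a) * dslope g a ζ := by
          have h1 := sub_smul_dslope g a ζ
          rw [ha0, sub_zero, smul_eq_mul] at h1
          exact h1.symm
        rw [this]
        ring
  obtain ⟨s, g, hcard, hg, hs, hfac⟩ := hstep (⌈(2 + ε) * A / (1 - 3 * δ)⌉₊)
  have h1 := D.zeros_bound α hδ.le hδ1 hs hg hfac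
  rw [hcard] at h1
  have h2 : (2 + ε) * A / (1 - 3 * δ) ≤ (⌈(2 + ε) * A / (1 - 3 * δ)⌉₊ : ℝ) := Nat.le_ceil _
  rw [div_le_iff₀ (by linarith)] at h2
  linarith

/-- A5: local lower bound. -/
theorem local_lower (D : LBData f ε σ r A r₀ m) (α : ℝ) {δ : ℝ} (hδ : 0 < δ)
    (hδ1 : δ ≤ 1 / 10) : ∃ s : Multiset ℂ, (Multiset.card s : ℝ) * (1 - 3 * δ) < (2 + ε) * A ∧
      ∀ ζ ∈ closedBall (1:ℂ) (δ / 8),
        Real.exp (-((18 + 12 * Real.log (8 / δ)) * A)) * ‖(s.map (fun a => ζ - a)).prod‖ ≤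
          ‖Hf f r σ α ζ‖ := by
  obtain ⟨s, g, hg, hs, hfac, hgne⟩ := D.exists_factor α hδ hδ1
  have hcard := D.zeros_bound α hδ.le hδ1 hs hg hfac
  refine ⟨s, hcard, ?_⟩
  have hA := D.Apos
  have hA0 : 0 < A := by linarith
  have hε := D.hε
  have hε1 := D.hε1
  -- good point
  set n : ℕ := ⌈(2 + ε) * A⌉₊ with hn
  have hn1 : (2 + ε) * A ≤ n := Nat.le_ceil _
  have hn2 : (n : ℝ) < (2 + ε) * A + 1 := Nat.ceil_lt_add_one (by positivity)
  have hn3 : (n : ℝ) ≤ 4 * A := by nlinarith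
  obtain ⟨ζs, hζs, hζs2⟩ := D.not_small α (δ := δ / 8) (by positivity) (by linarith) hn1
  have hlog8 : 0 < Real.log (8 / δ) := Real.log_pos (by rw [lt_div_iff₀ hδ]; linarith)
  have hlowH : Real.exp (-(4 * A * Real.log (8 / δ))) ≤ ‖Hf f r σ α ζs‖ := by
    refine le_trans ?_ hζs2.le
    have e1 : (δ / 8) ^ n = Real.exp (-(n * Real.log (8 / δ))) := by
      rw [show (δ / 8) = (8 / δ)⁻¹ by rw [inv_div], inv_pow, Real.exp_neg, Real.exp_nat_mul,
        Real.exp_log (by positivity)]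
    rw [e1]
    apply Real.exp_le_exp.mpr
    have := mul_le_mul_of_nonneg_right hn3 hlog8.le
    linarith
  rw [mem_closedBall, dist_eq_norm] at hζs
  -- upper bound for g
  have hcard2 : (Multiset.card s : ℝ) ≤ 43 / 10 * A := by
    have h1 : (Multiset.card s : ℝ) * (7 / 10) ≤ (Multiset.card s : ℝ) * (1 - 3 * δ) := by
      apply mul_le_mul_of_nonneg_left _ (Nat.cast_nonneg _)
      linarith
    nlinarith
  have hgup : ∀ z ∈ closedBall (1:ℂ) (1 / 2), ‖g z‖ ≤ Real.exp (9 * A) := by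
    have hgc : DiffContOnCl ℂ g (ball 1 (1 / 2)) :=
      hg.diffContOnCl_ball (closedBall_subset_ball (by norm_num))
    intro z hz
    apply Complex.norm_le_of_forall_mem_frontier_norm_le isBounded_ball hgc
    · intro w hw
      have hw1 : ‖w - 1‖ = 1 / 2 := by
        have := frontier_ball_subset_sphere hw
        rwa [mem_sphere, dist_eq_norm] at this
      have hwb : w ∈ ball (1:ℂ) 1 := by
        rw [mem_ball, dist_eq_norm, hw1]
        norm_num
      have h1 : ‖w‖ ≤ 3 / 2 := by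
        calc ‖w‖ = ‖(w - 1) + 1‖ := by ring_nf
          _ ≤ ‖w - 1‖ + ‖(1:ℂ)‖ := norm_add_le _ _
          _ ≤ 3 / 2 := by rw [hw1, norm_one]; norm_num
      have h2 : 1 / 2 ≤ ‖w‖ := by
        have : ‖(1:ℂ)‖ ≤ ‖w‖ + ‖w - 1‖ := by
          calc ‖(1:ℂ)‖ = ‖w - (w - 1)‖ := by ring_nf
            _ ≤ _ := norm_sub_le _ _
        rw [norm_one, hw1] at this
        linarith
      have h3 := D.H_bound α (ζ := w) (by have := D.τle; linarith) (by linarith)
      rw [hfac w hwb, norm_mul] at h3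
      have h4 : (1:ℝ) ≤ 4 ^ (Multiset.card s) * ‖(s.map (fun a => w - a)).prod‖ := by
        have := norm_prod_le_pow (s := s) (f := fun _ => (1:ℂ)) (g := fun a => w - a) (c := 4)
          (by norm_num) (by
            intro a ha
            rw [norm_one]
            have h5 := hs a ha
            have h6 : ‖w - 1‖ ≤ ‖w - a‖ + ‖a - 1‖ := by
              calc ‖w - 1‖ = ‖(w - a) + (a - 1)‖ := by ring_nf
                _ ≤ _ := norm_add_le _ _
            rw [hw1] at h6
            linarith)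
        simpa using this
      have h5 : (4:ℝ) ^ (Multiset.card s) ≤ Real.exp (61 / 10 * A) := by
        have h6 : (4:ℝ) ≤ Real.exp (14 / 10) := by
          have h7 := Real.exp_one_gt_d9
          have h8 : Real.exp (14 / 10) = Real.exp 1 * Real.exp (4 / 10) := by
            rw [← Real.exp_add]
            norm_num
          have h9 : (1 + 4 / 10 + (4/10)^2/2 : ℝ) ≤ Real.exp (4 / 10) :=
            Real.quadratic_le_exp_of_nonneg (by norm_num)
          rw [h8]
          nlinarith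
        calc (4:ℝ) ^ (Multiset.card s) ≤ (Real.exp (14 / 10)) ^ (Multiset.card s) := by gcongr
          _ = Real.exp ((Multiset.card s) * (14 / 10)) := by rw [← Real.exp_nat_mul]
          _ ≤ Real.exp (61 / 10 * A) := by
            apply Real.exp_le_exp.mpr
            nlinarith
      have h6 : A * ‖w‖ ^ 2 ≤ 9 / 4 * A := by
        have : ‖w‖ ^ 2 ≤ (3 / 2) ^ 2 := by gcongr
        nlinarith
      calc ‖g w‖ = 1 * ‖g w‖ := by ring
        _ ≤ (4 ^ (Multiset.card s) * ‖(s.map (fun a => w - a)).prod‖) * ‖g w‖ := by gcongr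
        _ = 4 ^ (Multiset.card s) * (‖(s.map (fun a => w - a)).prod‖ * ‖g w‖) := by ring
        _ ≤ Real.exp (61 / 10 * A) * Real.exp (A * ‖w‖ ^ 2) := by gcongr
        _ ≤ Real.exp (9 * A) := by
          rw [← Real.exp_add]
          apply Real.exp_le_exp.mpr
          linarith
    · rw [closure_ball _ (by norm_num)]
      exact hz
  have hζsball : ζs ∈ ball (1:ℂ) 1 := by
    rw [mem_ball, dist_eq_norm]
    linarith
  have hglow : Real.exp (-(4 * A * Real.log (8 / δ))) ≤ ‖g ζs‖ := by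
    rw [hfac ζs hζsball, norm_mul] at hlowH
    have h1 : ‖(s.map (fun a => ζs - a)).prod‖ ≤ 1 := by
      have := norm_prod_le_pow (s := s) (f := fun a => ζs - a) (g := fun _ => (1:ℂ)) (c := 1)
        zero_le_one (by
          intro a ha
          rw [norm_one, mul_one]
          calc ‖ζs - a‖ = ‖(ζs - 1) - (a - 1)‖ := by ring_nf
            _ ≤ ‖ζs - 1‖ + ‖a - 1‖ := norm_sub_le _ _
            _ ≤ 1 := by have := hs a ha; linarith)
      simpa using this
    calc Real.exp (-(4 * A * Real.log (8 / δ))) ≤ ‖(s.map (fun a => ζs - a)).prod‖ * ‖g ζs‖ := hlowH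
      _ ≤ 1 * ‖g ζs‖ := by gcongr
      _ = ‖g ζs‖ := one_mul _
  have hsub : ball ζs (δ / 2) ⊆ closedBall (1:ℂ) δ := by
    intro z hz
    rw [mem_ball, dist_eq_norm] at hz
    rw [mem_closedBall, dist_eq_norm]
    calc ‖z - 1‖ = ‖(z - ζs) + (ζs - 1)‖ := by ring_nf
      _ ≤ ‖z - ζs‖ + ‖ζs - 1‖ := norm_add_le _ _
      _ ≤ δ := by linarith
  intro ζ hζ
  rw [mem_closedBall, dist_eq_norm] at hζ
  have hζb : ζ ∈ ball (1:ℂ) 1 := by
    rw [mem_ball, dist_eq_norm]
    linarith
  have key := harnack (R := δ / 2) (M := 9 * A) (K := 4 * A * Real.log (8 / δ)) (c := ζs)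
    (by positivity) (hg.mono (hsub.trans (closedBall_subset_ball (by linarith))))
    (fun z hz => hgne z (hsub hz))
    (fun z hz => hgup z (closedBall_subset_closedBall (by linarith) (hsub hz))) hglow
    (by positivity) (z := ζ) (by
      calc ‖ζ - ζs‖ = ‖(ζ - 1) - (ζs - 1)‖ := by ring_nf
        _ ≤ ‖ζ - 1‖ + ‖ζs - 1‖ := norm_sub_le _ _
        _ ≤ δ / 2 / 2 := by linarith)
  have e1 : (4 * A * Real.log (8 / δ) + 2 * (9 * A + 4 * A * Real.log (8 / δ))) =
      (18 + 12 * Real.log (8 / δ)) * A := by ring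
  rw [e1] at key
  rw [hfac ζ hζb, norm_mul, mul_comm]
  gcongr

end LBData

end Pool.Agent.Work.MP_06ac62_an
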