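import Mathlib

open MeasureTheory Set Filter Topology

namespace Pool.Agent.Work.MP_06ac62_an

/-- truncated singular kernel -/
noncomputable def hk (s y : ℝ) : ℝ := if y < 1 then y ^ (-s) else 0

lemma hk_integrableOn {s : ℝ} (hs1 : s < 1) : IntegrableOn (fun y : ℝ => hk s y) (Ioi 0) ∧
    ∫ y in Ioi (0:ℝ), hk s y = 1 / (1 - s) := by
  have h1 : IntegrableOn (fun y : ℝ => y ^ (-s)) (Ioo 0 1) := by
    have := (intervalIntegral.intervalIntegrable_rpow' (a := 0) (b := 1) (r := -s) (by linarith))
    rw [intervalIntegrable_iff_integrableOn_Ioo_of_le zero_le_one] at this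
    exact this
  have e : (fun y : ℝ => hk s y) = (Iio 1).indicator (fun y : ℝ => y ^ (-s)) := by
    funext y
    unfold hk
    by_cases h : y < 1
    · rw [if_pos h, indicator_of_mem (by exact h)]
    · rw [if_neg h, indicator_of_notMem (by exact h)]
  constructor
  · rw [e, integrableOn_indicator_iff measurableSet_Iio]
    have : Iio (1:ℝ) ∩ Ioi 0 = Ioo 0 1 := by rw [inter_comm]; rfl
    rw [this]
    exact h1
  · rw [e, setIntegral_indicator measurableSet_Iio]
    have : Ioi (0:ℝ) ∩ Iio 1 = Ioo 0 1 := rfl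
    rw [this, ← integral_Ioc_eq_integral_Ioo, ← intervalIntegral.integral_of_le zero_le_one,
      integral_rpow (Or.inl (by linarith))]
    rw [Real.one_rpow, Real.zero_rpow (by linarith)]
    rw [show -s + 1 = 1 - s by ring]
    simp

lemma hk_norm_integrable {s : ℝ} (hs1 : s < 1) : Integrable (fun t : ℝ => hk s ‖t‖) ∧
    ∫ t : ℝ, hk s ‖t‖ = 2 / (1 - s) := by
  obtain ⟨h1, h2⟩ := hk_integrableOn hs1
  constructor
  · rw [integrable_fun_norm_addHaar (volume : Measure ℝ) (f := hk s)]
    simpa using h1
  · rw [integral_fun_norm_addHaar (volume : Measure ℝ) (hk s)]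
    simp only [Module.finrank_self, tsub_self, pow_zero, one_smul, smul_eq_mul, nsmul_eq_mul,
      Nat.cast_one, one_mul]
    rw [h2, Measure.real, Real.volume_ball]
    simp
    ring

/-- the comparison function -/
noncomputable def phx (s x y : ℝ) : ℝ := 1 + hk s ‖y - x‖

lemma phx_ge {s x y : ℝ} (hs : 0 < s) (h : y ≠ x) : |y - x| ^ (-s) ≤ phx s x y := by
  unfold phx hk
  have hpos : 0 < |y - x| := abs_pos.mpr (sub_ne_zero.mpr h)
  rw [Real.norm_eq_abs]
  by_cases h1 : |y - x| < 1
  · rw [if_pos h1]
    linarith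
  · rw [if_neg h1, add_zero]
    push Not at h1
    exact Real.rpow_le_one_of_one_le_of_nonpos h1 (by linarith)

lemma phx_ge_one {s x y : ℝ} : 1 ≤ phx s x y := by
  unfold phx hk
  split_ifs
  · have : 0 ≤ ‖y - x‖ ^ (-s) := by positivity
    linarith
  · linarith

lemma phx_int {s κ : ℝ} (hs1 : s < 1) (hκ : 0 < κ) (x : ℝ) :
    IntegrableOn (phx s x) (Icc 1 (1 + κ)) ∧
      ∫ y in Icc 1 (1 + κ), phx s x y ≤ κ + 2 / (1 - s) := by
  obtain ⟨h1, h2⟩ := hk_norm_integrable hs1
  have h3 : Integrable (fun y : ℝ => hk s ‖y - x‖) := h1.comp_sub_right x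
  have h4 : ∫ y : ℝ, hk s ‖y - x‖ = 2 / (1 - s) := by
    rw [← h2]
    exact integral_sub_right_eq_self (fun t : ℝ => hk s ‖t‖) x
  have h5 : IntegrableOn (fun _ : ℝ => (1:ℝ)) (Icc 1 (1 + κ)) :=
    integrableOn_const (by simp)
  constructor
  · exact h5.add h3.integrableOn
  · unfold phx
    rw [integral_add h5 h3.integrableOn]
    have h6 : ∫ y in Icc 1 (1 + κ), hk s ‖y - x‖ ≤ 2 / (1 - s) := by
      rw [← h4]
      apply setIntegral_le_integral h3
      filter_upwards with y
      unfold hk
      show 0 ≤ _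
      split_ifs
      · positivity
      · exact le_rfl
    have h7 : ∫ _ in Icc 1 (1 + κ), (1:ℝ) = κ := by
      rw [setIntegral_const]
      simp [Measure.real, Real.volume_Icc, hκ.le]
    linarith

lemma msum_int {s κ : ℝ} (hs1 : s < 1) (hκ : 0 < κ) (S : Multiset ℝ) :
    IntegrableOn (fun y => (S.map (fun x => phx s x y)).sum) (Icc 1 (1 + κ)) ∧
      ∫ y in Icc 1 (1 + κ), (S.map (fun x => phx s x y)).sum ≤
        (Multiset.card S) * (κ + 2 / (1 - s)) := by
  induction S using Multiset.induction with
  | empty => simp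
  | cons a S ih =>
    obtain ⟨i1, i2⟩ := ih
    obtain ⟨j1, j2⟩ := phx_int hs1 hκ a
    simp only [Multiset.map_cons, Multiset.sum_cons, Multiset.card_cons]
    refine ⟨j1.add i1, ?_⟩
    rw [integral_add j1 i1]
    push_cast
    linarith

/-- A6: the averaging lemma. -/
theorem averaging {s κ : ℝ} (hs : 0 < s) (hs1 : s < 1) (hκ : 0 < κ) (hκ1 : κ ≤ 1) {J : ℕ}
    (hJ : 0 < J) (S : ℕ → Multiset ℝ) :
    ∃ y ∈ Icc (1:ℝ) (1 + κ), ∀ j < J, (∀ x ∈ S j, y ≠ x) ∧
      -((Multiset.card (S j) : ℝ) / s * Real.log (3 * J / ((1 - s) * κ))) ≤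
        ((S j).map (fun x => Real.log |y - x|)).sum := by
  have h1s : 0 < 1 - s := by linarith
  have hJr : (0:ℝ) < J := by exact_mod_cast hJ
  set μ : Measure ℝ := volume.restrict (Icc 1 (1 + κ)) with hμ
  have hvol : (volume : Measure ℝ) (Icc 1 (1 + κ)) = ENNReal.ofReal κ := by
    rw [Real.volume_Icc]
    congr 1
    ring
  have hμ0 : μ ≠ 0 := by
    rw [hμ, Ne, Measure.restrict_eq_zero, hvol]
    simp [hκ]
  have hfin : IsFiniteMeasure μ := ⟨by rw [hμ, Measure.restrict_apply_univ, hvol]; simp⟩
  let F : ℝ → ℝ := fun y => ∑ j ∈ Finset.range J,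
    (1 / (Multiset.card (S j) : ℝ)) * ((S j).map (fun x => phx s x y)).sum
  have hFi : Integrable F μ := by
    apply integrable_finsetSum
    intro j _
    exact (msum_int hs1 hκ (S j)).1.const_mul _
  have hFint : ∫ y, F y ∂μ ≤ J * (κ + 2 / (1 - s)) := by
    simp only [F]
    rw [integral_finsetSum _ (fun j _ => (msum_int hs1 hκ (S j)).1.const_mul _)]
    have hle : ∀ j ∈ Finset.range J, ∫ y, (1 / (Multiset.card (S j) : ℝ)) *
        ((S j).map (fun x => phx s x y)).sum ∂μ ≤ κ + 2 / (1 - s) := by
      intro j _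
      rw [integral_const_mul]
      have h2 := (msum_int hs1 hκ (S j)).2
      have hpos : 0 ≤ κ + 2 / (1 - s) := by positivity
      by_cases hc : Multiset.card (S j) = 0
      · rw [hc]
        simpa using hpos
      · have hc' : (0:ℝ) < (Multiset.card (S j) : ℝ) := by
          exact_mod_cast Nat.pos_of_ne_zero hc
        rw [one_div_mul_eq_div, div_le_iff₀ hc']
        linarith
    calc ∑ j ∈ Finset.range J, ∫ y, (1 / (Multiset.card (S j) : ℝ)) *
        ((S j).map (fun x => phx s x y)).sum ∂μ ≤ ∑ j ∈ Finset.range J, (κ + 2 / (1 - s)) :=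
          Finset.sum_le_sum hle
      _ = J * (κ + 2 / (1 - s)) := by
          rw [Finset.sum_const, Finset.card_range, nsmul_eq_mul]
  let N : Set ℝ := (Icc 1 (1 + κ))ᶜ ∪ ⋃ j ∈ Finset.range J, {x | x ∈ S j}
  have hN : μ N = 0 := by
    apply measure_union_null
    · rw [hμ, Measure.restrict_apply' measurableSet_Icc]
      simp
    · apply measure_mono_null (t := ⋃ j ∈ Finset.range J, {x | x ∈ S j}) le_rfl
      have hfinite : (⋃ j ∈ Finset.range J, {x | x ∈ S j}).Finite := by
        apply Set.Finite.biUnion (Finset.finite_toSet _)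
        intro j _
        have : {x | x ∈ S j} = ((S j).toFinset : Set ℝ) := by
          ext x
          simp
        rw [this]
        exact Finset.finite_toSet _
      exact hfinite.countable.measure_zero μ
  obtain ⟨y, hyN, hy⟩ := exists_notMem_null_le_average hμ0 hFi hN
  simp only [N, mem_union, mem_compl_iff, not_or, not_not, mem_iUnion, exists_prop, not_exists,
    not_and, Set.mem_ofPred_eq] at hyN
  obtain ⟨hyI, hyS⟩ := hyN
  refine ⟨y, hyI, ?_⟩
  set T : ℝ := 3 * J / ((1 - s) * κ) with hT
  have hT0 : 0 < T := by positivity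
  have hFy : F y ≤ T := by
    refine hy.trans ?_
    rw [average_eq]
    have hreal : μ.real univ = κ := by
      rw [Measure.real, hμ, Measure.restrict_apply_univ, hvol, ENNReal.toReal_ofReal hκ.le]
    rw [hreal, smul_eq_mul, inv_mul_le_iff₀ hκ]
    refine hFint.trans ?_
    have e1 : κ * T = J * (3 / (1 - s)) := by
      rw [hT]
      field_simp
    rw [e1]
    apply mul_le_mul_of_nonneg_left _ hJr.le
    rw [← sub_nonneg]
    have e2 : 3 / (1 - s) - (κ + 2 / (1 - s)) = (1 - κ * (1 - s)) / (1 - s) := by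
      field_simp
      ring
    rw [e2]
    apply div_nonneg _ h1s.le
    nlinarith
  intro j hj
  have hjr : j ∈ Finset.range J := Finset.mem_range.mpr hj
  have hne : ∀ x ∈ S j, y ≠ x := by
    intro x hx h
    subst h
    exact hyS j hjr hx
  refine ⟨hne, ?_⟩
  by_cases hc : Multiset.card (S j) = 0
  · rw [Multiset.card_eq_zero] at hc
    simp [hc]
  have hc' : (0:ℝ) < (Multiset.card (S j) : ℝ) := by
    exact_mod_cast Nat.pos_of_ne_zero hc
  -- the j-th average is at most T
  have hterm : ((S j).map (fun x => phx s x y)).sum ≤ (Multiset.card (S j) : ℝ) * T := by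
    have h1 : (1 / (Multiset.card (S j) : ℝ)) * ((S j).map (fun x => phx s x y)).sum ≤ F y := by
      apply Finset.single_le_sum (f := fun j => (1 / (Multiset.card (S j) : ℝ)) *
        ((S j).map (fun x => phx s x y)).sum) _ hjr
      intro i _
      apply mul_nonneg (by positivity)
      apply Multiset.sum_nonneg
      intro a ha
      rw [Multiset.mem_map] at ha
      obtain ⟨x, _, rfl⟩ := ha
      exact le_trans zero_le_one phx_ge_one
    have h2 := h1.trans hFy
    rw [one_div_mul_eq_div, div_le_iff₀ hc'] at h2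
    linarith
  -- logarithms
  have key : ∀ R : Multiset ℝ, (∀ x ∈ R, y ≠ x) →
      -((R.map (fun x => phx s x y)).sum / T - (Multiset.card R : ℝ) +
        (Multiset.card R : ℝ) * Real.log T) ≤ s * (R.map (fun x => Real.log |y - x|)).sum := by
    intro R
    induction R using Multiset.induction with
    | empty => simp
    | cons a R ih =>
      intro hR
      have h1 := ih (fun x hx => hR x (Multiset.mem_cons_of_mem hx))
      simp only [Multiset.map_cons, Multiset.sum_cons, Multiset.card_cons]
      have hya : y ≠ a := hR a (Multiset.mem_cons_self a R)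
      have hpos : 0 < |y - a| := abs_pos.mpr (sub_ne_zero.mpr hya)
      have hp1 : 0 < phx s a y := lt_of_lt_of_le one_pos phx_ge_one
      have h2 : -s * Real.log |y - a| ≤ Real.log (phx s a y) := by
        have h3 := Real.log_le_log (by positivity) (phx_ge hs hya)
        rwa [Real.log_rpow hpos] at h3
      have h3 : Real.log (phx s a y) ≤ phx s a y / T - 1 + Real.log T := by
        have h4 := Real.log_le_sub_one_of_pos (show 0 < phx s a y / T by positivity)
        rw [Real.log_div hp1.ne' hT0.ne'] at h4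
        linarith
      push_cast
      have e : (phx s a y + (Multiset.map (fun x => phx s x y) R).sum) / T =
          phx s a y / T + (Multiset.map (fun x => phx s x y) R).sum / T := by ring
      rw [e]
      linarith
  have h5 := key (S j) hne
  have h6 : ((S j).map (fun x => phx s x y)).sum / T ≤ (Multiset.card (S j) : ℝ) := by
    rw [div_le_iff₀ hT0]
    exact hterm
  have h7 : -((Multiset.card (S j) : ℝ) * Real.log T) ≤
      s * ((S j).map (fun x => Real.log |y - x|)).sum := by linarith
  have e : (Multiset.card (S j) : ℝ) / s * Real.log T =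
      ((Multiset.card (S j) : ℝ) * Real.log T) / s := by ring
  rw [e, ← neg_div, div_le_iff₀ hs]
  linarith

end Pool.Agent.Work.MP_06ac62_an
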