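import Pool.Agent.Work.MP_06ac62_an.LB3
import Pool.Agent.Work.MP_06ac62_an.LB4

open Complex Metric Filter Topology ComplexConjugate

namespace Pool.Agent.Work.MP_06ac62_an

lemma prod_ge_exp_sum {s : Multiset ℂ} {ζ : ℂ} {y : ℝ} (hζ : ‖ζ‖ = y) (h : ∀ a ∈ s, y ≠ ‖a‖) :
    Real.exp ((s.map (fun a => Real.log |y - ‖a‖|)).sum) ≤ ‖(s.map (fun a => ζ - a)).prod‖ := by
  induction s using Multiset.induction with
  | empty => simp
  | cons a s ih =>
    have h1 := ih (fun b hb => h b (Multiset.mem_cons_of_mem hb))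
    have hya : y ≠ ‖a‖ := h a (Multiset.mem_cons_self a s)
    have hpos : 0 < |y - ‖a‖| := abs_pos.mpr (sub_ne_zero.mpr hya)
    simp only [Multiset.map_cons, Multiset.prod_cons, Multiset.sum_cons, norm_mul]
    rw [Real.exp_add, Real.exp_log hpos]
    apply mul_le_mul _ h1 (Real.exp_pos _).le (norm_nonneg _)
    rw [← hζ]
    exact abs_norm_sub_norm_le ζ a

namespace LBData

variable {f : ℂ → ℂ} {ε σ r A r₀ m : ℝ}

theorem core (D : LBData f ε σ r A r₀ m) {δ s : ℝ} (hδ : 0 < δ) (hδ1 : δ ≤ 1 / 10)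
    (hs : 0 < s) (hs1 : s < 1) {J : ℕ} (hJ : 16 * Real.pi * σ / δ + 1 ≤ J) :
    ∃ r' : ℝ, r ≤ r' ∧ ∀ z, ‖z‖ = r' →
      Real.exp (-((18 + 12 * Real.log (8 / δ)) * A + (2 + ε) * A / (1 - 3 * δ) / s *
        Real.log (3 * J / ((1 - s) * (δ / 16))))) ≤ ‖f z‖ := by
  have hσ := D.hσ
  have hσ0 : 0 < σ := by linarith
  have hpi := Real.pi_pos
  have hA0 : 0 < A := by linarith [D.Apos]
  have hε := D.hε
  have hJr : (1:ℝ) ≤ J := by
    refine le_trans ?_ hJ
    have : 0 ≤ 16 * Real.pi * σ / δ := by positivity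
    linarith
  have hJ0 : 0 < J := by
    have : (0:ℝ) < J := by linarith
    exact_mod_cast this
  set h : ℝ := δ / (8 * σ) with hh
  have hh0 : 0 < h := by positivity
  choose s' hs'card hs'low using fun j : ℕ => D.local_lower (j * h) hδ hδ1
  obtain ⟨y, hyI, hy⟩ := averaging hs hs1 (κ := δ / 16) (by positivity) (by linarith) hJ0
    (fun j => (s' j).map (fun a => ‖a‖))
  have hy1 : 1 ≤ y := hyI.1
  have hy2 : y ≤ 1 + δ / 16 := hyI.2
  have hy0 : 0 < y := by linarith
  set T : ℝ := 3 * J / ((1 - s) * (δ / 16)) with hT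
  have hT1 : 1 ≤ T := by
    rw [hT, one_le_div (by have : 0 < 1 - s := by linarith
                           positivity)]
    have h1 : (1 - s) * (δ / 16) ≤ 1 * 1 := by
      apply mul_le_mul <;> linarith
    linarith
  have hlogT : 0 ≤ Real.log T := Real.log_nonneg hT1
  refine ⟨r * Real.exp (2 / σ * Real.log y), ?_, ?_⟩
  · have : 1 ≤ Real.exp (2 / σ * Real.log y) := by
      apply Real.one_le_exp
      have := Real.log_nonneg hy1
      positivity
    have := D.hr
    nlinarith
  · intro z hz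
    -- angle in [0, 2π)
    obtain ⟨β, hβ0, hβ1, hβ⟩ : ∃ β : ℝ, 0 ≤ β ∧ β < 2 * Real.pi ∧ z = ‖z‖ * exp (β * I) := by
      refine ⟨toIcoMod (by positivity : 0 < 2 * Real.pi) 0 (arg z), ?_, ?_, ?_⟩
      · exact left_le_toIcoMod _ _ _
      · have := toIcoMod_lt_right (by positivity : 0 < 2 * Real.pi) 0 (arg z)
        linarith
      · have h1 := self_sub_toIcoDiv_zsmul (by positivity : 0 < 2 * Real.pi) 0 (arg z)
        rw [← h1]
        conv_lhs => rw [← norm_mul_exp_arg_mul_I z]
        congr 1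
        rw [exp_eq_exp_iff_exists_int]
        refine ⟨toIcoDiv (by positivity : 0 < 2 * Real.pi) 0 (arg z), ?_⟩
        simp only [zsmul_eq_mul]
        push_cast
        ring
    set j : ℕ := ⌊β / h⌋₊ with hj
    have hj1 : (j:ℝ) * h ≤ β := by
      have : (j:ℝ) ≤ β / h := Nat.floor_le (by positivity)
      rwa [le_div_iff₀ hh0] at this
    have hj2 : β < ((j:ℝ) + 1) * h := by
      have : β / h < j + 1 := Nat.lt_floor_add_one _
      rwa [div_lt_iff₀ hh0] at this
    have hjJ : j < J := by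
      have h1 : (j:ℝ) ≤ β / h := Nat.floor_le (by positivity)
      have h2 : β / h < 2 * Real.pi / h := by gcongr
      have h3 : 2 * Real.pi / h = 16 * Real.pi * σ / δ := by
        rw [hh]
        field_simp
        norm_num
      have : (j:ℝ) < J := by linarith
      exact_mod_cast this
    obtain ⟨hyne, hylow⟩ := hy j hjJ
    set θ : ℝ := σ / 2 * (β - j * h) with hθ
    have hθ0 : 0 ≤ θ := by
      have : 0 ≤ β - j * h := by linarith
      positivity
    have hθ1 : θ ≤ δ / 16 := by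
      calc θ ≤ σ / 2 * h := by
            rw [hθ]
            have : β - j * h ≤ h := by linarith
            gcongr
        _ = δ / 16 := by rw [hh]; field_simp; norm_num
    set ζ : ℂ := y * exp (θ * I) with hζ
    have hζn : ‖ζ‖ = y := by
      rw [hζ, norm_mul, norm_exp_ofReal_mul_I, norm_real, Real.norm_eq_abs, abs_of_pos hy0, mul_one]
    have hζmem : ζ ∈ closedBall (1:ℂ) (δ / 8) := by
      rw [mem_closedBall, dist_eq_norm]
      have e1 : ζ - 1 = (y - 1 : ℝ) * exp (θ * I) + (exp (θ * I) - 1) := by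
        rw [hζ]
        push_cast
        ring
      rw [e1]
      calc ‖((y - 1 : ℝ) : ℂ) * exp (θ * I) + (exp (θ * I) - 1)‖
          ≤ ‖((y - 1 : ℝ) : ℂ) * exp (θ * I)‖ + ‖exp (θ * I) - 1‖ := norm_add_le _ _
        _ ≤ δ / 16 + δ / 16 := by
            apply add_le_add
            · rw [norm_mul, norm_exp_ofReal_mul_I, norm_real, Real.norm_eq_abs, mul_one, abs_le]
              constructor <;> linarith
            · rw [mul_comm]
              refine (Real.norm_exp_I_mul_ofReal_sub_one_le).trans ?_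
              rw [Real.norm_eq_abs, abs_of_nonneg hθ0]
              exact hθ1
        _ = δ / 8 := by ring
    have hlogζ : log ζ = Real.log y + θ * I := by
      have e1 : ζ = exp (Real.log y + θ * I) := by
        rw [exp_add, ← ofReal_exp, Real.exp_log hy0]
      rw [e1]
      apply log_exp
      · rw [add_im, ofReal_im, im_ofReal_mul, I_im]
        linarith
      · rw [add_im, ofReal_im, im_ofReal_mul, I_im]
        linarith [Real.pi_gt_three]
    have hHz : Hf f r σ (j * h) ζ = f z := by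
      unfold Hf
      rw [hlogζ]
      congr 1
      rw [hβ, hz]
      have e3 : ((r * Real.exp (2 / σ * Real.log y) : ℝ) : ℂ) =
          r * exp ((2 / σ * Real.log y : ℝ) : ℂ) := by
        push_cast
        rfl
      rw [e3, mul_assoc (r:ℂ) (exp _) (exp _), ← exp_add]
      congr 2
      rw [hθ]
      push_cast
      have : (σ : ℂ) ≠ 0 := by exact_mod_cast hσ0.ne'
      field_simp
      ring
    have hlow := hs'low j ζ hζmem
    have hcast : ((j * h : ℝ)) = (j:ℝ) * h := rfl
    rw [hHz] at hlow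
    refine le_trans ?_ hlow
    rw [neg_add, Real.exp_add]
    have hprod := prod_ge_exp_sum (s := s' j) hζn (by
      intro a ha
      exact hyne _ (Multiset.mem_map_of_mem _ ha))
    have hnorm : Real.exp (-((2 + ε) * A / (1 - 3 * δ) / s * Real.log T)) ≤
        ‖((s' j).map (fun a => ζ - a)).prod‖ := by
      refine le_trans (Real.exp_le_exp.mpr ?_) hprod
      rw [Multiset.map_map, Multiset.card_map] at hylow
      refine le_trans ?_ hylow
      apply neg_le_neg
      apply mul_le_mul_of_nonneg_right _ hlogT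
      apply div_le_div_of_nonneg_right _ hs.le
      rw [le_div_iff₀ (by linarith)]
      exact (hs'card j).le
    gcongr

end LBData

/-- final form of the core theorem -/
theorem core_final {ε : ℝ} (hε : 0 < ε) (hε1 : ε ≤ 1) : ∃ C : ℝ, 0 ≤ C ∧ ∀ (f : ℂ → ℂ)
    (σ r A r₀ m : ℝ), LBData f ε σ r A r₀ m → ∃ r' : ℝ, r ≤ r' ∧ ∀ z, ‖z‖ = r' →
      Real.exp (-((2 + 2 * ε) * A * (Real.log σ + C))) ≤ ‖f z‖ := by
  set δ : ℝ := ε / 30 with hδ
  have hδ0 : 0 < δ := by positivity
  have hδ1 : δ ≤ 1 / 10 := by rw [hδ]; linarith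
  set s : ℝ := 1 - ε / 10 with hs
  have hs0 : 0 < s := by rw [hs]; linarith
  have hs1 : s < 1 := by rw [hs]; linarith
  have hpi := Real.pi_pos
  set c₀ : ℝ := 16 * Real.pi / δ + 2 with hc₀
  have hc₀0 : 0 < c₀ := by positivity
  set c₁ : ℝ := 3 * c₀ / ((1 - s) * (δ / 16)) with hc₁
  have h1s : 0 < 1 - s := by linarith
  have hc₁0 : 0 < c₁ := by positivity
  set C : ℝ := |18 + 12 * Real.log (8 / δ)| + |Real.log (2 * c₁)| with hC
  have hC0 : 0 ≤ C := by positivity
  refine ⟨C, hC0, ?_⟩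
  intro f σ r A r₀ m D
  have hσ := D.hσ
  have hσ0 : 0 < σ := by linarith
  have hA0 : 0 < A := by linarith [D.Apos]
  have hJle : (⌈16 * Real.pi * σ / δ + 1⌉₊ : ℝ) ≤ c₀ * σ + 0 + (1) := by
    have h1 := Nat.ceil_lt_add_one (show 0 ≤ 16 * Real.pi * σ / δ + 1 by positivity)
    have h2 : 16 * Real.pi * σ / δ = 16 * Real.pi / δ * σ := by ring
    rw [h2] at h1
    rw [hc₀, h2]
    nlinarith
  obtain ⟨r', hr', hz'⟩ := D.core hδ0 hδ1 hs0 hs1 (Nat.le_ceil (16 * Real.pi * σ / δ + 1))
  refine ⟨r', hr', fun z hz => le_trans (Real.exp_le_exp.mpr ?_) (hz' z hz)⟩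
  apply neg_le_neg
  set J : ℝ := (⌈16 * Real.pi * σ / δ + 1⌉₊ : ℝ) with hJ
  have hJ1 : 1 ≤ J := by
    have := Nat.le_ceil (16 * Real.pi * σ / δ + 1)
    have h2 : 0 ≤ 16 * Real.pi * σ / δ := by positivity
    linarith
  have hlogT : Real.log (3 * J / ((1 - s) * (δ / 16))) ≤ Real.log σ + Real.log (2 * c₁) := by
    rw [← Real.log_mul hσ0.ne' (by positivity)]
    apply Real.log_le_log (by positivity)
    rw [div_le_iff₀ (by positivity)]
    have e1 : σ * (2 * c₁) * ((1 - s) * (δ / 16)) = 6 * (c₀ * σ) := by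
      rw [hc₁]
      field_simp
      norm_num
    rw [e1]
    have : 1 ≤ c₀ * σ := by
      have : 1 ≤ c₀ := by
        rw [hc₀]
        have : 0 ≤ 16 * Real.pi / δ := by positivity
        linarith
      nlinarith
    linarith
  have hcoef : (2 + ε) * A / (1 - 3 * δ) / s ≤ (2 + 2 * ε) * A := by
    rw [div_div, div_le_iff₀ (by have : 0 < 1 - 3 * δ := by linarith
                                 positivity)]
    have e1 : (1 - 3 * δ) * s = (1 - ε / 10) ^ 2 := by
      rw [hδ, hs]
      ring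
    rw [e1]
    have : (2 + ε) ≤ (2 + 2 * ε) * (1 - ε / 10) ^ 2 := by nlinarith [sq_nonneg ε]
    nlinarith
  have hT0 : 0 ≤ Real.log (3 * J / ((1 - s) * (δ / 16))) := by
    apply Real.log_nonneg
    rw [one_le_div (by positivity)]
    have h1 : (1 - s) * (δ / 16) ≤ 1 * 1 := by
      apply mul_le_mul <;> linarith
    linarith
  have h2 : (2 + ε) * A / (1 - 3 * δ) / s * Real.log (3 * J / ((1 - s) * (δ / 16))) ≤
      (2 + 2 * ε) * A * (Real.log σ + Real.log (2 * c₁)) := by
    calc (2 + ε) * A / (1 - 3 * δ) / s * Real.log (3 * J / ((1 - s) * (δ / 16)))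
        ≤ (2 + 2 * ε) * A * Real.log (3 * J / ((1 - s) * (δ / 16))) := by gcongr
      _ ≤ _ := by gcongr
  have h3 := le_abs_self (18 + 12 * Real.log (8 / δ))
  have h4 := le_abs_self (Real.log (2 * c₁))
  have h5 : (18 + 12 * Real.log (8 / δ)) * A ≤
      (2 + 2 * ε) * A * |18 + 12 * Real.log (8 / δ)| := by
    have h6 := abs_nonneg (18 + 12 * Real.log (8 / δ))
    have h7 : (18 + 12 * Real.log (8 / δ)) * A ≤ |18 + 12 * Real.log (8 / δ)| * A := by gcongr
    have h8 : 0 ≤ |18 + 12 * Real.log (8 / δ)| * A := by positivity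
    nlinarith
  have h9 : (2 + 2 * ε) * A * (Real.log σ + Real.log (2 * c₁)) ≤
      (2 + 2 * ε) * A * (Real.log σ + |Real.log (2 * c₁)|) := by gcongr
  rw [hC]
  nlinarith

end Pool.Agent.Work.MP_06ac62_an
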