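import Pool.Agent.Work.MP_06ac62_an.LB5
import Pool.Agent.Work.MP_06ac62_an.M1

open Complex Metric Filter Topology ComplexConjugate

namespace Pool.Agent.Work.MP_06ac62_an

lemma norm_le_of_logMax {f : ℂ → ℂ} (hf : Continuous f) {z : ℂ} (hpos : 0 < logMax f ‖z‖) :
    ‖f z‖ ≤ Real.exp (logMax f ‖z‖) := by
  have h1 : 0 < maxMod f ‖z‖ := by
    by_contra h
    push Not at h
    have h2 : maxMod f ‖z‖ = 0 := le_antisymm h (maxMod_nonneg hf (norm_nonneg z))
    unfold logMax at hpos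
    rw [h2, Real.log_zero] at hpos
    exact lt_irrefl _ hpos
  unfold logMax
  rw [Real.exp_log h1]
  exact le_maxMod hf rfl

lemma maxMod_pos_of_logMax {f : ℂ → ℂ} (hf : Continuous f) {r : ℝ} (hr : 0 ≤ r)
    (hpos : 0 < logMax f r) : 0 < maxMod f r := by
  by_contra h
  push Not at h
  have h2 : maxMod f r = 0 := le_antisymm h (maxMod_nonneg hf hr)
  unfold logMax at hpos
  rw [h2, Real.log_zero] at hpos
  exact lt_irrefl _ hpos

lemma logMax_mono {f : ℂ → ℂ} (hf : Differentiable ℂ f) {r s : ℝ} (hr : 0 < r) (hrs : r ≤ s)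
    (hpos : 0 < logMax f r) : logMax f r ≤ logMax f s := by
  unfold logMax
  exact Real.log_le_log (maxMod_pos_of_logMax hf.continuous hr.le hpos)
    (maxMod_mono hf hr.le hrs (by linarith))

theorem ratio_of_peak {f : ℂ → ℂ} (hf : IsEntireNonconst f) {ε : ℝ} (hε : 0 < ε) (hε1 : ε ≤ 1)
    {C : ℝ} (hC : ∀ (f : ℂ → ℂ) (σ r A r₀ m : ℝ), LBData f ε σ r A r₀ m → ∃ r' : ℝ, r ≤ r' ∧
      ∀ z, ‖z‖ = r' → Real.exp (-((2 + 2 * ε) * A * (Real.log σ + C))) ≤ ‖f z‖)
    (hC0 : 0 ≤ C) {r₀ m : ℝ} (hr₀ : 0 < r₀) (hr₀1 : r₀ < 1) (hm : 0 < m)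
    (hmin : ∀ z, ‖z‖ = r₀ → m ≤ ‖f z‖) {σ s₀ η : ℝ} (hσ : 1 ≤ σ)
    (hpos : ∀ s, s₀ - 2 / σ * Real.log (150 * σ / ε) ≤ s → 0 < logMax f (Real.exp s))
    (hs₀ : 2 / σ * Real.log (150 * σ / ε) ≤ s₀)
    (hleft : ∀ t, 0 ≤ t → t ≤ 2 / σ * Real.log (150 * σ / ε) →
      logMax f (Real.exp (s₀ - t)) ≤ Real.exp (η - σ * t) * logMax f (Real.exp s₀))
    (hright : ∀ t, 0 ≤ t → t ≤ 2 / σ * Real.log 2 →
      logMax f (Real.exp (s₀ + t)) ≤ Real.exp (η + σ * t) * logMax f (Real.exp s₀))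
    (hA : 1000 * σ ^ 2 * (1 + |Real.log m|) / ε ^ 2 ≤ Real.exp η * logMax f (Real.exp s₀)) :
    ∃ r' : ℝ, Real.exp s₀ ≤ r' ∧ 0 < logMax f r' ∧
      Real.exp (-((2 + 2 * ε) * Real.exp η * (Real.log σ + C)) * logMax f r') ≤ minMod f r' := by
  have hσ0 : 0 < σ := by linarith
  have hlogτ : Real.log (ε / (150 * σ)) = -Real.log (150 * σ / ε) := by
    rw [← Real.log_inv]
    congr 1
    rw [inv_div]
  have hlog0 : 0 < Real.log (150 * σ / ε) := by
    apply Real.log_pos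
    rw [lt_div_iff₀ hε]
    linarith
  set w : ℝ := 2 / σ * Real.log (150 * σ / ε) with hw
  have hw0 : 0 < w := by positivity
  have hps₀ : 0 < logMax f (Real.exp s₀) := hpos s₀ (by linarith)
  have D : LBData f ε σ (Real.exp s₀) (Real.exp η * logMax f (Real.exp s₀)) r₀ m := by
    refine ⟨hf.1, hε, hε1, hσ, hr₀, hr₀1, hm, hmin, Real.exp_pos _, ?_, ?_, hA⟩
    · rw [hlogτ, ← Real.exp_add]
      apply Real.one_le_exp
      have : 2 / σ * -Real.log (150 * σ / ε) = -w := by rw [hw]; ring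
      rw [this]
      linarith
    · intro s hs1 hs2 z hz
      rw [← Real.exp_add] at hz
      rw [hlogτ] at hs1
      have hs1' : -w ≤ s := by
        have : 2 / σ * -Real.log (150 * σ / ε) = -w := by rw [hw]; ring
        rwa [this] at hs1
      have h1 : 0 < logMax f ‖z‖ := by
        rw [hz]
        exact hpos _ (by linarith)
      refine (norm_le_of_logMax hf.1.continuous h1).trans (Real.exp_le_exp.mpr ?_)
      rw [hz]
      by_cases hs : s ≤ 0
      · have h2 := hleft (-s) (by linarith) (by linarith)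
        rw [show s₀ - -s = s₀ + s by ring, show η - σ * -s = η + σ * s by ring, Real.exp_add η] at h2
        linarith
      · push Not at hs
        have h2 := hright s hs.le hs2
        rw [Real.exp_add η] at h2
        linarith
  obtain ⟨r', hr', hz'⟩ := hC f σ _ _ r₀ m D
  have hlog : logMax f (Real.exp s₀) ≤ logMax f r' := logMax_mono hf.1 (Real.exp_pos _) hr' hps₀
  have hr'0 : 0 < r' := lt_of_lt_of_le (Real.exp_pos _) hr'
  refine ⟨r', hr', by linarith, ?_⟩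
  apply le_minMod hr'0.le
  intro z hz
  refine le_trans (Real.exp_le_exp.mpr ?_) (hz' z hz)
  have hcoef : 0 ≤ (2 + 2 * ε) * Real.exp η * (Real.log σ + C) := by
    have := Real.log_nonneg hσ
    positivity
  have h3 := mul_le_mul_of_nonneg_left hlog hcoef
  have e1 : (2 + 2 * ε) * (Real.exp η * logMax f (Real.exp s₀)) * (Real.log σ + C) =
      (2 + 2 * ε) * Real.exp η * (Real.log σ + C) * logMax f (Real.exp s₀) := by ring
  rw [e1]
  linarith

/-- peaks, finite lower order -/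
theorem peak_finite {φ : ℝ → ℝ} {S₀ σ₁ σ₂ : ℝ} (hmono : ∀ s t, S₀ ≤ s → s ≤ t → φ s ≤ φ t)
    (hσ₁ : 0 < σ₁) (hσ₂ : σ₁ < σ₂)
    (ha : ∀ B : ℝ, ∃ᶠ s in atTop, B ≤ φ s - σ₁ * s)
    (hb : ∀ B : ℝ, ∃ᶠ s in atTop, φ s - σ₂ * s ≤ B) {W S η : ℝ} (hW : 0 < W) (hη : 0 < η) :
    ∃ s₀, S ≤ s₀ ∧ S₀ ≤ s₀ - W ∧ (∀ t, 0 ≤ t → t ≤ W → φ (s₀ - t) ≤ φ s₀ - σ₁ * t + η) ∧
      (∀ t, 0 ≤ t → t ≤ W → φ (s₀ + t) ≤ φ s₀ + σ₂ * t + η) := by
  set a : ℝ := max S S₀ with ha'
  have haS : S ≤ a := le_max_left _ _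
  have haS₀ : S₀ ≤ a := le_max_right _ _
  -- choose the corner
  obtain ⟨sc, hsc1, hsc2⟩ := ((ha (φ (a + W) - σ₁ * a + 1 + η)).and_eventually
    (eventually_ge_atTop (a + 2 * W))).exists
  let l : ℝ → ℝ := fun s => σ₁ * s + (σ₂ - σ₁) * max (s - sc) 0
  have hl1 : ∀ s t, s ≤ t → l s - l t ≤ σ₁ * (s - t) := by
    intro s t hst
    simp only [l]
    have h1 : max (s - sc) 0 ≤ max (t - sc) 0 := max_le_max_right 0 (by linarith)
    have h2 : 0 ≤ (σ₂ - σ₁) * (max (t - sc) 0 - max (s - sc) 0) :=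
      mul_nonneg (by linarith) (by linarith)
    linarith
  have hl2 : ∀ s t, s ≤ t → l t - l s ≤ σ₂ * (t - s) := by
    intro s t hst
    simp only [l]
    have h1 : max (t - sc) 0 - max (s - sc) 0 ≤ t - s := by
      rcases le_total (t - sc) 0 with h | h
      · rw [max_eq_right h]
        have := le_max_right (s - sc) 0
        linarith
      · rw [max_eq_left h]
        have := le_max_left (s - sc) 0
        linarith
    have h2 := mul_le_mul_of_nonneg_left h1 (by linarith : 0 ≤ σ₂ - σ₁)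
    linarith
  let F : ℝ → ℝ := fun s => φ s - l s
  have hlsc : l sc = σ₁ * sc := by simp [l]
  have hFsc : φ (a + W) - σ₁ * a + 1 + η ≤ F sc := by
    simp only [F]
    rw [hlsc]
    exact hsc1
  -- the right end
  obtain ⟨s₁, hs₁1, hs₁2⟩ := ((hb (F sc - η - 1 - σ₂ * W - (σ₂ - σ₁) * sc)).and_eventually
    (eventually_ge_atTop (sc + W))).exists
  have haW : a + W ≤ s₁ := by linarith
  have hleftF : ∀ s, a ≤ s → s ≤ a + W → F s < F sc - η := by
    intro s h1 h2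
    simp only [F]
    have h3 := hmono s (a + W) (by linarith) h2
    have h4 : σ₁ * a ≤ l s := by
      simp only [l]
      have h5 := le_max_right (s - sc) 0
      have h6 : 0 ≤ (σ₂ - σ₁) * max (s - sc) 0 := mul_nonneg (by linarith) h5
      have h7 := mul_le_mul_of_nonneg_left h1 hσ₁.le
      linarith
    have h8 : F sc = φ sc - l sc := rfl
    rw [h8] at hFsc
    linarith
  have hrightF : ∀ s, s₁ - W ≤ s → s ≤ s₁ → F s < F sc - η := by
    intro s h1 h2
    simp only [F]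
    have h3 := hmono s s₁ (by linarith) h2
    have h4 : l s = σ₂ * s - (σ₂ - σ₁) * sc := by
      simp only [l]
      rw [max_eq_left (by linarith)]
      ring
    have h5 : σ₂ * (s₁ - W) ≤ σ₂ * s := mul_le_mul_of_nonneg_left h1 (by linarith)
    have h8 : F sc = φ sc - l sc := rfl
    rw [h8] at hs₁1
    linarith
  -- almost maximum
  have hne : (F '' Set.Icc a s₁).Nonempty := ⟨F a, a, ⟨le_rfl, by linarith⟩, rfl⟩
  have hbdd : BddAbove (F '' Set.Icc a s₁) := by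
    refine ⟨φ s₁ - σ₁ * a, ?_⟩
    rintro _ ⟨s, ⟨h1, h2⟩, rfl⟩
    simp only [F]
    have h3 := hmono s s₁ (by linarith) h2
    have h4 : σ₁ * a ≤ l s := by
      simp only [l]
      have h5 := le_max_right (s - sc) 0
      have h6 : 0 ≤ (σ₂ - σ₁) * max (s - sc) 0 := mul_nonneg (by linarith) h5
      have h7 := mul_le_mul_of_nonneg_left h1 hσ₁.le
      linarith
    linarith
  obtain ⟨_, ⟨s₀, ⟨h1, h2⟩, rfl⟩, h3⟩ := exists_lt_of_lt_csSup hne
    (show sSup (F '' Set.Icc a s₁) - η < sSup (F '' Set.Icc a s₁) by linarith)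
  have hscle : F sc ≤ sSup (F '' Set.Icc a s₁) :=
    le_csSup hbdd ⟨sc, ⟨by linarith, by linarith⟩, rfl⟩
  have h4 : a + W < s₀ := by
    by_contra h
    push Not at h
    have := hleftF s₀ h1 h
    linarith
  have h5 : s₀ < s₁ - W := by
    by_contra h
    push Not at h
    have := hrightF s₀ h h2
    linarith
  refine ⟨s₀, by linarith, by linarith, ?_, ?_⟩
  · intro t ht1 ht2
    have h6 : F (s₀ - t) ≤ sSup (F '' Set.Icc a s₁) :=
      le_csSup hbdd ⟨s₀ - t, ⟨by linarith, by linarith⟩, rfl⟩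
    have h7 : F (s₀ - t) = φ (s₀ - t) - l (s₀ - t) := rfl
    have h8 : F s₀ = φ s₀ - l s₀ := rfl
    have h9 := hl1 (s₀ - t) s₀ (by linarith)
    have h10 : σ₁ * (s₀ - t - s₀) = - (σ₁ * t) := by ring
    linarith
  · intro t ht1 ht2
    have h6 : F (s₀ + t) ≤ sSup (F '' Set.Icc a s₁) :=
      le_csSup hbdd ⟨s₀ + t, ⟨by linarith, by linarith⟩, rfl⟩
    have h7 : F (s₀ + t) = φ (s₀ + t) - l (s₀ + t) := rfl
    have h8 : F s₀ = φ s₀ - l s₀ := rfl
    have h9 := hl2 s₀ (s₀ + t) (by linarith)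
    have h10 : σ₂ * (s₀ + t - s₀) = σ₂ * t := by ring
    linarith

end Pool.Agent.Work.MP_06ac62_an
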