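import Pool.Agent.Work.MP_06ac62_an.LB6
import Pool.Agent.Work.MP_06ac62_an.PT

open Complex Metric Filter Topology ComplexConjugate

namespace Pool.Agent.Work.MP_06ac62_an

lemma freq_exp {P : ℝ → Prop} (h : ∃ᶠ r in (atTop : Filter ℝ), P r) :
    ∃ᶠ s in (atTop : Filter ℝ), P (Real.exp s) := by
  have h1 : ∃ᶠ r in (atTop : Filter ℝ), P (Real.exp (Real.log r)) := by
    refine (h.and_eventually (eventually_gt_atTop 0)).mono ?_
    intro r hr
    rw [Real.exp_log hr.2]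
    exact hr.1
  exact Real.tendsto_log_atTop.frequently h1

lemma exists_S₀ {f : ℂ → ℂ} (hf : IsEntireNonconst f) (B : ℝ) :
    ∃ S₀ : ℝ, ∀ s, S₀ ≤ s → B < logMax f (Real.exp s) := by
  obtain ⟨S, hS⟩ := (Real.tendsto_exp_atTop.eventually (eventually_logMax_gt hf B)).exists_forall_of_atTop
  exact ⟨S, fun s hs => hS s hs⟩

lemma nonconst_ne {f : ℂ → ℂ} (hf : IsEntireNonconst f) : ∃ z, f z ≠ 0 := by
  obtain ⟨_, z, w, h⟩ := hf
  by_contra hc
  push Not at hc
  exact h (by rw [hc z, hc w])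

theorem lower_fixed {f : ℂ → ℂ} (hf : IsEntireNonconst f) {ε : ℝ} (hε : 0 < ε) (hε1 : ε ≤ 1)
    {C : ℝ} (hC : ∀ (f : ℂ → ℂ) (σ r A r₀ m : ℝ), LBData f ε σ r A r₀ m → ∃ r' : ℝ, r ≤ r' ∧
      ∀ z, ‖z‖ = r' → Real.exp (-((2 + 2 * ε) * A * (Real.log σ + C))) ≤ ‖f z‖)
    (hC0 : 0 ≤ C) {lam κ : ℝ} (hlam : 2 ≤ lam) (hκ : 0 < κ) (hκ1 : κ ≤ 1 / 2)
    (hlow : lowerOrder f = (lam : EReal)) :
    ((-((2 + 2 * ε) * Real.exp (7 * κ) * (Real.log lam + C)) : ℝ) : EReal) ≤ Lam f := by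
  obtain ⟨r₀, m, hr₀, hr₀1, hm, hmin⟩ := exists_circle hf.1 (nonconst_ne hf)
  set σ₁ : ℝ := lam * (1 - κ) with hσ₁
  set σ₂ : ℝ := lam * (1 + κ) with hσ₂
  have hσ₁1 : 1 ≤ σ₁ := by rw [hσ₁]; nlinarith
  have hσ₁lam : σ₁ ≤ lam := by rw [hσ₁]; nlinarith
  have hσ12 : σ₁ < σ₂ := by rw [hσ₁, hσ₂]; nlinarith
  have hσ₁0 : 0 < σ₁ := by linarith
  set φ : ℝ → ℝ := fun s => Real.log (logMax f (Real.exp s)) with hφ
  obtain ⟨S₀, hS₀⟩ := exists_S₀ hf 0
  have hmono : ∀ s t, S₀ ≤ s → s ≤ t → φ s ≤ φ t := by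
    intro s t hs hst
    apply Real.log_le_log (hS₀ s hs)
    exact logMax_mono hf.1 (Real.exp_pos _) (Real.exp_le_exp.mpr hst) (hS₀ s hs)
  have ha : ∀ B : ℝ, ∃ᶠ s in atTop, B ≤ φ s - σ₁ * s := by
    intro B
    have h1 : ((lam * (1 - κ / 2) : ℝ) : EReal) < lowerOrder f := by
      rw [hlow, EReal.coe_lt_coe_iff]
      nlinarith
    have h2 := eventually_lt_of_lt_liminf h1
    have h3 := Real.tendsto_exp_atTop.eventually h2
    apply Eventually.frequently
    have h4 : Tendsto (fun s : ℝ => (lam * κ / 2) * s) atTop atTop :=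
      tendsto_id.const_mul_atTop (by positivity)
    filter_upwards [h3, eventually_gt_atTop 0, h4.eventually_ge_atTop B] with s hs1 hs2 hs3
    rw [EReal.coe_lt_coe_iff, Real.log_exp, lt_div_iff₀ hs2] at hs1
    have : φ s = Real.log (logMax f (Real.exp s)) := rfl
    rw [this, hσ₁]
    linarith
  have hb : ∀ B : ℝ, ∃ᶠ s in atTop, φ s - σ₂ * s ≤ B := by
    intro B
    have h1 : lowerOrder f < ((lam * (1 + κ / 2) : ℝ) : EReal) := by
      rw [hlow, EReal.coe_lt_coe_iff]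
      nlinarith
    have h2 := freq_exp (frequently_lt_of_liminf_lt (by isBoundedDefault) h1)
    have h4 : Tendsto (fun s : ℝ => (lam * κ / 2) * s) atTop atTop :=
      tendsto_id.const_mul_atTop (by positivity)
    refine (h2.and_eventually ((eventually_gt_atTop 0).and (h4.eventually_ge_atTop (-B)))).mono ?_
    rintro s ⟨hs1, hs2, hs3⟩
    rw [EReal.coe_lt_coe_iff, Real.log_exp, div_lt_iff₀ hs2] at hs1
    have : φ s = Real.log (logMax f (Real.exp s)) := rfl
    rw [this, hσ₂]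
    linarith
  set W : ℝ := 2 / σ₁ * Real.log (150 * σ₁ / ε) with hW
  have hlog0 : Real.log 2 ≤ Real.log (150 * σ₁ / ε) := by
    apply Real.log_le_log (by norm_num)
    rw [le_div_iff₀ hε]
    linarith
  have hlog2 : 0 < Real.log 2 := Real.log_pos (by norm_num)
  have hlog2' : Real.log 2 < 0.6931471808 := Real.log_two_lt_d9
  have hW0 : 0 < W := by
    have : 0 < Real.log (150 * σ₁ / ε) := by linarith
    positivity
  have hW2 : 2 / σ₁ * Real.log 2 ≤ W := by rw [hW]; gcongr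
  obtain ⟨S₁, hS₁⟩ := exists_S₀ hf (1000 * σ₁ ^ 2 * (1 + |Real.log m|) / ε ^ 2)
  apply le_limsup_ratio
  rw [frequently_atTop]
  intro R
  obtain ⟨s₀, h1, h2, h3, h4⟩ := peak_finite hmono hσ₁0 hσ12 ha hb
    (S := max (max S₁ W) (Real.log (max R 1))) hW0 hκ
  have hs₀S₁ : S₁ ≤ s₀ := (le_max_left _ _).trans ((le_max_left _ _).trans h1)
  have hs₀W : W ≤ s₀ := (le_max_right _ _).trans ((le_max_left _ _).trans h1)
  have hs₀R : R ≤ Real.exp s₀ := by
    have h5 : Real.log (max R 1) ≤ s₀ := (le_max_right _ _).trans h1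
    have h6 := Real.exp_le_exp.mpr h5
    rw [Real.exp_log (by positivity)] at h6
    exact (le_max_left _ _).trans h6
  have hposs : ∀ s, s₀ - W ≤ s → 0 < logMax f (Real.exp s) := fun s hs => hS₀ s (by linarith)
  have hps₀ := hposs s₀ (by linarith)
  obtain ⟨r', hr', hr'pos, hr'm⟩ := ratio_of_peak hf hε hε1 hC hC0 hr₀ hr₀1 hm hmin hσ₁1
    (s₀ := s₀) (η := 7 * κ) hposs hs₀W
    (by
      intro t ht1 ht2
      have h5 := h3 t ht1 ht2
      have h6 : φ (s₀ - t) = Real.log (logMax f (Real.exp (s₀ - t))) := rfl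
      have h7 : φ s₀ = Real.log (logMax f (Real.exp s₀)) := rfl
      rw [h6, h7] at h5
      have h8 := hposs (s₀ - t) (by linarith)
      have h9 := Real.exp_le_exp.mpr h5
      rw [Real.exp_log h8] at h9
      refine h9.trans ?_
      rw [show Real.exp (7 * κ - σ₁ * t) * logMax f (Real.exp s₀) =
        Real.exp (7 * κ - σ₁ * t + Real.log (logMax f (Real.exp s₀))) by
          rw [Real.exp_add (7 * κ - σ₁ * t), Real.exp_log hps₀]]
      apply Real.exp_le_exp.mpr
      linarith)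
    (by
      intro t ht1 ht2
      have h5 := h4 t ht1 (ht2.trans hW2)
      have h6 : φ (s₀ + t) = Real.log (logMax f (Real.exp (s₀ + t))) := rfl
      have h7 : φ s₀ = Real.log (logMax f (Real.exp s₀)) := rfl
      rw [h6, h7] at h5
      have h8 := hposs (s₀ + t) (by linarith)
      have h9 := Real.exp_le_exp.mpr h5
      rw [Real.exp_log h8] at h9
      refine h9.trans ?_
      rw [show Real.exp (7 * κ + σ₁ * t) * logMax f (Real.exp s₀) =
        Real.exp (7 * κ + σ₁ * t + Real.log (logMax f (Real.exp s₀))) by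
          rw [Real.exp_add (7 * κ + σ₁ * t), Real.exp_log hps₀]]
      apply Real.exp_le_exp.mpr
      have h10 : (σ₂ - σ₁) * t ≤ 6 * κ := by
        have e1 : σ₂ - σ₁ = 2 * κ * lam := by rw [hσ₁, hσ₂]; ring
        have e2 : t * σ₁ ≤ 2 * Real.log 2 := by
          have : 2 / σ₁ * Real.log 2 = 2 * Real.log 2 / σ₁ := by ring
          rw [this, le_div_iff₀ hσ₁0] at ht2
          exact ht2
        have e3 : lam * t ≤ 2 * (t * σ₁) := by
          rw [hσ₁]
          have : 0 ≤ lam * t := by positivity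
          nlinarith
        rw [e1]
        nlinarith
      linarith)
    (by
      have h5 := (hS₁ s₀ hs₀S₁).le
      have h6 : 1 ≤ Real.exp (7 * κ) := Real.one_le_exp (by positivity)
      nlinarith)
  refine ⟨r', hs₀R.trans hr', hr'pos, le_trans (Real.exp_le_exp.mpr ?_) hr'm⟩
  apply mul_le_mul_of_nonneg_right _ hr'pos.le
  apply neg_le_neg
  have := Real.log_le_log hσ₁0 hσ₁lam
  gcongr

theorem lower_Q2 {ε : ℝ} (hε : 0 < ε) : ∃ lam0 : ℝ, ∀ lam ≥ lam0, ∀ f : ℂ → ℂ,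
    IsEntireNonconst f → lowerOrder f = (lam : EReal) →
      ((-((2 + ε) * Real.log lam) : ℝ) : EReal) ≤ Lam f := by
  set e : ℝ := min ε 1 with he
  have he0 : 0 < e := by positivity
  have he1 : e ≤ 1 := min_le_right _ _
  have heε : e ≤ ε := min_le_left _ _
  obtain ⟨C, hC0, hC⟩ := core_final (ε := e / 8) (by positivity) (by linarith)
  set κ : ℝ := Real.log (1 + e / 8) / 7 with hκ
  have hκ0 : 0 < κ := by
    have : 0 < Real.log (1 + e / 8) := Real.log_pos (by linarith)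
    positivity
  have hκ1 : κ ≤ 1 / 2 := by
    have h1 := Real.log_le_sub_one_of_pos (show 0 < 1 + e / 8 by positivity)
    rw [hκ]
    linarith
  have hexp : Real.exp (7 * κ) = 1 + e / 8 := by
    rw [hκ, mul_div_cancel₀ _ (by norm_num : (7:ℝ) ≠ 0), Real.exp_log (by positivity)]
  obtain ⟨lam0, hlam0⟩ := ((eventually_ge_atTop (2:ℝ)).and
    (Real.tendsto_log_atTop.eventually_ge_atTop (12 * C / e))).exists_forall_of_atTop
  refine ⟨lam0, fun lam hlam f hf hlow => ?_⟩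
  obtain ⟨h2, h3⟩ := hlam0 lam hlam
  refine le_trans ?_ (lower_fixed hf (by positivity) (by linarith) hC hC0 h2 hκ0 hκ1 hlow)
  rw [EReal.coe_le_coe_iff, hexp]
  apply neg_le_neg
  rw [div_le_iff₀ he0] at h3
  have hlog : 0 ≤ Real.log lam := Real.log_nonneg (by linarith)
  have e1 : (2 + 2 * (e / 8)) * (1 + e / 8) ≤ 2 + 3 * e / 4 := by nlinarith
  calc (2 + 2 * (e / 8)) * (1 + e / 8) * (Real.log lam + C)
      ≤ (2 + 3 * e / 4) * (Real.log lam + C) := by gcongr
    _ ≤ (2 + e) * Real.log lam := by nlinarith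
    _ ≤ (2 + ε) * Real.log lam := by gcongr

end Pool.Agent.Work.MP_06ac62_an
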