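import Pool.Agent.Work.MP_06ac62_an.C4

open MeasureTheory Complex ComplexConjugate Metric Filter Topology

namespace Pool.Agent.Work.MP_06ac62_an

/-- squared moduli of the centres -/
noncomputable def tq (ρ : ℝ) (k : ℕ) : ℝ := √(120 * ρ * ((k : ℝ) + ⌈ρ⌉₊))

/-- the centres -/
noncomputable def zq (ρ : ℝ) (k : ℕ) : ℂ :=
  (√(tq ρ k) : ℝ) * exp ((tq ρ k / (3 * ρ) : ℝ) * I)

/-- the local coordinates -/
noncomputable def wq (ρ : ℝ) (k : ℕ) (z : ℂ) : ℂ := 2 * conj (zq ρ k) * (z - zq ρ k)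

lemma tq_sq {ρ : ℝ} (hρ : 0 < ρ) (k : ℕ) : (tq ρ k) ^ 2 = 120 * ρ * ((k : ℝ) + ⌈ρ⌉₊) := by
  unfold tq
  rw [Real.sq_sqrt (by positivity)]

lemma tq_nonneg (ρ : ℝ) (k : ℕ) : 0 ≤ tq ρ k := Real.sqrt_nonneg _

lemma tq_ge {ρ : ℝ} (hρ : 0 < ρ) (k : ℕ) : 2 * ρ ≤ tq ρ k := by
  apply Real.le_sqrt_of_sq_le
  have h1 : ρ ≤ ⌈ρ⌉₊ := Nat.le_ceil ρ
  have h2 : (0:ℝ) ≤ k := Nat.cast_nonneg k
  nlinarith [mul_le_mul_of_nonneg_left h1 hρ.le, mul_nonneg hρ.le h2]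

lemma tq_lt {ρ : ℝ} (hρ : 0 < ρ) {j k : ℕ} (h : j < k) : tq ρ j < tq ρ k := by
  unfold tq
  apply Real.sqrt_lt_sqrt (by positivity)
  have : (j:ℝ) < k := by exact_mod_cast h
  have : 0 < 120 * ρ := by positivity
  apply mul_lt_mul_of_pos_left _ this
  linarith

lemma norm_zq (ρ : ℝ) (k : ℕ) : ‖zq ρ k‖ = √(tq ρ k) := by
  unfold zq
  rw [norm_mul, norm_exp_ofReal_mul_I, norm_real, Real.norm_eq_abs, abs_of_nonneg (Real.sqrt_nonneg _),
    mul_one]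

lemma normSq_zq (ρ : ℝ) (k : ℕ) : normSq (zq ρ k) = tq ρ k := by
  rw [normSq_eq_norm_sq, norm_zq, Real.sq_sqrt (tq_nonneg ρ k)]

lemma zq_ne {ρ : ℝ} (hρ : 0 < ρ) (k : ℕ) : zq ρ k ≠ 0 := by
  rw [← normSq_pos, normSq_zq]
  linarith [tq_ge hρ k]

lemma norm_wq (ρ : ℝ) (k : ℕ) (z : ℂ) : ‖wq ρ k z‖ = 2 * √(tq ρ k) * ‖z - zq ρ k‖ := by
  unfold wq
  rw [norm_mul, norm_mul, norm_conj, norm_zq]
  simp

lemma disj_num {p q : ℝ} (hp0 : 0 < p) (hpq : p < q) (a5 : q < 3 / 2 * p)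
    (f3 : p * q * (2 / Real.pi * 40) * (3 / 4 * p) ≤ Real.pi / 2 * (p + q) * (q ^ 2 + p ^ 2)) :
    False := by
  have hq0 : 0 < q := by linarith
  have hpi := Real.pi_pos
  have f4 : p * q * 120 * p ≤ Real.pi ^ 2 * (p + q) * (q ^ 2 + p ^ 2) := by
    have e1 : p * q * (2 / Real.pi * 40) * (3 / 4 * p) * (2 * Real.pi) = p * q * 120 * p := by
      field_simp
      ring
    have e2 : Real.pi / 2 * (p + q) * (q ^ 2 + p ^ 2) * (2 * Real.pi) =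
        Real.pi ^ 2 * (p + q) * (q ^ 2 + p ^ 2) := by ring
    rw [← e1, ← e2]
    gcongr
  have hpi2 : Real.pi ^ 2 ≤ 9.9 := by
    have h := Real.pi_lt_d4
    calc Real.pi ^ 2 ≤ 3.1416 ^ 2 := by gcongr
      _ ≤ 9.9 := by norm_num
  have f5 : Real.pi ^ 2 * (p + q) * (q ^ 2 + p ^ 2) ≤ 9.9 * (2 * q) * (2 * q ^ 2) := by
    have : p ^ 2 ≤ q ^ 2 := by gcongr
    gcongr <;> linarith
  have f6 : 120 * p ^ 2 ≤ 39.6 * q ^ 2 := by
    have : (120 * p ^ 2) * q ≤ (39.6 * q ^ 2) * q := by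
      calc (120 * p ^ 2) * q = p * q * 120 * p := by ring
        _ ≤ 9.9 * (2 * q) * (2 * q ^ 2) := f4.trans f5
        _ = (39.6 * q ^ 2) * q := by ring
    exact le_of_mul_le_mul_right this hq0
  have f7 : q ^ 2 ≤ (3 / 2 * p) ^ 2 := by
    apply pow_le_pow_left₀ hq0.le a5.le
  have f8 : 0 < p ^ 2 := by positivity
  have f9 : (3 / 2 * p) ^ 2 = 9 / 4 * p ^ 2 := by ring
  rw [f9] at f7
  linarith

lemma disjq_lt {ρ L : ℝ} (hρ : 4 ≤ ρ) (hL : L + Real.pi ≤ ρ) {j k : ℕ} (hjk : j < k) {z : ℂ}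
    (hj : z ∈ BB (fun _ => Set.univ) (wq ρ) L j) (hk : z ∈ BB (fun _ => Set.univ) (wq ρ) L k) :
    False := by
  have hρ0 : 0 < ρ := by linarith
  obtain ⟨_, hj1, hj2⟩ := hj
  obtain ⟨_, hk1, hk2⟩ := hk
  set p : ℝ := √(tq ρ j) with hp
  set q : ℝ := √(tq ρ k) with hq
  have hpp : p ^ 2 = tq ρ j := Real.sq_sqrt (tq_nonneg ρ j)
  have hqq : q ^ 2 = tq ρ k := Real.sq_sqrt (tq_nonneg ρ k)
  have hp2 := tq_ge hρ0 j
  have hlt := tq_lt hρ0 hjk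
  have hp0 : 0 < p := Real.sqrt_pos.mpr (by linarith)
  have hpq : p < q := Real.sqrt_lt_sqrt (tq_nonneg ρ j) hlt
  have hq0 : 0 < q := by linarith
  have a1 : 2 * p * ‖z - zq ρ j‖ < ρ := by
    rw [← norm_wq]
    calc ‖wq ρ j z‖ ≤ |(wq ρ j z).re| + |(wq ρ j z).im| := norm_le_abs_re_add_abs_im _
      _ < L + Real.pi := add_lt_add hj1 hj2
      _ ≤ ρ := hL
  have a2 : 2 * q * ‖z - zq ρ k‖ < ρ := by
    rw [← norm_wq]
    calc ‖wq ρ k z‖ ≤ |(wq ρ k z).re| + |(wq ρ k z).im| := norm_le_abs_re_add_abs_im _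
      _ < L + Real.pi := add_lt_add hk1 hk2
      _ ≤ ρ := hL
  have n1 := norm_nonneg (z - zq ρ j)
  have n2 := norm_nonneg (z - zq ρ k)
  have a3 : q - p ≤ ‖z - zq ρ j‖ + ‖z - zq ρ k‖ := by
    have h1 : ‖zq ρ k‖ - ‖zq ρ j‖ ≤ ‖zq ρ k - zq ρ j‖ := norm_sub_norm_le _ _
    rw [norm_zq, norm_zq] at h1
    have h2 : ‖zq ρ k - zq ρ j‖ ≤ ‖z - zq ρ j‖ + ‖z - zq ρ k‖ := by
      have : zq ρ k - zq ρ j = (z - zq ρ j) - (z - zq ρ k) := by ring
      rw [this]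
      exact norm_sub_le _ _
    linarith
  have a4 : p * (q - p) < ρ := by
    have h1 : 2 * p * ‖z - zq ρ k‖ ≤ 2 * q * ‖z - zq ρ k‖ := by gcongr
    nlinarith
  have a5 : q < 3 / 2 * p := by nlinarith
  have hz1 : 3 / 4 * p ≤ ‖z‖ := by
    have h1 : ‖zq ρ j‖ - ‖z‖ ≤ ‖zq ρ j - z‖ := norm_sub_norm_le _ _
    rw [norm_zq, norm_sub_rev] at h1
    nlinarith
  have hz0 : 0 < ‖z‖ := by nlinarith
  set d : ℝ := q ^ 2 - p ^ 2 with hd
  have hd0 : 0 < d := by rw [hd, hqq, hpp]; linarith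
  have hd1 : d < 3 * ρ := by
    rw [hd]
    nlinarith
  have hd2 : d * (q ^ 2 + p ^ 2) ≥ 120 * ρ := by
    have h1 : d * (q ^ 2 + p ^ 2) = (tq ρ k) ^ 2 - (tq ρ j) ^ 2 := by
      rw [hd, hqq, hpp]
      ring
    rw [h1, tq_sq hρ0, tq_sq hρ0]
    have : (j:ℝ) + 1 ≤ k := by exact_mod_cast hjk
    nlinarith
  set X : ℂ := conj (zq ρ j) * z with hX
  set Y : ℂ := conj z * zq ρ k with hY
  have b1 : |X.im| < Real.pi / 2 := by
    have e : (wq ρ j z).im = 2 * X.im := by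
      unfold wq
      rw [hX]
      simp
      ring
    rw [e, abs_mul, abs_two] at hj2
    linarith
  have b2 : |Y.im| < Real.pi / 2 := by
    have e : (wq ρ k z).im = - (2 * Y.im) := by
      unfold wq
      rw [hY]
      simp
      ring
    rw [e, abs_neg, abs_mul, abs_two] at hk2
    linarith
  have b3 : |X.re| ≤ p * ‖z‖ := by
    refine (abs_re_le_norm X).trans (le_of_eq ?_)
    rw [hX, norm_mul, norm_conj, norm_zq]
  have b4 : |Y.re| ≤ q * ‖z‖ := by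
    refine (abs_re_le_norm Y).trans (le_of_eq ?_)
    rw [hY, norm_mul, norm_conj, norm_zq]
    ring
  have b5 : X * Y = (conj (zq ρ j) * zq ρ k) * ((‖z‖ ^ 2 : ℝ) : ℂ) := by
    rw [← normSq_eq_norm_sq, ← mul_conj, hX, hY]
    ring
  have b6 : (conj (zq ρ j) * zq ρ k).im = p * q * Real.sin (d / (3 * ρ)) := by
    have e1 : conj (zq ρ j) * zq ρ k = ((p * q : ℝ) : ℂ) * exp ((d / (3 * ρ) : ℝ) * I) := by
      unfold zq
      rw [map_mul, conj_ofReal, ← exp_conj, map_mul, conj_ofReal, conj_I]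
      have : ((d / (3 * ρ) : ℝ) : ℂ) * I = ((tq ρ j / (3 * ρ) : ℝ) : ℂ) * -I +
          ((tq ρ k / (3 * ρ) : ℝ) : ℂ) * I := by
        rw [hd, hqq, hpp]
        push_cast
        ring
      rw [this, exp_add]
      push_cast
      ring
    rw [e1, im_ofReal_mul, exp_ofReal_mul_I_im]
  have b7 : p * q * Real.sin (d / (3 * ρ)) * ‖z‖ ^ 2 = X.re * Y.im + X.im * Y.re := by
    have := congrArg Complex.im b5
    rw [mul_im, im_mul_ofReal, b6] at this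
    linarith
  have b8 : p * q * Real.sin (d / (3 * ρ)) * ‖z‖ ^ 2 ≤ Real.pi / 2 * (p + q) * ‖z‖ := by
    rw [b7]
    have c1 : X.re * Y.im ≤ p * ‖z‖ * (Real.pi / 2) := by
      refine (le_abs_self _).trans ?_
      rw [abs_mul]
      exact mul_le_mul b3 b2.le (abs_nonneg _) (by positivity)
    have c2 : X.im * Y.re ≤ Real.pi / 2 * (q * ‖z‖) := by
      refine (le_abs_self _).trans ?_
      rw [abs_mul]
      exact mul_le_mul b1.le b4 (abs_nonneg _) (by positivity)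
    linarith
  have b9 : p * q * Real.sin (d / (3 * ρ)) * ‖z‖ ≤ Real.pi / 2 * (p + q) := by
    have : p * q * Real.sin (d / (3 * ρ)) * ‖z‖ * ‖z‖ ≤ Real.pi / 2 * (p + q) * ‖z‖ := by
      calc p * q * Real.sin (d / (3 * ρ)) * ‖z‖ * ‖z‖ = p * q * Real.sin (d / (3 * ρ)) * ‖z‖ ^ 2 := by
            ring
        _ ≤ _ := b8
    exact le_of_mul_le_mul_right this hz0
  have hpi3 := Real.pi_gt_three
  have hpi := Real.pi_pos
  have b10 : 2 / Real.pi * (d / (3 * ρ)) ≤ Real.sin (d / (3 * ρ)) := by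
    apply Real.mul_le_sin (by positivity)
    have : d / (3 * ρ) ≤ 1 := by
      rw [div_le_one (by positivity)]
      exact hd1.le
    linarith
  have b11 : 40 ≤ d / (3 * ρ) * (q ^ 2 + p ^ 2) := by
    rw [div_mul_eq_mul_div, le_div_iff₀ (by positivity)]
    linarith
  -- final contradiction
  have hsin0 : 0 ≤ Real.sin (d / (3 * ρ)) := le_trans (by positivity) b10
  have f1 : p * q * Real.sin (d / (3 * ρ)) * (3 / 4 * p) ≤ Real.pi / 2 * (p + q) := by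
    refine le_trans ?_ b9
    gcongr
  have f2 : p * q * (2 / Real.pi * (d / (3 * ρ))) * (3 / 4 * p) ≤ Real.pi / 2 * (p + q) := by
    refine le_trans ?_ f1
    gcongr
  have f3 : p * q * (2 / Real.pi * 40) * (3 / 4 * p) ≤ Real.pi / 2 * (p + q) * (q ^ 2 + p ^ 2) := by
    calc p * q * (2 / Real.pi * 40) * (3 / 4 * p)
        ≤ p * q * (2 / Real.pi * (d / (3 * ρ) * (q ^ 2 + p ^ 2))) * (3 / 4 * p) := by gcongr
      _ = p * q * (2 / Real.pi * (d / (3 * ρ))) * (3 / 4 * p) * (q ^ 2 + p ^ 2) := by ring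
      _ ≤ _ := by gcongr
  exact disj_num hp0 hpq a5 f3

lemma disjq {ρ L : ℝ} (hρ : 4 ≤ ρ) (hL : L + Real.pi ≤ ρ) (j k : ℕ) (z : ℂ)
    (hj : z ∈ BB (fun _ => Set.univ) (wq ρ) L j) (hk : z ∈ BB (fun _ => Set.univ) (wq ρ) L k) :
    j = k := by
  rcases lt_trichotomy j k with h | h | h
  · exact (disjq_lt hρ hL h hj hk).elim
  · exact h
  · exact (disjq_lt hρ hL h hk hj).elim

lemma marginq {ρ L : ℝ} (hρ : 4 ≤ ρ) (hL : L + Real.pi ≤ ρ) (z : ℂ) (δ : ℝ) (hδ : 0 < δ) :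
    ∀ᶠ x in 𝓝 z, ∀ k, x ∈ BB (fun _ => Set.univ) (wq ρ) L k →
      z ∈ (Set.univ : Set ℂ) ∧ ‖wq ρ k z - wq ρ k x‖ < δ := by
  have hρ0 : 0 < ρ := by linarith
  have hz := norm_nonneg z
  filter_upwards [ball_mem_nhds z (show 0 < min 1 (δ / (2 * (‖z‖ + 1 + ρ))) by positivity)] with x hx k hxk
  refine ⟨Set.mem_univ _, ?_⟩
  rw [mem_ball, dist_eq_norm] at hx
  have h1 := lt_of_lt_of_le hx (min_le_left _ _)
  have h2 := lt_of_lt_of_le hx (min_le_right _ _)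
  obtain ⟨_, hk1, hk2⟩ := hxk
  have a1 : 2 * √(tq ρ k) * ‖x - zq ρ k‖ < ρ := by
    rw [← norm_wq]
    calc ‖wq ρ k x‖ ≤ |(wq ρ k x).re| + |(wq ρ k x).im| := norm_le_abs_re_add_abs_im _
      _ < L + Real.pi := add_lt_add hk1 hk2
      _ ≤ ρ := hL
  have hsq : 1 ≤ √(tq ρ k) := by
    rw [Real.one_le_sqrt]
    linarith [tq_ge hρ0 k]
  have n1 := norm_nonneg (x - zq ρ k)
  have a2 : ‖x - zq ρ k‖ < ρ := by nlinarith
  have a3 : √(tq ρ k) ≤ ‖z‖ + 1 + ρ := by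
    rw [← norm_zq]
    calc ‖zq ρ k‖ = ‖z + (x - z) - (x - zq ρ k)‖ := by ring_nf
      _ ≤ ‖z + (x - z)‖ + ‖x - zq ρ k‖ := norm_sub_le _ _
      _ ≤ ‖z‖ + ‖x - z‖ + ‖x - zq ρ k‖ := by gcongr; exact norm_add_le _ _
      _ ≤ ‖z‖ + 1 + ρ := by linarith
  have e1 : wq ρ k z - wq ρ k x = 2 * conj (zq ρ k) * (z - x) := by
    unfold wq
    ring
  rw [e1, norm_mul, norm_mul, norm_conj, norm_zq, norm_sub_rev z x]
  rw [lt_div_iff₀ (by positivity)] at h2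
  have h3 : ‖(2:ℂ)‖ = 2 := by simp
  rw [h3]
  have n2 := norm_nonneg (x - z)
  have h4 : √(tq ρ k) * ‖x - z‖ ≤ (‖z‖ + 1 + ρ) * ‖x - z‖ := by gcongr
  nlinarith

/-- the weight -/
noncomputable def Uq (z : ℂ) : ℝ := Real.exp (normSq z)

lemma contDiff_Uq : ContDiff ℝ 2 Uq := Real.contDiff_exp.comp contDiff_normSq'

lemma lap_Uq (z : ℂ) : lap Uq z = 4 * (1 + normSq z) * Real.exp (normSq z) := by
  have h := lap_comp_normSq (h := Real.exp) (F := fun x => x) (z := z)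
    (Eventually.of_forall fun x => differentiableAt_id)
    (Real.contDiff_exp.contDiffAt)
  have e : Uq = fun x => Real.exp (normSq ((fun x => x) x)) := rfl
  rw [e, h]
  have d3 : deriv (fun x : ℂ => x) z = 1 := deriv_id z
  rw [d3, map_one, Real.deriv_exp, Real.deriv_exp]
  ring

lemma hasDerivAt_wq (ρ : ℝ) (k : ℕ) (z : ℂ) : HasDerivAt (wq ρ k) (2 * conj (zq ρ k)) z := by
  unfold wq
  have := ((hasDerivAt_id z).sub_const (zq ρ k)).const_mul (2 * conj (zq ρ k))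
  simpa using this

lemma re_wq (ρ : ℝ) (k : ℕ) (z : ℂ) :
    tq ρ k + (wq ρ k z).re = normSq z - normSq (z - zq ρ k) := by
  rw [← normSq_zq]
  unfold wq
  simp only [normSq_apply, mul_re, mul_im, conj_re, conj_im, sub_re, sub_im, re_ofNat, im_ofNat]
  ring

lemma h4q (ρ : ℝ) (k : ℕ) (z : ℂ) :
    Real.exp (tq ρ k) * Real.exp ((wq ρ k z).re) * normSq (deriv (wq ρ k) z) ≤ lap Uq z := by
  rw [← Real.exp_add, re_wq, (hasDerivAt_wq ρ k z).deriv, lap_Uq, map_mul, normSq_conj]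
  have h2 : normSq (2:ℂ) = 4 := by
    rw [normSq_apply]
    norm_num
  rw [h2, Real.exp_sub]
  have h3 : normSq (z - zq ρ k) + 1 ≤ Real.exp (normSq (z - zq ρ k)) := Real.add_one_le_exp _
  have h4 : normSq (zq ρ k) ≤ (1 + normSq z) * (1 + normSq (z - zq ρ k)) := by
    rw [normSq_eq_norm_sq, normSq_eq_norm_sq, normSq_eq_norm_sq]
    have h5 : ‖zq ρ k‖ ≤ ‖z‖ + ‖z - zq ρ k‖ := by
      calc ‖zq ρ k‖ = ‖z - (z - zq ρ k)‖ := by ring_nf
        _ ≤ _ := norm_sub_le _ _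
    have h6 : ‖zq ρ k‖ ^ 2 ≤ (‖z‖ + ‖z - zq ρ k‖) ^ 2 := by gcongr
    nlinarith [sq_nonneg (‖z‖ * ‖z - zq ρ k‖ - 1)]
  have h7 := normSq_nonneg z
  have h8 := normSq_nonneg (z - zq ρ k)
  have hE : 0 < Real.exp (normSq (z - zq ρ k)) := Real.exp_pos _
  rw [div_mul_eq_mul_div, div_le_iff₀ hE]
  have h9 : normSq (zq ρ k) ≤ (1 + normSq z) * Real.exp (normSq (z - zq ρ k)) := by
    refine h4.trans ?_
    gcongr
    linarith
  have h10 := mul_le_mul_of_nonneg_left h9 (Real.exp_pos (normSq z)).le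
  linarith

end Pool.Agent.Work.MP_06ac62_an
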