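import Pool.Agent.Work.MP_06ac62_an.Q1a

open MeasureTheory Complex ComplexConjugate Metric Filter Topology

namespace Pool.Agent.Work.MP_06ac62_an

lemma norm_exp_sub_exp (a b : ℝ) : ‖exp ((a : ℂ) * I) - exp ((b : ℂ) * I)‖ ≤ |a - b| := by
  have e : exp ((a : ℂ) * I) - exp ((b : ℂ) * I) =
      exp ((b : ℂ) * I) * (exp (I * ((a - b : ℝ) : ℂ)) - 1) := by
    rw [mul_sub, mul_one, ← exp_add]
    congr 2
    push_cast
    ring
  rw [e, norm_mul, norm_exp_ofReal_mul_I, one_mul]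
  exact Real.norm_exp_I_mul_ofReal_sub_one_le

/-- choice of the index -/
lemma exists_index {ρ r : ℝ} (hρ : 4 ≤ ρ) (hr : 720 * ρ ≤ r) :
    ∃ k : ℕ, tq ρ k ≤ r ^ 2 ∧ r ^ 2 - tq ρ k ≤ 120 * ρ / r ^ 2 := by
  have hρ0 : 0 < ρ := by linarith
  have hr0 : 0 < r := by linarith
  have hr1 : 1 ≤ r := by linarith
  set c : ℝ := 120 * ρ with hc
  have hc0 : 0 < c := by positivity
  set n : ℕ := ⌊r ^ 4 / c⌋₊ with hn
  have hn1 : (n:ℝ) * c ≤ r ^ 4 := by
    have : (n:ℝ) ≤ r ^ 4 / c := Nat.floor_le (by positivity)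
    rwa [le_div_iff₀ hc0] at this
  have hn2 : r ^ 4 < ((n:ℝ) + 1) * c := by
    have : r ^ 4 / c < n + 1 := Nat.lt_floor_add_one _
    rwa [div_lt_iff₀ hc0] at this
  have hceil : (⌈ρ⌉₊ : ℝ) ≤ ρ + 1 := (Nat.ceil_lt_add_one hρ0.le).le
  have hle : ⌈ρ⌉₊ ≤ n := by
    apply Nat.le_floor
    rw [le_div_iff₀ hc0]
    have h1 : (ρ + 1) * c ≤ r ^ 2 := by
      have h2 : (720 * ρ) ^ 2 ≤ r ^ 2 := by gcongr
      have h3 : (ρ + 1) * c ≤ (720 * ρ) ^ 2 := by rw [hc]; nlinarith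
      linarith
    have h2 : r ^ 2 ≤ r ^ 4 := pow_le_pow_right₀ hr1 (by norm_num)
    have h3 : (⌈ρ⌉₊ : ℝ) * c ≤ (ρ + 1) * c := by gcongr
    linarith
  have hcast : ((n - ⌈ρ⌉₊ : ℕ) : ℝ) + ⌈ρ⌉₊ = n := by
    have : (n - ⌈ρ⌉₊) + ⌈ρ⌉₊ = n := by omega
    exact_mod_cast this
  refine ⟨n - ⌈ρ⌉₊, ?_⟩
  set t : ℝ := tq ρ (n - ⌈ρ⌉₊) with ht
  have hts : t ^ 2 = c * n := by
    rw [ht, tq_sq hρ0, hcast]
  have ht0 : 0 ≤ t := tq_nonneg _ _
  have h1 : t ≤ r ^ 2 := by
    apply le_of_sq_le_sq _ (by positivity)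
    calc t ^ 2 = c * n := hts
      _ ≤ r ^ 4 := by linarith
      _ = (r ^ 2) ^ 2 := by ring
  refine ⟨h1, ?_⟩
  rw [le_div_iff₀ (by positivity)]
  have h2 : (r ^ 2 - t) * (r ^ 2 + t) < c := by
    have : (r ^ 2 - t) * (r ^ 2 + t) = r ^ 4 - t ^ 2 := by ring
    rw [this, hts]
    linarith
  nlinarith

theorem exists_g1 {η : ℝ} (hη : 0 < η) (hη1 : η < 1 / 4) :
    ∃ g : ℂ → ℂ, Differentiable ℂ g ∧ (∃ z, g z ≠ 0) ∧ ∃ K M c : ℝ, 0 < K ∧ 0 ≤ M ∧ 480 ≤ c ∧
      (∀ z ε, 0 < ε → ‖g z‖ ≤ K / ε * Real.exp (Real.exp ((‖z‖ + ε) ^ 2) + M * (‖z‖ + ε) ^ 2)) ∧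
      (∀ r, 6 * c ≤ r → ∃ A β : ℝ, A ≤ Real.exp (r ^ 2) ∧ Real.exp (r ^ 2 - c / r ^ 2) ≤ A ∧
        ∀ φ : ℝ, |φ - β| ≤ c / (2 * r ^ 4) → ‖g (r * exp (φ * I))‖ ≤
          (K / (c / (2 * r ^ 3))) * Real.exp (3 * A + A * (2 + 2 * (1 - 2 * η) *
            Real.log (3 * c / r ^ 2)) + M * (r + 1) ^ 2)) := by
  set L : ℝ := 2 * Real.log (2 / η) + 1 with hL
  have hL1 : 1 < L := by
    have : 0 < Real.log (2 / η) := Real.log_pos (by rw [lt_div_iff₀ hη]; linarith)
    linarith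
  have hpi3 := Real.pi_gt_three
  set ρ : ℝ := L + Real.pi with hρ
  have hρ4 : 4 ≤ ρ := by linarith
  have hρ0 : 0 < ρ := by linarith
  obtain ⟨g, hg1, hg2, K, M, hK, hM, hE1, hE2⟩ := glue_entire (ι := ℕ)
    (D := fun _ => Set.univ) (w := wq ρ) (L := L) hη hη1 le_rfl (U := Uq) contDiff_Uq
    (by
      intro z
      rw [lap_Uq]
      have := normSq_nonneg z
      positivity)
    (fun _ => isOpen_univ) (fun k z _ => (hasDerivAt_wq ρ k z).differentiableAt.differentiableWithinAt)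
    (zk := zq ρ) (A := fun k => Real.exp (tq ρ k))
    (fun _ => Set.mem_univ _)
    (by
      intro k
      unfold wq
      simp)
    (by
      intro k z _ h
      unfold wq at h
      have h1 : (2 * conj (zq ρ k)) ≠ 0 := by
        apply mul_ne_zero two_ne_zero
        rw [Ne, map_eq_zero]
        exact zq_ne hρ0 k
      exact sub_eq_zero.mp ((mul_eq_zero.mp h).resolve_left h1))
    (fun j k z hj hk => disjq hρ4 le_rfl j k z hj hk)
    (fun z δ hδ => marginq hρ4 le_rfl z δ hδ)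
    (fun k z _ => h4q ρ k z)
    (by
      intro k
      have h1 := tq_ge hρ0 k
      have h2 := Real.add_one_le_exp (tq ρ k)
      show 2 ≤ Real.exp (tq ρ k)
      linarith)
    (fun k => zq_ne hρ0 k)
  set c : ℝ := 120 * ρ with hc
  have hc0 : 0 < c := by positivity
  have hc1 : 480 ≤ c := by rw [hc]; linarith
  refine ⟨g, hg1, hg2, K, M, c, hK, hM, hc1, ?_, ?_⟩
  · intro z ε hε
    apply hE1 z ε _ hε
    intro ζ hζ
    unfold Uq
    apply Real.exp_le_exp.mpr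
    rw [normSq_eq_norm_sq]
    rw [mem_closedBall, dist_eq_norm] at hζ
    have : ‖ζ‖ ≤ ‖z‖ + ε := by
      calc ‖ζ‖ = ‖z + (ζ - z)‖ := by ring_nf
        _ ≤ ‖z‖ + ‖ζ - z‖ := norm_add_le _ _
        _ ≤ ‖z‖ + ε := by linarith
    gcongr
  · intro r hr
    obtain ⟨k, hk1, hk2⟩ := exists_index hρ4 (show 720 * ρ ≤ r by rw [hc] at hr; linarith)
    have hr0 : 0 < r := by linarith
    have hr1 : 1 ≤ r := by linarith
    set t : ℝ := tq ρ k with ht
    have ht0 : 2 * ρ ≤ t := tq_ge hρ0 k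
    refine ⟨Real.exp t, t / (3 * ρ), Real.exp_le_exp.mpr hk1, Real.exp_le_exp.mpr (by linarith), ?_⟩
    intro φ hφ
    set z : ℂ := r * exp (φ * I) with hz
    have hzn : ‖z‖ = r := by
      rw [hz, norm_mul, norm_exp_ofReal_mul_I, norm_real, Real.norm_eq_abs, abs_of_pos hr0, mul_one]
    have hst : √t ≤ r := by
      rw [← Real.sqrt_sq hr0.le]
      exact Real.sqrt_le_sqrt hk1
    have hst0 : 0 ≤ √t := Real.sqrt_nonneg _
    have hstt : √t * √t = t := Real.mul_self_sqrt (by linarith)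
    -- size of w at z
    have hwz : ‖wq ρ k z‖ ≤ 2 * (c / r ^ 2) := by
      rw [norm_wq]
      have e1 : z - zq ρ k = ((r - √t : ℝ) : ℂ) * exp (φ * I) +
          (√t : ℝ) * (exp (φ * I) - exp ((t / (3 * ρ) : ℝ) * I)) := by
        rw [hz]
        unfold zq
        rw [← ht]
        push_cast
        ring
      have e2 : ‖z - zq ρ k‖ ≤ (r - √t) + √t * (c / (2 * r ^ 4)) := by
        rw [e1]
        refine (norm_add_le _ _).trans ?_
        rw [norm_mul, norm_exp_ofReal_mul_I, norm_real, Real.norm_eq_abs,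
          abs_of_nonneg (by linarith), mul_one, norm_mul, norm_real, Real.norm_eq_abs,
          abs_of_nonneg hst0]
        gcongr
        exact (norm_exp_sub_exp _ _).trans hφ
      have e3 : 2 * √t * (r - √t) ≤ c / r ^ 2 := by
        refine le_trans ?_ hk2
        nlinarith
      have e4 : 2 * √t * (√t * (c / (2 * r ^ 4))) ≤ c / r ^ 2 := by
        have : 2 * √t * (√t * (c / (2 * r ^ 4))) = (√t * √t) * (c / r ^ 4) := by
          field_simp
        rw [this, hstt]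
        calc t * (c / r ^ 4) ≤ r ^ 2 * (c / r ^ 4) := by gcongr
          _ = c / r ^ 2 := by field_simp
      calc 2 * √t * ‖z - zq ρ k‖ ≤ 2 * √t * ((r - √t) + √t * (c / (2 * r ^ 4))) := by gcongr
        _ = 2 * √t * (r - √t) + 2 * √t * (√t * (c / (2 * r ^ 4))) := by ring
        _ ≤ c / r ^ 2 + c / r ^ 2 := by linarith
        _ = 2 * (c / r ^ 2) := by ring
    have hτ0 : 0 < 3 * c / r ^ 2 := by positivity
    have hcr : c / r ^ 2 ≤ 1 / 6 := by
      rw [div_le_iff₀ (by positivity)]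
      nlinarith
    have hτ1 : 3 * c / r ^ 2 ≤ 1 / 2 := by
      have : 3 * c / r ^ 2 = 3 * (c / r ^ 2) := by ring
      rw [this]
      linarith
    have hε : 0 < c / (2 * r ^ 3) := by positivity
    have hε1 : c / (2 * r ^ 3) ≤ 1 := by
      have : c / (2 * r ^ 3) ≤ c / r ^ 2 := by
        apply div_le_div_of_nonneg_left hc0.le (by positivity)
        nlinarith [pow_pos hr0 2]
      linarith
    have hball : ∀ ζ ∈ closedBall z (c / (2 * r ^ 3)),
        ζ ∈ BB (fun _ => Set.univ) (wq ρ) L k ∧ ‖wq ρ k ζ‖ ≤ 3 * c / r ^ 2 ∧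
          Uq ζ ≤ 3 * Real.exp t := by
      intro ζ hζ
      rw [mem_closedBall, dist_eq_norm] at hζ
      have e1 : wq ρ k ζ = wq ρ k z + 2 * conj (zq ρ k) * (ζ - z) := by
        unfold wq
        ring
      have e2 : ‖wq ρ k ζ‖ ≤ 3 * c / r ^ 2 := by
        rw [e1]
        refine (norm_add_le _ _).trans ?_
        have e3 : ‖2 * conj (zq ρ k) * (ζ - z)‖ ≤ c / r ^ 2 := by
          rw [norm_mul, norm_mul, norm_conj, norm_zq, ← ht]
          have h3 : ‖(2:ℂ)‖ = 2 := by simp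
          rw [h3]
          calc 2 * √t * ‖ζ - z‖ ≤ 2 * r * (c / (2 * r ^ 3)) := by gcongr
            _ = c / r ^ 2 := by field_simp
        have e4 : 3 * c / r ^ 2 = 2 * (c / r ^ 2) + c / r ^ 2 := by ring
        rw [e4]
        linarith
      have hre := (abs_re_le_norm (wq ρ k ζ)).trans e2
      have him := (abs_im_le_norm (wq ρ k ζ)).trans e2
      refine ⟨⟨Set.mem_univ _, by linarith, by linarith⟩, e2, ?_⟩
      unfold Uq
      have e5 : normSq ζ ≤ t + 1 := by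
        have h1 := re_wq ρ k ζ
        rw [← ht] at h1
        have h2 := (le_abs_self _).trans hre
        have h3 : normSq (ζ - zq ρ k) ≤ 1 / 2 := by
          rw [norm_wq, ← ht] at e2
          have h4 : 1 ≤ √t := by
            rw [Real.one_le_sqrt]
            linarith
          have h5 := norm_nonneg (ζ - zq ρ k)
          have h6 : ‖ζ - zq ρ k‖ ≤ 1 / 2 := by nlinarith
          rw [normSq_eq_norm_sq]
          nlinarith
        linarith
      calc Real.exp (normSq ζ) ≤ Real.exp (t + 1) := Real.exp_le_exp.mpr e5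
        _ = Real.exp 1 * Real.exp t := by rw [← Real.exp_add]; ring_nf
        _ ≤ 3 * Real.exp t := by
            have := Real.exp_one_lt_d9
            gcongr
            linarith
    have key := hE2 k z (c / (2 * r ^ 3)) (3 * Real.exp t) (3 * c / r ^ 2) hε hτ0 hτ1 hball
    refine key.trans ?_
    have hpos : 0 ≤ K / (c / (2 * r ^ 3)) := by positivity
    apply mul_le_mul_of_nonneg_left _ hpos
    apply Real.exp_le_exp.mpr
    have e2 : (‖z‖ + c / (2 * r ^ 3)) ^ 2 ≤ (r + 1) ^ 2 := by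
      rw [hzn]
      gcongr
    have e3 := mul_le_mul_of_nonneg_left e2 hM
    linarith

end Pool.Agent.Work.MP_06ac62_an
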