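import Pool.Agent.Work.MP_06ac62_an.H3

open MeasureTheory Complex ComplexConjugate

namespace Pool.Agent.Work.MP_06ac62_an

/-- smooth step function: `0` for `s ≤ 1/2` and `1` for `s ≥ 1` -/
noncomputable def Hs (s : ℝ) : ℝ := Real.smoothTransition (2 * s - 1)

lemma Hs_zero {s : ℝ} (h : s ≤ 1 / 2) : Hs s = 0 :=
  Real.smoothTransition.zero_of_nonpos (by linarith)

lemma Hs_one {s : ℝ} (h : 1 ≤ s) : Hs s = 1 :=
  Real.smoothTransition.one_of_one_le (by linarith)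

lemma contDiff_Hs {n : ℕ∞} : ContDiff ℝ n Hs := by
  unfold Hs
  exact Real.smoothTransition.contDiff.comp ((contDiff_const.mul contDiff_id).sub contDiff_const)

lemma deriv_Hs_zero {s : ℝ} (h : s < 1 / 2) : deriv Hs s = 0 := by
  have : Hs =ᶠ[nhds s] fun _ => 0 := by
    filter_upwards [Iio_mem_nhds h] with x hx
    exact Hs_zero (le_of_lt hx)
  rw [this.deriv_eq]
  simp

lemma deriv_Hs_zero' {s : ℝ} (h : 1 < s) : deriv Hs s = 0 := by
  have : Hs =ᶠ[nhds s] fun _ => 1 := by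
    filter_upwards [Ioi_mem_nhds h] with x hx
    exact Hs_one (le_of_lt hx)
  rw [this.deriv_eq]
  simp

lemma continuous_deriv_Hs : Continuous (deriv Hs) :=
  (contDiff_Hs (n := 1)).continuous_deriv (by norm_num)

lemma exists_bound_Hs : ∃ B : ℝ, 0 < B ∧ ∀ s, |deriv Hs s| ≤ B := by
  obtain ⟨B, hB⟩ := isCompact_Icc.exists_bound_of_continuousOn (s := Set.Icc (0:ℝ) 1)
    continuous_deriv_Hs.continuousOn
  refine ⟨max B 1, by positivity, ?_⟩
  intro s
  by_cases h1 : s < 1 / 2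
  · rw [deriv_Hs_zero h1]
    simp
  · by_cases h2 : 1 < s
    · rw [deriv_Hs_zero' h2]
      simp
    · exact (hB s ⟨by linarith, by linarith⟩).trans (le_max_left _ _)

/-- cut-off function which vanishes near the center -/
noncomputable def Xc (c : ℂ) (ε : ℝ) (ζ : ℂ) : ℂ := ((Hs (normSq (ζ - c) / ε ^ 2) : ℝ) : ℂ)

lemma contDiff_normSq' {n : WithTop ℕ∞} : ContDiff ℝ n (fun z : ℂ => normSq z) := by
  have : (fun z : ℂ => normSq z) = fun z => z.re * z.re + z.im * z.im := by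
    funext z
    exact normSq_apply z
  rw [this]
  exact (reCLM.contDiff.mul reCLM.contDiff).add (imCLM.contDiff.mul imCLM.contDiff)

lemma contDiff_Xc {n : ℕ∞} (c : ℂ) (ε : ℝ) : ContDiff ℝ n (Xc c ε) := by
  unfold Xc
  exact ofRealCLM.contDiff.comp (contDiff_Hs.comp
    ((contDiff_normSq'.comp (contDiff_id.sub contDiff_const)).div_const _))

lemma hasFDerivAt_normSq_sub (c ζ : ℂ) :
    HasFDerivAt (fun z : ℂ => normSq (z - c))
      ((2 * (ζ - c).re) • reCLM + (2 * (ζ - c).im) • imCLM) ζ := by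
  have e : (fun z : ℂ => normSq (z - c)) = fun z =>
      (z - c).re * (z - c).re + (z - c).im * (z - c).im := by
    funext z
    exact normSq_apply _
  rw [e]
  have h1 : HasFDerivAt (fun z : ℂ => (z - c).re) (reCLM : ℂ →L[ℝ] ℝ) ζ := by
    have := (reCLM : ℂ →L[ℝ] ℝ).hasFDerivAt (x := ζ)
    have h2 := this.sub_const c.re
    simpa using h2
  have h2 : HasFDerivAt (fun z : ℂ => (z - c).im) (imCLM : ℂ →L[ℝ] ℝ) ζ := by
    have := (imCLM : ℂ →L[ℝ] ℝ).hasFDerivAt (x := ζ)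
    have h2 := this.sub_const c.im
    simpa using h2
  refine ((h1.mul h1).add (h2.mul h2)).congr_fderiv ?_
  ext <;> simp <;> ring

lemma dbar_Xc (c : ℂ) (ε : ℝ) (ζ : ℂ) :
    dbar (Xc c ε) ζ = ((deriv Hs (normSq (ζ - c) / ε ^ 2) / ε ^ 2 : ℝ) : ℂ) * (ζ - c) := by
  have h1 : HasFDerivAt (fun z : ℂ => normSq (z - c) / ε ^ 2)
      ((ε ^ 2)⁻¹ • ((2 * (ζ - c).re) • reCLM + (2 * (ζ - c).im) • imCLM)) ζ := by
    have := (hasFDerivAt_normSq_sub c ζ).const_mul ((ε ^ 2)⁻¹)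
    refine this.congr_of_eventuallyEq ?_
    filter_upwards with z
    rw [div_eq_inv_mul]
  have h2 : HasDerivAt Hs (deriv Hs (normSq (ζ - c) / ε ^ 2)) (normSq (ζ - c) / ε ^ 2) :=
    ((contDiff_Hs (n := 1)).differentiable (by norm_num) _).hasDerivAt
  have h3 := h2.comp_hasFDerivAt ζ h1
  have h4 : HasFDerivAt (Xc c ε) ((ofRealCLM : ℝ →L[ℝ] ℂ).comp
      (deriv Hs (normSq (ζ - c) / ε ^ 2) • ((ε ^ 2)⁻¹ • ((2 * (ζ - c).re) • reCLM +
        (2 * (ζ - c).im) • imCLM)))) ζ :=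
    (ofRealCLM : ℝ →L[ℝ] ℂ).hasFDerivAt.comp ζ h3
  have h5 : ∀ v : ℂ, fderiv ℝ (Xc c ε) ζ v = ((deriv Hs (normSq (ζ - c) / ε ^ 2) / ε ^ 2 *
      (2 * (ζ - c).re * v.re + 2 * (ζ - c).im * v.im) : ℝ) : ℂ) := by
    intro v
    rw [h4.fderiv]
    simp only [ContinuousLinearMap.comp_apply, ofRealCLM_apply, _root_.smul_apply,
      _root_.add_apply, smul_eq_mul, reCLM_apply, imCLM_apply]
    congr 1
    ring
  unfold dbar
  rw [h5, h5]
  generalize deriv Hs (normSq (ζ - c) / ε ^ 2) / ε ^ 2 = d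
  apply Complex.ext
  · simp
    ring
  · simp
    ring

lemma dbar_inv_sub {z ζ : ℂ} (h : ζ ≠ z) : dbar (fun x => (x - z)⁻¹) ζ = 0 := by
  have h1 : HasDerivAt (fun x : ℂ => (x - z)⁻¹) (-1 / (ζ - z) ^ 2) ζ := by
    exact (((hasDerivAt_id ζ).sub_const z).inv (sub_ne_zero.mpr h))
  have h2 := h1.hasFDerivAt.restrictScalars ℝ
  unfold dbar
  rw [h2.fderiv]
  simp
  ring_nf
  simp

/-- the basic independence lemma -/
lemma W0 {Ω : Set ℂ} {f : ℂ → ℂ}
    (hw : ∀ γ : ℂ → ℂ, ContDiff ℝ 2 γ → HasCompactSupport γ → tsupport γ ⊆ Ω →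
      ∫ ζ, f ζ * dbar γ ζ = 0) {Y : ℂ → ℂ} {z : ℂ} (hY : ContDiff ℝ 2 Y)
    (hYc : HasCompactSupport Y) (hYs : tsupport Y ⊆ Ω) (hYz : ∀ᶠ ζ in nhds z, Y ζ = 0) :
    ∫ ζ, f ζ * (dbar Y ζ / (ζ - z)) = 0 := by
  let γ : ℂ → ℂ := fun ζ => Y ζ * (ζ - z)⁻¹
  have hs : tsupport γ ⊆ tsupport Y := tsupport_mul_subset_left
  have hcd : ContDiff ℝ 2 γ := by
    rw [contDiff_iff_contDiffAt]
    intro ζ
    by_cases h : ζ = z
    · subst h
      have : γ =ᶠ[nhds ζ] fun _ => 0 := by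
        filter_upwards [hYz] with x hx
        simp [γ, hx]
      exact contDiffAt_const.congr_of_eventuallyEq this
    · have h1 : ContDiffAt ℝ 2 (fun x : ℂ => (x - z)⁻¹) ζ :=
        (contDiffAt_id.sub contDiffAt_const).inv (sub_ne_zero.mpr h)
      exact hY.contDiffAt.mul h1
  have key := hw γ hcd (hYc.mul_right) (hs.trans hYs)
  have e : ∀ ζ, dbar γ ζ = dbar Y ζ / (ζ - z) := by
    intro ζ
    by_cases h : ζ = z
    · subst h
      have h1 : γ =ᶠ[nhds ζ] fun _ => 0 := by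
        filter_upwards [hYz] with x hx
        simp [γ, hx]
      unfold dbar
      rw [h1.fderiv_eq]
      simp
    · have h1 : DifferentiableAt ℝ Y ζ := hY.differentiable (by norm_num) ζ
      have h2 : DifferentiableAt ℝ (fun x : ℂ => (x - z)⁻¹) ζ :=
        (differentiableAt_id.sub (differentiableAt_const z)).inv (sub_ne_zero.mpr h)
      show dbar (fun x => Y x * (x - z)⁻¹) ζ = _
      rw [dbar_mul h1 h2, dbar_inv_sub h]
      simp [div_eq_mul_inv]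
  rw [← key]
  apply integral_congr_ae
  filter_upwards with ζ
  rw [e]

/-- the averaging kernel -/
noncomputable def Kf (c : ℂ) (ε : ℝ) (z ζ : ℂ) : ℂ :=
  ((deriv Hs (normSq (ζ - c) / ε ^ 2) / (Real.pi * ε ^ 2) : ℝ) : ℂ) * ((ζ - c) / (ζ - z))

end Pool.Agent.Work.MP_06ac62_an
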