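import Pool.Agent.Work.MP_06ac62_an.W1

open MeasureTheory Complex ComplexConjugate Metric

namespace Pool.Agent.Work.MP_06ac62_an

lemma normSq_div_eq (c ζ : ℂ) (ε : ℝ) : normSq (ζ - c) / ε ^ 2 = (dist ζ c / ε) ^ 2 := by
  rw [normSq_eq_norm_sq, dist_eq, div_pow]

lemma Xc_zero {c ζ : ℂ} {ε : ℝ} (hε : 0 < ε) (h : dist ζ c ≤ 2 / 3 * ε) : Xc c ε ζ = 0 := by
  unfold Xc
  rw [Hs_zero, ofReal_zero]
  rw [normSq_div_eq]
  have h1 : dist ζ c / ε ≤ 2 / 3 := by rwa [div_le_iff₀ hε]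
  have h2 : 0 ≤ dist ζ c / ε := by positivity
  nlinarith

lemma Xc_one {c ζ : ℂ} {ε : ℝ} (hε : 0 < ε) (h : ε ≤ dist ζ c) : Xc c ε ζ = 1 := by
  unfold Xc
  rw [Hs_one, ofReal_one]
  rw [normSq_div_eq]
  have h1 : 1 ≤ dist ζ c / ε := by rwa [one_le_div hε]
  nlinarith

lemma kern_zero {c ζ : ℂ} {ε : ℝ} (hε : 0 < ε) (h : dist ζ c ≤ 2 / 3 * ε) :
    deriv Hs (normSq (ζ - c) / ε ^ 2) = 0 := by
  apply deriv_Hs_zero
  rw [normSq_div_eq]
  have h1 : dist ζ c / ε ≤ 2 / 3 := by rwa [div_le_iff₀ hε]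
  have h2 : 0 ≤ dist ζ c / ε := by positivity
  nlinarith

lemma kern_zero' {c ζ : ℂ} {ε : ℝ} (hε : 0 < ε) (h : ε < dist ζ c) :
    deriv Hs (normSq (ζ - c) / ε ^ 2) = 0 := by
  apply deriv_Hs_zero'
  rw [normSq_div_eq]
  have h1 : 1 < dist ζ c / ε := by rwa [one_lt_div hε]
  nlinarith

lemma Kf_zero {c z ζ : ℂ} {ε : ℝ} (hε : 0 < ε) (h : dist ζ c ≤ 2 / 3 * ε) : Kf c ε z ζ = 0 := by
  unfold Kf
  rw [kern_zero hε h]
  simp

lemma Kf_zero' {c z ζ : ℂ} {ε : ℝ} (hε : 0 < ε) (h : ε < dist ζ c) : Kf c ε z ζ = 0 := by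
  unfold Kf
  rw [kern_zero' hε h]
  simp

lemma continuous_Kf {c z : ℂ} {ε : ℝ} (hε : 0 < ε) (h : dist z c ≤ 1 / 2 * ε) :
    Continuous (Kf c ε z) := by
  rw [continuous_iff_continuousAt]
  intro ζ
  by_cases hz : ζ = z
  · subst hz
    have h0 : ∀ᶠ x in nhds ζ, dist x c < 2 / 3 * ε :=
      (continuous_id.dist continuous_const).continuousAt.eventually_lt continuousAt_const
        (by simp only [id]; linarith)
    have : Kf c ε ζ =ᶠ[nhds ζ] fun _ => 0 := by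
      filter_upwards [h0] with x hx
      exact Kf_zero hε hx.le
    exact continuousAt_const.congr this.symm
  · unfold Kf
    have h1 : Continuous (fun ζ => ((deriv Hs (normSq (ζ - c) / ε ^ 2) / (Real.pi * ε ^ 2) : ℝ) : ℂ)) :=
      continuous_ofReal.comp ((continuous_deriv_Hs.comp
        ((continuous_normSq.comp (continuous_id.sub continuous_const)).div_const _)).div_const _)
    refine h1.continuousAt.mul ?_
    exact (continuousAt_id.sub continuousAt_const).div (continuousAt_id.sub continuousAt_const)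
      (sub_ne_zero.mpr hz)

lemma compactSupport_Kf {c z : ℂ} {ε : ℝ} (hε : 0 < ε) : HasCompactSupport (Kf c ε z) := by
  apply HasCompactSupport.intro (isCompact_closedBall c ε)
  intro x hx
  rw [mem_closedBall, not_le] at hx
  exact Kf_zero' hε hx

lemma Kf_self {z ζ : ℂ} {ε : ℝ} (hε : 0 < ε) :
    Kf z ε z ζ = ((deriv Hs (normSq (ζ - z) / ε ^ 2) / (Real.pi * ε ^ 2) : ℝ) : ℂ) := by
  by_cases h : ζ = z
  · subst h
    rw [Kf_zero hε (by simp; positivity), kern_zero hε (by simp; positivity)]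
    simp
  · unfold Kf
    rw [div_self (sub_ne_zero.mpr h), mul_one]

lemma Kf_eq_dbar {c z ζ : ℂ} {ε : ℝ} (hε : 0 < ε) :
    dbar (Xc c ε) ζ / (ζ - z) = Real.pi * Kf c ε z ζ := by
  rw [dbar_Xc]
  unfold Kf
  push_cast
  have h1 : (ε : ℂ) ≠ 0 := by exact_mod_cast hε.ne'
  have h2 : (Real.pi : ℂ) ≠ 0 := by exact_mod_cast Real.pi_ne_zero
  field_simp

lemma integrable_Kf {f : ℂ → ℂ} (hf : LocallyIntegrable f) {c z : ℂ} {ε : ℝ} (hε : 0 < ε)
    (h : dist z c ≤ 1 / 2 * ε) : Integrable (fun ζ => f ζ * Kf c ε z ζ) := by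
  have := hf.integrable_smul_right_of_hasCompactSupport (continuous_Kf hε h)
    (compactSupport_Kf hε)
  simpa using this

lemma avg_indep {Ω : Set ℂ} {f : ℂ → ℂ} (hf : LocallyIntegrable f)
    (hw : ∀ γ : ℂ → ℂ, ContDiff ℝ 2 γ → HasCompactSupport γ → tsupport γ ⊆ Ω →
      ∫ ζ, f ζ * dbar γ ζ = 0) {c₁ c₂ z : ℂ} {ε₁ ε₂ : ℝ} (hε₁ : 0 < ε₁) (hε₂ : 0 < ε₂)
    (h1 : closedBall c₁ ε₁ ⊆ Ω) (h2 : closedBall c₂ ε₂ ⊆ Ω) (hz1 : dist z c₁ ≤ 1 / 2 * ε₁)
    (hz2 : dist z c₂ ≤ 1 / 2 * ε₂) :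
    ∫ ζ, f ζ * Kf c₁ ε₁ z ζ = ∫ ζ, f ζ * Kf c₂ ε₂ z ζ := by
  let Y : ℂ → ℂ := fun ζ => Xc c₁ ε₁ ζ - Xc c₂ ε₂ ζ
  have hsub : tsupport Y ⊆ closedBall c₁ ε₁ ∪ closedBall c₂ ε₂ := by
    apply closure_minimal _ (isClosed_closedBall.union isClosed_closedBall)
    intro x hx
    by_contra hn
    simp only [Set.mem_union, mem_closedBall, not_or, not_le] at hn
    apply hx
    simp only [Y]
    rw [Xc_one hε₁ hn.1.le, Xc_one hε₂ hn.2.le, sub_self]
  have hYc : HasCompactSupport Y :=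
    ((isCompact_closedBall c₁ ε₁).union (isCompact_closedBall c₂ ε₂)).of_isClosed_subset
      (isClosed_tsupport Y) hsub
  have hY : ContDiff ℝ 2 Y := (contDiff_Xc (n := 2) c₁ ε₁).sub (contDiff_Xc (n := 2) c₂ ε₂)
  have hYz : ∀ᶠ ζ in nhds z, Y ζ = 0 := by
    have e1 : ∀ᶠ x in nhds z, dist x c₁ < 2 / 3 * ε₁ :=
      (continuous_id.dist continuous_const).continuousAt.eventually_lt continuousAt_const
        (by simp only [id]; linarith)
    have e2 : ∀ᶠ x in nhds z, dist x c₂ < 2 / 3 * ε₂ :=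
      (continuous_id.dist continuous_const).continuousAt.eventually_lt continuousAt_const
        (by simp only [id]; linarith)
    filter_upwards [e1, e2] with x hx1 hx2
    simp only [Y]
    rw [Xc_zero hε₁ hx1.le, Xc_zero hε₂ hx2.le, sub_self]
  have key := W0 hw hY hYc (hsub.trans (Set.union_subset h1 h2)) hYz
  have e : ∀ ζ, f ζ * (dbar Y ζ / (ζ - z)) =
      Real.pi * (f ζ * Kf c₁ ε₁ z ζ - f ζ * Kf c₂ ε₂ z ζ) := by
    intro ζ
    have d1 : DifferentiableAt ℝ (Xc c₁ ε₁) ζ :=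
      (contDiff_Xc (n := 2) c₁ ε₁).differentiable (by norm_num) ζ
    have d2 : DifferentiableAt ℝ (Xc c₂ ε₂) ζ :=
      (contDiff_Xc (n := 2) c₂ ε₂).differentiable (by norm_num) ζ
    have : dbar Y ζ = dbar (Xc c₁ ε₁) ζ - dbar (Xc c₂ ε₂) ζ := by
      unfold dbar
      have : fderiv ℝ Y ζ = fderiv ℝ (Xc c₁ ε₁) ζ - fderiv ℝ (Xc c₂ ε₂) ζ := fderiv_fun_sub d1 d2
      rw [this]
      simp
      ring
    rw [this, sub_div, Kf_eq_dbar hε₁, Kf_eq_dbar hε₂]
    ring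
  simp_rw [e] at key
  rw [integral_const_mul, integral_sub (integrable_Kf hf hε₁ hz1) (integrable_Kf hf hε₂ hz2)] at key
  have hpi : (Real.pi : ℂ) ≠ 0 := by exact_mod_cast Real.pi_ne_zero
  have := (mul_eq_zero.mp key).resolve_left hpi
  exact sub_eq_zero.mp this

lemma integral_Kf_self (z : ℂ) {ε : ℝ} (hε : 0 < ε) : ∫ ζ, Kf z ε z ζ = 1 := by
  have e1 : ∀ ζ, Kf z ε z ζ = ((deriv Hs ((‖ζ - z‖ / ε) ^ 2) / (Real.pi * ε ^ 2) : ℝ) : ℂ) := by
    intro ζ
    rw [Kf_self hε, normSq_div_eq, dist_eq]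
  simp_rw [e1]
  rw [integral_complex_ofReal]
  have e2 : ∫ ζ : ℂ, (deriv Hs ((‖ζ - z‖ / ε) ^ 2) / (Real.pi * ε ^ 2) : ℝ)
      = ∫ ζ : ℂ, (deriv Hs ((‖ζ‖ / ε) ^ 2) / (Real.pi * ε ^ 2) : ℝ) :=
    integral_sub_right_eq_self (fun ζ : ℂ => (deriv Hs ((‖ζ‖ / ε) ^ 2) / (Real.pi * ε ^ 2) : ℝ)) z
  rw [e2, integral_fun_norm_addHaar (volume : Measure ℂ)
    (fun y => (deriv Hs ((y / ε) ^ 2) / (Real.pi * ε ^ 2) : ℝ))]
  have hv : (volume : Measure ℂ).real (ball 0 1) = Real.pi := by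
    rw [Measure.real, Complex.volume_ball]
    simp
  rw [hv]
  simp only [Complex.finrank_real_complex, Nat.add_one_sub_one, pow_one, smul_eq_mul,
    nsmul_eq_mul]
  have e3 : ∫ y in Set.Ioi (0 : ℝ), y * (deriv Hs ((y / ε) ^ 2) / (Real.pi * ε ^ 2))
      = 1 / (2 * Real.pi) := by
    have hd : ∀ y ∈ Set.Ioi (0:ℝ), HasDerivAt (fun y => Hs ((y / ε) ^ 2) / (2 * Real.pi))
        (y * (deriv Hs ((y / ε) ^ 2) / (Real.pi * ε ^ 2))) y := by
      intro y _
      have h1 : HasDerivAt (fun y : ℝ => (y / ε) ^ 2) (2 * (y / ε) * (1 / ε)) y := by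
        have := ((hasDerivAt_id y).div_const ε).fun_pow 2
        refine this.congr_deriv ?_
        simp
      have h2 : HasDerivAt Hs (deriv Hs ((y / ε) ^ 2)) ((y / ε) ^ 2) :=
        ((contDiff_Hs (n := 1)).differentiable (by norm_num) _).hasDerivAt
      have h3 := (h2.comp y h1).div_const (2 * Real.pi)
      refine h3.congr_deriv ?_
      have := hε.ne'
      have := Real.pi_ne_zero
      field_simp
    have hcomp : ∀ y : ℝ, ε < y → y * (deriv Hs ((y / ε) ^ 2) / (Real.pi * ε ^ 2)) = 0 := by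
      intro y hy
      have : 1 < y / ε := by rwa [one_lt_div hε]
      rw [deriv_Hs_zero' (by nlinarith)]
      simp
    have hint : IntegrableOn (fun y : ℝ => y * (deriv Hs ((y / ε) ^ 2) / (Real.pi * ε ^ 2)))
        (Set.Ioi 0) := by
      have hc : Continuous (fun y : ℝ => y * (deriv Hs ((y / ε) ^ 2) / (Real.pi * ε ^ 2))) := by
        have := continuous_deriv_Hs
        fun_prop
      have h1 : IntegrableOn (fun y : ℝ => y * (deriv Hs ((y / ε) ^ 2) / (Real.pi * ε ^ 2)))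
        (Set.Icc 0 ε) := hc.integrableOn_Icc
      have h2 : IntegrableOn (fun y : ℝ => y * (deriv Hs ((y / ε) ^ 2) / (Real.pi * ε ^ 2)))
        (Set.Ioi ε) := by
        apply (integrableOn_zero (s := Set.Ioi ε)).congr_fun _ measurableSet_Ioi
        intro y hy
        exact (hcomp y hy).symm
      apply (h1.union h2).mono_set
      intro y hy
      by_cases h : y ≤ ε
      · exact Or.inl ⟨le_of_lt hy, h⟩
      · exact Or.inr (not_le.mp h)
    have htend : Filter.Tendsto (fun y => Hs ((y / ε) ^ 2) / (2 * Real.pi)) Filter.atTop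
        (nhds (1 / (2 * Real.pi))) := by
      apply tendsto_const_nhds.congr'
      filter_upwards [Filter.eventually_gt_atTop ε] with y hy
      have : 1 < y / ε := by rwa [one_lt_div hε]
      rw [Hs_one (by nlinarith)]
    have hcont : ContinuousWithinAt (fun y => Hs ((y / ε) ^ 2) / (2 * Real.pi)) (Set.Ici 0) 0 := by
      have : Continuous (fun y => Hs ((y / ε) ^ 2) / (2 * Real.pi)) := by
        have := (contDiff_Hs (n := 1)).continuous
        fun_prop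
      exact this.continuousWithinAt
    rw [integral_Ioi_of_hasDerivAt_of_tendsto hcont hd hint htend]
    rw [show ((0:ℝ) / ε) ^ 2 = 0 by simp, Hs_zero (by norm_num)]
    simp
  rw [e3]
  have := Real.pi_ne_zero
  push_cast
  have hpi : (Real.pi : ℂ) ≠ 0 := by exact_mod_cast Real.pi_ne_zero
  field_simp

end Pool.Agent.Work.MP_06ac62_an
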