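import Pool.Agent.Work.MP_06ac62_an.W2

open MeasureTheory Complex ComplexConjugate Metric Filter Topology

namespace Pool.Agent.Work.MP_06ac62_an

/-- real form of the centred averaging kernel -/
noncomputable def ker (z : ℂ) (ε : ℝ) (ζ : ℂ) : ℝ :=
  deriv Hs (normSq (ζ - z) / ε ^ 2) / (Real.pi * ε ^ 2)

lemma Kf_ker {z ζ : ℂ} {ε : ℝ} (hε : 0 < ε) : Kf z ε z ζ = (ker z ε ζ : ℂ) := Kf_self hε

lemma continuous_ker (z : ℂ) (ε : ℝ) : Continuous (ker z ε) :=
  (continuous_deriv_Hs.comp
    ((continuous_normSq.comp (continuous_id.sub continuous_const)).div_const _)).div_const _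

lemma ker_zero {z ζ : ℂ} {ε : ℝ} (hε : 0 < ε) (h : ε < dist ζ z) : ker z ε ζ = 0 := by
  unfold ker
  rw [kern_zero' hε h]
  simp

lemma compactSupport_ker {z : ℂ} {ε : ℝ} (hε : 0 < ε) : HasCompactSupport (ker z ε) := by
  apply HasCompactSupport.intro (isCompact_closedBall z ε)
  intro x hx
  rw [mem_closedBall, not_le] at hx
  exact ker_zero hε hx

lemma integral_ker (z : ℂ) {ε : ℝ} (hε : 0 < ε) : ∫ ζ, ker z ε ζ = 1 := by
  have h := integral_Kf_self z hε
  simp_rw [Kf_ker hε] at h
  rw [integral_complex_ofReal] at h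
  exact_mod_cast h

/-- a bound for the derivative of the smooth step -/
noncomputable def BH : ℝ := Classical.choose exists_bound_Hs

lemma BH_pos : 0 < BH := (Classical.choose_spec exists_bound_Hs).1

lemma BH_bound (s : ℝ) : |deriv Hs s| ≤ BH := (Classical.choose_spec exists_bound_Hs).2 s

lemma ker_bound {z ζ : ℂ} {ε : ℝ} (hε : 0 < ε) : |ker z ε ζ| ≤ BH / (Real.pi * ε ^ 2) := by
  unfold ker
  have : 0 < Real.pi * ε ^ 2 := by positivity
  rw [abs_div, abs_of_pos this]
  gcongr
  exact BH_bound _

lemma volume_closedBall_real (z : ℂ) {ε : ℝ} (hε : 0 < ε) :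
    (volume : Measure ℂ).real (closedBall z ε) = Real.pi * ε ^ 2 := by
  rw [Measure.real, Complex.volume_closedBall]
  rw [ENNReal.toReal_mul, ENNReal.toReal_pow, ENNReal.toReal_ofReal hε.le]
  simp
  ring

lemma norm_avg_le {f : ℂ → ℂ} (hf : LocallyIntegrable f) {z : ℂ} {ε : ℝ} (hε : 0 < ε) :
    ‖∫ ζ, ker z ε ζ • f ζ‖ ≤ BH / (Real.pi * ε ^ 2) * ∫ ζ in closedBall z ε, ‖f ζ‖ := by
  have hK : IntegrableOn (fun ζ => ‖f ζ‖) (closedBall z ε) :=
    (hf.integrableOn_isCompact (isCompact_closedBall z ε)).norm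
  calc ‖∫ ζ, ker z ε ζ • f ζ‖ ≤ ∫ ζ, ‖ker z ε ζ • f ζ‖ := norm_integral_le_integral_norm _
    _ = ∫ ζ in closedBall z ε, ‖ker z ε ζ • f ζ‖ := by
        rw [setIntegral_eq_integral_of_forall_compl_eq_zero]
        intro x hx
        rw [mem_closedBall, not_le] at hx
        rw [ker_zero hε hx]
        simp
    _ ≤ ∫ ζ in closedBall z ε, BH / (Real.pi * ε ^ 2) * ‖f ζ‖ := by
        apply integral_mono_of_nonneg
        · filter_upwards with ζ using norm_nonneg _
        · exact hK.const_mul _
        · filter_upwards with ζ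
          rw [norm_smul]
          gcongr
          exact ker_bound hε
    _ = _ := by rw [integral_const_mul]

lemma ae_tendsto_avg {f : ℂ → ℂ} (hf : LocallyIntegrable f) :
    ∀ᵐ z, Tendsto (fun ε : ℝ => ∫ ζ, ker z ε ζ • f ζ) (𝓝[>] 0) (𝓝 (f z)) := by
  filter_upwards [(Besicovitch.vitaliFamily (volume : Measure ℂ)).ae_tendsto_average_norm_sub hf]
    with z hz
  have h1 := hz.comp (Besicovitch.tendsto_filterAt (volume : Measure ℂ) z)
  apply tendsto_integral_smul_of_tendsto_average_norm_sub BH h1
  · filter_upwards with ε using hf.integrableOn_isCompact (isCompact_closedBall _ _)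
  · apply tendsto_const_nhds.congr'
    filter_upwards [self_mem_nhdsWithin] with ε hε
    exact (integral_ker z hε).symm
  · filter_upwards [self_mem_nhdsWithin] with ε hε
    intro x hx
    by_contra hn
    rw [mem_closedBall, not_le] at hn
    exact hx (ker_zero hε hn)
  · filter_upwards [self_mem_nhdsWithin] with ε hε
    intro x
    rw [volume_closedBall_real z hε]
    exact ker_bound hε

lemma tendsto_avg_of_continuousAt {f : ℂ → ℂ} (hf : LocallyIntegrable f) {z : ℂ}
    (hz : ContinuousAt f z) :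
    Tendsto (fun ε : ℝ => ∫ ζ, ker z ε ζ • f ζ) (𝓝[>] 0) (𝓝 (f z)) := by
  rw [Metric.tendsto_nhds]
  intro δ hδ
  obtain ⟨η, hη, hη2⟩ := Metric.continuousAt_iff.mp hz (δ / (2 * BH)) (by have := BH_pos; positivity)
  filter_upwards [Ioo_mem_nhdsGT hη] with ε hε
  have hε0 : 0 < ε := hε.1
  have e1 : (∫ ζ, ker z ε ζ • f ζ) - f z = ∫ ζ, ker z ε ζ • (f ζ - f z) := by
    have i1 : Integrable (fun ζ => ker z ε ζ • f ζ) :=
      hf.integrable_smul_left_of_hasCompactSupport (continuous_ker z ε) (compactSupport_ker hε0)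
    have i2 : Integrable (fun ζ => ker z ε ζ • f z) := by
      apply Integrable.smul_const
      exact (continuous_ker z ε).integrable_of_hasCompactSupport (compactSupport_ker hε0)
    simp_rw [smul_sub]
    rw [integral_sub i1 i2, integral_smul_const, integral_ker z hε0, one_smul]
  have hf' : LocallyIntegrable (fun ζ => f ζ - f z) := hf.sub (locallyIntegrable_const _)
  rw [dist_eq_norm, e1]
  calc ‖∫ ζ, ker z ε ζ • (f ζ - f z)‖
      ≤ BH / (Real.pi * ε ^ 2) * ∫ ζ in closedBall z ε, ‖f ζ - f z‖ := norm_avg_le hf' hε0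
    _ ≤ BH / (Real.pi * ε ^ 2) * ∫ ζ in closedBall z ε, δ / (2 * BH) := by
        have := BH_pos
        apply mul_le_mul_of_nonneg_left _ (by positivity)
        apply setIntegral_mono_on
        · exact ((hf'.integrableOn_isCompact (isCompact_closedBall z ε))).norm
        · exact integrableOn_const (by simp [Complex.volume_closedBall, ENNReal.mul_eq_top])
        · exact measurableSet_closedBall
        · intro x hx
          have : dist x z < η := lt_of_le_of_lt hx hε.2
          have := hη2 this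
          rw [dist_eq_norm] at this
          exact this.le
    _ = δ / 2 := by
        have := BH_pos
        rw [setIntegral_const, volume_closedBall_real z hε0, smul_eq_mul]
        have := Real.pi_pos
        field_simp
    _ < δ := by linarith

end Pool.Agent.Work.MP_06ac62_an
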