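import Pool.Agent.Work.MP_06ac62_an.W3

open MeasureTheory Complex ComplexConjugate Metric Filter Topology

namespace Pool.Agent.Work.MP_06ac62_an

lemma avg_holo {f : ℂ → ℂ} (hf : LocallyIntegrable f) {z₀ : ℂ} {R : ℝ} (hR : 0 < R) :
    DifferentiableAt ℂ (fun z => ∫ ζ, f ζ * Kf z₀ R z ζ) z₀ := by
  let D : ℂ → ℝ := fun ζ => deriv Hs (normSq (ζ - z₀) / R ^ 2) / (Real.pi * R ^ 2)
  have hD : Continuous D := continuous_ker z₀ R
  have hDc : HasCompactSupport D := compactSupport_ker hR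
  let F' : ℂ → ℂ → ℂ := fun z ζ => f ζ * ((D ζ : ℂ) * ((ζ - z₀) / (ζ - z) ^ 2))
  have hs : ball z₀ (R / 3) ∈ 𝓝 z₀ := ball_mem_nhds _ (by positivity)
  have key := hasDerivAt_integral_of_dominated_loc_of_deriv_le (μ := (volume : Measure ℂ))
    (F := fun z ζ => f ζ * Kf z₀ R z ζ) (F' := F') (x₀ := z₀) (s := ball z₀ (R / 3))
    (bound := fun ζ => ‖f ζ‖ * (9 / R * |D ζ|)) hs ?_ ?_ ?_ ?_ ?_ ?_
  · exact key.2.differentiableAt
  · filter_upwards [hs] with z hz
    rw [mem_ball] at hz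
    exact (integrable_Kf hf hR (by linarith)).aestronglyMeasurable
  · exact integrable_Kf hf hR (by simp; positivity)
  · apply hf.aestronglyMeasurable.mul
    apply Measurable.aestronglyMeasurable
    have : Measurable D := hD.measurable
    fun_prop
  · filter_upwards with ζ z hz
    rw [mem_ball] at hz
    simp only [F']
    rw [norm_mul]
    gcongr
    by_cases h : dist ζ z₀ ≤ 2 / 3 * R
    · have : D ζ = 0 := by
        simp only [D]
        rw [kern_zero hR h]
        simp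
      rw [this]
      simp
    · by_cases h' : R < dist ζ z₀
      · have : D ζ = 0 := by
          simp only [D]
          rw [kern_zero' hR h']
          simp
        rw [this]
        simp
      · push Not at h h'
        rw [norm_mul, norm_real, Real.norm_eq_abs, norm_div, norm_pow, mul_comm (9 / R)]
        refine mul_le_mul_of_nonneg_left ?_ (abs_nonneg _)
        have h1 : R / 3 ≤ ‖ζ - z‖ := by
          have : dist ζ z₀ ≤ dist ζ z + dist z z₀ := dist_triangle _ _ _
          rw [← dist_eq_norm]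
          linarith
        have h2 : ‖ζ - z₀‖ ≤ R := by rw [← dist_eq_norm]; exact h'
        calc ‖ζ - z₀‖ / ‖ζ - z‖ ^ 2 ≤ R / (R / 3) ^ 2 := by gcongr
          _ = 9 / R := by field_simp; norm_num
  · have h1 : Integrable (fun ζ => |D ζ| • ‖f ζ‖) :=
      (hf.mono hf.aestronglyMeasurable.norm (by filter_upwards with x; simp)
        ).integrable_smul_left_of_hasCompactSupport hD.abs
        (hDc.comp_left (g := fun x => |x|) (by simp))
    have h2 := h1.const_mul (9 / R)
    refine h2.congr ?_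
    filter_upwards with ζ
    simp only [smul_eq_mul]
    ring
  · filter_upwards with ζ z hz
    rw [mem_ball] at hz
    simp only [F']
    apply HasDerivAt.const_mul
    by_cases h : dist ζ z₀ ≤ 2 / 3 * R
    · have hD0 : D ζ = 0 := by
        simp only [D]
        rw [kern_zero hR h]
        simp
      rw [hD0]
      have : (fun z => Kf z₀ R z ζ) = fun _ => 0 := by
        funext x
        exact Kf_zero hR h
      rw [this]
      simp only [ofReal_zero, zero_mul]
      exact hasDerivAt_const _ _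
    · push Not at h
      have hne : ζ - z ≠ 0 := by
        intro h0
        rw [sub_eq_zero] at h0
        subst h0
        linarith
      have h1 : HasDerivAt (fun z => (ζ - z₀) / (ζ - z)) ((ζ - z₀) / (ζ - z) ^ 2) z := by
        have h2 : HasDerivAt (fun z => ζ - z) (-1) z := by
          simpa using (hasDerivAt_id z).const_sub ζ
        have h3 := (hasDerivAt_const z (ζ - z₀)).div h2 hne
        refine h3.congr_deriv ?_
        ring
      exact h1.const_mul _

theorem weyl {Ω : Set ℂ} (hΩ : IsOpen Ω) {f : ℂ → ℂ} (hf : LocallyIntegrable f)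
    (hw : ∀ γ : ℂ → ℂ, ContDiff ℝ 2 γ → HasCompactSupport γ → tsupport γ ⊆ Ω →
      ∫ ζ, f ζ * dbar γ ζ = 0) :
    ∃ G : ℂ → ℂ, DifferentiableOn ℂ G Ω ∧
      (∀ z ∈ Ω, ∀ ε : ℝ, 0 < ε → closedBall z ε ⊆ Ω → G z = ∫ ζ, ker z ε ζ • f ζ) ∧
      (∀ᵐ z, z ∈ Ω → f z = G z) ∧ (∀ z ∉ Ω, G z = 0) := by
  classical
  have hex : ∀ z ∈ Ω, ∃ r : ℝ, 0 < r ∧ closedBall z r ⊆ Ω := by
    intro z hz
    obtain ⟨r, hr, hr2⟩ := Metric.isOpen_iff.mp hΩ z hz
    refine ⟨r / 2, by positivity, (closedBall_subset_ball (by linarith)).trans hr2⟩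
  choose! r hr0 hr using hex
  let G : ℂ → ℂ := fun z => if z ∈ Ω then ∫ ζ, f ζ * Kf z (r z) z ζ else 0
  have hG : ∀ z ∈ Ω, ∀ c : ℂ, ∀ ε : ℝ, 0 < ε → closedBall c ε ⊆ Ω → dist z c ≤ 1 / 2 * ε →
      G z = ∫ ζ, f ζ * Kf c ε z ζ := by
    intro z hz c ε hε hcε hzc
    simp only [G, if_pos hz]
    exact avg_indep hf hw (hr0 z hz) hε (hr z hz) hcε (by simp; exact (hr0 z hz).le) hzc
  have hG2 : ∀ z ∈ Ω, ∀ ε : ℝ, 0 < ε → closedBall z ε ⊆ Ω → G z = ∫ ζ, ker z ε ζ • f ζ := by
    intro z hz ε hε hcε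
    rw [hG z hz z ε hε hcε (by simp; exact hε.le)]
    apply integral_congr_ae
    filter_upwards with ζ
    rw [Kf_ker hε, real_smul, mul_comm]
  refine ⟨G, ?_, hG2, ?_, fun z hz => by simp [G, hz]⟩
  · intro z₀ hz₀
    apply DifferentiableAt.differentiableWithinAt
    have h1 := avg_holo hf (z₀ := z₀) (hr0 z₀ hz₀)
    apply h1.congr_of_eventuallyEq
    filter_upwards [ball_mem_nhds z₀ (show 0 < 1 / 2 * r z₀ by have := hr0 z₀ hz₀; positivity)]
      with z hz
    rw [mem_ball] at hz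
    have hzΩ : z ∈ Ω := hr z₀ hz₀ (by rw [mem_closedBall]; have := hr0 z₀ hz₀; linarith)
    exact hG z hzΩ z₀ (r z₀) (hr0 z₀ hz₀) (hr z₀ hz₀) hz.le
  · filter_upwards [ae_tendsto_avg hf] with z hz hzΩ
    have h1 : Tendsto (fun ε : ℝ => ∫ ζ, ker z ε ζ • f ζ) (𝓝[>] 0) (𝓝 (G z)) := by
      apply tendsto_const_nhds.congr'
      filter_upwards [Ioo_mem_nhdsGT (hr0 z hzΩ)] with ε hε
      exact hG2 z hzΩ ε hε.1 ((closedBall_subset_closedBall hε.2.le).trans (hr z hzΩ))
    exact tendsto_nhds_unique hz h1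

/-- the averaging formula for entire functions -/
lemma entire_avg {g : ℂ → ℂ} (hg : Differentiable ℂ g) (z : ℂ) {ε : ℝ} (hε : 0 < ε) :
    g z = ∫ ζ, ker z ε ζ • g ζ := by
  have hw : ∀ γ : ℂ → ℂ, ContDiff ℝ 2 γ → HasCompactSupport γ → tsupport γ ⊆ Set.univ →
      ∫ ζ, g ζ * dbar γ ζ = 0 := by
    intro γ h1 h2 _
    have hgc : ContDiff ℝ 1 g := (hg.contDiff (n := 1)).restrict_scalars ℝ
    have h3 := integral_dbar_zero (P := fun x => g x * γ x) (hgc.mul (h1.of_le (by norm_num)))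
      (h2.mul_left)
    rw [← h3]
    apply integral_congr_ae
    filter_upwards with ζ
    have e1 : dbar g ζ = 0 := by
      unfold dbar
      have := (hg ζ).hasDerivAt.hasFDerivAt.restrictScalars ℝ
      rw [this.fderiv]
      simp
      rw [← mul_assoc, I_mul_I]
      ring
    rw [dbar_mul (hgc.differentiable (by norm_num) ζ) (h1.differentiable (by norm_num) ζ), e1]
    ring
  obtain ⟨G, hG1, hG2, hG3, hG4⟩ := weyl isOpen_univ hg.continuous.locallyIntegrable hw
  have h1 := hG2 z (Set.mem_univ z) ε hε (Set.subset_univ _)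
  rw [← h1]
  have h2 := tendsto_avg_of_continuousAt hg.continuous.locallyIntegrable
    (hg.continuous.continuousAt (x := z))
  have h3 : Tendsto (fun ε : ℝ => ∫ ζ, ker z ε ζ • g ζ) (𝓝[>] 0) (𝓝 (G z)) := by
    apply tendsto_const_nhds.congr'
    filter_upwards [self_mem_nhdsWithin] with ε hε
    exact hG2 z (Set.mem_univ z) ε hε (Set.subset_univ _)
  exact tendsto_nhds_unique h2 h3

end Pool.Agent.Work.MP_06ac62_an
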